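import Mathlib

/-!
Definitions used in the statement: the Sobolev space on Euclidean space through weak derivatives,
the energy and global solutions of the forced nonlinear Schroedinger equation.
-/

open MeasureTheory Set
open scoped ContDiff

namespace Pool.Agent.Lib.MP_13801a_an.ND

noncomputable section

/-- Euclidean space of dimension `N`. -/
abbrev E (N : ℕ) := EuclideanSpace ℝ (Fin N)

/-- Square integrable complex functions on Euclidean space. -/
abbrev L2 (N : ℕ) := Lp ℂ 2 (volume : Measure (E N))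

variable {N : ℕ}

/-- Smooth real functions with compact support. -/
def Test (φ : E N → ℝ) : Prop := ContDiff ℝ ∞ φ ∧ HasCompactSupport φ

/-- The derivative of `φ` in the direction of coordinate `i`. -/
def pd (i : Fin N) (φ : E N → ℝ) (x : E N) : ℝ := fderiv ℝ φ x (EuclideanSpace.single i 1)

/-- The nonlinearity `|z| ^ α * z`. -/
def NL (α : ℝ) (z : ℂ) : ℂ := ((‖z‖ ^ α : ℝ) : ℂ) * z

/-- `du i` is the weak derivative of `u` in the direction of coordinate `i`. -/
def WeakGrad (u : L2 N) (du : Fin N → L2 N) : Prop :=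
  ∀ φ, Test φ → ∀ i, ∫ x, u x * ((pd i φ x : ℝ) : ℂ) = -∫ x, du i x * ((φ x : ℝ) : ℂ)

/-- The energy of `u` with weak gradient `du`. -/
def energy (α : ℝ) (u : L2 N) (du : Fin N → L2 N) : ℝ :=
  (∑ i, ∫ x, ‖du i x‖ ^ 2) / 2 - (∫ x, ‖u x‖ ^ (α + 2)) / (α + 2)

/-- `u` is continuous from `[0, ∞)` to the Sobolev space (with weak gradient `du`) and solves
`u_t = i (Δ u + |u| ^ α u) + γ u` for `t > 0` when paired with any test function. -/
structure GlobalSol (α γ : ℝ) (u : ℝ → L2 N) (du : ℝ → Fin N → L2 N) : Prop where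
  cont : ContinuousOn u (Ici 0)
  contD : ∀ i, ContinuousOn (fun t => du t i) (Ici 0)
  weak : ∀ t, 0 ≤ t → WeakGrad (u t) (du t)
  eqn : ∀ φ, Test φ → ∀ t, 0 < t → HasDerivAt (fun s => ∫ x, u s x * ((φ x : ℝ) : ℂ))
    (Complex.I * (-(∑ i, ∫ x, du t i x * ((pd i φ x : ℝ) : ℂ)) +
      ∫ x, NL α (u t x) * ((φ x : ℝ) : ℂ)) + γ * ∫ x, u t x * ((φ x : ℝ) : ℂ)) t

end

end Pool.Agent.Lib.MP_13801a_an.ND
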