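import Mathlib
import Pool.Agent.Lib.MP_13801a_an.ND.Stmt

/-!
Working definitions for the blowup proof in all dimensions: the evolution part.
-/

open MeasureTheory Set Filter
open scoped ContDiff Topology ComplexConjugate

namespace Pool.Agent.Lib.MP_13801a_an.ND

noncomputable section

variable {N : ℕ}

/-! ### Norms -/

/-- Coordinate vectors. -/
def ee (i : Fin N) : E N := EuclideanSpace.single i 1

/-- Membership in `L^p` for a real exponent. -/
def Mem (p : ℝ) (g : E N → ℂ) : Prop := MemLp g (ENNReal.ofReal p) volume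

/-- The norm in `L^p` for a real exponent. -/
def nr (p : ℝ) (g : E N → ℂ) : ℝ := lpNorm g (ENNReal.ofReal p) volume

/-- Square of the norm in `L2`. -/
def ms (g : E N → ℂ) : ℝ := ∫ x, ‖g x‖ ^ 2

/-- Square of the norm of a gradient. -/
def kin (dg : Fin N → E N → ℂ) : ℝ := ∑ i, ms (dg i)

/-- The potential integral. -/
def pw (α : ℝ) (g : E N → ℂ) : ℝ := ∫ x, ‖g x‖ ^ (α + 2)

/-- Difference of a translate and the function. -/
def sh (h : E N) (g : E N → ℂ) : E N → ℂ := fun x => g (x + h) - g x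

theorem pd_eq (i : Fin N) (φ : E N → ℝ) (x : E N) : pd i φ x = fderiv ℝ φ x (ee i) := rfl

theorem norm_ee (i : Fin N) : ‖(ee i : E N)‖ = 1 := by simp [ee]

theorem ms_nonneg (g : E N → ℂ) : 0 ≤ ms g := integral_nonneg fun _ => by positivity

theorem kin_nonneg (dg : Fin N → E N → ℂ) : 0 ≤ kin dg :=
  Finset.sum_nonneg fun _ _ => ms_nonneg _

theorem pw_nonneg (α : ℝ) (g : E N → ℂ) : 0 ≤ pw α g := integral_nonneg fun _ => by positivity

theorem nr_nonneg (p : ℝ) (g : E N → ℂ) : 0 ≤ nr p g := lpNorm_nonneg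

theorem mem_two {g : E N → ℂ} : Mem 2 g ↔ MemLp g 2 volume := by
  simp [Mem]

theorem integrable_ms {g : E N → ℂ} (hg : MemLp g 2 volume) : Integrable fun x => ‖g x‖ ^ 2 :=
  (memLp_two_iff_integrable_sq_norm hg.1).1 hg

theorem Mem.integrable_rpow {p : ℝ} (hp : 0 < p) {g : E N → ℂ} (hg : Mem p g) :
    Integrable fun x => ‖g x‖ ^ p := by
  have h := hg.integrable_norm_rpow (by simpa using hp) ENNReal.ofReal_ne_top
  rwa [ENNReal.toReal_ofReal hp.le] at h

theorem mem_of_integrable_rpow {p : ℝ} (hp : 0 < p) {g : E N → ℂ}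
    (hm : AEStronglyMeasurable g volume) (hg : Integrable fun x => ‖g x‖ ^ p) : Mem p g := by
  rw [Mem, ← integrable_norm_rpow_iff hm (by simpa using hp) ENNReal.ofReal_ne_top,
    ENNReal.toReal_ofReal hp.le]
  exact hg

theorem nr_eq {p : ℝ} (hp : 0 < p) {g : E N → ℂ} (hg : AEStronglyMeasurable g volume) :
    nr p g = (∫ x, ‖g x‖ ^ p) ^ p⁻¹ := by
  rw [nr, lpNorm_eq_integral_norm_rpow_toReal (by simpa using hp) ENNReal.ofReal_ne_top hg,
    ENNReal.toReal_ofReal hp.le]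

theorem nr_rpow {p : ℝ} (hp : 0 < p) {g : E N → ℂ} (hg : AEStronglyMeasurable g volume) :
    nr p g ^ p = ∫ x, ‖g x‖ ^ p := by
  rw [nr_eq hp hg, Real.rpow_inv_rpow (integral_nonneg fun _ => by positivity) hp.ne']

theorem nr_two_sq {g : E N → ℂ} (hg : AEStronglyMeasurable g volume) : nr 2 g ^ 2 = ms g := by
  have h := nr_rpow (p := 2) two_pos hg
  simpa [ms] using h

theorem nr_two {g : E N → ℂ} (hg : AEStronglyMeasurable g volume) : nr 2 g = √(ms g) := by
  rw [← nr_two_sq hg, Real.sqrt_sq (nr_nonneg _ _)]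

theorem Mem.sub {p : ℝ} {g g' : E N → ℂ} (hg : Mem p g) (hg' : Mem p g') :
    Mem p fun x => g x - g' x := MemLp.sub hg hg'

theorem Mem.add {p : ℝ} {g g' : E N → ℂ} (hg : Mem p g) (hg' : Mem p g') :
    Mem p fun x => g x + g' x := MemLp.add hg hg'

theorem nr_add_le {p : ℝ} (hp : 1 ≤ p) {g g' : E N → ℂ} (hg : Mem p g) :
    nr p (fun x => g x + g' x) ≤ nr p g + nr p g' :=
  lpNorm_add_le hg (by simpa using ENNReal.ofReal_le_ofReal hp)

theorem nr_sub_le {p : ℝ} (hp : 1 ≤ p) {g g' : E N → ℂ} (hg : Mem p g) :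
    nr p (fun x => g x - g' x) ≤ nr p g + nr p g' :=
  lpNorm_sub_le hg (by simpa using ENNReal.ofReal_le_ofReal hp)

theorem nr_sub_comm (p : ℝ) (g g' : E N → ℂ) :
    nr p (fun x => g x - g' x) = nr p fun x => g' x - g x := lpNorm_sub_comm g g' _ _

theorem nr_tri {p : ℝ} (hp : 1 ≤ p) {f g h : E N → ℂ} (hf : Mem p f) (hg : Mem p g) :
    nr p (fun x => f x - h x) ≤ nr p (fun x => f x - g x) + nr p fun x => g x - h x :=
  lpNorm_sub_le_lpNorm_sub_add_lpNorm_sub hf hg (by simpa using ENNReal.ofReal_le_ofReal hp)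

theorem abs_nr_sub_le {p : ℝ} (hp : 1 ≤ p) {f g : E N → ℂ} (hf : Mem p f) (hg : Mem p g) :
    |nr p f - nr p g| ≤ nr p fun x => f x - g x := by
  have hp' : (1 : ENNReal) ≤ ENNReal.ofReal p := by simpa using ENNReal.ofReal_le_ofReal hp
  have h1 := lpNorm_le_lpNorm_add_lpNorm_sub' (f := f) hg hp'
  have h2 := lpNorm_le_lpNorm_add_lpNorm_sub (f := g) hf hp'
  rw [abs_le]
  constructor
  · have : nr p g ≤ nr p f + nr p fun x => f x - g x := h2
    linarith
  · have : nr p f ≤ nr p g + nr p fun x => f x - g x := h1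
    linarith

theorem nr_mono {p : ℝ} {f g : E N → ℂ} (hg : Mem p g) (h : ∀ x, ‖f x‖ ≤ ‖g x‖) :
    nr p f ≤ nr p g := by
  have h1 := lpNorm_mono_real (f := f) (p := ENNReal.ofReal p) (μ := volume) hg.norm h
  rwa [lpNorm_norm hg.1] at h1

theorem nr_const_mul (p : ℝ) (c : ℂ) (g : E N → ℂ) :
    nr p (fun x => c * g x) = ‖c‖ * nr p g := by
  have h := lpNorm_const_smul (p := ENNReal.ofReal p) c g (volume : Measure (E N))
  simpa [nr, Pi.smul_def] using h

/-- Hoelder inequality. -/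
theorem holder {p q : ℝ} (hpq : p.HolderConjugate q) {f g : E N → ℂ} (hf : Mem p f)
    (hg : Mem q g) :
    (Integrable fun x => ‖f x‖ * ‖g x‖) ∧ ∫ x, ‖f x‖ * ‖g x‖ ≤ nr p f * nr q g := by
  constructor
  · have : ENNReal.HolderTriple (ENNReal.ofReal p) (ENNReal.ofReal q) 1 := by
      simpa using hpq.ennrealOfReal
    exact (MemLp.norm hf).integrable_mul (MemLp.norm hg)
  · have h := integral_mul_norm_le_Lp_mul_Lq (μ := volume) (f := f) (g := g) hpq hf hg
    rw [nr_eq hpq.pos hf.1, nr_eq hpq.symm.pos hg.1]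
    simpa [one_div] using h

theorem holder_integrable {p q : ℝ} (hpq : p.HolderConjugate q) {f g : E N → ℂ} (hf : Mem p f)
    (hg : Mem q g) : Integrable fun x => f x * g x :=
  (holder hpq hf hg).1.mono' (hf.1.mul hg.1) (Eventually.of_forall fun x => by simp)

theorem holder_norm {p q : ℝ} (hpq : p.HolderConjugate q) {f g : E N → ℂ} (hf : Mem p f)
    (hg : Mem q g) : ‖∫ x, f x * g x‖ ≤ nr p f * nr q g :=
  (norm_integral_le_integral_norm _).trans (by simpa using (holder hpq hf hg).2)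

theorem conj_exp {α : ℝ} (hα : 0 < α) : (α + 2).HolderConjugate ((α + 2) / (α + 1)) := by
  rw [Real.holderConjugate_iff]
  refine ⟨by linarith, ?_⟩
  have : α + 2 ≠ 0 := by positivity
  have : α + 1 ≠ 0 := by positivity
  field_simp
  ring

/-- Cauchy-Schwarz inequality. -/
theorem integral_norm_mul_le {g g' : E N → ℂ} (hg : MemLp g 2 volume) (hg' : MemLp g' 2 volume) :
    (Integrable fun x => ‖g x‖ * ‖g' x‖) ∧ ∫ x, ‖g x‖ * ‖g' x‖ ≤ √(ms g) * √(ms g') := by
  have h := holder Real.HolderConjugate.two_two (mem_two.2 hg) (mem_two.2 hg')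
  rwa [nr_two hg.1, nr_two hg'.1] at h

theorem Test.pd {φ : E N → ℝ} (h : Test φ) (i : Fin N) : Test (pd i φ) :=
  ⟨(h.1.fderiv_right (m := ∞) le_rfl).clm_apply contDiff_const, h.2.fderiv_apply ℝ _⟩

/-! ### Sobolev functions and solutions -/

/-- A Sobolev function `g` with weak gradient `dg`. -/
structure H1 (g : E N → ℂ) (dg : Fin N → E N → ℂ) : Prop where
  mem0 : MemLp g 2 volume
  mem1 : ∀ i, MemLp (dg i) 2 volume
  weak : ∀ φ, Test φ → ∀ i,
    ∫ x, g x * ((pd i φ x : ℝ) : ℂ) = -∫ x, dg i x * ((φ x : ℝ) : ℂ)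

/-- The translation estimate of Sobolev functions. -/
def TL (g : E N → ℂ) (K : ℝ) : Prop := MemLp g 2 volume ∧ ∀ h, ms (sh h g) ≤ ‖h‖ ^ 2 * K

/-- Subcritical powers. -/
def Sub (N : ℕ) (α : ℝ) : Prop := 1 ≤ N ∧ 0 < α ∧ ((N : ℝ) - 2) * α < 4

/-- Solutions of `v_t = i (Δ v + exp (κ t) |v| ^ α v)` for `t > 0`, extended to all times. -/
structure Sol (α κ : ℝ) (v : ℝ → E N → ℂ) (dv : ℝ → Fin N → E N → ℂ) : Prop where
  h1 : ∀ t, H1 (v t) (dv t)
  c0 : ∀ t, Tendsto (fun s => ms fun x => v s x - v t x) (𝓝 t) (𝓝 0)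
  c1 : ∀ t i, Tendsto (fun s => ms fun x => dv s i x - dv t i x) (𝓝 t) (𝓝 0)
  eqn : ∀ φ, Test φ → ∀ t, 0 < t → HasDerivAt (fun s => ∫ x, v s x * ((φ x : ℝ) : ℂ))
    (Complex.I * (-(∑ i, ∫ x, dv t i x * ((pd i φ x : ℝ) : ℂ)) +
      (Real.exp (κ * t) : ℝ) * ∫ x, NL α (v t x) * ((φ x : ℝ) : ℂ))) t

/-- The potential energy. -/
def pot (α κ : ℝ) (v : ℝ → E N → ℂ) (t : ℝ) : ℝ := Real.exp (κ * t) * pw α (v t) / (α + 2)

/-- The time dependent energy. -/
def en (α κ : ℝ) (v : ℝ → E N → ℂ) (dv : ℝ → Fin N → E N → ℂ) (t : ℝ) : ℝ :=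
  kin (dv t) / 2 - pot α κ v t

/-! ### Fluid quantities and virial weights -/

/-- Current. -/
def jj (g : E N → ℂ) (dg : Fin N → E N → ℂ) (i : Fin N) (x : E N) : ℝ :=
  2 * (conj (g x) * dg i x).im

/-- Gradient of the density. -/
def nn (g : E N → ℂ) (dg : Fin N → E N → ℂ) (i : Fin N) (x : E N) : ℝ :=
  2 * (conj (g x) * dg i x).re

/-- Kinetic density. -/
def kd (dg : Fin N → E N → ℂ) (x : E N) : ℝ := ∑ i, ‖dg i x‖ ^ 2

/-- Kinetic stress. -/
def st (dg : Fin N → E N → ℂ) (i j : Fin N) (x : E N) : ℝ := (conj (dg i x) * dg j x).re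

/-- A bounded weight with bounded derivatives in the coordinate directions. -/
structure BW (Ψ : E N → ℝ) (Ψ1 : Fin N → E N → ℝ) : Prop where
  der : ∀ i x, HasLineDerivAt ℝ Ψ (Ψ1 i x) x (ee i)
  bd : ∃ B : ℝ, ∀ x, |Ψ x| ≤ B ∧ ∀ i, |Ψ1 i x| ≤ B

/-- A bounded vector field `X`; `X1 i j` and `X2 i j` are the first and second derivatives of the
component `j` in the direction `i`. -/
structure VF (X : Fin N → E N → ℝ) (X1 X2 : Fin N → Fin N → E N → ℝ) : Prop where
  d1 : ∀ i j x, HasLineDerivAt ℝ (X j) (X1 i j x) x (ee i)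
  d2 : ∀ i j x, HasLineDerivAt ℝ (X1 i j) (X2 i j x) x (ee i)
  bd : ∃ B : ℝ, ∀ i j x, |X j x| ≤ B ∧ |X1 i j x| ≤ B ∧ |X2 i j x| ≤ B

/-- The localised momentum. -/
def mom (X : Fin N → E N → ℝ) (g : E N → ℂ) (dg : Fin N → E N → ℂ) : ℝ :=
  ∑ j, ∫ x, X j x * jj g dg j x

/-- The right hand side of the virial identity. -/
def vir (α lam : ℝ) (X1 X2 : Fin N → Fin N → E N → ℝ) (g : E N → ℂ) (dg : Fin N → E N → ℂ) : ℝ :=
  4 * (∑ i, ∑ j, ∫ x, X1 i j x * st dg i j x) -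
    2 * α / (α + 2) * lam * (∑ i, ∫ x, X1 i i x * ‖g x‖ ^ (α + 2)) +
    ∑ i, ∑ j, ∫ x, X2 i j x * nn g dg j x

/-- Bounded derivatives in the coordinate directions give a Lipschitz bound. -/
theorem lip_of_line {f : E N → ℝ} {f1 : Fin N → E N → ℝ} {c : ℝ}
    (hd : ∀ i x, HasLineDerivAt ℝ f (f1 i x) x (ee i)) (hb : ∀ i x, |f1 i x| ≤ c) (x y : E N) :
    |f x - f y| ≤ N * c * ‖x - y‖ := by
  have h1 : ∀ (i : Fin N) (z : E N) (s : ℝ), |f (z + s • ee i) - f z| ≤ c * |s| := by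
    intro i z s
    have hd' : ∀ t : ℝ, HasDerivAt (fun t : ℝ => f (z + t • ee i)) (f1 i (z + t • ee i)) t := by
      intro t
      have h := hd i (z + t • ee i)
      unfold HasLineDerivAt at h
      have h2 : HasDerivAt (fun u : ℝ => f (z + t • ee i + u • ee i)) (f1 i (z + t • ee i))
          (t - t) := by simpa using h
      have h3 := h2.comp_sub_const t t
      refine h3.congr_of_eventuallyEq (Eventually.of_forall fun u => ?_)
      simp only [sub_smul]
      congr 1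
      abel
    have h := Convex.norm_image_sub_le_of_norm_hasDerivWithin_le (s := univ) (x := 0) (y := s)
      (f := fun t : ℝ => f (z + t • ee i)) (f' := fun t => f1 i (z + t • ee i)) (C := c)
      (fun t _ => (hd' t).hasDerivWithinAt) (fun t _ => hb i _) convex_univ trivial trivial
    simpa using h
  have h2 : ∀ (S : Finset (Fin N)) (d : E N),
      |f (y + ∑ i ∈ S, d i • ee i) - f y| ≤ ∑ i ∈ S, c * |d i| := by
    intro S d
    induction S using Finset.induction_on with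
    | empty => simp
    | insert i S hi ih =>
      rw [Finset.sum_insert hi, Finset.sum_insert hi]
      have h3 := h1 i (y + ∑ j ∈ S, d j • ee j) (d i)
      have e : y + (d i • ee i + ∑ j ∈ S, d j • ee j) =
          y + ∑ j ∈ S, d j • ee j + d i • ee i := by abel
      rw [e]
      have h4 := abs_sub_le (f (y + ∑ j ∈ S, d j • ee j + d i • ee i))
        (f (y + ∑ j ∈ S, d j • ee j)) (f y)
      linarith
  have h3 := h2 Finset.univ (x - y)
  have e : y + ∑ i, (x - y) i • (ee i : E N) = x := by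
    ext j
    simp [ee, Finset.sum_apply, Pi.single_apply]
  rw [e] at h3
  refine h3.trans ?_
  rcases isEmpty_or_nonempty (Fin N) with h0 | ⟨⟨i0⟩⟩
  · have : N = 0 := by
      have := Fintype.card_eq_zero (α := Fin N)
      rwa [Fintype.card_fin] at this
    subst this
    simp
  · have hc : 0 ≤ c := (abs_nonneg _).trans (hb i0 x)
    calc ∑ i, c * |(x - y) i| ≤ ∑ _i : Fin N, c * ‖x - y‖ :=
          Finset.sum_le_sum fun i _ => mul_le_mul_of_nonneg_left
            (by simpa using PiLp.norm_apply_le (x - y) i) hc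
      _ = N * c * ‖x - y‖ := by simp [mul_assoc]

theorem continuous_of_line {f : E N → ℝ} {f1 : Fin N → E N → ℝ} {c : ℝ}
    (hd : ∀ i x, HasLineDerivAt ℝ f (f1 i x) x (ee i)) (hb : ∀ i x, |f1 i x| ≤ c) :
    Continuous f := by
  refine (LipschitzWith.of_dist_le' (K := N * c) fun x y => ?_).continuous
  rw [Real.dist_eq, dist_eq_norm]
  exact lip_of_line hd hb x y

/-- The derivative along a line of a measurable function is measurable. -/
theorem measurable_of_line {f f1 : E N → ℝ} {h : E N} (hf : Measurable f)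
    (hd : ∀ x, HasLineDerivAt ℝ f (f1 x) x h) : Measurable f1 := by
  refine measurable_of_tendsto_metrizable
    (f := fun (n : ℕ) x => ((1 : ℝ) / (n + 1))⁻¹ • (f (x + ((1 : ℝ) / (n + 1)) • h) - f x))
    (fun n => ?_) ?_
  · exact ((hf.comp (measurable_add_const _)).sub hf).const_smul ((1 : ℝ) / (n + 1))⁻¹
  · rw [tendsto_pi_nhds]
    intro x
    have h1 := (hd x).tendsto_slope_zero
    refine h1.comp (f := fun n : ℕ => (1 : ℝ) / (n + 1)) ?_
    refine tendsto_nhdsWithin_iff.2 ⟨tendsto_one_div_add_atTop_nhds_zero_nat, ?_⟩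
    exact Eventually.of_forall fun n => by
      simp only [mem_compl_iff, mem_singleton_iff]
      positivity

theorem BW.cont {Ψ : E N → ℝ} {Ψ1 : Fin N → E N → ℝ} (h : BW Ψ Ψ1) : Continuous Ψ := by
  obtain ⟨B, hB⟩ := h.bd
  exact continuous_of_line h.der fun i x => (hB x).2 i

theorem BW.meas {Ψ : E N → ℝ} {Ψ1 : Fin N → E N → ℝ} (h : BW Ψ Ψ1) (i : Fin N) :
    Measurable (Ψ1 i) := measurable_of_line h.cont.measurable (h.der i)

theorem VF.bw {X : Fin N → E N → ℝ} {X1 X2 : Fin N → Fin N → E N → ℝ} (h : VF X X1 X2)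
    (j : Fin N) : BW (X j) fun i => X1 i j := by
  obtain ⟨B, hB⟩ := h.bd
  exact ⟨fun i x => h.d1 i j x, B, fun x => ⟨(hB j j x).1, fun i => (hB i j x).2.1⟩⟩

theorem VF.cont {X : Fin N → E N → ℝ} {X1 X2 : Fin N → Fin N → E N → ℝ} (h : VF X X1 X2)
    (j : Fin N) : Continuous (X j) := (h.bw j).cont

theorem VF.meas1 {X : Fin N → E N → ℝ} {X1 X2 : Fin N → Fin N → E N → ℝ} (h : VF X X1 X2)
    (i j : Fin N) : Measurable (X1 i j) := (h.bw j).meas i

theorem VF.meas2 {X : Fin N → E N → ℝ} {X1 X2 : Fin N → Fin N → E N → ℝ} (h : VF X X1 X2)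
    (i j : Fin N) : Measurable (X2 i j) := measurable_of_line (h.meas1 i j) (h.d2 i j)

/-! ### Convolution, mollifiers and Gaussian kernels -/

/-- Convolution with a complex kernel. -/
def cv (k g : E N → ℂ) (x : E N) : ℂ := ∫ y, k (x - y) * g y

/-- A real kernel as a complex kernel. -/
def cr (k : E N → ℝ) : E N → ℂ := fun y => ((k y : ℝ) : ℂ)

/-- Bounded integrable kernels. -/
def Ker (k : E N → ℂ) : Prop := Integrable k ∧ ∃ C : ℝ, ∀ y, ‖k y‖ ≤ C

/-- A fixed bump. -/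
def bmp (N : ℕ) : ContDiffBump (0 : E N) := ⟨1 / 2, 1, by norm_num, by norm_num⟩

/-- The mollifier at scale `r`. -/
def mol (r : ℝ) (x : E N) : ℝ := (r ^ N)⁻¹ * (bmp N).normed volume (r⁻¹ • x)

/-- Iterated derivatives along a word of coordinate directions. -/
def pdw : List (Fin N) → (E N → ℝ) → E N → ℝ
  | [], φ => φ
  | i :: w, φ => pd i (pdw w φ)

theorem pdw_nil (φ : E N → ℝ) : pdw [] φ = φ := rfl

theorem pdw_cons (i : Fin N) (w : List (Fin N)) (φ : E N → ℝ) :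
    pdw (i :: w) φ = pd i (pdw w φ) := rfl

theorem Test.pdw {φ : E N → ℝ} (h : Test φ) : ∀ w, Test (pdw w φ)
  | [] => h
  | i :: w => (Test.pdw h w).pd i

/-- Derivatives of the mollified solution. -/
def fm (r : ℝ) (v : ℝ → E N → ℂ) (w : List (Fin N)) (t : ℝ) : E N → ℂ :=
  cv (cr (pdw w (mol r))) (v t)

/-- Derivatives of the mollified nonlinearity. -/
def nm (α r : ℝ) (v : ℝ → E N → ℂ) (w : List (Fin N)) (t : ℝ) : E N → ℂ :=
  cv (cr (pdw w (mol r))) fun y => NL α (v t y)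

/-- Smooth solutions of `f_t = i (Δ f + exp (κ t) n)`; `f w` and `n w` are the derivatives along
the word `w`. -/
structure Apx (α κ : ℝ) (f n : List (Fin N) → ℝ → E N → ℂ) : Prop where
  cf : ∀ w, Continuous fun p : ℝ × E N => f w p.1 p.2
  cn : ∀ w, Continuous fun p : ℝ × E N => n w p.1 p.2
  dxf : ∀ w i t x, HasLineDerivAt ℝ (f w t) (f (i :: w) t x) x (ee i)
  dxn : ∀ w i t x, HasLineDerivAt ℝ (n w t) (n (i :: w) t x) x (ee i)
  dt : ∀ w t x, 0 < t → HasDerivAt (fun s => f w s x)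
    (Complex.I * ((∑ j, f (j :: j :: w) t x) + (Real.exp (κ * t) : ℝ) * n w t x)) t
  mf : ∀ w t, MemLp (f w t) 2 volume ∧ Mem (α + 2) (f w t)
  mn : ∀ w t, Mem ((α + 2) / (α + 1)) (n w t)
  bd : ∀ w (T : ℝ), ∃ C : ℝ, ∀ t, |t| ≤ T → ms (f w t) ≤ C ∧ nr (α + 2) (f w t) ≤ C ∧
    nr ((α + 2) / (α + 1)) (n w t) ≤ C

/-- The commutator. -/
def com (α : ℝ) (f n : List (Fin N) → ℝ → E N → ℂ) (t : ℝ) (x : E N) : ℂ :=
  n [] t x - NL α (f [] t x)

/-- `A` is a primitive of `J` up to the error `e`, for nonnegative times. -/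
def Rate (A J e : ℝ → ℝ) : Prop :=
  ∀ s t, 0 ≤ s → s ≤ t → ∃ D : ℝ → ℝ, IntervalIntegrable D volume s t ∧
    A t - A s = ∫ σ in s..t, D σ ∧ ∀ σ ∈ Icc s t, |D σ - J σ| ≤ e σ

/-- The truncated nonlinearity. -/
def gm (α m : ℝ) (z : ℂ) : ℂ := ((min ‖z‖ m ^ α : ℝ) : ℂ) * z

/-- The truncated potential. -/
def Fm (α m : ℝ) (z : ℂ) : ℝ := (∫ σ in (0 : ℝ)..‖z‖ ^ 2, min (√σ) m ^ α) / 2

/-- The heat kernel at complex time. -/
def GK (z : ℂ) (y : E N) : ℂ :=
  ((4 * Real.pi * z) ^ (-(1 / 2) : ℂ)) ^ N * Complex.exp (-((‖y‖ ^ 2 : ℝ) : ℂ) / (4 * z))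

/-- The heat kernel. -/
def hk (s : ℝ) (y : E N) : ℝ := (4 * Real.pi * s) ^ (-(N : ℝ) / 2) * Real.exp (-‖y‖ ^ 2 / (4 * s))

/-- Derivative of a complex function in a coordinate direction. -/
def pdc (i : Fin N) (φ : E N → ℂ) (x : E N) : ℂ := fderiv ℝ φ x (ee i)

/-- Smooth functions with Gaussian decay of the function and of the gradient. -/
def Nice (φ : E N → ℂ) : Prop := ContDiff ℝ ∞ φ ∧ ∃ C c : ℝ, 0 < c ∧ ∀ x,
  ‖φ x‖ ≤ C * Real.exp (-c * ‖x‖ ^ 2) ∧ ∀ i, ‖pdc i φ x‖ ≤ C * Real.exp (-c * ‖x‖ ^ 2)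

/-- The Gaussian of width `r`. -/
def gs (r : ℝ) (y : E N) : ℝ := Real.exp (-‖y‖ ^ 2 / (2 * r ^ 2))

/-- Points at which the local mass at all scales `r ≥ r0` is at most `Θ r ^ q`. -/
def Sp (q Θ r0 : ℝ) (ρ : E N → ℝ) : Set (E N) :=
  {x | ∀ r, r0 ≤ r → ∫ y, gs r (x - y) * ρ y ≤ Θ * r ^ q}

/-- The weight on a window of times. -/
def wt (t1 T s : ℝ) : ℝ := (s - t1) ^ 2 * (t1 + T - s) ^ 2

end

end Pool.Agent.Lib.MP_13801a_an.ND
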