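import Mathlib
import Pool.Agent.Lib.MP_13801a_an.ND.DefsA

/-!
Working definitions for the blowup proof in all dimensions: the adaptive vector field.
-/

open MeasureTheory Set Filter Matrix
open scoped Topology

namespace Pool.Agent.Lib.MP_13801a_an.ND

noncomputable section

variable {N : ℕ}

/-! ### Matrices -/

/-- Square matrices. -/
abbrev Mt (N : ℕ) := Matrix (Fin N) (Fin N) ℝ

/-- The entrywise inner product. -/
def ip (A B : Mt N) : ℝ := ∑ i, ∑ j, A i j * B i j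

/-- The entrywise `ℓ¹` norm. -/
def n1 (A : Mt N) : ℝ := ∑ i, ∑ j, |A i j|

/-- The quadratic form of a matrix. -/
def qf (A : Mt N) (y : Fin N → ℝ) : ℝ := ∑ i, ∑ j, A i j * (y i * y j)

/-- The square of the inverse. -/
def iv2 (A : Mt N) : Mt N := A⁻¹ * A⁻¹

/-- A matrix as a linear map of Euclidean space. -/
def ap (A : Mt N) : E N →L[ℝ] E N := Matrix.toEuclideanCLM (𝕜 := ℝ) A

theorem ap_apply (A : Mt N) (x : E N) (i : Fin N) : ap A x i = ∑ j, A i j * x j := rfl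

theorem ee_apply (i j : Fin N) : (ee i : E N) j = if j = i then 1 else 0 := by
  simp [ee]

theorem ap_ee (A : Mt N) (i j : Fin N) : ap A (ee j) i = A i j := by
  simp [ap_apply, ee_apply]

theorem sum_ee (h : E N) : ∑ i, h i • (ee i : E N) = h := by
  ext j
  simp [ee, Finset.sum_apply, Pi.single_apply]

theorem inner_ee (x : E N) (i : Fin N) : inner ℝ x (ee i) = x i := by
  simp [ee, EuclideanSpace.inner_single_right]

theorem n1_nonneg (A : Mt N) : 0 ≤ n1 A :=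
  Finset.sum_nonneg fun _ _ => Finset.sum_nonneg fun _ _ => abs_nonneg _

theorem abs_le_n1 (A : Mt N) (i j : Fin N) : |A i j| ≤ n1 A :=
  (Finset.single_le_sum (f := fun j => |A i j|) (fun _ _ => abs_nonneg _)
    (Finset.mem_univ j)).trans
    (Finset.single_le_sum (f := fun i => ∑ j, |A i j|)
      (fun _ _ => Finset.sum_nonneg fun _ _ => abs_nonneg _) (Finset.mem_univ i))

theorem n1_zero : n1 (0 : Mt N) = 0 := by simp [n1]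

theorem n1_add_le (A B : Mt N) : n1 (A + B) ≤ n1 A + n1 B := by
  simp only [n1, ← Finset.sum_add_distrib]
  exact Finset.sum_le_sum fun i _ => Finset.sum_le_sum fun j _ => abs_add_le _ _

theorem n1_smul (c : ℝ) (A : Mt N) : n1 (c • A) = |c| * n1 A := by
  simp [n1, Finset.mul_sum, abs_mul]

theorem n1_neg (A : Mt N) : n1 (-A) = n1 A := by simp [n1]

theorem n1_sub_comm (A B : Mt N) : n1 (A - B) = n1 (B - A) := by
  rw [← n1_neg, neg_sub]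

theorem n1_sum_le {ι : Type*} (s : Finset ι) (A : ι → Mt N) :
    n1 (∑ i ∈ s, A i) ≤ ∑ i ∈ s, n1 (A i) := by
  classical
  induction s using Finset.induction_on with
  | empty => simp [n1_zero]
  | insert i s hi ih =>
    rw [Finset.sum_insert hi, Finset.sum_insert hi]
    linarith [n1_add_le (A i) (∑ j ∈ s, A j)]

theorem n1_le_of_abs {A : Mt N} {c : ℝ} (h : ∀ i j, |A i j| ≤ c) : n1 A ≤ (N : ℝ) ^ 2 * c := by
  calc n1 A ≤ ∑ _i : Fin N, ∑ _j : Fin N, c :=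
        Finset.sum_le_sum fun i _ => Finset.sum_le_sum fun j _ => h i j
    _ = (N : ℝ) ^ 2 * c := by simp; ring

theorem abs_trace_le (A : Mt N) : |A.trace| ≤ n1 A := by
  refine (Finset.abs_sum_le_sum_abs _ _).trans (Finset.sum_le_sum fun i _ => ?_)
  exact Finset.single_le_sum (f := fun j => |A i j|) (fun _ _ => abs_nonneg _) (Finset.mem_univ i)

theorem abs_ip_le {A : Mt N} {c : ℝ} (h : ∀ i j, |A i j| ≤ c) (B : Mt N) :
    |ip A B| ≤ c * n1 B := by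
  simp only [ip, n1, Finset.mul_sum]
  refine (Finset.abs_sum_le_sum_abs _ _).trans (Finset.sum_le_sum fun i _ => ?_)
  refine (Finset.abs_sum_le_sum_abs _ _).trans (Finset.sum_le_sum fun j _ => ?_)
  rw [abs_mul]
  exact mul_le_mul_of_nonneg_right (h i j) (abs_nonneg _)

theorem abs_qf_le (A : Mt N) (y : Fin N → ℝ) : |qf A y| ≤ n1 A * ∑ i, y i ^ 2 := by
  have h : ∀ i j, |y i * y j| ≤ ∑ l, y l ^ 2 := fun i j => by
    have h1 : y i ^ 2 ≤ ∑ l, y l ^ 2 :=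
      Finset.single_le_sum (f := fun l => y l ^ 2) (fun _ _ => sq_nonneg _) (Finset.mem_univ i)
    have h2 : y j ^ 2 ≤ ∑ l, y l ^ 2 :=
      Finset.single_le_sum (f := fun l => y l ^ 2) (fun _ _ => sq_nonneg _) (Finset.mem_univ j)
    rw [abs_le]
    constructor <;> nlinarith [sq_nonneg (y i + y j), sq_nonneg (y i - y j)]
  simp only [qf, n1, Finset.sum_mul]
  refine (Finset.abs_sum_le_sum_abs _ _).trans (Finset.sum_le_sum fun i _ => ?_)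
  refine (Finset.abs_sum_le_sum_abs _ _).trans (Finset.sum_le_sum fun j _ => ?_)
  rw [abs_mul]
  exact mul_le_mul_of_nonneg_left (h i j) (abs_nonneg _)

/-- `W` is the inverse of `L`, with bounds. -/
structure Lin (A : ℝ) (L W : E N →L[ℝ] E N) : Prop where
  A1 : 1 ≤ A
  LW : ∀ x, L (W x) = x
  WL : ∀ x, W (L x) = x
  bL : ∀ x, ‖L x‖ ≤ 2 * ‖x‖
  bW : ∀ x, ‖W x‖ ≤ A * ‖x‖

/-! ### The game -/

/-- A finite family of centres `Bc` with linear changes of variables `L`. -/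
structure Net (N : ℕ) where
  m : ℕ
  A : ℝ
  L : Fin m → Mt N
  W : Fin m → Mt N
  Bc : Fin m → Mt N

structure Net.Ok (Γ : Net N) : Prop where
  m0 : 0 < Γ.m
  lin : ∀ a, Lin Γ.A (ap (Γ.L a)) (ap (Γ.W a))

/-- A cutoff function with two bounded derivatives. -/
structure Cut (z z1 z2 : ℝ → ℝ) : Prop where
  d1 : ∀ s, HasDerivAt z (z1 s) s
  d2 : ∀ s, HasDerivAt z1 (z2 s) s
  rg : ∀ s, 0 ≤ z s ∧ z s ≤ 1
  bd : ∃ C : ℝ, ∀ s, |z1 s| ≤ C ∧ |z2 s| ≤ C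

/-- Parameters of the strategy. -/
structure GPar where
  ks : ℝ
  C1 : ℝ
  Lc : ℝ
  z : ℝ → ℝ
  z1 : ℝ → ℝ
  z2 : ℝ → ℝ

structure GPar.Ok (P : GPar) : Prop where
  ks0 : 0 ≤ P.ks
  C11 : 1 ≤ P.C1
  Lc0 : 0 ≤ P.Lc
  cut : Cut P.z P.z1 P.z2

/-- The score of the centre `a`. -/
def sx (Γ : Net N) (ks : ℝ) (B : Mt N) (a : Fin Γ.m) : ℝ :=
  ks * (2 * ip B (Γ.Bc a) - ip (Γ.Bc a) (Γ.Bc a))

/-- The logarithm of the weight of the centre `a`. -/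
def lsoft (Γ : Net N) (ks : ℝ) (B : Mt N) (a : Fin Γ.m) : ℝ :=
  sx Γ ks B a - Real.log (∑ a', Real.exp (sx Γ ks B a'))

/-- The weight of the centre `a`. -/
def soft (Γ : Net N) (ks : ℝ) (B : Mt N) (a : Fin Γ.m) : ℝ := Real.exp (lsoft Γ ks B a)

/-- The damping exponent. -/
def ck {m : ℕ} (C1 : ℝ) (w : Fin m → ℕ → ℝ) (k : ℕ) : ℝ :=
  (∑ k' ∈ Finset.range k, ∑ a, w a k') / C1

/-- Damped sums. -/
def tv {m : ℕ} (C1 : ℝ) (w u : Fin m → ℕ → ℝ) (n : ℕ) : ℝ :=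
  ∑ k ∈ Finset.range n, Real.exp (-ck C1 w k / 2) * ∑ a, u a k

/-- The state of the game. -/
def Bt (Γ : Net N) (P : GPar) (b : Fin Γ.m → ℕ → Mt N) (w : Fin Γ.m → ℕ → ℝ) : ℕ → Mt N
  | 0 => 0
  | k + 1 => Bt Γ P b w k +
      Real.exp (-ck P.C1 w k) • ∑ a, soft Γ P.ks (Bt Γ P b w k) a • b a k

/-- The stopping exponent. -/
def ak (Γ : Net N) (P : GPar) (b : Fin Γ.m → ℕ → Mt N) (w : Fin Γ.m → ℕ → ℝ) (k : ℕ) : ℝ :=
  ∑ k' ∈ Finset.range k,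
    P.Lc * P.z (Bt Γ P b w k').trace * (Real.exp (-ck P.C1 w k') * ∑ a, w a k')

/-- The logarithm of the final weights. -/
def leta (Γ : Net N) (P : GPar) (b : Fin Γ.m → ℕ → Mt N) (w : Fin Γ.m → ℕ → ℝ) (a : Fin Γ.m)
    (k : ℕ) : ℝ :=
  -ak Γ P b w k - ck P.C1 w k + lsoft Γ P.ks (Bt Γ P b w k) a

/-- The final weights. -/
def eta (Γ : Net N) (P : GPar) (b : Fin Γ.m → ℕ → Mt N) (w : Fin Γ.m → ℕ → ℝ) (a : Fin Γ.m)
    (k : ℕ) : ℝ :=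
  Real.exp (leta Γ P b w a k)

/-- The outcome of the game. -/
def Bf (Γ : Net N) (P : GPar) (b : Fin Γ.m → ℕ → Mt N) (w : Fin Γ.m → ℕ → ℝ) (n : ℕ) : Mt N :=
  ∑ k ∈ Finset.range n, ∑ a, eta Γ P b w a k • b a k

/-- The size of a perturbation `b1`, `w1` of the data. -/
def mu {m : ℕ} (C1 : ℝ) (w : Fin m → ℕ → ℝ) (b1 : Fin m → ℕ → Mt N) (w1 : Fin m → ℕ → ℝ)
    (k : ℕ) : ℝ :=
  ∑ k' ∈ Finset.range k, ∑ a, (Real.exp (-ck C1 w k') * n1 (b1 a k') + |w1 a k'|)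

/-- The increments in the original coordinates. -/
def cj (Γ : Net N) (B : Fin Γ.m → ℕ → Mt N) : Fin Γ.m → ℕ → Mt N :=
  fun a k => (Γ.L a)ᵀ * B a k * Γ.L a

/-- What is known on one increment. -/
structure Step (q β e : ℝ) (B : Mt N) (W S dF : ℝ) : Prop where
  symm : ∀ i j, B i j = B j i
  W0 : 0 ≤ W
  W1 : W ≤ β
  S0 : 0 ≤ S
  lo : (N - q) / 2 * W + (1 - e) / 2 * S + dF / 2 ≤ B.trace
  hi : B.trace ≤ (N - q) / 2 * W + S / 2 + dF / 2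
  up : ∀ i, B i i ≤ W
  sub : ∀ h : Fin N → ℝ, (∀ i, 0 ≤ h i ∧ h i ≤ 1) →
    ∑ i, h i * B i i ≤ (1 + e) / 2 * ((∑ i, h i) * W + S)
  ent : ∀ i j, |B i j| ≤ W + S
  sq : ∀ i j, B i j ^ 2 ≤ β * S

/-- What is known on all increments. -/
structure Play (Γ : Net N) (q β e Cx φ0 : ℝ) (d : ℕ) (B : Fin Γ.m → ℕ → Mt N)
    (w S wp F : Fin Γ.m → ℕ → ℝ) : Prop where
  q0 : 0 ≤ q
  qN : q ≤ N
  β0 : 0 < β
  β1 : β ≤ 1
  e0 : 0 < e
  e1 : e ≤ 1 / 2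
  φ1 : φ0 ≤ 1
  step : ∀ a k, Step q β e (B a k) (w a k) (S a k) (F a (k + 1) - F a k)
  F0 : ∀ a k, 0 ≤ F a k
  top : ∀ a k, k ≤ d → F a k ≤ φ0
  wp0 : ∀ a k, w a k ≤ wp a k
  wp1 : ∀ a k, wp a k ≤ Cx * β
  crW : ∀ a a' k, wp a (k + d) ≤ Cx * w a' k
  crF : ∀ a a' k, F a (k + d) ≤ F a' k + Cx * β

/-- The domain between the two barriers. -/
structure Dom (ε Φ Ψ : ℝ) (B : Mt N) : Prop where
  p1 : (B + ε • (1 : Mt N)).PosDef
  p2 : (1 - B).PosDef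
  t1 : (B + ε • (1 : Mt N))⁻¹.trace ≤ Φ
  t2 : (1 - B)⁻¹.trace ≤ Ψ

theorem ck_zero {m : ℕ} (C1 : ℝ) (w : Fin m → ℕ → ℝ) : ck C1 w 0 = 0 := by simp [ck]

theorem ck_succ {m : ℕ} (C1 : ℝ) (w : Fin m → ℕ → ℝ) (k : ℕ) :
    ck C1 w (k + 1) = ck C1 w k + (∑ a, w a k) / C1 := by
  simp [ck, Finset.sum_range_succ, add_div]

theorem ck_mono {m : ℕ} {C1 : ℝ} (hC : 1 ≤ C1) {w : Fin m → ℕ → ℝ} (hw : ∀ a k, 0 ≤ w a k) :
    Monotone (ck C1 w) := by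
  refine monotone_nat_of_le_succ fun k => ?_
  rw [ck_succ]
  have : 0 ≤ (∑ a, w a k) / C1 := div_nonneg (Finset.sum_nonneg fun a _ => hw a k) (by linarith)
  linarith

theorem ck_nonneg {m : ℕ} {C1 : ℝ} (hC : 1 ≤ C1) {w : Fin m → ℕ → ℝ} (hw : ∀ a k, 0 ≤ w a k)
    (k : ℕ) : 0 ≤ ck C1 w k := by
  simpa [ck_zero] using ck_mono hC hw (Nat.zero_le k)

theorem tv_mono {m : ℕ} (C1 : ℝ) (w : Fin m → ℕ → ℝ) {u u' : Fin m → ℕ → ℝ}
    (h : ∀ a k, u a k ≤ u' a k) (n : ℕ) : tv C1 w u n ≤ tv C1 w u' n :=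
  Finset.sum_le_sum fun k _ =>
    mul_le_mul_of_nonneg_left (Finset.sum_le_sum fun a _ => h a k) (Real.exp_pos _).le

theorem mu_nonneg {m : ℕ} (C1 : ℝ) (w : Fin m → ℕ → ℝ) (b1 : Fin m → ℕ → Mt N)
    (w1 : Fin m → ℕ → ℝ) (k : ℕ) : 0 ≤ mu C1 w b1 w1 k :=
  Finset.sum_nonneg fun _ _ => Finset.sum_nonneg fun _ _ =>
    add_nonneg (mul_nonneg (Real.exp_pos _).le (n1_nonneg _)) (abs_nonneg _)

theorem mu_mono {m : ℕ} (C1 : ℝ) (w : Fin m → ℕ → ℝ) (b1 : Fin m → ℕ → Mt N)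
    (w1 : Fin m → ℕ → ℝ) : Monotone (mu C1 w b1 w1) := by
  refine monotone_nat_of_le_succ fun k => ?_
  rw [mu, mu, Finset.sum_range_succ]
  exact le_add_of_nonneg_right (Finset.sum_nonneg fun _ _ =>
    add_nonneg (mul_nonneg (Real.exp_pos _).le (n1_nonneg _)) (abs_nonneg _))

theorem Bt_zero (Γ : Net N) (P : GPar) (b : Fin Γ.m → ℕ → Mt N) (w : Fin Γ.m → ℕ → ℝ) :
    Bt Γ P b w 0 = 0 := rfl

theorem Bt_succ (Γ : Net N) (P : GPar) (b : Fin Γ.m → ℕ → Mt N) (w : Fin Γ.m → ℕ → ℝ) (k : ℕ) :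
    Bt Γ P b w (k + 1) = Bt Γ P b w k +
      Real.exp (-ck P.C1 w k) • ∑ a, soft Γ P.ks (Bt Γ P b w k) a • b a k := rfl

theorem ak_zero (Γ : Net N) (P : GPar) (b : Fin Γ.m → ℕ → Mt N) (w : Fin Γ.m → ℕ → ℝ) :
    ak Γ P b w 0 = 0 := by simp [ak]

theorem ak_succ (Γ : Net N) (P : GPar) (b : Fin Γ.m → ℕ → Mt N) (w : Fin Γ.m → ℕ → ℝ) (k : ℕ) :
    ak Γ P b w (k + 1) = ak Γ P b w k +
      P.Lc * P.z (Bt Γ P b w k).trace * (Real.exp (-ck P.C1 w k) * ∑ a, w a k) := by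
  simp [ak, Finset.sum_range_succ]

theorem ak_mono (Γ : Net N) {P : GPar} (hP : P.Ok) (b : Fin Γ.m → ℕ → Mt N)
    {w : Fin Γ.m → ℕ → ℝ} (hw : ∀ a k, 0 ≤ w a k) : Monotone (ak Γ P b w) := by
  refine monotone_nat_of_le_succ fun k => ?_
  rw [ak_succ]
  exact le_add_of_nonneg_right (mul_nonneg (mul_nonneg hP.Lc0 (hP.cut.rg _).1)
    (mul_nonneg (Real.exp_pos _).le (Finset.sum_nonneg fun a _ => hw a k)))

theorem ak_nonneg (Γ : Net N) {P : GPar} (hP : P.Ok) (b : Fin Γ.m → ℕ → Mt N)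
    {w : Fin Γ.m → ℕ → ℝ} (hw : ∀ a k, 0 ≤ w a k) (k : ℕ) : 0 ≤ ak Γ P b w k := by
  simpa [ak_zero] using ak_mono Γ hP b hw (Nat.zero_le k)

theorem soft_pos (Γ : Net N) (ks : ℝ) (B : Mt N) (a : Fin Γ.m) : 0 < soft Γ ks B a :=
  Real.exp_pos _

theorem soft_eq (Γ : Net N) (ks : ℝ) (B : Mt N) (a : Fin Γ.m) :
    soft Γ ks B a = Real.exp (sx Γ ks B a) / ∑ a', Real.exp (sx Γ ks B a') := by
  have h : 0 < ∑ a', Real.exp (sx Γ ks B a') :=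
    Finset.sum_pos (fun _ _ => Real.exp_pos _) ⟨a, Finset.mem_univ a⟩
  rw [soft, lsoft, Real.exp_sub, Real.exp_log h]

theorem sum_soft (Γ : Net N) (hm : 0 < Γ.m) (ks : ℝ) (B : Mt N) : ∑ a, soft Γ ks B a = 1 := by
  have h : 0 < ∑ a', Real.exp (sx Γ ks B a') :=
    Finset.sum_pos (fun _ _ => Real.exp_pos _) ⟨⟨0, hm⟩, Finset.mem_univ _⟩
  simp only [soft_eq, ← Finset.sum_div]
  exact div_self h.ne'

theorem soft_le_one (Γ : Net N) (ks : ℝ) (B : Mt N) (a : Fin Γ.m) : soft Γ ks B a ≤ 1 := by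
  rw [← sum_soft Γ (Fin.pos a) ks B]
  exact Finset.single_le_sum (f := fun a => soft Γ ks B a) (fun a _ => (soft_pos _ _ _ a).le)
    (Finset.mem_univ a)

theorem eta_pos (Γ : Net N) (P : GPar) (b : Fin Γ.m → ℕ → Mt N) (w : Fin Γ.m → ℕ → ℝ)
    (a : Fin Γ.m) (k : ℕ) : 0 < eta Γ P b w a k := Real.exp_pos _

theorem eta_eq (Γ : Net N) (P : GPar) (b : Fin Γ.m → ℕ → Mt N) (w : Fin Γ.m → ℕ → ℝ)
    (a : Fin Γ.m) (k : ℕ) : eta Γ P b w a k =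
      Real.exp (-ak Γ P b w k) * (Real.exp (-ck P.C1 w k) * soft Γ P.ks (Bt Γ P b w k) a) := by
  rw [eta, leta, soft, ← Real.exp_add, ← Real.exp_add]
  congr 1
  ring

theorem eta_le (Γ : Net N) {P : GPar} (hP : P.Ok) (b : Fin Γ.m → ℕ → Mt N)
    {w : Fin Γ.m → ℕ → ℝ} (hw : ∀ a k, 0 ≤ w a k) (a : Fin Γ.m) (k : ℕ) :
    eta Γ P b w a k ≤ Real.exp (-ck P.C1 w k) := by
  rw [eta_eq]
  have h1 : Real.exp (-ak Γ P b w k) ≤ 1 :=
    Real.exp_le_one_iff.2 (by linarith [ak_nonneg Γ hP b hw k])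
  have h2 := soft_le_one Γ P.ks (Bt Γ P b w k) a
  have h3 := soft_pos Γ P.ks (Bt Γ P b w k) a
  have h4 := Real.exp_pos (-ck P.C1 w k)
  calc _ ≤ 1 * (Real.exp (-ck P.C1 w k) * 1) := by gcongr
    _ = _ := by ring

/-! ### Classes of functions -/

/-- Continuous functions with Gaussian decay. -/
def Gau (φ : E N → ℝ) : Prop :=
  Continuous φ ∧ ∃ C c : ℝ, 0 < c ∧ ∀ ξ, |φ ξ| ≤ C * Real.exp (-c * ‖ξ‖ ^ 2)

/-- Jointly continuous functions of the scale and the position, bounded on slabs. -/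
def Slab (g : ℝ → E N → ℝ) : Prop :=
  (Continuous fun p : ℝ × E N => g p.1 p.2) ∧
    ∀ τ1 τ2 : ℝ, ∃ C : ℝ, ∀ τ ∈ Icc τ1 τ2, ∀ z, |g τ z| ≤ C

/-- Jointly continuous functions with Gaussian decay, uniformly on slabs. -/
def Blk (Φ : ℝ → E N → ℝ) : Prop :=
  (Continuous fun p : ℝ × E N => Φ p.1 p.2) ∧
    ∀ τ1 τ2 : ℝ, ∃ C c : ℝ, 0 < c ∧ ∀ τ ∈ Icc τ1 τ2, ∀ ξ, |Φ τ ξ| ≤ C * Real.exp (-c * ‖ξ‖ ^ 2)

/-- Bounded continuous functions. -/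
def CB (f : E N → ℝ) : Prop := Continuous f ∧ ∃ B : ℝ, ∀ x, |f x| ≤ B

/-- Weights whose logarithm is Lipschitz with constant `ε / r`. -/
def LL (ε r : ℝ) (η : E N → ℝ) : Prop :=
  Continuous η ∧ (∀ x, 0 < η x ∧ η x ≤ 1) ∧ ∀ x x', η x ≤ η x' * Real.exp (ε * ‖x - x'‖ / r)

theorem Slab.cont {g : ℝ → E N → ℝ} (h : Slab g) (τ : ℝ) : Continuous (g τ) :=
  h.1.comp (Continuous.prodMk_right τ)

theorem slab_fun {c : ℝ → ℝ} (hc : Continuous c) : Slab fun τ (_ : E N) => c τ := by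
  refine ⟨hc.comp continuous_fst, fun τ1 τ2 => ?_⟩
  obtain ⟨C, hC⟩ := isCompact_Icc.exists_bound_of_continuousOn (hc.continuousOn (s := Icc τ1 τ2))
  exact ⟨C, fun τ hτ _ => hC τ hτ⟩

theorem slab_const (c : ℝ) : Slab fun (_ : ℝ) (_ : E N) => c := slab_fun continuous_const

theorem Slab.add {g g' : ℝ → E N → ℝ} (h : Slab g) (h' : Slab g') :
    Slab fun τ z => g τ z + g' τ z := by
  refine ⟨h.1.add h'.1, fun τ1 τ2 => ?_⟩
  obtain ⟨C, hC⟩ := h.2 τ1 τ2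
  obtain ⟨C', hC'⟩ := h'.2 τ1 τ2
  exact ⟨C + C', fun τ hτ z => (abs_add_le _ _).trans (add_le_add (hC τ hτ z) (hC' τ hτ z))⟩

theorem Slab.mul {g g' : ℝ → E N → ℝ} (h : Slab g) (h' : Slab g') :
    Slab fun τ z => g τ z * g' τ z := by
  refine ⟨h.1.mul h'.1, fun τ1 τ2 => ?_⟩
  obtain ⟨C, hC⟩ := h.2 τ1 τ2
  obtain ⟨C', hC'⟩ := h'.2 τ1 τ2
  refine ⟨C * C', fun τ hτ z => ?_⟩
  rw [abs_mul]
  exact mul_le_mul (hC τ hτ z) (hC' τ hτ z) (abs_nonneg _) ((abs_nonneg _).trans (hC τ hτ z))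

theorem Slab.comp {g : ℝ → E N → ℝ} (h : Slab g) {G : ℝ → ℝ} (hG : Continuous G) :
    Slab fun τ z => G (g τ z) := by
  refine ⟨hG.comp h.1, fun τ1 τ2 => ?_⟩
  obtain ⟨C, hC⟩ := h.2 τ1 τ2
  obtain ⟨D, hD⟩ := isCompact_Icc.exists_bound_of_continuousOn (hG.continuousOn (s := Icc (-C) C))
  exact ⟨D, fun τ hτ z => hD _ (abs_le.1 (hC τ hτ z))⟩

theorem Slab.neg {g : ℝ → E N → ℝ} (h : Slab g) : Slab fun τ z => -g τ z :=
  h.comp continuous_neg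

theorem Slab.sub {g g' : ℝ → E N → ℝ} (h : Slab g) (h' : Slab g') :
    Slab fun τ z => g τ z - g' τ z := by
  simpa [sub_eq_add_neg] using h.add h'.neg

theorem Slab.pow {g : ℝ → E N → ℝ} (h : Slab g) (n : ℕ) : Slab fun τ z => g τ z ^ n :=
  h.comp (continuous_pow n)

theorem Slab.abs {g : ℝ → E N → ℝ} (h : Slab g) : Slab fun τ z => |g τ z| :=
  h.comp continuous_abs

theorem Slab.const_mul {g : ℝ → E N → ℝ} (h : Slab g) (c : ℝ) : Slab fun τ z => c * g τ z :=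
  (slab_const c).mul h

theorem slab_sum {ι : Type*} (s : Finset ι) {g : ι → ℝ → E N → ℝ} (h : ∀ i ∈ s, Slab (g i)) :
    Slab fun τ z => ∑ i ∈ s, g i τ z := by
  classical
  induction s using Finset.induction_on with
  | empty => simpa using slab_const (N := N) 0
  | insert i s hi ih =>
    simp only [Finset.sum_insert hi]
    exact (h i (Finset.mem_insert_self _ _)).add
      (ih fun j hj => h j (Finset.mem_insert_of_mem hj))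

theorem Blk.add {Φ Φ' : ℝ → E N → ℝ} (h : Blk Φ) (h' : Blk Φ') :
    Blk fun τ ξ => Φ τ ξ + Φ' τ ξ := by
  refine ⟨h.1.add h'.1, fun τ1 τ2 => ?_⟩
  obtain ⟨C, c, hc, hC⟩ := h.2 τ1 τ2
  obtain ⟨C', c', hc', hC'⟩ := h'.2 τ1 τ2
  refine ⟨|C| + |C'|, min c c', lt_min hc hc', fun τ hτ ξ => ?_⟩
  have e1 : Real.exp (-c * ‖ξ‖ ^ 2) ≤ Real.exp (-min c c' * ‖ξ‖ ^ 2) :=
    Real.exp_le_exp.2 (by nlinarith [min_le_left c c', sq_nonneg ‖ξ‖])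
  have e2 : Real.exp (-c' * ‖ξ‖ ^ 2) ≤ Real.exp (-min c c' * ‖ξ‖ ^ 2) :=
    Real.exp_le_exp.2 (by nlinarith [min_le_right c c', sq_nonneg ‖ξ‖])
  have f1 : C * Real.exp (-c * ‖ξ‖ ^ 2) ≤ |C| * Real.exp (-min c c' * ‖ξ‖ ^ 2) :=
    mul_le_mul (le_abs_self _) e1 (Real.exp_pos _).le (abs_nonneg _)
  have f2 : C' * Real.exp (-c' * ‖ξ‖ ^ 2) ≤ |C'| * Real.exp (-min c c' * ‖ξ‖ ^ 2) :=
    mul_le_mul (le_abs_self _) e2 (Real.exp_pos _).le (abs_nonneg _)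
  linarith [abs_add_le (Φ τ ξ) (Φ' τ ξ), hC τ hτ ξ, hC' τ hτ ξ]

theorem Blk.mul_slab {Φ g : ℝ → E N → ℝ} (h : Blk Φ) (h' : Slab g) :
    Blk fun τ ξ => Φ τ ξ * g τ ξ := by
  refine ⟨h.1.mul h'.1, fun τ1 τ2 => ?_⟩
  obtain ⟨C, c, hc, hC⟩ := h.2 τ1 τ2
  obtain ⟨C', hC'⟩ := h'.2 τ1 τ2
  refine ⟨C * C', c, hc, fun τ hτ ξ => ?_⟩
  rw [abs_mul]
  calc _ ≤ C * Real.exp (-c * ‖ξ‖ ^ 2) * C' :=
        mul_le_mul (hC τ hτ ξ) (hC' τ hτ ξ) (abs_nonneg _) ((abs_nonneg _).trans (hC τ hτ ξ))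
    _ = _ := by ring

theorem Blk.const_mul {Φ : ℝ → E N → ℝ} (h : Blk Φ) (c : ℝ) : Blk fun τ ξ => c * Φ τ ξ := by
  simpa [mul_comm] using h.mul_slab (slab_const c)

theorem Blk.neg {Φ : ℝ → E N → ℝ} (h : Blk Φ) : Blk fun τ ξ => -Φ τ ξ := by
  simpa using h.const_mul (-1)

theorem Blk.sub {Φ Φ' : ℝ → E N → ℝ} (h : Blk Φ) (h' : Blk Φ') :
    Blk fun τ ξ => Φ τ ξ - Φ' τ ξ := by
  simpa [sub_eq_add_neg] using h.add h'.neg

theorem Blk.abs {Φ : ℝ → E N → ℝ} (h : Blk Φ) : Blk fun τ ξ => |Φ τ ξ| := by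
  refine ⟨h.1.abs, fun τ1 τ2 => ?_⟩
  simpa only [abs_abs] using h.2 τ1 τ2

theorem blk_sum {ι : Type*} (s : Finset ι) {Φ : ι → ℝ → E N → ℝ} (h : ∀ i ∈ s, Blk (Φ i)) :
    Blk fun τ ξ => ∑ i ∈ s, Φ i τ ξ := by
  classical
  induction s using Finset.induction_on with
  | empty => exact ⟨by simpa using continuous_const, fun _ _ => ⟨0, 1, one_pos, by simp⟩⟩
  | insert i s hi ih =>
    simp only [Finset.sum_insert hi]
    exact (h i (Finset.mem_insert_self _ _)).add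
      (ih fun j hj => h j (Finset.mem_insert_of_mem hj))

theorem Gau.blk {φ : E N → ℝ} (h : Gau φ) : Blk fun (_ : ℝ) ξ => φ ξ := by
  obtain ⟨C, c, hc, hC⟩ := h.2
  exact ⟨h.1.comp continuous_snd, fun _ _ => ⟨C, c, hc, fun _ _ ξ => hC ξ⟩⟩

theorem Blk.gau {Φ : ℝ → E N → ℝ} (h : Blk Φ) (τ : ℝ) : Gau (Φ τ) := by
  obtain ⟨C, c, hc, hC⟩ := h.2 τ τ
  exact ⟨h.1.comp (Continuous.prodMk_right τ), C, c, hc, hC τ ⟨le_rfl, le_rfl⟩⟩

theorem Gau.add {φ φ' : E N → ℝ} (h : Gau φ) (h' : Gau φ') : Gau fun ξ => φ ξ + φ' ξ :=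
  (h.blk.add h'.blk).gau 0

theorem Gau.const_mul {φ : E N → ℝ} (h : Gau φ) (c : ℝ) : Gau fun ξ => c * φ ξ :=
  (h.blk.const_mul c).gau 0

theorem Gau.neg {φ : E N → ℝ} (h : Gau φ) : Gau fun ξ => -φ ξ := h.blk.neg.gau 0

theorem Gau.sub {φ φ' : E N → ℝ} (h : Gau φ) (h' : Gau φ') : Gau fun ξ => φ ξ - φ' ξ :=
  (h.blk.sub h'.blk).gau 0

theorem Gau.abs {φ : E N → ℝ} (h : Gau φ) : Gau fun ξ => |φ ξ| := h.blk.abs.gau 0

theorem Gau.bdd {φ : E N → ℝ} (h : Gau φ) : ∃ C : ℝ, 0 ≤ C ∧ ∀ ξ, |φ ξ| ≤ C := by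
  obtain ⟨C, c, hc, hC⟩ := h.2
  refine ⟨|C|, abs_nonneg _, fun ξ => (hC ξ).trans ?_⟩
  have : Real.exp (-c * ‖ξ‖ ^ 2) ≤ 1 := Real.exp_le_one_iff.2 (by nlinarith [sq_nonneg ‖ξ‖])
  calc _ ≤ |C| * 1 := mul_le_mul (le_abs_self _) this (Real.exp_pos _).le (abs_nonneg _)
    _ = _ := mul_one _

theorem integrable_gauss {c : ℝ} (hc : 0 < c) :
    Integrable fun ξ : E N => Real.exp (-c * ‖ξ‖ ^ 2) := by
  by_contra h
  have h1 := integral_undef h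
  rw [GaussianFourier.integral_rexp_neg_mul_sq_norm hc] at h1
  have : 0 < (Real.pi / c) ^ ((Module.finrank ℝ (E N) : ℝ) / 2) := by positivity
  linarith

theorem Gau.integrable {φ : E N → ℝ} (h : Gau φ) : Integrable φ := by
  obtain ⟨C, c, hc, hC⟩ := h.2
  exact ((integrable_gauss hc).const_mul C).mono' h.1.aestronglyMeasurable
    (Eventually.of_forall hC)

/-- A slab function along the rays `y + exp τ • ξ`. -/
theorem Slab.ray {g : ℝ → E N → ℝ} (h : Slab g) (y : E N) :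
    Slab fun τ ξ => g τ (y + Real.exp τ • ξ) := by
  refine ⟨h.1.comp (f := fun p : ℝ × E N => (p.1, y + Real.exp p.1 • p.2)) (by fun_prop),
    fun τ1 τ2 => ?_⟩
  obtain ⟨C, hC⟩ := h.2 τ1 τ2
  exact ⟨C, fun τ hτ ξ => hC τ hτ _⟩

/-- From a family of arithmetic-geometric mean bounds to the product bound. -/
theorem sq_le_of_amgm {a b c : ℝ} (hb : 0 ≤ b) (hc : 0 ≤ c)
    (h : ∀ t : ℝ, 0 < t → 2 * |a| ≤ t * b + c / t) : a ^ 2 ≤ b * c := by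
  rcases eq_or_ne a 0 with rfl | ha
  · simpa using mul_nonneg hb hc
  have ha' : 0 < |a| := abs_pos.2 ha
  rcases hc.eq_or_lt with rfl | hc'
  · exfalso
    have h1 := h (|a| / (b + 1)) (by positivity)
    have h2 : |a| / (b + 1) * b ≤ |a| := by
      rw [div_mul_eq_mul_div, div_le_iff₀ (by positivity)]
      nlinarith
    simp only [zero_div, add_zero] at h1
    linarith
  · have h1 := h (c / |a|) (by positivity)
    have h2 : c / (c / |a|) = |a| := by field_simp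
    rw [h2] at h1
    have h3 : |a| ≤ c / |a| * b := by linarith
    rw [div_mul_eq_mul_div, le_div_iff₀ ha'] at h3
    nlinarith [sq_abs a]

theorem two_abs_le {x f g t : ℝ} (hf : 0 ≤ f) (hg : 0 ≤ g) (h : x ^ 2 ≤ f * g) (ht : 0 < t) :
    2 * |x| ≤ t * f + g / t := by
  have h1 : (2 * |x|) ^ 2 ≤ (t * f + g / t) ^ 2 := by
    have e : t * f * (g / t) = f * g := by field_simp
    nlinarith [sq_nonneg (t * f - g / t), sq_abs x]
  exact (pow_le_pow_iff_left₀ (by positivity) (by positivity) two_ne_zero).1 h1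

/-- Cauchy-Schwarz inequality for real integrals. -/
theorem cs_integral {X : Type*} [MeasurableSpace X] {μ : Measure X} {f g h : X → ℝ}
    (hf : Integrable f μ) (hg : Integrable g μ) (hf0 : ∀ x, 0 ≤ f x) (hg0 : ∀ x, 0 ≤ g x)
    (hh : ∀ x, h x ^ 2 ≤ f x * g x) : (∫ x, h x ∂μ) ^ 2 ≤ (∫ x, f x ∂μ) * ∫ x, g x ∂μ := by
  refine sq_le_of_amgm (integral_nonneg hf0) (integral_nonneg hg0) fun t ht => ?_
  have h1 : ‖∫ x, h x ∂μ‖ ≤ ∫ x, (t * f x + g x / t) / 2 ∂μ :=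
    norm_integral_le_of_norm_le (((hf.const_mul t).add (hg.div_const t)).div_const 2)
      (Eventually.of_forall fun x => by
        have := two_abs_le (hf0 x) (hg0 x) (hh x) ht
        rw [Real.norm_eq_abs]
        linarith)
  rw [integral_div, integral_add (hf.const_mul t) (hg.div_const t), integral_const_mul,
    integral_div, Real.norm_eq_abs] at h1
  linarith

/-! ### Gaussian averages -/

/-- The standard Gaussian density. -/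
def gam (ξ : E N) : ℝ := (2 * Real.pi) ^ (-(N : ℝ) / 2) * Real.exp (-‖ξ‖ ^ 2 / 2)

/-- First Hermite function. -/
def he1 (h ξ : E N) : ℝ := inner ℝ ξ h * gam ξ

/-- Second Hermite function. -/
def he2 (h h' ξ : E N) : ℝ := (inner ℝ ξ h * inner ℝ ξ h' - inner ℝ h h') * gam ξ

/-- A wider Gaussian. -/
def gp (ξ : E N) : ℝ := Real.exp (‖ξ‖ ^ 2 / 5) * gam ξ

/-- A narrower Gaussian. -/
def gq (ξ : E N) : ℝ := Real.exp (-(2 / 3) * ‖ξ‖ ^ 2)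

theorem gam_pos (ξ : E N) : 0 < gam ξ := by unfold gam; positivity

theorem gp_pos (ξ : E N) : 0 < gp ξ := mul_pos (Real.exp_pos _) (gam_pos ξ)

theorem gq_pos (ξ : E N) : 0 < gq ξ := Real.exp_pos _

/-- The rescaled variable. -/
def xi (L : E N →L[ℝ] E N) (τ : ℝ) (z x : E N) : E N := Real.exp (-τ) • (z - L x)

/-- Smoothing of `a` with the kernel `φ` at scale `exp τ`. -/
def km (L : E N →L[ℝ] E N) (φ a : E N → ℝ) (τ : ℝ) (z : E N) : ℝ := ∫ x, a x * φ (xi L τ z x)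

/-- Gaussian smoothing. -/
def k0 (L : E N →L[ℝ] E N) (a : E N → ℝ) (τ : ℝ) (z : E N) : ℝ := km L gam a τ z

/-- First derivative of the Gaussian smoothing. -/
def k1 (L : E N →L[ℝ] E N) (a : E N → ℝ) (h : E N) (τ : ℝ) (z : E N) : ℝ :=
  -Real.exp (-τ) * km L (he1 h) a τ z

/-- Second derivative of the Gaussian smoothing. -/
def k2 (L : E N →L[ℝ] E N) (a : E N → ℝ) (h h' : E N) (τ : ℝ) (z : E N) : ℝ :=
  Real.exp (-2 * τ) * km L (he2 h h') a τ z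

/-- Average of `g` around `y` at scale `exp τ`. -/
def ex (φ : E N → ℝ) (g : ℝ → E N → ℝ) (τ : ℝ) (y : E N) : ℝ :=
  ∫ ξ, φ ξ * g τ (y + Real.exp τ • ξ)

/-- Average over a block of scales. -/
def av (τk s : ℝ) (φ : E N → ℝ) (g : ℝ → E N → ℝ) (y : E N) : ℝ :=
  ∫ τ in (τk - 1)..τk, Real.exp (s * τ) * ex φ g τ y

/-- Integral over a block of scales and the Gaussian variable. -/
def bi (τk : ℝ) (Φ : ℝ → E N → ℝ) : ℝ := ∫ τ in (τk - 1)..τk, ∫ ξ, Φ τ ξ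

theorem av_eq_bi (τk s : ℝ) (φ : E N → ℝ) (g : ℝ → E N → ℝ) (y : E N) :
    av τk s φ g y = bi τk fun τ ξ => Real.exp (s * τ) * (φ ξ * g τ (y + Real.exp τ • ξ)) := by
  simp only [av, bi, ex, integral_const_mul]

theorem blk_av {φ : E N → ℝ} {g : ℝ → E N → ℝ} (hφ : Gau φ) (hg : Slab g) (s : ℝ) (y : E N) :
    Blk fun τ ξ => Real.exp (s * τ) * (φ ξ * g τ (y + Real.exp τ • ξ)) := by
  have h := (hφ.blk.mul_slab (hg.ray y)).mul_slab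
    (slab_fun (c := fun τ => Real.exp (s * τ)) (by fun_prop))
  simpa only [mul_comm] using h

theorem Blk.cont_int {Φ : ℝ → E N → ℝ} (h : Blk Φ) : Continuous fun τ => ∫ ξ, Φ τ ξ := by
  rw [continuous_iff_continuousAt]
  intro τ
  obtain ⟨C, c, hc, hC⟩ := h.2 (τ - 1) (τ + 1)
  refine continuousAt_of_dominated (bound := fun ξ => C * Real.exp (-c * ‖ξ‖ ^ 2))
    (Eventually.of_forall fun σ => (h.gau σ).1.aestronglyMeasurable) ?_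
    ((integrable_gauss hc).const_mul C) (Eventually.of_forall fun ξ => ?_)
  · filter_upwards [Icc_mem_nhds (sub_one_lt τ) (lt_add_one τ)] with σ hσ
    exact Eventually.of_forall fun ξ => hC σ hσ ξ
  · exact (h.1.comp (Continuous.prodMk_left ξ)).continuousAt

theorem bi_add {Φ Φ' : ℝ → E N → ℝ} (h : Blk Φ) (h' : Blk Φ') (τk : ℝ) :
    bi τk (fun τ ξ => Φ τ ξ + Φ' τ ξ) = bi τk Φ + bi τk Φ' := by
  simp only [bi]
  rw [← intervalIntegral.integral_add (h.cont_int.intervalIntegrable _ _)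
    (h'.cont_int.intervalIntegrable _ _)]
  congr 1
  ext τ
  exact integral_add (h.gau τ).integrable (h'.gau τ).integrable

theorem bi_const_mul (Φ : ℝ → E N → ℝ) (c τk : ℝ) :
    bi τk (fun τ ξ => c * Φ τ ξ) = c * bi τk Φ := by
  simp only [bi, integral_const_mul, intervalIntegral.integral_const_mul]

theorem bi_neg (Φ : ℝ → E N → ℝ) (τk : ℝ) : bi τk (fun τ ξ => -Φ τ ξ) = -bi τk Φ := by
  simpa using bi_const_mul Φ (-1) τk

theorem bi_sub {Φ Φ' : ℝ → E N → ℝ} (h : Blk Φ) (h' : Blk Φ') (τk : ℝ) :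
    bi τk (fun τ ξ => Φ τ ξ - Φ' τ ξ) = bi τk Φ - bi τk Φ' := by
  simp only [sub_eq_add_neg]
  rw [bi_add h h'.neg, bi_neg]

theorem bi_sum {ι : Type*} (s : Finset ι) {Φ : ι → ℝ → E N → ℝ} (h : ∀ i ∈ s, Blk (Φ i))
    (τk : ℝ) : bi τk (fun τ ξ => ∑ i ∈ s, Φ i τ ξ) = ∑ i ∈ s, bi τk (Φ i) := by
  classical
  induction s using Finset.induction_on with
  | empty => simp [bi]
  | insert i s hi ih =>
    simp only [Finset.sum_insert hi]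
    rw [bi_add (h i (Finset.mem_insert_self _ _))
      (blk_sum s fun j hj => h j (Finset.mem_insert_of_mem hj)),
      ih fun j hj => h j (Finset.mem_insert_of_mem hj)]

theorem bi_mono {Φ Φ' : ℝ → E N → ℝ} (h : Blk Φ) (h' : Blk Φ') (τk : ℝ)
    (hle : ∀ τ ∈ Icc (τk - 1) τk, ∀ ξ, Φ τ ξ ≤ Φ' τ ξ) : bi τk Φ ≤ bi τk Φ' :=
  intervalIntegral.integral_mono_on (sub_one_lt τk).le (h.cont_int.intervalIntegrable _ _)
    (h'.cont_int.intervalIntegrable _ _) fun τ hτ =>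
      integral_mono (h.gau τ).integrable (h'.gau τ).integrable (hle τ hτ)

theorem bi_nonneg {Φ : ℝ → E N → ℝ} (τk : ℝ) (hle : ∀ τ ∈ Icc (τk - 1) τk, ∀ ξ, 0 ≤ Φ τ ξ) :
    0 ≤ bi τk Φ :=
  intervalIntegral.integral_nonneg (sub_one_lt τk).le fun τ hτ => integral_nonneg (hle τ hτ)

theorem abs_bi_le {Φ Φ' : ℝ → E N → ℝ} (h : Blk Φ) (h' : Blk Φ') (τk : ℝ)
    (hle : ∀ τ ∈ Icc (τk - 1) τk, ∀ ξ, |Φ τ ξ| ≤ Φ' τ ξ) : |bi τk Φ| ≤ bi τk Φ' := by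
  rw [abs_le]
  refine ⟨?_, bi_mono h h' τk fun τ hτ ξ => (abs_le.1 (hle τ hτ ξ)).2⟩
  rw [← bi_neg]
  exact bi_mono h'.neg h τk fun τ hτ ξ => (abs_le.1 (hle τ hτ ξ)).1

theorem bi_gau (φ : E N → ℝ) (τk : ℝ) : bi τk (fun _ ξ => φ ξ) = ∫ ξ, φ ξ := by
  simp [bi]

/-- Cauchy-Schwarz inequality for block integrals. -/
theorem bi_cs {Φ Φ1 Φ2 : ℝ → E N → ℝ} (h : Blk Φ) (h1 : Blk Φ1) (h2 : Blk Φ2) (τk : ℝ)
    (hle : ∀ τ ∈ Icc (τk - 1) τk, ∀ ξ, 0 ≤ Φ1 τ ξ ∧ 0 ≤ Φ2 τ ξ ∧ Φ τ ξ ^ 2 ≤ Φ1 τ ξ * Φ2 τ ξ) :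
    bi τk Φ ^ 2 ≤ bi τk Φ1 * bi τk Φ2 := by
  refine sq_le_of_amgm (bi_nonneg τk fun τ hτ ξ => (hle τ hτ ξ).1)
    (bi_nonneg τk fun τ hτ ξ => (hle τ hτ ξ).2.1) fun t ht => ?_
  have h3 := abs_bi_le h ((h1.const_mul (t / 2)).add (h2.const_mul (1 / (2 * t)))) τk
    fun τ hτ ξ => by
      have := two_abs_le (hle τ hτ ξ).1 (hle τ hτ ξ).2.1 (hle τ hτ ξ).2.2 ht
      have e : 1 / (2 * t) * Φ2 τ ξ = Φ2 τ ξ / t / 2 := by field_simp
      rw [e]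
      linarith
  rw [bi_add (h1.const_mul _) (h2.const_mul _), bi_const_mul, bi_const_mul] at h3
  have e : 1 / (2 * t) * bi τk Φ2 = bi τk Φ2 / t / 2 := by field_simp
  rw [e] at h3
  linarith

/-! ### The logarithm of the smoothed density -/

/-- A convex profile with slope between `0` and `β`. -/
structure Prof (β e : ℝ) (G G1 G2 : ℝ → ℝ) : Prop where
  β0 : 0 < β
  β1 : β ≤ 1
  e0 : 0 < e
  e1 : e ≤ 1 / 2
  d1 : ∀ y, HasDerivAt G (G1 y) y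
  d2 : ∀ y, HasDerivAt G1 (G2 y) y
  c2 : Continuous G2
  r0 : ∀ y, 0 ≤ G y ∧ β * y ≤ G y
  r1 : ∀ y, 0 ≤ G1 y ∧ G1 y ≤ β
  r2 : ∀ y, 0 ≤ G2 y ∧ G2 y ≤ e * G1 y
  gr : ∀ y y' s, 0 ≤ s → y ≤ y' + s → G1 y ≤ G1 y' * Real.exp (e * s) ∧ G y ≤ G y' + β * s
  lim : Tendsto G atBot (𝓝 0)

/-- Parameters shared by all modes. -/
structure Cfg where
  q : ℝ
  θ : ℝ
  δ : ℝ
  τ0 : ℝ
  G : ℝ → ℝ
  G1 : ℝ → ℝ
  G2 : ℝ → ℝ
  n : ℕ

structure Cfg.Ok (c : Cfg) (N : ℕ) (β e : ℝ) : Prop where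
  prof : Prof β e c.G c.G1 c.G2
  q0 : 0 ≤ c.q
  qN : c.q ≤ N
  θ0 : 0 < c.θ
  δ0 : 0 < c.δ

/-- Densities. -/
def Den (ρ : E N → ℝ) : Prop := Integrable ρ ∧ ∀ x, 0 ≤ ρ x

/-- A density `ρ` with kinetic density `κ`, current `j` and gradient `n`. -/
structure Flu (ρ κ : E N → ℝ) (j n : Fin N → E N → ℝ) : Prop where
  den : Den ρ
  kden : Den κ
  ij : ∀ i, Integrable (j i)
  inn : ∀ i, Integrable (n i)
  bj : ∀ x, ∑ i, j i x ^ 2 ≤ 4 * (ρ x * κ x)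
  bn : ∀ x, ∑ i, n i x ^ 2 ≤ 4 * (ρ x * κ x)
  grad : ∀ Ψ Ψ1, BW Ψ Ψ1 → ∀ i, ∫ x, Ψ1 i x * ρ x = -∫ x, Ψ x * n i x

/-- The continuity equation. -/
structure Flow (ρ : ℝ → E N → ℝ) (j : ℝ → Fin N → E N → ℝ) : Prop where
  den : ∀ t, Den (ρ t)
  ij : ∀ t i, Integrable (j t i)
  der : ∀ Ψ Ψ1, BW Ψ Ψ1 → ∀ t, 0 < t →
    HasDerivAt (fun s => ∫ x, Ψ x * ρ s x) (∑ i, ∫ x, Ψ1 i x * j t i x) t
  cont : ∀ t i, Tendsto (fun s => ∫ x, |j s i x - j t i x|) (𝓝 t) (𝓝 0)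

section Fields

variable (c : Cfg) (L : E N →L[ℝ] E N) (ρ : E N → ℝ)

/-- The smoothed density. -/
def uu (τ : ℝ) (z : E N) : ℝ := k0 L ρ τ z + c.δ * Real.exp (N * τ)

/-- The normalised logarithm. -/
def yy (τ : ℝ) (z : E N) : ℝ := Real.log (uu c L ρ τ z) - c.q * τ - Real.log c.θ

/-- First derivative of the logarithm. -/
def l1 (h : E N) (τ : ℝ) (z : E N) : ℝ := k1 L ρ h τ z / uu c L ρ τ z

/-- Second derivative of the logarithm. -/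
def l2 (h h' : E N) (τ : ℝ) (z : E N) : ℝ :=
  k2 L ρ h h' τ z / uu c L ρ τ z - l1 c L ρ h τ z * l1 c L ρ h' τ z

def f0 (τ : ℝ) (z : E N) : ℝ := c.G (yy c L ρ τ z)

def g1 (τ : ℝ) (z : E N) : ℝ := c.G1 (yy c L ρ τ z)

def g2 (τ : ℝ) (z : E N) : ℝ := c.G2 (yy c L ρ τ z)

def f1 (h : E N) (τ : ℝ) (z : E N) : ℝ := g1 c L ρ τ z * l1 c L ρ h τ z

def f2 (h h' : E N) (τ : ℝ) (z : E N) : ℝ :=
  g1 c L ρ τ z * l2 c L ρ h h' τ z + g2 c L ρ τ z * (l1 c L ρ h τ z * l1 c L ρ h' τ z)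

/-- Square of the gradient of the logarithm. -/
def s1 (τ : ℝ) (z : E N) : ℝ := ∑ i, l1 c L ρ (ee i) τ z ^ 2

/-- Square of the Hessian of the logarithm and fourth powers of the gradient. -/
def s2 (τ : ℝ) (z : E N) : ℝ :=
  (∑ i, ∑ i', l2 c L ρ (ee i) (ee i') τ z ^ 2) + ∑ i, l1 c L ρ (ee i) τ z ^ 4

/-- Time derivative of the smoothed density. -/
def ud (L : E N →L[ℝ] E N) (j : Fin N → E N → ℝ) (τ : ℝ) (z : E N) : ℝ :=
  -∑ i, k1 L (j i) (L (ee i)) τ z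

/-- Time derivative of the logarithm. -/
def yd (j : Fin N → E N → ℝ) (τ : ℝ) (z : E N) : ℝ := ud L j τ z / uu c L ρ τ z

/-- The largest scale of the block `k`. -/
def rk (c : Cfg) (k : ℕ) : ℝ := Real.exp (c.τ0 - k)

def fF (k : ℕ) (x : E N) : ℝ := ex gam (f0 c L ρ) (c.τ0 - k) (L x)

def fW (k : ℕ) (x : E N) : ℝ := av (c.τ0 - k) 0 gam (g1 c L ρ) (L x)

def fWP (k : ℕ) (x : E N) : ℝ := av (c.τ0 - k) 0 gp (g1 c L ρ) (L x)

def fS (k : ℕ) (x : E N) : ℝ :=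
  av (c.τ0 - k) 2 gam (fun τ z => g1 c L ρ τ z * s1 c L ρ τ z) (L x)

def fD (k : ℕ) (x : E N) : ℝ :=
  av (c.τ0 - k) 2 gam (fun τ z => g1 c L ρ τ z * s2 c L ρ τ z) (L x)

def fI (k : ℕ) (x : E N) : ℝ :=
  av (c.τ0 - k) 0 gq (fun τ z => g1 c L ρ τ z * s1 c L ρ τ z) (L x)

def fP (k : ℕ) (h x : E N) : ℝ := av (c.τ0 - k) 2 gam (f1 c L ρ h) (L x)

def fB (k : ℕ) (h h' x : E N) : ℝ := -av (c.τ0 - k) 2 gam (f2 c L ρ h h') (L x)

def fB3 (k : ℕ) (h h' l x : E N) : ℝ := -av (c.τ0 - k) 1 (he1 l) (f2 c L ρ h h') (L x)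

def fB4 (k : ℕ) (h h' l x : E N) : ℝ := -av (c.τ0 - k) 0 (he2 l l) (f2 c L ρ h h') (L x)

def fW1 (k : ℕ) (l x : E N) : ℝ :=
  av (c.τ0 - k) 0 gam (fun τ z => g2 c L ρ τ z * l1 c L ρ l τ z) (L x)

def fW2 (k : ℕ) (l x : E N) : ℝ :=
  av (c.τ0 - k) (-1) (he1 l) (fun τ z => g2 c L ρ τ z * l1 c L ρ l τ z) (L x)

def fBH (k : ℕ) (x : E N) : Mt N := Matrix.of fun i i' => fB c L ρ k (ee i) (ee i') x

variable (j : Fin N → E N → ℝ)

def fQ (k : ℕ) (x : E N) : ℝ :=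
  av (c.τ0 - k) 2 gq (fun τ z => g1 c L ρ τ z * yd c L ρ j τ z ^ 2) (L x)

def fPt (k : ℕ) (h x : E N) : ℝ :=
  av (c.τ0 - k) 1 (he1 h) (fun τ z => g1 c L ρ τ z * yd c L ρ j τ z) (L x)

def fBt (k : ℕ) (h h' x : E N) : ℝ :=
  -av (c.τ0 - k) 0 (he2 h h') (fun τ z => g1 c L ρ τ z * yd c L ρ j τ z) (L x)

def fWt (k : ℕ) (x : E N) : ℝ :=
  av (c.τ0 - k) 0 gam (fun τ z => g2 c L ρ τ z * yd c L ρ j τ z) (L x)

end Fields

theorem rk_pos (c : Cfg) (k : ℕ) : 0 < rk c k := Real.exp_pos _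

/-! ### The adaptive field -/

section Field

variable (Γ : Net N) (P : GPar) (c : Cfg) (ρ : E N → ℝ)

/-- The columns of the change of variables. -/
def col (Γ : Net N) (a : Fin Γ.m) (i : Fin N) : E N := ap (Γ.L a) (ee i)

def cB (x : E N) : Fin Γ.m → ℕ → Mt N :=
  fun a k => Matrix.of fun i i' => fB c (ap (Γ.L a)) ρ k (col Γ a i) (col Γ a i') x

def cB3 (l : Fin N) (x : E N) : Fin Γ.m → ℕ → Mt N :=
  fun a k => Matrix.of fun i i' => fB3 c (ap (Γ.L a)) ρ k (col Γ a i) (col Γ a i') (col Γ a l) x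

def cB4 (l : Fin N) (x : E N) : Fin Γ.m → ℕ → Mt N :=
  fun a k => Matrix.of fun i i' => fB4 c (ap (Γ.L a)) ρ k (col Γ a i) (col Γ a i') (col Γ a l) x

def cW (x : E N) : Fin Γ.m → ℕ → ℝ := fun a k => fW c (ap (Γ.L a)) ρ k x

def cW1 (l : Fin N) (x : E N) : Fin Γ.m → ℕ → ℝ :=
  fun a k => fW1 c (ap (Γ.L a)) ρ k (col Γ a l) x

def cW2 (l : Fin N) (x : E N) : Fin Γ.m → ℕ → ℝ :=
  fun a k => fW2 c (ap (Γ.L a)) ρ k (col Γ a l) x

/-- The weights of the field. -/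
def cE (a : Fin Γ.m) (k : ℕ) (x : E N) : ℝ := eta Γ P (cB Γ c ρ x) (cW Γ c ρ x) a k

/-- The adaptive field. -/
def cX (i : Fin N) (x : E N) : ℝ :=
  -∑ k ∈ Finset.range c.n, ∑ a, cE Γ P c ρ a k x * fP c (ap (Γ.L a)) ρ k (col Γ a i) x

/-- The main part of the derivative of the field. -/
def cBf (x : E N) : Mt N := Bf Γ P (cB Γ c ρ x) (cW Γ c ρ x) c.n

/-- A majorant of the second derivatives of the field. -/
def sg (x : E N) : ℝ :=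
  tv P.C1 (cW Γ c ρ x) (fun a k => ∑ l, (n1 (cB3 Γ c ρ l x a k) + |cW1 Γ c ρ l x a k| +
    rk c k * (n1 (cB4 Γ c ρ l x a k) + |cW2 Γ c ρ l x a k|))) c.n

/-- The a priori bound. -/
def Apr (K : ℝ) : Prop :=
  ∀ x n, tv P.C1 (cW Γ c ρ x) (fun a k => fW c (ap (Γ.L a)) ρ k x + fS c (ap (Γ.L a)) ρ k x +
    fWP c (ap (Γ.L a)) ρ k x + n1 (cB Γ c ρ x a k)) n ≤ K

end Field

theorem norm_col_le {Γ : Net N} (h : Γ.Ok) (a : Fin Γ.m) (i : Fin N) : ‖col Γ a i‖ ≤ 2 := by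
  simpa [col, norm_ee] using (h.lin a).bL (ee i)

end

end Pool.Agent.Lib.MP_13801a_an.ND
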