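import Mathlib
import Pool.Agent.Lib.MP_13801a_an.ND.DefsA

/-!
The intermediate statements of the evolution part.
-/

open MeasureTheory Set Filter
open scoped ContDiff Topology ComplexConjugate

namespace Pool.Agent.Lib.MP_13801a_an.ND

/-! ### Reduction, nonlinearity, convolution -/

def St_WU : Prop := ∀ (N : ℕ) (u : L2 N) (du du' : Fin N → L2 N), WeakGrad u du → WeakGrad u du' →
  du = du'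

def St_TRANS : Prop := ∀ (N : ℕ) (α γ : ℝ) (u : ℝ → L2 N) (du : ℝ → Fin N → L2 N), 0 < α →
  GlobalSol α γ u du → ∃ (v : ℝ → E N → ℂ) (dv : ℝ → Fin N → E N → ℂ), Sol α (α * γ) v dv ∧
    (∀ x, v 0 x = u 0 x) ∧ ∀ i x, dv 0 i x = du 0 i x

def St_NL : Prop := ∀ α : ℝ, 0 < α → Continuous (NL α) ∧ (∀ z, ‖NL α z‖ = ‖z‖ ^ (α + 1)) ∧
  (∀ z, conj z * NL α z = ((‖z‖ ^ (α + 2) : ℝ) : ℂ)) ∧
  (∀ (f : ℝ → ℂ) (f' : ℂ) (x : ℝ), HasDerivAt f f' x →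
    HasDerivAt (fun y => ‖f y‖ ^ (α + 2)) ((α + 2) * (conj (NL α (f x)) * f').re) x) ∧
  (∀ (N : ℕ) (g : E N → ℂ), Mem (α + 2) g → Mem ((α + 2) / (α + 1)) (fun x => NL α (g x)) ∧
    nr ((α + 2) / (α + 1)) (fun x => NL α (g x)) = nr (α + 2) g ^ (α + 1)) ∧
  ∃ C : ℝ, 0 ≤ C ∧ (∀ z w : ℂ, ‖NL α z - NL α w‖ ≤ C * (‖z‖ ^ α + ‖w‖ ^ α) * ‖z - w‖) ∧
    ∀ (N : ℕ) (g g' : E N → ℂ), Mem (α + 2) g → Mem (α + 2) g' →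
      nr ((α + 2) / (α + 1)) (fun x => NL α (g x) - NL α (g' x)) ≤
        C * (nr (α + 2) g ^ α + nr (α + 2) g' ^ α) * nr (α + 2) (fun x => g x - g' x) ∧
      |pw α g - pw α g'| ≤
        C * (nr (α + 2) g ^ (α + 1) + nr (α + 2) g' ^ (α + 1)) * nr (α + 2) fun x => g x - g' x

def St_TRU : Prop := ∀ α : ℝ, 0 < α → ∃ C : ℝ, 0 ≤ C ∧ ∀ m : ℝ, 0 < m →
  Continuous (gm α m) ∧ Continuous (Fm α m) ∧ (∀ z, ‖gm α m z‖ ≤ m ^ α * ‖z‖) ∧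
  (∀ z w, ‖gm α m z - gm α m w‖ ≤ C * m ^ α * ‖z - w‖) ∧
  (∀ z, (conj (gm α m z) * (Complex.I * NL α z)).re = 0) ∧
  (∀ z, 0 ≤ Fm α m z ∧ Fm α m z ≤ m ^ α * ‖z‖ ^ 2) ∧
  (∀ z w, |Fm α m z - Fm α m w| ≤ m ^ α * ((‖z‖ + ‖w‖) * ‖z - w‖)) ∧
  (∀ (f : ℝ → ℂ) (f' : ℂ) (x : ℝ), HasDerivAt f f' x →
    HasDerivAt (fun y => Fm α m (f y)) (conj (gm α m (f x)) * f').re x) ∧
  ∀ δ : ℝ, 0 ≤ δ → (∀ z, |Fm α m z - ‖z‖ ^ (α + 2) / (α + 2)| ≤ ‖z‖ ^ (α + 2 + δ) / m ^ δ) ∧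
    ∀ z w, ‖NL α z - gm α m z - (NL α w - gm α m w)‖ ≤
      C / m ^ δ * (‖z‖ ^ (α + δ) + ‖w‖ ^ (α + δ)) * ‖z - w‖

def St_CONV : Prop := ∀ (N : ℕ) (p : ℝ), 1 ≤ p →
  (∀ g : E N → ℂ, Mem p g →
    (∀ y : E N, Mem p (fun x => g (x + y)) ∧ nr p (fun x => g (x + y)) = nr p g) ∧
    Continuous fun y => nr p (sh y g)) ∧
  ∀ k : E N → ℂ, Ker k →
    (∃ C : ℝ, 0 ≤ C ∧ ∀ g, Mem p g → ∀ x, ‖cv k g x‖ ≤ C * nr p g) ∧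
    ∀ g, Mem p g → (∀ x, Integrable fun y => k (x - y) * g y) ∧ Continuous (cv k g) ∧
      Mem p (cv k g) ∧ nr p (cv k g) ≤ (∫ y, ‖k y‖) * nr p g ∧
      nr p (fun x => cv k g x - (∫ y, k y) * g x) ≤ ∫ y, ‖k y‖ * nr p (sh (-y) g) ∧
      (∀ q h, p.HolderConjugate q → Mem q h →
        ∫ x, cv k g x * h x = ∫ x, g x * cv (fun y => k (-y)) h x) ∧
      ∀ k' : E N → ℂ, Ker k' → Ker (cv k' k) ∧ ∀ x, cv k' (cv k g) x = cv (cv k' k) g x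

def St_MOL : Prop := ∀ N : ℕ,
  (∀ r : ℝ, 0 < r → Test (mol r : E N → ℝ) ∧ (∀ x : E N, 0 ≤ mol r x) ∧ ∫ x : E N, mol r x = 1 ∧
    (∀ x : E N, mol r (-x) = mol r x) ∧ ∀ i : Fin N, (∀ x, pd i (mol r) (-x) = -pd i (mol r) x) ∧
      ∫ x, pd i (mol r) x = 0 ∧ ∀ x : E N, r ≤ ‖x‖ → mol r x = 0 ∧ pd i (mol r) x = 0) ∧
  (∃ C : ℝ, 0 ≤ C ∧ ∀ r : ℝ, 0 < r → ∀ i : Fin N, ∫ x, |pd i (mol r) x| ≤ C / r) ∧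
  (∀ k : E N → ℝ, Test k → Ker (cr k) ∧
    (∀ p g, 1 ≤ p → Mem p g → ∀ i x, HasLineDerivAt ℝ (cv (cr k) g) (cv (cr (pd i k)) g x) x (ee i)) ∧
    ∀ g dg, H1 g dg → ∀ i x, cv (cr (pd i k)) g x = cv (cr k) (dg i) x) ∧
  ∀ (p : ℝ) (g : E N → ℂ), 1 ≤ p → Mem p g →
    Tendsto (fun r => nr p fun x => cv (cr (mol r)) g x - g x) (𝓝[>] 0) (𝓝 0)

def St_TL : Prop := ∀ (N : ℕ) (g : E N → ℂ) (dg : Fin N → E N → ℂ), H1 g dg → TL g (kin dg)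

def St_GR : Prop := ∀ (N : ℕ) (g : E N → ℂ) (dg : Fin N → E N → ℂ), H1 g dg →
  ∀ Ψ Ψ1, BW Ψ Ψ1 → ∀ i, ∫ x, Ψ1 i x * ‖g x‖ ^ 2 = -∫ x, Ψ x * nn g dg i x

/-! ### Gaussian kernels, Sobolev and Hedberg inequalities -/

def St_GK : Prop := ∀ N : ℕ,
  (ContinuousOn (fun p : ℂ × E N => GK p.1 p.2) {p | 0 < p.1.re}) ∧
  (∀ s : ℝ, 0 < s → (∀ y : E N, GK s y = hk s y) ∧ (∀ y : E N, 0 ≤ hk s y) ∧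
    ∫ y : E N, hk s y = 1 ∧ (Integrable fun y : E N => hk s y * ‖y‖ ^ 2) ∧
    ∫ y : E N, hk s y * ‖y‖ ^ 2 = 2 * N * s) ∧
  ∀ z : ℂ, 0 < z.re → Ker (GK z : E N → ℂ) ∧ ContDiff ℝ ∞ (GK z : E N → ℂ) ∧
    (∀ y : E N, GK z (-y) = GK z y) ∧ (∀ y : E N, conj (GK z y) = GK (conj z) y) ∧
    (∀ y : E N, ‖GK z y‖ =
      (4 * Real.pi * ‖z‖) ^ (-(N : ℝ) / 2) * Real.exp (-(z.re / ‖z‖ ^ 2) * ‖y‖ ^ 2 / 4)) ∧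
    (∀ (i : Fin N) (y : E N), pdc i (GK z) y = -((y i : ℝ) : ℂ) / (2 * z) * GK z y) ∧
    (∀ y : E N, HasDerivAt (fun ζ => GK ζ y)
      ((((‖y‖ ^ 2 : ℝ) : ℂ) / (4 * z ^ 2) - N / (2 * z)) * GK z y) z) ∧
    Tendsto (fun ζ => ∫ y : E N, ‖GK ζ y - GK z y‖) (𝓝 z) (𝓝 0) ∧
    ∀ z' : ℂ, 0 < z'.re → ∀ x : E N, cv (GK z) (GK z') x = GK (z + z') x

def St_TEL : Prop := ∀ (N : ℕ) (g : E N → ℂ) (K s0 : ℝ) (n : ℕ), TL g K → 0 < s0 →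
  ∑ k ∈ Finset.range n, ms (fun x => g x - cv (cr (hk (2 ^ k * s0))) g x) / (2 ^ k * s0) ≤
    2 * N * K

def St_LEV : Prop := ∀ (N : ℕ) (g : E N → ℂ) (K s0 a Λ : ℝ) (n : ℕ) (h : ℕ → ℝ) (A : Set (E N)),
  TL g K → 0 < s0 → 0 ≤ a → 0 ≤ Λ → 0 ≤ K → MeasurableSet A → (∀ k, 0 ≤ h k) →
  (∀ k, ∀ x ∈ A, ‖cv (cr (hk (2 ^ k * s0))) g x‖ ≤ h k / 2) →
  (∀ k < n, h k ^ a * (2 ^ (k + 1) * s0) ≤ Λ) →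
  ∫⁻ x in A, ENNReal.ofReal (if ‖g x‖ < h 0 then ‖g x‖ ^ (a + 2) else 0) ≤
    ENNReal.ofReal (8 * N * Λ * K + h n ^ a * ms g)

def St_SOB : Prop := ∀ (N : ℕ) (p : ℝ), 1 ≤ N → 2 ≤ p → ((N : ℝ) - 2) * p < 2 * N →
  ∃ C : ℝ, 0 ≤ C ∧ ∀ (g : E N → ℂ) (K : ℝ), 0 ≤ K → TL g K → Mem p g ∧ nr p g ≤ C * √(ms g + K)

def St_HED : Prop := ∀ (N : ℕ) (α q : ℝ), 0 < α → q < N → α * (N - q) ≤ 4 →
  ∃ C : ℝ, 0 ≤ C ∧ ∀ p Θ R B η : ℝ, α + 2 < p → 0 < Θ → 0 < R → 0 < η → ∃ r0 : ℝ, 0 < r0 ∧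
    ∀ (g : E N → ℂ) (K : ℝ), 0 ≤ K → TL g K → Mem (α + 2) g → Mem p g → nr p g ≤ B →
      MeasurableSet (Sp q Θ r0 fun x => ‖g x‖ ^ 2) ∧
      ∫ x in Sp q Θ r0 fun x => ‖g x‖ ^ 2, ‖g x‖ ^ (α + 2) ≤
        C * Θ ^ (α / 2) * (R ^ (2 - α * (N - q) / 2) * K + R ^ (-(α * (N - q) / 2)) * ms g) + η

/-! ### Continuity of solutions -/

def St_BASIC : Prop := ∀ (N : ℕ) (α κ : ℝ) (v : ℝ → E N → ℂ) (dv : ℝ → Fin N → E N → ℂ),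
  Sub N α → Sol α κ v dv →
  (Continuous fun t => ms (v t)) ∧ (Continuous fun t => kin (dv t)) ∧
  (Continuous fun t => pw α (v t)) ∧
  (∀ p : ℝ, 2 ≤ p → ((N : ℝ) - 2) * p < 2 * N → (∀ t, Mem p (v t)) ∧
    (Continuous fun t => nr p (v t)) ∧
    (∀ t, Tendsto (fun s => nr p fun x => v s x - v t x) (𝓝 t) (𝓝 0)) ∧
    Continuous fun a : ℝ × E N => nr p (sh a.2 (v a.1))) ∧
  (∀ t, Mem (α + 2) (v t) ∧ Mem ((α + 2) / (α + 1)) fun x => NL α (v t x)) ∧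
  (∀ t, Tendsto (fun s => nr ((α + 2) / (α + 1)) fun x => NL α (v s x) - NL α (v t x))
    (𝓝 t) (𝓝 0)) ∧
  ∀ t i, Tendsto (fun s => ∫ x, |jj (v s) (dv s) i x - jj (v t) (dv t) i x|) (𝓝 t) (𝓝 0)

def St_FLU : Prop := ∀ (N : ℕ) (g : E N → ℂ) (dg : Fin N → E N → ℂ), MemLp g 2 volume →
  (∀ i, MemLp (dg i) 2 volume) →
  (∀ i, Integrable (jj g dg i) ∧ Integrable (nn g dg i)) ∧ Integrable (kd dg) ∧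
  (∀ i j, Integrable (st dg i j)) ∧ ∫ x, kd dg x = kin dg ∧
  (∀ x, ∑ i, jj g dg i x ^ 2 ≤ 4 * (‖g x‖ ^ 2 * kd dg x) ∧
    ∑ i, nn g dg i x ^ 2 ≤ 4 * (‖g x‖ ^ 2 * kd dg x)) ∧
  (∀ i, ∫ x, |jj g dg i x| ≤ 2 * √(ms g * kin dg)) ∧
  ∀ (x : E N) (B : Fin N → Fin N → ℝ) (c : ℝ),
    (∀ y : Fin N → ℝ, ∑ i, ∑ j, B i j * (y i * y j) ≤ c * ∑ i, y i ^ 2) →
    ∑ i, ∑ j, B i j * st dg i j x ≤ c * kd dg x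

def St_VCONT : Prop := ∀ (N : ℕ) (α κ : ℝ) (v : ℝ → E N → ℂ) (dv : ℝ → Fin N → E N → ℂ),
  Sub N α → Sol α κ v dv → ∀ T B η : ℝ, 0 < η → ∃ τ : ℝ, 0 < τ ∧ ∀ s t, |s| ≤ T → |t| ≤ T →
    |s - t| ≤ τ → ∀ X1 X2 : Fin N → Fin N → E N → ℝ,
      (∀ i j, Measurable (X1 i j) ∧ Measurable (X2 i j)) →
      (∀ i j x, |X1 i j x| ≤ B ∧ |X2 i j x| ≤ B) →
      |vir α (Real.exp (κ * s)) X1 X2 (v s) (dv s) - vir α (Real.exp (κ * t)) X1 X2 (v t) (dv t)| ≤ η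

def St_APX : Prop := ∀ (N : ℕ) (α κ : ℝ) (v : ℝ → E N → ℂ) (dv : ℝ → Fin N → E N → ℂ),
  Sub N α → Sol α κ v dv → ∀ r : ℝ, 0 < r → Apx α κ (fm r v) (nm α r v)

/-! ### Identities for smooth approximate solutions -/

def St_FUB : Prop := ∀ (N : ℕ) (a b : ℝ → E N → ℝ) (s t C : ℝ), s ≤ t →
  (Continuous fun p : ℝ × E N => a p.1 p.2) → (Measurable fun p : ℝ × E N => b p.1 p.2) →
  (∀ σ ∈ Ioo s t, ∀ x, HasDerivAt (fun τ => a τ x) (b σ x) σ) →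
  (∀ x, IntervalIntegrable (fun σ => b σ x) volume s t) → (∀ σ, Integrable (a σ)) →
  (∀ σ ∈ Icc s t, Integrable (b σ) ∧ ∫ x, |b σ x| ≤ C) →
  IntervalIntegrable (fun σ => ∫ x, b σ x) volume s t ∧
    (∫ x, a t x) - ∫ x, a s x = ∫ σ in s..t, ∫ x, b σ x

def St_VIR1 : Prop := ∀ (N : ℕ) (α κ : ℝ) (f n : List (Fin N) → ℝ → E N → ℂ), 0 < α →
  Apx α κ f n → ∀ (Ψ : E N → ℝ) (Ψ1 : Fin N → E N → ℝ) (B : ℝ), BW Ψ Ψ1 → (∀ x, |Ψ x| ≤ B) →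
  Rate (fun t => ∫ x, Ψ x * ‖f [] t x‖ ^ 2) (fun t => mom Ψ1 (f [] t) fun i => f [i] t)
    fun t => 2 * B * Real.exp (κ * t) * nr (α + 2) (f [] t) * nr ((α + 2) / (α + 1)) (com α f n t)

def St_VIR2 : Prop := ∀ (N : ℕ) (α κ : ℝ) (f n : List (Fin N) → ℝ → E N → ℂ), 0 < α →
  Apx α κ f n → ∀ (X : Fin N → E N → ℝ) (X1 X2 : Fin N → Fin N → E N → ℝ) (B : ℝ), VF X X1 X2 →
  (∀ i j x, |X j x| ≤ B ∧ |X1 i j x| ≤ B) →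
  Rate (fun t => mom X (f [] t) fun i => f [i] t)
    (fun t => vir α (Real.exp (κ * t)) X1 X2 (f [] t) fun i => f [i] t)
    fun t => B * Real.exp (κ * t) * (∑ i, (2 * nr (α + 2) (f [] t) + 4 * nr (α + 2) (f [i] t))) *
      nr ((α + 2) / (α + 1)) (com α f n t)

def St_ENR : Prop := ∀ (N : ℕ) (α κ m : ℝ) (f n : List (Fin N) → ℝ → E N → ℂ), 0 < α → 0 < m →
  Apx α κ f n →
  Rate (fun t => kin (fun i => f [i] t) / 2 - Real.exp (κ * t) * ∫ x, Fm α m (f [] t x))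
    (fun t => -(κ * Real.exp (κ * t) * ∫ x, Fm α m (f [] t x)))
    fun t => Real.exp (κ * t) *
        (∑ j, ‖∫ x, conj (n [] t x - gm α m (f [] t x)) * f [j, j] t x‖) +
      Real.exp (κ * t) ^ 2 * |∫ x, (conj (gm α m (f [] t x)) * (Complex.I * n [] t x)).re|

/-! ### The Strichartz estimate -/

def St_DISPE : Prop := ∀ (N : ℕ) (p q : ℝ), 2 ≤ p → p.HolderConjugate q → ∀ z : ℂ, 0 < z.re →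
  ∀ f : E N → ℂ, Mem q f → Mem p (cv (GK z) f) ∧
    nr p (cv (GK z) f) ≤ ‖z‖ ^ (-(N * (1 / 2 - 1 / p))) * nr q f

def St_EXT : Prop := ∀ (N : ℕ) (φ : E N → ℂ), Nice φ →
  (∀ g dg, H1 g dg → ∀ i, ∫ x, g x * pdc i φ x = -∫ x, dg i x * φ x) ∧
  ∀ (α κ : ℝ) (v : ℝ → E N → ℂ) (dv : ℝ → Fin N → E N → ℂ), Sub N α → Sol α κ v dv →
    ∀ t, 0 < t → HasDerivAt (fun s => ∫ x, v s x * φ x)
      (Complex.I * (-(∑ i, ∫ x, dv t i x * pdc i φ x) +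
        (Real.exp (κ * t) : ℝ) * ∫ x, NL α (v t x) * φ x)) t

def St_DUH : Prop := ∀ (N : ℕ) (α κ : ℝ) (v : ℝ → E N → ℂ) (dv : ℝ → Fin N → E N → ℂ),
  Sub N α → Sol α κ v dv → ∀ ε t0 t : ℝ, 0 < ε → 0 ≤ t0 → t0 ≤ t →
  (Continuous fun p : ℝ × E N =>
    cv (GK (ε + Complex.I * (t - p.1 : ℝ))) (fun y => NL α (v p.1 y)) p.2) ∧
  ∀ x, cv (GK ε) (v t) x = cv (GK (ε + Complex.I * (t - t0 : ℝ))) (v t0) x +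
    Complex.I * ∫ s in t0..t, (Real.exp (κ * s) : ℝ) *
      cv (GK (ε + Complex.I * (t - s : ℝ))) (fun y => NL α (v s y)) x

def St_MINK : Prop := ∀ (N : ℕ) (p t0 t : ℝ) (Γ : ℝ → E N → ℂ) (a : ℝ → ℝ), 1 < p → t0 ≤ t →
  (Continuous fun q : ℝ × E N => Γ q.1 q.2) → Continuous a →
  (∀ s ∈ Icc t0 t, Mem p (Γ s) ∧ nr p (Γ s) ≤ a s) →
  Mem p (fun x => ∫ s in t0..t, Γ s x) ∧ nr p (fun x => ∫ s in t0..t, Γ s x) ≤ ∫ s in t0..t, a s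

def St_SCHUR : Prop := ∀ (δ ε t0 l : ℝ) (a : ℝ → ℝ), 0 ≤ δ → δ < 1 → 0 < ε → 0 ≤ l →
  Continuous a → (∀ s, 0 ≤ a s) →
  (∫ t in t0..t0 + l, (∫ s in t0..t, ‖(ε : ℂ) + Complex.I * (t - s : ℝ)‖ ^ (-δ) * a s) ^ 2 ≤
    (2 * l ^ (1 - δ) / (1 - δ)) ^ 2 * ∫ s in t0..t0 + l, a s ^ 2) ∧
  ∫ t in t0..t0 + l, ∫ s in t0..t0 + l, ‖(ε : ℂ) + Complex.I * (t - s : ℝ)‖ ^ (-δ) * (a s * a t) ≤
    2 * l ^ (1 - δ) / (1 - δ) * ∫ s in t0..t0 + l, a s ^ 2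

def St_HOM : Prop := ∀ (N : ℕ) (p : ℝ), 2 ≤ p → N * (1 / 2 - 1 / p) < 1 → ∃ C : ℝ, 0 ≤ C ∧
  ∀ (ε l : ℝ) (g : E N → ℂ), 0 < ε → 0 ≤ l → l ≤ 1 → MemLp g 2 volume →
    (∀ t : ℝ, Mem p (cv (GK (ε + Complex.I * t)) g)) ∧
    (Continuous fun t : ℝ => nr p (cv (GK (ε + Complex.I * t)) g)) ∧
    ∫ t in (0 : ℝ)..l, nr p (cv (GK (ε + Complex.I * t)) g) ^ 2 ≤ C * ms g

def St_STR : Prop := ∀ (N : ℕ) (α κ : ℝ) (v : ℝ → E N → ℂ) (dv : ℝ → Fin N → E N → ℂ),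
  Sub N α → Sol α κ v dv → ∀ T : ℝ, 0 ≤ T → ∃ C : ℝ, 0 ≤ C ∧
    ∀ h : E N, ∫ t in (0 : ℝ)..T, nr (α + 2) (sh h (v t)) ^ 2 ≤ C * ‖h‖ ^ 2

def St_STRC : Prop := ∀ (N : ℕ) (α κ : ℝ) (v : ℝ → E N → ℂ) (dv : ℝ → Fin N → E N → ℂ),
  Sub N α → Sol α κ v dv → ∀ T : ℝ, 0 ≤ T → ∃ C : ℝ, 0 ≤ C ∧
    ∀ (p om : ℝ) (h : ℝ → E N → ℂ), 1 ≤ p → 0 ≤ om → (∀ t, Mem p (h t)) →
      (∀ t, Tendsto (fun s => nr p fun x => h s x - h t x) (𝓝 t) (𝓝 0)) →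
      (∀ t ∈ Icc 0 T, ∀ y, nr p (sh y (h t)) ≤ om * nr (α + 2) (sh y (v t))) →
      ∀ r : ℝ, 0 < r → ∀ i : Fin N,
        (Continuous fun t => nr p (cv (cr (pd i (mol r))) (h t))) ∧
        ∫ t in (0 : ℝ)..T, nr p (cv (cr (pd i (mol r))) (h t)) ^ 2 ≤ C * om ^ 2

/-! ### Conservation laws -/

def St_COM : Prop := ∀ (N : ℕ) (α κ : ℝ) (v : ℝ → E N → ℂ) (dv : ℝ → Fin N → E N → ℂ),
  Sub N α → Sol α κ v dv → ∀ T η : ℝ, 0 < η → ∀ᶠ r in 𝓝[>] (0 : ℝ), ∀ t, |t| ≤ T →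
    ms (fun x => fm r v [] t x - v t x) ≤ η ∧ (∀ i, ms (fun x => fm r v [i] t x - dv t i x) ≤ η) ∧
    nr (α + 2) (fun x => fm r v [] t x - v t x) ≤ η ∧
    nr ((α + 2) / (α + 1)) (fun x => nm α r v [] t x - NL α (v t x)) ≤ η ∧
    nr ((α + 2) / (α + 1)) (com α (fm r v) (nm α r v) t) ≤ η

def St_EN1 : Prop := ∀ (N : ℕ) (α m : ℝ), 0 < α → 0 < m → ∃ C : ℝ, 0 ≤ C ∧
  ∀ (g : E N → ℂ) (dg : Fin N → E N → ℂ), H1 g dg → ∀ r η : ℝ, 0 < r → 0 < η → ∀ j : Fin N,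
    ‖∫ x, conj (cv (cr (mol r)) (fun y => gm α m (g y)) x - gm α m (cv (cr (mol r)) g x)) *
        cv (cr (pd j (pd j (mol r)))) g x‖ ≤
      C * √(kin dg) * √(ms fun x => cv (cr (mol η)) (dg j) x - dg j x) + C * (r / η) * kin dg

def St_EN2 : Prop := ∀ (N : ℕ) (α δ : ℝ), 0 < α → 0 ≤ δ → ∃ C : ℝ, 0 ≤ C ∧
  ∀ (m : ℝ) (g g' : E N → ℂ), 0 < m → Mem (α + 2) g → Mem (α + 2) g' →
    Mem ((α + 2) * (α + δ) / α) g → Mem ((α + 2) * (α + δ) / α) g' →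
    Mem ((α + 2) / (α + 1)) (fun x => NL α (g x) - gm α m (g x)) ∧
    nr ((α + 2) / (α + 1))
        (fun x => NL α (g x) - gm α m (g x) - (NL α (g' x) - gm α m (g' x))) ≤
      C / m ^ δ * (nr ((α + 2) * (α + δ) / α) g ^ (α + δ) +
        nr ((α + 2) * (α + δ) / α) g' ^ (α + δ)) * nr (α + 2) fun x => g x - g' x

def St_LMASS : Prop := ∀ (N : ℕ) (α κ : ℝ) (v : ℝ → E N → ℂ) (dv : ℝ → Fin N → E N → ℂ),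
  Sub N α → Sol α κ v dv → (∀ t, 0 ≤ t → ms (v t) = ms (v 0)) ∧
  ∀ Ψ Ψ1, BW Ψ Ψ1 → (Continuous fun t => mom Ψ1 (v t) (dv t)) ∧
    ∀ t, 0 < t → HasDerivAt (fun s => ∫ x, Ψ x * ‖v s x‖ ^ 2) (mom Ψ1 (v t) (dv t)) t

def St_MOM : Prop := ∀ (N : ℕ) (α κ : ℝ) (v : ℝ → E N → ℂ) (dv : ℝ → Fin N → E N → ℂ),
  Sub N α → Sol α κ v dv → ∀ X X1 X2, VF X X1 X2 →
    (Continuous fun t => vir α (Real.exp (κ * t)) X1 X2 (v t) (dv t)) ∧ ∀ t, 0 < t →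
    HasDerivAt (fun s => mom X (v s) (dv s)) (vir α (Real.exp (κ * t)) X1 X2 (v t) (dv t)) t

def St_ENER : Prop := ∀ (N : ℕ) (α κ : ℝ) (v : ℝ → E N → ℂ) (dv : ℝ → Fin N → E N → ℂ),
  Sub N α → Sol α κ v dv → ∀ s t, 0 ≤ s → s ≤ t →
    en α κ v dv t - en α κ v dv s = -∫ σ in s..t, κ * pot α κ v σ

def St_MONO : Prop := ∀ (N : ℕ) (α κ : ℝ) (v : ℝ → E N → ℂ) (dv : ℝ → Fin N → E N → ℂ),
  Sub N α → 0 ≤ κ → Sol α κ v dv → ∀ t1, 0 ≤ t1 → en α κ v dv t1 < 0 →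
  ∃ y0 : ℝ, 0 < y0 ∧ ∀ t, t1 ≤ t → en α κ v dv t ≤ -(y0 * Real.exp (κ * t))

def St_INIT : Prop := ∀ (N : ℕ) (α K0 : ℝ) (v0 : E N → ℂ), Sub N α → MemLp v0 2 volume →
  ¬ (v0 =ᵐ[volume] 0) → ∃ κ0 : ℝ, 0 < κ0 ∧ ∀ κ, κ0 < κ →
    ∀ (v : ℝ → E N → ℂ) (dv : ℝ → Fin N → E N → ℂ), Sol α κ v dv →
    v 0 =ᵐ[volume] v0 → kin (dv 0) ≤ K0 → ∃ t, 0 ≤ t ∧ en α κ v dv t < 0

/-! ### The two window inequalities and the end of the proof -/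

def St_WIN : Prop := ∀ (N q : ℕ) (α q' η M : ℝ), Sub N α → q ≤ N → 0 < q' → q' < q →
  α * (N - q') ≤ 4 → 0 < η → 0 < M → ∃ C : ℝ, 0 ≤ C ∧
  ∀ (κ : ℝ) (v : ℝ → E N → ℂ) (dv : ℝ → Fin N → E N → ℂ), 0 ≤ κ → Sol α κ v dv →
    (∀ t, 0 ≤ t → ms (v t) = M) → ∀ t1 T F0 : ℝ, 0 < t1 → 0 < T → 0 < F0 →
    (∀ s ∈ Icc t1 (t1 + T), F0 ≤ -en α κ v dv s) →
    ∫ s in t1..t1 + T, wt t1 T s *
        ((2 * α * (N - q + 1) - η) * pot α κ v s - (4 + η) * kin (dv s)) ≤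
      C * T ^ 3 * (Real.exp (κ * (t1 + T)) / F0 ^ (1 - α * (N - q') / 4)) ^ (4 / (α * q'))

def St_MWIN : Prop := ∀ (N : ℕ) (α M : ℝ), 4 < N * α → α * (N - 1) ≤ 4 → 0 < M →
  ∃ C : ℝ, 0 ≤ C ∧ ∀ (κ : ℝ) (v : ℝ → E N → ℂ) (dv : ℝ → Fin N → E N → ℂ), 0 ≤ κ →
    Sol α κ v dv → (∀ t, 0 ≤ t → ms (v t) = M) → ∀ t1 T F0 : ℝ, 0 < t1 → 0 < T → 0 < F0 →
    (∀ s ∈ Icc t1 (t1 + T), F0 ≤ -en α κ v dv s) →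
    F0 * T ^ 2 ≤ C * (Real.exp (κ * (t1 + T)) / F0 ^ (1 - α * (N - 1) / 4)) ^ (4 / α)

def St_FIN : Prop := ∀ (N : ℕ) (α κ : ℝ) (v : ℝ → E N → ℂ) (dv : ℝ → Fin N → E N → ℂ),
  4 < N * α → Sub N α → 0 ≤ κ → Sol α κ v dv → ∀ t1, 0 ≤ t1 → en α κ v dv t1 < 0 → False

def St_MAIN : Prop := ∀ (N : ℕ) (α : ℝ), 4 < N * α → ((N : ℝ) - 2) * α < 4 →
  (∀ (u0 : L2 N) (du0 : Fin N → L2 N), WeakGrad u0 du0 → u0 ≠ 0 → ∃ γ0 : ℝ, 0 < γ0 ∧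
    ∀ γ : ℝ, γ0 < γ → ¬ ∃ u du, GlobalSol α γ u du ∧ u 0 = u0) ∧
  ∀ γ : ℝ, 0 ≤ γ → ∀ (u0 : L2 N) (du0 : Fin N → L2 N), WeakGrad u0 du0 → energy α u0 du0 < 0 →
    ¬ ∃ u du, GlobalSol α γ u du ∧ u 0 = u0

end Pool.Agent.Lib.MP_13801a_an.ND
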