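import Mathlib
import Pool.Agent.Lib.MP_13801a_an.ND.StsA
import Pool.Agent.Lib.MP_13801a_an.ND.DefsG

/-!
The intermediate statements of the construction of the adaptive vector field.
-/

open MeasureTheory Set Filter Matrix
open scoped Topology

namespace Pool.Agent.Lib.MP_13801a_an.ND

/-! ### Gaussian calculus -/

def St_PROF : Prop :=
  (∀ β e : ℝ, 0 < β → β ≤ 1 → 0 < e → e ≤ 1 / 2 → ∃ G G1 G2, Prof β e G G1 G2) ∧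
  ∀ lo hi : ℝ, lo < hi → ∃ z z1 z2, Cut z z1 z2 ∧ (∀ s, s ≤ lo → z s = 0) ∧ ∀ s, hi ≤ s → z s = 1

def St_GAU : Prop := ∀ N : ℕ,
  (Gau (gam : E N → ℝ) ∧ Gau (gp : E N → ℝ) ∧ Gau (gq : E N → ℝ) ∧ (∀ h : E N, Gau (he1 h)) ∧
    ∀ h h' : E N, Gau (he2 h h')) ∧
  (∀ φ : E N → ℝ, Gau φ → (∀ h : E N, Gau fun ξ => inner ℝ ξ h * φ ξ) ∧
    (∀ n : ℕ, Gau fun ξ => ‖ξ‖ ^ n * φ ξ) ∧ ∀ a : ℝ, Gau fun ξ => Real.exp (a * ‖ξ‖) * φ ξ) ∧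
  (∫ ξ : E N, gam ξ = 1 ∧ (∀ h : E N, ∫ ξ, inner ℝ ξ h ^ 2 * gam ξ = ‖h‖ ^ 2) ∧
    ∫ ξ : E N, ‖ξ‖ ^ 2 * gam ξ = N) ∧
  (∀ h ξ : E N, HasLineDerivAt ℝ gam (-he1 h ξ) ξ h) ∧
  (∀ h h' ξ : E N, HasLineDerivAt ℝ (he1 h) (-he2 h h' ξ) ξ h') ∧
  ∀ (n : ℕ) (a c : ℝ), 0 < c → ∃ C : ℝ, 0 ≤ C ∧ ∀ s : ℝ, 0 ≤ s →
    (1 + s) ^ n * Real.exp (a * s) ≤ C * Real.exp (c * s ^ 2)

def St_AVD : Prop := ∀ (N : ℕ) (φ : E N → ℝ), Gau φ →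
  (∀ g : ℝ → E N → ℝ, Slab g → Slab (ex φ g) ∧ ∀ τk s, CB (av τk s φ g)) ∧
  (∀ (g g' : ℝ → E N → ℝ) (h : E N), Slab g → Slab g' →
    (∀ τ z, HasLineDerivAt ℝ (g τ) (g' τ z) z h) →
    (∀ τ y, HasLineDerivAt ℝ (ex φ g τ) (ex φ g' τ y) y h) ∧
    ∀ τk s y, HasLineDerivAt ℝ (av τk s φ g) (av τk s φ g' y) y h) ∧
  (∀ (φ' : E N → ℝ) (g : ℝ → E N → ℝ) (h : E N), Gau φ' → Slab g →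
    (∀ ξ, HasLineDerivAt ℝ φ (-φ' ξ) ξ h) →
    (∀ τ y, HasLineDerivAt ℝ (ex φ g τ) (Real.exp (-τ) * ex φ' g τ y) y h) ∧
    (∀ τk s y, HasLineDerivAt ℝ (av τk s φ g) (av τk (s - 1) φ' g y) y h) ∧
    ∀ g' : ℝ → E N → ℝ, Slab g' → (∀ τ z, HasLineDerivAt ℝ (g τ) (g' τ z) z h) →
      (∀ τ y, ex φ g' τ y = Real.exp (-τ) * ex φ' g τ y) ∧
      ∀ τk s y, av τk s φ g' y = av τk (s - 1) φ' g y) ∧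
  ∀ (g gd : ℝ → ℝ → E N → ℝ) (t τk s C : ℝ) (y : E N),
    (∀ᶠ σ in 𝓝 t, Slab (g σ) ∧ Slab (gd σ) ∧ ∀ τ ∈ Icc (τk - 1) τk, ∀ z,
      HasDerivAt (fun σ' => g σ' τ z) (gd σ τ z) σ ∧ |gd σ τ z| ≤ C) →
    HasDerivAt (fun σ => av τk s φ (g σ) y) (av τk s φ (gd t) y) t

def St_SWAP : Prop := ∀ (N : ℕ) (L : E N →L[ℝ] E N) (φ a : E N → ℝ) (g : ℝ → E N → ℝ),
  Gau φ → Slab g → Integrable a →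
  (∀ τ, (Integrable fun x => a x * ex φ g τ (L x)) ∧ (Integrable fun z => g τ z * km L φ a τ z) ∧
    ∫ x, a x * ex φ g τ (L x) = Real.exp (-(N * τ)) * ∫ z, g τ z * km L φ a τ z) ∧
  (Continuous fun τ => ∫ x, a x * ex φ g τ (L x)) ∧
  ∀ τk s, (Integrable fun x => a x * av τk s φ g (L x)) ∧
    ∫ x, a x * av τk s φ g (L x) =
      ∫ τ in (τk - 1)..τk, Real.exp (s * τ) * ∫ x, a x * ex φ g τ (L x)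

def St_HEAT : Prop := ∀ (N : ℕ) (L : E N →L[ℝ] E N) (a : E N → ℝ), Integrable a →
  (∀ φ : E N → ℝ, Gau φ → Slab (km L φ a) ∧ (∀ τ z, Integrable fun x => a x * φ (xi L τ z x)) ∧
    (∀ C : ℝ, (∀ ξ, |φ ξ| ≤ C) → ∀ τ z, |km L φ a τ z| ≤ C * ∫ x, |a x|) ∧
    ∀ τ, Integrable (km L φ a τ) ∧
      ∫ z, km L φ a τ z = Real.exp (N * τ) * ((∫ ξ, φ ξ) * ∫ x, a x)) ∧
  (Slab (k0 L a) ∧ (∀ h, Slab (k1 L a h)) ∧ ∀ h h', Slab (k2 L a h h')) ∧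
  (∀ h τ z, HasLineDerivAt ℝ (k0 L a τ) (k1 L a h τ z) z h) ∧
  (∀ h h' τ z, HasLineDerivAt ℝ (k1 L a h τ) (k2 L a h h' τ z) z h') ∧
  (∀ h τ z, k1 L a h τ z = ∑ i, h i * k1 L a (ee i) τ z) ∧
  (∀ h h' τ z, k2 L a h h' τ z = k2 L a h' h τ z ∧
    k2 L a h h' τ z = ∑ i, h i * k2 L a (ee i) h' τ z) ∧
  (∀ τ z, HasDerivAt (fun σ => k0 L a σ z)
    (N * k0 L a τ z + Real.exp (2 * τ) * ∑ i, k2 L a (ee i) (ee i) τ z) τ) ∧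
  (∀ τ y ξ, HasDerivAt (fun σ => k0 L a σ (y + Real.exp σ • ξ))
    (N * k0 L a τ (y + Real.exp τ • ξ) +
      Real.exp (2 * τ) * (∑ i, k2 L a (ee i) (ee i) τ (y + Real.exp τ • ξ)) +
      Real.exp τ * k1 L a ξ τ (y + Real.exp τ • ξ)) τ) ∧
  ∀ τ z, BW (fun x => gam (xi L τ z x)) fun i x => Real.exp (-τ) * he1 (L (ee i)) (xi L τ z x)

def St_LOG : Prop := ∀ (N : ℕ) (c : Cfg) (β e : ℝ) (L : E N →L[ℝ] E N) (ρ : E N → ℝ),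
  c.Ok N β e → Den ρ →
  (∀ τ z, 0 ≤ k0 L ρ τ z ∧ c.δ * Real.exp (N * τ) ≤ uu c L ρ τ z ∧ 0 < uu c L ρ τ z) ∧
  (Slab (uu c L ρ) ∧ (Slab fun τ z => (uu c L ρ τ z)⁻¹) ∧ Slab (yy c L ρ) ∧ Slab (f0 c L ρ) ∧
    Slab (g1 c L ρ) ∧ Slab (g2 c L ρ) ∧ Slab (s1 c L ρ) ∧ Slab (s2 c L ρ) ∧
    (∀ h, Slab (l1 c L ρ h) ∧ Slab (f1 c L ρ h)) ∧
    ∀ h h', Slab (l2 c L ρ h h') ∧ Slab (f2 c L ρ h h')) ∧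
  (∀ h τ z, HasLineDerivAt ℝ (uu c L ρ τ) (k1 L ρ h τ z) z h ∧
    HasLineDerivAt ℝ (yy c L ρ τ) (l1 c L ρ h τ z) z h ∧
    HasLineDerivAt ℝ (f0 c L ρ τ) (f1 c L ρ h τ z) z h ∧
    HasLineDerivAt ℝ (g1 c L ρ τ) (g2 c L ρ τ z * l1 c L ρ h τ z) z h) ∧
  (∀ h h' τ z, HasLineDerivAt ℝ (l1 c L ρ h τ) (l2 c L ρ h h' τ z) z h' ∧
    HasLineDerivAt ℝ (f1 c L ρ h τ) (f2 c L ρ h h' τ z) z h') ∧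
  (∀ h τ z, l1 c L ρ h τ z = ∑ i, h i * l1 c L ρ (ee i) τ z ∧
    l1 c L ρ h τ z ^ 2 ≤ ‖h‖ ^ 2 * s1 c L ρ τ z ∧
    -(Real.exp (2 * τ) * l2 c L ρ h h τ z) ≤ ‖h‖ ^ 2) ∧
  (∀ h h' τ z, l2 c L ρ h h' τ z = l2 c L ρ h' h τ z ∧ f2 c L ρ h h' τ z = f2 c L ρ h' h τ z ∧
    f2 c L ρ h h' τ z = ∑ i, ∑ i', h i * h' i' * f2 c L ρ (ee i) (ee i') τ z ∧
    f2 c L ρ h h' τ z ^ 2 ≤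
      2 * (N + 1) * (‖h‖ ^ 2 * ‖h'‖ ^ 2) * (g1 c L ρ τ z ^ 2 * s2 c L ρ τ z)) ∧
  (∀ τ y ξ, HasDerivAt (fun σ => yy c L ρ σ (y + Real.exp σ • ξ))
    (N - c.q + Real.exp (2 * τ) * ((∑ i, l2 c L ρ (ee i) (ee i) τ (y + Real.exp τ • ξ)) +
      s1 c L ρ τ (y + Real.exp τ • ξ)) + Real.exp τ * l1 c L ρ ξ τ (y + Real.exp τ • ξ)) τ) ∧
  (∀ j : Fin N → E N → ℝ, (∀ i, Integrable (j i)) → Slab (ud L j) ∧ Slab (yd c L ρ j)) ∧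
  ∀ (A : ℝ) (W : E N →L[ℝ] E N) (κ : E N → ℝ) (j n : Fin N → E N → ℝ), Lin A L W → Flu ρ κ j n →
    (∀ h τ z, k1 L ρ h τ z = k0 L (fun x => ∑ i, W h i * n i x) τ z) ∧
    ∀ τ z, uu c L ρ τ z * s1 c L ρ τ z ≤ 4 * N * A ^ 2 * k0 L κ τ z

/-! ### The fields of one mode -/

def St_MDER : Prop := ∀ (N : ℕ) (c : Cfg) (β e : ℝ) (L : E N →L[ℝ] E N) (ρ : E N → ℝ),
  c.Ok N β e → Den ρ → ∀ k : ℕ,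
  (CB (fW c L ρ k) ∧ CB (fWP c L ρ k) ∧ CB (fS c L ρ k) ∧ CB (fD c L ρ k) ∧ CB (fI c L ρ k) ∧
    (∀ h, CB (fP c L ρ k h) ∧ CB (fW1 c L ρ k h) ∧ CB (fW2 c L ρ k h)) ∧
    (∀ h h', CB (fB c L ρ k h h')) ∧
    ∀ h h' l, CB (fB3 c L ρ k h h' l) ∧ CB (fB4 c L ρ k h h' l)) ∧
  (∀ j : Fin N → E N → ℝ, (∀ i, Integrable (j i)) → CB (fQ c L ρ j k) ∧ CB (fWt c L ρ j k) ∧
    (∀ h, CB (fPt c L ρ j k h)) ∧ ∀ h h', CB (fBt c L ρ j k h h')) ∧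
  ∀ v x : E N, (∀ h, HasLineDerivAt ℝ (fP c L ρ k h) (-fB c L ρ k (L v) h x) x v) ∧
    (∀ h h', HasLineDerivAt ℝ (fB c L ρ k h h') (fB3 c L ρ k h h' (L v) x) x v ∧
      HasLineDerivAt ℝ (fB3 c L ρ k h h' (L v)) (fB4 c L ρ k h h' (L v) x) x v) ∧
    HasLineDerivAt ℝ (fW c L ρ k) (fW1 c L ρ k (L v) x) x v ∧
    HasLineDerivAt ℝ (fW1 c L ρ k (L v)) (fW2 c L ρ k (L v) x) x v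

def St_MBND : Prop := ∀ N : ℕ, ∃ C : ℝ, 0 ≤ C ∧
  ∀ (c : Cfg) (β e : ℝ) (L : E N →L[ℝ] E N) (ρ : E N → ℝ), c.Ok N β e → Den ρ →
  ∀ (k : ℕ) (x : E N),
  (0 ≤ fW c L ρ k x ∧ fW c L ρ k x ≤ fWP c L ρ k x ∧ fWP c L ρ k x ≤ C * β ∧ 0 ≤ fS c L ρ k x ∧
    0 ≤ fD c L ρ k x ∧ 0 ≤ fI c L ρ k x) ∧
  (∀ h : E N, ‖h‖ ≤ 2 → |fP c L ρ k h x| ≤ C * (rk c k * (fW c L ρ k x + fS c L ρ k x)) ∧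
    rk c k * |fW1 c L ρ k h x| ≤ C * β ∧
    fW1 c L ρ k h x ^ 2 ≤ C * e ^ 2 * (fWP c L ρ k x * fI c L ρ k x) ∧
    (rk c k * fW2 c L ρ k h x) ^ 2 ≤ C * e ^ 2 * (fWP c L ρ k x * fI c L ρ k x)) ∧
  (∀ h h' l : E N, ‖h‖ ≤ 2 → ‖h'‖ ≤ 2 → ‖l‖ ≤ 2 →
    (rk c k * fB3 c L ρ k h h' l x) ^ 2 ≤ C * β * fS c L ρ k x ∧
    fB3 c L ρ k h h' l x ^ 2 ≤ C * (fWP c L ρ k x * fD c L ρ k x) ∧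
    (rk c k * fB4 c L ρ k h h' l x) ^ 2 ≤ C * (fWP c L ρ k x * fD c L ρ k x)) ∧
  ∀ j : Fin N → E N → ℝ, (∀ i, Integrable (j i)) → 0 ≤ fQ c L ρ j k x ∧
    (rk c k * fWt c L ρ j k x) ^ 2 ≤ C * β * fQ c L ρ j k x ∧
    ∀ h h' : E N, ‖h‖ ≤ 2 → ‖h'‖ ≤ 2 → (rk c k * fBt c L ρ j k h h' x) ^ 2 ≤ C * β * fQ c L ρ j k x

def St_MSTEP : Prop := ∀ (N : ℕ) (c : Cfg) (β e : ℝ) (L : E N →L[ℝ] E N) (ρ : E N → ℝ),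
  c.Ok N β e → Den ρ → ∀ (k : ℕ) (x : E N),
  Step c.q β e (fBH c L ρ k x) (fW c L ρ k x) (fS c L ρ k x)
    (fF c L ρ (k + 1) x - fF c L ρ k x) ∧
  ∀ (M : Mt N) (i i' : Fin N),
    fB c L ρ k (ap M (ee i)) (ap M (ee i')) x = (Mᵀ * fBH c L ρ k x * M) i i'

def St_MCR : Prop := ∀ (N : ℕ) (A : ℝ), ∃ (d : ℕ) (C : ℝ), 0 ≤ C ∧
  ∀ (c : Cfg) (β e : ℝ) (L W : E N →L[ℝ] E N) (ρ : E N → ℝ), c.Ok N β e → Lin A L W → Den ρ →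
  ∀ (k : ℕ) (x : E N), 0 ≤ fF c L ρ k x ∧
  (∀ L' W' : E N →L[ℝ] E N, Lin A L' W' → fWP c L ρ (k + d) x ≤ C * fW c L' ρ k x ∧
    fF c L ρ (k + d) x ≤ fF c L' ρ k x + C * β) ∧
  (∀ M Y φ0 : ℝ, ∫ y, ρ y ≤ M → c.δ * Real.exp (N * c.τ0) ≤ M → (∀ y, y ≤ Y → c.G y ≤ φ0) →
    Real.log (2 * M / c.θ) - c.q * (c.τ0 - k) ≤ Y → fF c L ρ k x ≤ φ0) ∧
  ∀ Θ r : ℝ, 0 < Θ → 0 < r → Θ * r ^ c.q ≤ ∫ y, gs r (x - y) * ρ y → 3 * r ≤ rk c k →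
    rk c k ≤ 9 * r → β * (Real.log (Θ / c.θ) - 2 * N - 3 * c.q) ≤ fF c L ρ k x

def St_MT1 : Prop := ∀ (N : ℕ) (A : ℝ), ∃ c0 C : ℝ, 0 < c0 ∧ 0 ≤ C ∧
  ∀ (c : Cfg) (β e : ℝ) (L W : E N →L[ℝ] E N) (ρ κ : E N → ℝ) (j n : Fin N → E N → ℝ),
  c.Ok N β e → Lin A L W → Flu ρ κ j n → ∀ (k : ℕ) (ε : ℝ) (η : E N → ℝ), 0 ≤ ε → ε * A ≤ 1 →
  LL ε (rk c k) η →
  -∑ i, ∫ x, η x * j i x * fPt c L ρ j k (L (ee i)) x ≤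
    -(c0 * ∫ x, ρ x * η x * fQ c L ρ j k x) + C * ε ^ 2 * ∫ x, κ x * η x * fWP c L ρ k x

def St_MLF : Prop := ∀ (N : ℕ) (A : ℝ), ∃ C : ℝ, 0 ≤ C ∧
  ∀ (c : Cfg) (β e : ℝ) (L W : E N →L[ℝ] E N) (ρ κ : E N → ℝ) (j n : Fin N → E N → ℝ),
  c.Ok N β e → Lin A L W → Flu ρ κ j n → ∀ (k : ℕ) (ε : ℝ) (η : E N → ℝ), 0 ≤ ε → ε * A ≤ 1 →
  LL ε (rk c k) η → ∫ x, ρ x * η x * fI c L ρ k x ≤ C * ∫ x, κ x * η x * fWP c L ρ k x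

def St_MFD : Prop := ∀ (N : ℕ) (A : ℝ), ∃ C : ℝ, 0 ≤ C ∧
  ∀ (c : Cfg) (β e : ℝ) (L W : E N →L[ℝ] E N) (ρ κ : E N → ℝ) (j n : Fin N → E N → ℝ),
  c.Ok N β e → Lin A L W → Flu ρ κ j n → ∀ m : ℕ,
  ∑ k ∈ Finset.range m, ∫ x, ρ x * fD c L ρ k x ≤ C * β * ∫ x, κ x

def St_MDYN : Prop := ∀ (N : ℕ) (c : Cfg) (β e : ℝ) (L : E N →L[ℝ] E N) (k : ℕ), c.Ok N β e →
  (∀ h h' : E N, ∃ B : ℝ, 0 ≤ B ∧ ∀ (ρ : E N → ℝ) (j : Fin N → E N → ℝ), Den ρ →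
    (∀ i, Integrable (j i)) → ∀ x, |fPt c L ρ j k h x| ≤ B * ∑ i, ∫ y, |j i y| ∧
      |fBt c L ρ j k h h' x| ≤ B * ∑ i, ∫ y, |j i y| ∧ |fWt c L ρ j k x| ≤ B * ∑ i, ∫ y, |j i y|) ∧
  ∀ (ρ : ℝ → E N → ℝ) (j : ℝ → Fin N → E N → ℝ), Flow ρ j → ∀ t, 0 < t → ∀ x,
    (∀ h, HasDerivAt (fun s => fP c L (ρ s) k h x) (fPt c L (ρ t) (j t) k h x) t) ∧
    (∀ h h', HasDerivAt (fun s => fB c L (ρ s) k h h' x) (fBt c L (ρ t) (j t) k h h' x) t) ∧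
    HasDerivAt (fun s => fW c L (ρ s) k x) (fWt c L (ρ t) (j t) k x) t

/-! ### The game -/

def St_RES : Prop := ∀ N : ℕ, ∃ C : ℝ, 0 ≤ C ∧ ∀ (Φ : ℝ) (X : Mt N), X.PosDef → X⁻¹.trace ≤ Φ →
  (∀ i j, |iv2 X i j| ≤ Φ ^ 2) ∧
  (∀ Y : Mt N, Y.PosDef → Y⁻¹.trace ≤ Φ → ∀ i j, |iv2 X i j - iv2 Y i j| ≤ C * Φ ^ 3 * n1 (X - Y)) ∧
  ∀ H : Mt N, (∀ i j, H i j = H j i) → 2 * Φ * n1 H ≤ 1 → (X + H).PosDef ∧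
    (X + H)⁻¹.trace ≤ X⁻¹.trace - ip (iv2 X) H + C * Φ ^ 3 * n1 H ^ 2

def St_NET : Prop := ∀ (N q : ℕ) (q' ε : ℝ), 1 ≤ N → q ≤ N → 0 ≤ q' → q' < q → 0 < ε → ε ≤ 1 →
  ∃ κ : ℝ, 0 < κ ∧ ∀ Φ Ψ δ : ℝ, N / ε ≤ Φ → N ≤ Ψ → 0 < δ → Dom ε Φ Ψ (0 : Mt N) ∧
    ∃ Γ : Net N, Γ.Ok ∧ (∀ a, Dom ε Φ Ψ (Γ.Bc a)) ∧
      (∀ B, Dom ε Φ Ψ B → ∃ a, n1 (B - Γ.Bc a) ≤ δ) ∧
      ∀ (a : Fin Γ.m) (β e W S dF : ℝ) (B : Mt N), 0 ≤ e → e ≤ 1 / 2 → Step q' β e B W S dF →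
        n1 ((Γ.L a)ᵀ * B * Γ.L a) ≤ 4 * N ^ 4 * (W + S) ∧
        κ * ip (iv2 (1 - Γ.Bc a)) ((Γ.L a)ᵀ * B * Γ.L a) ≤ N * W ∧
        -ip (iv2 (Γ.Bc a + ε • (1 : Mt N))) ((Γ.L a)ᵀ * B * Γ.L a) ≤ N * W + e * S - dF / 2 ∧
        (e * N ≤ (q - q') / 4 → (Γ.Bc a).trace < N - q + 1 - 2 * N * ε →
          -ip (iv2 (Γ.Bc a + ε • (1 : Mt N))) ((Γ.L a)ᵀ * B * Γ.L a) ≤
            -((q - q') / 4 * W) + e * S - dF / 2)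

def St_SOFT : Prop := ∀ (N : ℕ) (Γ : Net N) (ks : ℝ), 0 ≤ ks →
  (∃ C : ℝ, 0 ≤ C ∧ ∀ B B' a, |soft Γ ks B a - soft Γ ks B' a| ≤ C * n1 (B - B')) ∧
  (∀ K : ℝ, ∃ C : ℝ, 0 ≤ C ∧ ∀ B a, n1 B ≤ K → 1 ≤ C * soft Γ ks B a) ∧
  ∀ (δ : ℝ) (B : Mt N) (a0 a : Fin Γ.m), 1 ≤ N → 0 ≤ δ → n1 (B - Γ.Bc a0) ≤ δ →
    2 * N * δ ≤ n1 (B - Γ.Bc a) → soft Γ ks B a ≤ Real.exp (-(3 * ks * δ ^ 2))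

def St_APR : Prop := ∀ (N : ℕ) (Γ : Net N) (C1 Cx : ℝ) (d : ℕ), 1 ≤ C1 → 0 ≤ Cx →
  ∃ K : ℝ, 0 ≤ K ∧ ∀ (q β e φ0 : ℝ) (B : Fin Γ.m → ℕ → Mt N) (w S wp F : Fin Γ.m → ℕ → ℝ),
    Play Γ q β e Cx φ0 d B w S wp F →
    (∀ n, tv C1 w (fun a k => w a k + S a k + wp a k + n1 (cj Γ B a k)) n ≤ K) ∧
    ∀ a k, Real.exp (-ck C1 w k) * n1 (cj Γ B a k) ≤ K * √β

def St_LOW : Prop := ∀ (N : ℕ) (Γ : Net N) (P : GPar) (K : ℝ), P.Ok → ∃ C : ℝ, 0 ≤ C ∧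
  ∀ (b : Fin Γ.m → ℕ → Mt N) (w : Fin Γ.m → ℕ → ℝ), (∀ a k, 0 ≤ w a k) →
    (∀ n, tv P.C1 w (fun a k => n1 (b a k)) n ≤ K) → ∀ k, n1 (Bt Γ P b w k) ≤ K ∧
      n1 (Bf Γ P b w k) ≤ K ∧ ∀ a, Real.exp (-ak Γ P b w k - ck P.C1 w k) ≤ C * eta Γ P b w a k

def St_SWI : Prop := ∀ (N : ℕ) (Γ : Net N) (P : GPar) (Cx η : ℝ) (d : ℕ), 0 < Γ.m → P.Ok →
  0 ≤ Cx → 0 < η → ∃ β0 : ℝ, 0 < β0 ∧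
  ∀ (q β e φ0 : ℝ) (B : Fin Γ.m → ℕ → Mt N) (w S wp F : Fin Γ.m → ℕ → ℝ), β ≤ β0 → φ0 ≤ β0 →
    Play Γ q β e Cx φ0 d B w S wp F →
    (∀ k, n1 (Bt Γ P (cj Γ B) w (k + 1) - Bt Γ P (cj Γ B) w k) ≤ η) ∧
    (∀ n, ∑ k ∈ Finset.range n, n1 (Bt Γ P (cj Γ B) w (k + 1) - Bt Γ P (cj Γ B) w k) ^ 2 ≤ η) ∧
    ∀ n, -η ≤ ∑ k ∈ Finset.range n, Real.exp (-ck P.C1 w k) *
      ∑ a, soft Γ P.ks (Bt Γ P (cj Γ B) w k) a * (F a (k + 1) - F a k)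

def St_PHASE : Prop := ∀ (N q : ℕ) (q' ε : ℝ), 1 ≤ N → q ≤ N → 0 ≤ q' → q' < q → 0 < ε → ε ≤ 1 →
  ∃ Γ : Net N, Γ.Ok ∧ ∀ (Cx : ℝ) (d : ℕ), 0 ≤ Cx → ∃ C1 ks : ℝ, 1 ≤ C1 ∧ 0 ≤ ks ∧
    ∀ a1 : ℝ, 0 ≤ a1 → ∃ Lc : ℝ, 0 ≤ Lc ∧ ∀ P : GPar, P.Ok → P.C1 = C1 → P.ks = ks → P.Lc = Lc →
      (∀ s, N - q + 1 - ε ≤ s → P.z s = 1) → ∃ β0 : ℝ, 0 < β0 ∧
      ∀ (β e φ0 : ℝ) (B : Fin Γ.m → ℕ → Mt N) (w S wp F : Fin Γ.m → ℕ → ℝ), β ≤ β0 → e ≤ β0 →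
        φ0 ≤ β0 → Play Γ q' β e Cx φ0 d B w S wp F → ∀ k,
        (∀ k' < k, ak Γ P (cj Γ B) w k' < a1) → ck P.C1 w k ≤ 1 / 2 ∧
          (∀ y, qf (Bt Γ P (cj Γ B) w k) y ≤ ∑ i, y i ^ 2) ∧ -ε ≤ (Bt Γ P (cj Γ B) w k).trace

def St_GAME : Prop := ∀ (N q : ℕ) (q' η : ℝ), 1 ≤ N → q ≤ N → 0 ≤ q' → q' < q → 0 < η →
  ∃ Γ : Net N, Γ.Ok ∧ ∀ (Cx : ℝ) (d : ℕ), 0 ≤ Cx → ∃ (P : GPar) (β0 Fs : ℝ), P.Ok ∧ 0 < β0 ∧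
    0 ≤ Fs ∧ ∀ (β e φ0 : ℝ) (B : Fin Γ.m → ℕ → Mt N) (w S wp F : Fin Γ.m → ℕ → ℝ), β ≤ β0 →
      e ≤ β0 → φ0 ≤ β0 → Play Γ q' β e Cx φ0 d B w S wp F → ∀ n,
      (∀ y, qf (Bf Γ P (cj Γ B) w n) y ≤ (1 + η) * ∑ i, y i ^ 2) ∧
      -η ≤ (Bf Γ P (cj Γ B) w n).trace ∧
      ∀ a k, k ≤ n → Fs ≤ F a k → N - q + 1 - η ≤ (Bf Γ P (cj Γ B) w n).trace

def St_SENS1 : Prop := ∀ (N : ℕ) (Γ : Net N) (P : GPar) (K : ℝ), P.Ok → ∃ C : ℝ, 0 ≤ C ∧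
  ∀ (b : ℝ → Fin Γ.m → ℕ → Mt N) (w : ℝ → Fin Γ.m → ℕ → ℝ) (b1 : Fin Γ.m → ℕ → Mt N)
    (w1 : Fin Γ.m → ℕ → ℝ) (s0 : ℝ),
    (∀ a k i j, HasDerivAt (fun s => b s a k i j) (b1 a k i j) s0) →
    (∀ a k, HasDerivAt (fun s => w s a k) (w1 a k) s0) → (∀ a k, 0 ≤ w s0 a k) →
    (∀ n, tv P.C1 (w s0) (fun a k => w s0 a k + n1 (b s0 a k)) n ≤ K) → ∀ a k,
      DifferentiableAt ℝ (fun s => leta Γ P (b s) (w s) a k) s0 ∧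
      |deriv (fun s => leta Γ P (b s) (w s) a k) s0| ≤ C * mu P.C1 (w s0) b1 w1 k

def St_SENS2 : Prop := ∀ (N : ℕ) (Γ : Net N) (P : GPar) (K : ℝ), P.Ok → ∃ C : ℝ, 0 ≤ C ∧
  ∀ (b b1 : ℝ → Fin Γ.m → ℕ → Mt N) (w w1 : ℝ → Fin Γ.m → ℕ → ℝ) (b2 : Fin Γ.m → ℕ → Mt N)
    (w2 : Fin Γ.m → ℕ → ℝ) (s0 : ℝ),
    (∀ s a k i j, HasDerivAt (fun s => b s a k i j) (b1 s a k i j) s) →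
    (∀ s a k, HasDerivAt (fun s => w s a k) (w1 s a k) s) →
    (∀ a k i j, HasDerivAt (fun s => b1 s a k i j) (b2 a k i j) s0) →
    (∀ a k, HasDerivAt (fun s => w1 s a k) (w2 a k) s0) → (∀ a k, 0 ≤ w s0 a k) →
    (∀ n, tv P.C1 (w s0) (fun a k => w s0 a k + n1 (b s0 a k)) n ≤ K) → ∀ a k,
      DifferentiableAt ℝ (deriv fun s => leta Γ P (b s) (w s) a k) s0 ∧
      |deriv (deriv fun s => leta Γ P (b s) (w s) a k) s0| ≤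
        C * (mu P.C1 (w s0) b2 w2 k + mu P.C1 (w s0) (b1 s0) (w1 s0) k ^ 2)

/-! ### The adaptive field -/

def St_ETA : Prop := ∀ (N : ℕ) (Γ : Net N) (P : GPar) (K ε : ℝ), Γ.Ok → P.Ok → 0 < ε →
  ∃ β0 : ℝ, 0 < β0 ∧ ∀ (c : Cfg) (β e : ℝ) (ρ : E N → ℝ), β ≤ β0 → c.Ok N β e → Den ρ →
    Apr Γ P c ρ K → ∀ k : ℕ,
    (∀ i x, rk c k * mu P.C1 (cW Γ c ρ x) (cB3 Γ c ρ i x) (cW1 Γ c ρ i x) k ≤ ε) ∧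
    (∀ a, LL ε (rk c k) (cE Γ P c ρ a k)) ∧
    LL ε (rk c k) fun x => Real.exp (-ck P.C1 (cW Γ c ρ x) k / 2)

def St_SX1 : Prop := ∀ (N : ℕ) (Γ : Net N) (P : GPar) (K : ℝ), Γ.Ok → P.Ok → ∃ C : ℝ, 0 ≤ C ∧
  ∀ η : ℝ, 0 < η → ∃ β0 : ℝ, 0 < β0 ∧ ∀ (c : Cfg) (β e : ℝ) (ρ : E N → ℝ), β ≤ β0 → c.Ok N β e →
    Den ρ → Apr Γ P c ρ K → ∃ X1 X2 : Fin N → Fin N → E N → ℝ, VF (cX Γ P c ρ) X1 X2 ∧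
      (∀ i x, |cX Γ P c ρ i x| ≤ C * Real.exp c.τ0) ∧
      (∀ i j x, |X1 i j x - cBf Γ P c ρ x i j| ≤ η) ∧ ∀ i j x, |X2 i j x| ≤ C * sg Γ P c ρ x

def St_SX2 : Prop := ∀ (N : ℕ) (Γ : Net N) (P : GPar) (K η : ℝ), Γ.Ok → P.Ok → 0 < η →
  ∃ β0 : ℝ, 0 < β0 ∧ ∀ (c : Cfg) (β e : ℝ) (ρ κ : E N → ℝ) (j n : Fin N → E N → ℝ), β ≤ β0 →
    e ≤ β0 → c.Ok N β e → Flu ρ κ j n → Apr Γ P c ρ K →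
    CB (sg Γ P c ρ) ∧ ∫ x, ρ x * sg Γ P c ρ x ^ 2 ≤ η * ∫ x, κ x

def St_ST : Prop := ∀ (N : ℕ) (Γ : Net N) (P : GPar) (K η : ℝ), Γ.Ok → P.Ok → 0 < η →
  ∃ β0 : ℝ, 0 < β0 ∧ ∀ (c : Cfg) (β e : ℝ) (ρ κ : ℝ → E N → ℝ) (j n : ℝ → Fin N → E N → ℝ),
    β ≤ β0 → c.Ok N β e → Flow ρ j →
    (∀ s, 0 < s → Flu (ρ s) (κ s) (j s) (n s) ∧ Apr Γ P c (ρ s) K) → ∀ t, 0 < t →
    ∃ (Xd : Fin N → E N → ℝ) (B : ℝ), (∀ i x, HasDerivAt (fun s => cX Γ P c (ρ s) i x) (Xd i x) t) ∧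
      (∀ᶠ s in 𝓝 t, ∀ i x, |cX Γ P c (ρ s) i x - cX Γ P c (ρ t) i x| ≤ B * |s - t|) ∧
      ∑ i, ∫ x, Xd i x * j t i x ≤ η * ∫ x, κ t x

def St_FLD : Prop := ∀ (N q : ℕ) (q' η : ℝ), 1 ≤ N → q ≤ N → 0 < q' → q' < q → 0 < η →
  ∃ C : ℝ, 0 ≤ C ∧ ∀ M Θ r0 : ℝ, 0 < M → 0 < Θ → 0 < r0 →
  ∃ X : (E N → ℝ) → Fin N → E N → ℝ,
    (∀ (ρ κ : E N → ℝ) (j n : Fin N → E N → ℝ), Flu ρ κ j n → ∫ x, ρ x = M →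
      ∃ X1 X2 : Fin N → Fin N → E N → ℝ, VF (X ρ) X1 X2 ∧
        (∀ i x, |X ρ i x| ≤ C * (M / Θ) ^ (1 / q')) ∧
        (∀ x (y : Fin N → ℝ), ∑ i, ∑ i', X1 i i' x * (y i * y i') ≤ (1 + η) * ∑ i, y i ^ 2) ∧
        (∀ x, -η ≤ ∑ i, X1 i i x) ∧ (∀ x, x ∉ Sp q' Θ r0 ρ → N - q + 1 - η ≤ ∑ i, X1 i i x) ∧
        ∑ i, ∑ i', ∫ x, X2 i i' x * n i' x ≤ η * ∫ x, κ x) ∧
    ∀ (ρ κ : ℝ → E N → ℝ) (j n : ℝ → Fin N → E N → ℝ), Flow ρ j →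
      (∀ s, 0 < s → Flu (ρ s) (κ s) (j s) (n s) ∧ ∫ x, ρ s x = M) → ∀ t, 0 < t →
      ∃ (Xd : Fin N → E N → ℝ) (B : ℝ), (∀ i x, HasDerivAt (fun s => X (ρ s) i x) (Xd i x) t) ∧
        (∀ᶠ s in 𝓝 t, ∀ i x, |X (ρ s) i x - X (ρ t) i x| ≤ B * |s - t|) ∧
        ∑ i, ∫ x, Xd i x * j t i x ≤ η * ∫ x, κ t x

def St_ZD : Prop := ∀ (N : ℕ) (α κ : ℝ) (v : ℝ → E N → ℂ) (dv : ℝ → Fin N → E N → ℂ),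
  Sub N α → Sol α κ v dv → ∀ (t B : ℝ) (X : ℝ → Fin N → E N → ℝ) (Xd : Fin N → E N → ℝ)
    (X1 X2 : Fin N → Fin N → E N → ℝ), 0 < t → VF (X t) X1 X2 →
    (∀ᶠ s in 𝓝 t, ∀ i, Continuous (X s i)) → (∀ i x, HasDerivAt (fun s => X s i x) (Xd i x) t) →
    (∀ᶠ s in 𝓝 t, ∀ i x, |X s i x - X t i x| ≤ B * |s - t|) →
    HasDerivAt (fun s => mom (X s) (v s) (dv s))
      (vir α (Real.exp (κ * t)) X1 X2 (v t) (dv t) + mom Xd (v t) (dv t)) t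

end Pool.Agent.Lib.MP_13801a_an.ND
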