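import Mathlib
import Pool.Agent.Lib.MP_13801a_an.ND.StsG

/-!
A priori bounds for the game, lower bounds for the weights, and the cost of switching.
-/

open Finset Matrix

namespace Pool.Agent.Lib.MP_13801a_an.ND

variable {N : ℕ}

theorem APR_conj (L : Mt N) {B : Mt N} {c : ℝ} (h : ∀ i j, |B i j| ≤ c) :
    n1 (Lᵀ * B * L) ≤ n1 L ^ 2 * c := by
  have h1 : ∀ i j, |(Lᵀ * B * L) i j| ≤ c * ((∑ k, |L k i|) * ∑ l, |L l j|) := by
    intro i j
    rw [Matrix.mul_apply, mul_sum, mul_sum]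
    refine (abs_sum_le_sum_abs _ _).trans (sum_le_sum fun l _ => ?_)
    rw [abs_mul, ← mul_assoc]
    refine mul_le_mul_of_nonneg_right ?_ (abs_nonneg _)
    rw [Matrix.mul_apply, mul_sum]
    refine (abs_sum_le_sum_abs _ _).trans (sum_le_sum fun k _ => ?_)
    rw [abs_mul, Matrix.transpose_apply, mul_comm]
    exact mul_le_mul_of_nonneg_right (h k l) (abs_nonneg _)
  refine (sum_le_sum fun i _ => sum_le_sum fun j _ => h1 i j).trans (le_of_eq ?_)
  have e : n1 L = ∑ i, ∑ k, |L k i| := sum_comm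
  simp only [← mul_sum, ← sum_mul]
  rw [← e]
  ring

theorem APR_S {q β e W S dF : ℝ} {B : Mt N} (h : Step q β e B W S dF) (hq : q ≤ N)
    (he : e ≤ 1 / 2) : S ≤ 4 * N * W - 2 * dF := by
  have h1 : B.trace ≤ N * W := by
    refine (sum_le_sum fun i _ => h.up i).trans (le_of_eq ?_)
    simp
  have h2 := h.lo
  have h3 := mul_nonneg (sub_nonneg.2 hq) h.W0
  have h4 := mul_nonneg (sub_nonneg.2 he) h.S0
  nlinarith

theorem APR_dF {q β e W S dF : ℝ} {B : Mt N} (h : Step q β e B W S dF) (hq : 0 ≤ q) :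
    -dF ≤ (3 * N + 1) * (W + S) := by
  have h1 : -B.trace ≤ N * (W + S) := by
    rw [Matrix.trace, ← sum_neg_distrib]
    refine (sum_le_sum fun i _ => (neg_le_abs _).trans (h.ent i i)).trans (le_of_eq ?_)
    rw [sum_const, card_univ, Fintype.card_fin, nsmul_eq_mul]
  have h2 := h.hi
  have h3 := mul_nonneg hq h.W0
  have h4 := mul_nonneg (Nat.cast_nonneg (α := ℝ) N) h.S0
  have h5 := h.W0
  nlinarith

theorem APR_abel (p F : ℕ → ℝ) (n : ℕ) : ∑ k ∈ range n, p k * (F (k + 1) - F k) =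
    p n * F n - p 0 * F 0 - ∑ k ∈ range n, (p (k + 1) - p k) * F (k + 1) := by
  induction n with
  | zero => simp
  | succ n ih =>
    rw [sum_range_succ, sum_range_succ, ih]
    ring

theorem APR_abel' {u F : ℕ → ℝ} (hu : Antitone u) (h0 : ∀ k, 0 ≤ u k) (hF : ∀ k, 0 ≤ F k) (n : ℕ) :
    -(u 0 * F 0) ≤ ∑ k ∈ range n, u k * (F (k + 1) - F k) := by
  rw [APR_abel]
  have h1 := mul_nonneg (h0 n) (hF n)
  have h2 : ∑ k ∈ range n, (u (k + 1) - u k) * F (k + 1) ≤ 0 :=
    sum_nonpos fun k _ => mul_nonpos_of_nonpos_of_nonneg (sub_nonpos.2 (hu k.le_succ)) (hF _)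
  linarith

section damp

variable {m : ℕ} {C1 : ℝ} {w : Fin m → ℕ → ℝ}

theorem APR_anti (hC : 1 ≤ C1) (hw : ∀ a k, 0 ≤ w a k) :
    Antitone fun k => Real.exp (-ck C1 w k / 2) := fun _ _ h =>
  Real.exp_le_exp.2 (by linarith [ck_mono hC hw h])

theorem APR_half (hC : 1 ≤ C1) (hw : ∀ a k, 0 ≤ w a k) {k k' : ℕ} (h : k' ≤ k) :
    Real.exp (-ck C1 w k) ≤ Real.exp (-ck C1 w k' / 2) :=
  Real.exp_le_exp.2 (by linarith [ck_mono hC hw h, ck_nonneg hC hw k'])

theorem APR_one (hC : 1 ≤ C1) (hw : ∀ a k, 0 ≤ w a k) (k : ℕ) :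
    Real.exp (-ck C1 w k / 2) ≤ 1 :=
  Real.exp_le_one_iff.2 (by linarith [ck_nonneg hC hw k])

theorem APR_tvw (hC : 1 ≤ C1) (hw : ∀ a k, 0 ≤ w a k) (hw1 : ∀ a k, w a k ≤ 1) (n : ℕ) :
    tv C1 w w n ≤ C1 * (2 + m) := by
  have hC0 : 0 < C1 := by linarith
  have h1 : ∀ k, Real.exp (-ck C1 w k / 2) * ∑ a, w a k ≤
      C1 * (2 + m) * (Real.exp (-ck C1 w k / 2) - Real.exp (-ck C1 w (k + 1) / 2)) := by
    intro k
    set x := (∑ a, w a k) / C1 with hx
    have x0 : 0 ≤ x := div_nonneg (sum_nonneg fun a _ => hw a k) hC0.le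
    have s1 : ∑ a, w a k ≤ m := (sum_le_sum fun a _ => hw1 a k).trans (by simp)
    have x1 : x ≤ m := (div_le_self (sum_nonneg fun a _ => hw a k) hC).trans s1
    have e1 : ∑ a, w a k = C1 * x := by
      rw [hx]
      field_simp
    have e2 : Real.exp (-ck C1 w (k + 1) / 2) = Real.exp (-ck C1 w k / 2) * Real.exp (-(x / 2)) := by
      rw [ck_succ, ← Real.exp_add, ← hx]
      congr 1
      ring
    have h2 : Real.exp (-(x / 2)) * (x / 2 + 1) ≤ 1 := by
      have := mul_le_mul_of_nonneg_left (Real.add_one_le_exp (x / 2))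
        (Real.exp_pos (-(x / 2))).le
      rwa [← Real.exp_add, neg_add_cancel, Real.exp_zero] at this
    have h3 : Real.exp (-(x / 2)) ≤ 1 := Real.exp_le_one_iff.2 (by linarith)
    have h4 : x ≤ (2 + m) * (1 - Real.exp (-(x / 2))) := by nlinarith
    have h5 := mul_le_mul_of_nonneg_left h4
      (mul_nonneg hC0.le (Real.exp_pos (-ck C1 w k / 2)).le)
    rw [e1, e2]
    linarith
  refine (sum_le_sum fun k _ => h1 k).trans ?_
  rw [← mul_sum, sum_range_sub' fun k => Real.exp (-ck C1 w k / 2)]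
  refine mul_le_of_le_one_right (by positivity) ?_
  linarith [APR_one hC hw 0, Real.exp_pos (-ck C1 w n / 2)]

theorem APR_add (u u' : Fin m → ℕ → ℝ) (n : ℕ) :
    tv C1 w (fun a k => u a k + u' a k) n = tv C1 w u n + tv C1 w u' n := by
  simp only [tv, sum_add_distrib, mul_add]

theorem APR_mul (c : ℝ) (u : Fin m → ℕ → ℝ) (n : ℕ) :
    tv C1 w (fun a k => c * u a k) n = c * tv C1 w u n := by
  simp only [tv, mul_sum]
  exact sum_congr rfl fun k _ => sum_congr rfl fun a _ => by ring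

theorem APR_term {u : Fin m → ℕ → ℝ} (hu : ∀ a k, 0 ≤ u a k) (a : Fin m) (k : ℕ) :
    Real.exp (-ck C1 w k / 2) * u a k ≤ tv C1 w u (k + 1) := by
  refine le_trans ?_ (single_le_sum (f := fun k => Real.exp (-ck C1 w k / 2) * ∑ a, u a k)
    (fun k _ => mul_nonneg (Real.exp_pos _).le (sum_nonneg fun a _ => hu a k))
    (self_mem_range_succ k))
  exact mul_le_mul_of_nonneg_left
    (single_le_sum (f := fun a => u a k) (fun a _ => hu a k) (mem_univ a)) (Real.exp_pos _).le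

end damp

theorem APR : St_APR := by
  intro N Γ C1 Cx d hC hCx
  set K1 : ℝ := C1 * (2 + Γ.m) with hK1
  set K2 : ℝ := 4 * N * K1 + 2 * Γ.m with hK2
  set K3 : ℝ := d * (Γ.m * Cx) + Cx * K1 with hK3
  set Λ : ℝ := ∑ a, n1 (Γ.L a) ^ 2 with hΛ
  have p1 : 0 ≤ K1 := by positivity
  have p2 : 0 ≤ K2 := by positivity
  have p3 : 0 ≤ K3 := by positivity
  have pΛ : 0 ≤ Λ := sum_nonneg fun a _ => sq_nonneg _
  have hL : ∀ a, n1 (Γ.L a) ^ 2 ≤ Λ := fun a =>
    single_le_sum (f := fun a => n1 (Γ.L a) ^ 2) (fun a _ => sq_nonneg _) (mem_univ a)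
  refine ⟨K1 + K2 + K3 + Λ * (K1 + K2) + Λ * (K2 + 1), by positivity,
    fun q β e φ0 B w S wp F h => ?_⟩
  have hw : ∀ a k, 0 ≤ w a k := fun a k => (h.step a k).W0
  have hS : ∀ a k, 0 ≤ S a k := fun a k => (h.step a k).S0
  have t1 : ∀ n, tv C1 w w n ≤ K1 := APR_tvw hC hw fun a k => (h.step a k).W1.trans h.β1
  have t2 : ∀ n, tv C1 w S n ≤ K2 := by
    intro n
    refine (tv_mono C1 w (u' := fun a k => 4 * N * w a k + -2 * (F a (k + 1) - F a k))
      (fun a k => by linarith [APR_S (h.step a k) h.qN h.e1]) n).trans ?_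
    rw [APR_add, APR_mul, APR_mul]
    have a1 : -(Γ.m : ℝ) ≤ tv C1 w (fun a k => F a (k + 1) - F a k) n := by
      simp only [tv, mul_sum]
      rw [sum_comm]
      refine le_trans (le_of_eq (by simp)) (sum_le_sum fun a _ => le_trans (b := _)
        (show (-1 : ℝ) ≤ _ from ?_)
        (APR_abel' (APR_anti hC hw) (fun k => (Real.exp_pos _).le) (h.F0 a) n))
      have b1 := (h.top a 0 (Nat.zero_le d)).trans h.φ1
      have b2 := mul_le_of_le_one_left (h.F0 a 0) (APR_one hC hw 0)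
      linarith
    have a2 := mul_le_mul_of_nonneg_left (t1 n) (by positivity : (0 : ℝ) ≤ 4 * N)
    linarith
  have t3 : ∀ n, tv C1 w wp n ≤ K3 := by
    intro n
    have hp : ∀ k, 0 ≤ ∑ a, wp a k := fun k => sum_nonneg fun a _ => (hw a k).trans (h.wp0 a k)
    refine (sum_le_sum_of_subset_of_nonneg (range_subset_range.2 (Nat.le_add_left n d))
      fun k _ _ => mul_nonneg (Real.exp_pos _).le (hp k)).trans ?_
    rw [sum_range_add]
    refine add_le_add ?_ ?_
    · refine (sum_le_sum fun k _ => (mul_le_of_le_one_left (hp k) (APR_one hC hw k)).trans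
        (sum_le_sum fun a _ => (h.wp1 a k).trans (mul_le_of_le_one_right hCx h.β1))).trans
        (le_of_eq ?_)
      simp
    · refine le_trans ?_ (mul_le_mul_of_nonneg_left (t1 n) hCx)
      rw [← APR_mul]
      refine sum_le_sum fun k _ => mul_le_mul (APR_anti hC hw (Nat.le_add_left k d))
        (sum_le_sum fun a _ => ?_) (hp _) (Real.exp_pos _).le
      rw [add_comm d k]
      exact h.crW a a k
  have t4 : ∀ n, tv C1 w (fun a k => n1 (cj Γ B a k)) n ≤ Λ * (K1 + K2) := by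
    intro n
    refine (tv_mono C1 w (u' := fun a k => Λ * (w a k + S a k)) (fun a k =>
      (APR_conj _ (h.step a k).ent).trans
        (mul_le_mul_of_nonneg_right (hL a) (add_nonneg (hw a k) (hS a k)))) n).trans ?_
    rw [APR_mul, APR_add]
    exact mul_le_mul_of_nonneg_left (add_le_add (t1 n) (t2 n)) pΛ
  refine ⟨fun n => ?_, fun a k => ?_⟩
  · rw [APR_add, APR_add, APR_add]
    have : 0 ≤ Λ * (K2 + 1) := by positivity
    linarith [t1 n, t2 n, t3 n, t4 n]
  · set v := Real.exp (-ck C1 w k) with hv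
    have v0 : 0 < v := Real.exp_pos _
    have v1 : v ≤ Real.exp (-ck C1 w k / 2) := APR_half hC hw le_rfl
    have v2 : v ≤ 1 := v1.trans (APR_one hC hw k)
    have a1 : v * S a k ≤ K2 :=
      (mul_le_mul_of_nonneg_right v1 (hS a k)).trans ((APR_term hS a k).trans (t2 _))
    have sb := Real.sqrt_nonneg β
    have a2 : ∀ i j, |B a k i j| ≤ (K2 + 1) * √β / v := by
      intro i j
      rw [le_div_iff₀ v0]
      refine abs_le_of_sq_le_sq' ?_ (by positivity) |>.2
      rw [mul_pow, mul_pow, sq_abs, Real.sq_sqrt h.β0.le]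
      have c1 := mul_le_mul_of_nonneg_right ((h.step a k).sq i j) (sq_nonneg v)
      have c2 : v * (v * S a k) ≤ (K2 + 1) ^ 2 := by
        have := mul_le_mul v2 a1 (mul_nonneg v0.le (hS a k)) zero_le_one
        nlinarith
      have c3 := mul_le_mul_of_nonneg_left c2 h.β0.le
      linarith
    refine (mul_le_mul_of_nonneg_left (APR_conj _ a2) v0.le).trans ?_
    have e : v * (n1 (Γ.L a) ^ 2 * ((K2 + 1) * √β / v)) = n1 (Γ.L a) ^ 2 * (K2 + 1) * √β := by
      field_simp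
    rw [e]
    refine mul_le_mul_of_nonneg_right ?_ sb
    have := mul_le_mul_of_nonneg_right (hL a) (by positivity : 0 ≤ K2 + 1)
    have : 0 ≤ Λ * (K1 + K2) := by positivity
    linarith

theorem APR_dBt (Γ : Net N) (P : GPar) (b : Fin Γ.m → ℕ → Mt N) (w : Fin Γ.m → ℕ → ℝ) (k : ℕ) :
    n1 (Bt Γ P b w (k + 1) - Bt Γ P b w k) ≤ Real.exp (-ck P.C1 w k) * ∑ a, n1 (b a k) := by
  rw [Bt_succ, add_sub_cancel_left, n1_smul, abs_of_pos (Real.exp_pos _)]
  refine mul_le_mul_of_nonneg_left ((n1_sum_le _ _).trans (sum_le_sum fun a _ => ?_))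
    (Real.exp_pos _).le
  rw [n1_smul, abs_of_pos (soft_pos _ _ _ _)]
  exact mul_le_of_le_one_left (n1_nonneg _) (soft_le_one _ _ _ _)

theorem APR_sumd (Γ : Net N) {P : GPar} (hP : P.Ok) (b : Fin Γ.m → ℕ → Mt N)
    {w : Fin Γ.m → ℕ → ℝ} (hw : ∀ a k, 0 ≤ w a k) (n : ℕ) :
    ∑ k ∈ range n, n1 (Bt Γ P b w (k + 1) - Bt Γ P b w k) ≤
      tv P.C1 w (fun a k => n1 (b a k)) n :=
  sum_le_sum fun k _ => (APR_dBt Γ P b w k).trans (mul_le_mul_of_nonneg_right
    (APR_half hP.C11 hw le_rfl) (sum_nonneg fun _ _ => n1_nonneg _))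

theorem LOW (h1 : St_SOFT) : St_LOW := by
  intro N Γ P K hP
  obtain ⟨C, hC, h⟩ := (h1 N Γ P.ks hP.ks0).2.1 K
  refine ⟨C, hC, fun b w hw ht k => ?_⟩
  have a1 : n1 (Bt Γ P b w k) ≤ K := by
    have e := sum_range_sub (Bt Γ P b w) k
    rw [Bt_zero, sub_zero] at e
    rw [← e]
    exact (n1_sum_le _ _).trans ((APR_sumd Γ hP b hw k).trans (ht k))
  refine ⟨a1, ((n1_sum_le _ _).trans (sum_le_sum fun k' _ => (n1_sum_le _ _).trans ?_)).trans
    (ht k), fun a => ?_⟩
  · rw [mul_sum]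
    refine sum_le_sum fun a _ => ?_
    rw [n1_smul, abs_of_pos (eta_pos _ _ _ _ _ _)]
    exact mul_le_mul_of_nonneg_right ((eta_le Γ hP b hw a k').trans (APR_half hP.C11 hw le_rfl))
      (n1_nonneg _)
  · rw [eta_eq, sub_eq_add_neg, Real.exp_add]
    have := mul_le_mul_of_nonneg_left (h _ a a1)
      (mul_pos (Real.exp_pos (-ak Γ P b w k)) (Real.exp_pos (-ck P.C1 w k))).le
    linarith

theorem APR_win {A : ℕ → ℝ} {K : ℝ} (h0 : A 0 = 0) (hK : ∀ k, A k ≤ K) (d n : ℕ) :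
    ∑ k ∈ range n, (A (k + 1) - A (k + 1 - d)) ≤ d * K := by
  induction d with
  | zero => simp
  | succ d ih =>
    have e : ∀ k, A (k + 1) - A (k + 1 - (d + 1)) =
        A (k + 1) - A (k + 1 - d) + (A (k + 1 - d) - A (k - d)) := by
      intro k
      rw [Nat.add_sub_add_right]
      ring
    simp only [e]
    rw [sum_add_distrib, sum_range_sub fun k => A (k - d), Nat.zero_sub, h0]
    push_cast
    linarith [hK (n - d)]

theorem SWI (h1 : St_APR) (h2 : St_SOFT) : St_SWI := by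
  intro N Γ P Cx η d hm hP hCx hη
  obtain ⟨K, hK, hA⟩ := h1 N Γ P.C1 Cx d hP.C11 hCx
  obtain ⟨Cs, hCs, hs⟩ := (h2 N Γ P.ks hP.ks0).1
  set M : ℝ := 3 * N + 1 with hM
  set E : ℝ := Cs * (Γ.m * K) + Γ.m with hE
  set G : ℝ := Cs * K + K with hG
  set Z : ℝ := 1 + Γ.m * (G * (1 + Cx) + E * M * (d * K)) + Γ.m * K + Γ.m * K * K with hZ
  have pM : 0 ≤ M := by positivity
  have pE : 0 ≤ E := by positivity
  have pG : 0 ≤ G := by positivity
  have z1 : 0 ≤ Γ.m * (G * (1 + Cx) + E * M * (d * K)) := by positivity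
  have z2 : 0 ≤ Γ.m * K := by positivity
  have z3 : 0 ≤ Γ.m * K * K := by positivity
  have pZ : 0 < Z := by positivity
  set t : ℝ := min 1 (η / Z) with ht
  have t0 : 0 < t := lt_min one_pos (by positivity)
  have t1 : t ≤ 1 := min_le_left _ _
  have t2 : Z * t ≤ η := by
    rw [← le_div_iff₀' pZ]
    exact min_le_right _ _
  refine ⟨t ^ 2, by positivity, fun q β e φ0 B w S wp F hβ hφ h => ?_⟩
  obtain ⟨hT, hB⟩ := hA q β e φ0 B w S wp F h
  have hw : ∀ a k, 0 ≤ w a k := fun a k => (h.step a k).W0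
  have hS : ∀ a k, 0 ≤ S a k := fun a k => (h.step a k).S0
  have hp : ∀ a k, 0 ≤ wp a k := fun a k => (hw a k).trans (h.wp0 a k)
  have tt : t ^ 2 ≤ t := by nlinarith
  have b1 : √β ≤ t := Real.sqrt_le_iff.2 ⟨t0.le, hβ⟩
  have b2 : β ≤ t := hβ.trans tt
  have b3 : φ0 ≤ t := hφ.trans tt
  set Δ : ℕ → ℝ := fun k => n1 (Bt Γ P (cj Γ B) w (k + 1) - Bt Γ P (cj Γ B) w k) with hΔ
  have Δ0 : ∀ k, 0 ≤ Δ k := fun k => n1_nonneg _
  have Δ1 : ∀ k, Δ k ≤ Γ.m * K * t := by
    intro k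
    refine (APR_dBt Γ P _ w k).trans ?_
    rw [mul_sum]
    refine (sum_le_sum fun a _ => (hB a k).trans (mul_le_mul_of_nonneg_left b1 hK)).trans
      (le_of_eq ?_)
    simp [mul_assoc]
  have Δ2 : ∀ n, ∑ k ∈ range n, Δ k ≤ K := fun n => (APR_sumd Γ hP _ hw n).trans
    ((tv_mono _ _ (fun a k => by linarith [hw a k, hS a k, hp a k]) n).trans (hT n))
  refine ⟨fun k => (Δ1 k).trans (by nlinarith), fun n => ?_, fun n => ?_⟩
  · have : ∑ k ∈ range n, Δ k ^ 2 ≤ Γ.m * K * t * K := by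
      refine le_trans ?_ (mul_le_mul_of_nonneg_left (Δ2 n) (by positivity))
      rw [mul_sum]
      exact sum_le_sum fun k _ => by nlinarith [Δ0 k, Δ1 k]
    exact this.trans (by nlinarith)
  set v : ℕ → ℝ := fun k => Real.exp (-ck P.C1 w k) with hv
  set σ : Fin Γ.m → ℕ → ℝ := fun a k => soft Γ P.ks (Bt Γ P (cj Γ B) w k) a with hσ
  set A : ℕ → ℝ := tv P.C1 w fun a k => w a k + S a k with hA'
  have v0 : ∀ k, 0 < v k := fun k => Real.exp_pos _
  have v1 : ∀ k, v k ≤ 1 := fun k => (APR_half hP.C11 hw le_rfl).trans (APR_one hP.C11 hw k)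
  have v2 : ∀ k, v (k + 1) ≤ v k := fun k =>
    Real.exp_le_exp.2 (neg_le_neg (ck_mono hP.C11 hw k.le_succ))
  have sw : ∀ k, 0 ≤ ∑ a, w a k := fun k => sum_nonneg fun a _ => hw a k
  have v3 : ∀ k, v k - v (k + 1) ≤ v k * ∑ a, w a k := by
    intro k
    have a1 : v (k + 1) = v k * Real.exp (-((∑ a, w a k) / P.C1)) := by
      simp only [hv]
      rw [ck_succ, neg_add, Real.exp_add]
    have a2 := Real.add_one_le_exp (-((∑ a, w a k) / P.C1))
    have a3 := div_le_self (sw k) hP.C11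
    have a4 := mul_le_mul_of_nonneg_left
      (by linarith : 1 - Real.exp (-((∑ a, w a k) / P.C1)) ≤ ∑ a, w a k) (v0 k).le
    rw [a1]
    linarith
  have σ0 : ∀ a k, 0 < σ a k := fun a k => soft_pos _ _ _ _
  have σ1 : ∀ a k, σ a k ≤ 1 := fun a k => soft_le_one _ _ _ _
  have σs : ∀ k, ∑ a, σ a k = 1 := fun k => sum_soft Γ hm _ _
  have AK : ∀ k, A k ≤ K := fun k =>
    (tv_mono _ _ (fun a k => by linarith [hp a k, n1_nonneg (cj Γ B a k)]) k).trans (hT k)
  have As : ∀ k, A (k + 1) = A k + Real.exp (-ck P.C1 w k / 2) * ∑ a, (w a k + S a k) :=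
    fun k => sum_range_succ _ k
  have Am : Monotone A := monotone_nat_of_le_succ fun k => by
    rw [As]
    exact le_add_of_nonneg_right (mul_nonneg (Real.exp_pos _).le
      (sum_nonneg fun a _ => add_nonneg (hw a k) (hS a k)))
  set D : ℕ → ℝ := fun k => Cs * Δ k + ∑ a, w a k with hD
  have D0 : ∀ k, 0 ≤ D k := fun k => add_nonneg (mul_nonneg hCs (Δ0 k)) (sw k)
  have D1 : ∀ k, D k ≤ E * t := by
    intro k
    have a1 := mul_le_mul_of_nonneg_left (Δ1 k) hCs
    have a2 : ∑ a, w a k ≤ Γ.m * t :=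
      (sum_le_sum fun a _ => (h.step a k).W1.trans b2).trans (by simp)
    simp only [hD, hE]
    linarith
  have D2 : ∑ k ∈ range n, v k * D k ≤ G := by
    have a1 : ∑ k ∈ range n, v k * D k ≤
        ∑ k ∈ range n, (Cs * Δ k + Real.exp (-ck P.C1 w k / 2) * ∑ a, w a k) := by
      refine sum_le_sum fun k _ => ?_
      have c1 := mul_le_of_le_one_left (mul_nonneg hCs (Δ0 k)) (v1 k)
      have c2 := mul_le_mul_of_nonneg_right (APR_half hP.C11 hw (le_refl k)) (sw k)
      simp only [hD, mul_add]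
      exact add_le_add c1 c2
    rw [sum_add_distrib, ← mul_sum] at a1
    have a2 : tv P.C1 w w n ≤ K := (tv_mono _ _ (fun a k => by
      linarith [hS a k, hp a k, n1_nonneg (cj Γ B a k)]) n).trans (hT n)
    exact a1.trans (add_le_add (mul_le_mul_of_nonneg_left (Δ2 n) hCs) a2)
  have dp : ∀ a k, |v (k + 1) * σ a (k + 1) - v k * σ a k| ≤ v k * D k := by
    intro a k
    have e1 : v (k + 1) * σ a (k + 1) - v k * σ a k =
        v (k + 1) * (σ a (k + 1) - σ a k) - (v k - v (k + 1)) * σ a k := by ring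
    rw [e1]
    refine (abs_sub _ _).trans ?_
    rw [abs_mul, abs_mul, abs_of_pos (v0 _), abs_of_nonneg (sub_nonneg.2 (v2 k)),
      abs_of_pos (σ0 a k)]
    simp only [hD, mul_add]
    exact add_le_add (mul_le_mul (v2 k) (hs _ _ a) (abs_nonneg _) (v0 k).le)
      ((mul_le_of_le_one_right (sub_nonneg.2 (v2 k)) (σ1 a k)).trans (v3 k))
  have drop : ∀ a k k0 j, k0 + j ≤ k + 1 →
      v k * (F a k0 - F a (k0 + j)) ≤ M * (A (k0 + j) - A k0) := by
    intro a k k0 j
    induction j with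
    | zero => simp
    | succ j ih =>
      intro hj
      have c1 := ih (by omega)
      have c2 := APR_dF (h.step a (k0 + j)) h.q0
      have c3 : w a (k0 + j) + S a (k0 + j) ≤ ∑ a, (w a (k0 + j) + S a (k0 + j)) :=
        single_le_sum (f := fun a => w a (k0 + j) + S a (k0 + j))
          (fun a _ => add_nonneg (hw a _) (hS a _)) (mem_univ a)
      have c4 := mul_le_mul (APR_half hP.C11 hw (by omega : k0 + j ≤ k)) c3
        (add_nonneg (hw a _) (hS a _)) (Real.exp_pos _).le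
      have c5 := mul_le_mul_of_nonneg_left c4 pM
      have c6 := mul_le_mul_of_nonneg_left c2 (v0 k).le
      rw [← add_assoc, As]
      simp only [hv] at c1 c6 ⊢
      linarith
  have osc1 : ∀ a a' k, v k * (F a (k + 1) - F a' (k + 1)) ≤
      v k * ((1 + Cx) * t) + M * (A (k + 1) - A (k + 1 - d)) := by
    intro a a' k
    have c0 : Cx * β ≤ Cx * t := mul_le_mul_of_nonneg_left b2 hCx
    have c1 : 0 ≤ Cx * t := by positivity
    rcases le_or_gt (k + 1) d with hk | hk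
    · have c2 := h.top a _ hk
      have c3 := h.F0 a' (k + 1)
      have c4 := mul_nonneg pM (sub_nonneg.2 (Am (Nat.sub_le (k + 1) d)))
      have c5 := mul_le_mul_of_nonneg_left
        (by linarith : F a (k + 1) - F a' (k + 1) ≤ (1 + Cx) * t) (v0 k).le
      linarith
    · have e1 : k + 1 - d + d = k + 1 := by omega
      have c2 := h.crF a a' (k + 1 - d)
      have c3 := drop a' k (k + 1 - d) d e1.le
      rw [e1] at c2 c3
      have c5 := mul_le_mul_of_nonneg_left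
        (by linarith : F a (k + 1) - F a' (k + 1 - d) ≤ (1 + Cx) * t) (v0 k).le
      linarith
  have osc : ∀ a a' k, v k * |F a (k + 1) - F a' (k + 1)| ≤
      v k * ((1 + Cx) * t) + M * (A (k + 1) - A (k + 1 - d)) := by
    intro a a' k
    rcases abs_choice (F a (k + 1) - F a' (k + 1)) with e1 | e1
    · rw [e1]
      exact osc1 a a' k
    · rw [e1, neg_sub]
      exact osc1 a' a k
  have sw1 : ∀ k, ∑ a, (v (k + 1) * σ a (k + 1) - v k * σ a k) * F a (k + 1) ≤
      Γ.m * (v k * D k * ((1 + Cx) * t) + E * t * M * (A (k + 1) - A (k + 1 - d))) := by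
    intro k
    set a0 : Fin Γ.m := ⟨0, hm⟩
    have e1 : ∑ a, (v (k + 1) * σ a (k + 1) - v k * σ a k) * F a (k + 1) =
        ∑ a, (v (k + 1) * σ a (k + 1) - v k * σ a k) * (F a (k + 1) - F a0 (k + 1)) +
          (v (k + 1) - v k) * F a0 (k + 1) := by
      have e2 : v (k + 1) - v k = ∑ a, (v (k + 1) * σ a (k + 1) - v k * σ a k) := by
        rw [sum_sub_distrib, ← mul_sum, ← mul_sum, σs, σs, mul_one, mul_one]
      rw [e2, sum_mul, ← sum_add_distrib]
      exact sum_congr rfl fun a _ => by ring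
    rw [e1]
    refine (add_le_of_nonpos_right
      (mul_nonpos_of_nonpos_of_nonneg (sub_nonpos.2 (v2 k)) (h.F0 _ _))).trans ?_
    refine (sum_le_sum fun a _ => (?_ : _ ≤ v k * D k * ((1 + Cx) * t) +
      E * t * M * (A (k + 1) - A (k + 1 - d)))).trans
        (le_of_eq (by rw [sum_const, card_univ, Fintype.card_fin, nsmul_eq_mul]))
    refine (le_abs_self _).trans ?_
    rw [abs_mul]
    have c1 := mul_le_mul_of_nonneg_right (dp a k) (abs_nonneg (F a (k + 1) - F a0 (k + 1)))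
    have c2 := mul_le_mul_of_nonneg_left (osc a a0 k) (D0 k)
    have c3 := mul_le_mul_of_nonneg_right (D1 k)
      (mul_nonneg pM (sub_nonneg.2 (Am (Nat.sub_le (k + 1) d))))
    linarith
  have e1 : ∑ k ∈ range n, v k * ∑ a, σ a k * (F a (k + 1) - F a k) =
      ∑ a, v n * σ a n * F a n - ∑ a, v 0 * σ a 0 * F a 0 -
        ∑ k ∈ range n, ∑ a, (v (k + 1) * σ a (k + 1) - v k * σ a k) * F a (k + 1) := by
    simp only [mul_sum, ← mul_assoc]
    rw [sum_comm, sum_comm (s := range n), ← sum_sub_distrib, ← sum_sub_distrib]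
    exact sum_congr rfl fun a _ => APR_abel (fun k => v k * σ a k) (F a) n
  have f1 : 0 ≤ ∑ a, v n * σ a n * F a n :=
    sum_nonneg fun a _ => mul_nonneg (mul_pos (v0 n) (σ0 a n)).le (h.F0 a n)
  have f2 : ∑ a, v 0 * σ a 0 * F a 0 ≤ t := by
    refine (sum_le_sum fun a _ => (?_ : _ ≤ σ a 0 * t)).trans ?_
    · exact mul_le_mul (mul_le_of_le_one_left (σ0 a 0).le (v1 0))
        ((h.top a 0 (Nat.zero_le d)).trans b3) (h.F0 a 0) (σ0 a 0).le
    · rw [← sum_mul, σs, one_mul]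
  have f3 := sum_le_sum fun k (_ : k ∈ range n) => sw1 k
  rw [← mul_sum, sum_add_distrib, ← sum_mul, ← mul_sum] at f3
  have f4 := mul_le_mul_of_nonneg_right D2 (by positivity : 0 ≤ (1 + Cx) * t)
  have f5 := mul_le_mul_of_nonneg_left (APR_win (A := A) (by simp [hA', tv]) AK d n)
    (by positivity : 0 ≤ E * t * M)
  have f6 := f3.trans (mul_le_mul_of_nonneg_left (add_le_add f4 f5) (Nat.cast_nonneg _))
  have f7 := mul_nonneg (add_nonneg z2 z3) t0.le
  change -η ≤ ∑ k ∈ range n, v k * ∑ a, σ a k * (F a (k + 1) - F a k)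
  rw [e1]
  rw [hZ] at t2
  linarith

end Pool.Agent.Lib.MP_13801a_an.ND
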