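import Mathlib
import Pool.Agent.Lib.MP_13801a_an.ND.StsG

/-!
Calculus of Gaussian averages: continuity, derivatives, Stein identity and Fubini swaps.
-/

open MeasureTheory Set Filter
open scoped Topology

namespace Pool.Agent.Lib.MP_13801a_an.ND

variable {N : ℕ}

theorem AVD_line {f : E N → ℝ} {f' : ℝ} {x h : E N} {s : ℝ}
    (hd : HasLineDerivAt ℝ f f' (x + s • h) h) :
    HasDerivAt (fun t : ℝ => f (x + t • h)) f' s := by
  unfold HasLineDerivAt at hd
  have h2 : HasDerivAt (fun u : ℝ => f (x + s • h + u • h)) f' (s - s) := by simpa using hd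
  have h3 := h2.comp_sub_const s s
  refine h3.congr_of_eventuallyEq (Eventually.of_forall fun u => ?_)
  simp only [sub_smul]
  congr 1
  abel

theorem AVD_int {φ : E N → ℝ} {g : ℝ → E N → ℝ} (hφ : Gau φ) (hg : Slab g) (τ : ℝ) (y : E N) :
    Integrable fun ξ => φ ξ * g τ (y + Real.exp τ • ξ) :=
  ((hφ.blk.mul_slab (hg.ray y)).gau τ).integrable

theorem AVD_cont {φ : E N → ℝ} {g : ℝ → E N → ℝ} (hφ : Gau φ) (hg : Slab g) (τ : ℝ) (y : E N) :
    Continuous fun ξ => φ ξ * g τ (y + Real.exp τ • ξ) :=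
  ((hφ.blk.mul_slab (hg.ray y)).gau τ).1

theorem AVD_bound {φ : E N → ℝ} {g : ℝ → E N → ℝ} (hφ : Gau φ) {τ C : ℝ}
    (hC : ∀ z, |g τ z| ≤ C) (y : E N) : |ex φ g τ y| ≤ (∫ ξ, |φ ξ|) * C := by
  rw [← integral_mul_const, ← Real.norm_eq_abs]
  refine norm_integral_le_of_norm_le (hφ.abs.integrable.mul_const C)
    (Eventually.of_forall fun ξ => ?_)
  rw [Real.norm_eq_abs, abs_mul]
  exact mul_le_mul_of_nonneg_left (hC _) (abs_nonneg _)

theorem AVD_slab {φ : E N → ℝ} {g : ℝ → E N → ℝ} (hφ : Gau φ) (hg : Slab g) :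
    Slab (ex φ g) := by
  constructor
  · rw [continuous_iff_continuousAt]
    intro p
    obtain ⟨C, hC⟩ := hg.2 (p.1 - 1) (p.1 + 1)
    refine continuousAt_of_dominated
      (F := fun (q : ℝ × E N) ξ => φ ξ * g q.1 (q.2 + Real.exp q.1 • ξ))
      (bound := fun ξ => |φ ξ| * C)
      (Eventually.of_forall fun q => (AVD_cont hφ hg q.1 q.2).aestronglyMeasurable) ?_
      (hφ.abs.integrable.mul_const C) (Eventually.of_forall fun ξ => ?_)
    · have h1 : ∀ᶠ q : ℝ × E N in 𝓝 p, q.1 ∈ Icc (p.1 - 1) (p.1 + 1) :=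
        continuous_fst.continuousAt.eventually (Icc_mem_nhds (sub_one_lt _) (lt_add_one _))
      filter_upwards [h1] with q hq
      refine Eventually.of_forall fun ξ => ?_
      rw [Real.norm_eq_abs, abs_mul]
      exact mul_le_mul_of_nonneg_left (hC _ hq _) (abs_nonneg _)
    · refine Continuous.continuousAt (continuous_const.mul ?_)
      exact hg.1.comp (f := fun q : ℝ × E N => (q.1, q.2 + Real.exp q.1 • ξ)) (by fun_prop)
  · intro τ1 τ2
    obtain ⟨C, hC⟩ := hg.2 τ1 τ2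
    exact ⟨(∫ ξ, |φ ξ|) * C, fun τ hτ y => AVD_bound hφ (hC τ hτ) y⟩

theorem AVD_slab_exp {G : ℝ → E N → ℝ} (hG : Slab G) (s : ℝ) :
    Slab fun τ y => Real.exp (s * τ) * G τ y :=
  (slab_fun (c := fun τ => Real.exp (s * τ)) (by fun_prop)).mul hG

theorem AVD_contτ {G : ℝ → E N → ℝ} (hG : Slab G) (y : E N) : Continuous fun τ => G τ y :=
  hG.1.comp (Continuous.prodMk_left y)

theorem AVD_uIoc {τk τ : ℝ} (h : τ ∈ uIoc (τk - 1) τk) : τ ∈ Icc (τk - 1) τk := by
  rw [uIoc_of_le (sub_one_lt τk).le] at h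
  exact Ioc_subset_Icc_self h

theorem AVD_cb {G : ℝ → E N → ℝ} (hG : Slab G) (τk : ℝ) :
    CB fun y => ∫ τ in (τk - 1)..τk, G τ y := by
  constructor
  · refine intervalIntegral.continuous_parametric_intervalIntegral_of_continuous'
      (f := fun (y : E N) τ => G τ y) ?_ _ _
    exact hG.1.comp (f := fun q : E N × ℝ => (q.2, q.1)) (by fun_prop)
  · obtain ⟨C, hC⟩ := hG.2 (τk - 1) τk
    refine ⟨C * |τk - (τk - 1)|, fun y => ?_⟩
    rw [← Real.norm_eq_abs]
    exact intervalIntegral.norm_integral_le_of_norm_le_const fun τ hτ => hC τ (AVD_uIoc hτ) y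

theorem AVD_blkder {G G' : ℝ → E N → ℝ} {h : E N} (hG : Slab G) (hG' : Slab G')
    (hd : ∀ τ z, HasLineDerivAt ℝ (G τ) (G' τ z) z h) (τk : ℝ) (y : E N) :
    HasLineDerivAt ℝ (fun y => ∫ τ in (τk - 1)..τk, G τ y) (∫ τ in (τk - 1)..τk, G' τ y) y h := by
  obtain ⟨C, hC⟩ := hG'.2 (τk - 1) τk
  have h1 := (intervalIntegral.hasDerivAt_integral_of_dominated_loc_of_deriv_le
    (μ := volume) (a := τk - 1) (b := τk) (F := fun (t : ℝ) τ => G τ (y + t • h))
    (F' := fun (t : ℝ) τ => G' τ (y + t • h)) (x₀ := 0) (s := univ) (bound := fun _ => C)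
    univ_mem (Eventually.of_forall fun t => (AVD_contτ hG _).aestronglyMeasurable)
    ((AVD_contτ hG _).intervalIntegrable _ _) (AVD_contτ hG' _).aestronglyMeasurable
    (Eventually.of_forall fun τ hτ t _ => hC τ (AVD_uIoc hτ) _) intervalIntegrable_const
    (Eventually.of_forall fun τ _ t _ => AVD_line (hd τ _))).2
  simp only [zero_smul, add_zero] at h1
  exact h1

theorem AVD_exder {φ : E N → ℝ} {g g' : ℝ → E N → ℝ} {h : E N} (hφ : Gau φ) (hg : Slab g)
    (hg' : Slab g') (hd : ∀ τ z, HasLineDerivAt ℝ (g τ) (g' τ z) z h) (τ : ℝ) (y : E N) :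
    HasLineDerivAt ℝ (ex φ g τ) (ex φ g' τ y) y h := by
  obtain ⟨C, hC⟩ := hg'.2 τ τ
  have h1 := (hasDerivAt_integral_of_dominated_loc_of_deriv_le (μ := (volume : Measure (E N)))
    (F := fun (t : ℝ) ξ => φ ξ * g τ (y + t • h + Real.exp τ • ξ))
    (F' := fun (t : ℝ) ξ => φ ξ * g' τ (y + t • h + Real.exp τ • ξ)) (x₀ := 0) (s := univ)
    (bound := fun ξ => |φ ξ| * C) univ_mem
    (Eventually.of_forall fun t => (AVD_cont hφ hg τ _).aestronglyMeasurable)
    (AVD_int hφ hg τ _) (AVD_cont hφ hg' τ _).aestronglyMeasurable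
    (Eventually.of_forall fun ξ t _ => ?_) (hφ.abs.integrable.mul_const C)
    (Eventually.of_forall fun ξ t _ => ?_)).2
  · simp only [zero_smul, add_zero] at h1
    exact h1
  · rw [Real.norm_eq_abs, abs_mul]
    exact mul_le_mul_of_nonneg_left (hC τ ⟨le_rfl, le_rfl⟩ _) (abs_nonneg _)
  · have e : ∀ u : ℝ, y + u • h + Real.exp τ • ξ = y + Real.exp τ • ξ + u • h := fun u => by abel
    simp only [e]
    exact (AVD_line (hd τ _)).const_mul _

theorem AVD_shift (φ : E N → ℝ) (g : ℝ → E N → ℝ) (τ t : ℝ) (y h : E N) :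
    ex φ g τ (y + t • h) =
      ∫ ξ, φ (ξ + (-(Real.exp (-τ) * t)) • h) * g τ (y + Real.exp τ • ξ) := by
  unfold ex
  rw [← integral_add_right_eq_self
    (fun ξ => φ (ξ + (-(Real.exp (-τ) * t)) • h) * g τ (y + Real.exp τ • ξ))
    ((Real.exp (-τ) * t) • h)]
  congr 1
  ext ξ
  have e1 : ξ + (Real.exp (-τ) * t) • h + (-(Real.exp (-τ) * t)) • h = ξ := by
    rw [neg_smul]
    abel
  have e2 : y + Real.exp τ • (ξ + (Real.exp (-τ) * t) • h) = y + t • h + Real.exp τ • ξ := by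
    rw [smul_add, smul_smul, ← mul_assoc, ← Real.exp_add, add_neg_cancel, Real.exp_zero, one_mul]
    abel
  rw [e1, e2]

theorem AVD_gshift {c : ℝ} (hc : 0 < c) (ξ w : E N) {R : ℝ} (hw : ‖w‖ ≤ R) :
    Real.exp (-c * ‖ξ + w‖ ^ 2) ≤ Real.exp (c * R ^ 2) * Real.exp (-(c / 2) * ‖ξ‖ ^ 2) := by
  rw [← Real.exp_add]
  refine Real.exp_le_exp.2 ?_
  have h1 : ‖ξ‖ ≤ ‖ξ + w‖ + ‖w‖ := by simpa using norm_sub_le (ξ + w) w
  have h2 : ‖ξ‖ ^ 2 ≤ (‖ξ + w‖ + ‖w‖) ^ 2 := pow_le_pow_left₀ (norm_nonneg _) h1 2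
  have h3 : ‖w‖ ^ 2 ≤ R ^ 2 := pow_le_pow_left₀ (norm_nonneg _) hw 2
  have h4 : ‖ξ‖ ^ 2 / 2 ≤ ‖ξ + w‖ ^ 2 + R ^ 2 := by nlinarith [sq_nonneg (‖ξ + w‖ - ‖w‖)]
  nlinarith [mul_le_mul_of_nonneg_left h4 hc.le]

theorem AVD_exker {φ φ' : E N → ℝ} {g : ℝ → E N → ℝ} {h : E N} (hφ : Gau φ) (hφ' : Gau φ')
    (hg : Slab g) (hd : ∀ ξ, HasLineDerivAt ℝ φ (-φ' ξ) ξ h) (τ : ℝ) (y : E N) :
    HasLineDerivAt ℝ (ex φ g τ) (Real.exp (-τ) * ex φ' g τ y) y h := by
  obtain ⟨C, hC⟩ := hg.2 τ τ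
  obtain ⟨D, c, hc, hD⟩ := hφ'.2
  have hgc : Continuous fun ξ : E N => g τ (y + Real.exp τ • ξ) := (hg.ray y).cont τ
  have h1 := (hasDerivAt_integral_of_dominated_loc_of_deriv_le (μ := (volume : Measure (E N)))
    (F := fun (t : ℝ) ξ => φ (ξ + (-(Real.exp (-τ) * t)) • h) * g τ (y + Real.exp τ • ξ))
    (F' := fun (t : ℝ) ξ =>
      Real.exp (-τ) * (φ' (ξ + (-(Real.exp (-τ) * t)) • h) * g τ (y + Real.exp τ • ξ)))
    (x₀ := 0) (s := Icc (-1) 1)
    (bound := fun ξ => Real.exp (-τ) * (|D| * Real.exp (c * (Real.exp (-τ) * ‖h‖) ^ 2) * C) *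
      Real.exp (-(c / 2) * ‖ξ‖ ^ 2))
    (Icc_mem_nhds (by norm_num) (by norm_num))
    (Eventually.of_forall fun t =>
      ((hφ.1.comp (continuous_id.add continuous_const)).mul hgc).aestronglyMeasurable)
    (by simpa using AVD_int hφ hg τ y)
    (continuous_const.mul
      ((hφ'.1.comp (continuous_id.add continuous_const)).mul hgc)).aestronglyMeasurable
    (Eventually.of_forall fun ξ t ht => ?_)
    ((integrable_gauss (half_pos hc)).const_mul _)
    (Eventually.of_forall fun ξ t _ => ?_)).2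
  · unfold HasLineDerivAt
    simp only [AVD_shift φ g τ _ y h]
    rw [integral_const_mul] at h1
    simpa [ex] using h1
  · have hw : ‖(-(Real.exp (-τ) * t)) • h‖ ≤ Real.exp (-τ) * ‖h‖ := by
      rw [norm_smul, norm_neg, norm_mul, Real.norm_eq_abs, Real.norm_eq_abs,
        abs_of_pos (Real.exp_pos _)]
      have : |t| ≤ 1 := abs_le.2 ht
      have h2 : Real.exp (-τ) * |t| ≤ Real.exp (-τ) := by
        simpa using mul_le_mul_of_nonneg_left this (Real.exp_pos (-τ)).le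
      exact mul_le_mul_of_nonneg_right h2 (norm_nonneg _)
    have h2 := AVD_gshift hc ξ _ hw
    have h3 : |φ' (ξ + (-(Real.exp (-τ) * t)) • h)| ≤
        |D| * (Real.exp (c * (Real.exp (-τ) * ‖h‖) ^ 2) * Real.exp (-(c / 2) * ‖ξ‖ ^ 2)) :=
      (hD _).trans (mul_le_mul (le_abs_self _) h2 (Real.exp_pos _).le (abs_nonneg _))
    have h4 := hC τ ⟨le_rfl, le_rfl⟩ (y + Real.exp τ • ξ)
    rw [Real.norm_eq_abs, abs_mul, abs_mul, abs_of_pos (Real.exp_pos _)]
    calc _ ≤ Real.exp (-τ) * (|D| * (Real.exp (c * (Real.exp (-τ) * ‖h‖) ^ 2) *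
          Real.exp (-(c / 2) * ‖ξ‖ ^ 2)) * C) :=
          mul_le_mul_of_nonneg_left (mul_le_mul h3 h4 (abs_nonneg _) (by positivity))
            (Real.exp_pos _).le
      _ = _ := by ring
  · have h2 := AVD_line (x := ξ) (s := -(Real.exp (-τ) * t)) (hd _)
    have h3 : HasDerivAt (fun t : ℝ => -(Real.exp (-τ) * t)) (-(Real.exp (-τ) * 1)) t :=
      ((hasDerivAt_id t).const_mul (Real.exp (-τ))).neg
    have h4 := (h2.comp t h3).mul_const (g τ (y + Real.exp τ • ξ))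
    refine HasDerivAt.congr_deriv h4 ?_
    ring

theorem AVD_exp_shift (s τ x : ℝ) :
    Real.exp (s * τ) * (Real.exp (-τ) * x) = Real.exp ((s - 1) * τ) * x := by
  rw [← mul_assoc, ← Real.exp_add]
  congr 2
  ring

theorem AVD_lineconst {f : E N → ℝ} {f' : ℝ} {x h : E N} (c : ℝ)
    (hd : HasLineDerivAt ℝ f f' x h) : HasLineDerivAt ℝ (fun y => c * f y) (c * f') x h :=
  HasDerivAt.const_mul c hd

theorem AVD_param {φ : E N → ℝ} (hφ : Gau φ) (g gd : ℝ → ℝ → E N → ℝ) (t τk s C : ℝ) (y : E N)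
    (H : ∀ᶠ σ in 𝓝 t, Slab (g σ) ∧ Slab (gd σ) ∧ ∀ τ ∈ Icc (τk - 1) τk, ∀ z,
      HasDerivAt (fun σ' => g σ' τ z) (gd σ τ z) σ ∧ |gd σ τ z| ≤ C) :
    HasDerivAt (fun σ => av τk s φ (g σ) y) (av τk s φ (gd t) y) t := by
  obtain ⟨U, hU, hUo, htU⟩ := mem_nhds_iff.1 H
  have hder : ∀ τ ∈ Icc (τk - 1) τk, ∀ σ ∈ U,
      HasDerivAt (fun σ' => ex φ (g σ') τ y) (ex φ (gd σ) τ y) σ := by
    intro τ hτ σ hσ
    refine (hasDerivAt_integral_of_dominated_loc_of_deriv_le (μ := (volume : Measure (E N)))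
      (F := fun σ' ξ => φ ξ * g σ' τ (y + Real.exp τ • ξ))
      (F' := fun σ' ξ => φ ξ * gd σ' τ (y + Real.exp τ • ξ)) (x₀ := σ) (s := U)
      (bound := fun ξ => |φ ξ| * C) (hUo.mem_nhds hσ) ?_ (AVD_int hφ (hU hσ).1 τ y)
      (AVD_cont hφ (hU hσ).2.1 τ y).aestronglyMeasurable
      (Eventually.of_forall fun ξ σ' hσ' => ?_) (hφ.abs.integrable.mul_const C)
      (Eventually.of_forall fun ξ σ' hσ' => (((hU hσ').2.2 τ hτ _).1).const_mul _)).2
    · filter_upwards [hUo.mem_nhds hσ] with σ' hσ'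
      exact (AVD_cont hφ (hU hσ').1 τ y).aestronglyMeasurable
    · rw [Real.norm_eq_abs, abs_mul]
      exact mul_le_mul_of_nonneg_left ((hU hσ').2.2 τ hτ _).2 (abs_nonneg _)
  refine (intervalIntegral.hasDerivAt_integral_of_dominated_loc_of_deriv_le
    (μ := volume) (a := τk - 1) (b := τk)
    (F := fun σ τ => Real.exp (s * τ) * ex φ (g σ) τ y)
    (F' := fun σ τ => Real.exp (s * τ) * ex φ (gd σ) τ y) (x₀ := t) (s := U)
    (bound := fun τ => Real.exp (s * τ) * ((∫ ξ, |φ ξ|) * C)) (hUo.mem_nhds htU) ?_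
    ((AVD_contτ (AVD_slab_exp (AVD_slab hφ (hU htU).1) s) y).intervalIntegrable _ _)
    (AVD_contτ (AVD_slab_exp (AVD_slab hφ (hU htU).2.1) s) y).aestronglyMeasurable
    (Eventually.of_forall fun τ hτ σ hσ => ?_)
    (Continuous.intervalIntegrable (by fun_prop) _ _)
    (Eventually.of_forall fun τ hτ σ hσ => (hder τ (AVD_uIoc hτ) σ hσ).const_mul _)).2
  · filter_upwards [hUo.mem_nhds htU] with σ hσ
    exact (AVD_contτ (AVD_slab_exp (AVD_slab hφ (hU hσ).1) s) y).aestronglyMeasurable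
  · rw [Real.norm_eq_abs, abs_mul, abs_of_pos (Real.exp_pos _)]
    exact mul_le_mul_of_nonneg_left
      (AVD_bound hφ (fun z => ((hU hσ).2.2 τ (AVD_uIoc hτ) z).2) y) (Real.exp_pos _).le

theorem AVD : St_AVD := by
  intro N φ hφ
  refine ⟨fun g hg => ⟨AVD_slab hφ hg, fun τk s => AVD_cb (AVD_slab_exp (AVD_slab hφ hg) s) τk⟩,
    fun g g' h hg hg' hd => ⟨AVD_exder hφ hg hg' hd, fun τk s y => ?_⟩,
    fun φ' g h hφ' hg hd => ⟨AVD_exker hφ hφ' hg hd, fun τk s y => ?_, fun g' hg' hd' => ?_⟩,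
    fun g gd t τk s C y H => AVD_param hφ g gd t τk s C y H⟩
  · exact AVD_blkder (AVD_slab_exp (AVD_slab hφ hg) s) (AVD_slab_exp (AVD_slab hφ hg') s)
      (fun τ z => AVD_lineconst _ (AVD_exder hφ hg hg' hd τ z)) τk y
  · refine AVD_blkder (AVD_slab_exp (AVD_slab hφ hg) s) (AVD_slab_exp (AVD_slab hφ' hg) (s - 1))
      (fun τ z => ?_) τk y
    rw [← AVD_exp_shift]
    exact AVD_lineconst _ (AVD_exker hφ hφ' hg hd τ z)
  · have h1 : ∀ τ y, ex φ g' τ y = Real.exp (-τ) * ex φ' g τ y := fun τ y =>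
      (AVD_exder hφ hg hg' hd' τ y).unique (AVD_exker hφ hφ' hg hd τ y)
    refine ⟨h1, fun τk s y => ?_⟩
    simp only [av, h1, AVD_exp_shift]

theorem AVD_resc (φ : E N → ℝ) (g : ℝ → E N → ℝ) (τ : ℝ) (y : E N) :
    ex φ g τ y = Real.exp (-(N * τ)) * ∫ z, g τ z * φ (Real.exp (-τ) • (z - y)) := by
  rw [← integral_add_left_eq_self (fun z => g τ z * φ (Real.exp (-τ) • (z - y))) y]
  have h1 := Measure.integral_comp_smul (volume : Measure (E N))
    (fun w => g τ (y + w) * φ (Real.exp (-τ) • (y + w - y))) (Real.exp τ)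
  have e1 : |(Real.exp τ ^ Module.finrank ℝ (E N))⁻¹| = Real.exp (-(N * τ)) := by
    rw [finrank_euclideanSpace_fin, abs_of_pos (by positivity), ← Real.exp_nat_mul, Real.exp_neg]
  rw [e1, smul_eq_mul] at h1
  rw [← h1]
  unfold ex
  congr 1
  ext ξ
  rw [add_sub_cancel_left, smul_smul, ← Real.exp_add, neg_add_cancel, Real.exp_zero, one_smul,
    mul_comm]

theorem AVD_int_resc {φ : E N → ℝ} {g : ℝ → E N → ℝ} (hφ : Gau φ) (hg : Slab g) (τ : ℝ)
    (y : E N) : Integrable fun z => g τ z * φ (Real.exp (-τ) • (z - y)) := by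
  obtain ⟨C, hC⟩ := hg.2 τ τ
  have h1 : Integrable fun z : E N => φ (Real.exp (-τ) • (z - y)) :=
    (hφ.integrable.comp_smul (Real.exp_pos (-τ)).ne').comp_sub_right y
  exact h1.bdd_mul (c := C) (hg.cont τ).aestronglyMeasurable
    (Eventually.of_forall fun z => hC τ ⟨le_rfl, le_rfl⟩ z)

theorem AVD_int_cb {a f : E N → ℝ} (ha : Integrable a) (hf : Continuous f) {C : ℝ}
    (hC : ∀ x, |f x| ≤ C) : Integrable fun x => a x * f x :=
  ha.mul_bdd (c := C) hf.aestronglyMeasurable (Eventually.of_forall hC)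

theorem AVD_prod {L : E N →L[ℝ] E N} {φ a : E N → ℝ} {g : ℝ → E N → ℝ} (hφ : Gau φ)
    (hg : Slab g) (ha : Integrable a) (τ : ℝ) :
    Integrable (fun p : E N × E N => a p.1 * (g τ p.2 * φ (xi L τ p.2 p.1)))
      ((volume : Measure (E N)).prod volume) := by
  have hc : Continuous fun p : E N × E N => g τ p.2 * φ (xi L τ p.2 p.1) := by
    refine ((hg.cont τ).comp continuous_snd).mul (hφ.1.comp ?_)
    unfold xi
    fun_prop
  have hm : AEStronglyMeasurable (fun p : E N × E N => a p.1 * (g τ p.2 * φ (xi L τ p.2 p.1)))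
      ((volume : Measure (E N)).prod volume) := ha.1.comp_fst.mul hc.aestronglyMeasurable
  rw [integrable_prod_iff hm]
  refine ⟨Eventually.of_forall fun x => (AVD_int_resc hφ hg τ (L x)).const_mul (a x), ?_⟩
  have hs := AVD_slab hφ.abs hg.abs
  obtain ⟨C, hC⟩ := hs.2 τ τ
  have h1 := (AVD_int_cb ha.abs ((hs.cont τ).comp L.continuous)
    (fun x => hC τ ⟨le_rfl, le_rfl⟩ (L x))).const_mul (Real.exp (N * τ))
  refine h1.congr (Eventually.of_forall fun x => ?_)
  simp only [Function.comp_apply, Real.norm_eq_abs, abs_mul, integral_const_mul]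
  rw [AVD_resc]
  have e : Real.exp (N * τ) * Real.exp (-(N * τ)) = 1 := by
    rw [← Real.exp_add, add_neg_cancel, Real.exp_zero]
  simp only [xi]
  linear_combination (|a x| * ∫ z, |g τ z| * |φ (Real.exp (-τ) • (z - L x))|) * e

theorem SWAP (h1 : St_AVD) : St_SWAP := by
  intro N L φ a g hφ hg ha
  have hs := ((h1 N φ hφ).1 g hg).1
  have hint : ∀ τ, Integrable fun x => a x * ex φ g τ (L x) := fun τ => by
    obtain ⟨C, hC⟩ := hs.2 τ τ
    exact AVD_int_cb ha ((hs.cont τ).comp L.continuous) fun x => hC τ ⟨le_rfl, le_rfl⟩ (L x)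
  have hin : ∀ τ z, ∫ x, a x * (g τ z * φ (xi L τ z x)) = g τ z * km L φ a τ z := fun τ z => by
    unfold km
    rw [← integral_const_mul]
    congr 1
    ext x
    ring
  refine ⟨fun τ => ⟨hint τ, ?_, ?_⟩, ?_, fun τk s => ⟨?_, ?_⟩⟩
  · have h2 := (AVD_prod (L := L) hφ hg ha τ).integral_prod_right
    simpa only [hin] using h2
  · have h2 := integral_integral_swap (f := fun x z => a x * (g τ z * φ (xi L τ z x)))
      (AVD_prod (L := L) hφ hg ha τ)
    simp only [hin] at h2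
    rw [← h2, ← integral_const_mul]
    congr 1
    ext x
    rw [AVD_resc, integral_const_mul]
    simp only [xi]
    ring
  · rw [continuous_iff_continuousAt]
    intro τ
    obtain ⟨C, hC⟩ := hs.2 (τ - 1) (τ + 1)
    refine continuousAt_of_dominated (bound := fun x => |a x| * C)
      (Eventually.of_forall fun σ => (hint σ).1) ?_ (ha.abs.mul_const C)
      (Eventually.of_forall fun x => (continuous_const.mul (AVD_contτ hs _)).continuousAt)
    filter_upwards [Icc_mem_nhds (sub_one_lt τ) (lt_add_one τ)] with σ hσ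
    refine Eventually.of_forall fun x => ?_
    rw [Real.norm_eq_abs, abs_mul]
    exact mul_le_mul_of_nonneg_left (hC σ hσ _) (abs_nonneg _)
  · obtain ⟨hc, B, hB⟩ := ((h1 N φ hφ).1 g hg).2 τk s
    exact AVD_int_cb ha (hc.comp L.continuous) fun x => hB (L x)
  · have hG := AVD_slab_exp hs s
    obtain ⟨C, hC⟩ := hG.2 (τk - 1) τk
    have hI : Integrable (Function.uncurry fun (τ : ℝ) (x : E N) =>
        a x * (Real.exp (s * τ) * ex φ g τ (L x)))
        ((volume.restrict (uIoc (τk - 1) τk)).prod volume) := by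
      have hb : Integrable (fun p : ℝ × E N => C * |a p.2|)
          ((volume.restrict (uIoc (τk - 1) τk)).prod volume) := by
        refine Integrable.mul_prod (f := fun _ : ℝ => C) (g := fun x => |a x|) ?_ ha.abs
        rw [uIoc_of_le (sub_one_lt τk).le]
        exact integrable_const C
      have hc : Continuous fun p : ℝ × E N => Real.exp (s * p.1) * ex φ g p.1 (L p.2) :=
        hG.1.comp (f := fun p : ℝ × E N => (p.1, L p.2)) (by fun_prop)
      refine hb.mono' (ha.1.comp_snd.mul hc.aestronglyMeasurable) ?_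
      have h3 : ∀ᵐ p : ℝ × E N ∂((volume.restrict (uIoc (τk - 1) τk)).prod volume),
          p.1 ∈ uIoc (τk - 1) τk :=
        Measure.quasiMeasurePreserving_fst.ae (ae_restrict_mem measurableSet_uIoc)
      filter_upwards [h3] with p hp
      rw [Function.uncurry, Real.norm_eq_abs, abs_mul, mul_comm]
      exact mul_le_mul_of_nonneg_right (hC _ (AVD_uIoc hp) _) (abs_nonneg _)
    have h2 := intervalIntegral_integral_swap hI
    simp only [intervalIntegral.integral_const_mul] at h2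
    unfold av
    rw [← h2]
    congr 1
    ext τ
    rw [← integral_const_mul]
    congr 1
    ext x
    ring

end Pool.Agent.Lib.MP_13801a_an.ND
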