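import Mathlib
import Pool.Agent.Lib.MP_13801a_an.ND.StsA

/-!
The mollified solution is a smooth approximate solution, and it converges uniformly in time.
-/

open MeasureTheory Set Filter
open scoped ContDiff Topology

namespace Pool.Agent.Lib.MP_13801a_an.ND

variable {N : ℕ}

theorem APX_sub (h1 : St_CONV) {p : ℝ} (hp : 1 ≤ p) {k : E N → ℂ} (hk : Ker k) {g g' : E N → ℂ}
    (hg : Mem p g) (hg' : Mem p g') (x : E N) :
    cv k g x - cv k g' x = cv k (fun y => g y - g' y) x := by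
  have a := (((h1 N p hp).2 k hk).2 g hg).1 x
  have b := (((h1 N p hp).2 k hk).2 g' hg').1 x
  simp only [cv, mul_sub]
  rw [integral_sub a b]

theorem APX_cont (h1 : St_CONV) {p : ℝ} (hp : 1 ≤ p) {k : E N → ℂ} (hk : Ker k)
    {g : ℝ → E N → ℂ} (hg : ∀ t, Mem p (g t))
    (hu : ∀ t, Tendsto (fun s => nr p fun x => g s x - g t x) (𝓝 t) (𝓝 0)) :
    Continuous fun q : ℝ × E N => cv k (g q.1) q.2 := by
  refine continuous_iff_continuousAt.2 fun q0 => ?_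
  obtain ⟨⟨C, -, hC⟩, H⟩ := (h1 N p hp).2 k hk
  have hc : Continuous (cv k (g q0.1)) := (H _ (hg q0.1)).2.1
  have h0 : Tendsto (fun q : ℝ × E N => cv k (g q.1) q.2 - cv k (g q0.1) q.2) (𝓝 q0) (𝓝 0) := by
    have h2 : Tendsto (fun q : ℝ × E N => C * nr p fun x => g q.1 x - g q0.1 x) (𝓝 q0) (𝓝 0) := by
      simpa using ((hu q0.1).comp (continuous_fst.tendsto q0)).const_mul C
    refine squeeze_zero_norm (fun q => ?_) h2
    rw [APX_sub h1 hp hk (hg q.1) (hg q0.1)]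
    exact hC _ ((hg q.1).sub (hg q0.1)) _
  have h3 := h0.add ((hc.comp continuous_snd).tendsto q0)
  simpa [ContinuousAt] using h3

theorem APX_nrcont {p : ℝ} (hp : 1 ≤ p) {g : ℝ → E N → ℂ} (hg : ∀ t, Mem p (g t))
    (hu : ∀ t, Tendsto (fun s => nr p fun x => g s x - g t x) (𝓝 t) (𝓝 0)) :
    Continuous fun t => nr p (g t) := by
  refine continuous_iff_continuousAt.2 fun t => ?_
  have h0 : Tendsto (fun s => nr p (g s) - nr p (g t)) (𝓝 t) (𝓝 0) :=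
    squeeze_zero_norm (fun s => abs_nr_sub_le hp (hg s) (hg t)) (hu t)
  simpa [ContinuousAt] using h0.add_const (nr p (g t))

theorem APX_bd {h : ℝ → ℝ} (hh : Continuous h) (T : ℝ) :
    ∃ B : ℝ, 0 ≤ B ∧ ∀ t, |t| ≤ T → h t ≤ B := by
  obtain ⟨B, hB⟩ := (isCompact_Icc (a := -T) (b := T)).bddAbove_image hh.continuousOn
  exact ⟨max B 0, le_max_right _ _, fun t ht =>
    (hB (mem_image_of_mem _ (abs_le.1 ht))).trans (le_max_left _ _)⟩

theorem APX_test {k : E N → ℝ} (hk : Test k) (x : E N) : Test fun y => k (x - y) :=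
  ⟨hk.1.comp (contDiff_const.sub contDiff_id), hk.2.comp_homeomorph (Homeomorph.subLeft x)⟩

theorem APX_pd {k : E N → ℝ} (hk : Test k) (x : E N) (j : Fin N) (y : E N) :
    pd j (fun y => k (x - y)) y = -pd j k (x - y) := by
  have h1 : HasFDerivAt k (fderiv ℝ k (x - y)) (x - y) :=
    (hk.1.differentiable (by simp) (x - y)).hasFDerivAt
  have h2 : HasFDerivAt (fun y : E N => x - y) (-ContinuousLinearMap.id ℝ (E N)) y :=
    (hasFDerivAt_id y).const_sub x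
  have h3 := (h1.comp y h2).fderiv
  have h4 : fderiv ℝ (fun y => k (x - y)) y =
      (fderiv ℝ k (x - y)).comp (-ContinuousLinearMap.id ℝ (E N)) := h3
  simp [pd, h4]

theorem APX_cv (k : E N → ℝ) (g : E N → ℂ) (x : E N) :
    ∫ y, g y * ((k (x - y) : ℝ) : ℂ) = cv (cr k) g x := by
  simp only [cv, cr, mul_comm]

theorem APX_exp {α : ℝ} (hα : Sub N α) :
    (2 : ℝ) ≤ α + 2 ∧ ((N : ℝ) - 2) * (α + 2) < 2 * N ∧ 1 ≤ (α + 2) / (α + 1) := by
  obtain ⟨-, h0, h4⟩ := hα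
  refine ⟨by linarith, by nlinarith, ?_⟩
  rw [le_div_iff₀ (by linarith)]
  linarith

theorem APX (h1 : St_CONV) (h2 : St_MOL) (h3 : St_BASIC) : St_APX := by
  intro N α κ v dv hα hs r hr
  obtain ⟨-, -, -, b4, b5, b6, -⟩ := h3 N α κ v dv hα hs
  obtain ⟨e1, e2, e3⟩ := APX_exp hα
  have e4 : (1 : ℝ) ≤ α + 2 := by linarith
  have hk : ∀ w, Test (pdw w (mol r : E N → ℝ)) := ((h2 N).1 r hr).1.pdw
  have hM := (h2 N).2.2.1
  have hK : ∀ w, Ker (cr (pdw w (mol r : E N → ℝ))) := fun w => (hM _ (hk w)).1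
  obtain ⟨m2, c2, t2, -⟩ := b4 2 le_rfl (by linarith)
  obtain ⟨mr, cr', -, -⟩ := b4 (α + 2) e1 e2
  have mn : ∀ t, Mem ((α + 2) / (α + 1)) fun x => NL α (v t x) := fun t => (b5 t).2
  refine ⟨fun w => APX_cont h1 one_le_two (hK w) m2 t2,
    fun w => APX_cont h1 e3 (hK w) (g := fun t y => NL α (v t y)) mn b6,
    fun w i t x => (hM _ (hk w)).2.1 2 _ one_le_two (m2 t) i x,
    fun w i t x => (hM _ (hk w)).2.1 _ _ e3 (mn t) i x,
    fun w t x ht => ?_,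
    fun w t => ⟨mem_two.1 (((h1 N 2 one_le_two).2 _ (hK w)).2 _ (m2 t)).2.2.1,
      (((h1 N _ e4).2 _ (hK w)).2 _ (mr t)).2.2.1⟩,
    fun w t => (((h1 N _ e3).2 _ (hK w)).2 _ (mn t)).2.2.1, fun w T => ?_⟩
  · have h := hs.eqn _ (APX_test (hk w) x) t ht
    simp only [APX_pd (hk w), Complex.ofReal_neg, mul_neg, integral_neg, Finset.sum_neg_distrib,
      neg_neg, APX_cv] at h
    have h' : ∀ j, cv (cr (pd j (pdw w (mol r)))) (dv t j) x = fm r v (j :: j :: w) t x :=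
      fun j => ((hM _ ((hk w).pd j)).2.2 _ _ (hs.h1 t) j x).symm
    simp only [h'] at h
    exact h
  · obtain ⟨B2, hB2, H2⟩ := APX_bd c2 T
    obtain ⟨Br, hBr, Hr⟩ := APX_bd cr' T
    obtain ⟨Bn, hBn, Hn⟩ := APX_bd (APX_nrcont e3 (g := fun t y => NL α (v t y)) mn b6) T
    obtain ⟨A, hA⟩ : ∃ A, A = ∫ y, ‖cr (pdw w (mol r : E N → ℝ)) y‖ := ⟨_, rfl⟩
    have hA0 : 0 ≤ A := hA ▸ integral_nonneg fun _ => norm_nonneg _
    refine ⟨max ((A * B2) ^ 2) (max (A * Br) (A * Bn)), fun t ht => ⟨?_, ?_, ?_⟩⟩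
    · obtain ⟨-, -, a1, a2, -⟩ := ((h1 N 2 one_le_two).2 _ (hK w)).2 _ (m2 t)
      rw [← hA] at a2
      have a3 : ms (fm r v w t) = nr 2 (fm r v w t) ^ 2 := (nr_two_sq a1.1).symm
      rw [a3]
      exact (pow_le_pow_left₀ (nr_nonneg _ _)
        (a2.trans (mul_le_mul_of_nonneg_left (H2 t ht) hA0)) 2).trans (le_max_left _ _)
    · obtain ⟨-, -, -, a2, -⟩ := ((h1 N _ e4).2 _ (hK w)).2 _ (mr t)
      rw [← hA] at a2
      exact (a2.trans (mul_le_mul_of_nonneg_left (Hr t ht) hA0)).trans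
        ((le_max_left _ _).trans (le_max_right _ _))
    · obtain ⟨-, -, -, a2, -⟩ := ((h1 N _ e3).2 _ (hK w)).2 _ (mn t)
      rw [← hA] at a2
      exact (a2.trans (mul_le_mul_of_nonneg_left (Hn t ht) hA0)).trans
        ((le_max_right _ _).trans (le_max_right _ _))

/-- The mollifier is a contraction. -/
theorem APX_young (h1 : St_CONV) (h2 : St_MOL) {p : ℝ} (hp : 1 ≤ p) {r : ℝ} (hr : 0 < r)
    {g : E N → ℂ} (hg : Mem p g) :
    Mem p (cv (cr (mol r)) g) ∧ nr p (cv (cr (mol r)) g) ≤ nr p g := by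
  obtain ⟨a1, a2, a3, -⟩ := (h2 N).1 r hr
  obtain ⟨-, -, b1, b2, -⟩ := ((h1 N p hp).2 _ ((h2 N).2.2.1 _ a1).1).2 _ hg
  have e : ∫ y : E N, ‖cr (mol r) y‖ = 1 := by
    rw [← a3]
    refine integral_congr_ae (Eventually.of_forall fun y => ?_)
    simp [cr, abs_of_nonneg (a2 y)]
  rw [e, one_mul] at b2
  exact ⟨b1, b2⟩

/-- Mollification converges uniformly on compact sets of times. -/
theorem APX_unif (h1 : St_CONV) (h2 : St_MOL) {p : ℝ} (hp : 1 ≤ p) {g : ℝ → E N → ℂ}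
    (hg : ∀ t, Mem p (g t))
    (hu : ∀ t, Tendsto (fun s => nr p fun x => g s x - g t x) (𝓝 t) (𝓝 0)) (T : ℝ) {η : ℝ}
    (hη : 0 < η) : ∀ᶠ r in 𝓝[>] (0 : ℝ), ∀ t, |t| ≤ T →
      nr p (fun x => cv (cr (mol r)) (g t) x - g t x) ≤ η := by
  have H := (isCompact_Icc (a := -T) (b := T)).eventually_forall_of_forall_eventually
    (x₀ := (0 : ℝ)) (P := fun r t => 0 < r → nr p (fun x => cv (cr (mol r)) (g t) x - g t x) ≤ η)
    fun t0 _ => ?_
  · filter_upwards [nhdsWithin_le_nhds H, self_mem_nhdsWithin] with r hr hr0 t ht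
    exact hr t (abs_le.1 ht) hr0
  have E1 := ((h2 N).2.2.2 p (g t0) hp (hg t0)).eventually (gt_mem_nhds (by linarith : 0 < η / 3))
  rw [eventually_nhdsWithin_iff] at E1
  have E2 := (hu t0).eventually (gt_mem_nhds (by linarith : 0 < η / 3))
  rw [nhds_prod_eq]
  filter_upwards [E1.prod_mk E2] with z hz hr
  obtain ⟨z1, z2⟩ := hz
  have z3 := z1 hr
  have hK : Ker (cr (mol z.1 : E N → ℝ)) := ((h2 N).2.2.1 _ ((h2 N).1 _ hr).1).1
  have y1 := APX_young h1 h2 hp hr (hg z.2)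
  have y0 := APX_young h1 h2 hp hr (hg t0)
  have y2 := (APX_young h1 h2 hp hr ((hg z.2).sub (hg t0))).2
  have a1 := nr_tri hp (h := g z.2) y1.1 y0.1
  have a2 := nr_tri hp (h := g z.2) y0.1 (hg t0)
  rw [nr_sub_comm p (g t0)] at a2
  simp only [APX_sub h1 hp hK (hg z.2) (hg t0)] at a1
  have y3 : nr p (fun x => cv (cr (mol z.1)) (fun y => g z.2 y - g t0 y) x) ≤
      nr p fun x => g z.2 x - g t0 x := y2
  linarith

theorem APX_ms {g : E N → ℂ} (hg : Mem 2 g) {η : ℝ} (hη : 0 < η) (h : nr 2 g ≤ √η) : ms g ≤ η := by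
  rw [← nr_two_sq hg.1, ← Real.sq_sqrt hη.le]
  exact pow_le_pow_left₀ (nr_nonneg _ _) h 2

theorem COM (h1 : St_CONV) (h2 : St_MOL) (h3 : St_BASIC) (h4 : St_NL) : St_COM := by
  intro N α κ v dv hα hs T η hη
  obtain ⟨-, -, -, b4, b5, b6, -⟩ := h3 N α κ v dv hα hs
  obtain ⟨e1, e2, e3⟩ := APX_exp hα
  have e0 : 0 < α := hα.2.1
  have e4 : (1 : ℝ) ≤ α + 2 := by linarith
  obtain ⟨m2, -, t2, -⟩ := b4 2 le_rfl (by linarith)
  obtain ⟨mr, cr', tr, -⟩ := b4 (α + 2) e1 e2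
  have mn : ∀ t, Mem ((α + 2) / (α + 1)) fun x => NL α (v t x) := fun t => (b5 t).2
  have md : ∀ i t, Mem 2 (dv t i) := fun i t => mem_two.2 ((hs.h1 t).mem1 i)
  have td : ∀ i t, Tendsto (fun s => nr 2 fun x => dv s i x - dv t i x) (𝓝 t) (𝓝 0) := by
    intro i t
    have h := (hs.c1 t i).sqrt
    rw [Real.sqrt_zero] at h
    exact h.congr fun s => (nr_two ((md i s).sub (md i t)).1).symm
  obtain ⟨-, -, -, -, -, C, hC, -, HC⟩ := h4 α e0
  obtain ⟨B, hB, HB⟩ := APX_bd cr' T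
  have hBa : 0 ≤ B ^ α := Real.rpow_nonneg hB α
  have hD : 0 < C * (B ^ α + B ^ α) + 1 := by positivity
  have hs' : 0 < √η := Real.sqrt_pos.2 hη
  have U1 := APX_unif h1 h2 one_le_two m2 t2 T hs'
  have U2 : ∀ᶠ r in 𝓝[>] (0 : ℝ), ∀ i, ∀ t, |t| ≤ T →
      nr 2 (fun x => cv (cr (mol r)) (dv t i) x - dv t i x) ≤ √η :=
    eventually_all.2 fun i => APX_unif h1 h2 one_le_two (g := fun t => dv t i) (md i) (td i) T hs'
  have U3 := APX_unif h1 h2 e4 mr tr T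
    (η := min η (η / 2 / (C * (B ^ α + B ^ α) + 1))) (lt_min hη (by positivity))
  have U4 := APX_unif h1 h2 e3 (g := fun t y => NL α (v t y)) mn b6 T (half_pos hη)
  filter_upwards [U1, U2, U3, U4, self_mem_nhdsWithin] with r u1 u2 u3 u4 hr t ht
  have hr0 : 0 < r := hr
  have y2 := APX_young h1 h2 one_le_two hr0 (m2 t)
  have yr := APX_young h1 h2 e4 hr0 (mr t)
  have yn := APX_young h1 h2 e3 hr0 (mn t)
  refine ⟨APX_ms (y2.1.sub (m2 t)) hη (u1 t ht), fun i => ?_, (u3 t ht).trans (min_le_left _ _),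
    (u4 t ht).trans (half_le_self hη.le), ?_⟩
  · have e : ∀ x, fm r v [i] t x = cv (cr (mol r)) (dv t i) x := fun x =>
      ((h2 N).2.2.1 _ ((h2 N).1 r hr0).1).2.2 _ _ (hs.h1 t) i x
    simp only [e]
    exact APX_ms ((APX_young h1 h2 one_le_two hr0 (md i t)).1.sub (md i t)) hη (u2 i t ht)
  · have a1 := nr_tri e3 (h := fun x => NL α (cv (cr (mol r)) (v t) x)) yn.1 (mn t)
    have a2 := (HC N _ _ (mr t) yr.1).1
    have a3 : nr (α + 2) (v t) ^ α ≤ B ^ α := Real.rpow_le_rpow (nr_nonneg _ _) (HB t ht) e0.le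
    have a4 : nr (α + 2) (cv (cr (mol r)) (v t)) ^ α ≤ B ^ α :=
      Real.rpow_le_rpow (nr_nonneg _ _) (yr.2.trans (HB t ht)) e0.le
    have a5 := (u3 t ht).trans (min_le_right _ _)
    rw [nr_sub_comm, le_div_iff₀ hD] at a5
    have a6 := nr_nonneg (α + 2) fun x => v t x - cv (cr (mol r)) (v t) x
    have a7 : C * (nr (α + 2) (v t) ^ α + nr (α + 2) (cv (cr (mol r)) (v t)) ^ α) *
        nr (α + 2) (fun x => v t x - cv (cr (mol r)) (v t) x) ≤
        C * (B ^ α + B ^ α) * nr (α + 2) (fun x => v t x - cv (cr (mol r)) (v t) x) :=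
      mul_le_mul_of_nonneg_right (mul_le_mul_of_nonneg_left (add_le_add a3 a4) hC) a6
    have a8 := u4 t ht
    change nr ((α + 2) / (α + 1)) (fun x => cv (cr (mol r)) (fun y => NL α (v t y)) x -
      NL α (cv (cr (mol r)) (v t) x)) ≤ η
    nlinarith

end Pool.Agent.Lib.MP_13801a_an.ND
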