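import Mathlib
import Pool.Agent.Lib.MP_13801a_an.ND.StsA

/-!
Continuity in time of the norms of a solution, and uniform continuity of the virial quantity.
-/

open MeasureTheory Set Filter
open scoped ContDiff Topology ComplexConjugate

namespace Pool.Agent.Lib.MP_13801a_an.ND

noncomputable section

variable {N : ℕ}

/-- Continuous curves in `L^p`. -/
def BASIC_Cp (p : ℝ) (f : ℝ → E N → ℂ) : Prop :=
  (∀ t, Mem p (f t)) ∧ ∀ t, Tendsto (fun s => nr p fun x => f s x - f t x) (𝓝 t) (𝓝 0)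

theorem BASIC_cont_of_bound {X : Type*} [TopologicalSpace X] {F : X → ℝ}
    (h : ∀ a, ∃ G : X → ℝ, Tendsto G (𝓝 a) (𝓝 0) ∧ ∀ b, |F b - F a| ≤ G b) : Continuous F := by
  rw [continuous_iff_continuousAt]
  intro a
  obtain ⟨G, hG, hb⟩ := h a
  rw [ContinuousAt, tendsto_iff_dist_tendsto_zero]
  exact squeeze_zero (fun _ => dist_nonneg) (fun b => by rw [Real.dist_eq]; exact hb b) hG

theorem BASIC_nr_cont {p : ℝ} (hp : 1 ≤ p) {f : ℝ → E N → ℂ} (hf : BASIC_Cp p f) :
    Continuous fun t => nr p (f t) :=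
  BASIC_cont_of_bound fun t => ⟨_, hf.2 t, fun s => abs_nr_sub_le hp (hf.1 s) (hf.1 t)⟩

theorem BASIC_four {p : ℝ} (hp : 1 ≤ p) {a b c d : E N → ℂ} (ha : Mem p a) (hb : Mem p b)
    (hc : Mem p c) (hd : Mem p d) :
    |nr p (fun x => a x - b x) - nr p fun x => c x - d x| ≤
      nr p (fun x => a x - c x) + nr p fun x => b x - d x := by
  refine (abs_nr_sub_le hp (ha.sub hb) (hc.sub hd)).trans ?_
  have e : (fun x => a x - b x - (c x - d x)) = fun x => (a x - c x) - (b x - d x) := by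
    funext x
    ring
  rw [e]
  exact nr_sub_le hp (ha.sub hc)

theorem BASIC_diff_cont {p : ℝ} (hp : 1 ≤ p) {f : ℝ → E N → ℂ} (hf : BASIC_Cp p f) :
    Continuous fun a : ℝ × ℝ => nr p fun x => f a.1 x - f a.2 x := by
  refine BASIC_cont_of_bound fun a => ⟨fun b => nr p (fun x => f b.1 x - f a.1 x) +
    nr p fun x => f b.2 x - f a.2 x, ?_, fun b => BASIC_four hp (hf.1 _) (hf.1 _) (hf.1 _) (hf.1 _)⟩
  have h := ((hf.2 a.1).comp (continuous_fst.tendsto a)).add
    ((hf.2 a.2).comp (continuous_snd.tendsto a))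
  rw [add_zero] at h
  exact h

theorem BASIC_nr_self (p : ℝ) (g : E N → ℂ) : nr p (fun x => g x - g x) = 0 := by
  have h := nr_const_mul p 0 g
  simpa using h

theorem BASIC_unif {wm : ℝ × ℝ → ℝ} (hw : Continuous wm) (h0 : ∀ t, wm (t, t) = 0) (T : ℝ) {η : ℝ}
    (hη : 0 < η) : ∃ τ : ℝ, 0 < τ ∧ ∀ s t, |s| ≤ T → |t| ≤ T → |s - t| ≤ τ → wm (s, t) ≤ η := by
  have hK : IsCompact (Icc (-T) T ×ˢ Icc (-T) T) := isCompact_Icc.prod isCompact_Icc
  have hu := hK.uniformContinuousOn_of_continuous hw.continuousOn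
  rw [Metric.uniformContinuousOn_iff] at hu
  obtain ⟨δ, hδ, h⟩ := hu η hη
  refine ⟨δ / 2, by positivity, fun s t hs ht hst => ?_⟩
  have h1 := h (s, t) ⟨abs_le.1 hs, abs_le.1 ht⟩ (t, t) ⟨abs_le.1 ht, abs_le.1 ht⟩ (by
    rw [Prod.dist_eq, dist_self, Real.dist_eq]
    exact max_lt (by simp only; linarith) hδ)
  rw [h0, Real.dist_eq, sub_zero] at h1
  exact (le_abs_self _).trans h1.le

/-! ### Bilinear estimates -/

theorem BASIC_int {p q : ℝ} (hpq : p.HolderConjugate q) {a b : E N → ℂ} (ha : Mem p a)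
    (hb : Mem q b) : Integrable fun x => conj (a x) * b x :=
  (holder hpq ha hb).1.mono'
    ((Complex.continuous_conj.comp_aestronglyMeasurable ha.1).mul hb.1)
    (Eventually.of_forall fun x => by simp)

theorem BASIC_bil {p q : ℝ} (hpq : p.HolderConjugate q) {a a' b b' : E N → ℂ} (ha : Mem p a)
    (ha' : Mem p a') (hb : Mem q b) (hb' : Mem q b') :
    ∫ x, ‖conj (a x) * b x - conj (a' x) * b' x‖ ≤
      nr p (fun x => a x - a' x) * nr q b + nr p a' * nr q fun x => b x - b' x := by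
  have h1 := holder hpq (ha.sub ha') hb
  have h2 := holder hpq ha' (hb.sub hb')
  refine le_trans ?_ (add_le_add h1.2 h2.2)
  rw [← integral_add h1.1 h2.1]
  refine integral_mono ((BASIC_int hpq ha hb).sub (BASIC_int hpq ha' hb')).norm (h1.1.add h2.1)
    fun x => ?_
  have e : conj (a x) * b x - conj (a' x) * b' x =
      conj (a x - a' x) * b x + conj (a' x) * (b x - b' x) := by
    rw [map_sub]
    ring
  simp only
  rw [e]
  refine (norm_add_le _ _).trans (le_of_eq ?_)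
  rw [norm_mul, norm_mul, Complex.norm_conj, Complex.norm_conj]

theorem BASIC_wint {X : E N → ℝ} {B : ℝ} (hX : Measurable X) (hB : ∀ x, |X x| ≤ B)
    {F : E N → ℂ} (hF : Integrable F) :
    (Integrable fun x => X x * (F x).re) ∧ |∫ x, X x * (F x).re| ≤ B * ∫ x, ‖F x‖ := by
  have hb : ∀ x, ‖X x * (F x).re‖ ≤ B * ‖F x‖ := fun x => by
    rw [norm_mul, Real.norm_eq_abs, Real.norm_eq_abs]
    exact mul_le_mul (hB x) (Complex.abs_re_le_norm _) (abs_nonneg _)
      ((abs_nonneg _).trans (hB x))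
  have hi : Integrable fun x => X x * (F x).re :=
    (hF.norm.const_mul B).mono' (hX.aestronglyMeasurable.mul hF.re.1) (Eventually.of_forall hb)
  refine ⟨hi, ?_⟩
  rw [← integral_const_mul, ← Real.norm_eq_abs]
  exact norm_integral_le_of_norm_le (hF.norm.const_mul B) (Eventually.of_forall hb)

theorem BASIC_wone {p q : ℝ} (hpq : p.HolderConjugate q) {a b : E N → ℂ} (ha : Mem p a)
    (hb : Mem q b) {X : E N → ℝ} {B : ℝ} (hX : Measurable X) (hB : ∀ x, |X x| ≤ B) :
    |∫ x, X x * (conj (a x) * b x).re| ≤ B * (nr p a * nr q b) := by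
  refine (BASIC_wint hX hB (BASIC_int hpq ha hb)).2.trans
    (mul_le_mul_of_nonneg_left ?_ ((abs_nonneg _).trans (hB 0)))
  simpa using (holder hpq ha hb).2

theorem BASIC_wbil {p q : ℝ} (hpq : p.HolderConjugate q) {a a' b b' : E N → ℂ} (ha : Mem p a)
    (ha' : Mem p a') (hb : Mem q b) (hb' : Mem q b') {X : E N → ℝ} {B : ℝ} (hX : Measurable X)
    (hB : ∀ x, |X x| ≤ B) :
    |(∫ x, X x * (conj (a x) * b x).re) - ∫ x, X x * (conj (a' x) * b' x).re| ≤
      B * (nr p (fun x => a x - a' x) * nr q b + nr p a' * nr q fun x => b x - b' x) := by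
  have i1 := BASIC_int hpq ha hb
  have i2 := BASIC_int hpq ha' hb'
  rw [← integral_sub (BASIC_wint hX hB i1).1 (BASIC_wint hX hB i2).1]
  have e : (fun x => X x * (conj (a x) * b x).re - X x * (conj (a' x) * b' x).re) =
      fun x => X x * (conj (a x) * b x - conj (a' x) * b' x).re := by
    funext x
    rw [Complex.sub_re]
    ring
  rw [e]
  exact (BASIC_wint hX hB (i1.sub i2)).2.trans
    (mul_le_mul_of_nonneg_left (BASIC_bil hpq ha ha' hb hb') ((abs_nonneg _).trans (hB 0)))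

/-- The modulus of continuity of a product. -/
def BASIC_om (p q : ℝ) (a b : ℝ → E N → ℂ) (z : ℝ × ℝ) : ℝ :=
  nr p (fun x => a z.1 x - a z.2 x) * nr q (b z.1) + nr p (a z.2) * nr q fun x => b z.1 x - b z.2 x

theorem BASIC_om_cont {p q : ℝ} (hp : 1 ≤ p) (hq : 1 ≤ q) {a b : ℝ → E N → ℂ}
    (ha : BASIC_Cp p a) (hb : BASIC_Cp q b) : Continuous (BASIC_om p q a b) :=
  ((BASIC_diff_cont hp ha).mul ((BASIC_nr_cont hq hb).comp continuous_fst)).add
    (((BASIC_nr_cont hp ha).comp continuous_snd).mul (BASIC_diff_cont hq hb))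

theorem BASIC_om_self (p q : ℝ) (a b : ℝ → E N → ℂ) (t : ℝ) : BASIC_om p q a b (t, t) = 0 := by
  simp only [BASIC_om, BASIC_nr_self]
  ring

/-! ### Differences of Sobolev functions -/

theorem BASIC_test_int {φ : E N → ℝ} (hφ : Test φ) {g : E N → ℂ} (hg : MemLp g 2 volume) :
    Integrable fun x => g x * ((φ x : ℝ) : ℂ) := by
  have h : MemLp (fun x => ((φ x : ℝ) : ℂ)) 2 volume :=
    (Complex.continuous_ofReal.comp hφ.1.continuous).memLp_of_hasCompactSupport
      (hφ.2.comp_left Complex.ofReal_zero)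
  exact hg.integrable_mul h

theorem BASIC_H1_sub {g g' : E N → ℂ} {dg dg' : Fin N → E N → ℂ} (h : H1 g dg) (h' : H1 g' dg') :
    H1 (fun x => g x - g' x) fun i x => dg i x - dg' i x := by
  refine ⟨h.mem0.sub h'.mem0, fun i => (h.mem1 i).sub (h'.mem1 i), fun φ hφ i => ?_⟩
  simp only [sub_mul]
  rw [integral_sub (BASIC_test_int (hφ.pd i) h.mem0) (BASIC_test_int (hφ.pd i) h'.mem0),
    integral_sub (BASIC_test_int hφ (h.mem1 i)) (BASIC_test_int hφ (h'.mem1 i)),
    h.weak φ hφ i, h'.weak φ hφ i]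
  ring

theorem BASIC_cp_two {f : ℝ → E N → ℂ} (hm : ∀ t, MemLp (f t) 2 volume)
    (hc : ∀ t, Tendsto (fun s => ms fun x => f s x - f t x) (𝓝 t) (𝓝 0)) : BASIC_Cp 2 f := by
  refine ⟨fun t => mem_two.2 (hm t), fun t => ?_⟩
  have h := (hc t).sqrt
  rw [Real.sqrt_zero] at h
  exact h.congr fun s => (nr_two ((hm s).sub (hm t)).1).symm

theorem BASIC_ms_cont {f : ℝ → E N → ℂ} (hf : BASIC_Cp 2 f) : Continuous fun t => ms (f t) :=
  ((BASIC_nr_cont one_le_two hf).pow 2).congr fun t => nr_two_sq (hf.1 t).1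

theorem BASIC_cp_sob (h1 : St_TL) (h2 : St_SOB) {α κ : ℝ} {v : ℝ → E N → ℂ}
    {dv : ℝ → Fin N → E N → ℂ} (hN : 1 ≤ N) (hv : Sol α κ v dv) {p : ℝ} (hp : 2 ≤ p)
    (hpN : ((N : ℝ) - 2) * p < 2 * N) : BASIC_Cp p v := by
  obtain ⟨C, -, hC⟩ := h2 N p hN hp hpN
  refine ⟨fun t => (hC _ _ (kin_nonneg _) (h1 N _ _ (hv.h1 t))).1, fun t => ?_⟩
  have hk : Tendsto (fun s => kin fun i x => dv s i x - dv t i x) (𝓝 t) (𝓝 0) := by
    have h := tendsto_finsetSum Finset.univ fun i _ => hv.c1 t i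
    rw [Finset.sum_const_zero] at h
    exact h
  have h := (((hv.c0 t).add hk).sqrt).const_mul C
  rw [add_zero, Real.sqrt_zero, mul_zero] at h
  exact squeeze_zero (fun s => nr_nonneg _ _)
    (fun s => (hC _ _ (kin_nonneg _) (h1 N _ _ (BASIC_H1_sub (hv.h1 s) (hv.h1 t)))).2) h

theorem BASIC_sh_cont (h4 : St_CONV) {p : ℝ} (hp : 1 ≤ p) {f : ℝ → E N → ℂ}
    (hf : BASIC_Cp p f) : Continuous fun a : ℝ × E N => nr p (sh a.2 (f a.1)) := by
  have hc := (h4 N p hp).1
  refine BASIC_cont_of_bound fun a => ⟨fun b => 2 * nr p (fun x => f b.1 x - f a.1 x) +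
    |nr p (sh b.2 (f a.1)) - nr p (sh a.2 (f a.1))|, ?_, fun b => ?_⟩
  · have t1 := ((hf.2 a.1).comp (continuous_fst.tendsto a)).const_mul 2
    have t2 := ((((hc _ (hf.1 a.1)).2.comp continuous_snd).sub
      (continuous_const (y := nr p (sh a.2 (f a.1))))).abs).tendsto a
    have h := t1.add t2
    simpa using h
  · have t1 := BASIC_four hp ((hc _ (hf.1 b.1)).1 b.2).1 (hf.1 b.1) ((hc _ (hf.1 a.1)).1 b.2).1
      (hf.1 a.1)
    have t2 := ((hc _ ((hf.1 b.1).sub (hf.1 a.1))).1 b.2).2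
    have t3 := abs_sub_le (nr p (sh b.2 (f b.1))) (nr p (sh b.2 (f a.1))) (nr p (sh a.2 (f a.1)))
    have t4 : |nr p (sh b.2 (f b.1)) - nr p (sh b.2 (f a.1))| ≤
        2 * nr p fun x => f b.1 x - f a.1 x := by
      refine t1.trans (le_of_eq ?_)
      rw [t2]
      ring
    simp only
    linarith

theorem BASIC_cp_NL (h3 : St_NL) {α : ℝ} (hα : 0 < α) {v : ℝ → E N → ℂ}
    (hv : BASIC_Cp (α + 2) v) : BASIC_Cp ((α + 2) / (α + 1)) fun t x => NL α (v t x) := by
  obtain ⟨-, -, -, -, hm, C, -, -, hC⟩ := h3 α hα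
  refine ⟨fun t => (hm N _ (hv.1 t)).1, fun t => ?_⟩
  have hn := BASIC_nr_cont (by linarith) hv
  have h := ((((hn.rpow_const fun _ => Or.inr hα.le).tendsto t).add_const
    (nr (α + 2) (v t) ^ α)).const_mul C).mul (hv.2 t)
  rw [mul_zero] at h
  exact squeeze_zero (fun s => nr_nonneg _ _) (fun s => (hC N _ _ (hv.1 s) (hv.1 t)).1) h

theorem BASIC (h1 : St_TL) (h2 : St_SOB) (h3 : St_NL) (h4 : St_CONV) : St_BASIC := by
  intro N α κ v dv hs hv
  obtain ⟨hN, hα, hsub⟩ := hs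
  have c0 : BASIC_Cp 2 v := BASIC_cp_two (fun t => (hv.h1 t).mem0) hv.c0
  have c1 : ∀ i, BASIC_Cp 2 fun t => dv t i := fun i =>
    BASIC_cp_two (fun t => (hv.h1 t).mem1 i) fun t => hv.c1 t i
  have cr : BASIC_Cp (α + 2) v := BASIC_cp_sob h1 h2 hN hv (by linarith) (by linarith)
  have cn := BASIC_cp_NL h3 hα cr
  refine ⟨BASIC_ms_cont c0, continuous_finsetSum _ fun i _ => BASIC_ms_cont (c1 i), ?_,
    fun p hp hpN => ?_, fun t => ⟨cr.1 t, cn.1 t⟩, cn.2, fun t i => ?_⟩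
  · exact ((BASIC_nr_cont (by linarith) cr).rpow_const fun _ => Or.inr (by linarith)).congr
      fun t => nr_rpow (by linarith) (cr.1 t).1
  · have cp := BASIC_cp_sob h1 h2 hN hv hp hpN
    exact ⟨cp.1, BASIC_nr_cont (by linarith) cp, cp.2, BASIC_sh_cont h4 (by linarith) cp⟩
  · have hc := ((BASIC_om_cont one_le_two one_le_two c0 (c1 i)).comp
      (continuous_id.prodMk (continuous_const (y := t)))).tendsto t
    have h := hc.const_mul 2
    simp only [Function.comp, id, BASIC_om_self, mul_zero] at h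
    refine squeeze_zero (fun s => integral_nonneg fun x => abs_nonneg _) (fun s => ?_) h
    have i1 := BASIC_int Real.HolderConjugate.two_two (c0.1 s) ((c1 i).1 s)
    have i2 := BASIC_int Real.HolderConjugate.two_two (c0.1 t) ((c1 i).1 t)
    have hb := BASIC_bil Real.HolderConjugate.two_two (c0.1 s) (c0.1 t) ((c1 i).1 s) ((c1 i).1 t)
    refine le_trans ?_ (mul_le_mul_of_nonneg_left hb zero_le_two)
    rw [← integral_const_mul]
    refine integral_mono_of_nonneg (Eventually.of_forall fun x => abs_nonneg _)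
      ((i1.sub i2).norm.const_mul 2) (Eventually.of_forall fun x => ?_)
    simp only [jj]
    rw [← mul_sub, ← Complex.sub_im, abs_mul, abs_two]
    exact mul_le_mul_of_nonneg_left (Complex.abs_im_le_norm _) zero_le_two

theorem VCONT (h1 : St_BASIC) (h2 : St_NL) (h3 : St_FLU) : St_VCONT := by
  intro N α κ v dv hs hv T B η hη
  have _ := h3
  obtain ⟨-, -, -, hp, hm, hn, -⟩ := h1 N α κ v dv hs hv
  obtain ⟨hN, hα, hsub⟩ := hs
  have c0 : BASIC_Cp 2 v := BASIC_cp_two (fun t => (hv.h1 t).mem0) hv.c0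
  have c1 : ∀ i, BASIC_Cp 2 fun t => dv t i := fun i =>
    BASIC_cp_two (fun t => (hv.h1 t).mem1 i) fun t => hv.c1 t i
  have cr : BASIC_Cp (α + 2) v :=
    ⟨fun t => (hm t).1, (hp (α + 2) (by linarith) (by linarith)).2.2.1⟩
  have cn : BASIC_Cp ((α + 2) / (α + 1)) fun t x => NL α (v t x) := ⟨fun t => (hm t).2, hn⟩
  have hc := conj_exp hα
  have hz : ∀ z : ℂ, ‖z‖ ^ (α + 2) = (conj z * NL α z).re := fun z => by
    rw [(h2 α hα).2.2.1 z, Complex.ofReal_re]
  have he : Continuous fun t : ℝ => Real.exp (κ * t) := by fun_prop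
  set c : ℝ := 2 * α / (α + 2) with hcdef
  have hc0 : 0 ≤ c := by positivity
  let wm : ℝ × ℝ → ℝ := fun z => B *
    (4 * (∑ i, ∑ j, BASIC_om 2 2 (fun t => dv t i) (fun t => dv t j) z) +
      c * (∑ _i : Fin N, (Real.exp (κ * z.1) *
        BASIC_om (α + 2) ((α + 2) / (α + 1)) v (fun t x => NL α (v t x)) z +
        |Real.exp (κ * z.1) - Real.exp (κ * z.2)| *
          (nr (α + 2) (v z.2) * nr ((α + 2) / (α + 1)) fun x => NL α (v z.2 x)))) +
      ∑ _i : Fin N, ∑ j, 2 * BASIC_om 2 2 v (fun t => dv t j) z)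
  have hw : Continuous wm := by
    refine continuous_const.mul (((continuous_const.mul ?_).add (continuous_const.mul ?_)).add ?_)
    · exact continuous_finsetSum _ fun i _ => continuous_finsetSum _ fun j _ =>
        BASIC_om_cont one_le_two one_le_two (c1 i) (c1 j)
    · refine continuous_finsetSum _ fun i _ => ((he.comp continuous_fst).mul
        (BASIC_om_cont hc.lt.le hc.symm.lt.le cr cn)).add
        (((he.comp continuous_fst).sub (he.comp continuous_snd)).abs.mul ?_)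
      exact ((BASIC_nr_cont hc.lt.le cr).comp continuous_snd).mul
        ((BASIC_nr_cont hc.symm.lt.le cn).comp continuous_snd)
    · exact continuous_finsetSum _ fun i _ => continuous_finsetSum _ fun j _ =>
        continuous_const.mul (BASIC_om_cont one_le_two one_le_two c0 (c1 j))
  have hw0 : ∀ t, wm (t, t) = 0 := fun t => by
    simp [wm, BASIC_om_self]
  obtain ⟨τ, hτ, hu⟩ := BASIC_unif hw hw0 T hη
  refine ⟨τ, hτ, fun s t hs ht hst X1 X2 hX hB => le_trans ?_ (hu s t hs ht hst)⟩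
  have a1 : |(∑ i, ∑ j, ∫ x, X1 i j x * st (dv s) i j x) -
      ∑ i, ∑ j, ∫ x, X1 i j x * st (dv t) i j x| ≤
      B * ∑ i, ∑ j, BASIC_om 2 2 (fun t => dv t i) (fun t => dv t j) (s, t) := by
    rw [← Finset.sum_sub_distrib, Finset.mul_sum]
    refine (Finset.abs_sum_le_sum_abs _ _).trans (Finset.sum_le_sum fun i _ => ?_)
    rw [← Finset.sum_sub_distrib, Finset.mul_sum]
    refine (Finset.abs_sum_le_sum_abs _ _).trans (Finset.sum_le_sum fun j _ => ?_)
    exact BASIC_wbil Real.HolderConjugate.two_two ((c1 i).1 s) ((c1 i).1 t) ((c1 j).1 s)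
      ((c1 j).1 t) (hX i j).1 fun x => (hB i j x).1
  have a3 : |(∑ i, ∑ j, ∫ x, X2 i j x * nn (v s) (dv s) j x) -
      ∑ i, ∑ j, ∫ x, X2 i j x * nn (v t) (dv t) j x| ≤
      B * ∑ _i : Fin N, ∑ j, 2 * BASIC_om 2 2 v (fun t => dv t j) (s, t) := by
    rw [← Finset.sum_sub_distrib, Finset.mul_sum]
    refine (Finset.abs_sum_le_sum_abs _ _).trans (Finset.sum_le_sum fun i _ => ?_)
    rw [← Finset.sum_sub_distrib, Finset.mul_sum]
    refine (Finset.abs_sum_le_sum_abs _ _).trans (Finset.sum_le_sum fun j _ => ?_)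
    have e : ∀ u, ∫ x, X2 i j x * nn (v u) (dv u) j x =
        2 * ∫ x, X2 i j x * (conj (v u x) * dv u j x).re := fun u => by
      rw [← integral_const_mul]
      congr 1
      funext x
      simp only [nn]
      ring
    have h := BASIC_wbil Real.HolderConjugate.two_two (c0.1 s) (c0.1 t) ((c1 j).1 s)
      ((c1 j).1 t) (hX i j).2 fun x => (hB i j x).2
    rw [e, e, ← mul_sub, abs_mul, abs_two, mul_left_comm]
    exact mul_le_mul_of_nonneg_left h zero_le_two
  have a2 : |Real.exp (κ * s) * (∑ i, ∫ x, X1 i i x * ‖v s x‖ ^ (α + 2)) -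
      Real.exp (κ * t) * ∑ i, ∫ x, X1 i i x * ‖v t x‖ ^ (α + 2)| ≤
      B * ∑ _i : Fin N, (Real.exp (κ * s) *
        BASIC_om (α + 2) ((α + 2) / (α + 1)) v (fun t x => NL α (v t x)) (s, t) +
        |Real.exp (κ * s) - Real.exp (κ * t)| *
          (nr (α + 2) (v t) * nr ((α + 2) / (α + 1)) fun x => NL α (v t x))) := by
    rw [Finset.mul_sum, Finset.mul_sum, ← Finset.sum_sub_distrib, Finset.mul_sum]
    refine (Finset.abs_sum_le_sum_abs _ _).trans (Finset.sum_le_sum fun i _ => ?_)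
    simp only [hz]
    have b1 := BASIC_wbil hc (cr.1 s) (cr.1 t) (cn.1 s) (cn.1 t) (hX i i).1 fun x => (hB i i x).1
    have b2 := BASIC_wone hc (cr.1 t) (cn.1 t) (hX i i).1 fun x => (hB i i x).1
    have key : ∀ l l' I I' o n : ℝ, 0 ≤ l → |I - I'| ≤ B * o → |I'| ≤ B * n →
        |l * I - l' * I'| ≤ B * (l * o + |l - l'| * n) := by
      intro l l' I I' o n hl k1 k2
      have e : l * I - l' * I' = l * (I - I') + (l - l') * I' := by ring
      rw [e]
      refine (abs_add_le _ _).trans ?_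
      rw [abs_mul, abs_mul, abs_of_nonneg hl]
      have m1 := mul_le_mul_of_nonneg_left k1 hl
      have m2 := mul_le_mul_of_nonneg_left k2 (abs_nonneg (l - l'))
      linarith
    exact key _ _ _ _ _ _ (Real.exp_pos _).le b1 b2
  have fin : ∀ A A' P P' D D' l l' o1 o2 o3 : ℝ, |A - A'| ≤ B * o1 →
      |l * P - l' * P'| ≤ B * o2 → |D - D'| ≤ B * o3 →
      |4 * A - c * l * P + D - (4 * A' - c * l' * P' + D')| ≤ B * (4 * o1 + c * o2 + o3) := by
    intro A A' P P' D D' l l' o1 o2 o3 k1 k2 k3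
    have m2 := mul_le_mul_of_nonneg_left (abs_le.1 k2).1 hc0
    have m3 := mul_le_mul_of_nonneg_left (abs_le.1 k2).2 hc0
    have m4 := abs_le.1 k1
    have m5 := abs_le.1 k3
    rw [abs_le]
    constructor <;> nlinarith [m4.1, m4.2, m5.1, m5.2]
  exact fin _ _ _ _ _ _ _ _ _ _ _ a1 a2 a3

end

end Pool.Agent.Lib.MP_13801a_an.ND
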