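import Mathlib
import Pool.Agent.Lib.MP_13801a_an.ND.StsA

/-!
Convolution of functions in `L^p` with bounded integrable kernels.
-/

open MeasureTheory Set Filter
open scoped ContDiff Topology ComplexConjugate

namespace Pool.Agent.Lib.MP_13801a_an.ND

variable {N : ℕ} {p : ℝ}

theorem CONV_shift (hp : 1 ≤ p) {g : E N → ℂ} (hg : Mem p g) (y : E N) :
    Mem p (fun x => g (x + y)) ∧ nr p (fun x => g (x + y)) = nr p g := by
  have h1 : Mem p fun x => g (x + y) :=
    MemLp.comp_measurePreserving hg (measurePreserving_add_right volume y)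
  refine ⟨h1, ?_⟩
  rw [nr_eq (by linarith) h1.1, nr_eq (by linarith) hg.1,
    integral_add_right_eq_self (fun x => ‖g x‖ ^ p) y]

theorem CONV_sh (hp : 1 ≤ p) {g : E N → ℂ} (hg : Mem p g) (y : E N) :
    Mem p (sh y g) ∧ nr p (sh y g) ≤ 2 * nr p g := by
  obtain ⟨h1, h2⟩ := CONV_shift hp hg y
  refine ⟨h1.sub hg, ?_⟩
  have := nr_sub_le (g' := g) hp h1
  rw [h2] at this
  rw [two_mul]
  exact this

theorem CONV_cont (hp : 1 ≤ p) {g : E N → ℂ} (hg : Mem p g) :
    Continuous fun y => nr p (sh y g) := by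
  have : Fact (1 ≤ ENNReal.ofReal p) := ⟨by simpa using ENNReal.ofReal_le_ofReal hp⟩
  let τ : C(E N, C(E N, E N)) :=
    ContinuousMap.curry ⟨fun z : E N × E N => z.2 + z.1, by fun_prop⟩
  have hτ : ∀ y, MeasurePreserving (τ y) volume volume := fun y =>
    measurePreserving_add_right volume y
  have h1 := Continuous.compMeasurePreservingLp (f := fun _ : E N => MemLp.toLp g hg)
    continuous_const τ.continuous hτ ENNReal.ofReal_ne_top
  refine ((h1.sub (continuous_const (y := MemLp.toLp g hg))).norm).congr fun y => ?_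
  rw [Lp.norm_def, nr, ← toReal_eLpNorm (CONV_sh hp hg y).1.1]
  congr 1
  refine eLpNorm_congr_ae ?_
  filter_upwards [Lp.coeFn_sub (Lp.compMeasurePreserving (τ y) (hτ y) (MemLp.toLp g hg))
    (MemLp.toLp g hg), Lp.coeFn_compMeasurePreserving (MemLp.toLp g hg) (hτ y),
    (hτ y).quasiMeasurePreserving.ae_eq_comp (MemLp.coeFn_toLp hg), MemLp.coeFn_toLp hg]
    with x a1 a2 a3 a4
  refine a1.trans ?_
  rw [Pi.sub_apply, a2, a3, a4]
  rfl

theorem CONV_one_add (hp : 1 ≤ p) {t : ℝ} (ht : 0 ≤ t) : t ≤ 1 + t ^ p := by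
  rcases le_total t 1 with h | h
  · have := Real.rpow_nonneg ht p
    linarith
  · have := Real.self_le_rpow_of_one_le h hp
    linarith

theorem CONV_scale (hp : 1 ≤ p) {a t : ℝ} (ha : 0 < a) (ht : 0 ≤ t) :
    t ≤ a + a / a ^ p * t ^ p := by
  have h := mul_le_mul_of_nonneg_left (CONV_one_add hp (div_nonneg ht ha.le)) ha.le
  rw [Real.div_rpow ht ha.le, mul_div_cancel₀ _ ha.ne'] at h
  refine h.trans (le_of_eq ?_)
  ring

theorem CONV_tan (hp : 1 ≤ p) {s t : ℝ} (hs : 0 ≤ s) (ht : 0 ≤ t) :
    p * (s ^ (p - 1) * t) ≤ t ^ p + (p - 1) * s ^ p := by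
  rcases hs.eq_or_lt with rfl | hs
  · rcases hp.eq_or_lt with rfl | hp
    · simp
    · rw [Real.zero_rpow (by linarith), Real.zero_rpow (by linarith)]
      simpa using Real.rpow_nonneg ht p
  · have h1 := one_add_mul_self_le_rpow_one_add (s := t / s - 1)
      (by have := div_nonneg ht hs.le; linarith) hp
    have h2 : 0 < s ^ p := Real.rpow_pos_of_pos hs p
    rw [add_sub_cancel, Real.div_rpow ht hs.le, le_div_iff₀ h2] at h1
    rw [Real.rpow_sub_one hs.ne']
    have : p * (s ^ p / s * t) = (1 + p * (t / s - 1)) * s ^ p + (p - 1) * s ^ p := by ring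
    linarith

theorem CONV_int (hp : 1 ≤ p) {k g : E N → ℂ} (hk : Ker k) (hg : Mem p g) (x : E N) :
    Integrable fun y => k (x - y) * g y := by
  obtain ⟨h1, C, hC⟩ := hk
  have h2 := h1.comp_sub_left x
  refine (h2.norm.add ((hg.integrable_rpow (by linarith)).const_mul C)).mono' (h2.1.mul hg.1)
    (Eventually.of_forall fun y => ?_)
  have a1 := CONV_one_add hp (norm_nonneg (g y))
  have a2 := mul_le_mul_of_nonneg_left a1 (norm_nonneg (k (x - y)))
  have a3 := mul_le_mul_of_nonneg_right (hC (x - y)) (Real.rpow_nonneg (norm_nonneg (g y)) p)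
  simp only [norm_mul, Pi.add_apply]
  linarith

theorem CONV_sup (hp : 1 ≤ p) {k : E N → ℂ} (hk : Ker k) :
    ∃ C : ℝ, 0 ≤ C ∧ ∀ g, Mem p g → ∀ x, ∫ y, ‖k (x - y) * g y‖ ≤ C * nr p g := by
  obtain ⟨h1, C, hC⟩ := id hk
  have hC0 : 0 ≤ C := (norm_nonneg _).trans (hC 0)
  have hI : 0 ≤ ∫ y, ‖k y‖ := integral_nonneg fun _ => norm_nonneg _
  refine ⟨(∫ y, ‖k y‖) + C + 1, by positivity, fun g hg x => ?_⟩
  rw [← div_le_iff₀' (by positivity)]
  refine le_of_forall_gt_imp_ge_of_dense fun a ha => ?_
  have ha0 : 0 < a := (nr_nonneg p g).trans_lt ha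
  have hap : 0 < a ^ p := Real.rpow_pos_of_pos ha0 p
  have h2 := (h1.comp_sub_left x).norm.const_mul a
  have h3 := (hg.integrable_rpow (by linarith)).const_mul (C * (a / a ^ p))
  have h4 := integral_mono (CONV_int hp hk hg x).norm (h2.add h3) fun y => by
    have a1 := CONV_scale hp ha0 (norm_nonneg (g y))
    have a2 := mul_le_mul_of_nonneg_left a1 (norm_nonneg (k (x - y)))
    have a3 := mul_le_mul_of_nonneg_right (hC (x - y))
      (show 0 ≤ a / a ^ p * ‖g y‖ ^ p by positivity)
    simp only [norm_mul, Pi.add_apply]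
    linarith
  simp only [Pi.add_apply] at h4
  rw [integral_add h2 h3, integral_const_mul, integral_const_mul,
    integral_sub_left_eq_self (fun y => ‖k y‖) volume x, ← nr_rpow (by linarith) hg.1] at h4
  have h5 : nr p g ^ p ≤ a ^ p := Real.rpow_le_rpow (nr_nonneg p g) ha.le (by linarith)
  have h6 : C * (a / a ^ p) * nr p g ^ p ≤ C * (a / a ^ p) * a ^ p := by gcongr
  rw [mul_assoc C _ (a ^ p), div_mul_cancel₀ _ hap.ne'] at h6
  rw [div_le_iff₀' (by positivity)]
  linarith

theorem CONV_swap (k g : E N → ℂ) (x : E N) : cv k g x = ∫ y, k y * g (x - y) := by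
  rw [cv, ← integral_sub_left_eq_self (fun y => k y * g (x - y)) volume x]
  simp only [sub_sub_cancel]

theorem CONV_int' (hp : 1 ≤ p) {k g : E N → ℂ} (hk : Ker k) (hg : Mem p g) (x : E N) :
    Integrable fun y => k y * g (x - y) := by
  simpa only [sub_sub_cancel] using (CONV_int hp hk hg x).comp_sub_left x

theorem CONV_cvcont (hp : 1 ≤ p) {k g : E N → ℂ} (hk : Ker k) (hg : Mem p g) :
    Continuous (cv k g) := by
  obtain ⟨C, -, hC⟩ := CONV_sup hp hk
  refine continuous_iff_continuousAt.2 fun x => ?_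
  rw [ContinuousAt, tendsto_iff_norm_sub_tendsto_zero]
  have h1 : Continuous fun x' => C * nr p (sh (x' - x) g) :=
    continuous_const.mul ((CONV_cont hp hg).comp (continuous_id.sub continuous_const))
  have h2 : C * nr p (sh (x - x) g) = 0 := by
    have : sh (x - x) g = 0 := by
      funext z
      simp [sh]
    rw [this, nr, lpNorm_zero, mul_zero]
  refine squeeze_zero (fun _ => norm_nonneg _) (fun x' => ?_) (h2 ▸ h1.tendsto x)
  refine le_trans (le_of_eq ?_) ((norm_integral_le_integral_norm _).trans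
    (hC _ (CONV_sh hp hg (x' - x)).1 x))
  congr 1
  have h3 := CONV_swap k (sh (x' - x) g) x
  rw [cv] at h3
  rw [h3, CONV_swap, CONV_swap, ← integral_sub (CONV_int' hp hk hg x') (CONV_int' hp hk hg x)]
  refine integral_congr_ae (Eventually.of_forall fun y => ?_)
  simp only [sh]
  rw [show x - y + (x' - x) = x' - y by abel, mul_sub]

/-- The integral inequality of Minkowski. -/
theorem CONV_mink (hp : 1 ≤ p) {k : E N → ℂ} (hk : Integrable k) {D : E N → E N → ℂ}
    (hD : AEStronglyMeasurable (fun z : E N × E N => D z.2 z.1) (volume.prod volume))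
    (hm : ∀ y, Mem p (D y)) (hc : Continuous fun y => nr p (D y)) {B : ℝ}
    (hB : ∀ y, nr p (D y) ≤ B) (hi : ∀ x, Integrable fun y => k y * D y x) :
    Mem p (fun x => ∫ y, k y * D y x) ∧
      nr p (fun x => ∫ y, k y * D y x) ≤ ∫ y, ‖k y‖ * nr p (D y) := by
  have hp0 : 0 < p := by linarith
  set F : E N → ℂ := fun x => ∫ y, k y * D y x with hF
  have hFm : AEStronglyMeasurable F volume :=
    (hk.1.comp_snd.mul hD).integral_prod_right'
  have hi0 : Integrable fun y => ‖k y‖ * nr p (D y) :=
    hk.norm.mul_bdd (c := B) hc.aestronglyMeasurable (Eventually.of_forall fun y => by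
      rw [Real.norm_of_nonneg (nr_nonneg _ _)]
      exact hB y)
  have hI : 0 ≤ ∫ y, ‖k y‖ := integral_nonneg fun _ => norm_nonneg _
  have hI0 : 0 ≤ ∫ y, ‖k y‖ * nr p (D y) :=
    integral_nonneg fun y => mul_nonneg (norm_nonneg _) (nr_nonneg _ _)
  have key : ∀ ε : ℝ, 0 < ε → Mem p F ∧
      nr p F ≤ (∫ y, ‖k y‖ * nr p (D y)) + ε * ((∫ y, ‖k y‖) + 1) := by
    intro ε hε
    set A := (∫ y, ‖k y‖ * nr p (D y)) + ε * ((∫ y, ‖k y‖) + 1) with hA
    have hA0 : 0 < A := by positivity
    set a : E N → ℝ := fun y => nr p (D y) + ε with ha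
    have ha0 : ∀ y, 0 < a y := fun y => add_pos_of_nonneg_of_pos (nr_nonneg _ _) hε
    have hac : Continuous a := hc.add continuous_const
    have hia : Integrable fun y => ‖k y‖ * a y := by
      simp only [ha, mul_add]
      exact hi0.add (hk.norm.mul_const ε)
    have hia' : ∫ y, ‖k y‖ * a y ≤ A := by
      simp only [ha, mul_add]
      rw [integral_add hi0 (hk.norm.mul_const ε), integral_mul_const, hA]
      linarith
    set H : E N × E N → ℝ := fun z => ‖k z.2‖ * (a z.2 / a z.2 ^ p) * ‖D z.2 z.1‖ ^ p with hH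
    have hH0 : ∀ z, 0 ≤ H z := fun z => by
      have := ha0 z.2
      simp only [hH]
      positivity
    have hHm : AEStronglyMeasurable H (volume.prod volume) := by
      refine (hk.1.norm.comp_snd.mul (Continuous.aestronglyMeasurable ?_)).mul
        ((Real.continuous_rpow_const hp0.le).comp_aestronglyMeasurable hD.norm)
      exact (hac.div (hac.rpow_const fun _ => Or.inr hp0.le)
        fun y => (Real.rpow_pos_of_pos (ha0 y) p).ne').comp continuous_snd
    have hHy : ∀ y, ∫ x, H (x, y) ≤ ‖k y‖ * a y := by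
      intro y
      have b0 := ha0 y
      have b1 : 0 < a y ^ p := Real.rpow_pos_of_pos b0 p
      have b2 : nr p (D y) ^ p ≤ a y ^ p :=
        Real.rpow_le_rpow (nr_nonneg _ _) (by simp only [ha]; linarith) hp0.le
      simp only [hH]
      rw [integral_const_mul, ← nr_rpow hp0 (hm y).1]
      calc _ ≤ ‖k y‖ * (a y / a y ^ p) * a y ^ p := by gcongr
        _ = _ := by rw [mul_assoc, div_mul_cancel₀ _ b1.ne']
    have hHi : Integrable H (volume.prod volume) := by
      rw [integrable_prod_iff' hHm]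
      refine ⟨Eventually.of_forall fun y =>
        ((hm y).integrable_rpow hp0).const_mul (‖k y‖ * (a y / a y ^ p)), ?_⟩
      refine hia.mono' hHm.prod_swap.norm.integral_prod_right' (Eventually.of_forall fun y => ?_)
      simp only [Real.norm_of_nonneg (hH0 _)]
      rw [Real.norm_of_nonneg (integral_nonneg fun x => hH0 _)]
      exact hHy y
    have hpt : ∀ᵐ x, ‖F x‖ ^ p ≤ A ^ p / A * ∫ y, H (x, y) := by
      filter_upwards [hHi.prod_right_ae] with x hx
      set s := ‖F x‖ / A with hs
      have hs0 : 0 ≤ s := by positivity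
      have b1 := integral_mono ((hi x).norm.const_mul (p * s ^ (p - 1)))
        (hx.add (hia.const_mul ((p - 1) * s ^ p))) fun y => by
          have c0 := ha0 y
          have c1 := mul_le_mul_of_nonneg_left
            (CONV_tan hp hs0 (div_nonneg (norm_nonneg (D y x)) c0.le))
            (mul_nonneg (norm_nonneg (k y)) c0.le)
          rw [Real.div_rpow (norm_nonneg _) c0.le] at c1
          simp only [norm_mul, Pi.add_apply, hH]
          refine le_trans (le_of_eq ?_) (c1.trans (le_of_eq ?_))
          · field_simp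
          · ring
      simp only [Pi.add_apply] at b1
      rw [integral_add hx (hia.const_mul _), integral_const_mul, integral_const_mul] at b1
      have b2 : s * A ≤ ∫ y, ‖k y * D y x‖ := by
        rw [hs, div_mul_cancel₀ _ hA0.ne']
        exact norm_integral_le_integral_norm _
      have b3 : s ^ (p - 1) * s = s ^ p := by
        rw [← Real.rpow_add_one' hs0 (by linarith), sub_add_cancel]
      have b4 := mul_le_mul_of_nonneg_left b2 (show 0 ≤ p * s ^ (p - 1) by positivity)
      have b5 := mul_le_mul_of_nonneg_left hia'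
        (mul_nonneg (sub_nonneg.2 hp) (Real.rpow_nonneg hs0 p))
      have b6 : s ^ p * A ≤ ∫ y, H (x, y) := by
        have : p * s ^ (p - 1) * (s * A) = p * s ^ p * A := by rw [← b3]; ring
        linarith
      have b7 : ‖F x‖ ^ p = A ^ p / A * (s ^ p * A) := by
        rw [hs, Real.div_rpow (norm_nonneg _) hA0.le]
        have := Real.rpow_pos_of_pos hA0 p
        field_simp
      rw [b7]
      exact mul_le_mul_of_nonneg_left b6 (by positivity)
    have hG := hHi.integral_prod_left.const_mul (A ^ p / A)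
    have hFi : Integrable fun x => ‖F x‖ ^ p :=
      hG.mono' ((Real.continuous_rpow_const hp0.le).comp_aestronglyMeasurable hFm.norm)
        (hpt.mono fun x hx => by rwa [Real.norm_of_nonneg (by positivity)])
    refine ⟨mem_of_integrable_rpow hp0 hFm hFi, ?_⟩
    rw [← Real.rpow_le_rpow_iff (nr_nonneg _ _) hA0.le hp0, nr_rpow hp0 hFm]
    refine (integral_mono_ae hFi hG hpt).trans ?_
    rw [integral_const_mul, integral_integral_swap (f := fun x y => H (x, y)) hHi]
    have b1 := (integral_mono hHi.integral_prod_right hia hHy).trans hia'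
    calc _ ≤ A ^ p / A * A := by gcongr
      _ = _ := div_mul_cancel₀ _ hA0.ne'
  refine ⟨(key 1 one_pos).1, le_of_forall_pos_le_add fun ε hε => ?_⟩
  have := (key (ε / ((∫ y, ‖k y‖) + 1)) (by positivity)).2
  rwa [div_mul_cancel₀ _ (by positivity)] at this

theorem CONV_meas {g : E N → ℂ} (hg : AEStronglyMeasurable g volume) :
    AEStronglyMeasurable (fun z : E N × E N => g (z.1 - z.2)) (volume.prod volume) :=
  hg.comp_quasiMeasurePreserving (quasiMeasurePreserving_sub_of_right_invariant volume volume)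

theorem CONV_young (hp : 1 ≤ p) {k g : E N → ℂ} (hk : Ker k) (hg : Mem p g) :
    Mem p (cv k g) ∧ nr p (cv k g) ≤ (∫ y, ‖k y‖) * nr p g := by
  have h0 : ∀ y : E N, Mem p (fun x => g (x - y)) ∧ nr p (fun x => g (x - y)) = nr p g :=
    fun y => by simpa only [sub_eq_add_neg] using CONV_shift hp hg (-y)
  have h := CONV_mink hp hk.1 (D := fun y x => g (x - y)) (CONV_meas hg.1) (fun y => (h0 y).1)
    (by simp only [fun y => (h0 y).2]; exact continuous_const) (fun y => (h0 y).2.le)
    (CONV_int' hp hk hg)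
  simp only [fun y => (h0 y).2, ← CONV_swap] at h
  rwa [integral_mul_const] at h

theorem CONV_diff (hp : 1 ≤ p) {k g : E N → ℂ} (hk : Ker k) (hg : Mem p g) :
    nr p (fun x => cv k g x - (∫ y, k y) * g x) ≤ ∫ y, ‖k y‖ * nr p (sh (-y) g) := by
  have h := (CONV_mink hp hk.1 (D := fun y => sh (-y) g)
    (by simp only [sh, ← sub_eq_add_neg]; exact (CONV_meas hg.1).sub hg.1.comp_fst)
    (fun y => (CONV_sh hp hg (-y)).1) ((CONV_cont hp hg).comp continuous_neg)
    (fun y => (CONV_sh hp hg (-y)).2) fun x => by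
      simp only [sh, ← sub_eq_add_neg, mul_sub]
      exact (CONV_int' hp hk hg x).sub (hk.1.mul_const (g x))).2
  refine le_trans (le_of_eq ?_) h
  congr 1
  funext x
  simp only [sh, ← sub_eq_add_neg, mul_sub]
  rw [integral_sub (CONV_int' hp hk hg x) (hk.1.mul_const (g x)), integral_mul_const, CONV_swap]

theorem CONV_adj {q : ℝ} (hpq : p.HolderConjugate q) {k g h : E N → ℂ} (hk : Ker k)
    (hg : Mem p g) (hh : Mem q h) :
    ∫ x, cv k g x * h x = ∫ x, g x * cv (fun y => k (-y)) h x := by
  have i1 := (hg.integrable_rpow hpq.pos).convolution_integrand (ContinuousLinearMap.mul ℝ ℝ)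
    hk.1.norm
  have i2 := ((hh.integrable_rpow hpq.symm.pos).convolution_integrand
    (ContinuousLinearMap.mul ℝ ℝ) hk.1.comp_neg.norm).swap
  have hi : Integrable (fun z : E N × E N => k (z.1 - z.2) * g z.2 * h z.1)
      (volume.prod volume) := by
    refine (i1.add i2).mono' (((CONV_meas hk.1.1).mul hg.1.comp_snd).mul hh.1.comp_fst)
      (Eventually.of_forall fun z => ?_)
    have a1 := Real.young_inequality_of_nonneg (norm_nonneg (g z.2)) (norm_nonneg (h z.1)) hpq
    have a2 : ‖g z.2‖ ^ p / p ≤ ‖g z.2‖ ^ p := div_le_self (by positivity) hpq.lt.le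
    have a3 : ‖h z.1‖ ^ q / q ≤ ‖h z.1‖ ^ q := div_le_self (by positivity) hpq.symm.lt.le
    have a4 := mul_le_mul_of_nonneg_left (a1.trans (add_le_add a2 a3))
      (norm_nonneg (k (z.1 - z.2)))
    simp only [norm_mul, Pi.add_apply, ContinuousLinearMap.mul_apply', Function.comp_apply,
      Prod.fst_swap, Prod.snd_swap, neg_sub]
    linarith
  simp only [cv, ← integral_mul_const, ← integral_const_mul]
  rw [integral_integral_swap (f := fun x y => k (x - y) * g y * h x) hi]
  refine integral_congr_ae (Eventually.of_forall fun y =>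
    integral_congr_ae (Eventually.of_forall fun x => ?_))
  simp only [neg_sub]
  ring

theorem CONV_ker {k k' : E N → ℂ} (hk : Ker k) (hk' : Ker k') : Ker (cv k' k) := by
  have h1 : Mem 1 k := by simpa [Mem, memLp_one_iff_integrable] using hk.1
  obtain ⟨C, -, hC⟩ := CONV_sup le_rfl hk'
  refine ⟨by simpa [Mem, memLp_one_iff_integrable] using (CONV_young le_rfl hk' h1).1,
    C * nr 1 k, fun x => (norm_integral_le_integral_norm _).trans (hC k h1 x)⟩

theorem CONV_assoc (hp : 1 ≤ p) {k k' g : E N → ℂ} (hk : Ker k) (hk' : Ker k') (hg : Mem p g)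
    (x : E N) : cv k' (cv k g) x = cv (cv k' k) g x := by
  obtain ⟨C, -, hC⟩ := CONV_sup hp hk
  have h1 := hk'.1.comp_sub_left x
  have hm : AEStronglyMeasurable (fun z : E N × E N => k' (x - z.1) * (k (z.1 - z.2) * g z.2))
      (volume.prod volume) := h1.1.comp_fst.mul ((CONV_meas hk.1.1).mul hg.1.comp_snd)
  have hi : Integrable (fun z : E N × E N => k' (x - z.1) * (k (z.1 - z.2) * g z.2))
      (volume.prod volume) := by
    rw [integrable_prod_iff hm]
    refine ⟨Eventually.of_forall fun y => (CONV_int hp hk hg y).const_mul (k' (x - y)), ?_⟩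
    refine (h1.norm.mul_const (C * nr p g)).mono' hm.norm.integral_prod_right'
      (Eventually.of_forall fun y => ?_)
    rw [Real.norm_of_nonneg (integral_nonneg fun _ => norm_nonneg _)]
    simp only [norm_mul (k' _)]
    rw [integral_const_mul]
    exact mul_le_mul_of_nonneg_left (hC g hg y) (norm_nonneg _)
  simp only [cv, ← integral_mul_const, ← integral_const_mul]
  rw [integral_integral_swap (f := fun y z => k' (x - y) * (k (y - z) * g z)) hi]
  refine integral_congr_ae (Eventually.of_forall fun z => ?_)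
  simp only
  rw [← integral_add_right_eq_self _ z]
  refine integral_congr_ae (Eventually.of_forall fun w => ?_)
  simp only
  rw [add_sub_cancel_right, show x - (w + z) = x - z - w by abel, mul_assoc]

theorem CONV : St_CONV := by
  intro N p hp
  refine ⟨fun g hg => ⟨CONV_shift hp hg, CONV_cont hp hg⟩, fun k hk => ⟨?_, fun g hg =>
    ⟨CONV_int hp hk hg, CONV_cvcont hp hk hg, (CONV_young hp hk hg).1, (CONV_young hp hk hg).2,
      CONV_diff hp hk hg, fun q h hpq hh => CONV_adj hpq hk hg hh,
      fun k' hk' => ⟨CONV_ker hk hk', CONV_assoc hp hk hk' hg⟩⟩⟩⟩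
  obtain ⟨C, h0, hC⟩ := CONV_sup hp hk
  exact ⟨C, h0, fun g hg x => (norm_integral_le_integral_norm _).trans (hC g hg x)⟩

end Pool.Agent.Lib.MP_13801a_an.ND
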