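import Mathlib
import Pool.Agent.Lib.MP_13801a_an.ND.StsA

/-!
The dispersive estimate for the heat kernel at complex time, by the three lines theorem.
-/

open MeasureTheory Set Filter
open scoped Topology ComplexConjugate

namespace Pool.Agent.Lib.MP_13801a_an.ND

noncomputable section

variable {N : ℕ}

theorem DISPE_norm_exp (a : ℂ) {s Λ : ℝ} (hs : |s| ≤ Λ) :
    ‖Complex.exp (a * s)‖ ≤ Real.exp (|a.re| * Λ) := by
  rw [Complex.norm_exp, Real.exp_le_exp]
  simp only [Complex.mul_re, Complex.ofReal_re, Complex.ofReal_im, mul_zero, sub_zero]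
  calc a.re * s ≤ |a.re * s| := le_abs_self _
    _ = |a.re| * |s| := abs_mul _ _
    _ ≤ |a.re| * Λ := mul_le_mul_of_nonneg_left hs (abs_nonneg _)

theorem DISPE_int {X : Type} [MeasurableSpace X] {μ : Measure X} {W : X → ℂ} {S : X → ℝ} {Λ : ℝ}
    (hW : Integrable W μ) (hS : AEStronglyMeasurable S μ) (hb : ∀ u, |S u| ≤ Λ) (a : ℂ) :
    (Integrable (fun u => W u * Complex.exp (a * S u)) μ) ∧
      ‖∫ u, W u * Complex.exp (a * S u) ∂μ‖ ≤ (∫ u, ‖W u‖ ∂μ) * Real.exp (|a.re| * Λ) := by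
  have hm : AEStronglyMeasurable (fun u => W u * Complex.exp (a * S u)) μ :=
    hW.1.mul ((Complex.continuous_exp.comp (continuous_const.mul
      Complex.continuous_ofReal)).comp_aestronglyMeasurable hS)
  have hle : ∀ u, ‖W u * Complex.exp (a * S u)‖ ≤ ‖W u‖ * Real.exp (|a.re| * Λ) := fun u => by
    rw [norm_mul]
    exact mul_le_mul_of_nonneg_left (DISPE_norm_exp a (hb u)) (norm_nonneg _)
  refine ⟨(hW.norm.mul_const _).mono' hm (Eventually.of_forall hle), ?_⟩
  rw [← integral_mul_const]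
  exact norm_integral_le_of_norm_le (hW.norm.mul_const _) (Eventually.of_forall hle)

theorem DISPE_diff {X : Type} [MeasurableSpace X] {μ : Measure X} {W : X → ℂ} {S : X → ℝ} {Λ : ℝ}
    (hW : Integrable W μ) (hS : AEStronglyMeasurable S μ) (hb : ∀ u, |S u| ≤ Λ) :
    Differentiable ℂ fun a : ℂ => ∫ u, W u * Complex.exp (a * S u) ∂μ := by
  intro a0
  have h := hasDerivAt_integral_of_dominated_loc_of_deriv_le (μ := μ) (x₀ := a0)
    (F := fun a u => W u * Complex.exp (a * S u))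
    (F' := fun a u => W u * Complex.exp (a * S u) * S u)
    (bound := fun u => ‖W u‖ * (Real.exp ((‖a0‖ + 1) * Λ) * Λ)) (Metric.ball_mem_nhds a0 one_pos)
    (Eventually.of_forall fun a => (DISPE_int hW hS hb a).1.1) (DISPE_int hW hS hb a0).1
    ((DISPE_int hW hS hb a0).1.1.mul (Complex.continuous_ofReal.comp_aestronglyMeasurable hS))
    (Eventually.of_forall fun u a ha => ?_) (hW.norm.mul_const _)
    (Eventually.of_forall fun u a _ => ?_)
  · exact h.2.differentiableAt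
  · have hΛ : 0 ≤ Λ := (abs_nonneg _).trans (hb u)
    have h1 : |a.re| ≤ ‖a0‖ + 1 := by
      have h2 := Complex.abs_re_le_norm a
      have h3 := norm_le_norm_add_norm_sub' a a0
      have h4 := mem_ball_iff_norm.1 ha
      linarith
    rw [norm_mul, norm_mul, mul_assoc, Complex.norm_real, Real.norm_eq_abs]
    refine mul_le_mul_of_nonneg_left (mul_le_mul ((DISPE_norm_exp a (hb u)).trans ?_) (hb u)
      (abs_nonneg _) (Real.exp_pos _).le) (norm_nonneg _)
    exact Real.exp_le_exp.2 (mul_le_mul_of_nonneg_right h1 hΛ)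
  · have h1 := (((hasDerivAt_id a).mul_const (S u : ℂ)).cexp).const_mul (W u)
    simpa [mul_assoc] using h1

/-- The analytic family of functions. -/
def DISPE_tw (a : ℂ) (f : E N → ℂ) (x : E N) : ℂ := f x * Complex.exp (a * (Real.log ‖f x‖ : ℝ))

theorem DISPE_log_meas {f : E N → ℂ} (hf : AEStronglyMeasurable f volume) :
    AEStronglyMeasurable (fun x => Real.log ‖f x‖) volume :=
  (Real.measurable_log.comp_aemeasurable hf.norm.aemeasurable).aestronglyMeasurable

theorem DISPE_tw_meas (a : ℂ) {f : E N → ℂ} (hf : AEStronglyMeasurable f volume) :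
    AEStronglyMeasurable (DISPE_tw a f) volume :=
  hf.mul ((Complex.continuous_exp.comp (continuous_const.mul
      Complex.continuous_ofReal)).comp_aestronglyMeasurable (DISPE_log_meas hf))

theorem DISPE_tw_norm {a : ℂ} (ha : 1 + a.re ≠ 0) (f : E N → ℂ) (x : E N) :
    ‖DISPE_tw a f x‖ = ‖f x‖ ^ (1 + a.re) := by
  rcases (norm_nonneg (f x)).eq_or_lt with h | h
  · rw [DISPE_tw, norm_mul, ← h, zero_mul, Real.zero_rpow ha]
  · rw [DISPE_tw, norm_mul, Complex.norm_exp, Real.rpow_add h, Real.rpow_one,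
      Real.rpow_def_of_pos h]
    simp [mul_comm]

theorem DISPE_all {Λ q : ℝ} (hq : 0 < q) {f : E N → ℂ} (hf : Mem q f)
    (hb : ∀ x, |Real.log ‖f x‖| ≤ Λ) {s : ℝ} (hs : 0 < s) : Mem s f := by
  refine mem_of_integrable_rpow hs hf.1 (((hf.integrable_rpow hq).mul_const
    (Real.exp (|s - q| * Λ))).mono' ?_ (Eventually.of_forall fun x => ?_))
  · exact (hf.1.norm.aemeasurable.pow_const s).aestronglyMeasurable
  · rw [Real.norm_of_nonneg (by positivity)]
    rcases (norm_nonneg (f x)).eq_or_lt with h | h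
    · rw [← h, Real.zero_rpow hs.ne', Real.zero_rpow hq.ne', zero_mul]
    · rw [show s = q + (s - q) by ring, Real.rpow_add h, Real.rpow_def_of_pos h (s - q),
        add_sub_cancel_left]
      refine mul_le_mul_of_nonneg_left (Real.exp_le_exp.2 ?_) (by positivity)
      calc Real.log ‖f x‖ * (s - q) ≤ |Real.log ‖f x‖ * (s - q)| := le_abs_self _
        _ = |s - q| * |Real.log ‖f x‖| := by rw [abs_mul, mul_comm]
        _ ≤ |s - q| * Λ := mul_le_mul_of_nonneg_left (hb x) (abs_nonneg _)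

theorem DISPE_one {f : E N → ℂ} (hf : Mem 1 f) : Integrable f := by
  rw [← memLp_one_iff_integrable]
  simpa [Mem] using hf

theorem DISPE_prod {k : E N → ℂ} (hk : Continuous k) {M : ℝ} (hM : ∀ y, ‖k y‖ ≤ M)
    {f g : E N → ℂ} (hf : Integrable f) (hg : Integrable g) :
    (Integrable (fun u : E N × E N => k (u.1 - u.2) * f u.2 * g u.1) (volume.prod volume)) ∧
      (∫ u : E N × E N, k (u.1 - u.2) * f u.2 * g u.1 ∂(volume.prod volume) =
        ∫ x, cv k f x * g x) ∧
      ‖∫ x, cv k f x * g x‖ ≤ M * ((∫ x, ‖f x‖) * ∫ x, ‖g x‖) := by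
  have hd := (hg.norm.mul_prod hf.norm).const_mul M
  have hle : ∀ u : E N × E N, ‖k (u.1 - u.2) * f u.2 * g u.1‖ ≤ M * (‖g u.1‖ * ‖f u.2‖) :=
    fun u => by
      rw [norm_mul, norm_mul, mul_assoc, mul_comm ‖f u.2‖]
      exact mul_le_mul_of_nonneg_right (hM _) (by positivity)
  have hi : Integrable (fun u : E N × E N => k (u.1 - u.2) * f u.2 * g u.1)
      (volume.prod volume) :=
    hd.mono' (((hk.comp (continuous_fst.sub continuous_snd)).aestronglyMeasurable.mul
      hf.1.comp_snd).mul hg.1.comp_fst) (Eventually.of_forall hle)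
  have he : ∫ u : E N × E N, k (u.1 - u.2) * f u.2 * g u.1 ∂(volume.prod volume) =
      ∫ x, cv k f x * g x := by
    rw [integral_prod _ hi]
    simp only [cv, integral_mul_const]
  refine ⟨hi, he, ?_⟩
  rw [← he]
  refine (norm_integral_le_of_norm_le hd (Eventually.of_forall hle)).trans_eq ?_
  rw [integral_const_mul, integral_prod_mul (fun x => ‖g x‖) (fun x => ‖f x‖), mul_comm (∫ x, ‖g x‖)]

/-- The bilinear estimate for functions with bounded logarithm of the modulus. -/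
theorem DISPE_bil {k : E N → ℂ} (hk : Continuous k) {M : ℝ} (hM : ∀ y, ‖k y‖ ≤ M)
    (h2 : ∀ f, Mem 2 f → Mem 2 (cv k f) ∧ nr 2 (cv k f) ≤ nr 2 f) {q Λ : ℝ} (hq : 1 < q)
    (hq2 : q ≤ 2) {f g : E N → ℂ} (hf : Mem q f) (hg : Mem q g)
    (bf : ∀ x, |Real.log ‖f x‖| ≤ Λ) (bg : ∀ x, |Real.log ‖g x‖| ≤ Λ) :
    ‖∫ x, cv k f x * g x‖ ≤ M ^ (2 / q - 1) * (nr q f * nr q g) := by
  have hq0 : 0 < q := by linarith
  have hM0 : 0 ≤ M := (norm_nonneg _).trans (hM 0)
  have f1 := DISPE_one (DISPE_all hq0 hf bf one_pos)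
  have g1 := DISPE_one (DISPE_all hq0 hg bg one_pos)
  have hW := (DISPE_prod hk hM f1 g1).1
  have hS : AEStronglyMeasurable (fun u : E N × E N => Real.log ‖f u.2‖ + Real.log ‖g u.1‖)
      (volume.prod volume) := (DISPE_log_meas hf.1).comp_snd.add (DISPE_log_meas hg.1).comp_fst
  have hb : ∀ u : E N × E N, |Real.log ‖f u.2‖ + Real.log ‖g u.1‖| ≤ Λ + Λ := fun u =>
    (abs_add_le _ _).trans (add_le_add (bf _) (bg _))
  have hΛ : 0 ≤ Λ := (abs_nonneg _).trans (bf 0)
  set G : ℂ → ℂ := fun a => ∫ u : E N × E N, k (u.1 - u.2) * f u.2 * g u.1 *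
    Complex.exp (a * (Real.log ‖f u.2‖ + Real.log ‖g u.1‖ : ℝ)) ∂(volume.prod volume) with hG
  have hGe : ∀ a, G a = ∫ x, cv k (DISPE_tw a f) x * DISPE_tw a g x := fun a => by
    rw [← (DISPE_prod hk hM (f := DISPE_tw a f) (g := DISPE_tw a g)
      (DISPE_int f1 (DISPE_log_meas hf.1) bf a).1
      (DISPE_int g1 (DISPE_log_meas hg.1) bg a).1).2.1]
    refine integral_congr_ae (Eventually.of_forall fun u => ?_)
    simp only [DISPE_tw, Complex.ofReal_add, mul_add, Complex.exp_add]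
    ring
  set A := ∫ x, ‖f x‖ ^ q with hA
  set B := ∫ x, ‖g x‖ ^ q with hB
  have hA0 : 0 ≤ A := integral_nonneg fun _ => by positivity
  have hB0 : 0 ≤ B := integral_nonneg fun _ => by positivity
  have two : ∀ (a : ℂ) (φ : E N → ℂ), a.re = q / 2 - 1 → Mem q φ →
      Mem 2 (DISPE_tw a φ) ∧ nr 2 (DISPE_tw a φ) = (∫ x, ‖φ x‖ ^ q) ^ (1 / 2 : ℝ) := by
    intro a φ ha hφ
    have e : ∀ x, ‖DISPE_tw a φ x‖ ^ (2 : ℝ) = ‖φ x‖ ^ q := fun x => by
      rw [DISPE_tw_norm (by rw [ha]; linarith), ← Real.rpow_mul (norm_nonneg _), ha]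
      congr 1
      ring
    refine ⟨mem_of_integrable_rpow two_pos (DISPE_tw_meas a hφ.1) ?_, ?_⟩
    · simp only [e]
      exact hφ.integrable_rpow hq0
    · rw [nr_eq two_pos (DISPE_tw_meas a hφ.1), one_div]
      simp only [e]
  have key := Complex.HadamardThreeLines.norm_le_interp_of_mem_verticalClosedStrip' (f := G)
    (z := 0) (a := (A * B) ^ (1 / 2 : ℝ)) (b := M * (A * B)) (l := q / 2 - 1) (u := q - 1)
    (by linarith) ⟨by simp; linarith, by simp; linarith⟩ (DISPE_diff hW hS hb).diffContOnCl ?_ ?_ ?_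
  · have e0 : G 0 = ∫ x, cv k f x * g x := by
      rw [← (DISPE_prod hk hM f1 g1).2.1]
      simp [hG]
    have e1 : ((0 : ℂ).re - (q / 2 - 1)) / (q - 1 - (q / 2 - 1)) = 2 / q - 1 := by
      rw [Complex.zero_re, show q - 1 - (q / 2 - 1) = q / 2 by ring]
      field_simp
      ring
    have h1 : 0 ≤ 2 / q - 1 := by
      rw [sub_nonneg, le_div_iff₀ hq0]
      linarith
    have h3 : 0 ≤ 1 / 2 * (1 - (2 / q - 1)) := by
      have : 2 / q ≤ 2 := by
        rw [div_le_iff₀ hq0]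
        linarith
      linarith
    rw [e0, e1, Real.mul_rpow hM0 (mul_nonneg hA0 hB0), ← Real.rpow_mul (mul_nonneg hA0 hB0),
      mul_left_comm, ← Real.rpow_add_of_nonneg (mul_nonneg hA0 hB0) h3 h1,
      show 1 / 2 * (1 - (2 / q - 1)) + (2 / q - 1) = q⁻¹ by field_simp; ring,
      Real.mul_rpow hA0 hB0] at key
    rwa [nr_eq hq0 hf.1, nr_eq hq0 hg.1]
  · refine ⟨(∫ u : E N × E N, ‖k (u.1 - u.2) * f u.2 * g u.1‖ ∂(volume.prod volume)) *
      Real.exp (1 * (Λ + Λ)), ?_⟩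
    rintro _ ⟨a, ha, rfl⟩
    refine (DISPE_int hW hS hb a).2.trans (mul_le_mul_of_nonneg_left (Real.exp_le_exp.2
      (mul_le_mul_of_nonneg_right ?_ (by linarith))) (integral_nonneg fun _ => norm_nonneg _))
    have h1 : q / 2 - 1 ≤ a.re := ha.1
    have h3 : a.re ≤ q - 1 := ha.2
    rw [abs_le]
    constructor <;> linarith
  · intro a ha
    obtain ⟨m1, n1⟩ := two a f ha hf
    obtain ⟨m2, n2⟩ := two a g ha hg
    rw [hGe, Real.mul_rpow hA0 hB0, ← n1, ← n2]
    exact (holder_norm Real.HolderConjugate.two_two (h2 _ m1).1 m2).trans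
      (mul_le_mul_of_nonneg_right (h2 _ m1).2 (nr_nonneg _ _))
  · intro a ha
    have ha' : a.re = q - 1 := ha
    have e : ∀ (φ : E N → ℂ) x, ‖DISPE_tw a φ x‖ = ‖φ x‖ ^ q := fun φ x => by
      rw [DISPE_tw_norm (by rw [ha']; linarith), ha', add_sub_cancel]
    have h1 := (DISPE_prod hk hM (f := DISPE_tw a f) (g := DISPE_tw a g)
      (DISPE_int f1 (DISPE_log_meas hf.1) bf a).1
      (DISPE_int g1 (DISPE_log_meas hg.1) bg a).1).2.2
    rw [hGe]
    simpa only [e] using h1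

/-- Truncation. -/
def DISPE_tr (n : ℕ) (f : E N → ℂ) (x : E N) : ℂ := if |Real.log ‖f x‖| ≤ n then f x else 0

theorem DISPE_tr_le (n : ℕ) (f : E N → ℂ) (x : E N) : ‖DISPE_tr n f x‖ ≤ ‖f x‖ := by
  unfold DISPE_tr
  split_ifs <;> simp

theorem DISPE_tr_log (n : ℕ) (f : E N → ℂ) (x : E N) : |Real.log ‖DISPE_tr n f x‖| ≤ n := by
  unfold DISPE_tr
  split_ifs with h
  · exact h
  · simp

theorem DISPE_tr_mem {q : ℝ} (n : ℕ) {f : E N → ℂ} (hf : Mem q f) : Mem q (DISPE_tr n f) := by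
  have hm : Measurable fun z : ℂ => if |Real.log ‖z‖| ≤ n then z else 0 :=
    Measurable.ite (measurableSet_le (Real.measurable_log.comp measurable_norm).abs
      measurable_const) measurable_id measurable_const
  exact MemLp.of_le hf (hm.comp_aemeasurable hf.1.aemeasurable).aestronglyMeasurable
    (Eventually.of_forall (DISPE_tr_le n f))

theorem DISPE_tr_lim {f w : E N → ℂ} {q : ℝ} (hf : Mem q f) (hw : AEStronglyMeasurable w volume)
    (hi : Integrable fun x => w x * f x) :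
    Tendsto (fun n => ∫ x, w x * DISPE_tr n f x) atTop (𝓝 (∫ x, w x * f x)) := by
  refine tendsto_integral_of_dominated_convergence _ (fun n => hw.mul (DISPE_tr_mem n hf).1)
    hi.norm (fun n => Eventually.of_forall fun x => ?_) (Eventually.of_forall fun x => ?_)
  · rw [norm_mul, norm_mul]
    exact mul_le_mul_of_nonneg_left (DISPE_tr_le n f x) (norm_nonneg _)
  · refine tendsto_const_nhds.congr' ?_
    filter_upwards [tendsto_natCast_atTop_atTop.eventually_ge_atTop |Real.log ‖f x‖|] with n hn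
    rw [DISPE_tr, if_pos hn]

/-- Duality. -/
theorem DISPE_dual {p q c : ℝ} (hpq : p.HolderConjugate q) (hc : 0 ≤ c) {F : E N → ℂ}
    (hF : Mem p F) (h : ∀ g, Mem q g → ‖∫ x, F x * g x‖ ≤ c * nr q g) : nr p F ≤ c := by
  have hp := hpq.pos
  have hq := hpq.symm.pos
  set g : E N → ℂ := fun x => conj (F x) * ((‖F x‖ ^ (p - 2) : ℝ) : ℂ) with hg
  have hp1 : p - 1 ≠ 0 := hpq.sub_one_ne_zero
  have e1 : ∀ x, ‖g x‖ ^ q = ‖F x‖ ^ p := fun x => by
    have e : ‖g x‖ = ‖F x‖ ^ (p - 1) := by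
      rw [hg, show p - 1 = 1 + (p - 2) by ring,
        Real.rpow_add' (norm_nonneg _) (by rwa [show 1 + (p - 2) = p - 1 by ring])]
      simp [abs_of_nonneg (Real.rpow_nonneg (norm_nonneg (F x)) (p - 2))]
    rw [e, ← Real.rpow_mul (norm_nonneg _), hpq.sub_one_mul_conj]
  have e2 : ∀ x, F x * g x = ((‖F x‖ ^ p : ℝ) : ℂ) := fun x => by
    rw [hg]
    simp only
    rw [← mul_assoc, Complex.mul_conj, Complex.normSq_eq_norm_sq, ← Complex.ofReal_mul,
      ← Real.rpow_two, ← Real.rpow_add' (norm_nonneg _) (by simpa using hp.ne')]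
    simp
  have hm : AEStronglyMeasurable g volume :=
    (Complex.continuous_conj.comp_aestronglyMeasurable hF.1).mul
      (Complex.continuous_ofReal.comp_aestronglyMeasurable
        (hF.1.norm.aemeasurable.pow_const _).aestronglyMeasurable)
  have hgq : Mem q g := mem_of_integrable_rpow hq hm (by
    simp only [e1]
    exact hF.integrable_rpow hp)
  have h1 := h g hgq
  set I := ∫ x, ‖F x‖ ^ p with hI
  have hI0 : 0 ≤ I := integral_nonneg fun _ => by positivity
  rw [nr_eq hq hm] at h1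
  simp only [e1, e2, integral_complex_ofReal] at h1
  rw [← hI, Complex.norm_real, Real.norm_of_nonneg hI0] at h1
  rw [nr_eq hp hF.1, ← hI]
  rcases hI0.eq_or_lt with h0 | h0
  · rw [← h0, Real.zero_rpow (inv_ne_zero hp.ne')]
    exact hc
  · refine le_of_mul_le_mul_right ?_ (Real.rpow_pos_of_pos h0 q⁻¹)
    rwa [← Real.rpow_add h0, hpq.inv_add_inv_eq_one, Real.rpow_one]

/-- Interpolation for convolution operators. -/
theorem DISPE_interp (h1 : St_CONV) {k : E N → ℂ} (hK : Ker k) (hk : Continuous k) {M : ℝ}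
    (hM : ∀ y, ‖k y‖ ≤ M) (h2 : ∀ f, Mem 2 f → Mem 2 (cv k f) ∧ nr 2 (cv k f) ≤ nr 2 f)
    {p q : ℝ} (hp : 2 ≤ p) (hpq : p.HolderConjugate q) {f : E N → ℂ} (hf : Mem q f) :
    Mem p (cv k f) ∧ nr p (cv k f) ≤ M ^ (2 / q - 1) * nr q f := by
  have hq : 1 < q := hpq.symm.lt
  have hq2 : q ≤ 2 := by
    have e := hpq.symm.conjugate_eq
    have hp1 : 0 < q - 1 := by linarith
    rw [e, le_div_iff₀ hp1] at hp
    linarith
  have hM0 : 0 ≤ M ^ (2 / q - 1) := Real.rpow_nonneg ((norm_nonneg _).trans (hM 0)) _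
  have hc : 0 ≤ M ^ (2 / q - 1) * nr q f := mul_nonneg hM0 (nr_nonneg _ _)
  have step : ∀ n : ℕ, Mem p (cv k (DISPE_tr n f)) ∧
      nr p (cv k (DISPE_tr n f)) ≤ M ^ (2 / q - 1) * nr q f := fun n => by
    have hn := DISPE_tr_mem n hf
    have hF : Mem p (cv k (DISPE_tr n f)) := (((h1 N p (by linarith)).2 k hK).2 _
      (DISPE_all (by linarith) hn (DISPE_tr_log n f) hpq.pos)).2.2.1
    refine ⟨hF, DISPE_dual hpq hc hF fun g hg => ?_⟩
    refine le_of_tendsto (DISPE_tr_lim hg hF.1 (holder_integrable hpq hF hg)).norm ?_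
    filter_upwards [eventually_ge_atTop n] with m hm
    refine (DISPE_bil hk hM h2 hq hq2 hn (DISPE_tr_mem m hg)
      (fun x => (DISPE_tr_log n f x).trans (Nat.cast_le.2 hm)) (DISPE_tr_log m g)).trans ?_
    rw [mul_assoc]
    exact mul_le_mul_of_nonneg_left (mul_le_mul (nr_mono hf (DISPE_tr_le n f))
      (nr_mono hg (DISPE_tr_le m g)) (nr_nonneg _ _) (nr_nonneg _ _)) hM0
  obtain ⟨hi, hcont, -⟩ := ((h1 N q hq.le).2 k hK).2 f hf
  have hle : eLpNorm (cv k f) (ENNReal.ofReal p) volume ≤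
      ENNReal.ofReal (M ^ (2 / q - 1) * nr q f) := by
    refine Lp.eLpNorm_le_of_ae_tendsto (u := atTop) (f := fun n => cv k (DISPE_tr n f))
      (Eventually.of_forall fun n => ?_) (fun n => (step n).1.1) (Eventually.of_forall fun x => ?_)
    · rw [← ofReal_lpNorm (step n).1]
      exact ENNReal.ofReal_le_ofReal (step n).2
    · exact DISPE_tr_lim hf (hk.comp (continuous_const.sub continuous_id)).aestronglyMeasurable
        (hi x)
  refine ⟨⟨hcont.aestronglyMeasurable, hle.trans_lt ENNReal.ofReal_lt_top⟩, ?_⟩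
  rw [nr, ← toReal_eLpNorm hcont.aestronglyMeasurable]
  exact ENNReal.toReal_le_of_le_ofReal hc hle

/-- The contraction property in `L2`. -/
theorem DISPE_two (h1 : St_CONV) (h2 : St_GK) {z : ℂ} (hz : 0 < z.re) (f : E N → ℂ)
    (hf : Mem 2 f) : Mem 2 (cv (GK z) f) ∧ nr 2 (cv (GK z) f) ≤ nr 2 f := by
  obtain ⟨-, hs, hz'⟩ := h2 N
  have hzc : 0 < (conj z).re := by simpa using hz
  obtain ⟨K1, -, ev, cj, -, -, -, -, sg⟩ := hz' z hz
  have K2 := (hz' _ hzc).1
  have C := (h1 N 2 one_le_two).2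
  set f' : E N → ℂ := fun x => conj (f x) with hf'
  have mf' : Mem 2 f' := MemLp.of_le hf (Complex.continuous_conj.comp_aestronglyMeasurable hf.1)
    (Eventually.of_forall fun x => by simp [hf'])
  have nf' : nr 2 f' ≤ nr 2 f := nr_mono hf fun x => by simp [hf']
  obtain ⟨-, -, mF, -, -, adj, -⟩ := (C _ K1).2 f hf
  obtain ⟨-, -, mF', -, -, -, asc⟩ := (C _ K2).2 f' mf'
  refine ⟨mF, ?_⟩
  have e1 : ∀ x, cv (GK (conj z)) f' x = conj (cv (GK z) f x) := fun x => by
    simp only [cv, hf', ← integral_conj, map_mul, cj]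
  have hs0 : 0 < 2 * z.re := by linarith
  have e2 : ∀ x, cv (fun y => GK z (-y)) (cv (GK (conj z)) f') x =
      cv (GK ((2 * z.re : ℝ) : ℂ)) f' x := fun x => by
    simp only [ev]
    rw [(asc _ K1).2 x, funext (sg _ hzc), Complex.add_conj]
  have K3 : Ker (GK ((2 * z.re : ℝ) : ℂ) : E N → ℂ) := (hz' _ (by simpa using hz)).1
  obtain ⟨-, -, mH, yH, -⟩ := (C _ K3).2 f' mf'
  obtain ⟨a1, a2, a3, -⟩ := hs _ hs0
  have e3 : ∫ y : E N, ‖GK ((2 * z.re : ℝ) : ℂ) y‖ = 1 := by
    rw [← a3]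
    refine integral_congr_ae (Eventually.of_forall fun y => ?_)
    simp only [a1, Complex.norm_real, Real.norm_of_nonneg (a2 y)]
  rw [e3, one_mul] at yH
  have e4 := adj 2 _ Real.HolderConjugate.two_two mF'
  simp only [e1, e2, Complex.mul_conj, Complex.normSq_eq_norm_sq, integral_complex_ofReal] at e4
  have e5 := holder_norm Real.HolderConjugate.two_two hf mH
  rw [← e4, Complex.norm_real, Real.norm_of_nonneg (integral_nonneg fun _ => by positivity)] at e5
  refine le_of_sq_le_sq ?_ (nr_nonneg _ _)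
  rw [nr_two_sq mF.1, sq]
  exact e5.trans (mul_le_mul_of_nonneg_left (yH.trans nf') (nr_nonneg _ _))

theorem DISPE (h1 : St_CONV) (h2 : St_GK) : St_DISPE := by
  intro N p q hp hpq z hz f hf
  obtain ⟨K1, sm, -, -, nm, -⟩ := (h2 N).2.2 z hz
  have hz0 : 0 < ‖z‖ := hz.trans_le (Complex.re_le_norm z)
  have hM : ∀ y : E N, ‖GK z y‖ ≤ ‖z‖ ^ (-(N : ℝ) / 2) := fun y => by
    rw [nm]
    refine (mul_le_of_le_one_right (by positivity) (Real.exp_le_one_iff.2 ?_)).trans
      (Real.rpow_le_rpow_of_nonpos hz0 ?_ ?_)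
    · have : 0 ≤ z.re / ‖z‖ ^ 2 * ‖y‖ ^ 2 := by positivity
      linarith
    · nlinarith [Real.pi_gt_three]
    · have : (0 : ℝ) ≤ N := Nat.cast_nonneg N
      linarith
  have h := DISPE_interp h1 K1 sm.continuous hM (DISPE_two h1 h2 hz) hp hpq hf
  rw [← Real.rpow_mul hz0.le] at h
  have e : -(N : ℝ) / 2 * (2 / q - 1) = -(N * (1 / 2 - 1 / p)) := by
    have e1 := hpq.inv_add_inv_eq_one
    rw [div_eq_mul_inv 2 q, one_div p, show q⁻¹ = 1 - p⁻¹ by linarith]
    ring
  rwa [e] at h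

end

end Pool.Agent.Lib.MP_13801a_an.ND
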