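import Mathlib
import Pool.Agent.Lib.MP_13801a_an.ND.StsA

/-!
The commutator estimate for the truncated nonlinearity.
-/

open MeasureTheory Set Filter
open scoped ContDiff Topology ComplexConjugate

namespace Pool.Agent.Lib.MP_13801a_an.ND

variable {N : ℕ}

/-- Square integrable functions with a linear bound for the translation modulus. -/
def EN1_TB (u : E N → ℂ) (A : ℝ) : Prop := Mem 2 u ∧ ∀ y, nr 2 (sh y u) ≤ A * ‖y‖

theorem EN1_mem_sh (h1 : St_CONV) {u : E N → ℂ} (hu : Mem 2 u) (y : E N) : Mem 2 (sh y u) :=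
  Mem.sub (((h1 N 2 one_le_two).1 u hu).1 y).1 hu

theorem EN1_mem_lip {G : ℂ → ℂ} {L : ℝ} (hG : ∀ z w, ‖G z - G w‖ ≤ L * ‖z - w‖) (hc : Continuous G)
    (h0 : G 0 = 0) {u : E N → ℂ} (hu : Mem 2 u) : Mem 2 fun x => G (u x) := by
  refine MemLp.of_le_mul (c := L) hu (hc.comp_aestronglyMeasurable hu.1) ?_
  refine Eventually.of_forall fun x => ?_
  simpa [h0] using hG (u x) 0

theorem EN1_nr_lip {G : ℂ → ℂ} {L : ℝ} (hL : 0 ≤ L) (hG : ∀ z w, ‖G z - G w‖ ≤ L * ‖z - w‖)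
    {u v : E N → ℂ} (huv : Mem 2 fun x => u x - v x) :
    nr 2 (fun x => G (u x) - G (v x)) ≤ L * nr 2 fun x => u x - v x := by
  have hm : Mem 2 fun x => (L : ℂ) * (u x - v x) := MemLp.const_mul huv _
  have h := nr_mono (f := fun x => G (u x) - G (v x)) hm fun x => by
    rw [norm_mul, Complex.norm_real, Real.norm_of_nonneg hL]
    exact hG _ _
  rwa [nr_const_mul, Complex.norm_real, Real.norm_of_nonneg hL] at h

theorem EN1_TB_lip (h1 : St_CONV) {G : ℂ → ℂ} {L : ℝ} (hL : 0 ≤ L)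
    (hG : ∀ z w, ‖G z - G w‖ ≤ L * ‖z - w‖) (hc : Continuous G) (h0 : G 0 = 0) {u : E N → ℂ}
    {A : ℝ} (hu : EN1_TB u A) : EN1_TB (fun x => G (u x)) (L * A) := by
  refine ⟨EN1_mem_lip hG hc h0 hu.1, fun y => ?_⟩
  have h := EN1_nr_lip hL hG (u := fun x => u (x + y)) (v := u) (EN1_mem_sh h1 hu.1 y)
  refine h.trans ?_
  rw [mul_assoc]
  exact mul_le_mul_of_nonneg_left (hu.2 y) hL

theorem EN1_cv_sub (h1 : St_CONV) {k u v : E N → ℂ} (hk : Ker k) (hu : Mem 2 u) (hv : Mem 2 v)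
    (x : E N) : cv k (fun y => u y - v y) x = cv k u x - cv k v x := by
  have a := ((((h1 N 2 one_le_two).2 k hk).2 u hu).1 x)
  have b := ((((h1 N 2 one_le_two).2 k hk).2 v hv).1 x)
  simp only [cv, mul_sub]
  exact integral_sub a b

theorem EN1_sh_cv (h1 : St_CONV) {k u : E N → ℂ} (hk : Ker k) (hu : Mem 2 u) (y : E N) :
    sh y (cv k u) = cv k (sh y u) := by
  funext x
  have a := EN1_cv_sub h1 hk (((h1 N 2 one_le_two).1 u hu).1 y).1 hu x
  have b : cv k u (x + y) = cv k (fun z => u (z + y)) x := by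
    simp only [cv]
    rw [← integral_add_right_eq_self (fun z => k (x + y - z) * u z) y]
    congr 1
    funext z
    rw [add_sub_add_right_eq_sub]
  change cv k u (x + y) - cv k u x = cv k (fun z => u (z + y) - u z) x
  rw [a, b]

theorem EN1_TB_cv (h1 : St_CONV) {k u : E N → ℂ} (hk : Ker k) (hk1 : ∫ y, ‖k y‖ = 1) {A : ℝ}
    (hu : EN1_TB u A) : EN1_TB (cv k u) A := by
  refine ⟨(((h1 N 2 one_le_two).2 k hk).2 u hu.1).2.2.1, fun y => ?_⟩
  rw [EN1_sh_cv h1 hk hu.1]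
  have h := (((h1 N 2 one_le_two).2 k hk).2 _ (EN1_mem_sh h1 hu.1 y)).2.2.2.1
  rw [hk1, one_mul] at h
  exact h.trans (hu.2 y)

theorem EN1_TB_sub (h1 : St_CONV) {u v : E N → ℂ} {A B : ℝ} (hu : EN1_TB u A) (hv : EN1_TB v B) :
    EN1_TB (fun x => u x - v x) (A + B) := by
  refine ⟨Mem.sub hu.1 hv.1, fun y => ?_⟩
  have e : sh y (fun x => u x - v x) = fun x => sh y u x - sh y v x := by
    funext x
    simp only [sh]
    ring
  rw [e, add_mul]
  exact (nr_sub_le one_le_two (EN1_mem_sh h1 hu.1 y)).trans (add_le_add (hu.2 y) (hv.2 y))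

theorem EN1_close (h1 : St_CONV) {k u : E N → ℂ} (hk : Ker k) {r A : ℝ} (hA : 0 ≤ A)
    (hs : ∀ y, r ≤ ‖y‖ → k y = 0) (hu : EN1_TB u A) :
    nr 2 (fun x => cv k u x - (∫ y, k y) * u x) ≤ (∫ y, ‖k y‖) * (A * r) := by
  refine (((h1 N 2 one_le_two).2 k hk).2 u hu.1).2.2.2.2.1.trans ?_
  rw [← integral_mul_const]
  refine integral_mono_of_nonneg (Eventually.of_forall fun y => ?_) (hk.1.norm.mul_const _)
    (Eventually.of_forall fun y => ?_)
  · exact mul_nonneg (norm_nonneg _) (nr_nonneg _ _)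
  · by_cases hy : r ≤ ‖y‖
    · simp [hs y hy]
    · refine mul_le_mul_of_nonneg_left ((hu.2 (-y)).trans ?_) (norm_nonneg _)
      rw [norm_neg]
      exact mul_le_mul_of_nonneg_left (not_le.1 hy).le hA

theorem EN1_comm (k k' : E N → ℂ) : cv k k' = cv k' k := by
  funext x
  simp only [cv]
  rw [← integral_sub_left_eq_self (fun y => k (x - y) * k' y) volume x]
  congr 1
  funext y
  rw [sub_sub_cancel, mul_comm]

theorem EN1_int_cr (k : E N → ℝ) : ∫ y, cr k y = ((∫ y, k y : ℝ) : ℂ) := integral_ofReal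

theorem EN1_norm_cr (k : E N → ℝ) (y : E N) : ‖cr k y‖ = |k y| := by simp [cr]

theorem EN1 (h1 : St_CONV) (h2 : St_MOL) (h3 : St_TL) (h4 : St_TRU) : St_EN1 := by
  intro N α m hα hm
  obtain ⟨C4, hC4, h4'⟩ := h4 α hα
  obtain ⟨hGc, -, hG0, hG, -⟩ := h4' m hm
  obtain ⟨hM, ⟨C2, hC2, hM2⟩, hM3, -⟩ := h2 N
  set L := C4 * m ^ α with hLdef
  have hL : 0 ≤ L := by positivity
  have hG00 : gm α m 0 = 0 := by simpa using hG0 0
  refine ⟨2 * L * C2, by positivity, fun g dg hg r η hr hη j => ?_⟩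
  set S := √(kin dg) with hS
  have hS0 : 0 ≤ S := Real.sqrt_nonneg _
  have hSS : S * S = kin dg := Real.mul_self_sqrt (kin_nonneg dg)
  have hgm : Mem 2 g := mem_two.2 hg.mem0
  have hdm : Mem 2 (dg j) := mem_two.2 (hg.mem1 j)
  have hTB : EN1_TB g S := by
    refine ⟨hgm, fun y => ?_⟩
    rw [nr_two (EN1_mem_sh h1 hgm y).1]
    refine (Real.sqrt_le_sqrt ((h3 N g dg hg).2 y)).trans (le_of_eq ?_)
    rw [Real.sqrt_mul (sq_nonneg _), Real.sqrt_sq (norm_nonneg _), mul_comm]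
  have hdS : nr 2 (dg j) ≤ S := by
    rw [nr_two hdm.1]
    exact Real.sqrt_le_sqrt (Finset.single_le_sum (f := fun i => ms (dg i))
      (fun i _ => ms_nonneg _) (Finset.mem_univ j))
  -- kernels
  have kerm : ∀ s : ℝ, 0 < s → Ker (cr (mol s : E N → ℝ)) := fun s hs => (hM3 _ (hM s hs).1).1
  have kerd : ∀ s : ℝ, 0 < s → Ker (cr (pd j (mol s : E N → ℝ))) := fun s hs =>
    (hM3 _ ((hM s hs).1.pd j)).1
  have nm1 : ∀ s : ℝ, 0 < s → ∫ y, ‖cr (mol s : E N → ℝ) y‖ = 1 := fun s hs => by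
    simp only [EN1_norm_cr, abs_of_nonneg ((hM s hs).2.1 _)]
    exact (hM s hs).2.2.1
  have nd1 : ∀ s : ℝ, 0 < s → ∫ y, ‖cr (pd j (mol s : E N → ℝ)) y‖ ≤ C2 / s := fun s hs => by
    simp only [EN1_norm_cr]
    exact hM2 s hs j
  have near : ∀ (u : E N → ℂ) (A : ℝ), 0 ≤ A → EN1_TB u A →
      nr 2 (fun x => cv (cr (mol r)) u x - u x) ≤ A * r := by
    intro u A hA hu
    have h := EN1_close h1 (kerm r hr) (r := r) hA
      (fun y hy => by simp [cr, (((hM r hr).2.2.2.2 j).2.2 y hy).1]) hu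
    rw [nm1 r hr, EN1_int_cr, (hM r hr).2.2.1] at h
    simpa using h
  have grad : ∀ (u : E N → ℂ) (A : ℝ), 0 ≤ A → EN1_TB u A →
      nr 2 (cv (cr (pd j (mol r))) u) ≤ A * C2 := by
    intro u A hA hu
    have h := EN1_close h1 (kerd r hr) (r := r) hA
      (fun y hy => by simp [cr, (((hM r hr).2.2.2.2 j).2.2 y hy).2]) hu
    rw [EN1_int_cr, ((hM r hr).2.2.2.2 j).2.1] at h
    simp only [Complex.ofReal_zero, zero_mul, sub_zero] at h
    refine h.trans ((mul_le_mul_of_nonneg_right (nd1 r hr) (by positivity)).trans (le_of_eq ?_))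
    field_simp
  -- the commutator
  have tGg : EN1_TB (fun y => gm α m (g y)) (L * S) := EN1_TB_lip h1 hL hG hGc hG00 hTB
  have tf : EN1_TB (cv (cr (mol r)) g) S := EN1_TB_cv h1 (kerm r hr) (nm1 r hr) hTB
  have tGf : EN1_TB (fun y => gm α m (cv (cr (mol r)) g y)) (L * S) :=
    EN1_TB_lip h1 hL hG hGc hG00 tf
  have tkG : EN1_TB (cv (cr (mol r)) fun y => gm α m (g y)) (L * S) :=
    EN1_TB_cv h1 (kerm r hr) (nm1 r hr) tGg
  have tg2 := EN1_TB_sub h1 tkG tGf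
  have ng2 : nr 2 (fun x => cv (cr (mol r)) (fun y => gm α m (g y)) x -
      gm α m (cv (cr (mol r)) g x)) ≤ 2 * L * S * r := by
    refine (nr_tri one_le_two tkG.1 tGg.1).trans ?_
    have a := near _ _ (by positivity) tGg
    have b := EN1_nr_lip hL hG (u := g) (v := cv (cr (mol r)) g) (Mem.sub hgm tf.1)
    have c := near _ _ hS0 hTB
    rw [nr_sub_comm] at c
    have d := mul_le_mul_of_nonneg_left c hL
    nlinarith
  have hcj : ∀ z w : ℂ, ‖conj z - conj w‖ ≤ 1 * ‖z - w‖ := fun z w => by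
    rw [← map_sub, Complex.norm_conj, one_mul]
  have tw := EN1_TB_lip h1 zero_le_one hcj Complex.continuous_conj (map_zero _) tg2
  have nw : nr 2 (fun x => conj (cv (cr (mol r)) (fun y => gm α m (g y)) x -
      gm α m (cv (cr (mol r)) g x))) ≤ 2 * L * S * r :=
    (nr_mono tg2.1 fun x => by rw [Complex.norm_conj]).trans ng2
  set w : E N → ℂ := fun x => conj (cv (cr (mol r)) (fun y => gm α m (g y)) x -
      gm α m (cv (cr (mol r)) g x)) with hw
  change ‖∫ x, w x * cv (cr (pd j (pd j (mol r)))) g x‖ ≤ _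
  clear_value w
  have hdd : Mem 2 (cv (cr (mol η)) (dg j)) := (((h1 N 2 one_le_two).2 _ (kerm η hη)).2 _ hdm).2.2.1
  have hem : Mem 2 fun x => cv (cr (mol η)) (dg j) x - dg j x := Mem.sub hdd hdm
  have hkd : Mem 2 (cv (cr (mol r)) (dg j)) := (((h1 N 2 one_le_two).2 _ (kerm r hr)).2 _ hdm).2.2.1
  have cvm : ∀ u, Mem 2 u → Mem 2 (cv (cr (pd j (mol r))) u) := fun u hu =>
    (((h1 N 2 one_le_two).2 _ (kerd r hr)).2 _ hu).2.2.1
  have split : ∀ x, cv (cr (pd j (pd j (mol r)))) g x =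
      cv (cr (pd j (mol r))) (cv (cr (mol η)) (dg j)) x -
        cv (cr (pd j (mol r))) (fun x => cv (cr (mol η)) (dg j) x - dg j x) x := by
    intro x
    rw [(hM3 _ ((hM r hr).1.pd j)).2.2 g dg hg j x, EN1_cv_sub h1 (kerd r hr) hdd hdm]
    ring
  have swap : cv (cr (pd j (mol r))) (cv (cr (mol η)) (dg j)) =
      cv (cr (pd j (mol η))) (cv (cr (mol r)) (dg j)) := by
    funext x
    have a := (hM3 _ (hM r hr).1).2.1 2 _ one_le_two hdd j x
    have b := (hM3 _ (hM η hη).1).2.1 2 _ one_le_two hkd j x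
    have e : cv (cr (mol r)) (cv (cr (mol η)) (dg j)) =
        cv (cr (mol η)) (cv (cr (mol r)) (dg j)) := by
      funext y
      rw [((((h1 N 2 one_le_two).2 _ (kerm η hη)).2 _ hdm).2.2.2.2.2.2 _ (kerm r hr)).2 y,
        ((((h1 N 2 one_le_two).2 _ (kerm r hr)).2 _ hdm).2.2.2.2.2.2 _ (kerm η hη)).2 y,
        EN1_comm (cr (mol r)) (cr (mol η))]
    rw [e] at a
    exact a.unique b
  have n2 : nr 2 (cv (cr (pd j (mol r))) (cv (cr (mol η)) (dg j))) ≤ C2 / η * S := by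
    rw [swap]
    refine (((h1 N 2 one_le_two).2 _ (kerd η hη)).2 _ hkd).2.2.2.1.trans ?_
    have a := (((h1 N 2 one_le_two).2 _ (kerm r hr)).2 _ hdm).2.2.2.1
    rw [nm1 r hr, one_mul] at a
    exact mul_le_mul (nd1 η hη) (a.trans hdS) (nr_nonneg _ _) (by positivity)
  have hc := Real.HolderConjugate.two_two
  have t2 : ‖∫ x, w x * cv (cr (pd j (mol r))) (cv (cr (mol η)) (dg j)) x‖ ≤
      2 * L * S * r * (C2 / η * S) :=
    (holder_norm hc tw.1 (cvm _ hdd)).trans (mul_le_mul nw n2 (nr_nonneg _ _) (by positivity))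
  have t1 : ‖∫ x, w x * cv (cr (pd j (mol r))) (fun x => cv (cr (mol η)) (dg j) x - dg j x) x‖ ≤
      √(ms fun x => cv (cr (mol η)) (dg j) x - dg j x) * (1 * (L * S + L * S) * C2) := by
    have a := (((h1 N 2 one_le_two).2 _ (kerd r hr)).2 _ hem).2.2.2.2.2.1 2 w hc tw.1
    have b : ∀ x, cv (fun y => cr (pd j (mol r)) (-y)) w x = -cv (cr (pd j (mol r))) w x := by
      intro x
      simp only [cv, cr, ((hM r hr).2.2.2.2 j).1, Complex.ofReal_neg, neg_mul, integral_neg]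
    simp only [b, mul_neg, integral_neg] at a
    simp only [mul_comm (w _)]
    rw [a, norm_neg, ← nr_two hem.1]
    exact (holder_norm hc hem (cvm _ tw.1)).trans
      (mul_le_mul_of_nonneg_left (grad _ _ (by positivity) tw) (nr_nonneg _ _))
  simp only [split, mul_sub]
  rw [integral_sub (holder_integrable hc tw.1 (cvm _ hdd)) (holder_integrable hc tw.1 (cvm _ hem))]
  refine (norm_sub_le _ _).trans ((add_le_add t2 t1).trans (le_of_eq ?_))
  rw [← hSS]
  ring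

end Pool.Agent.Lib.MP_13801a_an.ND
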