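import Mathlib
import Pool.Agent.Lib.MP_13801a_an.ND.StsA

/-!
The energy identity in all dimensions.
-/

open MeasureTheory Set Filter
open scoped ContDiff Topology ComplexConjugate

namespace Pool.Agent.Lib.MP_13801a_an.ND

variable {N : ℕ}

theorem ENER_hc {p q : ℝ} (hpq : p.HolderConjugate q) {f g : E N → ℂ} (hf : Mem p f)
    (hg : Mem q g) : (Integrable fun x => conj (f x) * g x) ∧
      ‖∫ x, conj (f x) * g x‖ ≤ nr p f * nr q g := by
  refine ⟨(holder hpq hf hg).1.mono'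
    ((Complex.continuous_conj.comp_aestronglyMeasurable hf.1).mul hg.1)
    (Eventually.of_forall fun x => by simp), ?_⟩
  exact (norm_integral_le_integral_norm _).trans (by simpa using (holder hpq hf hg).2)

theorem ENER_ms {a b : E N → ℂ} {θ B : ℝ} (ha : MemLp a 2 volume) (hb : MemLp b 2 volume)
    (h0 : 0 ≤ θ) (h1 : θ ≤ 1) (hB : 0 ≤ B) (hab : ms (fun x => a x - b x) ≤ θ ^ 2)
    (hbB : ms b ≤ B ^ 2) : √(ms a) ≤ B + 1 ∧ |ms a - ms b| ≤ (2 * B + 1) * θ := by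
  have h2 := abs_nr_sub_le one_le_two (mem_two.2 ha) (mem_two.2 hb)
  rw [nr_two (g := fun x => a x - b x) (ha.sub hb).1] at h2
  have h3 : |nr 2 a - nr 2 b| ≤ θ := h2.trans (Real.sqrt_le_iff.2 ⟨h0, hab⟩)
  have h4 : nr 2 b ≤ B := by
    rw [nr_two hb.1]
    exact Real.sqrt_le_iff.2 ⟨hB, hbB⟩
  have h5 : nr 2 a ≤ B + 1 := by linarith [(abs_le.1 h3).2]
  refine ⟨by rwa [← nr_two ha.1], ?_⟩
  rw [← nr_two_sq ha.1, ← nr_two_sq hb.1, sq_sub_sq, abs_mul,
    abs_of_nonneg (add_nonneg (nr_nonneg _ _) (nr_nonneg _ _))]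
  exact mul_le_mul (by linarith) h3 (abs_nonneg _) (by linarith)

theorem ENER_Fm {α m δ : ℝ} (hα : 0 < α) (hδ : 0 ≤ δ) (hm : 0 < m) (hc : Continuous (Fm α m))
    (hb : ∀ z, 0 ≤ Fm α m z ∧ Fm α m z ≤ m ^ α * ‖z‖ ^ 2)
    (hl : ∀ z w, |Fm α m z - Fm α m w| ≤ m ^ α * ((‖z‖ + ‖w‖) * ‖z - w‖))
    (hd : ∀ z, |Fm α m z - ‖z‖ ^ (α + 2) / (α + 2)| ≤ ‖z‖ ^ (α + 2 + δ) / m ^ δ)
    {f g : E N → ℂ} (hf : MemLp f 2 volume) (hg : MemLp g 2 volume) (hg1 : Mem (α + 2) g)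
    (hg2 : Mem (α + 2 + δ) g) :
    |(∫ x, Fm α m (f x)) - pw α g / (α + 2)| ≤
      m ^ α * ((√(ms f) + √(ms g)) * √(ms fun x => f x - g x)) +
        nr (α + 2 + δ) g ^ (α + 2 + δ) / m ^ δ := by
  have hi : ∀ u : E N → ℂ, MemLp u 2 volume → Integrable fun x => Fm α m (u x) := fun u hu =>
    ((integrable_ms hu).const_mul (m ^ α)).mono' (hc.comp_aestronglyMeasurable hu.1)
      (Eventually.of_forall fun x => by rw [Real.norm_of_nonneg (hb _).1]; exact (hb _).2)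
  obtain ⟨i1, e1⟩ := integral_norm_mul_le hf (hf.sub hg)
  obtain ⟨i2, e2⟩ := integral_norm_mul_le hg (hf.sub hg)
  have h1 : |(∫ x, Fm α m (f x)) - ∫ x, Fm α m (g x)| ≤
      m ^ α * ((√(ms f) + √(ms g)) * √(ms fun x => f x - g x)) := by
    rw [← integral_sub (hi f hf) (hi g hg), ← Real.norm_eq_abs]
    refine (norm_integral_le_of_norm_le ((i1.add i2).const_mul (m ^ α))
      (Eventually.of_forall fun x => (hl _ _).trans_eq (by simp [add_mul]))).trans ?_
    rw [integral_const_mul, integral_add' i1 i2, add_mul]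
    exact mul_le_mul_of_nonneg_left (add_le_add e1 e2) (by positivity)
  have h2 : |(∫ x, Fm α m (g x)) - pw α g / (α + 2)| ≤
      nr (α + 2 + δ) g ^ (α + 2 + δ) / m ^ δ := by
    rw [pw, ← integral_div, ← integral_sub (hi g hg)
      ((hg1.integrable_rpow (by linarith)).div_const _), ← Real.norm_eq_abs,
      nr_rpow (by linarith) hg.1, ← integral_div]
    exact norm_integral_le_of_norm_le ((hg2.integrable_rpow (by linarith)).div_const _)
      (Eventually.of_forall fun x => hd _)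
  exact (abs_sub_le _ _ _).trans (add_le_add h1 h2)

theorem ENER_last {α m : ℝ} (hα : 0 < α) (hm : 0 < m) (hb : ∀ z, ‖gm α m z‖ ≤ m ^ α * ‖z‖)
    (h0 : ∀ z, (conj (gm α m z) * (Complex.I * NL α z)).re = 0) {f n : E N → ℂ}
    (hf : Mem (α + 2) f) (hn : Mem ((α + 2) / (α + 1)) fun x => n x - NL α (f x)) :
    |∫ x, (conj (gm α m (f x)) * (Complex.I * n x)).re| ≤
      m ^ α * (nr (α + 2) f * nr ((α + 2) / (α + 1)) fun x => n x - NL α (f x)) := by
  obtain ⟨i1, e1⟩ := holder (conj_exp hα) hf hn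
  rw [← Real.norm_eq_abs]
  refine (norm_integral_le_of_norm_le (i1.const_mul (m ^ α))
    (Eventually.of_forall fun x => ?_)).trans ?_
  · have e : (conj (gm α m (f x)) * (Complex.I * n x)).re =
        (conj (gm α m (f x)) * (Complex.I * (n x - NL α (f x)))).re := by
      rw [mul_sub, mul_sub, Complex.sub_re, h0, sub_zero]
    rw [e, Real.norm_eq_abs]
    refine (Complex.abs_re_le_norm _).trans ?_
    rw [norm_mul, norm_mul, Complex.norm_I, one_mul, Complex.norm_conj, ← mul_assoc]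
    exact mul_le_mul_of_nonneg_right (hb _) (norm_nonneg _)
  · rw [integral_const_mul]
    exact mul_le_mul_of_nonneg_left e1 (by positivity)

theorem ENER_split (h9 : St_CONV) (h10 : St_MOL) {α m : ℝ} (hα : 0 < α)
    (hc : Continuous (gm α m)) (hb : ∀ z, ‖gm α m z‖ ≤ m ^ α * ‖z‖) {k : E N → ℝ} (hk : Test k)
    {g : E N → ℂ} (hg2 : MemLp g 2 volume) (hg : Mem (α + 2) g)
    (hh : Mem ((α + 2) / (α + 1)) fun x => NL α (g x) - gm α m (g x)) (j : Fin N) :
    ‖∫ x, conj (cv (cr k) (fun y => NL α (g y)) x - gm α m (cv (cr k) g x)) *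
        cv (cr (pd j (pd j k))) g x‖ ≤
      nr ((α + 2) / (α + 1)) (cv (cr (pd j k)) fun x => NL α (g x) - gm α m (g x)) *
        nr (α + 2) (cv (cr (pd j k)) g) +
      ‖∫ x, conj (cv (cr k) (fun y => gm α m (g y)) x - gm α m (cv (cr k) g x)) *
        cv (cr (pd j (pd j k))) g x‖ := by
  have hce := (conj_exp hα).symm
  have hcv : ∀ (p : ℝ) (k : E N → ℝ) (u : E N → ℂ), 1 ≤ p → Test k → Mem p u →
      (∀ x, Integrable fun y => cr k (x - y) * u y) ∧ Mem p (cv (cr k) u) := by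
    intro p k u hp hk hu
    have := ((h9 N p hp).2 _ ((h10 N).2.2.1 k hk).1).2 u hu
    exact ⟨this.1, this.2.2.1⟩
  have hgm : ∀ u : E N → ℂ, Mem 2 u → Mem 2 fun x => gm α m (u x) := fun u hu =>
    MemLp.of_le_mul hu (hc.comp_aestronglyMeasurable hu.1) (Eventually.of_forall fun x => hb _)
  set h : E N → ℂ := fun x => NL α (g x) - gm α m (g x) with hdef
  have g2 := mem_two.2 hg2
  have e1 : ∀ x, cv (cr k) (fun y => NL α (g y)) x =
      cv (cr k) h x + cv (cr k) (fun y => gm α m (g y)) x := by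
    intro x
    rw [cv, cv, cv, ← integral_add ((hcv _ k h hce.lt.le hk hh).1 x)
      ((hcv 2 k _ one_le_two hk (hgm g g2)).1 x)]
    refine integral_congr_ae (Eventually.of_forall fun y => ?_)
    simp only [hdef]
    ring
  have a0 := (hcv _ k h hce.lt.le hk hh).2
  have a1 := (hcv _ _ h hce.lt.le (hk.pd j) hh).2
  have b1 := (hcv _ _ g hce.symm.lt.le (hk.pd j) hg).2
  have b2 := (hcv _ _ g hce.symm.lt.le ((hk.pd j).pd j) hg).2
  have i2 := (ENER_hc Real.HolderConjugate.two_two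
    ((hcv 2 k _ one_le_two hk (hgm g g2)).2.sub (hgm _ (hcv 2 k g one_le_two hk g2).2))
    (hcv 2 _ g one_le_two ((hk.pd j).pd j) g2).2).1
  have ibp : ∫ x, conj (cv (cr k) h x) * cv (cr (pd j (pd j k))) g x =
      -∫ x, conj (cv (cr (pd j k)) h x) * cv (cr (pd j k)) g x :=
    integral_bilinear_hasLineDerivAt_right_eq_neg_left_of_integrable
      (B := (ContinuousLinearMap.mul ℝ ℂ).comp (Complex.conjCLE : ℂ →L[ℝ] ℂ)) (v := ee j)
      (ENER_hc hce a1 b1).1 (ENER_hc hce a0 b2).1 (ENER_hc hce a0 b1).1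
      (fun x _ => ((h10 N).2.2.1 k hk).2.1 _ h hce.lt.le hh j x)
      (fun x _ => ((h10 N).2.2.1 _ (hk.pd j)).2.1 _ g hce.symm.lt.le hg j x)
  simp only [e1, add_sub_assoc, map_add, add_mul]
  rw [integral_add (ENER_hc hce a0 b2).1 i2, ibp]
  refine (norm_add_le _ _).trans (add_le_add ?_ le_rfl)
  rw [norm_neg]
  exact (ENER_hc hce a1 b1).2

theorem ENER_delta {α : ℝ} (h : Sub N α) : ∃ δ : ℝ, 0 < δ ∧
    ((N : ℝ) - 2) * ((α + 2) * (α + δ) / α) < 2 * N ∧ ((N : ℝ) - 2) * (α + 2 + δ) < 2 * N := by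
  obtain ⟨-, hα, h⟩ := h
  have h0 : ((N : ℝ) - 2) * (α + 2) < 2 * N := by linarith
  have c1 : Continuous fun δ : ℝ => ((N : ℝ) - 2) * ((α + 2) * (α + δ) / α) := by fun_prop
  have c2 : Continuous fun δ : ℝ => ((N : ℝ) - 2) * (α + 2 + δ) := by fun_prop
  have e1 := (c1.tendsto 0).eventually (gt_mem_nhds (a := (2 * N : ℝ))
    (by rwa [add_zero, mul_div_assoc, div_self hα.ne', mul_one]))
  have e2 := (c2.tendsto 0).eventually (gt_mem_nhds (a := (2 * N : ℝ)) (by rwa [add_zero]))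
  obtain ⟨δ, h1, h2⟩ := (((e1.and e2).filter_mono nhdsWithin_le_nhds).and
    (self_mem_nhdsWithin (s := Ioi (0 : ℝ)))).exists
  exact ⟨δ, h2, h1⟩

theorem ENER_time {a b : Fin N → ℝ → ℝ} {D : ℝ → ℝ} {s t Λ om C c : ℝ} (hs : 0 ≤ s) (hst : s ≤ t)
    (hΛ : 0 ≤ Λ) (hom : 0 < om) (hc : 0 ≤ c) (hD : IntervalIntegrable D volume s t)
    (ha : ∀ j, Continuous (a j) ∧ ∫ σ in (0 : ℝ)..t, a j σ ^ 2 ≤ C * om ^ 2)
    (hb : ∀ j, Continuous (b j) ∧ ∫ σ in (0 : ℝ)..t, b j σ ^ 2 ≤ C * 1 ^ 2)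
    (hle : ∀ σ ∈ Icc s t, |D σ| ≤ Λ * ∑ j, a j σ * b j σ + c) :
    |∫ σ in s..t, D σ| ≤ Λ * (N * (C * om)) + t * c := by
  set G : ℝ → ℝ := fun σ => Λ * ∑ j, (om⁻¹ / 2 * a j σ ^ 2 + om / 2 * b j σ ^ 2) + c with hG
  have ca : ∀ j, Continuous fun σ => om⁻¹ / 2 * a j σ ^ 2 := fun j =>
    continuous_const.mul ((ha j).1.pow 2)
  have cb : ∀ j, Continuous fun σ => om / 2 * b j σ ^ 2 := fun j =>
    continuous_const.mul ((hb j).1.pow 2)
  have cs : Continuous fun σ => ∑ j, (om⁻¹ / 2 * a j σ ^ 2 + om / 2 * b j σ ^ 2) :=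
    continuous_finsetSum _ fun j _ => (ca j).add (cb j)
  have cG : Continuous G := (continuous_const.mul cs).add continuous_const
  have h1 : |∫ σ in s..t, D σ| ≤ ∫ σ in s..t, G σ := by
    refine (intervalIntegral.abs_integral_le_integral_abs hst).trans
      (intervalIntegral.integral_mono_on hst hD.abs (cG.intervalIntegrable _ _) fun σ hσ =>
        (hle σ hσ).trans ?_)
    refine add_le_add (mul_le_mul_of_nonneg_left (Finset.sum_le_sum fun j _ => ?_) hΛ) le_rfl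
    have e : om⁻¹ / 2 * a j σ ^ 2 + om / 2 * b j σ ^ 2 - a j σ * b j σ =
        om⁻¹ / 2 * (a j σ - om * b j σ) ^ 2 := by
      field_simp
      ring
    have : 0 ≤ om⁻¹ / 2 * (a j σ - om * b j σ) ^ 2 := by positivity
    linarith
  have h2 : ∫ σ in s..t, G σ ≤ ∫ σ in (0 : ℝ)..t, G σ :=
    intervalIntegral.integral_mono_interval hs hst le_rfl
      (Eventually.of_forall fun σ => by simp only [hG, Pi.zero_apply]; positivity)
      (cG.intervalIntegrable _ _)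
  refine h1.trans (h2.trans ?_)
  simp only [hG]
  rw [intervalIntegral.integral_add ((cs.intervalIntegrable _ _).const_mul Λ)
    intervalIntegrable_const, intervalIntegral.integral_const, intervalIntegral.integral_const_mul,
    intervalIntegral.integral_finsetSum fun j _ => ((ca j).fun_add (cb j)).intervalIntegrable _ _,
    sub_zero, smul_eq_mul]
  refine add_le_add (mul_le_mul_of_nonneg_left ?_ hΛ) le_rfl
  refine (Finset.sum_le_sum (g := fun _ => C * om) fun j _ => ?_).trans (by simp)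
  rw [intervalIntegral.integral_add ((ca j).intervalIntegrable _ _) ((cb j).intervalIntegrable _ _),
    intervalIntegral.integral_const_mul, intervalIntegral.integral_const_mul]
  have h3 := mul_le_mul_of_nonneg_left (ha j).2 (by positivity : 0 ≤ om⁻¹ / 2)
  have h4 := mul_le_mul_of_nonneg_left (hb j).2 (by positivity : 0 ≤ om / 2)
  have e : om⁻¹ / 2 * (C * om ^ 2) + om / 2 * (C * 1 ^ 2) = C * om := by
    field_simp
    ring
  linarith

theorem ENER (h1 : St_BASIC) (h2 : St_APX) (h3 : St_COM) (h4 : St_ENR) (h5 : St_STRC)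
    (h6 : St_EN1) (h7 : St_EN2) (h8 : St_TRU) (h9 : St_CONV) (h10 : St_MOL) (h11 : St_NL) :
    St_ENER := by
  intro N α κ v dv hsub hS s t hs hst
  have hα : 0 < α := hsub.2.1
  have ht : 0 ≤ t := hs.trans hst
  obtain ⟨δ, hδ, hp, hq⟩ := ENER_delta hsub
  obtain ⟨cM, cK, cP, hLp, hmem, -, -⟩ := h1 N α κ v dv hsub hS
  have hp2 : 2 ≤ (α + 2) * (α + δ) / α := by
    rw [le_div_iff₀ hα]
    nlinarith
  obtain ⟨mp, cp, -, -⟩ := hLp _ hp2 hp
  obtain ⟨mq, cq, -, -⟩ := hLp (α + 2 + δ) (by linarith) hq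
  obtain ⟨mr, cr0, lr, -⟩ := hLp (α + 2) (by linarith) (by nlinarith [hsub.2.2])
  have hce := conj_exp hα
  obtain ⟨B, hB1, hB⟩ : ∃ B : ℝ, 1 ≤ B ∧ ∀ σ ∈ Icc s t, ms (v σ) ≤ B ^ 2 ∧ kin (dv σ) ≤ B ^ 2 ∧
      nr (α + 2) (v σ) ≤ B ∧ nr (α + 2 + δ) (v σ) ≤ B := by
    obtain ⟨M, hM⟩ := isCompact_Icc.bddAbove_image (K := Icc s t)
      (((cM.add cK).add cr0).add cq).continuousOn
    refine ⟨max M 1, le_max_right _ _, fun σ hσ => ?_⟩
    have e : ms (v σ) + kin (dv σ) + nr (α + 2) (v σ) + nr (α + 2 + δ) (v σ) ≤ max M 1 :=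
      (hM (mem_image_of_mem _ hσ)).trans (le_max_left _ _)
    have e2 : max M 1 ≤ max M 1 ^ 2 := le_self_pow₀ (le_max_right _ _) two_ne_zero
    have := ms_nonneg (v σ)
    have := kin_nonneg (dv σ)
    have := nr_nonneg (α + 2) (v σ)
    have := nr_nonneg (α + 2 + δ) (v σ)
    exact ⟨by linarith, by linarith, by linarith, by linarith⟩
  have hB0 : 0 ≤ B := by linarith
  obtain ⟨P, hP⟩ := isCompact_Icc.bddAbove_image (K := Icc 0 t) cp.continuousOn
  have hP' : ∀ σ ∈ Icc 0 t, nr ((α + 2) * (α + δ) / α) (v σ) ^ (α + δ) ≤ P ^ (α + δ) :=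
    fun σ hσ => Real.rpow_le_rpow (nr_nonneg _ _) (hP (mem_image_of_mem _ hσ)) (by linarith)
  have hP0 : 0 ≤ P ^ (α + δ) :=
    (Real.rpow_nonneg (nr_nonneg _ _) _).trans (hP' 0 ⟨le_rfl, ht⟩)
  have habs : ∀ σ ∈ Icc s t, |σ| ≤ t := fun σ hσ => by
    rw [abs_of_nonneg (hs.trans hσ.1)]
    exact hσ.2
  set Λ : ℝ := Real.exp (|κ| * t) with hΛ
  have hΛ0 : 0 ≤ Λ := (Real.exp_pos _).le
  have hexp : ∀ σ ∈ Icc s t, Real.exp (κ * σ) ≤ Λ := fun σ hσ => by
    refine Real.exp_le_exp.2 ((le_abs_self _).trans ?_)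
    rw [abs_mul]
    exact mul_le_mul_of_nonneg_left (habs σ hσ) (abs_nonneg κ)
  have cpot : Continuous fun σ => κ * pot α κ v σ :=
    continuous_const.mul (((by fun_prop : Continuous fun σ => Real.exp (κ * σ)).mul cP).div_const _)
  obtain ⟨C2, hC2, e2⟩ := h7 N α δ hα hδ.le
  obtain ⟨C3, hC3, e3⟩ := h5 N α κ v dv hsub hS t ht
  obtain ⟨C4, -, e4⟩ := h8 α hα
  set K : ℝ := C2 * (2 * P ^ (α + δ)) + 1 with hK
  have hK0 : 0 < K := by positivity
  set X : ℝ := en α κ v dv t - en α κ v dv s + ∫ σ in s..t, κ * pot α κ v σ with hX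
  have key : ∀ m : ℝ, 0 < m → |X| ≤
      (Λ * (N * (C3 * K)) + (2 * Λ + t * (|κ| * Λ)) * B ^ (α + 2 + δ)) * (m ^ δ)⁻¹ := by
    intro m hm
    obtain ⟨C1, hC1, e1⟩ := h6 N α m hα hm
    obtain ⟨g1, g2, g3, -, g5, g6, g7, -, g9⟩ := e4 m hm
    have hmδ : 0 < m ^ δ := Real.rpow_pos_of_pos hm δ
    have hmα : 0 < m ^ α := Real.rpow_pos_of_pos hm α
    set h : ℝ → E N → ℂ := fun σ x => NL α (v σ x) - gm α m (v σ x) with hh
    have mh : ∀ σ, Mem ((α + 2) / (α + 1)) (h σ) := fun σ =>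
      (e2 m (v σ) (v σ) hm (mr σ) (mr σ) (mp σ) (mp σ)).1
    have sa := e3 _ (K * (m ^ δ)⁻¹) h hce.symm.lt.le (by positivity) mh (fun σ => by
      refine squeeze_zero (fun _ => nr_nonneg _ _)
        (fun τ => (e2 m (v τ) (v σ) hm (mr τ) (mr σ) (mp τ) (mp σ)).2) ?_
      have := ((((cp.rpow_const fun _ => Or.inr (by linarith : 0 ≤ α + δ)).tendsto σ).add_const
        (nr ((α + 2) * (α + δ) / α) (v σ) ^ (α + δ))).const_mul (C2 / m ^ δ)).mul (lr σ)
      rwa [mul_zero] at this) (fun σ hσ y => by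
      obtain ⟨t1, -⟩ := ((h9 N _ hce.lt.le).1 _ (mr σ)).1 y
      obtain ⟨t2, t3⟩ := ((h9 N _ (by linarith)).1 _ (mp σ)).1 y
      refine (e2 m _ (v σ) hm t1 (mr σ) t2 (mp σ)).2.trans
        (mul_le_mul_of_nonneg_right ?_ (nr_nonneg _ _))
      rw [t3, div_mul_eq_mul_div, ← div_eq_mul_inv]
      refine div_le_div_of_nonneg_right ?_ hmδ.le
      have := mul_le_mul_of_nonneg_left (hP' σ hσ) hC2
      linarith)
    have sb := e3 _ 1 v hce.lt.le zero_le_one mr lr fun σ _ y => (one_mul _).ge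
    set R : ℝ → ℝ := fun θ => N * ((2 * B + 1) * θ) +
      2 * Λ * (m ^ α * ((2 * B + 1) * θ) + B ^ (α + 2 + δ) / m ^ δ) +
      (Λ * (N * (C3 * (K * (m ^ δ)⁻¹))) + t * (Λ * (N * (C1 * B * θ + C1 * θ * B ^ 2)) +
        Λ ^ 2 * (m ^ α * ((B + 1) * θ)) +
        |κ| * Λ * (m ^ α * ((2 * B + 1) * θ) + B ^ (α + 2 + δ) / m ^ δ))) with hR
    have main : ∀ θ : ℝ, 0 < θ → θ ≤ 1 → |X| ≤ R θ := by
      intro θ hθ hθ1
      have hθ2 : θ ^ 2 ≤ θ := by nlinarith
      have ev := h3 N α κ v dv hsub hS t (θ ^ 2) (by positivity)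
      obtain ⟨η, c1, hη⟩ := (ev.and self_mem_nhdsWithin).exists
      have hη' : 0 < η := hη
      obtain ⟨r, c2, hr, hrη⟩ := (ev.and (Ioc_mem_nhdsGT (mul_pos hθ hη'))).exists
      have hA := h2 N α κ v dv hsub hS r hr
      have hk : Test (mol r : E N → ℝ) := ((h10 N).1 r hr).1
      set w : ℝ := m ^ α * ((2 * B + 1) * θ) + B ^ (α + 2 + δ) / m ^ δ with hw
      have hw0 : 0 ≤ w := by positivity
      have f1 : ∀ σ ∈ Icc s t,
          |(∫ x, Fm α m (fm r v [] σ x)) - pw α (v σ) / (α + 2)| ≤ w := by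
        intro σ hσ
        obtain ⟨b1, -, -, b4⟩ := hB σ hσ
        have d1 := (c2 σ (habs σ hσ)).1
        have d2 := (ENER_ms (hA.mf [] σ).1 (hS.h1 σ).mem0 hθ.le hθ1 hB0 d1 b1).1
        have d3 : √(ms (v σ)) ≤ B := Real.sqrt_le_iff.2 ⟨hB0, b1⟩
        have d4 : √(ms fun x => fm r v [] σ x - v σ x) ≤ θ := Real.sqrt_le_iff.2 ⟨hθ.le, d1⟩
        refine (ENER_Fm hα hδ.le hm g2 g6 g7 (g9 δ hδ.le).1 (hA.mf [] σ).1 (hS.h1 σ).mem0
          (mr σ) (mq σ)).trans (add_le_add (mul_le_mul_of_nonneg_left ?_ hmα.le) ?_)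
        · exact mul_le_mul (by linarith) d4 (Real.sqrt_nonneg _) (by linarith)
        · exact div_le_div_of_nonneg_right
            (Real.rpow_le_rpow (nr_nonneg _ _) b4 (by linarith)) hmδ.le
      have f2 : ∀ σ ∈ Icc s t, |Real.exp (κ * σ) * (∫ x, Fm α m (fm r v [] σ x)) - pot α κ v σ| ≤
          Λ * w := by
        intro σ hσ
        rw [pot, mul_div_assoc, ← mul_sub, abs_mul, abs_of_pos (Real.exp_pos _)]
        exact mul_le_mul (hexp σ hσ) (f1 σ hσ) (abs_nonneg _) hΛ0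
      have f3 : ∀ σ ∈ Icc s t,
          |kin (fun i => fm r v [i] σ) - kin (dv σ)| ≤ N * ((2 * B + 1) * θ) := by
        intro σ hσ
        rw [kin, kin, ← Finset.sum_sub_distrib]
        refine (Finset.abs_sum_le_sum_abs _ _).trans
          ((Finset.sum_le_sum (g := fun _ => (2 * B + 1) * θ) fun i _ => ?_).trans (by simp))
        exact (ENER_ms (hA.mf [i] σ).1 ((hS.h1 σ).mem1 i) hθ.le hθ1 hB0
          ((c2 σ (habs σ hσ)).2.1 i) ((Finset.single_le_sum (f := fun i => ms (dv σ i))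
            (fun _ _ => ms_nonneg _) (Finset.mem_univ i)).trans (hB σ hσ).2.1)).2
      obtain ⟨D, hD, eD, lD⟩ := h4 N α κ m _ _ hα hm hA s t hs hst
      have f4 := ENER_time (D := fun σ => D σ + κ * pot α κ v σ)
        (c := Λ * (N * (C1 * B * θ + C1 * θ * B ^ 2)) + Λ ^ 2 * (m ^ α * ((B + 1) * θ)) +
          |κ| * Λ * w) hs hst hΛ0 (by positivity : 0 < K * (m ^ δ)⁻¹) (by positivity)
        (hD.add (cpot.intervalIntegrable _ _)) (sa r hr) (sb r hr) fun σ hσ => by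
        obtain ⟨-, b2, b3, -⟩ := hB σ hσ
        obtain ⟨-, -, d3, -, d5⟩ := c2 σ (habs σ hσ)
        have u1 : ∀ j, ‖∫ x, conj (nm α r v [] σ x - gm α m (fm r v [] σ x)) * fm r v [j, j] σ x‖ ≤
            nr ((α + 2) / (α + 1)) (cv (cr (pd j (mol r))) (h σ)) *
              nr (α + 2) (cv (cr (pd j (mol r))) (v σ)) + (C1 * B * θ + C1 * θ * B ^ 2) := by
          intro j
          refine (ENER_split h9 h10 hα g1 g3 hk (hS.h1 σ).mem0 (mr σ) (mh σ) j).trans
            (add_le_add le_rfl ((e1 _ _ (hS.h1 σ) r η hr hη' j).trans (add_le_add ?_ ?_)))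
          · have u2 := (c1 σ (habs σ hσ)).2.1 j
            have u3 : fm η v [j] σ = cv (cr (mol η)) (dv σ j) :=
              funext (((h10 N).2.2.1 _ ((h10 N).1 η hη').1).2.2 _ _ (hS.h1 σ) j)
            rw [u3] at u2
            exact mul_le_mul (mul_le_mul_of_nonneg_left (Real.sqrt_le_iff.2 ⟨hB0, b2⟩) hC1)
              (Real.sqrt_le_iff.2 ⟨hθ.le, u2⟩) (Real.sqrt_nonneg _) (by positivity)
          · exact mul_le_mul (mul_le_mul_of_nonneg_left ((div_le_iff₀ hη').2 hrη) hC1) b2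
              (kin_nonneg _) (by positivity)
        have u4 : nr (α + 2) (fm r v [] σ) ≤ B + 1 := by
          have := (abs_le.1 ((abs_nr_sub_le hce.lt.le (hA.mf [] σ).2 (mr σ)).trans d3)).2
          linarith
        have u5 := (ENER_last hα hm g3 g5 (hA.mf [] σ).2 ((hA.mn [] σ).sub
          ((h11 α hα).2.2.2.2.1 N _ (hA.mf [] σ).2).1)).trans (mul_le_mul_of_nonneg_left
            (mul_le_mul u4 (d5.trans hθ2) (nr_nonneg _ _) (by linarith)) hmα.le)
        have u6 := mul_le_mul (hexp σ hσ) (Finset.sum_le_sum fun j (_ : j ∈ Finset.univ) => u1 j)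
          (Finset.sum_nonneg fun _ _ => norm_nonneg _) hΛ0
        rw [Finset.sum_add_distrib, Finset.sum_const, Finset.card_univ, Fintype.card_fin,
          nsmul_eq_mul, mul_add] at u6
        have u7 := mul_le_mul (pow_le_pow_left₀ (Real.exp_pos _).le (hexp σ hσ) 2) u5
          (abs_nonneg _) (by positivity)
        have u8 : |κ * (Real.exp (κ * σ) * (∫ x, Fm α m (fm r v [] σ x)) - pot α κ v σ)| ≤
            |κ| * Λ * w := by
          rw [abs_mul, mul_assoc]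
          exact mul_le_mul_of_nonneg_left (f2 σ hσ) (abs_nonneg _)
        have u9 := abs_le.1 (lD σ hσ)
        have u10 := abs_le.1 u8
        simp only at u9
        rw [abs_le]
        constructor <;> linarith [u9.1, u9.2, u10.1, u10.2]
      rw [intervalIntegral.integral_add hD (cpot.intervalIntegrable _ _), ← eD] at f4
      have a1 := abs_le.1 (f2 s ⟨le_rfl, hst⟩)
      have a2 := abs_le.1 (f2 t ⟨hst, le_rfl⟩)
      have a3 := abs_le.1 (f3 s ⟨le_rfl, hst⟩)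
      have a4 := abs_le.1 (f3 t ⟨hst, le_rfl⟩)
      have a5 := abs_le.1 f4
      simp only [hX, hR, en] at a5 ⊢
      rw [abs_le]
      constructor <;> linarith [a1.1, a1.2, a2.1, a2.2, a3.1, a3.2, a4.1, a4.2, a5.1, a5.2]
    have cR : Continuous R := by
      rw [hR]
      fun_prop
    refine (ge_of_tendsto ((cR.tendsto 0).mono_left (nhdsWithin_le_nhds (s := Ioi 0))) ?_).trans_eq
      (by simp only [hR]; ring)
    filter_upwards [Ioc_mem_nhdsGT one_pos] with θ hθ using main θ hθ.1 hθ.2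
  have lim := ((tendsto_rpow_atTop hδ).inv_tendsto_atTop).const_mul
    (Λ * (N * (C3 * K)) + (2 * Λ + t * (|κ| * Λ)) * B ^ (α + 2 + δ))
  rw [mul_zero] at lim
  have fin : |X| ≤ 0 := ge_of_tendsto lim ((eventually_gt_atTop 0).mono key)
  have := abs_nonpos_iff.1 fin
  linarith

end Pool.Agent.Lib.MP_13801a_an.ND
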