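import Mathlib
import Pool.Agent.Lib.MP_13801a_an.ND.StsA

/-!
Extension of the weak formulation to test functions with Gaussian decay.
-/

open MeasureTheory Set Filter
open scoped ContDiff Topology ComplexConjugate

namespace Pool.Agent.Lib.MP_13801a_an.ND

noncomputable section

variable {N : ℕ}

theorem EXT_gauss {c q : ℝ} (hc : 0 < c) (hq : 0 < q) (C : ℝ) :
    Mem q fun y : E N => ((C * Real.exp (-c * ‖y‖ ^ 2) : ℝ) : ℂ) := by
  refine mem_of_integrable_rpow hq (Continuous.aestronglyMeasurable (by fun_prop)) ?_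
  have h := GaussianFourier.integrable_cexp_neg_mul_sq_norm_add (V := E N)
    (b := ((c * q : ℝ) : ℂ)) (by simpa using mul_pos hc hq) 0 0
  refine (h.norm.const_mul (|C| ^ q)).congr (Eventually.of_forall fun y => ?_)
  have e : (-((c * q : ℝ) : ℂ) * (‖y‖ : ℂ) ^ 2 + 0 * ((inner ℝ (0 : E N) y : ℝ) : ℂ)) =
      ((-c * ‖y‖ ^ 2 * q : ℝ) : ℂ) := by
    push_cast
    ring
  simp only [e, Complex.norm_exp, Complex.ofReal_re, Complex.norm_real, Real.norm_eq_abs, abs_mul,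
    Real.abs_exp]
  rw [Real.mul_rpow (abs_nonneg _) (Real.exp_pos _).le, Real.exp_mul]

theorem EXT_le_norm (C c : ℝ) (y : E N) :
    C * Real.exp (-c * ‖y‖ ^ 2) ≤ ‖((C * Real.exp (-c * ‖y‖ ^ 2) : ℝ) : ℂ)‖ := by
  rw [Complex.norm_real, Real.norm_eq_abs]
  exact le_abs_self _

theorem EXT_mem {c q C : ℝ} (hc : 0 < c) (hq : 0 < q) {a : E N → ℂ}
    (hm : AEStronglyMeasurable a volume) (hb : ∀ y, ‖a y‖ ≤ C * Real.exp (-c * ‖y‖ ^ 2)) :
    Mem q a :=
  MemLp.of_le (EXT_gauss hc hq C) hm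
    (Eventually.of_forall fun y => (hb y).trans (EXT_le_norm C c y))

/-- The basic limit lemma for pairings. -/
theorem EXT_lim {ι : Type*} {l : Filter ι} [l.IsCountablyGenerated] {p q C c : ℝ}
    (hpq : p.HolderConjugate q) (hc : 0 < c) {a w : ι → E N → ℂ} {a0 w0 : E N → ℂ}
    (ham : ∀ n, AEStronglyMeasurable (a n) volume)
    (hb : ∀ᶠ n in l, ∀ y, ‖a n y‖ ≤ C * Real.exp (-c * ‖y‖ ^ 2))
    (hl : ∀ y, Tendsto (fun n => a n y) l (𝓝 (a0 y))) (hw : ∀ n, Mem p (w n)) (hw0 : Mem p w0)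
    (hwl : Tendsto (fun n => nr p fun y => w n y - w0 y) l (𝓝 0)) :
    Tendsto (fun n => ∫ y, w n y * a n y) l (𝓝 (∫ y, w0 y * a0 y)) := by
  have hq : 0 < q := hpq.symm.pos
  have hG := EXT_gauss (N := N) hc hq C
  have h1 : Tendsto (fun n => ∫ y, w0 y * a n y) l (𝓝 (∫ y, w0 y * a0 y)) := by
    refine tendsto_integral_filter_of_dominated_convergence
      (fun y => ‖w0 y‖ * ‖((C * Real.exp (-c * ‖y‖ ^ 2) : ℝ) : ℂ)‖)
      (Eventually.of_forall fun n => hw0.1.mul (ham n)) ?_ (holder hpq hw0 hG).1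
      (Eventually.of_forall fun y => (hl y).const_mul _)
    filter_upwards [hb] with n hn
    refine Eventually.of_forall fun y => ?_
    rw [norm_mul]
    exact mul_le_mul_of_nonneg_left ((hn y).trans (EXT_le_norm C c y)) (norm_nonneg _)
  have h2 : Tendsto (fun n => ∫ y, (w n y - w0 y) * a n y) l (𝓝 0) := by
    have h3 := hwl.mul_const (nr q fun y : E N => ((C * Real.exp (-c * ‖y‖ ^ 2) : ℝ) : ℂ))
    rw [zero_mul] at h3
    refine squeeze_zero_norm' ?_ h3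
    filter_upwards [hb] with n hn
    refine (holder_norm hpq ((hw n).sub hw0) (EXT_mem hc hq (ham n) hn)).trans ?_
    exact mul_le_mul_of_nonneg_left
      (nr_mono hG fun y => (hn y).trans (EXT_le_norm C c y)) (nr_nonneg _ _)
  have h4 := h2.add h1
  rw [zero_add] at h4
  refine h4.congr' ?_
  filter_upwards [hb] with n hn
  have hm := EXT_mem hc hq (ham n) hn
  rw [← integral_add (holder_integrable hpq ((hw n).sub hw0) hm) (holder_integrable hpq hw0 hm)]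
  refine integral_congr_ae (Eventually.of_forall fun y => ?_)
  simp only
  ring

/-! ### Complex test functions -/

theorem EXT_int {p q : ℝ} (hpq : p.HolderConjugate q) {g : E N → ℂ} (hg : Mem p g)
    {φ : E N → ℝ} (hφ : Test φ) : Integrable fun x => g x * ((φ x : ℝ) : ℂ) := by
  refine holder_integrable hpq hg ?_
  have h1 : Continuous fun x => ((φ x : ℝ) : ℂ) := Complex.continuous_ofReal.comp hφ.1.continuous
  exact h1.memLp_of_hasCompactSupport (hφ.2.comp_left (g := fun r : ℝ => (r : ℂ)) (by simp))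

theorem EXT_split {p q : ℝ} (hpq : p.HolderConjugate q) {g : E N → ℂ} (hg : Mem p g)
    {φ1 φ2 : E N → ℝ} (h1 : Test φ1) (h2 : Test φ2) :
    ∫ x, g x * (((φ1 x : ℝ) : ℂ) + Complex.I * ((φ2 x : ℝ) : ℂ)) =
      (∫ x, g x * ((φ1 x : ℝ) : ℂ)) + Complex.I * ∫ x, g x * ((φ2 x : ℝ) : ℂ) := by
  rw [← integral_const_mul, ← integral_add (EXT_int hpq hg h1) ((EXT_int hpq hg h2).const_mul _)]
  refine integral_congr_ae (Eventually.of_forall fun y => ?_)
  simp only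
  ring

theorem EXT_parts {ψ : E N → ℂ} (h1 : ContDiff ℝ ∞ ψ) (h2 : HasCompactSupport ψ) :
    ∃ φ1 φ2 : E N → ℝ, Test φ1 ∧ Test φ2 ∧
      (ψ = fun x => ((φ1 x : ℝ) : ℂ) + Complex.I * ((φ2 x : ℝ) : ℂ)) ∧
      ∀ i, pdc i ψ = fun x => ((pd i φ1 x : ℝ) : ℂ) + Complex.I * ((pd i φ2 x : ℝ) : ℂ) := by
  refine ⟨fun x => (ψ x).re, fun x => (ψ x).im,
    ⟨Complex.reCLM.contDiff.comp h1, h2.comp_left (g := Complex.re) rfl⟩,
    ⟨Complex.imCLM.contDiff.comp h1, h2.comp_left (g := Complex.im) rfl⟩, ?_, fun i => ?_⟩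
  · funext x
    rw [mul_comm]
    exact (Complex.re_add_im _).symm
  · funext x
    have hd : HasFDerivAt ψ (fderiv ℝ ψ x) x :=
      ((h1.differentiable (by simp)) x).hasFDerivAt
    have e1 : fderiv ℝ (fun x => (ψ x).re) x = Complex.reCLM.comp (fderiv ℝ ψ x) :=
      (Complex.reCLM.hasFDerivAt.comp x hd).fderiv
    have e2 : fderiv ℝ (fun x => (ψ x).im) x = Complex.imCLM.comp (fderiv ℝ ψ x) :=
      (Complex.imCLM.hasFDerivAt.comp x hd).fderiv
    rw [pd_eq, pd_eq, e1, e2, mul_comm]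
    exact (Complex.re_add_im _).symm

theorem EXT_weak_c {g : E N → ℂ} {dg : Fin N → E N → ℂ} (hg : H1 g dg) {ψ : E N → ℂ}
    (h1 : ContDiff ℝ ∞ ψ) (h2 : HasCompactSupport ψ) (i : Fin N) :
    ∫ x, g x * pdc i ψ x = -∫ x, dg i x * ψ x := by
  obtain ⟨φ1, φ2, t1, t2, e1, e2⟩ := EXT_parts h1 h2
  have h22 := Real.HolderConjugate.two_two
  rw [e2 i, e1]
  simp only
  rw [EXT_split h22 (mem_two.2 hg.mem0) (t1.pd i) (t2.pd i),
    EXT_split h22 (mem_two.2 (hg.mem1 i)) t1 t2, hg.weak φ1 t1 i, hg.weak φ2 t2 i]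
  ring

/-- The right hand side of the equation tested with a complex function. -/
def EXT_R (α κ : ℝ) (v : ℝ → E N → ℂ) (dv : ℝ → Fin N → E N → ℂ) (φ : E N → ℂ)
    (φ1 : Fin N → E N → ℂ) (t : ℝ) : ℂ :=
  Complex.I * (-(∑ i, ∫ x, dv t i x * φ1 i x) +
    (Real.exp (κ * t) : ℝ) * ∫ x, NL α (v t x) * φ x)

theorem EXT_eqn_c {α κ : ℝ} {v : ℝ → E N → ℂ} {dv : ℝ → Fin N → E N → ℂ} (hα : 0 < α)
    (hs : Sol α κ v dv) (hn : ∀ t, Mem ((α + 2) / (α + 1)) fun x => NL α (v t x)) {ψ : E N → ℂ}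
    (h1 : ContDiff ℝ ∞ ψ) (h2 : HasCompactSupport ψ) {t : ℝ} (ht : 0 < t) :
    HasDerivAt (fun s => ∫ x, v s x * ψ x) (EXT_R α κ v dv ψ (fun i => pdc i ψ) t) t := by
  obtain ⟨φ1, φ2, t1, t2, e1, e2⟩ := EXT_parts h1 h2
  have h22 := Real.HolderConjugate.two_two
  have h3 := (hs.eqn φ1 t1 t ht).add ((hs.eqn φ2 t2 t ht).const_mul Complex.I)
  have e3 : (fun s => ∫ x, v s x * ψ x) = fun s => (∫ x, v s x * ((φ1 x : ℝ) : ℂ)) +
      Complex.I * ∫ x, v s x * ((φ2 x : ℝ) : ℂ) := by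
    funext s
    rw [← EXT_split h22 (mem_two.2 (hs.h1 s).mem0) t1 t2, e1]
  rw [e3]
  refine HasDerivAt.congr_deriv h3 ?_
  have e4 : ∀ i, ∫ x, dv t i x * pdc i ψ x = (∫ x, dv t i x * ((pd i φ1 x : ℝ) : ℂ)) +
      Complex.I * ∫ x, dv t i x * ((pd i φ2 x : ℝ) : ℂ) := by
    intro i
    rw [← EXT_split h22 (mem_two.2 ((hs.h1 t).mem1 i)) (t1.pd i) (t2.pd i), e2 i]
  have e5 : ∫ x, NL α (v t x) * ψ x = (∫ x, NL α (v t x) * ((φ1 x : ℝ) : ℂ)) +
      Complex.I * ∫ x, NL α (v t x) * ((φ2 x : ℝ) : ℂ) := by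
    rw [← EXT_split (conj_exp hα).symm (hn t) t1 t2, e1]
  simp only [EXT_R, e4, e5, Finset.sum_add_distrib, ← Finset.mul_sum]
  ring

/-! ### The cutoff -/

/-- The cut off function. -/
def EXT_cut (φ : E N → ℂ) (a : ℝ) (x : E N) : ℂ := ((bmp N (a • x) : ℝ) : ℂ) * φ x

/-- The derivatives of the cut off function. -/
def EXT_cut1 (φ : E N → ℂ) (a : ℝ) (i : Fin N) (x : E N) : ℂ :=
  ((a * pd i (bmp N) (a • x) : ℝ) : ℂ) * φ x + ((bmp N (a • x) : ℝ) : ℂ) * pdc i φ x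

theorem EXT_bmp : Test (bmp N : E N → ℝ) := ⟨(bmp N).contDiff, (bmp N).hasCompactSupport⟩

theorem EXT_cut_zero (φ : E N → ℂ) : EXT_cut φ 0 = φ := by
  funext x
  have : bmp N (0 : E N) = 1 := (bmp N).one_of_mem_closedBall (by simp [bmp])
  simp [EXT_cut, this]

theorem EXT_cut1_zero (φ : E N → ℂ) (i : Fin N) : EXT_cut1 φ 0 i = pdc i φ := by
  funext x
  have : bmp N (0 : E N) = 1 := (bmp N).one_of_mem_closedBall (by simp [bmp])
  simp [EXT_cut1, this]

theorem EXT_cut_smooth {φ : E N → ℂ} (h : ContDiff ℝ ∞ φ) (a : ℝ) : ContDiff ℝ ∞ (EXT_cut φ a) :=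
  (Complex.ofRealCLM.contDiff.comp ((bmp N).contDiff.comp (contDiff_const_smul a))).mul h

theorem EXT_cut_supp (φ : E N → ℂ) {a : ℝ} (ha : a ≠ 0) : HasCompactSupport (EXT_cut φ a) :=
  (((bmp N).hasCompactSupport.comp_smul ha).comp_left (g := fun r : ℝ => (r : ℂ))
    (by simp)).mul_right

theorem EXT_cut_pdc {φ : E N → ℂ} (h : ContDiff ℝ ∞ φ) (a : ℝ) (i : Fin N) :
    pdc i (EXT_cut φ a) = EXT_cut1 φ a i := by
  funext x
  have h1 : HasFDerivAt φ (fderiv ℝ φ x) x := ((h.differentiable (by simp)) x).hasFDerivAt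
  have h2 : HasFDerivAt (bmp N : E N → ℝ) (fderiv ℝ (bmp N) (a • x)) (a • x) :=
    ((EXT_bmp.1.differentiable (by simp)) (a • x)).hasFDerivAt
  have h3 : HasFDerivAt (fun y : E N => a • y) (a • ContinuousLinearMap.id ℝ (E N)) x :=
    (hasFDerivAt_id x).const_smul a
  have h4 := (Complex.ofRealCLM.hasFDerivAt.comp x (h2.comp x h3)).mul h1
  have h5 : HasFDerivAt (EXT_cut φ a) _ x := h4
  rw [pdc, h5.fderiv]
  simp [EXT_cut1, pdc, pd_eq]
  ring

theorem EXT_pdc_cont {φ : E N → ℂ} (h : ContDiff ℝ ∞ φ) (i : Fin N) : Continuous (pdc i φ) :=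
  (h.continuous_fderiv (by simp)).clm_apply continuous_const

theorem EXT_cut_cont {φ : E N → ℂ} (h : ContDiff ℝ ∞ φ) :
    Continuous fun p : ℝ × E N => EXT_cut φ p.1 p.2 := by
  have h1 := h.continuous
  have h2 := (EXT_bmp (N := N)).1.continuous
  unfold EXT_cut
  fun_prop

theorem EXT_cut1_cont {φ : E N → ℂ} (h : ContDiff ℝ ∞ φ) (i : Fin N) :
    Continuous fun p : ℝ × E N => EXT_cut1 φ p.1 i p.2 := by
  have h1 := h.continuous
  have h2 := (EXT_bmp (N := N)).1.continuous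
  have h3 := ((EXT_bmp (N := N)).pd i).1.continuous
  have h4 := EXT_pdc_cont h i
  unfold EXT_cut1
  fun_prop

theorem EXT_cut_bound {φ : E N → ℂ} (h : Nice φ) (A : ℝ) : ∃ C c : ℝ, 0 < c ∧ ∀ a, |a| ≤ A → ∀ x,
    ‖EXT_cut φ a x‖ ≤ C * Real.exp (-c * ‖x‖ ^ 2) ∧
      ∀ i, ‖EXT_cut1 φ a i x‖ ≤ C * Real.exp (-c * ‖x‖ ^ 2) := by
  obtain ⟨-, C, c, hc, hb⟩ := h
  have hM : ∀ i : Fin N, ∃ M : ℝ, ∀ x, ‖pd i (bmp N) x‖ ≤ M := fun i =>
    (EXT_bmp.pd i).1.continuous.bounded_above_of_compact_support (EXT_bmp.pd i).2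
  choose M hM using hM
  have hM0 : ∀ i, 0 ≤ M i := fun i => (norm_nonneg _).trans (hM i 0)
  have hS : ∀ i, M i ≤ ∑ j, M j := fun i =>
    Finset.single_le_sum (fun j _ => hM0 j) (Finset.mem_univ i)
  have hS0 : 0 ≤ ∑ j, M j := Finset.sum_nonneg fun j _ => hM0 j
  refine ⟨(|A| * ∑ j, M j + 1) * C, c, hc, fun a ha x => ?_⟩
  have h0 : 0 ≤ C * Real.exp (-c * ‖x‖ ^ 2) := (norm_nonneg _).trans (hb x).1
  have h1 : ‖((bmp N (a • x) : ℝ) : ℂ)‖ ≤ 1 := by
    rw [Complex.norm_real, Real.norm_eq_abs, abs_of_nonneg (bmp N).nonneg]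
    exact (bmp N).le_one
  have h2 : 0 ≤ |A| * ∑ j, M j := mul_nonneg (abs_nonneg _) hS0
  constructor
  · rw [EXT_cut, norm_mul, mul_assoc]
    exact mul_le_mul (by linarith) (hb x).1 (norm_nonneg _) (by linarith)
  · intro i
    have h3 : ‖((a * pd i (bmp N) (a • x) : ℝ) : ℂ)‖ ≤ |A| * ∑ j, M j := by
      rw [Complex.norm_real, norm_mul]
      exact mul_le_mul (ha.trans (le_abs_self _)) ((hM i _).trans (hS i)) (norm_nonneg _)
        (abs_nonneg _)
    rw [EXT_cut1, mul_assoc, add_mul]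
    refine (norm_add_le _ _).trans (add_le_add ?_ ?_)
    · rw [norm_mul]
      exact mul_le_mul h3 (hb x).1 (norm_nonneg _) h2
    · rw [norm_mul]
      exact mul_le_mul h1 ((hb x).2 i) (norm_nonneg _) zero_le_one

theorem EXT_nr_two {v : ℝ → E N → ℂ} (hm : ∀ t, MemLp (v t) 2 volume) {t : ℝ}
    (h : Tendsto (fun s => ms fun x => v s x - v t x) (𝓝 t) (𝓝 0)) :
    Tendsto (fun s => nr 2 fun x => v s x - v t x) (𝓝 t) (𝓝 0) := by
  have h1 := h.sqrt
  rw [Real.sqrt_zero] at h1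
  refine h1.congr fun s => ?_
  exact (nr_two ((hm s).sub (hm t)).1).symm

/-- Joint continuity of pairings with a family having local Gaussian bounds. -/
theorem EXT_pair {p q : ℝ} (hpq : p.HolderConjugate q) {a : ℝ → E N → ℂ}
    (ha : Continuous fun z : ℝ × E N => a z.1 z.2)
    (hb : ∀ A : ℝ, ∃ C c : ℝ, 0 < c ∧ ∀ s, |s| ≤ A → ∀ x, ‖a s x‖ ≤ C * Real.exp (-c * ‖x‖ ^ 2))
    {w : ℝ → E N → ℂ} (hw : ∀ t, Mem p (w t))
    (hl : ∀ t, Tendsto (fun s => nr p fun x => w s x - w t x) (𝓝 t) (𝓝 0)) :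
    Continuous fun z : ℝ × ℝ => ∫ x, w z.2 x * a z.1 x := by
  rw [continuous_iff_continuousAt]
  intro z
  obtain ⟨C, c, hc, h1⟩ := hb (|z.1| + 1)
  refine EXT_lim (C := C) hpq hc (a := fun n : ℝ × ℝ => a n.1) (w := fun n : ℝ × ℝ => w n.2)
    (fun n => (ha.comp (Continuous.prodMk_right n.1)).aestronglyMeasurable) ?_ (fun y => ?_)
    (fun n => hw n.2) (hw z.2) ((hl z.2).comp continuous_snd.continuousAt)
  · have h2 : ∀ᶠ n : ℝ × ℝ in 𝓝 z, |n.1| < |z.1| + 1 :=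
      (continuous_fst.abs.continuousAt (x := z)).eventually_lt continuousAt_const (by linarith)
    filter_upwards [h2] with n hn using h1 n.1 hn.le
  · exact (ha.comp (continuous_fst.prodMk continuous_const)).continuousAt (x := z)

theorem EXT_at_zero {f g : ℝ → ℂ} (hf : Continuous f) (hg : Continuous g)
    (h : ∀ a, a ≠ 0 → f a = g a) : f 0 = g 0 := by
  refine tendsto_nhds_unique_of_eventuallyEq (l := 𝓝[≠] (0 : ℝ))
    (hf.continuousAt.tendsto.mono_left nhdsWithin_le_nhds)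
    (hg.continuousAt.tendsto.mono_left nhdsWithin_le_nhds) ?_
  filter_upwards [self_mem_nhdsWithin] with a ha using h a ha

theorem EXT (h1 : St_BASIC) : St_EXT := by
  intro N φ hφ
  have h22 := Real.HolderConjugate.two_two
  have c0 := EXT_cut_cont hφ.1
  have c1 := EXT_cut1_cont hφ.1
  have b0 : ∀ A : ℝ, ∃ C c : ℝ, 0 < c ∧ ∀ s, |s| ≤ A → ∀ x,
      ‖EXT_cut φ s x‖ ≤ C * Real.exp (-c * ‖x‖ ^ 2) := fun A => by
    obtain ⟨C, c, hc, h⟩ := EXT_cut_bound hφ A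
    exact ⟨C, c, hc, fun s hs x => (h s hs x).1⟩
  have b1 : ∀ (i : Fin N) (A : ℝ), ∃ C c : ℝ, 0 < c ∧ ∀ s, |s| ≤ A → ∀ x,
      ‖EXT_cut1 φ s i x‖ ≤ C * Real.exp (-c * ‖x‖ ^ 2) := fun i A => by
    obtain ⟨C, c, hc, h⟩ := EXT_cut_bound hφ A
    exact ⟨C, c, hc, fun s hs x => (h s hs x).2 i⟩
  constructor
  · intro g dg hg i
    have z : ∀ w : E N → ℂ, ∀ t : ℝ,
        Tendsto (fun _ : ℝ => nr 2 fun x => w x - w x) (𝓝 t) (𝓝 0) := by
      intro w t
      simp [nr]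
    have k1 := (EXT_pair h22 (a := fun s => EXT_cut1 φ s i) (c1 i) (b1 i) (w := fun _ => g)
      (fun _ => mem_two.2 hg.mem0) (z g)).comp (Continuous.prodMk_left (0 : ℝ))
    have k2 := ((EXT_pair h22 c0 b0 (w := fun _ => dg i)
      (fun _ => mem_two.2 (hg.mem1 i)) (z (dg i))).comp (Continuous.prodMk_left (0 : ℝ))).neg
    have k3 := EXT_at_zero k1 k2 fun a ha => by
      have h := EXT_weak_c hg (EXT_cut_smooth hφ.1 a) (EXT_cut_supp φ ha) i
      rw [EXT_cut_pdc hφ.1] at h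
      exact h
    simpa [EXT_cut_zero, EXT_cut1_zero] using k3
  · intro α κ v dv hsub hs t ht
    obtain ⟨-, -, -, -, hn, hnl, -⟩ := h1 N α κ v dv hsub hs
    have hα := hsub.2.1
    have k0 := EXT_pair h22 c0 b0 (fun t => mem_two.2 (hs.h1 t).mem0)
      fun t => EXT_nr_two (fun t => (hs.h1 t).mem0) (hs.c0 t)
    have k1 := fun i => EXT_pair h22 (a := fun s => EXT_cut1 φ s i) (c1 i) (b1 i)
      (w := fun t => dv t i) (fun t => mem_two.2 ((hs.h1 t).mem1 i))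
      fun t => EXT_nr_two (v := fun t => dv t i) (fun t => (hs.h1 t).mem1 i) (hs.c1 t i)
    have k2 := EXT_pair (conj_exp hα).symm c0 b0 (w := fun t x => NL α (v t x))
      (fun t => (hn t).2) hnl
    have k3 : Continuous fun z : ℝ × ℝ =>
        EXT_R α κ v dv (EXT_cut φ z.1) (EXT_cut1 φ z.1) z.2 := by
      unfold EXT_R
      refine continuous_const.mul ((continuous_finsetSum _ fun i _ => k1 i).neg.add
        (Continuous.mul ?_ k2))
      fun_prop
    have k4 : ∀ τ, 0 < τ → ∫ σ in t..τ, EXT_R α κ v dv φ (fun i => pdc i φ) σ =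
        (∫ x, v τ x * φ x) - ∫ x, v t x * φ x := by
      intro τ hτ
      have k5 := EXT_at_zero
        (f := fun a => ∫ σ in t..τ, EXT_R α κ v dv (EXT_cut φ a) (EXT_cut1 φ a) σ)
        (g := fun a => (∫ x, v τ x * EXT_cut φ a x) - ∫ x, v t x * EXT_cut φ a x)
        (intervalIntegral.continuous_parametric_intervalIntegral_of_continuous' k3 t τ)
        ((k0.comp (Continuous.prodMk_left τ)).sub (k0.comp (Continuous.prodMk_left t)))
        fun a ha => by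
          refine intervalIntegral.integral_eq_sub_of_hasDerivAt
            (f := fun s => ∫ x, v s x * EXT_cut φ a x) (fun σ hσ => ?_)
            ((k3.comp (Continuous.prodMk_right a)).intervalIntegrable _ _)
          have h := EXT_eqn_c hα hs (fun t => (hn t).2) (EXT_cut_smooth hφ.1 a)
            (EXT_cut_supp φ ha) (t := σ) (lt_of_lt_of_le (lt_min ht hτ) hσ.1)
          simp only [EXT_cut_pdc hφ.1] at h
          exact h
      have e : EXT_cut1 φ 0 = fun i => pdc i φ := funext fun i => EXT_cut1_zero φ i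
      simpa only [EXT_cut_zero, e] using k5
    have k6 : Continuous (EXT_R α κ v dv φ fun i => pdc i φ) := by
      have h := k3.comp (Continuous.prodMk_right (0 : ℝ))
      have e : EXT_cut1 φ 0 = fun i => pdc i φ := funext fun i => EXT_cut1_zero φ i
      simpa only [Function.comp_def, EXT_cut_zero, e] using h
    have k7 := ((k6.integral_hasStrictDerivAt t t).hasDerivAt).add_const (∫ x, v t x * φ x)
    refine k7.congr_of_eventuallyEq ?_
    filter_upwards [lt_mem_nhds ht] with τ hτ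
    rw [k4 τ hτ]
    ring

end

end Pool.Agent.Lib.MP_13801a_an.ND
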