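import Mathlib
import Pool.Agent.Lib.MP_13801a_an.ND.StsA
import Pool.Agent.Lib.MP_13801a_an.ND.EXT1

/-!
The Duhamel formula with a regularised free propagator.
-/

open MeasureTheory Set Filter
open scoped ContDiff Topology ComplexConjugate

namespace Pool.Agent.Lib.MP_13801a_an.ND

noncomputable section

variable {N : ℕ}

theorem EXT_poly {c u : ℝ} (hc : 0 < c) (hu : 0 ≤ u) :
    (1 + u) * Real.exp (-c * u) ≤ (1 + 2 / c) * Real.exp (-(c / 2) * u) := by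
  have h1 : c / 2 * u ≤ Real.exp (c / 2 * u) := by
    have := Real.add_one_le_exp (c / 2 * u)
    linarith
  have h2 : 1 ≤ Real.exp (c / 2 * u) := Real.one_le_exp (by positivity)
  have h3 : u ≤ 2 / c * Real.exp (c / 2 * u) := by
    calc u = 2 / c * (c / 2 * u) := by field_simp
      _ ≤ _ := mul_le_mul_of_nonneg_left h1 (by positivity)
  have e : Real.exp (-(c / 2) * u) = Real.exp (c / 2 * u) * Real.exp (-c * u) := by
    rw [← Real.exp_add]
    congr 1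
    ring
  rw [e, ← mul_assoc]
  exact mul_le_mul_of_nonneg_right (by linarith) (Real.exp_pos _).le

/-- The master bound for the Gaussian kernels. -/
theorem EXT_master (h2 : St_GK) {ε : ℝ} (hε : 0 < ε) (Z R : ℝ) : ∃ C c : ℝ, 0 < c ∧
    ∀ z : ℂ, ε ≤ z.re → ‖z‖ ≤ Z → ∀ x : E N, ‖x‖ ≤ R → ∀ y : E N,
      (1 + ‖x - y‖ ^ 2) * ‖GK z (x - y)‖ ≤ C * Real.exp (-c * ‖y‖ ^ 2) := by
  set c0 : ℝ := ε / (|Z| + 1) ^ 2 / 4 with hc0
  have hc : 0 < c0 := by positivity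
  refine ⟨(4 * Real.pi * ε) ^ (-(N : ℝ) / 2) * ((1 + 2 / c0) * Real.exp (c0 / 2 * R ^ 2)),
    c0 / 4, by positivity, fun z hz hZ x hx y => ?_⟩
  have hz0 : 0 < z.re := hε.trans_le hz
  have hn : ε ≤ ‖z‖ := hz.trans ((le_abs_self _).trans (Complex.abs_re_le_norm z))
  have hn0 : 0 < ‖z‖ := hε.trans_le hn
  rw [((h2 N).2.2 z hz0).2.2.2.2.1 (x - y)]
  have e1 : (4 * Real.pi * ‖z‖) ^ (-(N : ℝ) / 2) ≤ (4 * Real.pi * ε) ^ (-(N : ℝ) / 2) :=
    Real.rpow_le_rpow_of_nonpos (by positivity)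
      (mul_le_mul_of_nonneg_left hn (by positivity))
      (div_nonpos_of_nonpos_of_nonneg (neg_nonpos.2 (Nat.cast_nonneg N)) zero_le_two)
  have e2 : ε / (|Z| + 1) ^ 2 ≤ z.re / ‖z‖ ^ 2 := by
    refine div_le_div₀ hz0.le hz (by positivity) ?_
    exact pow_le_pow_left₀ hn0.le (hZ.trans ((le_abs_self Z).trans (by linarith))) 2
  have e3 : Real.exp (-(z.re / ‖z‖ ^ 2) * ‖x - y‖ ^ 2 / 4) ≤ Real.exp (-c0 * ‖x - y‖ ^ 2) := by
    refine Real.exp_le_exp.2 ?_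
    have := mul_le_mul_of_nonneg_right e2 (sq_nonneg ‖x - y‖)
    rw [hc0]
    linarith
  have e4 := EXT_poly hc (sq_nonneg ‖x - y‖)
  have e5 : Real.exp (-(c0 / 2) * ‖x - y‖ ^ 2) ≤
      Real.exp (c0 / 2 * R ^ 2) * Real.exp (-(c0 / 4) * ‖y‖ ^ 2) := by
    rw [← Real.exp_add]
    refine Real.exp_le_exp.2 ?_
    have f1 : ‖y‖ ≤ ‖x‖ + ‖x - y‖ := by
      calc ‖y‖ = ‖x - (x - y)‖ := by simp
        _ ≤ _ := norm_sub_le _ _
    have f2 : ‖y‖ ^ 2 ≤ (‖x‖ + ‖x - y‖) ^ 2 := pow_le_pow_left₀ (norm_nonneg _) f1 2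
    have f3 : ‖x‖ ^ 2 ≤ R ^ 2 := pow_le_pow_left₀ (norm_nonneg _) hx 2
    have f4 : ‖y‖ ^ 2 ≤ 2 * R ^ 2 + 2 * ‖x - y‖ ^ 2 := by nlinarith [sq_nonneg (‖x‖ - ‖x - y‖)]
    nlinarith [mul_le_mul_of_nonneg_left f4 hc.le]
  have p0 : 0 ≤ (4 * Real.pi * ε) ^ (-(N : ℝ) / 2) := by positivity
  calc (1 + ‖x - y‖ ^ 2) * ((4 * Real.pi * ‖z‖) ^ (-(N : ℝ) / 2) *
        Real.exp (-(z.re / ‖z‖ ^ 2) * ‖x - y‖ ^ 2 / 4))
      ≤ (1 + ‖x - y‖ ^ 2) * ((4 * Real.pi * ε) ^ (-(N : ℝ) / 2) *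
        Real.exp (-c0 * ‖x - y‖ ^ 2)) :=
        mul_le_mul_of_nonneg_left (mul_le_mul e1 e3 (Real.exp_pos _).le p0) (by positivity)
    _ = (4 * Real.pi * ε) ^ (-(N : ℝ) / 2) *
        ((1 + ‖x - y‖ ^ 2) * Real.exp (-c0 * ‖x - y‖ ^ 2)) := by ring
    _ ≤ (4 * Real.pi * ε) ^ (-(N : ℝ) / 2) * ((1 + 2 / c0) *
        (Real.exp (c0 / 2 * R ^ 2) * Real.exp (-(c0 / 4) * ‖y‖ ^ 2))) :=
        mul_le_mul_of_nonneg_left
          (e4.trans (mul_le_mul_of_nonneg_left e5 (by positivity))) p0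
    _ = _ := by ring

theorem EXT_mulb {a k : ℂ} {A u G : ℝ} (hA : 0 ≤ A) (ha : ‖a‖ ≤ A * (1 + u))
    (hk : (1 + u) * ‖k‖ ≤ G) : ‖a * k‖ ≤ A * G := by
  rw [norm_mul]
  calc ‖a‖ * ‖k‖ ≤ A * (1 + u) * ‖k‖ := mul_le_mul_of_nonneg_right ha (norm_nonneg _)
    _ = A * ((1 + u) * ‖k‖) := by ring
    _ ≤ _ := mul_le_mul_of_nonneg_left hk hA

theorem EXT_line_pdc {f : E N → ℂ} {x : E N} (hf : DifferentiableAt ℝ f x) (i : Fin N) :
    HasDerivAt (fun s : ℝ => f (x + s • ee i)) (pdc i f x) 0 :=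
  hf.hasFDerivAt.hasLineDerivAt (ee i)

theorem EXT_pdc_of_line {f : E N → ℂ} {x : E N} (hf : DifferentiableAt ℝ f x) {i : Fin N} {d : ℂ}
    (h : HasDerivAt (fun s : ℝ => f (x + s • ee i)) d 0) : pdc i f x = d :=
  (EXT_line_pdc hf i).unique h

/-- The kernel as a function of the integration variable. -/
def EXT_k (z : ℂ) (x y : E N) : ℂ := GK z (x - y)

/-- The first derivatives of the kernel. -/
def EXT_k1 (z : ℂ) (x : E N) (i : Fin N) (y : E N) : ℂ :=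
  (((x - y) i : ℝ) : ℂ) / (2 * z) * GK z (x - y)

/-- The second derivatives of the kernel. -/
def EXT_k2 (z : ℂ) (x : E N) (i j : Fin N) (y : E N) : ℂ :=
  ((((x - y) i : ℝ) : ℂ) * (((x - y) j : ℝ) : ℂ) / (4 * z ^ 2) -
    (((ee j : E N) i : ℝ) : ℂ) / (2 * z)) * GK z (x - y)

theorem EXT_k_smooth (h2 : St_GK) {z : ℂ} (hz : 0 < z.re) (x : E N) :
    ContDiff ℝ ∞ (EXT_k z x) :=
  ((h2 N).2.2 z hz).2.1.comp (contDiff_const.sub contDiff_id)

theorem EXT_coord_smooth (x : E N) (i : Fin N) :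
    ContDiff ℝ ∞ fun y : E N => (((x - y) i : ℝ) : ℂ) :=
  Complex.ofRealCLM.contDiff.comp
    ((EuclideanSpace.proj i : E N →L[ℝ] ℝ).contDiff.comp (contDiff_const.sub contDiff_id))

theorem EXT_k1_smooth (h2 : St_GK) {z : ℂ} (hz : 0 < z.re) (x : E N) (i : Fin N) :
    ContDiff ℝ ∞ (EXT_k1 z x i) :=
  ((EXT_coord_smooth x i).div_const _).mul (EXT_k_smooth h2 hz x)

theorem EXT_k_line (h2 : St_GK) {z : ℂ} (hz : 0 < z.re) (x y : E N) (i : Fin N) :
    HasDerivAt (fun s : ℝ => GK z (x - (y + s • ee i))) (EXT_k1 z x i y) 0 := by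
  have h0 := (h2 N).2.2 z hz
  have h1 := EXT_line_pdc ((h0.2.1.differentiable (by simp)) (x - y)) i
  rw [h0.2.2.2.2.2.1 i (x - y)] at h1
  have h3 : HasDerivAt (fun s : ℝ => GK z (x - y + s • ee i))
      (-(((x - y) i : ℝ) : ℂ) / (2 * z) * GK z (x - y)) (-0) := by
    rwa [neg_zero]
  have h4 := h3.scomp (0 : ℝ) (hasDerivAt_neg (0 : ℝ))
  have e : (fun s : ℝ => GK z (x - (y + s • ee i))) =
      (fun s : ℝ => GK z (x - y + s • ee i)) ∘ Neg.neg := by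
    funext s
    simp only [Function.comp_apply, neg_smul]
    congr 1
    abel
  rw [e]
  refine h4.congr_deriv ?_
  rw [EXT_k1, neg_one_smul]
  ring

theorem EXT_k_pdc (h2 : St_GK) {z : ℂ} (hz : 0 < z.re) (x : E N) (i : Fin N) :
    pdc i (EXT_k z x) = EXT_k1 z x i := by
  funext y
  exact EXT_pdc_of_line (((EXT_k_smooth h2 hz x).differentiable (by simp)) y)
    (EXT_k_line h2 hz x y i)

theorem EXT_k1_pdc (h2 : St_GK) {z : ℂ} (hz : 0 < z.re) (x : E N) (i j : Fin N) :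
    pdc j (EXT_k1 z x i) = EXT_k2 z x i j := by
  funext y
  refine EXT_pdc_of_line (((EXT_k1_smooth h2 hz x i).differentiable (by simp)) y) ?_
  have hz0 : z ≠ 0 := fun h => by simp [h] at hz
  have h1 : HasDerivAt (fun s : ℝ => (x - y) i - s * (ee j : E N) i) (-(ee j : E N) i) 0 := by
    simpa using ((hasDerivAt_id (0 : ℝ)).mul_const ((ee j : E N) i)).const_sub ((x - y) i)
  have h3 := (h1.ofReal_comp.div_const (2 * z)).mul (EXT_k_line h2 hz x y j)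
  have e : (fun s : ℝ => EXT_k1 z x i (y + s • ee j)) = fun s : ℝ =>
      ((((x - y) i - s * (ee j : E N) i : ℝ) : ℂ)) / (2 * z) * GK z (x - (y + s • ee j)) := by
    funext s
    rw [EXT_k1]
    congr 3
    simp only [PiLp.sub_apply, PiLp.add_apply, PiLp.smul_apply, smul_eq_mul]
    ring
  rw [e]
  refine HasDerivAt.congr_deriv h3 ?_
  simp only [EXT_k1, EXT_k2, zero_smul, add_zero, zero_mul, sub_zero]
  push_cast
  field_simp
  ring

theorem EXT_coord_le (w : E N) (i : Fin N) : ‖((w i : ℝ) : ℂ)‖ ≤ ‖w‖ := by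
  rw [Complex.norm_real]
  exact PiLp.norm_apply_le w i

theorem EXT_nice (h2 : St_GK) {z : ℂ} (hz : 0 < z.re) (x : E N) :
    Nice (EXT_k z x) ∧ ∀ i, Nice (EXT_k1 z x i) := by
  obtain ⟨C, c, hc, hb⟩ := EXT_master (N := N) h2 hz ‖z‖ ‖x‖
  have hb := hb z le_rfl le_rfl x le_rfl
  have hz0 : 0 < ‖z‖ := norm_pos_iff.2 fun h => by simp [h] at hz
  set A : ℝ := 1 + 1 / (2 * ‖z‖) + 1 / (4 * ‖z‖ ^ 2) with hA
  have p1 : 0 < 1 / (2 * ‖z‖) := by positivity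
  have p2 : 0 < 1 / (4 * ‖z‖ ^ 2) := by positivity
  have hA0 : 0 ≤ A := by positivity
  have b0 : ∀ y, ‖EXT_k z x y‖ ≤ A * C * Real.exp (-c * ‖y‖ ^ 2) := by
    intro y
    have h := EXT_mulb (a := 1) hA0 (by
      rw [norm_one]
      nlinarith [sq_nonneg ‖x - y‖, mul_nonneg hA0 (sq_nonneg ‖x - y‖)]) (hb y)
    rwa [one_mul, ← mul_assoc] at h
  have b1 : ∀ i y, ‖EXT_k1 z x i y‖ ≤ A * C * Real.exp (-c * ‖y‖ ^ 2) := by
    intro i y
    rw [mul_assoc]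
    refine EXT_mulb hA0 ?_ (hb y)
    have f1 := EXT_coord_le (x - y) i
    have f2 : ‖x - y‖ ≤ 1 + ‖x - y‖ ^ 2 := by nlinarith [sq_nonneg (‖x - y‖ - 1)]
    rw [norm_div, norm_mul, Complex.norm_ofNat, div_eq_mul_one_div, mul_comm]
    exact mul_le_mul (by linarith) (f1.trans f2) (norm_nonneg _) hA0
  have b2 : ∀ i j y, ‖EXT_k2 z x i j y‖ ≤ A * C * Real.exp (-c * ‖y‖ ^ 2) := by
    intro i j y
    rw [mul_assoc]
    refine EXT_mulb hA0 ((norm_sub_le _ _).trans ?_) (hb y)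
    have f1 : ‖(((x - y) i : ℝ) : ℂ) * (((x - y) j : ℝ) : ℂ) / (4 * z ^ 2)‖ ≤
        1 / (4 * ‖z‖ ^ 2) * ‖x - y‖ ^ 2 := by
      rw [norm_div, norm_mul, norm_mul, Complex.norm_ofNat, norm_pow, div_eq_mul_one_div, mul_comm]
      refine mul_le_mul_of_nonneg_left ?_ p2.le
      rw [sq]
      exact mul_le_mul (EXT_coord_le _ i) (EXT_coord_le _ j) (norm_nonneg _) (norm_nonneg _)
    have f2 : ‖(((ee j : E N) i : ℝ) : ℂ) / (2 * z)‖ ≤ 1 / (2 * ‖z‖) := by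
      rw [norm_div, norm_mul, Complex.norm_ofNat]
      refine div_le_div_of_nonneg_right ?_ (by positivity)
      exact (EXT_coord_le _ i).trans (norm_ee j).le
    nlinarith [sq_nonneg ‖x - y‖, mul_nonneg p1.le (sq_nonneg ‖x - y‖)]
  refine ⟨⟨EXT_k_smooth h2 hz x, A * C, c, hc, fun y => ⟨b0 y, fun i => ?_⟩⟩,
    fun i => ⟨EXT_k1_smooth h2 hz x i, A * C, c, hc, fun y => ⟨b1 i y, fun j => ?_⟩⟩⟩
  · rw [EXT_k_pdc h2 hz]
    exact b1 i y
  · rw [EXT_k1_pdc h2 hz]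
    exact b2 i j y

/-- The derivative of the kernel in the complex time. -/
def EXT_kt (z : ℂ) (x y : E N) : ℂ :=
  (((‖x - y‖ ^ 2 : ℝ) : ℂ) / (4 * z ^ 2) - N / (2 * z)) * GK z (x - y)

theorem EXT_lap (z : ℂ) (x y : E N) : ∑ i, EXT_k2 z x i i y = EXT_kt z x y := by
  have e1 : ∀ i : Fin N, (ee i : E N) i = 1 := fun i => by simp [ee]
  have e2 : ‖x - y‖ ^ 2 = ∑ i, (x - y) i * (x - y) i := by
    rw [EuclideanSpace.norm_sq_eq]
    exact Finset.sum_congr rfl fun i _ => by rw [Real.norm_eq_abs, sq_abs, sq]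
  simp only [EXT_k2, EXT_kt, e1, e2, ← Finset.sum_mul, Finset.sum_sub_distrib, ← Finset.sum_div]
  simp

/-- The complex time. -/
def EXT_z (ε t s : ℝ) : ℂ := ε + Complex.I * ((t - s : ℝ) : ℂ)

theorem EXT_z_re (ε t s : ℝ) : (EXT_z ε t s).re = ε := by simp [EXT_z]

theorem EXT_z_norm {ε : ℝ} (hε : 0 < ε) (t s : ℝ) : ‖EXT_z ε t s‖ ≤ ε + |t| + |s| := by
  refine (norm_add_le _ _).trans ?_
  rw [norm_mul, Complex.norm_I, one_mul, Complex.norm_real, Complex.norm_real, Real.norm_eq_abs,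
    Real.norm_eq_abs, abs_of_pos hε, add_assoc]
  exact add_le_add le_rfl (abs_sub t s)

theorem EXT_z_deriv (ε t s : ℝ) : HasDerivAt (EXT_z ε t) (-Complex.I) s := by
  have h1 : HasDerivAt (fun s : ℝ => t - s) (-1) s := by
    simpa using (hasDerivAt_id s).const_sub t
  have h3 := (h1.ofReal_comp.const_mul Complex.I).const_add (ε : ℂ)
  refine HasDerivAt.congr_deriv h3 ?_
  simp

theorem EXT_k_time (h2 : St_GK) {ε : ℝ} (hε : 0 < ε) (t s : ℝ) (x y : E N) :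
    HasDerivAt (fun σ => EXT_k (EXT_z ε t σ) x y) (-Complex.I * EXT_kt (EXT_z ε t s) x y) s := by
  have hz : 0 < (EXT_z ε t s).re := by rwa [EXT_z_re]
  exact (((h2 N).2.2 _ hz).2.2.2.2.2.2.1 (x - y)).scomp s (EXT_z_deriv ε t s)

/-- Joint continuity of pairings with the kernel. -/
theorem EXT_joint (h2 : St_GK) {ε : ℝ} (hε : 0 < ε) (t : ℝ) {p q : ℝ} (hpq : p.HolderConjugate q)
    {w : ℝ → E N → ℂ} (hw : ∀ s, Mem p (w s))
    (hl : ∀ s, Tendsto (fun σ => nr p fun x => w σ x - w s x) (𝓝 s) (𝓝 0)) :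
    Continuous fun z : ℝ × E N => ∫ y, w z.1 y * EXT_k (EXT_z ε t z.1) z.2 y := by
  rw [continuous_iff_continuousAt]
  intro z
  obtain ⟨C, c, hc, hb⟩ := EXT_master (N := N) h2 hε (ε + |t| + (|z.1| + 1)) (‖z.2‖ + 1)
  have hre : ∀ s, 0 < (EXT_z ε t s).re := fun s => by rwa [EXT_z_re]
  refine EXT_lim (C := C) hpq hc (a := fun n : ℝ × E N => EXT_k (EXT_z ε t n.1) n.2)
    (w := fun n : ℝ × E N => w n.1)
    (fun n => (EXT_k_smooth h2 (hre n.1) n.2).continuous.aestronglyMeasurable) ?_ (fun y => ?_)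
    (fun n => hw n.1) (hw z.1) ((hl z.1).comp continuous_fst.continuousAt)
  · have f1 : ∀ᶠ n : ℝ × E N in 𝓝 z, |n.1| < |z.1| + 1 :=
      (continuous_fst.abs.continuousAt (x := z)).eventually_lt continuousAt_const (by linarith)
    have f2 : ∀ᶠ n : ℝ × E N in 𝓝 z, ‖n.2‖ < ‖z.2‖ + 1 :=
      (continuous_snd.norm.continuousAt (x := z)).eventually_lt continuousAt_const (by linarith)
    filter_upwards [f1, f2] with n g1 g2 y
    have h := hb (EXT_z ε t n.1) (EXT_z_re ε t n.1).ge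
      ((EXT_z_norm hε t n.1).trans (by linarith)) n.2 g2.le y
    refine le_trans ?_ h
    exact le_mul_of_one_le_left (norm_nonneg _) (by nlinarith [sq_nonneg ‖n.2 - y‖])
  · have f1 : Continuous fun n : ℝ × E N => (EXT_z ε t n.1, n.2 - y) := by
      unfold EXT_z
      fun_prop
    exact ((h2 N).1.comp_continuous f1 fun n => hre n.1).continuousAt (x := z)

theorem EXT_kt_bound (h2 : St_GK) {ε : ℝ} (hε : 0 < ε) (t A : ℝ) (x : E N) :
    ∃ C c : ℝ, 0 < c ∧ ∀ s, |s| ≤ A → ∀ y,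
      ‖-Complex.I * EXT_kt (EXT_z ε t s) x y‖ ≤ C * Real.exp (-c * ‖y‖ ^ 2) := by
  obtain ⟨C, c, hc, hb⟩ := EXT_master (N := N) h2 hε (ε + |t| + A) ‖x‖
  have p1 : 0 ≤ (N : ℝ) / (2 * ε) := by positivity
  have p2 : 0 < 1 / (4 * ε ^ 2) := by positivity
  refine ⟨(1 / (4 * ε ^ 2) + N / (2 * ε)) * C, c, hc, fun s hs y => ?_⟩
  have hn : ε ≤ ‖EXT_z ε t s‖ :=
    (EXT_z_re ε t s).ge.trans ((le_abs_self _).trans (Complex.abs_re_le_norm _))
  rw [norm_mul, norm_neg, Complex.norm_I, one_mul, mul_assoc]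
  refine EXT_mulb (by positivity) ((norm_sub_le _ _).trans ?_)
    (hb _ (EXT_z_re ε t s).ge ((EXT_z_norm hε t s).trans (by linarith)) x le_rfl y)
  have f1 : ‖((‖x - y‖ ^ 2 : ℝ) : ℂ) / (4 * EXT_z ε t s ^ 2)‖ ≤ 1 / (4 * ε ^ 2) * ‖x - y‖ ^ 2 := by
    rw [norm_div, norm_mul, Complex.norm_ofNat, norm_pow, Complex.norm_real, Real.norm_eq_abs,
      abs_of_nonneg (sq_nonneg _), div_eq_mul_one_div, mul_comm]
    refine mul_le_mul_of_nonneg_right ?_ (sq_nonneg _)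
    exact one_div_le_one_div_of_le (by positivity)
      (mul_le_mul_of_nonneg_left (pow_le_pow_left₀ hε.le hn 2) (by norm_num))
  have f2 : ‖(N : ℂ) / (2 * EXT_z ε t s)‖ ≤ N / (2 * ε) := by
    rw [norm_div, norm_mul, Complex.norm_ofNat, Complex.norm_natCast]
    exact div_le_div_of_nonneg_left (Nat.cast_nonneg N) (by positivity) (by linarith)
  nlinarith [sq_nonneg ‖x - y‖, mul_nonneg p1 (sq_nonneg ‖x - y‖)]

theorem EXT_deriv (h1 : St_EXT) (h2 : St_GK) {α κ : ℝ} {v : ℝ → E N → ℂ}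
    {dv : ℝ → Fin N → E N → ℂ} (hsub : Sub N α) (hs : Sol α κ v dv) {ε : ℝ} (hε : 0 < ε)
    (t : ℝ) (x : E N) {s : ℝ} (hs0 : 0 < s) :
    HasDerivAt (fun σ => ∫ y, v σ y * EXT_k (EXT_z ε t σ) x y)
      (Complex.I * ((Real.exp (κ * s) : ℝ) * ∫ y, NL α (v s y) * EXT_k (EXT_z ε t s) x y)) s := by
  have h22 := Real.HolderConjugate.two_two
  have hre : ∀ s, 0 < (EXT_z ε t s).re := fun s => by rwa [EXT_z_re]
  have hm : ∀ s, Mem 2 (v s) := fun s => mem_two.2 (hs.h1 s).mem0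
  have hk : ∀ σ, Mem 2 (EXT_k (EXT_z ε t σ) x) := fun σ => by
    obtain ⟨h0, C, c, hc, hb⟩ := (EXT_nice h2 (hre σ) x).1
    exact EXT_mem hc two_pos h0.continuous.aestronglyMeasurable fun y => (hb y).1
  obtain ⟨n0, n1⟩ := EXT_nice h2 (hre s) x
  have d1 := ((h1 N _ n0).2 α κ v dv hsub hs s hs0).tendsto_slope_zero
  have e1 : -(∑ i, ∫ y, dv s i y * pdc i (EXT_k (EXT_z ε t s) x) y) =
      ∫ y, v s y * EXT_kt (EXT_z ε t s) x y := by
    have f1 : ∀ i, Integrable fun y => v s y * EXT_k2 (EXT_z ε t s) x i i y := by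
      intro i
      obtain ⟨h0, C, c, hc, hb⟩ := n1 i
      rw [← EXT_k1_pdc h2 (hre s)]
      exact holder_integrable h22 (hm s)
        (EXT_mem hc two_pos (EXT_pdc_cont h0 i).aestronglyMeasurable fun y => (hb y).2 i)
    simp only [← EXT_lap, Finset.mul_sum]
    rw [integral_finsetSum _ fun i _ => f1 i, ← Finset.sum_neg_distrib]
    refine Finset.sum_congr rfl fun i _ => ?_
    rw [EXT_k_pdc h2 (hre s), ← (h1 N _ (n1 i)).1 _ _ (hs.h1 s) i, EXT_k1_pdc h2 (hre s)]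
  rw [e1] at d1
  obtain ⟨C, c, hc, hb⟩ := EXT_kt_bound h2 hε t (|s| + 1) x
  have d2 : Tendsto (fun h : ℝ => ∫ y, v (s + h) y *
      (h⁻¹ • (EXT_k (EXT_z ε t (s + h)) x y - EXT_k (EXT_z ε t s) x y))) (𝓝[≠] 0)
      (𝓝 (∫ y, v s y * (-Complex.I * EXT_kt (EXT_z ε t s) x y))) := by
    refine EXT_lim (C := C) h22 hc
      (a := fun h y => h⁻¹ • (EXT_k (EXT_z ε t (s + h)) x y - EXT_k (EXT_z ε t s) x y))
      (w := fun h => v (s + h)) (fun h => ?_) ?_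
      (fun y => (EXT_k_time h2 hε t s x y).tendsto_slope_zero) (fun h => hm _) (hm s) ?_
    · exact ((hk (s + h)).1.sub (hk s).1).const_smul h⁻¹
    · have f1 : ∀ᶠ h : ℝ in 𝓝[≠] 0, |h| < 1 :=
        mem_nhdsWithin_of_mem_nhds
          ((continuous_abs.continuousAt (x := (0 : ℝ))).eventually_lt continuousAt_const (by simp))
      filter_upwards [f1, self_mem_nhdsWithin] with h g1 g2 y
      have g3 : h ≠ 0 := g2
      have g4 := Convex.norm_image_sub_le_of_norm_hasDerivWithin_le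
        (s := Icc (-(|s| + 1)) (|s| + 1)) (x := s) (y := s + h)
        (f := fun σ => EXT_k (EXT_z ε t σ) x y)
        (f' := fun σ => -Complex.I * EXT_kt (EXT_z ε t σ) x y)
        (C := C * Real.exp (-c * ‖y‖ ^ 2))
        (fun σ _ => (EXT_k_time h2 hε t σ x y).hasDerivWithinAt)
        (fun σ hσ => hb σ (abs_le.2 hσ) y) (convex_Icc _ _)
        (abs_le.1 (by linarith)) (abs_le.1 ((abs_add_le s h).trans (by linarith)))
      rw [add_sub_cancel_left] at g4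
      rw [norm_smul, norm_inv, inv_mul_le_iff₀ (norm_pos_iff.2 g3), mul_comm]
      exact g4
    · have f1 : Tendsto (fun h : ℝ => s + h) (𝓝[≠] 0) (𝓝 s) := by
        have f2 : Tendsto (fun h : ℝ => s + h) (𝓝 0) (𝓝 (s + 0)) :=
          (continuous_const.add continuous_id).tendsto 0
        rw [add_zero] at f2
        exact f2.mono_left nhdsWithin_le_nhds
      exact (EXT_nr_two (fun t => (hs.h1 t).mem0) (hs.c0 s)).comp f1
  rw [hasDerivAt_iff_tendsto_slope_zero]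
  have d3 := d1.add d2
  have e2 : ∫ y, v s y * (-Complex.I * EXT_kt (EXT_z ε t s) x y) =
      -Complex.I * ∫ y, v s y * EXT_kt (EXT_z ε t s) x y := by
    rw [← integral_const_mul]
    refine integral_congr_ae (Eventually.of_forall fun y => ?_)
    simp only
    ring
  have e3 : Complex.I * ((∫ y, v s y * EXT_kt (EXT_z ε t s) x y) +
      (Real.exp (κ * s) : ℝ) * ∫ y, NL α (v s y) * EXT_k (EXT_z ε t s) x y) +
      ∫ y, v s y * (-Complex.I * EXT_kt (EXT_z ε t s) x y) =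
      Complex.I * ((Real.exp (κ * s) : ℝ) * ∫ y, NL α (v s y) * EXT_k (EXT_z ε t s) x y) := by
    rw [e2]
    ring
  rw [e3] at d3
  refine d3.congr fun h => ?_
  have e4 : ∫ y, v (s + h) y * (h⁻¹ • (EXT_k (EXT_z ε t (s + h)) x y - EXT_k (EXT_z ε t s) x y)) =
      h⁻¹ • ((∫ y, v (s + h) y * EXT_k (EXT_z ε t (s + h)) x y) -
        ∫ y, v (s + h) y * EXT_k (EXT_z ε t s) x y) := by
    rw [← integral_sub (holder_integrable h22 (hm _) (hk _)) (holder_integrable h22 (hm _) (hk _)),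
      ← integral_smul]
    refine integral_congr_ae (Eventually.of_forall fun y => ?_)
    simp only [Complex.real_smul]
    ring
  rw [e4, ← smul_add]
  congr 1
  ring

theorem EXT_cv (z : ℂ) (g : E N → ℂ) (x : E N) : cv (GK z) g x = ∫ y, g y * EXT_k z x y :=
  integral_congr_ae (Eventually.of_forall fun _ => mul_comm _ _)

theorem DUH (h1 : St_EXT) (h2 : St_GK) (h3 : St_BASIC) (_h4 : St_CONV) : St_DUH := by
  intro N α κ v dv hsub hs ε t0 t hε ht0 ht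
  obtain ⟨-, -, -, -, hn, hnl, -⟩ := h3 N α κ v dv hsub hs
  have hα := hsub.2.1
  have k1 := EXT_joint h2 hε t (conj_exp hα).symm (w := fun s y => NL α (v s y))
    (fun s => (hn s).2) hnl
  have k2 := EXT_joint h2 hε t Real.HolderConjugate.two_two (w := v)
    (fun s => mem_two.2 (hs.h1 s).mem0) fun s => EXT_nr_two (fun t => (hs.h1 t).mem0) (hs.c0 s)
  simp only [EXT_cv]
  refine ⟨k1, fun x => ?_⟩
  have k3 : Continuous fun s : ℝ => Complex.I * (((Real.exp (κ * s) : ℝ) : ℂ) *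
      ∫ y, NL α (v s y) * EXT_k (EXT_z ε t s) x y) :=
    continuous_const.mul (Continuous.mul (by fun_prop) (k1.comp (Continuous.prodMk_left x)))
  have k4 := intervalIntegral.integral_eq_sub_of_hasDerivAt_of_le ht
    (f := fun σ => ∫ y, v σ y * EXT_k (EXT_z ε t σ) x y)
    (k2.comp (Continuous.prodMk_left x)).continuousOn
    (fun s hs' => EXT_deriv h1 h2 hsub hs hε t x (ht0.trans_lt hs'.1))
    (k3.intervalIntegrable _ _)
  have e : EXT_z ε t t = ε := by simp [EXT_z]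
  rw [intervalIntegral.integral_const_mul, e] at k4
  exact (sub_eq_iff_eq_add'.1 k4.symm)

end

end Pool.Agent.Lib.MP_13801a_an.ND
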