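import Mathlib
import Pool.Agent.Lib.MP_13801a_an.ND.StsA

/-!
The end of the blowup proof: the two window inequalities contradict a negative energy.
-/

open MeasureTheory Set Filter
open scoped Topology

namespace Pool.Agent.Lib.MP_13801a_an.ND

/-! ### Real variable lemmas -/

theorem FIN_wt_nonneg (t1 T s : ℝ) : 0 ≤ wt t1 T s := by
  unfold wt
  positivity

theorem FIN_wt_cont (t1 T : ℝ) : Continuous fun s => wt t1 T s := by
  unfold wt
  fun_prop

theorem FIN_int_wt (t1 T : ℝ) : ∫ s in t1..t1 + T, wt t1 T s = T ^ 5 / 30 := by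
  have hd : ∀ s ∈ uIcc t1 (t1 + T), HasDerivAt
      (fun s : ℝ => (s - t1) ^ 5 / 5 - T * (s - t1) ^ 4 / 2 + T ^ 2 * (s - t1) ^ 3 / 3)
      (wt t1 T s) s := by
    intro s _
    have h0 : HasDerivAt (fun s : ℝ => s - t1) 1 s := (hasDerivAt_id s).sub_const t1
    have h := (((h0.pow 5).div_const 5).sub (((h0.pow 4).const_mul T).div_const 2)).add
      (((h0.pow 3).const_mul (T ^ 2)).div_const 3)
    refine h.congr_deriv ?_
    simp only [wt]
    push_cast
    ring
  rw [intervalIntegral.integral_eq_sub_of_hasDerivAt hd ((FIN_wt_cont t1 T).intervalIntegrable _ _)]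
  ring

theorem FIN_lower {F : ℝ → ℝ} (hF : Continuous F) {t1 T F0 : ℝ} (hT : 0 ≤ T)
    (h : ∀ s ∈ Icc t1 (t1 + T), F0 ≤ F s) :
    F0 * (T ^ 5 / 30) ≤ ∫ s in t1..t1 + T, wt t1 T s * F s := by
  rw [← FIN_int_wt t1 T, ← intervalIntegral.integral_const_mul]
  refine intervalIntegral.integral_mono_on (by linarith)
    (((FIN_wt_cont t1 T).const_mul F0).intervalIntegrable _ _)
    (((FIN_wt_cont t1 T).mul hF).intervalIntegrable _ _) fun s hs => ?_
  rw [mul_comm]
  exact mul_le_mul_of_nonneg_left (h s hs) (FIN_wt_nonneg _ _ _)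

theorem FIN_upper {F : ℝ → ℝ} (hF : Continuous F) {t1 T F0 : ℝ} (hT : 0 ≤ T)
    (h : ∀ s ∈ Icc t1 (t1 + T), F s ≤ F0) :
    ∫ s in t1..t1 + T, wt t1 T s * F s ≤ F0 * (T ^ 5 / 30) := by
  rw [← FIN_int_wt t1 T, ← intervalIntegral.integral_const_mul]
  refine intervalIntegral.integral_mono_on (by linarith)
    (((FIN_wt_cont t1 T).mul hF).intervalIntegrable _ _)
    (((FIN_wt_cont t1 T).const_mul F0).intervalIntegrable _ _) fun s hs => ?_
  rw [mul_comm F0]
  exact mul_le_mul_of_nonneg_left (h s hs) (FIN_wt_nonneg _ _ _)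

theorem FIN_sq {A K : ℝ} (hA : 0 < A) (h : ∀ T, 0 < T → A * T ^ 2 ≤ K) : False := by
  have h1 := h 1 one_pos
  have hK : 0 < K / A := div_pos (by linarith) hA
  have h2 := h (K / A + 1) (by linarith)
  have h3 : A * (K / A) = K := by field_simp
  nlinarith [mul_pos hA hK, mul_pos hA (mul_pos hK hK)]

/-- The right hand sides of the window inequalities are small compared with the energy. -/
theorem FIN_small {c κ u e p C ε : ℝ} (hc : 0 < c) (hκ : 0 < κ) (hε : 0 < ε)
    (hp : p * (1 - u * e) < u) :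
    ∀ᶠ t in atTop, C * (Real.exp (κ * (t + 1)) / (c * Real.exp (κ * u * t)) ^ e) ^ p ≤
      ε * (c * Real.exp (κ * u * t)) := by
  obtain ⟨l, rfl⟩ : ∃ l, Real.exp l = c := ⟨Real.log c, Real.exp_log hc⟩
  have hB : 0 < κ * (u - p * (1 - u * e)) := mul_pos hκ (by linarith)
  have h1 : Tendsto (fun t : ℝ => C * Real.exp (p * (κ - e * l) - l) *
      Real.exp (-(κ * (u - p * (1 - u * e)) * t))) atTop (𝓝 (C * Real.exp (p * (κ - e * l) - l) * 0)) :=
    (Real.tendsto_exp_neg_atTop_nhds_zero.comp (tendsto_id.const_mul_atTop hB)).const_mul _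
  rw [mul_zero] at h1
  filter_upwards [h1.eventually (eventually_le_nhds hε)] with t ht
  have e1 : (Real.exp (κ * (t + 1)) / (Real.exp l * Real.exp (κ * u * t)) ^ e) ^ p =
      Real.exp (p * (κ - e * l) - l) * Real.exp (-(κ * (u - p * (1 - u * e)) * t)) *
        (Real.exp l * Real.exp (κ * u * t)) := by
    rw [← Real.exp_add, ← Real.exp_mul, ← Real.exp_sub, ← Real.exp_mul, ← Real.exp_add,
      ← Real.exp_add]
    congr 1
    ring
  rw [e1, ← mul_assoc C, ← mul_assoc C]
  exact mul_le_mul_of_nonneg_right ht (by positivity)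

/-- Exponential lower bounds of rate `u`. -/
def FIN_Cl (F : ℝ → ℝ) (κ u : ℝ) : Prop :=
  ∃ c t0 : ℝ, 0 < c ∧ 0 < t0 ∧ ∀ t, t0 ≤ t → c * Real.exp (κ * u * t) ≤ F t

/-- A differential inequality for window averages gives an exponential lower bound. -/
theorem FIN_gron {F P : ℝ → ℝ} {κ lam t0 : ℝ} (hF : Continuous F) (hP : Continuous P)
    (hP0 : ∀ s, 0 ≤ P s) (hκ : 0 ≤ κ)
    (hE : ∀ s t, 0 ≤ s → s ≤ t → F t - F s = ∫ σ in s..t, κ * P σ) (ht0 : 0 < t0)
    (hpos : 0 < ∫ s in t0..t0 + 1, wt t0 1 s * F s)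
    (hin : ∀ t, t0 ≤ t →
      lam * ∫ s in t..t + 1, wt t 1 s * F s ≤ ∫ s in t..t + 1, wt t 1 s * P s) :
    FIN_Cl F κ lam := by
  have hκP : Continuous fun σ => κ * P σ := hP.const_mul κ
  set G : ℝ → ℝ := fun t => F 0 + ∫ σ in (0 : ℝ)..t, κ * P σ with hG
  have hGd : ∀ t, HasDerivAt G (κ * P t) t := fun t =>
    (intervalIntegral.integral_hasDerivAt_right
      (hκP.intervalIntegrable _ _) (hκP.stronglyMeasurableAtFilter _ _)
      hκP.continuousAt).const_add _
  have hGc : Continuous G := continuous_iff_continuousAt.2 fun t => (hGd t).continuousAt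
  have hGF : ∀ t, 0 ≤ t → G t = F t := fun t ht => by
    have := hE 0 t le_rfl ht
    simp only [hG]
    linarith
  have hw : Continuous fun s : ℝ => wt 0 1 s := FIN_wt_cont 0 1
  have hsh : ∀ (H : ℝ → ℝ) (t : ℝ),
      ∫ s in (0 : ℝ)..1, wt 0 1 s * H (t + s) = ∫ s in t..t + 1, wt t 1 s * H s := by
    intro H t
    have h := intervalIntegral.integral_comp_add_left (a := 0) (b := 1)
      (fun s => wt t 1 s * H s) t
    rw [add_zero] at h
    rw [← h]
    refine intervalIntegral.integral_congr fun s _ => ?_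
    simp only [wt]
    congr 1
    ring
  set I : ℝ → ℝ := fun t => ∫ s in (0 : ℝ)..1, wt 0 1 s * G (t + s) with hI
  have hId : ∀ t, HasDerivAt I (∫ s in (0 : ℝ)..1, wt 0 1 s * (κ * P (t + s))) t := by
    intro t
    have hc2 : Continuous fun a : ℝ × ℝ => wt 0 1 a.2 * (κ * P (a.1 + a.2)) :=
      (hw.comp continuous_snd).mul (hκP.comp (continuous_fst.add continuous_snd))
    obtain ⟨B, hB⟩ := ((isCompact_Icc (a := t - 1) (b := t + 1)).prod
      (isCompact_Icc (a := (0 : ℝ)) (b := 1))).exists_bound_of_continuousOn hc2.continuousOn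
    refine (intervalIntegral.hasDerivAt_integral_of_dominated_loc_of_deriv_le
      (F := fun x s => wt 0 1 s * G (x + s)) (F' := fun x s => wt 0 1 s * (κ * P (x + s)))
      (s := Icc (t - 1) (t + 1)) (bound := fun _ => B)
      (Icc_mem_nhds (by linarith) (by linarith)) (Eventually.of_forall fun x => ?_) ?_ ?_
      (Eventually.of_forall fun s hs x hx => ?_) intervalIntegrable_const
      (Eventually.of_forall fun s _ x _ => ?_)).2
    · exact (hw.mul (hGc.comp (continuous_const.add continuous_id))).aestronglyMeasurable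
    · exact (hw.mul (hGc.comp (continuous_const.add continuous_id))).intervalIntegrable _ _
    · exact (hw.mul (hκP.comp (continuous_const.add continuous_id))).aestronglyMeasurable
    · rw [uIoc_of_le zero_le_one] at hs
      exact hB (x, s) ⟨hx, Ioc_subset_Icc_self hs⟩
    · exact ((hGd (x + s)).comp_add_const x s).const_mul _
  have hIF : ∀ t, 0 ≤ t → I t = ∫ s in t..t + 1, wt t 1 s * F s := by
    intro t ht
    simp only [hI]
    rw [hsh G t]
    refine intervalIntegral.integral_congr fun s hs => ?_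
    rw [uIcc_of_le (by linarith)] at hs
    simp only [hGF s (ht.trans hs.1)]
  have hI' : ∀ t, ∫ s in (0 : ℝ)..1, wt 0 1 s * (κ * P (t + s)) =
      κ * ∫ s in t..t + 1, wt t 1 s * P s := by
    intro t
    rw [← hsh P t, ← intervalIntegral.integral_const_mul]
    exact intervalIntegral.integral_congr fun s _ => by ring
  have hJ : ∀ t, HasDerivAt (fun t => Real.exp (-(κ * lam * t)) * I t)
      (Real.exp (-(κ * lam * t)) *
        (κ * ((∫ s in t..t + 1, wt t 1 s * P s) - lam * I t))) t := by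
    intro t
    have h := (((hasDerivAt_id t).const_mul (κ * lam)).neg.exp).mul (hId t)
    refine h.congr_deriv ?_
    rw [hI' t]
    simp only [id, Pi.neg_apply]
    ring
  have hmono : MonotoneOn (fun t => Real.exp (-(κ * lam * t)) * I t) (Ici t0) := by
    refine monotoneOn_of_deriv_nonneg (convex_Ici t0)
      (fun t _ => (hJ t).continuousAt.continuousWithinAt)
      (fun t _ => (hJ t).differentiableAt.differentiableWithinAt) fun t ht => ?_
    have ht' : t0 ≤ t := interior_subset ht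
    rw [(hJ t).deriv, hIF t (by linarith)]
    have := hin t ht'
    exact mul_nonneg (Real.exp_pos _).le (mul_nonneg hκ (by linarith))
  have hI0 : 0 < I t0 := by rwa [hIF t0 ht0.le]
  refine ⟨30 * (Real.exp (-(κ * lam * t0)) * I t0) * Real.exp (-(κ * lam)), t0 + 1,
    by positivity, by linarith, fun t ht => ?_⟩
  have h1 := hmono (mem_Ici.2 le_rfl) (mem_Ici.2 (show t0 ≤ t - 1 by linarith)) (by linarith)
  have h2 : I (t - 1) ≤ F t * (1 ^ 5 / 30) := by
    rw [hIF (t - 1) (by linarith)]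
    refine FIN_upper hF zero_le_one fun s hs => ?_
    have h3 := hE s t (by linarith [hs.1]) (by linarith [hs.2])
    have h4 : 0 ≤ ∫ σ in s..t, κ * P σ :=
      intervalIntegral.integral_nonneg (by linarith [hs.2]) fun σ _ => mul_nonneg hκ (hP0 σ)
    linarith
  have h5 : Real.exp (-(κ * lam * (t - 1))) * (Real.exp (-(κ * lam)) * Real.exp (κ * lam * t)) =
      1 := by
    rw [← Real.exp_add, ← Real.exp_add, Real.exp_eq_one_iff]
    ring
  have h6 := mul_le_mul_of_nonneg_right h1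
    (show 0 ≤ Real.exp (-(κ * lam)) * Real.exp (κ * lam * t) by positivity)
  simp only at h6
  calc 30 * (Real.exp (-(κ * lam * t0)) * I t0) * Real.exp (-(κ * lam)) * Real.exp (κ * lam * t)
      = 30 * (Real.exp (-(κ * lam * t0)) * I t0 *
          (Real.exp (-(κ * lam)) * Real.exp (κ * lam * t))) := by ring
    _ ≤ 30 * (Real.exp (-(κ * lam * (t - 1))) * I (t - 1) *
          (Real.exp (-(κ * lam)) * Real.exp (κ * lam * t))) := by linarith
    _ = 30 * I (t - 1) * (Real.exp (-(κ * lam * (t - 1))) *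
          (Real.exp (-(κ * lam)) * Real.exp (κ * lam * t))) := by ring
    _ ≤ F t := by rw [h5]; linarith

/-! ### The window inequalities -/

section Main

variable {N : ℕ} {α κ : ℝ} {v : ℝ → E N → ℂ} {dv : ℝ → Fin N → E N → ℂ}

theorem FIN_pot_nonneg (hα : 0 < α) (s : ℝ) : 0 ≤ pot α κ v s := by
  unfold pot
  have := pw_nonneg α (v s)
  positivity

theorem FIN_cont (h1 : St_BASIC) (hS : Sub N α) (hv : Sol α κ v dv) :
    (Continuous fun s => pot α κ v s) ∧ Continuous fun s => -en α κ v dv s := by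
  obtain ⟨-, hk, hp, -⟩ := h1 N α κ v dv hS hv
  have hP : Continuous fun s => pot α κ v s := by
    unfold pot
    exact ((Real.continuous_exp.comp (continuous_const.mul continuous_id)).mul hp).div_const _
  refine ⟨hP, ?_⟩
  unfold en
  exact ((hk.div_const _).sub hP).neg

theorem FIN_mass (hα : 0 < α) (hv : Sol α κ v dv) {t : ℝ} (ht : en α κ v dv t < 0) :
    0 < ms (v t) := by
  refine (ms_nonneg _).lt_of_ne fun h0 => ?_
  have h1 := (integral_eq_zero_iff_of_nonneg (fun x => by positivity)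
    (integrable_ms (hv.h1 t).mem0)).1 h0.symm
  have h2 : pw α (v t) = 0 := by
    refine integral_eq_zero_of_ae ?_
    filter_upwards [h1] with x hx
    have h3 : ‖v t x‖ = 0 := by simpa using hx
    simp only [h3, Pi.zero_apply]
    exact Real.zero_rpow (by positivity)
  have h4 := kin_nonneg (dv t)
  simp only [en, pot, h2, mul_zero, zero_div] at ht
  linarith

theorem FIN_split (h1 : St_BASIC) (hS : Sub N α) (hv : Sol α κ v dv) (A η t1 T : ℝ) :
    ∫ s in t1..t1 + T, wt t1 T s * ((A - η) * pot α κ v s - (4 + η) * kin (dv s)) =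
      (8 + 2 * η) * (∫ s in t1..t1 + T, wt t1 T s * -en α κ v dv s) -
        (8 - A + 3 * η) * ∫ s in t1..t1 + T, wt t1 T s * pot α κ v s := by
  obtain ⟨hP, hF⟩ := FIN_cont h1 hS hv
  have c1 : Continuous fun s => (8 + 2 * η) * (wt t1 T s * -en α κ v dv s) :=
    ((FIN_wt_cont t1 T).mul hF).const_mul _
  have c2 : Continuous fun s => (8 - A + 3 * η) * (wt t1 T s * pot α κ v s) :=
    ((FIN_wt_cont t1 T).mul hP).const_mul _
  rw [← intervalIntegral.integral_const_mul, ← intervalIntegral.integral_const_mul,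
    ← intervalIntegral.integral_sub (c1.intervalIntegrable _ _) (c2.intervalIntegrable _ _)]
  refine intervalIntegral.integral_congr fun s _ => ?_
  simp only [en]
  ring

/-- The case without forcing. -/
theorem FIN_zero (h1 : St_BASIC) (h5 : St_WIN) (h6 : St_MWIN) (hN : 4 < N * α) (hS : Sub N α)
    (hv : Sol α 0 v dv) {M : ℝ} (hM : 0 < M) (hm : ∀ t, 0 ≤ t → ms (v t) = M) {t1 y0 : ℝ}
    (ht1 : 0 < t1) (hy : 0 < y0) (hF0 : ∀ t, t1 ≤ t → y0 ≤ -en α 0 v dv t) : False := by
  obtain ⟨hN1, hα, hs⟩ := id hS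
  rcases le_or_gt (α * (N - 1)) 4 with hk | hk
  · obtain ⟨C, -, hC⟩ := h6 N α M hN hk hM
    refine FIN_sq hy (K := C * (1 / y0 ^ (1 - α * (N - 1) / 4)) ^ (4 / α)) fun T hT => ?_
    have h := hC 0 v dv le_rfl hv hm t1 T y0 ht1 hT hy fun s hs => hF0 s hs.1
    rwa [zero_mul, Real.exp_zero] at h
  · have hN2 : 2 ≤ N := by
      by_contra h
      have : N = 1 := by omega
      subst this
      simp only [Nat.cast_one, sub_self, mul_zero] at hk
      linarith
    have h4 : α * (4 / α) = 4 := by field_simp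
    have hq1 : 0 < (N : ℝ) - 4 / α := by
      rw [sub_pos, div_lt_iff₀ hα]
      exact hN
    have hq2 : (N : ℝ) - 4 / α < (2 : ℕ) := by
      have : (N : ℝ) - 2 < 4 / α := by
        rw [lt_div_iff₀ hα]
        exact hs
      push_cast
      linarith
    set η : ℝ := (2 * α * (N - 1) - 8) / 3 with hη
    have hη0 : 0 < η := by
      rw [hη]
      linarith
    obtain ⟨C, -, hC⟩ := h5 N 2 α (N - 4 / α) η M hS hN2 hq1 hq2 (by linarith) hη0 hM
    set K : ℝ := C * (1 / y0 ^ (1 - α * (N - (N - 4 / α)) / 4)) ^ (4 / (α * (N - 4 / α))) with hK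
    refine FIN_sq (A := 8 * y0 / 30) (K := K) (by positivity) fun T hT => ?_
    have h := hC 0 v dv le_rfl hv hm t1 T y0 ht1 hT hy fun s hs => hF0 s hs.1
    rw [zero_mul, Real.exp_zero, FIN_split h1 hS hv] at h
    have e0 : 8 - 2 * α * ((N : ℝ) - (2 : ℕ) + 1) + 3 * η = 0 := by
      rw [hη]
      push_cast
      ring
    rw [e0, zero_mul, sub_zero, mul_right_comm, ← hK] at h
    have h2 := FIN_lower (FIN_cont h1 hS hv).2 hT.le (F0 := y0) (t1 := t1) fun s hs => hF0 s hs.1
    have h3 : 0 < y0 * (T ^ 5 / 30) := by positivity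
    have h7 : 8 * y0 / 30 * T ^ 2 * T ^ 3 ≤ K * T ^ 3 := by nlinarith
    exact le_of_mul_le_mul_right h7 (by positivity)

/-- One step of the bootstrap. -/
theorem FIN_step (h1 : St_BASIC) (h2 : St_ENER) (h5 : St_WIN) (hS : Sub N α) (hκ : 0 < κ)
    (hv : Sol α κ v dv) {M : ℝ} (hM : 0 < M) (hm : ∀ t, 0 ≤ t → ms (v t) = M) {q : ℕ}
    (hq2 : 2 ≤ q) (hqN : q ≤ N) {u η : ℝ} (hu : 0 < u)
    (hC : FIN_Cl (fun s => -en α κ v dv s) κ u) (hH : 4 < u * (4 - α * N + 2 * α * q))
    (hη : 0 < η) :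
    0 < 8 - 2 * α * (N - q + 1) + 3 * η ∧
      FIN_Cl (fun s => -en α κ v dv s) κ (8 / (8 - 2 * α * (N - q + 1) + 3 * η)) := by
  obtain ⟨hN1, hα, hs⟩ := id hS
  obtain ⟨hP, hF⟩ := FIN_cont h1 hS hv
  have hq2' : (2 : ℝ) ≤ q := by exact_mod_cast hq2
  have hev : ∀ᶠ x : ℝ in 𝓝[<] (q : ℝ),
      0 < x ∧ x < q ∧ α * (N - x) < 4 ∧ 4 < u * (4 - α * N + 2 * α * x) := by
    refine (Eventually.filter_mono nhdsWithin_le_nhds (lt_mem_nhds (by linarith))).and
      (Eventually.and self_mem_nhdsWithin (Eventually.filter_mono nhdsWithin_le_nhds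
        (Eventually.and ?_ ?_)))
    · exact ContinuousAt.eventually_lt (by fun_prop) continuousAt_const (by nlinarith)
    · exact ContinuousAt.eventually_lt continuousAt_const (by fun_prop) hH
  obtain ⟨q', hq0, hqq, hk, hH'⟩ := hev.exists
  obtain ⟨C, -, hW⟩ := h5 N q α q' η M hS hqN hq0 hqq hk.le hη hM
  obtain ⟨c, t0, hc, ht0, hcl⟩ := hC
  have hp : 4 / (α * q') * (1 - u * (1 - α * (N - q') / 4)) < u := by
    rw [div_mul_eq_mul_div, div_lt_iff₀ (by positivity)]
    linarith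
  obtain ⟨t2, ht2⟩ := eventually_atTop.1
    ((FIN_small (C := C) hc hκ (show 0 < η / 15 by positivity) hp).and (eventually_ge_atTop t0))
  set μ : ℝ := 8 - 2 * α * (N - q + 1) + 3 * η with hμ
  have key : ∀ t, t2 ≤ t → 0 < (∫ s in t..t + 1, wt t 1 s * -en α κ v dv s) ∧
      8 * ∫ s in t..t + 1, wt t 1 s * -en α κ v dv s ≤
        μ * ∫ s in t..t + 1, wt t 1 s * pot α κ v s := by
    intro t ht
    obtain ⟨hsm, ht0'⟩ := ht2 t ht
    have hF0 : 0 < c * Real.exp (κ * u * t) := by positivity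
    have hlow : ∀ s ∈ Icc t (t + 1), c * Real.exp (κ * u * t) ≤ -en α κ v dv s := by
      intro s hs
      refine le_trans ?_ (hcl s (ht0'.trans hs.1))
      exact mul_le_mul_of_nonneg_left (Real.exp_le_exp.2
        (mul_le_mul_of_nonneg_left hs.1 (by positivity))) hc.le
    have h := hW κ v dv hκ.le hv hm t 1 _ (by linarith) one_pos hF0 hlow
    rw [FIN_split h1 hS hv, one_pow, mul_one, ← hμ] at h
    have h3 := FIN_lower hF zero_le_one hlow
    rw [one_pow] at h3
    refine ⟨by linarith, ?_⟩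
    nlinarith
  have ht20 : 0 < t2 := ht0.trans_le (ht2 t2 le_rfl).2
  have hμ0 : 0 < μ := by
    by_contra hcon
    obtain ⟨k1, k2⟩ := key t2 le_rfl
    have h4 : 0 ≤ ∫ s in t2..t2 + 1, wt t2 1 s * pot α κ v s :=
      intervalIntegral.integral_nonneg (by linarith) fun s _ =>
        mul_nonneg (FIN_wt_nonneg _ _ _) (FIN_pot_nonneg hα s)
    have := mul_nonpos_of_nonpos_of_nonneg (not_lt.1 hcon) h4
    linarith
  refine ⟨hμ0, FIN_gron hF hP (FIN_pot_nonneg hα) hκ.le (fun s t hs hst => ?_) ht20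
    (key t2 le_rfl).1 fun t ht => ?_⟩
  · have := h2 N α κ v dv hS hv s t hs hst
    linarith
  · rw [div_mul_eq_mul_div, div_le_iff₀ hμ0, mul_comm _ μ]
    exact (key t ht).2

/-- The last step of the bootstrap. -/
theorem FIN_base (h6 : St_MWIN) (hN : 4 < N * α) (hα : 0 < α) (hκ : 0 < κ)
    (hv : Sol α κ v dv) {M : ℝ} (hM : 0 < M) (hm : ∀ t, 0 ≤ t → ms (v t) = M)
    (hk : α * (N - 1) ≤ 4) {u : ℝ} (hu : 0 < u)
    (hC : FIN_Cl (fun s => -en α κ v dv s) κ u) (hH : 4 < u * (4 - α * N + 2 * α)) : False := by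
  obtain ⟨C, -, hW⟩ := h6 N α M hN hk hM
  obtain ⟨c, t0, hc, ht0, hcl⟩ := hC
  have hp : 4 / α * (1 - u * (1 - α * (N - 1) / 4)) < u := by
    rw [div_mul_eq_mul_div, div_lt_iff₀ hα]
    linarith
  obtain ⟨t, hsm, ht0'⟩ :=
    ((FIN_small (C := C) hc hκ one_half_pos hp).and (eventually_ge_atTop t0)).exists
  have hF0 : 0 < c * Real.exp (κ * u * t) := by positivity
  have hlow : ∀ s ∈ Icc t (t + 1), c * Real.exp (κ * u * t) ≤ -en α κ v dv s := by
    intro s hs
    refine le_trans ?_ (hcl s (ht0'.trans hs.1))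
    exact mul_le_mul_of_nonneg_left (Real.exp_le_exp.2
      (mul_le_mul_of_nonneg_left hs.1 (by positivity))) hc.le
  have h := hW κ v dv hκ.le hv hm t 1 _ (by linarith) one_pos hF0 hlow
  linarith

/-- The ladder. -/
theorem FIN_ladder (h1 : St_BASIC) (h2 : St_ENER) (h5 : St_WIN) (h6 : St_MWIN) (hN : 4 < N * α)
    (hS : Sub N α) (hκ : 0 < κ) (hv : Sol α κ v dv) {M : ℝ} (hM : 0 < M)
    (hm : ∀ t, 0 ≤ t → ms (v t) = M) (q : ℕ) (hq1 : 1 ≤ q) :
    q ≤ N → α * (N - q) ≤ 4 → ∀ u : ℝ, 0 < u → FIN_Cl (fun s => -en α κ v dv s) κ u →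
      4 < u * (4 - α * N + 2 * α * q) → False := by
  have hα := hS.2.1
  induction q, hq1 using Nat.le_induction with
  | base =>
    intro _ hk u hu hC hH
    exact FIN_base h6 hN hα hκ hv hM hm (by simpa using hk) hu hC (by simpa using hH)
  | succ q hq ih =>
    intro hqN _ u hu hC hH
    have hq' : (1 : ℝ) ≤ q := by exact_mod_cast hq
    have hk : α * (N - q) ≤ 4 := by
      by_contra hcon
      have h := (FIN_step h1 h2 h5 hS hκ hv hM hm (q := q + 1) (by omega) hqN hu hC hH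
        (η := (2 * α * (N - q) - 8) / 3) (by linarith)).1
      push_cast at h
      linarith
    obtain ⟨k1, k2⟩ := FIN_step h1 h2 h5 hS hκ hv hM hm (q := q + 1) (by omega) hqN hu hC hH
      (η := α / 3) (by positivity)
    refine ih (by omega) hk _ (div_pos (by norm_num) k1) k2 ?_
    rw [div_mul_eq_mul_div, lt_div_iff₀ k1]
    push_cast
    nlinarith

end Main

theorem FIN (h1 : St_BASIC) (h2 : St_ENER) (h3 : St_MONO) (h4 : St_LMASS) (h5 : St_WIN)
    (h6 : St_MWIN) : St_FIN := by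
  intro N α κ v dv hN hS hκ hv t1 ht1 hen
  have hα := hS.2.1
  have hm := (h4 N α κ v dv hS hv).1
  have hM : 0 < ms (v 0) := by
    rw [← hm t1 ht1]
    exact FIN_mass hα hv hen
  obtain ⟨y0, hy, hmono⟩ := h3 N α κ v dv hS hκ hv t1 ht1 hen
  rcases hκ.eq_or_lt with rfl | hκ'
  · refine FIN_zero h1 h5 h6 hN hS hv hM hm (t1 := t1 + 1) (by linarith) hy fun t ht => ?_
    have h := hmono t (by linarith)
    rw [zero_mul, Real.exp_zero, mul_one] at h
    linarith
  · refine FIN_ladder h1 h2 h5 h6 hN hS hκ' hv hM hm N hS.1 le_rfl (by simp) 1 one_pos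
      ⟨y0, t1 + 1, hy, by linarith, fun t ht => ?_⟩ (by nlinarith)
    have h := hmono t (by linarith)
    rw [mul_one]
    linarith

end Pool.Agent.Lib.MP_13801a_an.ND
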