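import Mathlib
import Pool.Agent.Lib.MP_13801a_an.ND.StsA

/-!
The heat kernel at complex times.
-/

open MeasureTheory Set Filter
open scoped ContDiff Topology ComplexConjugate

namespace Pool.Agent.Lib.MP_13801a_an.ND

variable {N : ℕ}

theorem GK_ne {z : ℂ} (hz : 0 < z.re) : z ≠ 0 := by
  rintro rfl
  simp at hz

theorem GK_re {z : ℂ} (hz : 0 < z.re) : 0 < (4 * (Real.pi : ℂ) * z).re := by
  have : (4 * (Real.pi : ℂ) * z).re = 4 * Real.pi * z.re := by simp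
  rw [this]
  have := Real.pi_pos
  positivity

theorem GK_slit {z : ℂ} (hz : 0 < z.re) : 4 * (Real.pi : ℂ) * z ∈ Complex.slitPlane :=
  Or.inl (GK_re hz)

theorem GK_inv_re {z : ℂ} (hz : 0 < z.re) : 0 < (z⁻¹).re := by
  rw [Complex.inv_re]
  exact div_pos hz (Complex.normSq_pos.2 (GK_ne hz))

theorem GK_log_mul {a b : ℂ} (ha : 0 < a.re) (hb : 0 < b.re) :
    Complex.log (a * b) = Complex.log a + Complex.log b := by
  rw [Complex.log_mul_eq_add_log_iff (GK_ne ha) (GK_ne hb)]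
  have h1 := abs_lt.1 (Complex.abs_arg_lt_pi_div_two_iff.2 (Or.inl ha))
  have h2 := abs_lt.1 (Complex.abs_arg_lt_pi_div_two_iff.2 (Or.inl hb))
  constructor <;> linarith [h1.1, h1.2, h2.1, h2.2]

theorem GK_contOn : ContinuousOn (fun p : ℂ × E N => GK p.1 p.2) {p | 0 < p.1.re} := by
  unfold GK
  refine ContinuousOn.mul (ContinuousOn.pow (ContinuousOn.cpow_const (by fun_prop) ?_) _) ?_
  · exact fun p hp => GK_slit hp
  · refine Complex.continuous_exp.comp_continuousOn (ContinuousOn.div (by fun_prop) (by fun_prop) ?_)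
    exact fun p hp => mul_ne_zero (by norm_num) (GK_ne hp)

theorem GK_smooth (z : ℂ) : ContDiff ℝ ∞ (GK z : E N → ℂ) := by
  unfold GK
  refine contDiff_const.mul (ContDiff.cexp (ContDiff.div_const (ContDiff.neg ?_) _))
  exact Complex.ofRealCLM.contDiff.comp (contDiff_norm_sq ℝ)

theorem GK_norm {z : ℂ} (y : E N) : ‖GK z y‖ =
    (4 * Real.pi * ‖z‖) ^ (-(N : ℝ) / 2) * Real.exp (-(z.re / ‖z‖ ^ 2) * ‖y‖ ^ 2 / 4) := by
  have hp := Real.pi_pos
  unfold GK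
  rw [norm_mul, norm_pow, Complex.norm_exp]
  congr 1
  · have e : (-(1 / 2) : ℂ) = ((-(1 / 2) : ℝ) : ℂ) := by push_cast; ring
    rw [e, Complex.norm_cpow_real, ← Real.rpow_mul_natCast (norm_nonneg _)]
    congr 1
    · simp [abs_of_pos hp]
    · ring
  · congr 1
    have e : -((‖y‖ ^ 2 : ℝ) : ℂ) / (4 * z) = ((-‖y‖ ^ 2 / 4 : ℝ) : ℂ) * z⁻¹ := by
      push_cast
      rw [div_eq_mul_inv, mul_inv]
      ring
    rw [e, Complex.re_ofReal_mul, Complex.inv_re, Complex.normSq_eq_norm_sq]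
    ring

theorem GK_gauss_int {b : ℝ} (hb : 0 < b) :
    Integrable fun y : E N => Real.exp (-b * ‖y‖ ^ 2) := by
  refine Integrable.of_integral_ne_zero ?_
  rw [GaussianFourier.integral_rexp_neg_mul_sq_norm hb]
  have := Real.pi_pos
  positivity

theorem GK_gauss_val {b : ℝ} (hb : 0 < b) :
    ∫ y : E N, Real.exp (-b * ‖y‖ ^ 2) = (Real.pi / b) ^ ((N : ℝ) / 2) := by
  rw [GaussianFourier.integral_rexp_neg_mul_sq_norm hb]
  simp

theorem GK_gauss_int2 {b : ℝ} (hb : 0 < b) :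
    Integrable fun y : E N => Real.exp (-b * ‖y‖ ^ 2) * ‖y‖ ^ 2 := by
  refine ((GK_gauss_int (N := N) (half_pos hb)).const_mul (2 / b)).mono' ?_
    (Eventually.of_forall fun y => ?_)
  · exact Continuous.aestronglyMeasurable (by fun_prop)
  · rw [Real.norm_of_nonneg (by positivity)]
    have h1 : b / 2 * ‖y‖ ^ 2 ≤ Real.exp (b / 2 * ‖y‖ ^ 2) := by
      linarith [Real.add_one_le_exp (b / 2 * ‖y‖ ^ 2)]
    have h2 : Real.exp (-(b / 2) * ‖y‖ ^ 2) =
        Real.exp (-b * ‖y‖ ^ 2) * Real.exp (b / 2 * ‖y‖ ^ 2) := by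
      rw [← Real.exp_add]
      congr 1
      ring
    rw [h2]
    have h3 : Real.exp (-b * ‖y‖ ^ 2) * ‖y‖ ^ 2 =
        2 / b * (Real.exp (-b * ‖y‖ ^ 2) * (b / 2 * ‖y‖ ^ 2)) := by
      field_simp
    rw [h3]
    gcongr

theorem GK_gauss_val2 {b : ℝ} (hb : 0 < b) :
    ∫ y : E N, Real.exp (-b * ‖y‖ ^ 2) * ‖y‖ ^ 2 =
      N / (2 * b) * (Real.pi / b) ^ ((N : ℝ) / 2) := by
  have hp := Real.pi_pos
  set J := ∫ y : E N, Real.exp (-b * ‖y‖ ^ 2) * ‖y‖ ^ 2 with hJ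
  have hmin : IsLocalMin (fun c : ℝ => (Real.pi / c) ^ ((N : ℝ) / 2) + c * J) b := by
    filter_upwards [Ioi_mem_nhds hb] with c hc
    have hc' : 0 < c := hc
    rw [← GK_gauss_val hb, ← GK_gauss_val hc']
    have h1 : ∫ y : E N, (Real.exp (-b * ‖y‖ ^ 2) -
        (c - b) * (Real.exp (-b * ‖y‖ ^ 2) * ‖y‖ ^ 2)) ≤ ∫ y : E N, Real.exp (-c * ‖y‖ ^ 2) := by
      refine integral_mono ((GK_gauss_int hb).sub ((GK_gauss_int2 hb).const_mul _))
        (GK_gauss_int hc') fun y => ?_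
      have h2 : Real.exp (-c * ‖y‖ ^ 2) =
          Real.exp (-b * ‖y‖ ^ 2) * Real.exp (-(c - b) * ‖y‖ ^ 2) := by
        rw [← Real.exp_add]
        congr 1
        ring
      have h3 := Real.add_one_le_exp (-(c - b) * ‖y‖ ^ 2)
      have h4 := mul_le_mul_of_nonneg_left h3 (Real.exp_pos (-b * ‖y‖ ^ 2)).le
      simp only
      rw [h2]
      linarith
    rw [integral_sub (GK_gauss_int hb) ((GK_gauss_int2 hb).const_mul _), integral_const_mul,
      ← hJ] at h1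
    linarith
  have hd : HasDerivAt (fun c : ℝ => (Real.pi / c) ^ ((N : ℝ) / 2) + c * J)
      (-Real.pi / b ^ 2 * ((N : ℝ) / 2) * (Real.pi / b) ^ ((N : ℝ) / 2 - 1) + 1 * J) b := by
    refine HasDerivAt.add (HasDerivAt.rpow_const ?_ (Or.inl (by positivity)))
      ((hasDerivAt_id b).mul_const J)
    have h := (hasDerivAt_inv hb.ne').const_mul Real.pi
    have e : -Real.pi / b ^ 2 = Real.pi * -(b ^ 2)⁻¹ := by field_simp
    rw [e]
    exact h
  have h0 := hmin.hasDerivAt_eq_zero hd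
  rw [Real.rpow_sub_one (by positivity)] at h0
  have e : -Real.pi / b ^ 2 * ((N : ℝ) / 2) * ((Real.pi / b) ^ ((N : ℝ) / 2) / (Real.pi / b)) =
      -(N / (2 * b) * (Real.pi / b) ^ ((N : ℝ) / 2)) := by
    field_simp
  rw [e] at h0
  linarith

theorem GK_hk_eq {s : ℝ} (y : E N) :
    hk s y = (4 * Real.pi * s) ^ (-(N : ℝ) / 2) * Real.exp (-(1 / (4 * s)) * ‖y‖ ^ 2) := by
  unfold hk
  congr 2
  ring

theorem GK_const_one {s : ℝ} (hs : 0 < s) :
    (4 * Real.pi * s) ^ (-(N : ℝ) / 2) * (Real.pi / (1 / (4 * s))) ^ ((N : ℝ) / 2) = 1 := by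
  have hp := Real.pi_pos
  have e : Real.pi / (1 / (4 * s)) = 4 * Real.pi * s := by field_simp
  rw [e, ← Real.rpow_add (by positivity)]
  have : -(N : ℝ) / 2 + (N : ℝ) / 2 = 0 := by ring
  rw [this, Real.rpow_zero]

theorem GK_real {s : ℝ} (hs : 0 < s) (y : E N) : GK s y = hk s y := by
  have hp := Real.pi_pos
  unfold GK hk
  have e : (-(1 / 2) : ℂ) = ((-(1 / 2) : ℝ) : ℂ) := by push_cast; ring
  have e2 : 4 * (Real.pi : ℂ) * s = ((4 * Real.pi * s : ℝ) : ℂ) := by push_cast; ring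
  have e3 : -(N : ℝ) / 2 = -(1 / 2) * N := by ring
  rw [e, e2, ← Complex.ofReal_cpow (by positivity), e3, Real.rpow_mul_natCast (by positivity)]
  push_cast
  ring

theorem GK_hk_nonneg {s : ℝ} (hs : 0 < s) (y : E N) : 0 ≤ hk s y := by
  have hp := Real.pi_pos
  unfold hk
  positivity

theorem GK_hk_int {s : ℝ} (hs : 0 < s) : ∫ y : E N, hk s y = 1 := by
  simp only [GK_hk_eq]
  rw [integral_const_mul, GK_gauss_val (by positivity), GK_const_one hs]

theorem GK_hk_int2 {s : ℝ} (hs : 0 < s) : Integrable fun y : E N => hk s y * ‖y‖ ^ 2 := by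
  simp only [GK_hk_eq, mul_assoc]
  exact (GK_gauss_int2 (by positivity)).const_mul _

theorem GK_hk_val2 {s : ℝ} (hs : 0 < s) : ∫ y : E N, hk s y * ‖y‖ ^ 2 = 2 * N * s := by
  have h : ∀ y : E N, hk s y * ‖y‖ ^ 2 = (4 * Real.pi * s) ^ (-(N : ℝ) / 2) *
      (Real.exp (-(1 / (4 * s)) * ‖y‖ ^ 2) * ‖y‖ ^ 2) := fun y => by rw [GK_hk_eq, mul_assoc]
  simp only [h]
  rw [integral_const_mul, GK_gauss_val2 (by positivity), mul_left_comm, GK_const_one hs]
  field_simp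
  ring

theorem GK_c_pos {z : ℂ} (hz : 0 < z.re) : 0 < z.re / ‖z‖ ^ 2 / 4 := by
  have := norm_pos_iff.2 (GK_ne hz)
  positivity

theorem GK_norm' {z : ℂ} (y : E N) : ‖GK z y‖ =
    (4 * Real.pi * ‖z‖) ^ (-(N : ℝ) / 2) * Real.exp (-(z.re / ‖z‖ ^ 2 / 4) * ‖y‖ ^ 2) := by
  rw [GK_norm]
  congr 2
  ring

theorem GK_ker {z : ℂ} (hz : 0 < z.re) : Ker (GK z : E N → ℂ) := by
  have hp := Real.pi_pos
  constructor
  · refine ((GK_gauss_int (N := N) (GK_c_pos hz)).const_mul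
      ((4 * Real.pi * ‖z‖) ^ (-(N : ℝ) / 2))).mono'
      (GK_smooth z).continuous.aestronglyMeasurable (Eventually.of_forall fun y => ?_)
    exact (GK_norm' y).le
  · refine ⟨(4 * Real.pi * ‖z‖) ^ (-(N : ℝ) / 2), fun y => ?_⟩
    rw [GK_norm']
    refine mul_le_of_le_one_right (by positivity) (Real.exp_le_one_iff.2 ?_)
    have := GK_c_pos hz
    have : 0 ≤ z.re / ‖z‖ ^ 2 / 4 * ‖y‖ ^ 2 := by positivity
    linarith

theorem GK_even (z : ℂ) (y : E N) : GK z (-y) = GK z y := by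
  simp [GK]

theorem GK_conj {z : ℂ} (hz : 0 < z.re) (y : E N) : conj (GK z y) = GK (conj z) y := by
  unfold GK
  have h1 : (4 * (Real.pi : ℂ) * z).arg ≠ Real.pi :=
    (Complex.mem_slitPlane_iff_arg.1 (GK_slit hz)).1
  have h2 := Complex.conj_cpow (4 * (Real.pi : ℂ) * z) (-(1 / 2)) h1
  have e : conj (-(1 / 2) : ℂ) = -(1 / 2) := by
    rw [map_neg, map_div₀, map_one, map_ofNat]
  have e2 : conj (4 * (Real.pi : ℂ) * z) = 4 * Real.pi * conj z := by
    rw [map_mul, map_mul, map_ofNat, Complex.conj_ofReal]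
  rw [e, e2] at h2
  rw [map_mul, map_pow, ← h2, ← Complex.exp_conj, map_div₀, map_neg, Complex.conj_ofReal, map_mul,
    map_ofNat]

theorem GK_pdc (z : ℂ) (i : Fin N) (y : E N) :
    pdc i (GK z) y = -((y i : ℝ) : ℂ) / (2 * z) * GK z y := by
  have h1 : HasFDerivAt (fun y : E N => ‖y‖ ^ 2) (2 • innerSL ℝ y) y :=
    (hasStrictFDerivAt_norm_sq y).hasFDerivAt
  have h2 : HasFDerivAt (fun y : E N => ((‖y‖ ^ 2 : ℝ) : ℂ))
      (Complex.ofRealCLM.comp (2 • innerSL ℝ y)) y := Complex.ofRealCLM.hasFDerivAt.comp y h1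
  have h3 := ((h2.neg.mul_const (4 * z)⁻¹).cexp).const_mul
    (((4 * Real.pi * z) ^ (-(1 / 2) : ℂ)) ^ N)
  have h4 := h3.congr_of_eventuallyEq (f₁ := (GK z : E N → ℂ)) (Eventually.of_forall fun x => by
    simp only [GK, div_eq_mul_inv, Pi.neg_apply])
  unfold pdc
  rw [h4.fderiv]
  have e : inner ℝ y (ee i) = y i := by simp [ee, EuclideanSpace.inner_single_right]
  simp only [GK, div_eq_mul_inv, ContinuousLinearMap.smul_apply, ContinuousLinearMap.neg_apply,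
    ContinuousLinearMap.comp_apply, innerSL_apply_apply, e, smul_eq_mul, Pi.neg_apply,
    Complex.ofRealCLM_apply, nsmul_eq_mul, mul_inv]
  push_cast
  ring

theorem GK_dz {z : ℂ} (hz : 0 < z.re) (y : E N) : HasDerivAt (fun ζ => GK ζ y)
    ((((‖y‖ ^ 2 : ℝ) : ℂ) / (4 * z ^ 2) - N / (2 * z)) * GK z y) z := by
  have hz0 := GK_ne hz
  have hp : (Real.pi : ℂ) ≠ 0 := Complex.ofReal_ne_zero.2 Real.pi_pos.ne'
  have h0 : HasDerivAt (fun ζ : ℂ => 4 * (Real.pi : ℂ) * ζ) (4 * Real.pi) z := by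
    simpa using (hasDerivAt_id z).const_mul (4 * (Real.pi : ℂ))
  have h1 : HasDerivAt (fun ζ : ℂ => (4 * (Real.pi : ℂ) * ζ) ^ (-(N : ℂ) / 2))
      (-(N : ℂ) / 2 * (4 * (Real.pi : ℂ) * z) ^ (-(N : ℂ) / 2 - 1) * (4 * Real.pi)) z :=
    h0.cpow_const (GK_slit hz)
  have h2 : HasDerivAt (fun ζ : ℂ => -((‖y‖ ^ 2 : ℝ) : ℂ) / 4 * ζ⁻¹)
      (-((‖y‖ ^ 2 : ℝ) : ℂ) / 4 * (-(z ^ 2)⁻¹)) z := (hasDerivAt_inv hz0).const_mul _
  have h3 := h1.mul h2.cexp
  have e : ∀ ζ : ℂ, GK ζ y = (4 * (Real.pi : ℂ) * ζ) ^ (-(N : ℂ) / 2) *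
      Complex.exp (-((‖y‖ ^ 2 : ℝ) : ℂ) / 4 * ζ⁻¹) := by
    intro ζ
    unfold GK
    rw [← Complex.cpow_mul_nat]
    congr 2
    · ring
    · rw [div_eq_mul_inv, mul_inv]
      ring
  simp only [e]
  refine HasDerivAt.congr_deriv h3 ?_
  rw [Complex.cpow_sub _ _ (GK_ne (GK_re hz)), Complex.cpow_one]
  field_simp
  ring

theorem GK_L1 {z : ℂ} (hz : 0 < z.re) :
    Tendsto (fun ζ => ∫ y : E N, ‖GK ζ y - GK z y‖) (𝓝 z) (𝓝 0) := by
  have hp := Real.pi_pos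
  have hz0 := norm_pos_iff.2 (GK_ne hz)
  have hc := GK_c_pos hz
  have hA : ContinuousAt (fun ζ : ℂ => (4 * Real.pi * ‖ζ‖) ^ (-(N : ℝ) / 2)) z :=
    ContinuousAt.rpow_const (by fun_prop) (Or.inl (by positivity))
  have hB : ContinuousAt (fun ζ : ℂ => ζ.re / ‖ζ‖ ^ 2 / 4) z :=
    (ContinuousAt.div (by fun_prop) (by fun_prop) (by positivity)).div_const _
  have h1 := hA.eventually (gt_mem_nhds (lt_add_one _))
  have h2 := hB.eventually (lt_mem_nhds (half_lt_self hc))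
  have h := tendsto_integral_filter_of_dominated_convergence (μ := (volume : Measure (E N)))
    (l := 𝓝 z) (F := fun ζ y => ‖GK ζ y - GK z y‖) (f := fun _ => (0 : ℝ))
    (fun y => ((4 * Real.pi * ‖z‖) ^ (-(N : ℝ) / 2) + 1) *
      Real.exp (-(z.re / ‖z‖ ^ 2 / 4 / 2) * ‖y‖ ^ 2) + ‖GK z y‖) ?_ ?_ ?_ ?_
  · simpa using h
  · exact Eventually.of_forall fun ζ =>
      ((GK_smooth ζ).continuous.sub (GK_smooth z).continuous).norm.aestronglyMeasurable
  · filter_upwards [h1, h2] with ζ a1 a2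
    refine Eventually.of_forall fun y => ?_
    rw [norm_norm]
    refine (norm_sub_le _ _).trans (add_le_add_left ?_ _)
    rw [GK_norm']
    refine mul_le_mul a1.le (Real.exp_le_exp.2 ?_) (Real.exp_pos _).le (by positivity)
    exact mul_le_mul_of_nonneg_right (neg_le_neg a2.le) (by positivity)
  · exact ((GK_gauss_int (half_pos hc)).const_mul _).add (GK_ker hz).1.norm
  · refine Eventually.of_forall fun y => ?_
    have h3 := ((GK_dz hz y).continuousAt.tendsto.sub_const (GK z y)).norm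
    simpa using h3

theorem GK_const {z z' : ℂ} (hz : 0 < z.re) (hz' : 0 < z'.re) :
    ((4 * Real.pi * z) ^ (-(1 / 2) : ℂ)) ^ N * ((4 * Real.pi * z') ^ (-(1 / 2) : ℂ)) ^ N *
      (Real.pi / ((4 * z)⁻¹ + (4 * z')⁻¹)) ^ ((N : ℂ) / 2) =
      ((4 * Real.pi * (z + z')) ^ (-(1 / 2) : ℂ)) ^ N := by
  have hs : 0 < (z + z').re := by rw [Complex.add_re]; positivity
  have h0 := GK_ne hz
  have h0' := GK_ne hz'
  have h0s := GK_ne hs
  have hb : 0 < ((4 * z)⁻¹ + (4 * z')⁻¹).re := by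
    rw [Complex.add_re]
    exact add_pos (GK_inv_re (by simpa using hz)) (GK_inv_re (by simpa using hz'))
  have hD : 0 < ((Real.pi : ℂ) / ((4 * z)⁻¹ + (4 * z')⁻¹)).re := by
    rw [div_eq_mul_inv, Complex.re_ofReal_mul]
    exact mul_pos Real.pi_pos (GK_inv_re hb)
  have e : 4 * (Real.pi : ℂ) * z * (4 * Real.pi * z') =
      4 * Real.pi * (z + z') * (Real.pi / ((4 * z)⁻¹ + (4 * z')⁻¹)) := by
    have e1 : (4 * z)⁻¹ + (4 * z')⁻¹ = (z + z') / (4 * z * z') := by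
      field_simp
      ring
    rw [e1]
    field_simp
  have h1 := GK_log_mul (GK_re hz) (GK_re hz')
  rw [e, GK_log_mul (GK_re hs) hD] at h1
  rw [Complex.cpow_def_of_ne_zero (GK_ne (GK_re hz)), Complex.cpow_def_of_ne_zero (GK_ne (GK_re hz')),
    Complex.cpow_def_of_ne_zero (GK_ne (GK_re hs)), Complex.cpow_def_of_ne_zero (GK_ne hD),
    ← Complex.exp_nat_mul, ← Complex.exp_nat_mul, ← Complex.exp_nat_mul, ← Complex.exp_add,
    ← Complex.exp_add]
  congr 1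
  linear_combination (N : ℂ) / 2 * h1

theorem GK_semi {z z' : ℂ} (hz : 0 < z.re) (hz' : 0 < z'.re) (x : E N) :
    cv (GK z) (GK z') x = GK (z + z') x := by
  have hs : 0 < (z + z').re := by rw [Complex.add_re]; positivity
  have h0 := GK_ne hz
  have h0' := GK_ne hz'
  have h0s := GK_ne hs
  have hb : 0 < ((4 * z)⁻¹ + (4 * z')⁻¹).re := by
    rw [Complex.add_re]
    exact add_pos (GK_inv_re (by simpa using hz)) (GK_inv_re (by simpa using hz'))
  have hI := GaussianFourier.integral_cexp_neg_mul_sq_norm_add hb (2 * z)⁻¹ x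
  have h : ∀ y : E N, GK z (x - y) * GK z' y =
      (((4 * Real.pi * z) ^ (-(1 / 2) : ℂ)) ^ N * ((4 * Real.pi * z') ^ (-(1 / 2) : ℂ)) ^ N *
        Complex.exp (-(‖x‖ : ℂ) ^ 2 / (4 * z))) *
        Complex.exp (-((4 * z)⁻¹ + (4 * z')⁻¹) * (‖y‖ : ℂ) ^ 2 +
          (2 * z)⁻¹ * ((inner ℝ x y : ℝ) : ℂ)) := by
    intro y
    unfold GK
    rw [norm_sub_sq_real, mul_mul_mul_comm, mul_assoc _ (Complex.exp _) (Complex.exp _),
      ← Complex.exp_add, ← Complex.exp_add]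
    congr 2
    push_cast
    field_simp
    ring
  unfold cv
  simp only [h]
  rw [integral_const_mul, hI, finrank_euclideanSpace_fin, GK, ← GK_const hz hz', mul_mul_mul_comm,
    ← Complex.exp_add]
  congr 2
  have e1 : (4 * z)⁻¹ + (4 * z')⁻¹ = (z + z') / (4 * z * z') := by
    field_simp
    ring
  rw [e1]
  push_cast
  field_simp
  ring

theorem GKF : St_GK := fun _ =>
  ⟨GK_contOn, fun _ hs => ⟨GK_real hs, GK_hk_nonneg hs, GK_hk_int hs, GK_hk_int2 hs, GK_hk_val2 hs⟩,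
    fun z hz => ⟨GK_ker hz, GK_smooth z, GK_even z, GK_conj hz, GK_norm, GK_pdc z, GK_dz hz,
      GK_L1 hz, fun _ hz' => GK_semi hz hz'⟩⟩

end Pool.Agent.Lib.MP_13801a_an.ND
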