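import Mathlib
import Pool.Agent.Lib.MP_13801a_an.ND.StsA

/-!
The homogeneous Strichartz estimate for the regularised Schroedinger group, by the `T T*` argument
on finite arithmetic progressions of times.
-/

open MeasureTheory Set Filter
open scoped ContDiff Topology ComplexConjugate

namespace Pool.Agent.Lib.MP_13801a_an.ND

variable {N : ℕ}

/-- A bounded function in `L^q` is in `L^r` for `r ≥ q`. -/
theorem HOM_up {q r B : ℝ} (hq : 0 < q) (hqr : q ≤ r) {f : E N → ℂ} (hf : Mem q f)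
    (hB : ∀ x, ‖f x‖ ≤ B) : Mem r f := by
  have hr : 0 < r := hq.trans_le hqr
  refine mem_of_integrable_rpow hr hf.1 ?_
  refine ((hf.integrable_rpow hq).const_mul (B ^ (r - q))).mono'
    (hf.1.norm.aemeasurable.pow_const r).aestronglyMeasurable (Eventually.of_forall fun x => ?_)
  rw [Real.norm_of_nonneg (by positivity)]
  have e : ‖f x‖ ^ r = ‖f x‖ ^ (r - q) * ‖f x‖ ^ q := by
    rw [← Real.rpow_add' (norm_nonneg _) (by simpa using hr.ne')]
    simp
  rw [e]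
  exact mul_le_mul_of_nonneg_right
    (Real.rpow_le_rpow (norm_nonneg _) (hB x) (by linarith)) (by positivity)

theorem HOM_conj {q : ℝ} (hq : 0 < q) {f : E N → ℂ} (hf : Mem q f) :
    Mem q (fun x => conj (f x)) ∧ nr q (fun x => conj (f x)) = nr q f := by
  have hm : AEStronglyMeasurable (fun x => conj (f x)) volume :=
    Complex.continuous_conj.comp_aestronglyMeasurable hf.1
  constructor
  · refine mem_of_integrable_rpow hq hm ?_
    simpa using hf.integrable_rpow hq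
  · rw [nr_eq hq hm, nr_eq hq hf.1]
    simp

/-- The norming function in the dual space. -/
theorem HOM_dual {p q : ℝ} (hp : 2 ≤ p) (hpq : p.HolderConjugate q) {F : E N → ℂ}
    (hF : Mem p F) :
    ∃ φ : E N → ℂ, Mem q φ ∧ nr q φ = nr p F ∧ ∫ x, F x * φ x = ((nr p F ^ 2 : ℝ) : ℂ) := by
  have hp0 : 0 < p := by linarith
  have hq0 : 0 < q := hpq.symm.pos
  rcases (nr_nonneg p F).eq_or_lt with h0 | h0
  · refine ⟨fun _ => 0, MemLp.zero', ?_, ?_⟩
    · rw [← h0, nr_eq hq0 aestronglyMeasurable_const]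
      simp [Real.zero_rpow hq0.ne', hq0.ne']
    · simp [← h0]
  set Y := nr p F with hY
  let ψ : E N → ℂ := fun x => conj (F x) * ((‖F x‖ ^ (p - 2) : ℝ) : ℂ)
  have hψm : AEStronglyMeasurable ψ volume :=
    (Complex.continuous_conj.comp_aestronglyMeasurable hF.1).mul
      (Complex.continuous_ofReal.comp_aestronglyMeasurable
        (hF.1.norm.aemeasurable.pow_const (p - 2)).aestronglyMeasurable)
  have hpq' : (p - 1) * q = p := hpq.sub_one_mul_conj
  have hn : ∀ x, ‖ψ x‖ ^ q = ‖F x‖ ^ p := by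
    intro x
    have e : ‖ψ x‖ = ‖F x‖ ^ (p - 1) := by
      simp only [ψ, norm_mul, Complex.norm_conj, Complex.norm_real]
      rw [Real.norm_of_nonneg (by positivity)]
      have : p - 1 = 1 + (p - 2) := by ring
      rw [this, Real.rpow_add' (norm_nonneg _) (by linarith), Real.rpow_one]
    rw [e, ← Real.rpow_mul (norm_nonneg _), hpq']
  have hψ : Mem q ψ := by
    refine mem_of_integrable_rpow hq0 hψm ?_
    simp only [hn]
    exact hF.integrable_rpow hp0
  have hI : ∫ x, ‖F x‖ ^ p = Y ^ p := (nr_rpow hp0 hF.1).symm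
  have hnψ : nr q ψ = Y ^ (p - 1) := by
    rw [nr_eq hq0 hψm]
    simp only [hn]
    rw [hI, ← Real.rpow_mul h0.le]
    congr 1
    field_simp
    linarith
  refine ⟨fun x => ((Y ^ (2 - p) : ℝ) : ℂ) * ψ x, MemLp.const_mul hψ _, ?_, ?_⟩
  · rw [nr_const_mul, hnψ, Complex.norm_real, Real.norm_of_nonneg (by positivity),
      ← Real.rpow_add h0]
    have : 2 - p + (p - 1) = 1 := by ring
    rw [this, Real.rpow_one]
  · have e : ∀ x, F x * (((Y ^ (2 - p) : ℝ) : ℂ) * ψ x) =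
        ((Y ^ (2 - p) * ‖F x‖ ^ p : ℝ) : ℂ) := by
      intro x
      have e1 : ‖F x‖ ^ p = ‖F x‖ ^ 2 * ‖F x‖ ^ (p - 2) := by
        have : p = ((2 : ℕ) : ℝ) + (p - 2) := by push_cast; ring
        conv_lhs => rw [this]
        rw [Real.rpow_add' (norm_nonneg _) (by push_cast; linarith), Real.rpow_natCast]
      have e2 : F x * conj (F x) = ((‖F x‖ ^ 2 : ℝ) : ℂ) := by
        rw [Complex.mul_conj, Complex.normSq_eq_norm_sq]
      rw [e1]
      simp only [ψ]
      push_cast at e2 ⊢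
      linear_combination ((Y ^ (2 - p) : ℝ) : ℂ) * ((‖F x‖ ^ (p - 2) : ℝ) : ℂ) * e2
    simp only [e]
    rw [integral_complex_ofReal, integral_const_mul, hI, ← Real.rpow_add h0]
    have : 2 - p + p = ((2 : ℕ) : ℝ) := by push_cast; ring
    rw [this, Real.rpow_natCast]

theorem HOM_ker_sub {k k' : E N → ℂ} (hk : Ker k) (hk' : Ker k') : Ker fun y => k y - k' y := by
  obtain ⟨h1, C, hC⟩ := hk
  obtain ⟨h2, C', hC'⟩ := hk'
  exact ⟨h1.sub h2, C + C', fun y => (norm_sub_le _ _).trans (add_le_add (hC y) (hC' y))⟩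

/-- The pairing of two evolved functions. -/
theorem HOM_pair (h1 : St_CONV) (h2 : St_GK) (h3 : St_DISPE) {p q : ℝ} (hp : 2 ≤ p)
    (hpq : p.HolderConjugate q) {z z' : ℂ} (hz : 0 < z.re) (hz' : 0 < z'.re) {φ φ' : E N → ℂ}
    (hφ : Mem q φ) (hφ' : Mem q φ') :
    ‖∫ x, conj (cv (GK z') φ' x) * cv (GK z) φ x‖ ≤
      ‖conj z' + z‖ ^ (-(N * (1 / 2 - 1 / p))) * (nr q φ * nr q φ') := by
  have hq1 : 1 ≤ q := hpq.symm.lt.le
  have hq0 : 0 < q := hpq.symm.pos
  have hc : 0 < (conj z').re := by simpa using hz'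
  obtain ⟨hk, -, -⟩ := (h2 N).2.2 z hz
  obtain ⟨-, -, -, hcj, -⟩ := (h2 N).2.2 z' hz'
  obtain ⟨hkc, -, hev, -, -, -, -, -, hsg⟩ := (h2 N).2.2 (conj z') hc
  obtain ⟨hψ, hψn⟩ := HOM_conj hq0 hφ'
  have e1 : ∀ x, conj (cv (GK z') φ' x) = cv (GK (conj z')) (fun y => conj (φ' y)) x := by
    intro x
    simp only [cv]
    rw [← integral_conj]
    simp only [map_mul, hcj]
  have hW : Mem p (cv (GK z) φ) := (h3 N p q hp hpq z hz φ hφ).1
  have e2 := (((h1 N q hq1).2 _ hkc).2 _ hψ).2.2.2.2.2.1 p _ hpq.symm hW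
  have e3 := (((h1 N q hq1).2 _ hk).2 _ hφ).2.2.2.2.2.2 _ hkc
  have e4 : cv (GK (conj z')) (GK z : E N → ℂ) = GK (conj z' + z) := funext (hsg z hz)
  simp only [e1]
  rw [e2]
  simp only [hev, e3.2, e4]
  have hs : 0 < (conj z' + z).re := by rw [Complex.add_re]; linarith
  obtain ⟨hm, hn⟩ := h3 N p q hp hpq _ hs φ hφ
  refine (holder_norm hpq.symm hψ hm).trans ?_
  rw [hψn]
  calc nr q φ' * nr p (cv (GK (conj z' + z)) φ)
      ≤ nr q φ' * (‖conj z' + z‖ ^ (-(N * (1 / 2 - 1 / p))) * nr q φ) :=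
        mul_le_mul_of_nonneg_left hn (nr_nonneg _ _)
    _ = _ := by ring

/-- The `T T*` argument for finitely many times. -/
theorem HOM_fin (h1 : St_CONV) (h2 : St_GK) (h3 : St_DISPE) {p : ℝ} (hp : 2 ≤ p) (n : ℕ)
    (z : ℕ → ℂ) (hz : ∀ i, 0 < (z i).re) {K : ℝ} (hK0 : 0 ≤ K)
    (hK : ∀ i < n, ∑ j ∈ Finset.range n, ‖conj (z j) + z i‖ ^ (-(N * (1 / 2 - 1 / p))) ≤ K)
    {g : E N → ℂ} (hg2 : Mem 2 g) (hgp : Mem p g) :
    ∑ i ∈ Finset.range n, nr p (cv (GK (z i)) g) ^ 2 ≤ K * ms g := by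
  have hp1 : 1 < p := by linarith
  have hpq := Real.HolderConjugate.conjExponent hp1
  set q := p.conjExponent
  have hq1 : 1 ≤ q := hpq.symm.lt.le
  have hq0 : 0 < q := hpq.symm.pos
  have hq2 : q ≤ 2 := by
    have := hpq.sub_one_mul_conj
    nlinarith
  have hk : ∀ i, Ker (GK (z i) : E N → ℂ) := fun i => ((h2 N).2.2 _ (hz i)).1
  have hev : ∀ i (y : E N), GK (z i) (-y) = GK (z i) y := fun i => ((h2 N).2.2 _ (hz i)).2.2.1
  have hU : ∀ i, Mem p (cv (GK (z i)) g) := fun i =>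
    (((h1 N p hp1.le).2 _ (hk i)).2 _ hgp).2.2.1
  choose φ hφ hφn hφi using fun i => HOM_dual hp hpq (hU i)
  set Y : ℕ → ℝ := fun i => nr p (cv (GK (z i)) g) with hY
  let W : ℕ → E N → ℂ := fun i => cv (GK (z i)) (φ i)
  have hW : ∀ i, Mem 2 (W i) := by
    intro i
    obtain ⟨⟨C, -, hC⟩, h⟩ := (h1 N q hq1).2 _ (hk i)
    exact HOM_up hq0 hq2 (h _ (hφ i)).2.2.1 (hC _ (hφ i))
  have h22 := Real.HolderConjugate.two_two
  have hadj : ∀ i, ((Y i ^ 2 : ℝ) : ℂ) = ∫ x, g x * W i x := by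
    intro i
    have e := (((h1 N p hp1.le).2 _ (hk i)).2 _ hgp).2.2.2.2.2.1 q _ hpq (hφ i)
    simp only [hev] at e
    rw [← hφi i, e]
  let S : E N → ℂ := fun x => ∑ i ∈ Finset.range n, W i x
  have hS : Mem 2 S := memLp_finsetSum _ fun i _ => hW i
  set A := ∑ i ∈ Finset.range n, Y i ^ 2 with hA
  have hA0 : 0 ≤ A := Finset.sum_nonneg fun i _ => sq_nonneg _
  have e1 : ((A : ℝ) : ℂ) = ∫ x, g x * S x := by
    simp only [hA, S, Finset.mul_sum]
    rw [integral_finsetSum _ fun i _ => holder_integrable h22 hg2 (hW i)]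
    push_cast
    exact Finset.sum_congr rfl fun i _ => by rw [← hadj i]; push_cast; rfl
  have e2 : A ≤ nr 2 g * nr 2 S := by
    have := holder_norm h22 hg2 hS
    rwa [← e1, Complex.norm_real, Real.norm_of_nonneg hA0] at this
  have e3 : ((ms S : ℝ) : ℂ) = ∑ i ∈ Finset.range n, ∑ j ∈ Finset.range n,
      ∫ x, conj (W j x) * W i x := by
    have e : ∀ x, ((‖S x‖ ^ 2 : ℝ) : ℂ) =
        ∑ i ∈ Finset.range n, ∑ j ∈ Finset.range n, conj (W j x) * W i x := by
      intro x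
      rw [← Complex.normSq_eq_norm_sq, Complex.normSq_eq_conj_mul_self]
      simp only [S, map_sum]
      rw [Finset.sum_mul_sum, Finset.sum_comm]
    have hi : ∀ i j, Integrable fun x => conj (W j x) * W i x := fun i j =>
      holder_integrable h22 (HOM_conj two_pos (hW j)).1 (hW i)
    rw [ms, ← integral_complex_ofReal]
    simp only [e]
    rw [integral_finsetSum _ fun i _ => integrable_finsetSum _ fun j _ => hi i j]
    exact Finset.sum_congr rfl fun i _ => integral_finsetSum _ fun j _ => hi i j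
  let κ : ℕ → ℕ → ℝ := fun i j => ‖conj (z j) + z i‖ ^ (-(N * (1 / 2 - 1 / p)))
  have hκ0 : ∀ i j, 0 ≤ κ i j := fun i j => by positivity
  have hκs : ∀ i j, κ i j = κ j i := by
    intro i j
    simp only [κ]
    rw [← Complex.norm_conj]
    simp [add_comm]
  have e4 : ms S ≤ K * A := by
    have h4 : ms S ≤ ∑ i ∈ Finset.range n, ∑ j ∈ Finset.range n,
        (κ i j * Y i ^ 2 + κ j i * Y j ^ 2) / 2 := by
      have h5 : ms S = ‖((ms S : ℝ) : ℂ)‖ := by
        rw [Complex.norm_real, Real.norm_of_nonneg (ms_nonneg _)]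
      rw [h5, e3]
      refine (norm_sum_le _ _).trans (Finset.sum_le_sum fun i _ => ?_)
      refine (norm_sum_le _ _).trans (Finset.sum_le_sum fun j _ => ?_)
      refine (HOM_pair h1 h2 h3 hp hpq (hz i) (hz j) (hφ i) (hφ j)).trans ?_
      rw [hφn, hφn, hκs j i]
      change κ i j * (Y i * Y j) ≤ _
      nlinarith [mul_nonneg (hκ0 i j) (sq_nonneg (Y i - Y j))]
    have h6 : ∑ i ∈ Finset.range n, ∑ j ∈ Finset.range n, κ i j * Y i ^ 2 ≤ K * A := by
      rw [hA, Finset.mul_sum]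
      refine Finset.sum_le_sum fun i hi => ?_
      rw [← Finset.sum_mul]
      exact mul_le_mul_of_nonneg_right (hK i (Finset.mem_range.1 hi)) (sq_nonneg _)
    have h7 : ∑ i ∈ Finset.range n, ∑ j ∈ Finset.range n, κ j i * Y j ^ 2 ≤ K * A := by
      rw [Finset.sum_comm]
      exact h6
    simp only [← Finset.sum_div, Finset.sum_add_distrib] at h4
    linarith
  have e5 : A ^ 2 ≤ ms g * (K * A) := by
    calc A ^ 2 ≤ (nr 2 g * nr 2 S) ^ 2 := pow_le_pow_left₀ hA0 e2 2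
      _ = ms g * ms S := by rw [mul_pow, nr_two_sq hg2.1, nr_two_sq hS.1]
      _ ≤ _ := mul_le_mul_of_nonneg_left e4 (ms_nonneg _)
  rcases hA0.eq_or_lt with h0 | h0
  · rw [← h0]
    exact mul_nonneg hK0 (ms_nonneg _)
  · have : A * A ≤ K * ms g * A := by nlinarith
    exact le_of_mul_le_mul_right this h0

/-- The weights of the discrete kernel. -/
noncomputable def HOM_c (δ : ℝ) (k : ℕ) : ℝ := if k = 0 then 0 else (k : ℝ) ^ (-δ)

theorem HOM_c_nonneg (δ : ℝ) (k : ℕ) : 0 ≤ HOM_c δ k := by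
  unfold HOM_c
  split_ifs
  · exact le_rfl
  · positivity

theorem HOM_c_sum {δ : ℝ} (h0 : 0 ≤ δ) (h1 : δ < 1) (n : ℕ) :
    ∑ k ∈ Finset.range (n + 1), HOM_c δ k ≤ (n : ℝ) ^ (1 - δ) / (1 - δ) := by
  have hd : 0 < 1 - δ := by linarith
  induction n with
  | zero => simp [HOM_c, Real.zero_rpow hd.ne']
  | succ n ih =>
    rw [Finset.sum_range_succ]
    have hm : (0 : ℝ) < (n : ℝ) + 1 := by positivity
    have key : (n : ℝ) ^ (1 - δ) + (1 - δ) * ((n : ℝ) + 1) ^ (-δ) ≤ ((n : ℝ) + 1) ^ (1 - δ) := by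
      have hb := rpow_one_add_le_one_add_mul_self (s := -(1 / ((n : ℝ) + 1)))
        (by rw [neg_le_neg_iff, div_le_one hm]; linarith [Nat.cast_nonneg (α := ℝ) n])
        hd.le (by linarith : 1 - δ ≤ 1)
      have e : (n : ℝ) = ((n : ℝ) + 1) * (1 + -(1 / ((n : ℝ) + 1))) := by field_simp; ring
      have hnn : 0 ≤ 1 + -(1 / ((n : ℝ) + 1)) := by
        have : 1 / ((n : ℝ) + 1) ≤ 1 := by
          rw [div_le_one hm]; linarith [Nat.cast_nonneg (α := ℝ) n]
        linarith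
      have e2 : (n : ℝ) ^ (1 - δ) =
          ((n : ℝ) + 1) ^ (1 - δ) * (1 + -(1 / ((n : ℝ) + 1))) ^ (1 - δ) := by
        rw [← Real.mul_rpow hm.le hnn, ← e]
      have e3 : ((n : ℝ) + 1) ^ (1 - δ) = ((n : ℝ) + 1) ^ (-δ) * ((n : ℝ) + 1) := by
        rw [← Real.rpow_add_one hm.ne']
        congr 1
        ring
      have hpos : 0 < ((n : ℝ) + 1) ^ (-δ) := by positivity
      have h4 := mul_le_mul_of_nonneg_left hb (by positivity : 0 ≤ ((n : ℝ) + 1) ^ (1 - δ))
      rw [← e2] at h4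
      have e5 : ((n : ℝ) + 1) ^ (1 - δ) * (1 + (1 - δ) * -(1 / ((n : ℝ) + 1))) =
          ((n : ℝ) + 1) ^ (1 - δ) - (1 - δ) * ((n : ℝ) + 1) ^ (-δ) := by
        rw [e3]
        field_simp
        ring
      linarith
    have e : HOM_c δ (n + 1) = ((n : ℝ) + 1) ^ (-δ) := by simp [HOM_c]
    rw [e]
    push_cast
    rw [le_div_iff₀ hd] at ih ⊢
    nlinarith

theorem HOM_row {δ : ℝ} (h0 : 0 ≤ δ) (h1 : δ < 1) {n i : ℕ} (hi : i < n) :
    ∑ j ∈ Finset.range n, (HOM_c δ (i - j) + HOM_c δ (j - i)) ≤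
      2 * ((n : ℝ) ^ (1 - δ) / (1 - δ)) := by
  have hT := HOM_c_sum h0 h1 n
  have a1 : ∑ j ∈ Finset.range n, HOM_c δ (i - j) ≤ ∑ k ∈ Finset.range (n + 1), HOM_c δ k := by
    have e1 : ∑ j ∈ Finset.range (i + 1), HOM_c δ (i - j) =
        ∑ j ∈ Finset.range n, HOM_c δ (i - j) := by
      refine Finset.sum_subset (Finset.range_subset_range.2 hi) fun j _ hj => ?_
      have : i - j = 0 := by
        simp only [Finset.mem_range] at hj
        omega
      simp [this, HOM_c]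
    have e2 := Finset.sum_range_reflect (HOM_c δ) (i + 1)
    simp only [Nat.add_sub_cancel] at e2
    rw [← e1, e2]
    exact Finset.sum_le_sum_of_subset_of_nonneg (Finset.range_subset_range.2 (by omega))
      fun k _ _ => HOM_c_nonneg δ k
  have a2 : ∑ j ∈ Finset.range n, HOM_c δ (j - i) ≤ ∑ k ∈ Finset.range (n + 1), HOM_c δ k := by
    have e1 : ∑ j ∈ Finset.Ico i n, HOM_c δ (j - i) =
        ∑ j ∈ Finset.range n, HOM_c δ (j - i) := by
      refine Finset.sum_subset (fun j hj => ?_) fun j hj hj' => ?_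
      · simp only [Finset.mem_Ico, Finset.mem_range] at hj ⊢
        exact hj.2
      · have : j - i = 0 := by
          simp only [Finset.mem_Ico, Finset.mem_range] at hj hj'
          omega
        simp [this, HOM_c]
    rw [← e1, Finset.sum_Ico_eq_sum_range]
    simp only [Nat.add_sub_cancel_left]
    exact Finset.sum_le_sum_of_subset_of_nonneg (Finset.range_subset_range.2 (by omega))
      fun k _ _ => HOM_c_nonneg δ k
  rw [Finset.sum_add_distrib]
  linarith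

theorem HOM_kappa {δ ε h s : ℝ} (h0 : 0 ≤ δ) (hε : 0 < ε) (hh : 0 < h) (i j : ℕ) :
    ‖conj ((ε : ℂ) + Complex.I * ((s + j * h : ℝ) : ℂ)) +
        ((ε : ℂ) + Complex.I * ((s + i * h : ℝ) : ℂ))‖ ^ (-δ) ≤
      (if j = i then ε ^ (-δ) else 0) + h ^ (-δ) * (HOM_c δ (i - j) + HOM_c δ (j - i)) := by
  set w : ℂ := conj ((ε : ℂ) + Complex.I * ((s + j * h : ℝ) : ℂ)) +
        ((ε : ℂ) + Complex.I * ((s + i * h : ℝ) : ℂ)) with hw
  have hre : w.re = 2 * ε := by simp [hw]; ring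
  have him : w.im = ((i : ℝ) - j) * h := by simp [hw]; ring
  have hle : ∀ a : ℝ, 0 < a → a ≤ ‖w‖ → ‖w‖ ^ (-δ) ≤ a ^ (-δ) := fun a ha haw =>
    Real.rpow_le_rpow_of_nonpos ha haw (by linarith)
  have hk : ∀ k : ℕ, k ≠ 0 → |w.im| = k * h → ‖w‖ ^ (-δ) ≤ h ^ (-δ) * HOM_c δ k := by
    intro k hk e
    have hk0 : (0 : ℝ) < k := by exact_mod_cast Nat.pos_of_ne_zero hk
    have := hle (k * h) (by positivity) (e ▸ Complex.abs_im_le_norm w)
    rw [Real.mul_rpow hk0.le hh.le] at this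
    simpa [HOM_c, hk, mul_comm] using this
  rcases lt_trichotomy i j with hij | hij | hij
  · have e0 : i - j = 0 := by omega
    have := hk (j - i) (by omega) (by
      rw [him, Nat.cast_sub hij.le, abs_mul, abs_of_pos hh, abs_sub_comm, abs_of_nonneg]
      exact sub_nonneg.2 (by exact_mod_cast hij.le))
    simpa [hij.ne', e0, HOM_c] using this
  · subst hij
    have := hle ε hε (by
      have h := Complex.re_le_norm w
      linarith)
    simpa [HOM_c] using this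
  · have e0 : j - i = 0 := by omega
    have := hk (i - j) (by omega) (by
      rw [him, Nat.cast_sub hij.le, abs_mul, abs_of_pos hh, abs_of_nonneg]
      exact sub_nonneg.2 (by exact_mod_cast hij.le))
    simpa [hij.ne, e0, HOM_c] using this

theorem HOM_cont (h1 : St_CONV) (h2 : St_GK) {p ε : ℝ} (hp : 1 ≤ p) (hε : 0 < ε)
    {g : E N → ℂ} (hg : Mem p g) :
    Continuous fun t : ℝ => nr p (cv (GK (ε + Complex.I * t)) g) := by
  have hz : ∀ t : ℝ, 0 < ((ε : ℂ) + Complex.I * t).re := fun t => by simpa using hε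
  have hk : ∀ t : ℝ, Ker (GK (ε + Complex.I * t) : E N → ℂ) := fun t => ((h2 N).2.2 _ (hz t)).1
  refine continuous_iff_continuousAt.2 fun t => ?_
  have hl := ((h2 N).2.2 _ (hz t)).2.2.2.2.2.2.2.1
  have hc : Tendsto (fun s : ℝ => (ε : ℂ) + Complex.I * s) (𝓝 t) (𝓝 (ε + Complex.I * t)) :=
    (by fun_prop : Continuous fun s : ℝ => (ε : ℂ) + Complex.I * s).tendsto t
  have hl2 := (hl.comp hc).mul_const (nr p g)
  rw [zero_mul] at hl2
  rw [ContinuousAt, tendsto_iff_norm_sub_tendsto_zero]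
  refine squeeze_zero (fun _ => norm_nonneg _) (fun s => ?_) hl2
  have a1 := ((h1 N p hp).2 _ (hk s)).2 _ hg
  have a2 := ((h1 N p hp).2 _ (hk t)).2 _ hg
  have a3 := ((h1 N p hp).2 _ (HOM_ker_sub (hk s) (hk t))).2 _ hg
  refine (abs_nr_sub_le hp a1.2.2.1 a2.2.2.1).trans ?_
  have e : (fun x => cv (GK (ε + Complex.I * s)) g x - cv (GK (ε + Complex.I * t)) g x) =
      cv (fun y => GK (ε + Complex.I * s) y - GK (ε + Complex.I * t) y) g := by
    funext x
    simp only [cv, sub_mul]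
    rw [integral_sub (a1.1 x) (a2.1 x)]
  rw [e]
  exact a3.2.2.2.1

theorem HOM_core (h1 : St_CONV) (h2 : St_GK) (h3 : St_DISPE) {p ε l : ℝ} (hp : 2 ≤ p)
    (hδ : N * (1 / 2 - 1 / p) < 1) (hε : 0 < ε) (hl : 0 ≤ l) (hl1 : l ≤ 1) {g : E N → ℂ}
    (hg2 : Mem 2 g) (hgp : Mem p g) :
    ∫ t in (0 : ℝ)..l, nr p (cv (GK (ε + Complex.I * t)) g) ^ 2 ≤
      (1 + 2 / (1 - N * (1 / 2 - 1 / p))) * ms g := by
  set δ : ℝ := N * (1 / 2 - 1 / p) with hδe
  have hδ0 : 0 ≤ δ := by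
    have : 1 / p ≤ 1 / 2 := one_div_le_one_div_of_le two_pos hp
    exact mul_nonneg (Nat.cast_nonneg N) (by linarith)
  have hd : 0 < 1 - δ := by linarith
  rcases hl.eq_or_lt with h0 | h0
  · rw [← h0, intervalIntegral.integral_same]
    exact mul_nonneg (by positivity) (ms_nonneg _)
  obtain ⟨n, hn⟩ := exists_nat_gt (ε ^ (-δ))
  have hn0 : (0 : ℝ) < n := lt_trans (by positivity) hn
  set h : ℝ := l / n with hh
  have hh0 : 0 < h := by positivity
  have hnh : n * h = l := by rw [hh]; field_simp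
  set Y : ℝ → ℝ := fun t => nr p (cv (GK (ε + Complex.I * t)) g) ^ 2 with hY
  have hYc : Continuous Y := (HOM_cont h1 h2 (by linarith) hε hgp).pow 2
  set K : ℝ := ε ^ (-δ) + h ^ (-δ) * (2 * ((n : ℝ) ^ (1 - δ) / (1 - δ))) with hK
  have hK0 : 0 ≤ K := by positivity
  have hfin : ∀ s : ℝ, ∑ i ∈ Finset.range n, Y (s + i * h) ≤ K * ms g := by
    intro s
    refine HOM_fin h1 h2 h3 hp n (fun i => (ε : ℂ) + Complex.I * ((s + i * h : ℝ) : ℂ))
      (fun i => by simpa using hε) hK0 (fun i hi => ?_) hg2 hgp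
    refine (Finset.sum_le_sum fun j _ => HOM_kappa hδ0 hε hh0 i j).trans ?_
    rw [Finset.sum_add_distrib, ← Finset.mul_sum, Finset.sum_ite_eq' (Finset.range n) i,
      if_pos (Finset.mem_range.2 hi)]
    exact add_le_add le_rfl
      (mul_le_mul_of_nonneg_left (HOM_row hδ0 hδ hi) (by positivity))
  have e1 : ∫ t in (0 : ℝ)..l, Y t = ∑ i ∈ Finset.range n, ∫ s in (0 : ℝ)..h, Y (s + i * h) := by
    have e := intervalIntegral.sum_integral_adjacent_intervals (f := Y) (μ := volume)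
      (a := fun i : ℕ => (i : ℝ) * h) (n := n) fun i _ => hYc.intervalIntegrable _ _
    simp only [Nat.cast_zero, zero_mul, hnh] at e
    rw [← e]
    refine Finset.sum_congr rfl fun i _ => ?_
    rw [intervalIntegral.integral_comp_add_right (fun t => Y t)]
    push_cast
    congr 1 <;> ring
  have hYi : ∀ i : ℕ, Continuous fun s : ℝ => Y (s + i * h) := fun i =>
    hYc.comp (continuous_add_const _)
  rw [e1, ← intervalIntegral.integral_finsetSum fun i _ => (hYi i).intervalIntegrable _ _]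
  have e2 : ∫ s in (0 : ℝ)..h, ∑ i ∈ Finset.range n, Y (s + i * h) ≤
      ∫ _ in (0 : ℝ)..h, K * ms g :=
    intervalIntegral.integral_mono_on hh0.le
      ((continuous_finsetSum _ fun i _ => hYi i).intervalIntegrable _ _)
      (continuous_const.intervalIntegrable _ _) fun s _ => hfin s
  refine e2.trans ?_
  rw [intervalIntegral.integral_const, sub_zero, smul_eq_mul, ← mul_assoc]
  refine mul_le_mul_of_nonneg_right ?_ (ms_nonneg _)
  have b1 : h * ε ^ (-δ) ≤ 1 := by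
    calc h * ε ^ (-δ) ≤ h * n := mul_le_mul_of_nonneg_left hn.le hh0.le
      _ = l := by rw [mul_comm, hnh]
      _ ≤ 1 := hl1
  have b2 : h * h ^ (-δ) * (n : ℝ) ^ (1 - δ) ≤ 1 := by
    have e : h * h ^ (-δ) = h ^ (1 - δ) := by
      rw [mul_comm, ← Real.rpow_add_one hh0.ne']
      congr 1
      ring
    rw [e, ← Real.mul_rpow hh0.le hn0.le, mul_comm, hnh]
    exact Real.rpow_le_one hl hl1 hd.le
  have b3 : h * K = h * ε ^ (-δ) + 2 / (1 - δ) * (h * h ^ (-δ) * (n : ℝ) ^ (1 - δ)) := by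
    rw [hK]
    ring
  rw [b3]
  have b4 := mul_le_mul_of_nonneg_left b2 (by positivity : 0 ≤ 2 / (1 - δ))
  linarith

theorem HOM (h1 : St_CONV) (h2 : St_GK) (h3 : St_DISPE) (_h4 : St_SCHUR) : St_HOM := by
  intro N p hp hδ
  refine ⟨1 + 2 / (1 - N * (1 / 2 - 1 / p)), by have := sub_pos.2 hδ; positivity, ?_⟩
  intro ε l g hε hl hl1 hg
  have hε2 : 0 < ε / 2 := by positivity
  have hg2 : Mem 2 g := mem_two.2 hg
  have hz0 : 0 < (((ε / 2 : ℝ) : ℂ)).re := by simpa using hε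
  have hk0 : Ker (GK ((ε / 2 : ℝ) : ℂ) : E N → ℂ) := ((h2 N).2.2 _ hz0).1
  obtain ⟨⟨C, -, hC⟩, a⟩ := (h1 N 2 one_le_two).2 _ hk0
  obtain ⟨-, -, a1, a2, -, -, a3⟩ := a g hg2
  set g1 := cv (GK ((ε / 2 : ℝ) : ℂ)) g with hg1
  have a4 : Mem p g1 := HOM_up two_pos hp a1 (hC g hg2)
  have a5 : ms g1 ≤ ms g := by
    obtain ⟨b1, b2, b3, -⟩ := (h2 N).2.1 _ hε2
    have e : ∫ y : E N, ‖GK ((ε / 2 : ℝ) : ℂ) y‖ = 1 := by
      rw [← b3]
      refine integral_congr_ae (Eventually.of_forall fun y => ?_)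
      simp only [b1, Complex.norm_real, Real.norm_of_nonneg (b2 y)]
    rw [e, one_mul] at a2
    rw [← nr_two_sq a1.1, ← nr_two_sq hg2.1]
    exact pow_le_pow_left₀ (nr_nonneg _ _) a2 2
  have hz : ∀ t : ℝ, 0 < (((ε / 2 : ℝ) : ℂ) + Complex.I * t).re := fun t => by simpa using hε
  have e : ∀ t : ℝ, cv (GK (ε + Complex.I * t)) g =
      cv (GK (((ε / 2 : ℝ) : ℂ) + Complex.I * t)) g1 := by
    intro t
    obtain ⟨hk, -, -, -, -, -, -, -, hsg⟩ := (h2 N).2.2 _ (hz t)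
    funext x
    rw [(a3 _ hk).2 x, funext (hsg _ hz0)]
    congr 2
    push_cast
    ring
  simp only [e]
  refine ⟨fun t => ?_, HOM_cont h1 h2 (by linarith) hε2 a4, ?_⟩
  · exact (((h1 N p (by linarith)).2 _ ((h2 N).2.2 _ (hz t)).1).2 _ a4).2.2.1
  · refine (HOM_core h1 h2 h3 hp hδ hε2 hl hl1 a1 a4).trans ?_
    exact mul_le_mul_of_nonneg_left a5 (by have := sub_pos.2 hδ; positivity)

end Pool.Agent.Lib.MP_13801a_an.ND
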