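import Mathlib
import Pool.Agent.Lib.MP_13801a_an.ND.StsA

/-!
The local mass identity and the virial identity in all dimensions.
-/

open MeasureTheory Set Filter
open scoped ContDiff Topology ComplexConjugate

namespace Pool.Agent.Lib.MP_13801a_an.ND

variable {N : ℕ}

/-! ### Passing to the limit -/

theorem LMASS_lim {A J : ℝ → ℝ} (hJ : Continuous J)
    (h : ∀ s t, 0 ≤ s → s ≤ t → ∃ C : ℝ, ∀ θ, 0 < θ → θ ≤ 1 →
      |A t - A s - ∫ σ in s..t, J σ| ≤ C * θ) :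
    (∀ t, 0 ≤ t → A t - A 0 = ∫ σ in (0 : ℝ)..t, J σ) ∧ ∀ t, 0 < t → HasDerivAt A (J t) t := by
  have h1 : ∀ t, 0 ≤ t → A t - A 0 = ∫ σ in (0 : ℝ)..t, J σ := by
    intro t ht
    obtain ⟨C, hC⟩ := h 0 t le_rfl ht
    have h2 : Tendsto (fun θ : ℝ => C * θ) (𝓝[>] 0) (𝓝 0) := by
      have h3 : Tendsto (fun θ : ℝ => C * θ) (𝓝 0) (𝓝 (C * 0)) :=
        (continuous_const.mul continuous_id).tendsto 0
      rw [mul_zero] at h3
      exact h3.mono_left nhdsWithin_le_nhds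
    have h4 : |A t - A 0 - ∫ σ in (0 : ℝ)..t, J σ| ≤ 0 := by
      refine ge_of_tendsto h2 ?_
      filter_upwards [Ioc_mem_nhdsGT (zero_lt_one' ℝ)] with θ hθ
      exact hC θ hθ.1 hθ.2
    exact sub_eq_zero.1 (abs_nonpos_iff.1 h4)
  refine ⟨h1, fun t ht => ?_⟩
  have h2 : HasDerivAt (fun u => A 0 + ∫ σ in (0 : ℝ)..u, J σ) (J t) t :=
    (hJ.integral_hasStrictDerivAt 0 t).hasDerivAt.const_add _
  refine h2.congr_of_eventuallyEq ?_
  filter_upwards [Ioi_mem_nhds ht] with u hu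
  have := h1 u (le_of_lt hu)
  linarith

theorem LMASS_rate {A J Ar Jr er e : ℝ → ℝ} (hR : Rate Ar Jr er) {s t a b : ℝ} (hs : 0 ≤ s)
    (hst : s ≤ t) (hJ : Continuous J) (he : Continuous e)
    (hA : ∀ σ ∈ Icc s t, |Ar σ - A σ| ≤ a) (hJr : ∀ σ ∈ Icc s t, |Jr σ - J σ| ≤ b)
    (her : ∀ σ ∈ Icc s t, er σ ≤ e σ) :
    |A t - A s - ∫ σ in s..t, J σ| ≤ 2 * a + (t - s) * b + ∫ σ in s..t, e σ := by
  obtain ⟨D, hD, hAD, hDJ⟩ := hR s t hs hst
  have i1 := hJ.intervalIntegrable (μ := volume) s t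
  have i2 := he.intervalIntegrable (μ := volume) s t
  have h1 : |(∫ σ in s..t, D σ) - ∫ σ in s..t, J σ| ≤ (t - s) * b + ∫ σ in s..t, e σ := by
    rw [← intervalIntegral.integral_sub hD i1]
    refine (intervalIntegral.abs_integral_le_integral_abs hst).trans ?_
    have h2 : ∫ σ in s..t, |D σ - J σ| ≤ ∫ σ in s..t, (b + e σ) := by
      refine intervalIntegral.integral_mono_on hst (hD.sub i1).abs
        (intervalIntegrable_const.add i2) fun σ hσ => ?_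
      have h3 := abs_sub_le (D σ) (Jr σ) (J σ)
      linarith [hDJ σ hσ, hJr σ hσ, her σ hσ]
    rwa [intervalIntegral.integral_add intervalIntegrable_const i2, intervalIntegral.integral_const,
      smul_eq_mul] at h2
  have h2 := abs_le.1 (hA s ⟨le_rfl, hst⟩)
  have h3 := abs_le.1 (hA t ⟨hst, le_rfl⟩)
  have h4 := abs_le.1 h1
  rw [abs_le]
  constructor <;> linarith [h2.1, h2.2, h3.1, h3.2, h4.1, h4.2]

/-! ### Bilinear estimates -/

theorem LMASS_int {p q : ℝ} (hpq : p.HolderConjugate q) {a b : E N → ℂ} (ha : Mem p a)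
    (hb : Mem q b) : Integrable fun x => conj (a x) * b x :=
  (holder hpq ha hb).1.mono'
    ((Complex.continuous_conj.comp_aestronglyMeasurable ha.1).mul hb.1)
    (Eventually.of_forall fun x => by simp)

theorem LMASS_bil {p q : ℝ} (hpq : p.HolderConjugate q) {a a' b b' : E N → ℂ} (ha : Mem p a)
    (ha' : Mem p a') (hb : Mem q b) (hb' : Mem q b') :
    ∫ x, ‖conj (a x) * b x - conj (a' x) * b' x‖ ≤
      nr p (fun x => a x - a' x) * nr q b + nr p a' * nr q fun x => b x - b' x := by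
  have h1 := holder hpq (ha.sub ha') hb
  have h2 := holder hpq ha' (hb.sub hb')
  refine le_trans ?_ (add_le_add h1.2 h2.2)
  rw [← integral_add h1.1 h2.1]
  refine integral_mono ((LMASS_int hpq ha hb).sub (LMASS_int hpq ha' hb')).norm (h1.1.add h2.1)
    fun x => ?_
  have e : conj (a x) * b x - conj (a' x) * b' x =
      conj (a x - a' x) * b x + conj (a' x) * (b x - b' x) := by
    rw [map_sub]
    ring
  simp only
  rw [e]
  refine (norm_add_le _ _).trans (le_of_eq ?_)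
  rw [norm_mul, norm_mul, Complex.norm_conj, Complex.norm_conj]

theorem LMASS_wint (φ : ℂ →L[ℝ] ℝ) (hφ : ∀ z, |φ z| ≤ ‖z‖) {X : E N → ℝ} {B : ℝ}
    (hX : Measurable X) (hB : ∀ x, |X x| ≤ B) {F : E N → ℂ} (hF : Integrable F) :
    (Integrable fun x => X x * φ (F x)) ∧ |∫ x, X x * φ (F x)| ≤ B * ∫ x, ‖F x‖ := by
  have hb : ∀ x, ‖X x * φ (F x)‖ ≤ B * ‖F x‖ := fun x => by
    rw [norm_mul, Real.norm_eq_abs, Real.norm_eq_abs]
    exact mul_le_mul (hB x) (hφ _) (abs_nonneg _) ((abs_nonneg _).trans (hB x))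
  have hi : Integrable fun x => X x * φ (F x) :=
    (hF.norm.const_mul B).mono' (hX.aestronglyMeasurable.mul (φ.integrable_comp hF).1)
      (Eventually.of_forall hb)
  refine ⟨hi, ?_⟩
  rw [← integral_const_mul, ← Real.norm_eq_abs]
  exact norm_integral_le_of_norm_le (hF.norm.const_mul B) (Eventually.of_forall hb)

theorem LMASS_wbil (φ : ℂ →L[ℝ] ℝ) (hφ : ∀ z, |φ z| ≤ ‖z‖) {p q : ℝ} (hpq : p.HolderConjugate q)
    {a a' b b' : E N → ℂ} (ha : Mem p a) (ha' : Mem p a') (hb : Mem q b) (hb' : Mem q b')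
    {X : E N → ℝ} {B θ θ' K K' : ℝ} (hX : Measurable X) (hB : ∀ x, |X x| ≤ B)
    (h1 : nr p (fun x => a x - a' x) ≤ θ) (h2 : nr q (fun x => b x - b' x) ≤ θ')
    (h3 : nr p a' ≤ K) (h4 : nr q b ≤ K') :
    |(∫ x, X x * φ (conj (a x) * b x)) - ∫ x, X x * φ (conj (a' x) * b' x)| ≤
      B * (θ * K' + K * θ') := by
  have i1 := LMASS_int hpq ha hb
  have i2 := LMASS_int hpq ha' hb'
  rw [← integral_sub (LMASS_wint φ hφ hX hB i1).1 (LMASS_wint φ hφ hX hB i2).1]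
  have e : (fun x => X x * φ (conj (a x) * b x) - X x * φ (conj (a' x) * b' x)) =
      fun x => X x * φ (conj (a x) * b x - conj (a' x) * b' x) := by
    funext x
    rw [map_sub]
    ring
  rw [e]
  refine (LMASS_wint φ hφ hX hB (i1.sub i2)).2.trans
    (mul_le_mul_of_nonneg_left ((LMASS_bil hpq ha ha' hb hb').trans ?_)
      ((abs_nonneg _).trans (hB 0)))
  exact add_le_add (mul_le_mul h1 h4 (nr_nonneg _ _) ((nr_nonneg _ _).trans h1))
    (mul_le_mul h3 h2 (nr_nonneg _ _) ((nr_nonneg _ _).trans h3))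

theorem LMASS_near {p : ℝ} (hp : 1 ≤ p) {a a' : E N → ℂ} (ha : Mem p a) (ha' : Mem p a')
    {θ K : ℝ} (hθ : θ ≤ 1) (h1 : nr p (fun x => a x - a' x) ≤ θ) (h3 : nr p a' ≤ K) :
    nr p a ≤ K + 1 := by
  have h := (abs_le.1 (abs_nr_sub_le hp ha ha')).2
  linarith

/-- The pair `f, df` is close to the bounded pair `g, dg`. -/
structure LMASS_Cl (α θ K : ℝ) (f : E N → ℂ) (df : Fin N → E N → ℂ) (g : E N → ℂ)
    (dg : Fin N → E N → ℂ) : Prop where
  le : θ ≤ 1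
  f2 : Mem 2 f
  g2 : Mem 2 g
  df2 : ∀ i, Mem 2 (df i)
  dg2 : ∀ i, Mem 2 (dg i)
  fr : Mem (α + 2) f
  gr : Mem (α + 2) g
  c0 : nr 2 (fun x => f x - g x) ≤ θ
  c1 : ∀ i, nr 2 (fun x => df i x - dg i x) ≤ θ
  cr : nr (α + 2) (fun x => f x - g x) ≤ θ
  b0 : nr 2 g ≤ K
  b1 : ∀ i, nr 2 (dg i) ≤ K
  br : nr (α + 2) g ≤ K

theorem LMASS_two (φ : ℂ →L[ℝ] ℝ) (hφ : ∀ z, |φ z| ≤ ‖z‖) {a a' b b' : E N → ℂ} (ha : Mem 2 a)
    (ha' : Mem 2 a') (hb : Mem 2 b) (hb' : Mem 2 b') {X : E N → ℝ} {B θ K : ℝ}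
    (hX : Measurable X) (hB : ∀ x, |X x| ≤ B) (hθ : θ ≤ 1)
    (h1 : nr 2 (fun x => a x - a' x) ≤ θ) (h2 : nr 2 (fun x => b x - b' x) ≤ θ)
    (h3 : nr 2 a' ≤ K) (h4 : nr 2 b' ≤ K) :
    |(∫ x, X x * φ (conj (a x) * b x)) - ∫ x, X x * φ (conj (a' x) * b' x)| ≤
      B * (2 * K + 1) * θ := by
  refine (LMASS_wbil φ hφ Real.HolderConjugate.two_two ha ha' hb hb' hX hB h1 h2 h3
    (LMASS_near one_le_two hb hb' hθ h2 h4)).trans (le_of_eq ?_)
  ring

theorem LMASS_sum {a b : Fin N → ℝ} {c : ℝ} (h : ∀ i, |a i - b i| ≤ c) :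
    |∑ i, a i - ∑ i, b i| ≤ N * c := by
  rw [← Finset.sum_sub_distrib]
  refine (Finset.abs_sum_le_sum_abs _ _).trans ((Finset.sum_le_sum fun i _ => h i).trans ?_)
  simp

section Close

variable {α θ K : ℝ} {f g : E N → ℂ} {df dg : Fin N → E N → ℂ}

theorem LMASS_mass (h : LMASS_Cl α θ K f df g dg) {X : E N → ℝ} {B : ℝ} (hX : Measurable X)
    (hB : ∀ x, |X x| ≤ B) :
    |(∫ x, X x * ‖f x‖ ^ 2) - ∫ x, X x * ‖g x‖ ^ 2| ≤ B * (2 * K + 1) * θ := by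
  have e : ∀ z : ℂ, ‖z‖ ^ 2 = Complex.reCLM (conj z * z) := fun z => by
    rw [Complex.conj_mul', Complex.reCLM_apply, ← Complex.ofReal_pow, Complex.ofReal_re]
  simp only [e]
  exact LMASS_two _ Complex.abs_re_le_norm h.f2 h.g2 h.f2 h.g2 hX hB h.le h.c0 h.c0 h.b0 h.b0

theorem LMASS_cur (φ : ℂ →L[ℝ] ℝ) (hφ : ∀ z, |φ z| ≤ ‖z‖) (h : LMASS_Cl α θ K f df g dg)
    {X : E N → ℝ} {B : ℝ} (hX : Measurable X) (hB : ∀ x, |X x| ≤ B) (j : Fin N) :
    |(∫ x, X x * (2 * φ (conj (f x) * df j x))) - ∫ x, X x * (2 * φ (conj (g x) * dg j x))| ≤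
      2 * (B * (2 * K + 1) * θ) := by
  have e : ∀ u w : E N → ℂ, ∫ x, X x * (2 * φ (conj (u x) * w x)) =
      2 * ∫ x, X x * φ (conj (u x) * w x) := fun u w => by
    rw [← integral_const_mul]
    congr 1
    funext x
    ring
  rw [e, e, ← mul_sub, abs_mul, abs_two]
  exact mul_le_mul_of_nonneg_left (LMASS_two φ hφ h.f2 h.g2 (h.df2 j) (h.dg2 j) hX hB h.le h.c0
    (h.c1 j) h.b0 (h.b1 j)) zero_le_two

theorem LMASS_mom (h : LMASS_Cl α θ K f df g dg) {X : Fin N → E N → ℝ} {B : ℝ}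
    (hX : ∀ j, Measurable (X j)) (hB : ∀ j x, |X j x| ≤ B) :
    |mom X f df - mom X g dg| ≤ N * (2 * (B * (2 * K + 1) * θ)) :=
  LMASS_sum fun j => LMASS_cur Complex.imCLM Complex.abs_im_le_norm h (hX j) (hB j) j

theorem LMASS_vir (h8 : St_NL) (hα : 0 < α) (K B : ℝ) : ∃ C : ℝ, ∀ (θ lam : ℝ) (f g : E N → ℂ)
    (df dg : Fin N → E N → ℂ) (X1 X2 : Fin N → Fin N → E N → ℝ), LMASS_Cl α θ K f df g dg →
    0 ≤ lam → lam ≤ K → (∀ i j, Measurable (X1 i j) ∧ Measurable (X2 i j)) →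
    (∀ i j x, |X1 i j x| ≤ B ∧ |X2 i j x| ≤ B) →
    |vir α lam X1 X2 f df - vir α lam X1 X2 g dg| ≤ C * θ := by
  obtain ⟨-, -, hz, -, hm, C, hC0, -, hC⟩ := h8 α hα
  have hc := conj_exp hα
  set P : ℝ := |B| * ((K + 1) ^ (α + 1) + K * (C * ((K + 1) ^ α + K ^ α))) with hP
  refine ⟨4 * (N * (N * (B * (2 * K + 1)))) + 2 * α / (α + 2) * K * (N * P) +
    N * (N * (2 * (B * (2 * K + 1)))), ?_⟩
  intro θ lam f g df dg X1 X2 h hl0 hlK hX hB
  have hθ : 0 ≤ θ := (nr_nonneg _ _).trans h.c0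
  have hK : 0 ≤ K := hl0.trans hlK
  have hP0 : 0 ≤ P := by positivity
  have a1 : |(∑ i, ∑ j, ∫ x, X1 i j x * st df i j x) - ∑ i, ∑ j, ∫ x, X1 i j x * st dg i j x| ≤
      N * (N * (B * (2 * K + 1) * θ)) :=
    LMASS_sum fun i => LMASS_sum fun j => LMASS_two Complex.reCLM Complex.abs_re_le_norm
      (h.df2 i) (h.dg2 i) (h.df2 j) (h.dg2 j) (hX i j).1 (fun x => (hB i j x).1) h.le (h.c1 i)
      (h.c1 j) (h.b1 i) (h.b1 j)
  have a3 : |(∑ i, ∑ j, ∫ x, X2 i j x * nn f df j x) - ∑ i, ∑ j, ∫ x, X2 i j x * nn g dg j x| ≤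
      N * (N * (2 * (B * (2 * K + 1) * θ))) :=
    LMASS_sum fun i => LMASS_sum fun j => LMASS_cur Complex.reCLM Complex.abs_re_le_norm h
      (hX i j).2 (fun x => (hB i j x).2) j
  have hf : nr (α + 2) f ≤ K + 1 := LMASS_near hc.lt.le h.fr h.gr h.le h.cr h.br
  have a2 : |(∑ i, ∫ x, X1 i i x * ‖f x‖ ^ (α + 2)) - ∑ i, ∫ x, X1 i i x * ‖g x‖ ^ (α + 2)| ≤
      N * (P * θ) := by
    refine LMASS_sum fun i => ?_
    have e : ∀ z : ℂ, ‖z‖ ^ (α + 2) = Complex.reCLM (conj z * NL α z) := fun z => by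
      rw [hz z, Complex.reCLM_apply, Complex.ofReal_re]
    simp only [e]
    have k1 : nr ((α + 2) / (α + 1)) (fun x => NL α (f x) - NL α (g x)) ≤
        C * ((K + 1) ^ α + K ^ α) * θ := by
      refine (hC N f g h.fr h.gr).1.trans (mul_le_mul ?_ h.cr (nr_nonneg _ _) (by positivity))
      exact mul_le_mul_of_nonneg_left (add_le_add
        (Real.rpow_le_rpow (nr_nonneg _ _) hf hα.le)
        (Real.rpow_le_rpow (nr_nonneg _ _) h.br hα.le)) hC0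
    have k2 : nr ((α + 2) / (α + 1)) (fun x => NL α (f x)) ≤ (K + 1) ^ (α + 1) := by
      rw [(hm N f h.fr).2]
      exact Real.rpow_le_rpow (nr_nonneg _ _) hf (by linarith)
    refine (LMASS_wbil Complex.reCLM Complex.abs_re_le_norm hc h.fr h.gr (hm N f h.fr).1
      (hm N g h.gr).1 (hX i i).1 (fun x => ((hB i i x).1).trans (le_abs_self B)) h.cr k1 h.br
      k2).trans (le_of_eq ?_)
    rw [hP]
    ring
  have hcl : 0 ≤ 2 * α / (α + 2) * lam := by positivity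
  have hcK : 2 * α / (α + 2) * lam ≤ 2 * α / (α + 2) * K :=
    mul_le_mul_of_nonneg_left hlK (by positivity)
  have fin : ∀ A A' Q Q' D D' c c' o1 o2 o3 : ℝ, 0 ≤ c → c ≤ c' → |A - A'| ≤ o1 →
      |Q - Q'| ≤ o2 → |D - D'| ≤ o3 →
      |4 * A - c * Q + D - (4 * A' - c * Q' + D')| ≤ 4 * o1 + c' * o2 + o3 := by
    intro A A' Q Q' D D' c c' o1 o2 o3 k0 k0' k1 k2 k3
    have m1 : |c * (Q - Q')| ≤ c' * o2 := by
      rw [abs_mul, abs_of_nonneg k0]
      exact mul_le_mul k0' k2 (abs_nonneg _) (k0.trans k0')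
    have m2 := abs_le.1 m1
    have m4 := abs_le.1 k1
    have m5 := abs_le.1 k3
    rw [abs_le]
    constructor <;> linarith [m2.1, m2.2, m4.1, m4.2, m5.1, m5.2]
  refine (fin _ _ _ _ _ _ _ _ _ _ _ hcl hcK a1 a2 a3).trans (le_of_eq ?_)
  ring

end Close

/-! ### The mollified solution is close to the solution -/

theorem LMASS_approx (h1 : St_BASIC) (h2 : St_APX) (h3 : St_COM) {α κ : ℝ} {v : ℝ → E N → ℂ}
    {dv : ℝ → Fin N → E N → ℂ} (hs : Sub N α) (hv : Sol α κ v dv) (T : ℝ) :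
    ∃ K : ℝ, 0 ≤ K ∧ ∀ θ, 0 < θ → θ ≤ 1 → ∃ r : ℝ, 0 < r ∧ ∀ t ∈ Icc 0 T,
      LMASS_Cl α θ K (fm r v [] t) (fun i => fm r v [i] t) (v t) (dv t) ∧ Real.exp (κ * t) ≤ K ∧
      nr (α + 2) (fm r v [] t) ≤ K + 1 ∧
      nr ((α + 2) / (α + 1)) (com α (fm r v) (nm α r v) t) ≤ θ := by
  obtain ⟨c1, c2, -, hp, hm, -⟩ := h1 N α κ v dv hs hv
  have hα := hs.2.1
  have c3 := (hp (α + 2) (by linarith) (by linarith [hs.2.2])).2.1
  have c4 : Continuous fun t : ℝ => √(ms (v t)) + √(kin (dv t)) + nr (α + 2) (v t) +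
      Real.exp (κ * t) := ((c1.sqrt.add c2.sqrt).add c3).add (by fun_prop)
  obtain ⟨K, hK⟩ := isCompact_Icc.exists_bound_of_continuousOn (s := Icc 0 T) c4.continuousOn
  refine ⟨|K|, abs_nonneg _, fun θ h0 hθ => ?_⟩
  obtain ⟨r, hr, hr0⟩ := ((h3 N α κ v dv hs hv T (θ ^ 2) (by positivity)).and
    (self_mem_nhdsWithin (s := Ioi (0 : ℝ)))).exists
  have hsq : θ ^ 2 ≤ θ := by nlinarith
  refine ⟨r, hr0, fun t ht => ?_⟩
  have hA := h2 N α κ v dv hs hv r hr0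
  obtain ⟨k1, k2, k3, -, k5⟩ := hr t (abs_le.2 ⟨by linarith [ht.1, ht.2], ht.2⟩)
  have hb := (le_abs_self _).trans ((hK t ht).trans (le_abs_self K))
  have p1 := Real.sqrt_nonneg (ms (v t))
  have p2 := Real.sqrt_nonneg (kin (dv t))
  have p3 := nr_nonneg (α + 2) (v t)
  have p4 := (Real.exp_pos (κ * t)).le
  have hH := hv.h1 t
  have hcl : LMASS_Cl α θ |K| (fm r v [] t) (fun i => fm r v [i] t) (v t) (dv t) := by
    refine ⟨hθ, mem_two.2 (hA.mf _ t).1, mem_two.2 hH.mem0, fun i => mem_two.2 (hA.mf _ t).1,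
      fun i => mem_two.2 (hH.mem1 i), (hA.mf _ t).2, (hm t).1, ?_, fun i => ?_, k3.trans hsq, ?_,
      fun i => ?_, by linarith⟩
    · rw [nr_two (g := fun x => fm r v [] t x - v t x) ((hA.mf _ t).1.sub hH.mem0).1]
      exact Real.sqrt_le_iff.2 ⟨h0.le, k1⟩
    · rw [nr_two (g := fun x => fm r v [i] t x - dv t i x) ((hA.mf _ t).1.sub (hH.mem1 i)).1]
      exact Real.sqrt_le_iff.2 ⟨h0.le, k2 i⟩
    · rw [nr_two hH.mem0.1]
      linarith
    · rw [nr_two (hH.mem1 i).1]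
      have : ms (dv t i) ≤ kin (dv t) :=
        Finset.single_le_sum (f := fun i => ms (dv t i)) (fun j _ => ms_nonneg _)
          (Finset.mem_univ i)
      linarith [Real.sqrt_le_sqrt this]
  exact ⟨hcl, by linarith, LMASS_near (by linarith) hcl.fr hcl.gr hθ hcl.cr hcl.br,
    k5.trans hsq⟩

/-! ### The local mass identity -/

theorem LMASS_main (h1 : St_BASIC) (h2 : St_APX) (h3 : St_COM) (h4 : St_VIR1) (h5 : St_FLU)
    {α κ : ℝ} {v : ℝ → E N → ℂ} {dv : ℝ → Fin N → E N → ℂ} (hs : Sub N α) (hv : Sol α κ v dv)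
    {Ψ : E N → ℝ} {Ψ1 : Fin N → E N → ℝ} (hΨ : BW Ψ Ψ1) :
    (Continuous fun t => mom Ψ1 (v t) (dv t)) ∧
    (∀ t, 0 ≤ t → (∫ x, Ψ x * ‖v t x‖ ^ 2) - ∫ x, Ψ x * ‖v 0 x‖ ^ 2 =
      ∫ σ in (0 : ℝ)..t, mom Ψ1 (v σ) (dv σ)) ∧
    ∀ t, 0 < t → HasDerivAt (fun s => ∫ x, Ψ x * ‖v s x‖ ^ 2) (mom Ψ1 (v t) (dv t)) t := by
  obtain ⟨B, hB⟩ := hΨ.bd
  have hB0 : 0 ≤ B := (abs_nonneg _).trans (hB 0).1
  have hα := hs.2.1
  have hJ : Continuous fun t => mom Ψ1 (v t) (dv t) := by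
    refine continuous_finsetSum _ fun j _ => continuous_iff_continuousAt.2 fun t => ?_
    have hj : ∀ s, Integrable (jj (v s) (dv s) j) := fun s =>
      ((h5 N _ _ (hv.h1 s).mem0 (hv.h1 s).mem1).1 j).1
    have hi : ∀ s, Integrable fun x => Ψ1 j x * jj (v s) (dv s) j x := fun s =>
      (hj s).bdd_mul (hΨ.meas j).aestronglyMeasurable (Eventually.of_forall fun x => (hB x).2 j)
    have ht := ((h1 N α κ v dv hs hv).2.2.2.2.2.2 t j).const_mul B
    rw [mul_zero] at ht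
    rw [ContinuousAt, tendsto_iff_dist_tendsto_zero]
    refine squeeze_zero (fun _ => dist_nonneg) (fun s => ?_) ht
    rw [dist_eq_norm, ← integral_sub (hi s) (hi t), ← integral_const_mul]
    refine norm_integral_le_of_norm_le (((hj s).sub (hj t)).abs.const_mul B)
      (Eventually.of_forall fun x => ?_)
    rw [← mul_sub, Real.norm_eq_abs, abs_mul]
    exact mul_le_mul_of_nonneg_right ((hB x).2 j) (abs_nonneg _)
  refine ⟨hJ, LMASS_lim (A := fun s => ∫ x, Ψ x * ‖v s x‖ ^ 2) hJ fun s t hs0 hst => ?_⟩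
  obtain ⟨K, hK, hC⟩ := LMASS_approx h1 h2 h3 hs hv t
  refine ⟨2 * (B * (2 * K + 1)) + (t - s) * (N * (2 * (B * (2 * K + 1)))) +
    (t - s) * (2 * B * K * (K + 1)), fun θ h0 hθ => ?_⟩
  obtain ⟨r, hr, hc⟩ := hC θ h0 hθ
  have hR := h4 N α κ _ _ hα (h2 N α κ v dv hs hv r hr) Ψ Ψ1 B hΨ fun x => (hB x).1
  have hin : ∀ σ ∈ Icc s t, σ ∈ Icc 0 t := fun σ hσ => ⟨hs0.trans hσ.1, hσ.2⟩
  have h := LMASS_rate (A := fun s => ∫ x, Ψ x * ‖v s x‖ ^ 2)
    (e := fun _ => 2 * B * K * (K + 1) * θ) hR hs0 hst hJ continuous_const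
    (fun σ hσ => LMASS_mass (hc σ (hin σ hσ)).1 hΨ.cont.measurable fun x => (hB x).1)
    (fun σ hσ => LMASS_mom (hc σ (hin σ hσ)).1 hΨ.meas fun j x => (hB x).2 j)
    (fun σ hσ => by
      obtain ⟨-, k1, k2, k3⟩ := hc σ (hin σ hσ)
      exact mul_le_mul (mul_le_mul (mul_le_mul_of_nonneg_left k1 (by positivity)) k2
        (nr_nonneg _ _) (by positivity)) k3 (nr_nonneg _ _) (by positivity))
  rw [intervalIntegral.integral_const, smul_eq_mul] at h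
  refine h.trans (le_of_eq ?_)
  ring

theorem LMASS (h1 : St_BASIC) (h2 : St_APX) (h3 : St_COM) (h4 : St_VIR1) (h5 : St_FLU) :
    St_LMASS := by
  intro N α κ v dv hs hv
  refine ⟨fun t ht => ?_, fun Ψ Ψ1 hΨ => ?_⟩
  · have hΨ : BW (fun _ : E N => (1 : ℝ)) fun _ _ => 0 :=
      ⟨fun i x => hasDerivAt_const (0 : ℝ) (1 : ℝ), 1, fun x => by simp⟩
    have h := (LMASS_main h1 h2 h3 h4 h5 hs hv hΨ).2.1 t ht
    simp only [mom, one_mul, zero_mul, integral_zero, Finset.sum_const_zero,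
      intervalIntegral.integral_zero] at h
    exact sub_eq_zero.1 h
  · have h := LMASS_main h1 h2 h3 h4 h5 hs hv hΨ
    exact ⟨h.1, h.2.2⟩

/-! ### The virial identity -/

theorem MOM (h1 : St_BASIC) (h2 : St_APX) (h3 : St_COM) (h4 : St_VIR2) (h5 : St_FLU)
    (h6 : St_VCONT) (h7 : St_STRC) (h8 : St_NL) : St_MOM := by
  intro N α κ v dv hs hv X X1 X2 hX
  have _ := h5
  obtain ⟨B0, hB0⟩ := hX.bd
  obtain ⟨B, hB, hBp⟩ : ∃ B : ℝ, (∀ i j x, |X j x| ≤ B ∧ |X1 i j x| ≤ B ∧ |X2 i j x| ≤ B) ∧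
      0 ≤ B := ⟨|B0|, fun i j x => ⟨(hB0 i j x).1.trans (le_abs_self _),
        (hB0 i j x).2.1.trans (le_abs_self _), (hB0 i j x).2.2.trans (le_abs_self _)⟩, abs_nonneg _⟩
  have hα := hs.2.1
  have hXm : ∀ i j, Measurable (X1 i j) ∧ Measurable (X2 i j) := fun i j =>
    ⟨hX.meas1 i j, hX.meas2 i j⟩
  have hJ : Continuous fun t => vir α (Real.exp (κ * t)) X1 X2 (v t) (dv t) := by
    refine continuous_iff_continuousAt.2 fun t => Metric.continuousAt_iff.2 fun η hη => ?_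
    obtain ⟨τ, hτ, h⟩ := h6 N α κ v dv hs hv (|t| + 1) B (η / 2) (by positivity)
    refine ⟨min τ 1, by positivity, fun s hst => ?_⟩
    rw [Real.dist_eq] at hst ⊢
    have k1 : |s| ≤ |t| + 1 := by
      have := abs_sub_abs_le_abs_sub s t
      linarith [min_le_right τ 1]
    have k2 := h s t k1 (by linarith) (hst.le.trans (min_le_left _ _)) X1 X2 hXm
      fun i j x => (hB i j x).2
    linarith
  refine ⟨hJ, (LMASS_lim (A := fun s => mom X (v s) (dv s)) hJ fun s t hs0 hst => ?_).2⟩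
  obtain ⟨K, hK, hC⟩ := LMASS_approx h1 h2 h3 hs hv t
  obtain ⟨C, hvir⟩ := LMASS_vir (N := N) h8 hα K B
  obtain ⟨S, -, hS⟩ := h7 N α κ v dv hs hv t (hs0.trans hst)
  obtain ⟨m1, -, m3, -⟩ := (h1 N α κ v dv hs hv).2.2.2.1 (α + 2) (by linarith)
    (by linarith [hs.2.2])
  refine ⟨2 * (N * (2 * (B * (2 * K + 1)))) + (t - s) * C +
    B * K * (N * ((t - s) * (2 * K + 4) + 2 * S)), fun θ h0 hθ => ?_⟩
  obtain ⟨r, hr, hc⟩ := hC θ h0 hθ
  have hR := h4 N α κ _ _ hα (h2 N α κ v dv hs hv r hr) X X1 X2 B hX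
    fun i j x => ⟨(hB i j x).1, (hB i j x).2.1⟩
  have hin : ∀ σ ∈ Icc s t, σ ∈ Icc 0 t := fun σ hσ => ⟨hs0.trans hσ.1, hσ.2⟩
  have hst2 : ∀ i, (Continuous fun σ => nr (α + 2) (fm r v [i] σ)) ∧
      ∫ σ in (0 : ℝ)..t, nr (α + 2) (fm r v [i] σ) ^ 2 ≤ S * 1 ^ 2 := fun i =>
    hS (α + 2) 1 v (by linarith) zero_le_one m1 m3 (fun σ _ y => (one_mul _).ge) r hr i
  have ci : ∀ i, Continuous fun σ => 2 * K + 4 + 2 * nr (α + 2) (fm r v [i] σ) ^ 2 := fun i =>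
    continuous_const.add (continuous_const.mul ((hst2 i).1.pow 2))
  have h := LMASS_rate (A := fun s => mom X (v s) (dv s))
    (e := fun σ => B * K * θ * ∑ i, (2 * K + 4 + 2 * nr (α + 2) (fm r v [i] σ) ^ 2)) hR hs0 hst hJ
    (continuous_const.mul (continuous_finsetSum _ fun i _ => ci i))
    (fun σ hσ => LMASS_mom (hc σ (hin σ hσ)).1 (fun j => (hX.cont j).measurable)
      fun j x => (hB j j x).1)
    (fun σ hσ => hvir θ _ _ _ _ _ X1 X2 (hc σ (hin σ hσ)).1 (Real.exp_pos _).le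
      (hc σ (hin σ hσ)).2.1 hXm fun i j x => (hB i j x).2)
    (fun σ hσ => by
      obtain ⟨-, k1, k2, k3⟩ := hc σ (hin σ hσ)
      have k4 : ∑ i, (2 * nr (α + 2) (fm r v [] σ) + 4 * nr (α + 2) (fm r v [i] σ)) ≤
          ∑ i, (2 * K + 4 + 2 * nr (α + 2) (fm r v [i] σ) ^ 2) :=
        Finset.sum_le_sum fun i _ => by nlinarith [sq_nonneg (nr (α + 2) (fm r v [i] σ) - 1)]
      have k5 : 0 ≤ ∑ i, (2 * nr (α + 2) (fm r v [] σ) + 4 * nr (α + 2) (fm r v [i] σ)) :=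
        Finset.sum_nonneg fun i _ => add_nonneg (mul_nonneg zero_le_two (nr_nonneg _ _))
          (mul_nonneg zero_le_four (nr_nonneg _ _))
      refine (mul_le_mul (mul_le_mul (mul_le_mul_of_nonneg_left k1 hBp) k4 k5 (by positivity)) k3
        (nr_nonneg _ _) (mul_nonneg (by positivity) (k5.trans k4))).trans (le_of_eq ?_)
      ring)
  have he : ∫ σ in s..t, B * K * θ * ∑ i, (2 * K + 4 + 2 * nr (α + 2) (fm r v [i] σ) ^ 2) ≤
      B * K * θ * (N * ((t - s) * (2 * K + 4) + 2 * S)) := by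
    rw [intervalIntegral.integral_const_mul,
      intervalIntegral.integral_finsetSum fun i _ => (ci i).intervalIntegrable _ _]
    refine mul_le_mul_of_nonneg_left ?_ (by positivity)
    refine (Finset.sum_le_sum (g := fun _ => (t - s) * (2 * K + 4) + 2 * S) fun i _ => ?_).trans
      (by simp [mul_add])
    have ii : ∀ a b : ℝ, IntervalIntegrable (fun σ => nr (α + 2) (fm r v [i] σ) ^ 2) volume a b :=
      ((hst2 i).1.pow 2).intervalIntegrable (μ := volume)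
    rw [intervalIntegral.integral_add intervalIntegrable_const ((ii s t).const_mul 2),
      intervalIntegral.integral_const, intervalIntegral.integral_const_mul, smul_eq_mul]
    have k1 : ∫ σ in s..t, nr (α + 2) (fm r v [i] σ) ^ 2 ≤
        ∫ σ in (0 : ℝ)..t, nr (α + 2) (fm r v [i] σ) ^ 2 :=
      intervalIntegral.integral_mono_interval hs0 hst le_rfl
        (Eventually.of_forall fun σ => sq_nonneg _) (ii 0 t)
    linarith [(hst2 i).2]
  refine h.trans ((add_le_add le_rfl he).trans (le_of_eq ?_))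
  ring

end Pool.Agent.Lib.MP_13801a_an.ND
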