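import Mathlib
import Pool.Agent.Lib.MP_13801a_an.ND.StsA

/-!
Reduction of the main statement to the statements on the transformed equation.
-/

open MeasureTheory Set Filter

namespace Pool.Agent.Lib.MP_13801a_an.ND

theorem MAIN (h1 : St_WU) (h2 : St_TRANS) (h3 : St_INIT) (h4 : St_FIN) : St_MAIN := by
  intro N α hlo hhi
  have hN : 1 ≤ N := by
    rcases Nat.eq_zero_or_pos N with rfl | h
    · norm_num at hlo
    · exact h
  have hα : 0 < α := by
    by_contra h
    have : (N : ℝ) * α ≤ 0 := mul_nonpos_of_nonneg_of_nonpos (Nat.cast_nonneg N) (not_lt.1 h)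
    linarith
  have hS : Sub N α := ⟨hN, hα, hhi⟩
  refine ⟨fun u0 du0 hw hne => ?_, fun γ hγ u0 du0 hw hen => ?_⟩
  · obtain ⟨κ0, hκ0, hκ⟩ := h3 N α (kin fun i x => du0 i x) u0 hS (Lp.memLp u0)
      (fun h => hne (Lp.eq_zero_iff_ae_eq_zero.2 h))
    refine ⟨κ0 / α, div_pos hκ0 hα, fun γ hγ => ?_⟩
    rintro ⟨u, du, hG, rfl⟩
    obtain ⟨v, dv, hv, e0, e1⟩ := h2 N α γ u du hα hG
    have hlt : κ0 < α * γ := by rwa [div_lt_iff₀' hα] at hγ
    have hd : du 0 = du0 := h1 N _ _ _ (hG.weak 0 le_rfl) hw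
    have e2 : dv 0 = fun i x => du0 i x := by
      funext i x
      rw [e1, hd]
    obtain ⟨t, ht, hen⟩ := hκ (α * γ) hlt v dv hv (Eventually.of_forall e0) (by rw [e2])
    exact h4 N α (α * γ) v dv hlo hS (by linarith) hv t ht hen
  · rintro ⟨u, du, hG, rfl⟩
    obtain ⟨v, dv, hv, e0, e1⟩ := h2 N α γ u du hα hG
    have hd : du 0 = du0 := h1 N _ _ _ (hG.weak 0 le_rfl) hw
    have e2 : dv 0 = fun i x => du0 i x := by
      funext i x
      rw [e1, hd]
    have e3 : v 0 = fun x => u 0 x := funext e0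
    refine h4 N α (α * γ) v dv hlo hS (mul_nonneg hα.le hγ) hv 0 le_rfl ?_
    rw [en, pot, e2, e3, mul_zero, Real.exp_zero, one_mul]
    exact hen

end Pool.Agent.Lib.MP_13801a_an.ND
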