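import Mathlib
import Pool.Agent.Lib.MP_13801a_an.ND.StsA

/-!
The integral Minkowski inequality and the Schur test for a weakly singular kernel.
-/

open MeasureTheory Set Filter
open scoped ContDiff Topology ComplexConjugate ENNReal

namespace Pool.Agent.Lib.MP_13801a_an.ND

/-- Weighted form of the integral Minkowski inequality. -/
theorem MINK_aux {X Y : Type} [MeasurableSpace X] [MeasurableSpace Y] (μ : Measure X)
    (ν : Measure Y) [SFinite μ] [SFinite ν] {p : ℝ} (hp : 1 < p) {F : X → Y → ℝ≥0∞}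
    (hF : Measurable (Function.uncurry F)) {W : X → ℝ≥0∞} (hW : Measurable W)
    (h : ∀ᵐ s ∂μ, W s ≠ 0 ∧ W s ≠ ⊤ ∧ ∫⁻ y, F s y ^ p ∂ν ≤ W s ^ p) :
    ∫⁻ y, (∫⁻ s, F s y ∂μ) ^ p ∂ν ≤ (∫⁻ s, W s ∂μ) ^ p := by
  have hpq := Real.HolderConjugate.conjExponent hp
  set q := Real.conjExponent p
  have hp0 : 0 < p := hpq.pos
  have hq0 : 0 < q := hpq.symm.pos
  have e1 : 1 / q * p = p - 1 := by
    rw [one_div, inv_mul_eq_div]
    exact hpq.div_conj_eq_sub_one
  have hG : Measurable (Function.uncurry fun s y => F s y ^ p * W s ^ (1 - p)) :=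
    (hF.pow_const p).mul ((hW.comp measurable_fst).pow_const _)
  have h1 : ∀ y, (∫⁻ s, F s y ∂μ) ^ p ≤
      (∫⁻ s, F s y ^ p * W s ^ (1 - p) ∂μ) * (∫⁻ s, W s ∂μ) ^ (p - 1) := by
    intro y
    have hy : Measurable fun s => F s y := hF.of_uncurry_right
    have h2 := ENNReal.lintegral_mul_le_Lp_mul_Lq μ hpq
      (f := fun s => F s y * W s ^ (-(1 / q))) (g := fun s => W s ^ (1 / q))
      (hy.mul (hW.pow_const _)).aemeasurable (hW.pow_const _).aemeasurable
    have h3 : ∫⁻ s, ((fun s => F s y * W s ^ (-(1 / q))) * fun s => W s ^ (1 / q)) s ∂μ =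
        ∫⁻ s, F s y ∂μ := by
      refine lintegral_congr_ae (h.mono fun s hs => ?_)
      simp only [Pi.mul_apply]
      rw [mul_assoc, ← ENNReal.rpow_add _ _ hs.1 hs.2.1, neg_add_cancel, ENNReal.rpow_zero, mul_one]
    have h4 : ∀ s, (F s y * W s ^ (-(1 / q))) ^ p = F s y ^ p * W s ^ (1 - p) := by
      intro s
      rw [ENNReal.mul_rpow_of_nonneg _ _ hp0.le, ← ENNReal.rpow_mul, neg_mul, e1, neg_sub]
    have h5 : ∀ s, (W s ^ (1 / q)) ^ q = W s := by
      intro s
      rw [← ENNReal.rpow_mul, one_div, inv_mul_cancel₀ hq0.ne', ENNReal.rpow_one]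
    simp only [h3, h4, h5] at h2
    refine (ENNReal.rpow_le_rpow h2 hp0.le).trans (le_of_eq ?_)
    rw [ENNReal.mul_rpow_of_nonneg _ _ hp0.le, ← ENNReal.rpow_mul, ← ENNReal.rpow_mul, e1, one_div,
      inv_mul_cancel₀ hp0.ne', ENNReal.rpow_one]
  calc ∫⁻ y, (∫⁻ s, F s y ∂μ) ^ p ∂ν
      ≤ ∫⁻ y, (∫⁻ s, F s y ^ p * W s ^ (1 - p) ∂μ) * (∫⁻ s, W s ∂μ) ^ (p - 1) ∂ν :=
        lintegral_mono h1
    _ = (∫⁻ s, ∫⁻ y, F s y ^ p * W s ^ (1 - p) ∂ν ∂μ) * (∫⁻ s, W s ∂μ) ^ (p - 1) := by
        rw [lintegral_mul_const _ hG.lintegral_prod_left, lintegral_lintegral_swap hG.aemeasurable]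
    _ ≤ (∫⁻ s, W s ∂μ) * (∫⁻ s, W s ∂μ) ^ (p - 1) := by
        refine mul_le_mul_left (lintegral_mono_ae (h.mono fun s hs => ?_)) _
        have hs' : Measurable fun y => F s y ^ p := hF.of_uncurry_left.pow_const p
        rw [lintegral_mul_const _ hs']
        refine (mul_le_mul_left hs.2.2 _).trans (le_of_eq ?_)
        rw [← ENNReal.rpow_add _ _ hs.1 hs.2.1, add_sub_cancel, ENNReal.rpow_one]
    _ = _ := by
        conv_rhs => rw [show p = 1 + (p - 1) by ring,
          ENNReal.rpow_add_of_nonneg _ _ zero_le_one (by linarith), ENNReal.rpow_one]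

theorem MINK : St_MINK := by
  intro N p t0 t Γ a hp ht hΓ ha h
  have hp0 : 0 < p := by linarith
  have hp1 : ENNReal.ofReal p ≠ 0 := by simpa using hp0
  have hc : Continuous fun x => ∫ s in t0..t, Γ s x :=
    intervalIntegral.continuous_parametric_intervalIntegral_of_continuous'
      (f := fun x s => Γ s x) (hΓ.comp continuous_swap) t0 t
  have ha0 : ∀ s ∈ Icc t0 t, 0 ≤ a s := fun s hs => (nr_nonneg _ _).trans (h s hs).2
  have key : ∀ η : ℝ, 0 < η → eLpNorm (fun x => ∫ s in t0..t, Γ s x) (ENNReal.ofReal p) volume ≤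
      ENNReal.ofReal (∫ s in t0..t, (a s + η)) := by
    intro η hη
    have hw : Continuous fun s => a s + η := ha.add continuous_const
    have h1 := MINK_aux (volume.restrict (Ioc t0 t)) (volume : Measure (E N)) hp
      (F := fun s x => ‖Γ s x‖ₑ) hΓ.measurable.enorm (W := fun s => ENNReal.ofReal (a s + η))
      hw.measurable.ennreal_ofReal (by
        filter_upwards [ae_restrict_mem measurableSet_Ioc] with s hs
        have hs' := Ioc_subset_Icc_self hs
        refine ⟨(ENNReal.ofReal_pos.2 (by linarith [ha0 s hs'])).ne', ENNReal.ofReal_ne_top, ?_⟩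
        have h2 : eLpNorm (Γ s) (ENNReal.ofReal p) volume ≤ ENNReal.ofReal (a s + η) := by
          rw [← ofReal_lpNorm (h s hs').1]
          exact ENNReal.ofReal_le_ofReal ((h s hs').2.trans (by linarith))
        rw [eLpNorm_eq_lintegral_rpow_enorm_toReal hp1 ENNReal.ofReal_ne_top,
          ENNReal.toReal_ofReal hp0.le, one_div] at h2
        exact (ENNReal.rpow_inv_le_iff hp0).1 h2)
    rw [eLpNorm_eq_lintegral_rpow_enorm_toReal hp1 ENNReal.ofReal_ne_top,
      ENNReal.toReal_ofReal hp0.le, one_div, ENNReal.rpow_inv_le_iff hp0,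
      intervalIntegral.integral_of_le ht, ofReal_integral_eq_lintegral_ofReal
        (hw.intervalIntegrable t0 t).1]
    · refine le_trans (lintegral_mono fun x => ENNReal.rpow_le_rpow ?_ hp0.le) h1
      rw [intervalIntegral.integral_of_le ht]
      exact enorm_integral_le_lintegral_enorm _
    · filter_upwards [ae_restrict_mem measurableSet_Ioc] with s hs
      have := ha0 s (Ioc_subset_Icc_self hs)
      simp only [Pi.zero_apply]
      linarith
  have hm : Mem p fun x => ∫ s in t0..t, Γ s x :=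
    ⟨hc.aestronglyMeasurable, (key 1 one_pos).trans_lt ENNReal.ofReal_lt_top⟩
  refine ⟨hm, le_of_forall_pos_le_add fun η hη => ?_⟩
  have hη' : 0 < η / (t - t0 + 1) := div_pos hη (by linarith)
  have h1 := key _ hη'
  rw [← ofReal_lpNorm hm, ENNReal.ofReal_le_ofReal_iff (intervalIntegral.integral_nonneg ht
    fun s hs => by linarith [ha0 s hs]), intervalIntegral.integral_add
    (ha.intervalIntegrable _ _) (continuous_const.intervalIntegrable _ _),
    intervalIntegral.integral_const, smul_eq_mul] at h1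
  refine h1.trans (add_le_add_right ?_ _)
  rw [mul_div_assoc', div_le_iff₀ (by linarith)]
  nlinarith

theorem MINK_swap {f : ℝ → ℝ → ℝ} (hf : Continuous f.uncurry) (a b : ℝ) :
    ∫ x in a..b, ∫ y in a..b, f x y = ∫ y in a..b, ∫ x in a..b, f x y :=
  intervalIntegral_intervalIntegral_swap
    ((hf.continuousOn.integrableOn_compact (isCompact_uIcc.prod isCompact_uIcc)).mono_set
      (prod_mono uIoc_subset_uIcc uIoc_subset_uIcc))

theorem MINK_cs {k a : ℝ → ℝ} (hk : Continuous k) (ha : Continuous a) (h0 : ∀ s, 0 ≤ k s)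
    {u v : ℝ} (huv : u ≤ v) :
    (∫ s in u..v, k s * a s) ^ 2 ≤ (∫ s in u..v, k s) * ∫ s in u..v, k s * a s ^ 2 := by
  have h := discrim_le_zero (a := ∫ s in u..v, k s) (b := -2 * ∫ s in u..v, k s * a s)
    (c := ∫ s in u..v, k s * a s ^ 2) fun x => by
      have h1 : 0 ≤ ∫ s in u..v, (x * x * k s + -2 * x * (k s * a s) + k s * a s ^ 2) :=
        intervalIntegral.integral_nonneg huv fun s _ => by
          nlinarith [mul_nonneg (h0 s) (sq_nonneg (x - a s))]
      rw [intervalIntegral.integral_add, intervalIntegral.integral_add,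
        intervalIntegral.integral_const_mul, intervalIntegral.integral_const_mul] at h1
      · linarith
      all_goals exact Continuous.intervalIntegrable (by fun_prop) _ _
  rw [discrim] at h
  linarith

theorem MINK_schur {k a : ℝ → ℝ} {t0 l M : ℝ} (hk : Continuous k) (h0 : ∀ s, 0 ≤ k s)
    (he : ∀ s, k (-s) = k s) (hl : 0 ≤ l) (hM : ∫ s in -l..l, k s ≤ M) (ha : Continuous a)
    (ha0 : ∀ s, 0 ≤ a s) :
    (∫ t in t0..t0 + l, (∫ s in t0..t, k (t - s) * a s) ^ 2 ≤
      M ^ 2 * ∫ s in t0..t0 + l, a s ^ 2) ∧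
    ∫ t in t0..t0 + l, ∫ s in t0..t0 + l, k (t - s) * (a s * a t) ≤
      M * ∫ s in t0..t0 + l, a s ^ 2 := by
  have hle : t0 ≤ t0 + l := by linarith
  have h1 : ∀ t ∈ Icc t0 (t0 + l), ∫ s in t0..t0 + l, k (t - s) ≤ M := by
    intro t ht
    rw [intervalIntegral.integral_comp_sub_left k t]
    refine le_trans (intervalIntegral.integral_mono_interval ?_ ?_ ?_
      (Eventually.of_forall h0) (hk.intervalIntegrable _ _)) hM <;> linarith [ht.1, ht.2]
  have hM0 : 0 ≤ M := (intervalIntegral.integral_nonneg (by linarith) fun s _ => h0 s).trans hM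
  have h2 : ∫ t in t0..t0 + l, ∫ s in t0..t0 + l, k (t - s) * a t ^ 2 ≤
      M * ∫ s in t0..t0 + l, a s ^ 2 := by
    rw [← intervalIntegral.integral_const_mul]
    refine intervalIntegral.integral_mono_on hle
      (Continuous.intervalIntegrable (by fun_prop) _ _)
      (Continuous.intervalIntegrable (by fun_prop) _ _) fun t ht => ?_
    rw [intervalIntegral.integral_mul_const]
    exact mul_le_mul_of_nonneg_right (h1 t ht) (sq_nonneg _)
  have h3 : ∫ t in t0..t0 + l, ∫ s in t0..t0 + l, k (t - s) * a s ^ 2 ≤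
      M * ∫ s in t0..t0 + l, a s ^ 2 := by
    rw [MINK_swap (f := fun t s => k (t - s) * a s ^ 2) (by unfold Function.uncurry; fun_prop)]
    refine le_trans (le_of_eq ?_) h2
    refine intervalIntegral.integral_congr fun s _ => intervalIntegral.integral_congr fun t _ => ?_
    rw [← he, neg_sub]
  constructor
  · refine le_trans ?_ ((mul_le_mul_of_nonneg_left h3 hM0).trans (le_of_eq (by ring)))
    rw [← intervalIntegral.integral_const_mul]
    refine intervalIntegral.integral_mono_on hle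
      (Continuous.intervalIntegrable (by fun_prop) _ _)
      (Continuous.intervalIntegrable (by fun_prop) _ _) fun t ht => ?_
    have h4 : ∫ s in t0..t, k (t - s) * a s ≤ ∫ s in t0..t0 + l, k (t - s) * a s :=
      intervalIntegral.integral_mono_interval le_rfl ht.1 ht.2
        (Eventually.of_forall fun s => mul_nonneg (h0 _) (ha0 _))
        (Continuous.intervalIntegrable (by fun_prop) _ _)
    refine (pow_le_pow_left₀ (intervalIntegral.integral_nonneg ht.1
      fun s _ => mul_nonneg (h0 _) (ha0 _)) h4 2).trans ?_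
    refine (MINK_cs (k := fun s => k (t - s)) (by fun_prop) ha (fun s => h0 _) hle).trans ?_
    exact mul_le_mul_of_nonneg_right (h1 t ht)
      (intervalIntegral.integral_nonneg hle fun s _ => mul_nonneg (h0 _) (sq_nonneg _))
  · have h4 : ∫ t in t0..t0 + l, ∫ s in t0..t0 + l, k (t - s) * (a s * a t) ≤
        ∫ t in t0..t0 + l, (1 / 2 * (∫ s in t0..t0 + l, k (t - s) * a s ^ 2) +
          1 / 2 * ∫ s in t0..t0 + l, k (t - s) * a t ^ 2) := by
      refine intervalIntegral.integral_mono_on hle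
        (Continuous.intervalIntegrable (by fun_prop) _ _)
        (Continuous.intervalIntegrable (by fun_prop) _ _) fun t _ => ?_
      rw [← intervalIntegral.integral_const_mul, ← intervalIntegral.integral_const_mul,
        ← intervalIntegral.integral_add (Continuous.intervalIntegrable (by fun_prop) _ _)
          (Continuous.intervalIntegrable (by fun_prop) _ _)]
      refine intervalIntegral.integral_mono_on hle
        (Continuous.intervalIntegrable (by fun_prop) _ _)
        (Continuous.intervalIntegrable (by fun_prop) _ _) fun s _ => ?_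
      nlinarith [mul_nonneg (h0 (t - s)) (sq_nonneg (a s - a t))]
    rw [intervalIntegral.integral_add (Continuous.intervalIntegrable (by fun_prop) _ _)
      (Continuous.intervalIntegrable (by fun_prop) _ _), intervalIntegral.integral_const_mul,
      intervalIntegral.integral_const_mul] at h4
    linarith

theorem SCHUR : St_SCHUR := by
  intro δ ε t0 l a hδ hδ1 hε hl ha ha0
  have hne : ∀ τ : ℝ, ‖(ε : ℂ) + Complex.I * (τ : ℝ)‖ ≠ 0 := fun τ h => by
    have h1 := congrArg Complex.re (norm_eq_zero.1 h)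
    simp at h1
    exact hε.ne' h1
  have hk : Continuous fun τ : ℝ => ‖(ε : ℂ) + Complex.I * (τ : ℝ)‖ ^ (-δ) :=
    Continuous.rpow_const (by fun_prop) fun τ => Or.inl (hne τ)
  have he : ∀ τ : ℝ, ‖(ε : ℂ) + Complex.I * (-τ : ℝ)‖ ^ (-δ) =
      ‖(ε : ℂ) + Complex.I * (τ : ℝ)‖ ^ (-δ) := fun τ => by
    rw [← Complex.norm_conj]
    simp
  refine MINK_schur (k := fun τ : ℝ => ‖(ε : ℂ) + Complex.I * (τ : ℝ)‖ ^ (-δ)) hk
    (fun τ => by positivity) he hl ?_ ha ha0
  have h1 : ∫ τ in (0 : ℝ)..l, ‖(ε : ℂ) + Complex.I * (τ : ℝ)‖ ^ (-δ) ≤ l ^ (1 - δ) / (1 - δ) := by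
    have h2 : ∫ τ in (0 : ℝ)..l, τ ^ (-δ) = l ^ (1 - δ) / (1 - δ) := by
      rw [integral_rpow (Or.inl (by linarith)), Real.zero_rpow (by linarith), sub_zero,
        neg_add_eq_sub]
    rw [← h2]
    refine intervalIntegral.integral_mono_on_of_le_Ioo hl (hk.intervalIntegrable _ _)
      (intervalIntegral.intervalIntegrable_rpow' (by linarith)) fun τ hτ => ?_
    refine Real.rpow_le_rpow_of_nonpos hτ.1 ?_ (by linarith)
    simpa using Complex.im_le_norm ((ε : ℂ) + Complex.I * (τ : ℝ))
  have h3 : ∫ τ in -l..0, ‖(ε : ℂ) + Complex.I * (τ : ℝ)‖ ^ (-δ) =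
      ∫ τ in (0 : ℝ)..l, ‖(ε : ℂ) + Complex.I * (τ : ℝ)‖ ^ (-δ) := by
    have h4 := intervalIntegral.integral_comp_neg (a := 0) (b := l)
      fun τ : ℝ => ‖(ε : ℂ) + Complex.I * (τ : ℝ)‖ ^ (-δ)
    simp only [he, neg_zero] at h4
    exact h4.symm
  rw [← intervalIntegral.integral_add_adjacent_intervals (b := 0) (hk.intervalIntegrable _ _)
    (hk.intervalIntegrable _ _), h3, mul_div_assoc]
  linarith

end Pool.Agent.Lib.MP_13801a_an.ND
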