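import Mathlib
import Pool.Agent.Lib.MP_13801a_an.ND.StsA

/-!
The mollifier in all dimensions.
-/

open MeasureTheory Set Filter
open scoped ContDiff Topology ComplexConjugate Convolution

namespace Pool.Agent.Lib.MP_13801a_an.ND

variable {N : ℕ}

theorem MOL_nonneg {r : ℝ} (hr : 0 < r) (x : E N) : 0 ≤ mol r x :=
  mul_nonneg (by positivity) ((bmp N).nonneg_normed _)

theorem MOL_zero {r : ℝ} (hr : 0 < r) (x : E N) (hx : r ≤ ‖x‖) : mol r x = 0 := by
  rw [mol, ContDiffBump.normed_def, (bmp N).zero_of_le_dist, zero_div, mul_zero]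
  simp only [bmp, dist_zero_right, norm_smul, norm_inv, Real.norm_eq_abs, abs_of_pos hr]
  rw [← div_eq_inv_mul, le_div_iff₀ hr]
  linarith

theorem MOL_test {r : ℝ} (hr : 0 < r) : Test (mol r : E N → ℝ) := by
  refine ⟨?_, HasCompactSupport.intro (isCompact_closedBall (0 : E N) r) fun x hx => ?_⟩
  · exact contDiff_const.mul ((bmp N).contDiff_normed.comp (contDiff_const_smul r⁻¹))
  · refine MOL_zero hr x (le_of_lt ?_)
    simpa using hx

theorem MOL_scale {r : ℝ} (hr : 0 < r) (f : E N → ℝ) :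
    ∫ x, f (r⁻¹ • x) = r ^ N * ∫ x, f x := by
  rw [Measure.integral_comp_smul, finrank_euclideanSpace_fin, inv_pow, inv_inv,
    abs_of_pos (by positivity), smul_eq_mul]

theorem MOL_int {r : ℝ} (hr : 0 < r) : ∫ x : E N, mol r x = 1 := by
  simp only [mol]
  rw [integral_const_mul, MOL_scale hr, (bmp N).integral_normed]
  field_simp

theorem MOL_even (r : ℝ) (x : E N) : mol r (-x) = mol r x := by
  simp only [mol, smul_neg, (bmp N).normed_neg]

theorem MOL_pd_sub {k : E N → ℝ} (hk : Differentiable ℝ k) (i : Fin N) (x y : E N) :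
    pd i (fun y => k (x - y)) y = -pd i k (x - y) := by
  have h := (hk (x - y)).hasFDerivAt.comp y ((hasFDerivAt_id y).const_sub x)
  have e : fderiv ℝ (fun y => k (x - y)) y = _ := h.fderiv
  rw [pd, e]
  simp [pd]

theorem MOL_diff {k : E N → ℝ} (hk : Test k) : Differentiable ℝ k :=
  hk.1.differentiable (by simp)

theorem MOL_odd {r : ℝ} (hr : 0 < r) (i : Fin N) (x : E N) :
    pd i (mol r) (-x) = -pd i (mol r) x := by
  have h := MOL_pd_sub (MOL_diff (MOL_test (N := N) hr)) i 0 x
  simp only [zero_sub, MOL_even] at h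
  have e : pd i (fun y : E N => mol r y) x = pd i (mol r) x := rfl
  linarith

theorem MOL_pd (r : ℝ) (i : Fin N) (x : E N) :
    pd i (mol r) x = (r ^ N)⁻¹ * r⁻¹ * pd i ((bmp N).normed volume) (r⁻¹ • x) := by
  have hd : Differentiable ℝ ((bmp N).normed volume) :=
    ((bmp N).contDiff_normed (n := 1)).differentiable (by simp)
  have h := ((hd (r⁻¹ • x)).hasFDerivAt.comp x
    ((hasFDerivAt_id x).const_smul r⁻¹)).const_mul (r ^ N)⁻¹
  have e : fderiv ℝ (mol r) x = _ := h.fderiv
  rw [pd, e]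
  simp [pd, mul_assoc]

theorem MOL_ker {k : E N → ℝ} (hk : Test k) : Ker (cr k) := by
  have hc : Continuous k := hk.1.continuous
  obtain ⟨C, hC⟩ := hc.bounded_above_of_compact_support hk.2
  refine ⟨(hc.integrable_of_hasCompactSupport hk.2).ofReal, C, fun y => ?_⟩
  simpa [cr] using hC y

theorem MOL_cv (k : E N → ℝ) (g : E N → ℂ) :
    cv (cr k) g = g ⋆[(ContinuousLinearMap.lsmul ℝ ℝ).flip, volume] k := by
  funext x
  simp [cv, cr, convolution_def]

theorem MOL_line {k : E N → ℝ} (hk : Test k) {p : ℝ} {g : E N → ℂ} (hp : 1 ≤ p) (hg : Mem p g)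
    (i : Fin N) (x : E N) :
    HasLineDerivAt ℝ (cv (cr k) g) (cv (cr (pd i k)) g x) x (ee i) := by
  have hl : LocallyIntegrable g volume :=
    MemLp.locallyIntegrable hg (by simpa using ENNReal.ofReal_le_ofReal hp)
  have h1 : ContDiff ℝ 1 k := hk.1.of_le (by simp)
  have h := (hk.2.hasFDerivAt_convolution_right (ContinuousLinearMap.lsmul ℝ ℝ).flip hl h1
    x).hasLineDerivAt (ee i)
  rw [convolution_precompR_apply _ hl (hk.2.fderiv ℝ) (h1.continuous_fderiv (by simp))] at h
  rw [MOL_cv, MOL_cv]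
  exact h

theorem MOL_weak {k : E N → ℝ} (hk : Test k) {g : E N → ℂ} {dg : Fin N → E N → ℂ} (hg : H1 g dg)
    (i : Fin N) (x : E N) : cv (cr (pd i k)) g x = cv (cr k) (dg i) x := by
  have ht : Test fun y => k (x - y) :=
    ⟨hk.1.comp (contDiff_const.sub contDiff_id), hk.2.comp_homeomorph (Homeomorph.subLeft x)⟩
  have h := hg.weak _ ht i
  simp only [MOL_pd_sub (MOL_diff hk), Complex.ofReal_neg, mul_neg, integral_neg, neg_inj] at h
  simp only [cv, cr, mul_comm]
  exact h

theorem MOL_lim (h1 : St_CONV) {p : ℝ} {g : E N → ℂ} (hp : 1 ≤ p) (hg : Mem p g) :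
    Tendsto (fun r => nr p fun x => cv (cr (mol r)) g x - g x) (𝓝[>] 0) (𝓝 0) := by
  have hc : Continuous fun y : E N => nr p (sh (-y) g) :=
    ((h1 N p hp).1 g hg).2.comp continuous_neg
  have h0 : nr p (sh (-(0 : E N)) g) = 0 := by
    have : sh (-(0 : E N)) g = 0 := by
      funext x
      simp [sh]
    rw [this, nr, lpNorm_zero]
  rw [Metric.tendsto_nhds]
  intro ε hε
  obtain ⟨δ, hδ, hd⟩ := Metric.continuousAt_iff.1 (hc.continuousAt (x := 0)) (ε / 2)
    (half_pos hε)
  filter_upwards [Ioo_mem_nhdsGT hδ] with r hr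
  have hb := (((h1 N p hp).2 _ (MOL_ker (MOL_test hr.1))).2 g hg).2.2.2.2.1
  have hi : ∫ y : E N, cr (mol r) y = 1 := by
    simp only [cr]
    rw [integral_complex_ofReal, MOL_int hr.1]
    simp
  simp only [hi, one_mul] at hb
  have hm : Integrable (mol r : E N → ℝ) :=
    (MOL_test hr.1).1.continuous.integrable_of_hasCompactSupport (MOL_test hr.1).2
  have h2 : ∫ y : E N, ‖cr (mol r) y‖ * nr p (sh (-y) g) ≤ ∫ y : E N, mol r y * (ε / 2) := by
    refine integral_mono_of_nonneg (Eventually.of_forall fun y => ?_) (hm.mul_const _)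
      (Eventually.of_forall fun y => ?_)
    · exact mul_nonneg (norm_nonneg _) (nr_nonneg _ _)
    · have e : ‖cr (mol r) y‖ = mol r y := by
        simp [cr, abs_of_nonneg (MOL_nonneg hr.1 y)]
      simp only [e]
      rcases le_or_gt r ‖y‖ with hy | hy
      · simp [MOL_zero hr.1 y hy]
      · refine mul_le_mul_of_nonneg_left ?_ (MOL_nonneg hr.1 y)
        have h3 := hd (x := y) (by simpa using hy.trans hr.2)
        rw [h0, Real.dist_eq, sub_zero] at h3
        exact (le_abs_self _).trans h3.le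
  rw [integral_mul_const, MOL_int hr.1] at h2
  rw [Real.dist_eq, sub_zero, abs_of_nonneg (nr_nonneg _ _)]
  linarith

theorem MOL (h1 : St_CONV) : St_MOL := by
  intro N
  refine ⟨fun r hr => ⟨MOL_test hr, MOL_nonneg hr, MOL_int hr, MOL_even r, fun i =>
    ⟨MOL_odd hr i, ?_, fun x hx => ⟨MOL_zero hr x hx, ?_⟩⟩⟩,
    ⟨∑ i : Fin N, ∫ x, |pd i ((bmp N).normed volume) x|, ?_, fun r hr i => ?_⟩,
    fun k hk => ⟨MOL_ker hk, fun p g hp hg => MOL_line hk hp hg, fun g dg hg => MOL_weak hk hg⟩,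
    fun p g hp hg => MOL_lim h1 hp hg⟩
  · have h := integral_neg_eq_self (pd i (mol r : E N → ℝ)) volume
    simp only [MOL_odd hr, integral_neg] at h
    linarith
  · have h : IsLocalMin (mol r : E N → ℝ) x := Eventually.of_forall fun y => by
      rw [MOL_zero hr x hx]
      exact MOL_nonneg hr y
    rw [pd, h.fderiv_eq_zero]
    simp
  · exact Finset.sum_nonneg fun i _ => integral_nonneg fun _ => abs_nonneg _
  · have h : ∀ x : E N, |pd i (mol r) x| =
        (r ^ N)⁻¹ * r⁻¹ * (fun y => |pd i ((bmp N).normed volume) y|) (r⁻¹ • x) := by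
      intro x
      rw [MOL_pd, abs_mul, abs_of_pos (by positivity)]
    simp only [h]
    rw [integral_const_mul, MOL_scale hr fun y => |pd i ((bmp N).normed volume) y|]
    have h2 : ∫ x, |pd i ((bmp N).normed volume) x| ≤
        ∑ j : Fin N, ∫ x, |pd j ((bmp N).normed volume) x| :=
      Finset.single_le_sum (f := fun j : Fin N => ∫ x, |pd j ((bmp N).normed volume) x|)
        (fun j _ => integral_nonneg fun _ => abs_nonneg _) (Finset.mem_univ i)
    rw [le_div_iff₀ hr]
    refine le_trans (le_of_eq ?_) h2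
    field_simp

end Pool.Agent.Lib.MP_13801a_an.ND
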