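import Mathlib
import Pool.Agent.Lib.MP_13801a_an.ND.StsA

/-!
The Sobolev inequality and the inequality of Hedberg type.
-/

open MeasureTheory Set Filter
open scoped ContDiff Topology ComplexConjugate

namespace Pool.Agent.Lib.MP_13801a_an.ND

variable {N : ℕ}

theorem SOB_hk_le {s : ℝ} (hs : 0 < s) (y : E N) :
    hk s y ≤ (4 * Real.pi * s) ^ (-(N : ℝ) / 2) := by
  unfold hk
  have h1 : Real.exp (-‖y‖ ^ 2 / (4 * s)) ≤ 1 := Real.exp_le_one_iff.2
    (div_nonpos_of_nonpos_of_nonneg (neg_nonpos.2 (sq_nonneg _)) (by positivity))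
  exact mul_le_of_le_one_right (by positivity) h1

theorem SOB_hk_cont (s : ℝ) : Continuous (hk s : E N → ℝ) := by
  unfold hk
  fun_prop

theorem SOB_hk_int (h3 : St_GK) {s : ℝ} (hs : 0 < s) {ρ : E N → ℝ} (hρ : Integrable ρ) (x : E N) :
    Integrable fun y => hk s (x - y) * ρ y := by
  refine hρ.bdd_mul (c := (4 * Real.pi * s) ^ (-(N : ℝ) / 2))
    ((SOB_hk_cont s).comp (continuous_const.sub continuous_id)).aestronglyMeasurable
    (Eventually.of_forall fun y => ?_)
  rw [Real.norm_of_nonneg (((h3 N).2.1 s hs).2.1 _)]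
  exact SOB_hk_le hs _

/-- The pointwise bound of the heat flow. -/
theorem SOB_pt (h3 : St_GK) {p s t : ℝ} (hp : 1 ≤ p) (hs : 0 < s) (ht : 0 < t) {g : E N → ℂ}
    (hg : Integrable fun y => ‖g y‖ ^ p) (x : E N)
    (hb : ∫ y, hk s (x - y) * ‖g y‖ ^ p ≤ t ^ p) : ‖cv (cr (hk s)) g x‖ ≤ 4 * t / 2 := by
  obtain ⟨_, h0, h1, _⟩ := (h3 N).2.1 s hs
  have hi : Integrable (hk s : E N → ℝ) := Integrable.of_integral_ne_zero (by rw [h1]; norm_num)
  have hi1 : Integrable fun y : E N => t * hk s (x - y) := (hi.comp_sub_left x).const_mul t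
  have hi2 : Integrable fun y : E N => t ^ (1 - p) * (hk s (x - y) * ‖g y‖ ^ p) :=
    (SOB_hk_int h3 hs hg x).const_mul _
  have h4 : ‖cv (cr (hk s)) g x‖ ≤
      ∫ y, (t * hk s (x - y) + t ^ (1 - p) * (hk s (x - y) * ‖g y‖ ^ p)) := by
    refine norm_integral_le_of_norm_le (hi1.add hi2) (Eventually.of_forall fun y => ?_)
    have h5 : ‖g y‖ ≤ t + t ^ (1 - p) * ‖g y‖ ^ p := by
      rcases le_total ‖g y‖ t with h | h
      · have : 0 ≤ t ^ (1 - p) * ‖g y‖ ^ p := by positivity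
        linarith
      · have hpos : 0 < ‖g y‖ := ht.trans_le h
        have h6 : ‖g y‖ ^ (1 - p) ≤ t ^ (1 - p) :=
          Real.rpow_le_rpow_of_nonpos ht h (by linarith)
        have h7 : ‖g y‖ = ‖g y‖ ^ (1 - p) * ‖g y‖ ^ p := by
          rw [← Real.rpow_add hpos, sub_add_cancel, Real.rpow_one]
        have h8 : ‖g y‖ ^ (1 - p) * ‖g y‖ ^ p ≤ t ^ (1 - p) * ‖g y‖ ^ p :=
          mul_le_mul_of_nonneg_right h6 (by positivity)
        linarith
    rw [norm_mul, cr, Complex.norm_real, Real.norm_of_nonneg (h0 _)]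
    calc hk s (x - y) * ‖g y‖ ≤ hk s (x - y) * (t + t ^ (1 - p) * ‖g y‖ ^ p) :=
          mul_le_mul_of_nonneg_left h5 (h0 _)
      _ = _ := by ring
  rw [integral_add hi1 hi2, integral_const_mul, integral_const_mul,
    integral_sub_left_eq_self (hk s : E N → ℝ), h1] at h4
  have h9 : t ^ (1 - p) * ∫ y, hk s (x - y) * ‖g y‖ ^ p ≤ t ^ (1 - p) * t ^ p :=
    mul_le_mul_of_nonneg_left hb (by positivity)
  rw [← Real.rpow_add ht, sub_add_cancel, Real.rpow_one] at h9
  linarith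

theorem SOB_lim {g : E N → ℂ} (hg : AEStronglyMeasurable g volume) {b C : ℝ} (hb : 0 ≤ b)
    (hC : 0 ≤ C) (h : ∀ m : ℕ, ∫⁻ x, ENNReal.ofReal (if ‖g x‖ < m then ‖g x‖ ^ b else 0) ≤
      ENNReal.ofReal C) : (Integrable fun x => ‖g x‖ ^ b) ∧ ∫ x, ‖g x‖ ^ b ≤ C := by
  have hm : AEStronglyMeasurable (fun x => ‖g x‖ ^ b) volume :=
    (Real.continuous_rpow_const hb).comp_aestronglyMeasurable hg.norm
  have h0 : 0 ≤ᵐ[volume] fun x => ‖g x‖ ^ b := Eventually.of_forall fun x => by positivity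
  have h1 : Tendsto (fun m : ℕ => ∫⁻ x, ENNReal.ofReal (if ‖g x‖ < m then ‖g x‖ ^ b else 0)) atTop
      (𝓝 (∫⁻ x, ENNReal.ofReal (‖g x‖ ^ b))) := by
    refine lintegral_tendsto_of_tendsto_of_monotone (fun m => ?_)
      (Eventually.of_forall fun x m m' hmm => ?_) (Eventually.of_forall fun x => ?_)
    · have h2 : Measurable fun t : ℝ => ENNReal.ofReal (if t < m then t ^ b else 0) :=
        ENNReal.measurable_ofReal.comp (Measurable.ite measurableSet_Iio
          (Real.continuous_rpow_const hb).measurable measurable_const)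
      exact h2.comp_aemeasurable hg.norm.aemeasurable
    · refine ENNReal.ofReal_le_ofReal ?_
      have h3 : (m : ℝ) ≤ m' := Nat.cast_le.2 hmm
      split_ifs with h4 h5
      · exact le_rfl
      · exact absurd (h4.trans_le h3) h5
      · positivity
      · exact le_rfl
    · refine tendsto_const_nhds.congr' ?_
      filter_upwards [tendsto_natCast_atTop_atTop.eventually_gt_atTop ‖g x‖] with m hm'
      rw [if_pos hm']
  have h2 : ∫⁻ x, ENNReal.ofReal (‖g x‖ ^ b) ≤ ENNReal.ofReal C := le_of_tendsto' h1 h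
  have h3 : Integrable fun x => ‖g x‖ ^ b :=
    (lintegral_ofReal_ne_top_iff_integrable hm h0).1 (ne_top_of_le_ne_top ENNReal.ofReal_ne_top h2)
  refine ⟨h3, ?_⟩
  rw [← ofReal_integral_eq_lintegral_ofReal h3 h0] at h2
  exact (ENNReal.ofReal_le_ofReal_iff hC).1 h2

/-- The normalised form of the Sobolev inequality. -/
def SOB_P (N : ℕ) (p : ℝ) : Prop := ∃ B : ℝ, 0 < B ∧ ∀ (g : E N → ℂ) (K : ℝ), 0 ≤ K → TL g K →
  ms g + K ≤ 1 → (Integrable fun x => ‖g x‖ ^ p) ∧ ∫ x, ‖g x‖ ^ p ≤ B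

theorem SOB_two : SOB_P N 2 := by
  refine ⟨1, one_pos, fun g K hK hg h1 => ?_⟩
  simp only [Real.rpow_two]
  exact ⟨integrable_ms hg.1, by unfold ms at h1; linarith⟩

theorem SOB_step (h1 : St_LEV) (h3 : St_GK) (hN : 1 ≤ N) {p : ℝ} (hp : 2 ≤ p) (h : SOB_P N p) :
    SOB_P N (2 * p / N + 2) := by
  obtain ⟨B, hB, h⟩ := h
  have hN' : (0 : ℝ) < N := Nat.cast_pos.2 hN
  have hp0 : 0 < p := by linarith
  set a : ℝ := 2 * p / N with ha
  have ha0 : 0 < a := by positivity
  set D : ℝ := (4 * B ^ p⁻¹) ^ a with hD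
  have hD0 : 0 < D := by positivity
  refine ⟨(16 * N + 1) * D, by positivity, fun g K hK hg hn => ?_⟩
  obtain ⟨hi, hb⟩ := h g K hK hg hn
  let t : ℝ → ℝ := fun s => B ^ p⁻¹ * s ^ (-a⁻¹)
  have ht0 : ∀ s, 0 < s → 0 < t s := fun s hs => by positivity
  have hta : ∀ s, 0 < s → (4 * t s) ^ a = D / s := by
    intro s hs
    rw [← mul_assoc, Real.mul_rpow (by positivity) (by positivity), ← Real.rpow_mul hs.le,
      neg_mul, inv_mul_cancel₀ ha0.ne', Real.rpow_neg_one, div_eq_mul_inv]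
  have hpt : ∀ s, 0 < s → ∀ x, ‖cv (cr (hk s)) g x‖ ≤ 4 * t s / 2 := by
    intro s hs x
    refine SOB_pt h3 (by linarith) hs (ht0 s hs) hi x ?_
    have e1 : t s ^ p = s ^ (-(N : ℝ) / 2) * B := by
      rw [Real.mul_rpow (by positivity) (by positivity), Real.rpow_inv_rpow hB.le hp0.ne',
        ← Real.rpow_mul hs.le, mul_comm]
      congr 2
      rw [ha]
      field_simp
    have e2 : (4 * Real.pi * s) ^ (-(N : ℝ) / 2) ≤ s ^ (-(N : ℝ) / 2) := by
      refine Real.rpow_le_rpow_of_nonpos hs ?_ (by linarith)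
      have := Real.pi_gt_three
      nlinarith
    calc ∫ y, hk s (x - y) * ‖g y‖ ^ p ≤ ∫ y, s ^ (-(N : ℝ) / 2) * ‖g y‖ ^ p :=
          integral_mono (SOB_hk_int h3 hs hi x) (hi.const_mul _) fun y =>
            mul_le_mul_of_nonneg_right ((SOB_hk_le hs _).trans e2) (by positivity)
      _ ≤ _ := by
          rw [integral_const_mul, e1]
          exact mul_le_mul_of_nonneg_left hb (by positivity)
  refine SOB_lim hg.1.1 (by positivity) (by positivity) fun m => ?_
  set s0 : ℝ := D / ((m : ℝ) + 1) ^ a with hs0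
  have hs00 : 0 < s0 := by positivity
  have hm : (m : ℝ) ≤ 4 * t (2 ^ 0 * s0) := by
    rw [pow_zero, one_mul]
    have e1 : (4 * t s0) ^ a = ((m : ℝ) + 1) ^ a := by
      rw [hta s0 hs00, hs0]
      field_simp
    have e2 := (Real.rpow_left_inj (by have := ht0 s0 hs00; positivity) (by positivity)
      ha0.ne').1 e1
    linarith
  obtain ⟨n, hn1⟩ := pow_unbounded_of_one_lt (1 / s0) (one_lt_two (α := ℝ))
  have hn2 : 1 ≤ 2 ^ n * s0 := ((div_lt_iff₀ hs00).1 hn1).le
  have key := h1 N g K s0 a (2 * D) n (fun k => 4 * t (2 ^ k * s0)) univ hg hs00 ha0.le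
    (by positivity) hK MeasurableSet.univ (fun k => by have := ht0 (2 ^ k * s0) (by positivity); positivity)
    (fun k x _ => hpt _ (by positivity) x) (fun k _ => by
      rw [hta _ (by positivity)]
      exact le_of_eq (by field_simp; ring))
  rw [Measure.restrict_univ] at key
  refine le_trans (lintegral_mono fun x => ENNReal.ofReal_le_ofReal ?_) (key.trans
    (ENNReal.ofReal_le_ofReal ?_))
  · split_ifs with h4 h5
    · exact le_rfl
    · exact absurd (h4.trans_le hm) h5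
    · positivity
    · exact le_rfl
  · rw [hta _ (by positivity)]
    have e1 : D / (2 ^ n * s0) ≤ D := div_le_self hD0.le hn2
    have e2 := ms_nonneg g
    have e3 : D / (2 ^ n * s0) * ms g ≤ D * 1 :=
      mul_le_mul e1 (by linarith) e2 hD0.le
    have e4 : 8 * N * (2 * D) * K ≤ 8 * N * (2 * D) * 1 :=
      mul_le_mul_of_nonneg_left (by linarith) (by positivity)
    linarith

theorem SOB_interp {p p' : ℝ} (hp : 2 ≤ p) (hpp : p ≤ p') (h : SOB_P N p') : SOB_P N p := by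
  obtain ⟨B, hB, h⟩ := h
  obtain ⟨B2, hB2, h2⟩ := SOB_two (N := N)
  refine ⟨B2 + B, by positivity, fun g K hK hg hn => ?_⟩
  obtain ⟨h3, h4⟩ := h g K hK hg hn
  obtain ⟨h5, h6⟩ := h2 g K hK hg hn
  have h7 : ∀ x, ‖g x‖ ^ p ≤ ‖g x‖ ^ (2 : ℝ) + ‖g x‖ ^ p' := by
    intro x
    rcases le_total ‖g x‖ 1 with h8 | h8
    · have := Real.rpow_le_rpow_of_exponent_ge' (norm_nonneg (g x)) h8 zero_le_two hp
      have : 0 ≤ ‖g x‖ ^ p' := by positivity
      linarith
    · have := Real.rpow_le_rpow_of_exponent_le h8 hpp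
      have : 0 ≤ ‖g x‖ ^ (2 : ℝ) := by positivity
      linarith
  have h8 : Integrable fun x => ‖g x‖ ^ p := by
    refine (h5.add h3).mono' ((Real.continuous_rpow_const (by linarith)).comp_aestronglyMeasurable
      hg.1.1.norm) (Eventually.of_forall fun x => ?_)
    rw [Real.norm_of_nonneg (by positivity)]
    exact h7 x
  refine ⟨h8, (integral_mono h8 (h5.add h3) h7).trans ?_⟩
  simp only [Pi.add_apply]
  rw [integral_add h5 h3]
  linarith

theorem SOB_all (h1 : St_LEV) (h3 : St_GK) (hN : 1 ≤ N) {p : ℝ} (hp : 2 ≤ p)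
    (hs : ((N : ℝ) - 2) * p < 2 * N) : SOB_P N p := by
  have hN' : (0 : ℝ) < N := Nat.cast_pos.2 hN
  obtain ⟨δ, hδ, hδ'⟩ : ∃ δ : ℝ, 0 < δ ∧ ∀ p', 2 ≤ p' → p' ≤ p → p' + δ ≤ 2 * p' / N + 2 := by
    refine ⟨min 2 ((2 * N - (N - 2) * p) / N), lt_min two_pos (div_pos (by linarith) hN'),
      fun p' h4 h5 => ?_⟩
    have e : 2 * p' / N + 2 = p' + (2 * N - (N - 2) * p') / N := by field_simp; ring
    rw [e, add_le_add_iff_left]
    rcases le_total (N : ℝ) 2 with h6 | h6
    · refine (min_le_left _ _).trans ?_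
      rw [le_div_iff₀ hN']
      nlinarith
    · refine (min_le_right _ _).trans (div_le_div_of_nonneg_right ?_ hN'.le)
      nlinarith
  have key : ∀ j : ℕ, ∃ p', 2 ≤ p' ∧ SOB_P N p' ∧ (p ≤ p' ∨ j * δ ≤ p') := by
    intro j
    induction j with
    | zero => exact ⟨2, le_rfl, SOB_two, Or.inr (by simp)⟩
    | succ j ih =>
      obtain ⟨p', h4, h5, h6⟩ := ih
      rcases le_total p p' with h7 | h7
      · exact ⟨p', h4, h5, Or.inl h7⟩
      · have h8 := hδ' p' h4 h7
        refine ⟨_, by linarith, SOB_step h1 h3 hN h4 h5, ?_⟩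
        rcases h6 with h6 | h6
        · left; linarith
        · right; push_cast; linarith
  obtain ⟨j, hj⟩ := exists_nat_ge (p / δ)
  obtain ⟨p', _, h5, h6⟩ := key j
  refine SOB_interp hp ?_ h5
  rcases h6 with h6 | h6
  · exact h6
  · exact ((div_le_iff₀ hδ).1 hj).trans h6

theorem SOB_ms_mul (c : ℝ) (g : E N → ℂ) : ms (fun x => (c : ℂ) * g x) = c ^ 2 * ms g := by
  unfold ms
  rw [← integral_const_mul]
  refine integral_congr_ae (Eventually.of_forall fun x => ?_)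
  simp only [norm_mul, mul_pow, Complex.norm_real, Real.norm_eq_abs, sq_abs]

theorem SOB (h1 : St_LEV) (_h2 : St_CONV) (h3 : St_GK) : St_SOB := by
  intro N p hN hp hs
  have hp0 : 0 < p := by linarith
  obtain ⟨B, hB, h⟩ := SOB_all h1 h3 hN hp hs
  refine ⟨B ^ p⁻¹, by positivity, fun g K hK hg => ?_⟩
  have key : ∀ c : ℝ, 0 < c → ms g + K ≤ c ^ 2 → Mem p g ∧ nr p g ≤ B ^ p⁻¹ * c := by
    intro c hc hc'
    have hm : MemLp (fun x => ((c⁻¹ : ℝ) : ℂ) * g x) 2 volume := hg.1.const_mul _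
    obtain ⟨h4, h5⟩ := h (fun x => ((c⁻¹ : ℝ) : ℂ) * g x) (c⁻¹ ^ 2 * K) (by positivity)
      ⟨hm, fun y => by
        have e : sh y (fun x => ((c⁻¹ : ℝ) : ℂ) * g x) = fun x => ((c⁻¹ : ℝ) : ℂ) * sh y g x := by
          funext x
          simp only [sh, mul_sub]
        rw [e, SOB_ms_mul, mul_left_comm]
        exact mul_le_mul_of_nonneg_left (hg.2 y) (by positivity)⟩ (by
        rw [SOB_ms_mul, ← mul_add, inv_pow, inv_mul_le_iff₀ (by positivity), mul_one]
        exact hc')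
    have h6 : Mem p fun x => ((c⁻¹ : ℝ) : ℂ) * g x := mem_of_integrable_rpow hp0 hm.1 h4
    have e : g = fun x => (c : ℂ) * (((c⁻¹ : ℝ) : ℂ) * g x) := by
      funext x
      rw [← mul_assoc, ← Complex.ofReal_mul, mul_inv_cancel₀ hc.ne', Complex.ofReal_one, one_mul]
    constructor
    · rw [e]
      exact MemLp.const_mul h6 _
    · rw [e, nr_const_mul, nr_eq hp0 hm.1, Complex.norm_real, Real.norm_of_nonneg hc.le, mul_comm]
      exact mul_le_mul_of_nonneg_right (Real.rpow_le_rpow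
        (integral_nonneg fun x => by positivity) h5 (by positivity)) hc.le
  have h0 : 0 ≤ ms g + K := add_nonneg (ms_nonneg g) hK
  have key2 : ∀ ε : ℝ, 0 < ε → ms g + K ≤ (√(ms g + K) + ε) ^ 2 := by
    intro ε hε
    have := Real.sq_sqrt h0
    have := Real.sqrt_nonneg (ms g + K)
    nlinarith
  refine ⟨(key _ (by positivity) (key2 1 one_pos)).1, le_of_forall_pos_le_add fun ε hε => ?_⟩
  have hB' : 0 < B ^ p⁻¹ := by positivity
  refine (key _ (by positivity) (key2 (ε / B ^ p⁻¹) (by positivity))).2.trans (le_of_eq ?_)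
  field_simp

theorem SOB_closed (q Θ r0 : ℝ) {ρ : E N → ℝ} (hρ : Integrable ρ) : IsClosed (Sp q Θ r0 ρ) := by
  have e : Sp q Θ r0 ρ = ⋂ r, ⋂ (_ : r0 ≤ r), {x | ∫ y, gs r (x - y) * ρ y ≤ Θ * r ^ q} := by
    ext x
    simp [Sp]
  rw [e]
  refine isClosed_iInter fun r => isClosed_iInter fun _ => isClosed_le ?_ continuous_const
  have hc : Continuous (gs r : E N → ℝ) := by
    unfold gs
    fun_prop
  refine continuous_of_dominated (bound := fun y => ‖ρ y‖) (fun x => ?_)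
    (fun x => Eventually.of_forall fun y => ?_) hρ.norm (Eventually.of_forall fun y => ?_)
  · exact (hc.comp (continuous_const.sub continuous_id)).aestronglyMeasurable.mul hρ.1
  · rw [norm_mul]
    refine mul_le_of_le_one_left (norm_nonneg _) ?_
    unfold gs
    rw [Real.norm_of_nonneg (Real.exp_pos _).le]
    exact Real.exp_le_one_iff.2
      (div_nonpos_of_nonpos_of_nonneg (neg_nonpos.2 (sq_nonneg _)) (by positivity))
  · exact (hc.comp (continuous_id.sub continuous_const)).mul continuous_const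

theorem SOB_sp (h3 : St_GK) {q Θ r0 s : ℝ} (hΘ : 0 < Θ) (hs : 0 < s) (hr : r0 ≤ √(2 * s))
    {g : E N → ℂ} (hg : MemLp g 2 volume) {x : E N} (hx : x ∈ Sp q Θ r0 fun x => ‖g x‖ ^ 2) :
    ‖cv (cr (hk s)) g x‖ ≤ 4 * (√Θ * √(2 * s) ^ (-((N - q) / 2))) / 2 := by
  have hr0 : 0 < √(2 * s) := by positivity
  have hr2 : √(2 * s) ^ 2 = 2 * s := Real.sq_sqrt (by positivity)
  refine SOB_pt h3 (p := 2) one_le_two hs (by positivity)
    (by simpa only [Real.rpow_two] using integrable_ms hg) x ?_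
  have h4 := hx _ hr
  generalize √(2 * s) = r at hr0 hr2 h4
  have e1 : ∀ y : E N, hk s (x - y) * ‖g y‖ ^ (2 : ℝ) =
      (4 * Real.pi * s) ^ (-(N : ℝ) / 2) * (gs r (x - y) * ‖g y‖ ^ 2) := by
    intro y
    rw [hk, gs, hr2, Real.rpow_two, mul_assoc, ← mul_assoc 2 2 s]
    norm_num
  have e2 : (4 * Real.pi * s) ^ (-(N : ℝ) / 2) ≤ r ^ (-(N : ℝ)) := by
    have e3 : r ^ (-(N : ℝ)) = (2 * s) ^ (-(N : ℝ) / 2) := by
      rw [← hr2, ← Real.rpow_two, ← Real.rpow_mul hr0.le]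
      congr 1
      ring
    rw [e3]
    refine Real.rpow_le_rpow_of_nonpos (by positivity) ?_ ?_
    · have := Real.pi_gt_three
      nlinarith
    · have : (0 : ℝ) ≤ N := Nat.cast_nonneg N
      linarith
  have e4 : (√Θ * r ^ (-((N - q) / 2))) ^ (2 : ℝ) = r ^ (-(N : ℝ)) * (Θ * r ^ q) := by
    rw [Real.mul_rpow (by positivity) (by positivity), ← Real.rpow_mul hr0.le, Real.rpow_two,
      Real.sq_sqrt hΘ.le, mul_left_comm, ← Real.rpow_add hr0]
    congr 2
    ring
  simp only [e1]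
  rw [integral_const_mul, e4]
  calc _ ≤ (4 * Real.pi * s) ^ (-(N : ℝ) / 2) * (Θ * r ^ q) :=
        mul_le_mul_of_nonneg_left h4 (by positivity)
    _ ≤ _ := mul_le_mul_of_nonneg_right e2 (by positivity)

theorem HED (h1 : St_LEV) (h2 : St_GK) : St_HED := by
  intro N α q hα hq hαq
  refine ⟨(8 * N + 1) * 4 ^ α, by positivity, fun p Θ R B η hp hΘ hR hη => ?_⟩
  have hp0 : 0 < p := by linarith
  set β : ℝ := (N - q) / 2 with hβ
  have hβ0 : 0 < β := by rw [hβ]; linarith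
  have hγ : 0 < p - (α + 2) := by linarith
  obtain ⟨n, hn⟩ : ∃ n : ℕ, (4 * √Θ) ^ (-(p - (α + 2))) *
      √(2 * (2 ^ 0 * (R ^ 2 / 2 ^ (n + 1)))) ^ (β * (p - (α + 2))) * |B| ^ p ≤ η := by
    have t1 : Tendsto (fun n : ℕ => R ^ 2 / (2 : ℝ) ^ (n + 1)) atTop (𝓝 0) :=
      tendsto_const_nhds.div_atTop ((tendsto_pow_atTop_atTop_of_one_lt one_lt_two).comp
        (tendsto_add_atTop_nat 1))
    have hc : Continuous fun s : ℝ => (4 * √Θ) ^ (-(p - (α + 2))) *
        √(2 * (2 ^ 0 * s)) ^ (β * (p - (α + 2))) * |B| ^ p :=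
      (continuous_const.mul ((Real.continuous_rpow_const (mul_pos hβ0 hγ).le).comp
        (by fun_prop))).mul continuous_const
    have t2 := (hc.tendsto 0).comp t1
    rw [mul_zero, mul_zero, Real.sqrt_zero, Real.zero_rpow (mul_pos hβ0 hγ).ne', mul_zero,
      zero_mul] at t2
    exact (t2.eventually_le_const hη).exists
  set s0 : ℝ := R ^ 2 / 2 ^ (n + 1) with hs0
  have hs00 : 0 < s0 := by positivity
  let r : ℕ → ℝ := fun k => √(2 * (2 ^ k * s0))
  have hr0 : ∀ k, 0 < r k := fun k => by positivity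
  have hrm : ∀ k l, k ≤ l → r k ≤ r l := fun k l hkl => Real.sqrt_le_sqrt (by
    have : (2 : ℝ) ^ k ≤ 2 ^ l := pow_le_pow_right₀ one_le_two hkl
    nlinarith)
  have hrn : r n = R := by
    have e : 2 * (2 ^ n * s0) = R ^ 2 := by rw [hs0]; field_simp; ring
    simp only [r, e]
    exact Real.sqrt_sq hR.le
  let h : ℕ → ℝ := fun k => 4 * (√Θ * r k ^ (-β))
  have hh0 : ∀ k, 0 < h k := fun k => by have := hr0 k; positivity
  have hha : ∀ k, h k ^ α = 4 ^ α * Θ ^ (α / 2) * r k ^ (-(α * (N - q) / 2)) := by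
    intro k
    have := hr0 k
    rw [Real.mul_rpow (by positivity) (by positivity), Real.mul_rpow (by positivity) (by positivity),
      ← Real.rpow_mul this.le, Real.sqrt_eq_rpow, ← Real.rpow_mul hΘ.le, mul_assoc]
    congr 3 <;> [skip; rw [hβ]] <;> ring
  refine ⟨r 0, hr0 0, fun g K hK hg hg1 hg2 hB => ?_⟩
  have hA : MeasurableSet (Sp q Θ (r 0) fun x => ‖g x‖ ^ 2) :=
    (SOB_closed _ _ _ (integrable_ms hg.1)).measurableSet
  refine ⟨hA, ?_⟩
  have key := h1 N g K s0 α (4 ^ α * Θ ^ (α / 2) * R ^ (2 - α * (N - q) / 2)) n h _ hg hs00 hα.le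
    (by positivity) hK hA (fun k => (hh0 k).le)
    (fun k x hx => SOB_sp h2 hΘ (by positivity) (hrm 0 k (Nat.zero_le k)) hg.1 hx) (fun k hk' => by
      have e1 : 2 ^ (k + 1) * s0 = r k ^ (2 : ℝ) := by
        rw [Real.rpow_two, Real.sq_sqrt (by positivity)]
        ring
      rw [hha, e1, mul_assoc, ← Real.rpow_add (hr0 k), neg_add_eq_sub]
      exact mul_le_mul_of_nonneg_left (Real.rpow_le_rpow (hr0 k).le
        ((hrm k n hk'.le).trans hrn.le) (by linarith)) (by positivity))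
  rw [hha, hrn] at key
  generalize (Sp q Θ (r 0) fun x => ‖g x‖ ^ 2) = A at hA key ⊢
  have hi1 := Mem.integrable_rpow (by linarith) hg1
  have hi2 := (Mem.integrable_rpow hp0 hg2).const_mul (h 0 ^ (-(p - (α + 2))))
  have hc0 : 0 ≤ h 0 ^ (-(p - (α + 2))) := by have := hh0 0; positivity
  have htail : ∫⁻ x in A, ENNReal.ofReal (h 0 ^ (-(p - (α + 2))) * ‖g x‖ ^ p) ≤
      ENNReal.ofReal η := by
    refine (lintegral_mono' Measure.restrict_le_self le_rfl).trans ?_
    rw [← ofReal_integral_eq_lintegral_ofReal hi2 (Eventually.of_forall fun x => by positivity),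
      integral_const_mul, ← nr_rpow hp0 hg.1.1]
    refine ENNReal.ofReal_le_ofReal (le_trans ?_ hn)
    have e1 : h 0 ^ (-(p - (α + 2))) =
        (4 * √Θ) ^ (-(p - (α + 2))) * r 0 ^ (β * (p - (α + 2))) := by
      have := hr0 0
      rw [← neg_mul_neg β, Real.rpow_mul this.le, ← Real.mul_rpow (by positivity) (by positivity),
        mul_assoc]
    rw [← e1]
    exact mul_le_mul_of_nonneg_left (Real.rpow_le_rpow (nr_nonneg _ _)
      (hB.trans (le_abs_self B)) hp0.le) hc0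
  have hsum : ∫⁻ x in A, ENNReal.ofReal (‖g x‖ ^ (α + 2)) ≤
      (∫⁻ x in A, ENNReal.ofReal (if ‖g x‖ < h 0 then ‖g x‖ ^ (α + 2) else 0)) +
        ∫⁻ x in A, ENNReal.ofReal (h 0 ^ (-(p - (α + 2))) * ‖g x‖ ^ p) := by
    rw [← lintegral_add_right' _ (hi2.1.aemeasurable.ennreal_ofReal.restrict)]
    refine lintegral_mono fun x => ?_
    split_ifs with h4
    · exact le_self_add
    · rw [ENNReal.ofReal_zero, zero_add]
      refine ENNReal.ofReal_le_ofReal ?_
      have h5 : h 0 ≤ ‖g x‖ := not_lt.1 h4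
      have h6 : 0 < ‖g x‖ := (hh0 0).trans_le h5
      have e : ‖g x‖ ^ (α + 2) = ‖g x‖ ^ (-(p - (α + 2))) * ‖g x‖ ^ p := by
        rw [← Real.rpow_add h6]
        congr 1
        ring
      rw [e]
      exact mul_le_mul_of_nonneg_right (Real.rpow_le_rpow_of_nonpos (hh0 0) h5 (by linarith))
        (by positivity)
  have hms := ms_nonneg g
  have hfin := hsum.trans (add_le_add key htail)
  rw [← ofReal_integral_eq_lintegral_ofReal hi1.integrableOn
    (Eventually.of_forall fun x => by positivity), ← ENNReal.ofReal_add (by positivity) hη.le,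
    ENNReal.ofReal_le_ofReal_iff (by positivity)] at hfin
  refine hfin.trans (add_le_add_left ?_ η)
  have e1 : 0 ≤ 4 ^ α * Θ ^ (α / 2) * R ^ (2 - α * (N - q) / 2) * K := by positivity
  have e2 : 0 ≤ 8 * N * (4 ^ α * Θ ^ (α / 2) * R ^ (-(α * (N - q) / 2)) * ms g) := by positivity
  nlinarith

end Pool.Agent.Lib.MP_13801a_an.ND
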