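import Mathlib
import Pool.Agent.Lib.MP_13801a_an.CELL
import Pool.Agent.Lib.MP_13801a_an.EM
import Pool.Agent.Lib.MP_13801a_an.ENV
import Pool.Agent.Lib.MP_13801a_an.FUB
import Pool.Agent.Lib.MP_13801a_an.HH
import Pool.Agent.Lib.MP_13801a_an.HOLE
import Pool.Agent.Lib.MP_13801a_an.LAM1
import Pool.Agent.Lib.MP_13801a_an.LAM2
import Pool.Agent.Lib.MP_13801a_an.MOL
import Pool.Agent.Lib.MP_13801a_an.CONV
import Pool.Agent.Lib.MP_13801a_an.REP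
import Pool.Agent.Lib.MP_13801a_an.PSI
import Pool.Agent.Lib.MP_13801a_an.STAT
import Pool.Agent.Lib.MP_13801a_an.SUBG
import Pool.Agent.Lib.MP_13801a_an.WGT
import Pool.Agent.Lib.MP_13801a_an.ND.MW.AV
import Pool.Agent.Lib.MP_13801a_an.ND.MW.Core
import Pool.Agent.Lib.MP_13801a_an.ND.MW.DISP
import Pool.Agent.Lib.MP_13801a_an.ND.MW.HED
import Pool.Agent.Lib.MP_13801a_an.ND.MW.HIGH
import Pool.Agent.Lib.MP_13801a_an.ND.MW.LOW
import Pool.Agent.Lib.MP_13801a_an.ND.MW.MG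
import Pool.Agent.Lib.MP_13801a_an.ND.MW.PR

/-!
The window inequality through the one dimensional marginals.
-/

namespace Pool.Agent.Lib.MP_13801a_an.ND

theorem MWIN (h1 : St_BASIC) (h2 : St_TL) (h3 : St_VCONT) (h4 : St_LMASS) (h5 : St_MOM)
    (h6 : St_LEV) (h7 : St_GK) (h8 : St_GR) (h9 : St_FLU) : St_MWIN := by
  have ce := CELL EM TTF
  have l1 := LAM1 EM TTF HOLE ce
  have hh' := HH EM
  have pr := MWPR MWMG h8 h9
  exact MWC_core h1 h2 h3 h4 h5 MWMG pr (MWFLD MWAV) (MWHED h6 h7)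
    (MWLOW MWMG pr (MWDISP EM (ENV EM TTF) hh' MWCLIMB) MWAV (MWHIGH MWMG (MWEXP EM TTF)) hh' h9)
    MP_13801a_an.MOL WGT hh' (STAT l1 (LAM2 EM TTF HOLE ce l1) SUBG (PSI EM hh' l1)) STEP

end Pool.Agent.Lib.MP_13801a_an.ND
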