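import Mathlib
import Pool.Agent.Lib.MP_13801a_an.ND.StsA

/-!
Elementary properties of the power nonlinearity and of its truncation.
-/

open MeasureTheory Set Filter
open scoped ContDiff Topology ComplexConjugate

namespace Pool.Agent.Lib.MP_13801a_an.ND

variable {N : ℕ}

/-! Pointwise inequalities -/

theorem NLF_one_sub {p t : ℝ} (hp : 0 < p) (h0 : 0 ≤ t) (h1 : t ≤ 1) :
    1 - t ^ p ≤ (p + 1) * (1 - t) := by
  rcases le_total p 1 with h | h
  · have h2 : t ^ (1 : ℝ) ≤ t ^ p := Real.rpow_le_rpow_of_exponent_ge' h0 h1 hp.le h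
    rw [Real.rpow_one] at h2
    nlinarith
  · have h2 := one_add_mul_self_le_rpow_one_add (s := t - 1) (by linarith) h
    rw [add_sub_cancel] at h2
    nlinarith

theorem NLF_pow_sub {p a b : ℝ} (hp : 0 < p) (hb : 0 ≤ b) (hab : b ≤ a) :
    (a ^ p - b ^ p) * a ≤ (p + 1) * a ^ p * (a - b) := by
  rcases (hb.trans hab).eq_or_lt with h | ha
  · have : b = 0 := le_antisymm (h ▸ hab) hb
    subst this
    simp [← h]
  · have h1 := NLF_one_sub hp (div_nonneg hb ha.le) ((div_le_one ha).2 hab)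
    have h2 : 0 < a ^ p := Real.rpow_pos_of_pos ha p
    rw [Real.div_rpow hb ha.le] at h1
    have h3 := mul_le_mul_of_nonneg_left h1 (mul_pos h2 ha).le
    have e1 : a ^ p * a * (1 - b ^ p / a ^ p) = (a ^ p - b ^ p) * a := by field_simp
    have e2 : a ^ p * a * ((p + 1) * (1 - b / a)) = (p + 1) * a ^ p * (a - b) := by field_simp
    rwa [e1, e2] at h3

theorem NLF_rad {p q C : ℝ} {z w : ℂ} (hp : 0 ≤ p) (hC : 0 ≤ C) (hq : q ≤ p)
    (h : (p - q) * ‖w‖ ≤ C * p * (‖z‖ - ‖w‖)) :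
    ‖(p : ℂ) * z - (q : ℂ) * w‖ ≤ (C + 1) * p * ‖z - w‖ := by
  have e : (p : ℂ) * z - (q : ℂ) * w = (p : ℂ) * (z - w) + ((p - q : ℝ) : ℂ) * w := by
    push_cast
    ring
  rw [e]
  refine (norm_add_le _ _).trans ?_
  rw [norm_mul, norm_mul, Complex.norm_real, Complex.norm_real, Real.norm_of_nonneg hp,
    Real.norm_of_nonneg (sub_nonneg.2 hq)]
  have h1 : C * p * (‖z‖ - ‖w‖) ≤ C * p * ‖z - w‖ :=
    mul_le_mul_of_nonneg_left (norm_sub_norm_le z w) (mul_nonneg hC hp)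
  nlinarith

theorem NLF_lip {α : ℝ} (hα : 0 < α) {z w : ℂ} (h : ‖w‖ ≤ ‖z‖) :
    ‖NL α z - NL α w‖ ≤ (α + 2) * ‖z‖ ^ α * ‖z - w‖ := by
  have h1 := NLF_pow_sub hα (norm_nonneg w) h
  have h2 : ‖w‖ ^ α ≤ ‖z‖ ^ α := Real.rpow_le_rpow (norm_nonneg w) h hα.le
  have h3 := NLF_rad (z := z) (w := w) (C := α + 1) (by positivity) (by positivity) h2
    ((mul_le_mul_of_nonneg_left h (sub_nonneg.2 h2)).trans h1)
  rwa [show α + 1 + 1 = α + 2 by ring] at h3

theorem NLF_glip {α m : ℝ} (hα : 0 < α) (hm : 0 < m) {z w : ℂ} (h : ‖w‖ ≤ ‖z‖) :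
    ‖gm α m z - gm α m w‖ ≤ (α + 2) * min ‖z‖ m ^ α * ‖z - w‖ := by
  have hw : 0 ≤ min ‖w‖ m := le_min (norm_nonneg w) hm.le
  have hz : 0 ≤ min ‖z‖ m := le_min (norm_nonneg z) hm.le
  have h0 : min ‖w‖ m ≤ min ‖z‖ m := min_le_min_right m h
  have h1 := NLF_pow_sub hα hw h0
  have h2 : min ‖w‖ m ^ α ≤ min ‖z‖ m ^ α := Real.rpow_le_rpow hw h0 hα.le
  have h4 : 0 ≤ (α + 1) * min ‖z‖ m ^ α := by positivity
  have h3 := NLF_rad (z := z) (w := w) (C := α + 1) (by positivity) (by positivity) h2 (by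
    rcases le_total ‖w‖ m with h5 | h5
    · rw [min_eq_left h5] at h0 h1 h2 ⊢
      refine (mul_le_mul_of_nonneg_left h0 (sub_nonneg.2 h2)).trans (h1.trans ?_)
      exact mul_le_mul_of_nonneg_left (sub_le_sub_right (min_le_left _ _) _) h4
    · rw [min_eq_right h5, min_eq_right (h5.trans h), sub_self, zero_mul]
      have : 0 ≤ ‖z‖ - ‖w‖ := sub_nonneg.2 h
      positivity)
  rwa [show α + 1 + 1 = α + 2 by ring] at h3

theorem NLF_sym {F : ℂ → ℂ} {B : ℂ → ℝ} {C : ℝ} (hC : 0 ≤ C) (hB : ∀ z, 0 ≤ B z)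
    (h : ∀ z w, ‖w‖ ≤ ‖z‖ → ‖F z - F w‖ ≤ C * B z * ‖z - w‖) (z w : ℂ) :
    ‖F z - F w‖ ≤ C * (B z + B w) * ‖z - w‖ := by
  rcases le_total ‖w‖ ‖z‖ with h1 | h1
  · refine (h z w h1).trans ?_
    gcongr
    exact le_add_of_nonneg_right (hB w)
  · rw [norm_sub_rev, norm_sub_rev z]
    refine (h w z h1).trans ?_
    gcongr
    exact le_add_of_nonneg_left (hB z)

theorem NLF_sq (a p : ℝ) (ha : 0 ≤ a) : a ^ p = (a ^ 2) ^ (p / 2) := by
  rw [← Real.rpow_natCast, ← Real.rpow_mul ha]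
  congr 1
  push_cast
  ring

theorem NLF_cont {α : ℝ} (hα : 0 < α) : Continuous (NL α) :=
  (Complex.continuous_ofReal.comp
    ((Real.continuous_rpow_const hα.le).comp continuous_norm)).mul continuous_id

theorem NLF_gcont {α : ℝ} (hα : 0 < α) (m : ℝ) : Continuous (gm α m) :=
  (Complex.continuous_ofReal.comp
    ((Real.continuous_rpow_const hα.le).comp (continuous_norm.min continuous_const))).mul
    continuous_id

theorem NLF_norm {α : ℝ} (hα : 0 < α) (z : ℂ) : ‖NL α z‖ = ‖z‖ ^ (α + 1) := by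
  rw [NL, norm_mul, Complex.norm_real, Real.norm_of_nonneg (by positivity),
    Real.rpow_add' (norm_nonneg z) (by linarith), Real.rpow_one]

theorem NLF_conj {α : ℝ} (hα : 0 < α) (z : ℂ) :
    conj z * NL α z = ((‖z‖ ^ (α + 2) : ℝ) : ℂ) := by
  rw [NL, Real.rpow_add' (norm_nonneg z) (by linarith), Real.rpow_two, mul_left_comm,
    Complex.conj_mul']
  push_cast
  ring

theorem NLF_deriv {α : ℝ} (hα : 0 < α) (f : ℝ → ℂ) (f' : ℂ) (x : ℝ) (hf : HasDerivAt f f' x) :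
    HasDerivAt (fun y => ‖f y‖ ^ (α + 2)) ((α + 2) * (conj (NL α (f x)) * f').re) x := by
  have h := hf.norm_sq.rpow_const (p := (α + 2) / 2) (Or.inr (by linarith))
  have e : (fun y => ‖f y‖ ^ (α + 2)) = fun y => (‖f y‖ ^ 2) ^ ((α + 2) / 2) :=
    funext fun y => NLF_sq _ _ (norm_nonneg _)
  rw [e]
  refine h.congr_deriv ?_
  have e2 : (α + 2) / 2 - 1 = α / 2 := by ring
  rw [e2, ← NLF_sq _ _ (norm_nonneg _), NL, map_mul, Complex.conj_ofReal, mul_assoc _ _ f',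
    Complex.re_ofReal_mul, Complex.inner, mul_comm f']
  ring

theorem NLF_powlip {α : ℝ} (hα : 0 < α) (z w : ℂ) :
    |‖z‖ ^ (α + 2) - ‖w‖ ^ (α + 2)| ≤
      (α + 3) * (‖z‖ ^ (α + 1) + ‖w‖ ^ (α + 1)) * ‖z - w‖ := by
  have h := NLF_sym (F := fun z => ((‖z‖ ^ (α + 2) : ℝ) : ℂ)) (B := fun z => ‖z‖ ^ (α + 1))
    (C := α + 3) (by positivity) (fun z => by positivity) (fun z w h => by
      have h1 := NLF_pow_sub (p := α + 2) (by positivity) (norm_nonneg w) h
      have h2 : ‖w‖ ^ (α + 2) ≤ ‖z‖ ^ (α + 2) :=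
        Real.rpow_le_rpow (norm_nonneg w) h (by positivity)
      rw [← Complex.ofReal_sub, Complex.norm_real, Real.norm_of_nonneg (sub_nonneg.2 h2)]
      rcases (norm_nonneg z).eq_or_lt with hz | hz
      · have h3 : (0 : ℝ) ≤ ‖w‖ ^ (α + 2) := by positivity
        rw [← hz, Real.zero_rpow (by positivity), Real.zero_rpow (by positivity)]
        simpa using h3
      · have e : ‖z‖ ^ (α + 2) = ‖z‖ ^ (α + 1) * ‖z‖ := by
          rw [← Real.rpow_add_one hz.ne']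
          congr 1
          ring
        have h3 : (α + 2 + 1) * ‖z‖ ^ (α + 2) * (‖z‖ - ‖w‖) =
            (α + 3) * ‖z‖ ^ (α + 1) * (‖z‖ - ‖w‖) * ‖z‖ := by
          rw [e]
          ring
        rw [h3] at h1
        refine (le_of_mul_le_mul_right h1 hz).trans ?_
        exact mul_le_mul_of_nonneg_left (norm_sub_norm_le z w) (by positivity)) z w
  rwa [← Complex.ofReal_sub, Complex.norm_real, Real.norm_eq_abs] at h

/-! Norm estimates -/

theorem NLF_mul {p q r : ℝ} (h : p.HolderTriple q r) {f g : E N → ℂ} (hf : Mem p f)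
    (hg : Mem q g) :
    Mem r (fun x => f x * g x) ∧ nr r (fun x => f x * g x) ≤ nr p f * nr q g := by
  have := h.ennrealOfReal
  have hm : Mem r fun x => f x * g x := MemLp.mul' hg hf
  refine ⟨hm, ?_⟩
  have h1 := eLpNorm_smul_le_mul_eLpNorm (p := ENNReal.ofReal p) (q := ENNReal.ofReal q)
    (r := ENNReal.ofReal r) (μ := volume) hg.1 hf.1
  unfold nr
  rw [← toReal_eLpNorm hm.1, ← toReal_eLpNorm hf.1, ← toReal_eLpNorm hg.1, ← ENNReal.toReal_mul]
  exact ENNReal.toReal_mono (ENNReal.mul_ne_top hf.2.ne hg.2.ne) h1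

theorem NLF_of_norm {p β s : ℝ} (hp : 0 < p) (hβ : 0 < β) (hs : s = p * β) {g F : E N → ℂ}
    (hg : Mem s g) (hF : AEStronglyMeasurable F volume) (h : ∀ x, ‖F x‖ = ‖g x‖ ^ β) :
    Mem p F ∧ nr p F = nr s g ^ β := by
  have hs0 : 0 < s := hs ▸ mul_pos hp hβ
  have e : (fun x => ‖F x‖ ^ p) = fun x => ‖g x‖ ^ s := by
    funext x
    rw [h, ← Real.rpow_mul (norm_nonneg _), hs, mul_comm]
  refine ⟨mem_of_integrable_rpow hp hF (e ▸ hg.integrable_rpow hs0), ?_⟩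
  rw [nr_eq hp hF, nr_eq hs0 hg.1, e,
    ← Real.rpow_mul (integral_nonneg fun _ => by positivity)]
  congr 1
  rw [hs]
  field_simp

theorem NLF_pow {p β s : ℝ} (hp : 0 < p) (hβ : 0 < β) (hs : s = p * β) {g : E N → ℂ}
    (hg : Mem s g) : Mem p (fun x => ((‖g x‖ ^ β : ℝ) : ℂ)) ∧
      nr p (fun x => ((‖g x‖ ^ β : ℝ) : ℂ)) = nr s g ^ β :=
  NLF_of_norm hp hβ hs hg
    ((Complex.continuous_ofReal.comp
      ((Real.continuous_rpow_const hβ.le).comp continuous_norm)).comp_aestronglyMeasurable hg.1)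
    fun x => by rw [Complex.norm_real, Real.norm_of_nonneg (by positivity)]

/-- The basic product estimate. -/
theorem NLF_est {p q r β s K : ℝ} (h : p.HolderTriple q r) (hr : 1 ≤ r) (hβ : 0 < β)
    (hs : s = p * β) (hK : 0 ≤ K) {g g' D H : E N → ℂ} (hg : Mem s g) (hg' : Mem s g')
    (hD : Mem q D) (hH : ∀ x, ‖H x‖ ≤ K * (‖g x‖ ^ β + ‖g' x‖ ^ β) * ‖D x‖) :
    nr r H ≤ K * (nr s g ^ β + nr s g' ^ β) * nr q D := by
  obtain ⟨a1, a2⟩ := NLF_pow h.pos hβ hs hg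
  obtain ⟨b1, b2⟩ := NLF_pow h.pos hβ hs hg'
  obtain ⟨c1, c2⟩ := NLF_mul h a1 hD
  obtain ⟨d1, d2⟩ := NLF_mul h b1 hD
  rw [a2] at c2
  rw [b2] at d2
  have m1 := c1.add d1
  have m2 : Mem r fun x => (K : ℂ) *
      (((‖g x‖ ^ β : ℝ) : ℂ) * D x + ((‖g' x‖ ^ β : ℝ) : ℂ) * D x) := MemLp.const_mul m1 _
  refine (nr_mono m2 fun x => (hH x).trans (le_of_eq ?_)).trans ?_
  · rw [← add_mul, ← Complex.ofReal_add, ← mul_assoc, ← Complex.ofReal_mul, norm_mul,
      Complex.norm_real, Real.norm_of_nonneg (by positivity)]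
  · rw [nr_const_mul, Complex.norm_real, Real.norm_of_nonneg hK, mul_assoc]
    refine mul_le_mul_of_nonneg_left ((nr_add_le hr c1).trans ?_) hK
    linarith

theorem NLF_triple {α : ℝ} (hα : 0 < α) :
    ((α + 2) / α).HolderTriple (α + 2) ((α + 2) / (α + 1)) := by
  refine ⟨?_, by positivity, by positivity⟩
  have : α + 2 ≠ 0 := by positivity
  have : α + 1 ≠ 0 := by positivity
  field_simp

theorem NLF_one_le {α : ℝ} (hα : 0 < α) : 1 ≤ (α + 2) / (α + 1) :=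
  (one_le_div (by positivity)).2 (by linarith)

theorem NLF_mem {α : ℝ} (hα : 0 < α) {g : E N → ℂ} (hg : Mem (α + 2) g) :
    Mem ((α + 2) / (α + 1)) (fun x => NL α (g x)) ∧
      nr ((α + 2) / (α + 1)) (fun x => NL α (g x)) = nr (α + 2) g ^ (α + 1) :=
  NLF_of_norm (by positivity) (by positivity) (by field_simp) hg
    ((NLF_cont hα).comp_aestronglyMeasurable hg.1) fun x => NLF_norm hα _

theorem NLF : St_NL := by
  intro α hα
  have hl : ∀ z w : ℂ, ‖NL α z - NL α w‖ ≤ (α + 3) * (‖z‖ ^ α + ‖w‖ ^ α) * ‖z - w‖ :=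
    NLF_sym (by positivity) (fun z => by positivity) fun z w h =>
      (NLF_lip hα h).trans (by gcongr; norm_num)
  refine ⟨NLF_cont hα, NLF_norm hα, NLF_conj hα, NLF_deriv hα, fun N g hg => NLF_mem hα hg,
    α + 3, by positivity, hl, fun N g g' hg hg' => ⟨?_, ?_⟩⟩
  · exact NLF_est (NLF_triple hα) (NLF_one_le hα) hα (by field_simp) (by positivity) hg hg'
      (hg.sub hg') fun x => hl _ _
  · have i1 := hg.integrable_rpow (by positivity)
    have i2 := hg'.integrable_rpow (by positivity)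
    have h1 := NLF_est (H := fun x => ((‖g x‖ ^ (α + 2) - ‖g' x‖ ^ (α + 2) : ℝ) : ℂ))
      (conj_exp hα).symm le_rfl (β := α + 1) (s := α + 2) (by positivity) (by field_simp)
      (K := α + 3) (by positivity) hg hg' (hg.sub hg') fun x => by
        rw [Complex.norm_real, Real.norm_eq_abs]
        exact NLF_powlip hα _ _
    refine le_trans ?_ h1
    have i3 : AEStronglyMeasurable
        (fun x => ((‖g x‖ ^ (α + 2) - ‖g' x‖ ^ (α + 2) : ℝ) : ℂ)) volume :=
      Complex.continuous_ofReal.comp_aestronglyMeasurable (i1.sub i2).1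
    rw [nr_eq one_pos i3, pw, pw, ← integral_sub i1 i2, inv_one, Real.rpow_one]
    refine abs_integral_le_integral_abs.trans (le_of_eq ?_)
    refine integral_congr_ae (Eventually.of_forall fun x => ?_)
    simp only [Real.rpow_one, Complex.norm_real, Real.norm_eq_abs]

/-! The truncated nonlinearity -/

theorem NLF_psi_cont {α : ℝ} (hα : 0 < α) (m : ℝ) : Continuous fun σ : ℝ => min (√σ) m ^ α :=
  (Real.continuous_rpow_const hα.le).comp (Real.continuous_sqrt.min continuous_const)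

theorem NLF_psi_bd {α m : ℝ} (hα : 0 < α) (hm : 0 < m) (σ : ℝ) :
    0 ≤ min (√σ) m ^ α ∧ min (√σ) m ^ α ≤ m ^ α ∧ min (√σ) m ^ α ≤ (√σ) ^ α := by
  have h : 0 ≤ min (√σ) m := le_min (Real.sqrt_nonneg σ) hm.le
  exact ⟨by positivity, Real.rpow_le_rpow h (min_le_right _ _) hα.le,
    Real.rpow_le_rpow h (min_le_left _ _) hα.le⟩

theorem NLF_prim {α : ℝ} (hα : 0 < α) (m s : ℝ) :
    HasDerivAt (fun u => ∫ σ in (0 : ℝ)..u, min (√σ) m ^ α) (min (√s) m ^ α) s :=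
  ((NLF_psi_cont hα m).integral_hasStrictDerivAt 0 s).hasDerivAt

theorem NLF_sqrt_int {α a : ℝ} (hα : 0 < α) (ha : 0 ≤ a) :
    (∫ σ in (0 : ℝ)..a ^ 2, (√σ) ^ α) / 2 = a ^ (α + 2) / (α + 2) := by
  have h1 : ∫ σ in (0 : ℝ)..a ^ 2, (√σ) ^ α = ∫ σ in (0 : ℝ)..a ^ 2, σ ^ (α / 2) := by
    refine intervalIntegral.integral_congr fun σ hσ => ?_
    rw [uIcc_of_le (sq_nonneg a)] at hσ
    rw [NLF_sq _ α (Real.sqrt_nonneg σ), Real.sq_sqrt hσ.1]
  rw [h1, integral_rpow (Or.inl (by linarith)), Real.zero_rpow (by positivity),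
    NLF_sq a (α + 2) ha, show (α + 2) / 2 = α / 2 + 1 by ring]
  field_simp
  ring

theorem NLF_Fm_nonneg {α m : ℝ} (hα : 0 < α) (hm : 0 < m) (z : ℂ) : 0 ≤ Fm α m z :=
  div_nonneg (intervalIntegral.integral_nonneg (sq_nonneg _)
    fun σ _ => (NLF_psi_bd hα hm σ).1) zero_le_two

theorem NLF_Fm_lip {α m : ℝ} (hα : 0 < α) (hm : 0 < m) (z w : ℂ) :
    |Fm α m z - Fm α m w| ≤ m ^ α * ((‖z‖ + ‖w‖) * ‖z - w‖) := by
  have hc := NLF_psi_cont hα m
  have h1 := intervalIntegral.integral_interval_sub_left (μ := volume)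
    (hc.intervalIntegrable 0 (‖z‖ ^ 2)) (hc.intervalIntegrable 0 (‖w‖ ^ 2))
  have h2 := intervalIntegral.norm_integral_le_of_norm_le_const (a := ‖w‖ ^ 2) (b := ‖z‖ ^ 2)
    (C := m ^ α) (f := fun σ : ℝ => min (√σ) m ^ α) fun σ _ => by
      rw [Real.norm_of_nonneg (NLF_psi_bd hα hm σ).1]
      exact (NLF_psi_bd hα hm σ).2.1
  have h3 : |‖z‖ ^ 2 - ‖w‖ ^ 2| ≤ (‖z‖ + ‖w‖) * ‖z - w‖ := by
    rw [sq_sub_sq, abs_mul, abs_of_nonneg (by positivity)]
    exact mul_le_mul_of_nonneg_left (abs_norm_sub_norm_le z w) (by positivity)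
  have h4 : 0 ≤ m ^ α := by positivity
  have h5 := h2.trans (mul_le_mul_of_nonneg_left h3 h4)
  rw [Fm, Fm, ← sub_div, h1, abs_div, abs_two]
  rw [Real.norm_eq_abs] at h5
  have h6 := abs_nonneg (∫ σ in ‖w‖ ^ 2..‖z‖ ^ 2, min (√σ) m ^ α)
  linarith

theorem NLF_big {a m p δ : ℝ} (hm : 0 < m) (ha : m ≤ a) (hδ : 0 ≤ δ) :
    a ^ p ≤ a ^ (p + δ) / m ^ δ := by
  have ha0 : 0 < a := hm.trans_le ha
  rw [le_div_iff₀ (by positivity), Real.rpow_add ha0]
  exact mul_le_mul_of_nonneg_left (Real.rpow_le_rpow hm.le ha hδ) (by positivity)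

theorem NLF_Fm_apx {α m δ : ℝ} (hα : 0 < α) (hm : 0 < m) (hδ : 0 ≤ δ) (z : ℂ) :
    |Fm α m z - ‖z‖ ^ (α + 2) / (α + 2)| ≤ ‖z‖ ^ (α + 2 + δ) / m ^ δ := by
  rcases le_total ‖z‖ m with h | h
  · have e : Fm α m z = ‖z‖ ^ (α + 2) / (α + 2) := by
      rw [← NLF_sqrt_int hα (norm_nonneg z), Fm]
      congr 1
      refine intervalIntegral.integral_congr fun σ hσ => ?_
      rw [uIcc_of_le (sq_nonneg _)] at hσ
      rw [min_eq_left ((Real.sqrt_le_left (norm_nonneg z)).2 hσ.2 |>.trans h)]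
    rw [e, sub_self, abs_zero]
    positivity
  · have h1 : Fm α m z ≤ ‖z‖ ^ (α + 2) / (α + 2) := by
      rw [← NLF_sqrt_int hα (norm_nonneg z), Fm]
      refine div_le_div_of_nonneg_right (intervalIntegral.integral_mono_on (sq_nonneg _)
        ((NLF_psi_cont hα m).intervalIntegrable _ _)
        (((Real.continuous_rpow_const hα.le).comp Real.continuous_sqrt).intervalIntegrable _ _)
        fun σ _ => (NLF_psi_bd hα hm σ).2.2) zero_le_two
    have h2 := NLF_Fm_nonneg hα hm z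
    have h3 : ‖z‖ ^ (α + 2) / (α + 2) ≤ ‖z‖ ^ (α + 2) :=
      div_le_self (by positivity) (by linarith)
    have h4 := NLF_big (p := α + 2) hm h hδ
    rw [abs_sub_comm, abs_of_nonneg (sub_nonneg.2 h1)]
    linarith

theorem NLF_tail {α m δ : ℝ} (hα : 0 < α) (hm : 0 < m) (hδ : 0 ≤ δ) (z w : ℂ) :
    ‖NL α z - gm α m z - (NL α w - gm α m w)‖ ≤
      2 * (α + 2) / m ^ δ * (‖z‖ ^ (α + δ) + ‖w‖ ^ (α + δ)) * ‖z - w‖ := by
  refine NLF_sym (F := fun z => NL α z - gm α m z) (B := fun z => ‖z‖ ^ (α + δ))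
    (by positivity) (fun z => by positivity) (fun z w h => ?_) z w
  rcases le_total ‖z‖ m with h1 | h1
  · simp only [NL, gm, min_eq_left h1, min_eq_left (h.trans h1), sub_self, norm_zero]
    positivity
  · have h2 := NLF_lip hα h
    have h3 := NLF_glip hα hm h
    have h4 : min ‖z‖ m ^ α ≤ ‖z‖ ^ α :=
      Real.rpow_le_rpow (le_min (norm_nonneg z) hm.le) (min_le_left _ _) hα.le
    have h5 := NLF_big (p := α) hm h1 hδ
    have e : NL α z - gm α m z - (NL α w - gm α m w) =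
        (NL α z - NL α w) - (gm α m z - gm α m w) := by ring
    rw [e]
    calc _ ≤ (α + 2) * ‖z‖ ^ α * ‖z - w‖ + (α + 2) * min ‖z‖ m ^ α * ‖z - w‖ :=
          (norm_sub_le _ _).trans (add_le_add h2 h3)
      _ ≤ (α + 2) * (‖z‖ ^ (α + δ) / m ^ δ) * ‖z - w‖ +
            (α + 2) * (‖z‖ ^ (α + δ) / m ^ δ) * ‖z - w‖ := by
          gcongr
          exact h4.trans h5
      _ = _ := by ring

theorem TRU : St_TRU := by
  intro α hα
  refine ⟨2 * (α + 2), by positivity, fun m hm => ⟨NLF_gcont hα m, ?_, fun z => ?_,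
    fun z w => ?_, fun z => ?_, fun z => ⟨NLF_Fm_nonneg hα hm z, ?_⟩, NLF_Fm_lip hα hm,
    fun f f' x hf => ?_, fun δ hδ => ⟨NLF_Fm_apx hα hm hδ, NLF_tail hα hm hδ⟩⟩⟩
  · have h : Continuous fun u => ∫ σ in (0 : ℝ)..u, min (√σ) m ^ α :=
      continuous_iff_continuousAt.2 fun s => (NLF_prim hα m s).continuousAt
    exact (h.comp (continuous_norm.pow 2)).div_const 2
  · have h : 0 ≤ min ‖z‖ m := le_min (norm_nonneg z) hm.le
    rw [gm, norm_mul, Complex.norm_real, Real.norm_of_nonneg (by positivity)]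
    exact mul_le_mul_of_nonneg_right (Real.rpow_le_rpow h (min_le_right _ _) hα.le)
      (norm_nonneg z)
  · have h := NLF_sym (F := gm α m) (B := fun _ => m ^ α) (C := α + 2) (by positivity)
      (fun z => by positivity) (fun z w h => (NLF_glip hα hm h).trans (by
        gcongr
        exact min_le_right _ _)) z w
    exact h.trans (le_of_eq (by ring))
  · have e : conj (gm α m z) * (Complex.I * NL α z) =
        ((min ‖z‖ m ^ α * ‖z‖ ^ (α + 2) : ℝ) : ℂ) * Complex.I := by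
      rw [Complex.ofReal_mul, ← NLF_conj hα, gm, map_mul, Complex.conj_ofReal]
      ring
    rw [e, Complex.re_ofReal_mul, Complex.I_re, mul_zero]
  · have h := NLF_Fm_lip hα hm z 0
    have e : Fm α m 0 = 0 := by simp [Fm]
    rw [e, sub_zero, sub_zero, norm_zero, add_zero, ← sq] at h
    exact (le_abs_self _).trans h
  · have h := ((NLF_prim hα m (‖f x‖ ^ 2)).comp x hf.norm_sq).div_const 2
    refine h.congr_deriv ?_
    rw [Real.sqrt_sq (norm_nonneg _), gm, map_mul, Complex.conj_ofReal, mul_assoc _ _ f',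
      Complex.re_ofReal_mul, Complex.inner, mul_comm f']
    ring

theorem EN2 (h1 : St_TRU) (h2 : St_NL) : St_EN2 := by
  intro N α δ hα hδ
  obtain ⟨C, hC, hT⟩ := h1 α hα
  refine ⟨C, hC, fun m g g' hm hg hg' kg kg' => ⟨?_, ?_⟩⟩
  · obtain ⟨c1, -, -, -, c2, -⟩ := h2 α hα
    refine MemLp.of_le (c2 N g hg).1
      ((c1.sub (hT m hm).1).comp_aestronglyMeasurable hg.1) (Eventually.of_forall fun x => ?_)
    have k0 : 0 ≤ min ‖g x‖ m := le_min (norm_nonneg _) hm.le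
    have k1 : min ‖g x‖ m ^ α ≤ ‖g x‖ ^ α := Real.rpow_le_rpow k0 (min_le_left _ _) hα.le
    have k2 : 0 ≤ min ‖g x‖ m ^ α := by positivity
    rw [NL, gm, ← sub_mul, ← Complex.ofReal_sub, norm_mul, norm_mul, Complex.norm_real,
      Complex.norm_real, Real.norm_of_nonneg (sub_nonneg.2 k1), Real.norm_of_nonneg (k2.trans k1)]
    exact mul_le_mul_of_nonneg_right (by linarith) (norm_nonneg _)
  · obtain ⟨-, -, -, -, -, -, -, -, c3⟩ := hT m hm
    exact NLF_est (NLF_triple hα) (NLF_one_le hα) (by positivity) (by field_simp)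
      (by positivity) kg kg' (hg.sub hg') fun x => (c3 δ hδ).2 _ _

end Pool.Agent.Lib.MP_13801a_an.ND
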