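import Mathlib
import Pool.Agent.Lib.MP_13801a_an.ND.StsA

/-!
The Strichartz estimate for translation differences of a solution.
-/

open MeasureTheory Set Filter
open scoped ContDiff Topology ComplexConjugate

namespace Pool.Agent.Lib.MP_13801a_an.ND

variable {N : ℕ}

theorem STR_mem_sh (h1 : St_CONV) {p : ℝ} (hp : 1 ≤ p) {g : E N → ℂ} (hg : Mem p g) (h : E N) :
    Mem p (sh h g) :=
  (((h1 N p hp).1 g hg).1 h).1.sub hg

theorem STR_nr_sh (h1 : St_CONV) {p : ℝ} (hp : 1 ≤ p) {g : E N → ℂ} (hg : Mem p g) (h : E N) :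
    nr p (sh h g) ≤ 2 * nr p g := by
  have h2 := ((h1 N p hp).1 g hg).1 h
  have h3 := nr_sub_le (g' := g) hp h2.1
  rw [h2.2] at h3
  have : nr p (sh h g) ≤ nr p g + nr p g := h3
  linarith

theorem STR_sh_sh (h1 : St_CONV) {p : ℝ} (hp : 1 ≤ p) {g : E N → ℂ} (hg : Mem p g) (h y : E N) :
    nr p (sh y (sh h g)) ≤ 2 * nr p (sh y g) := by
  have e : sh y (sh h g) = sh h (sh y g) := by
    funext x
    simp only [sh]
    rw [add_right_comm x y h]
    ring
  rw [e]
  exact STR_nr_sh h1 hp (STR_mem_sh h1 hp hg y) h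

theorem STR_cv_sub (h1 : St_CONV) {p : ℝ} (hp : 1 ≤ p) {k g g' : E N → ℂ} (hk : Ker k)
    (hg : Mem p g) (hg' : Mem p g') (x : E N) :
    cv k (fun y => g y - g' y) x = cv k g x - cv k g' x := by
  have i1 := (((h1 N p hp).2 k hk).2 g hg).1 x
  have i2 := (((h1 N p hp).2 k hk).2 g' hg').1 x
  simp only [cv, mul_sub]
  exact integral_sub i1 i2

theorem STR_cv_sh (h1 : St_CONV) {p : ℝ} (hp : 1 ≤ p) {k g : E N → ℂ} (hk : Ker k)
    (hg : Mem p g) (h x : E N) : cv k (sh h g) x = cv k g (x + h) - cv k g x := by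
  have e : cv k (fun y => g (y + h)) x = cv k g (x + h) := by
    simp only [cv]
    rw [← integral_add_right_eq_self (fun y => k (x + h - y) * g y) h]
    simp only [add_sub_add_right_eq_sub]
  rw [← e]
  exact STR_cv_sub h1 hp hk (((h1 N p hp).1 g hg).1 h).1 hg x

/-- Cauchy-Schwarz inequality with a weight. -/
theorem STR_cs {k w : E N → ℝ} (hk : ∀ y, 0 ≤ k y) (i0 : Integrable k)
    (i1 : Integrable fun y => k y * w y) (i2 : Integrable fun y => k y * w y ^ 2) :
    (∫ y, k y * w y) ^ 2 ≤ (∫ y, k y) * ∫ y, k y * w y ^ 2 := by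
  have h : ∀ x : ℝ, 0 ≤ (∫ y, k y) * (x * x) + (-2 * ∫ y, k y * w y) * x + ∫ y, k y * w y ^ 2 := by
    intro x
    have e : (∫ y, k y) * (x * x) + (-2 * ∫ y, k y * w y) * x + ∫ y, k y * w y ^ 2 =
        ∫ y, k y * (w y - x) ^ 2 := by
      have e1 : (fun y => k y * (w y - x) ^ 2) =
          fun y => (k y * (x * x) + (-2 * x) * (k y * w y)) + k y * w y ^ 2 := by
        funext y
        ring
      have j1 : Integrable fun y => k y * (x * x) := i0.mul_const _
      have j2 : Integrable fun y => (-2 * x) * (k y * w y) := i1.const_mul _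
      have j3 : Integrable fun y => k y * (x * x) + (-2 * x) * (k y * w y) := j1.add j2
      rw [e1, integral_add j3 i2, integral_add j1 j2, integral_mul_const, integral_const_mul]
      ring
    rw [e]
    exact integral_nonneg fun y => mul_nonneg (hk y) (sq_nonneg _)
  have h2 := discrim_le_zero h
  rw [discrim] at h2
  nlinarith

theorem STR_bound {f : ℝ → ℝ} (hf : Continuous f) (T : ℝ) :
    ∃ B : ℝ, 0 ≤ B ∧ ∀ t ∈ Icc 0 T, f t ≤ B := by
  obtain ⟨B, hB⟩ := isCompact_Icc.bddAbove_image (hf.continuousOn (s := Icc 0 T))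
  exact ⟨max B 0, le_max_right _ _, fun t ht => (hB ⟨t, ht, rfl⟩).trans (le_max_left _ _)⟩

/-- The heat regularisation converges uniformly in time and in the translation. -/
theorem STR_heat (h1 : St_CONV) (h2 : St_GK) {p T : ℝ} (hp : 1 ≤ p) {v : ℝ → E N → ℂ}
    (hv : ∀ t, Mem p (v t)) (hc : Continuous fun t => nr p (v t))
    (hj : Continuous fun a : ℝ × E N => nr p (sh a.2 (v a.1))) {η : ℝ} (hη : 0 < η) :
    ∃ ε : ℝ, 0 < ε ∧ ∀ t ∈ Icc 0 T, ∀ h : E N,
      nr p (sh h (v t)) ≤ nr p (cv (GK ε) (sh h (v t))) + η := by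
  obtain ⟨B, hB0, hB⟩ := STR_bound hc T
  have hev : ∀ᶠ y in 𝓝 (0 : E N), ∀ t ∈ Icc 0 T, nr p (sh (-y) (v t)) ≤ η / 4 := by
    refine isCompact_Icc.eventually_forall_of_forall_eventually
      (P := fun (y : E N) (t : ℝ) => nr p (sh (-y) (v t)) ≤ η / 4) fun t _ => ?_
    have hc2 : Continuous fun z : E N × ℝ => nr p (sh (-z.1) (v z.2)) :=
      hj.comp (f := fun z : E N × ℝ => (z.2, -z.1)) (by fun_prop)
    have h0 : nr p (sh (-((0 : E N), t).1) (v ((0 : E N), t).2)) < η / 4 := by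
      have e : sh (-(0 : E N)) (v t) = fun x => (0 : ℂ) * v t x := by
        funext x
        simp [sh]
      show nr p (sh (-(0 : E N)) (v t)) < η / 4
      rw [e, nr_const_mul]
      simp only [norm_zero, zero_mul]
      positivity
    exact (hc2.continuousAt.eventually_lt continuousAt_const h0).mono fun z hz => hz.le
  obtain ⟨ρ, hρ, hρ2⟩ := Metric.eventually_nhds_iff.1 hev
  have hpt : ∀ t ∈ Icc 0 T, ∀ y : E N,
      nr p (sh (-y) (v t)) ≤ η / 4 + 2 * B / ρ ^ 2 * ‖y‖ ^ 2 := by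
    intro t ht y
    by_cases hy : ‖y‖ < ρ
    · have := hρ2 (y := y) (by simpa using hy) t ht
      have : 0 ≤ 2 * B / ρ ^ 2 * ‖y‖ ^ 2 := by positivity
      linarith
    · have h3 := STR_nr_sh h1 hp (hv t) (-y)
      have h4 := hB t ht
      have h5 : ρ ^ 2 ≤ ‖y‖ ^ 2 := pow_le_pow_left₀ hρ.le (not_lt.1 hy) 2
      have h6 : 2 * B ≤ 2 * B / ρ ^ 2 * ‖y‖ ^ 2 := by
        rw [div_mul_eq_mul_div, le_div_iff₀ (by positivity)]
        exact mul_le_mul_of_nonneg_left h5 (by positivity)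
      linarith
  set A : ℝ := 2 * B / ρ ^ 2 * (2 * N) with hA
  have hA0 : 0 ≤ A := by positivity
  refine ⟨η / (4 * (A + 1)), by positivity, fun t ht h => ?_⟩
  set ε : ℝ := η / (4 * (A + 1)) with hε
  have hε0 : 0 < ε := by positivity
  obtain ⟨g1, g2, g3, g4, g5⟩ := (h2 N).2.1 ε hε0
  have hK : Ker (GK (ε : ℂ) : E N → ℂ) := ((h2 N).2.2 ε (by simpa using hε0)).1
  have hw := STR_mem_sh h1 hp (hv t) h
  obtain ⟨-, -, m1, -, m2, -⟩ := ((h1 N p hp).2 _ hK).2 _ hw
  have n1 : ∀ y : E N, ‖GK (ε : ℂ) y‖ = hk ε y := by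
    intro y
    rw [g1, Complex.norm_real, Real.norm_of_nonneg (g2 y)]
  have n2 : ∫ y : E N, GK (ε : ℂ) y = 1 := by
    simp only [g1]
    rw [integral_complex_ofReal, g3]
    simp
  have i0 : Integrable fun y : E N => hk ε y := by
    have := hK.1.norm
    simpa only [n1] using this
  rw [n2] at m2
  simp only [one_mul, n1] at m2
  have i1 : Integrable fun y : E N =>
      η / 2 * hk ε y + 2 * (2 * B / ρ ^ 2) * (hk ε y * ‖y‖ ^ 2) :=
    (i0.const_mul _).add (g4.const_mul _)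
  have b1 : ∫ y : E N, hk ε y * nr p (sh (-y) (sh h (v t))) ≤
      ∫ y : E N, (η / 2 * hk ε y + 2 * (2 * B / ρ ^ 2) * (hk ε y * ‖y‖ ^ 2)) := by
    refine integral_mono_of_nonneg (Eventually.of_forall fun y => ?_) i1
      (Eventually.of_forall fun y => ?_)
    · exact mul_nonneg (g2 y) (nr_nonneg _ _)
    · have q1 := STR_sh_sh h1 hp (hv t) h (-y)
      have q2 := hpt t ht y
      have q3 : nr p (sh (-y) (sh h (v t))) ≤ η / 2 + 2 * (2 * B / ρ ^ 2 * ‖y‖ ^ 2) := by linarith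
      have q4 := mul_le_mul_of_nonneg_left q3 (g2 y)
      show hk ε y * nr p (sh (-y) (sh h (v t))) ≤ _
      refine q4.trans (le_of_eq ?_)
      ring
  rw [integral_add (i0.const_mul _) (g4.const_mul _), integral_const_mul, integral_const_mul, g3,
    g5] at b1
  have b2 : 2 * (2 * B / ρ ^ 2) * (2 * N * ε) ≤ η / 2 := by
    have e : 2 * (2 * B / ρ ^ 2) * (2 * N * ε) = η / 2 * (A / (A + 1)) := by
      rw [hε, hA]
      field_simp
      ring
    rw [e]
    have : A / (A + 1) ≤ 1 := by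
      rw [div_le_one (by positivity)]
      linarith
    nlinarith
  have b3 := abs_nr_sub_le hp m1 hw
  have b4 := (abs_le.1 b3).1
  linarith

theorem STR_re (ε s : ℝ) : ((ε : ℂ) + Complex.I * (s : ℝ)).re = ε := by simp

theorem STR_ker_cont {ε δ : ℝ} (hε : 0 < ε) :
    Continuous fun τ : ℝ => ‖(ε : ℂ) + Complex.I * (τ : ℝ)‖ ^ (-δ) := by
  refine Continuous.rpow_const (by fun_prop) fun τ => Or.inl ?_
  intro h0
  have := STR_re ε τ
  rw [norm_eq_zero.1 h0] at this
  simp at this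
  linarith

/-- The pointwise in time inequality coming from the Duhamel formula. -/
theorem STR_duh (h1 : St_CONV) (h2 : St_GK) (h3 : St_BASIC) (h4 : St_NL) (h6 : St_DISPE)
    (h7 : St_DUH) (h8 : St_MINK) {α κ : ℝ} {v : ℝ → E N → ℂ} {dv : ℝ → Fin N → E N → ℂ}
    (hS : Sub N α) (hv : Sol α κ v dv) (T : ℝ) :
    ∃ L : ℝ, 0 ≤ L ∧ ∀ (ε t0 t : ℝ) (h : E N), 0 < ε → 0 ≤ t0 → t0 ≤ t → t ≤ T →
      nr (α + 2) (cv (GK ε) (sh h (v t))) ≤
        nr (α + 2) (cv (GK (ε + Complex.I * (t - t0 : ℝ))) (sh h (v t0))) +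
          L * ∫ s in t0..t, ‖(ε : ℂ) + Complex.I * (t - s : ℝ)‖ ^ (-(N * (1 / 2 - 1 / (α + 2)))) *
            nr (α + 2) (sh h (v s)) := by
  have hα := hS.2.1
  have hr : (1 : ℝ) ≤ α + 2 := by linarith
  have hr' : (1 : ℝ) ≤ (α + 2) / (α + 1) := by
    rw [le_div_iff₀ (by linarith)]
    linarith
  obtain ⟨-, -, -, b1, b2, -, -⟩ := h3 N α κ v dv hS hv
  obtain ⟨-, c1, -, c2⟩ := b1 (α + 2) (by linarith) (by have := hS.2.2; nlinarith)
  obtain ⟨B, hB0, hB⟩ := STR_bound c1 T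
  obtain ⟨Λ, hΛ0, hΛ⟩ := STR_bound (f := fun s => Real.exp (κ * s)) (by fun_prop) T
  obtain ⟨-, -, -, -, -, C, hC0, -, hC⟩ := h4 α hα
  refine ⟨Λ * (C * (B ^ α + B ^ α)), by positivity, fun ε t0 t h hε ht0 ht htT => ?_⟩
  obtain ⟨d1, d2⟩ := h7 N α κ v dv hS hv ε t0 t hε ht0 ht
  set δ : ℝ := N * (1 / 2 - 1 / (α + 2)) with hδ
  have hK : ∀ s : ℝ, Ker (GK ((ε : ℂ) + Complex.I * (s : ℝ)) : E N → ℂ) := fun s =>
    ((h2 N).2.2 _ (by rw [STR_re]; exact hε)).1
  have hK0 : Ker (GK (ε : ℂ) : E N → ℂ) := ((h2 N).2.2 ε (by simpa using hε)).1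
  set G : ℝ → E N → ℂ := fun s x =>
    cv (GK (ε + Complex.I * (t - s : ℝ))) (fun y => NL α (v s y)) x with hG
  set Γ : ℝ → E N → ℂ := fun s x =>
    ((Real.exp (κ * s) : ℝ) : ℂ) * G s (x + h) - ((Real.exp (κ * s) : ℝ) : ℂ) * G s x with hΓ
  have cG : Continuous fun q : ℝ × E N => G q.1 q.2 := d1
  have cG1 : ∀ x, Continuous fun s => ((Real.exp (κ * s) : ℝ) : ℂ) * G s x := fun x =>
    Continuous.mul (by fun_prop) (cG.comp (f := fun s : ℝ => (s, x)) (by fun_prop))
  have cΓ : Continuous fun q : ℝ × E N => Γ q.1 q.2 :=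
    Continuous.sub
      (Continuous.mul (by fun_prop) (cG.comp (f := fun q : ℝ × E N => (q.1, q.2 + h)) (by fun_prop)))
      (Continuous.mul (by fun_prop) cG)
  have ca : Continuous fun s => nr (α + 2) (sh h (v s)) :=
    c2.comp (f := fun s : ℝ => (s, h)) (by fun_prop)
  have ck : Continuous fun s : ℝ => ‖(ε : ℂ) + Complex.I * (t - s : ℝ)‖ ^ (-δ) :=
    (STR_ker_cont (δ := δ) hε).comp (f := fun s : ℝ => t - s) (by fun_prop)
  have hM := h8 N (α + 2) t0 t Γ (fun s => Λ * (C * (B ^ α + B ^ α)) *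
      (‖(ε : ℂ) + Complex.I * (t - s : ℝ)‖ ^ (-δ) * nr (α + 2) (sh h (v s))))
    (by linarith) ht cΓ (continuous_const.mul (ck.mul ca)) (by
      intro s hs
      have hs' : s ∈ Icc 0 T := ⟨ht0.trans hs.1, hs.2.trans htT⟩
      have mN := (b2 s).2
      have e : Γ s = fun x => ((Real.exp (κ * s) : ℝ) : ℂ) *
          cv (GK (ε + Complex.I * (t - s : ℝ))) (sh h fun y => NL α (v s y)) x := by
        funext x
        rw [STR_cv_sh h1 hr' (hK _) mN, mul_sub]
      obtain ⟨e1, e2⟩ := h6 N (α + 2) _ (by linarith) (conj_exp hα)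
        ((ε : ℂ) + Complex.I * (t - s : ℝ)) (by rw [STR_re]; exact hε) _ (STR_mem_sh h1 hr' mN h)
      have t1 := ((h1 N (α + 2) hr).1 _ (b2 s).1).1 h
      have e3 := (hC N (fun x => v s (x + h)) (v s) t1.1 (b2 s).1).1
      rw [t1.2] at e3
      have e4 : nr (α + 2) (v s) ^ α ≤ B ^ α :=
        Real.rpow_le_rpow (nr_nonneg _ _) (hB s hs') hα.le
      have e5 : nr ((α + 2) / (α + 1)) (sh h fun y => NL α (v s y)) ≤
          C * (B ^ α + B ^ α) * nr (α + 2) (sh h (v s)) := by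
        refine le_trans e3 (mul_le_mul_of_nonneg_right ?_ (nr_nonneg _ _))
        exact mul_le_mul_of_nonneg_left (add_le_add e4 e4) hC0
      rw [e]
      refine ⟨MemLp.const_mul e1 _, ?_⟩
      rw [nr_const_mul, Complex.norm_real, Real.norm_of_nonneg (Real.exp_pos _).le]
      have k0 : 0 ≤ ‖(ε : ℂ) + Complex.I * (t - s : ℝ)‖ ^ (-δ) := by positivity
      have e6 := e2.trans (mul_le_mul_of_nonneg_left e5 k0)
      have e7 := mul_le_mul (hΛ s hs') e6 (nr_nonneg _ _) hΛ0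
      refine e7.trans (le_of_eq ?_)
      ring)
  have e : cv (GK ε) (sh h (v t)) = fun x =>
      cv (GK (ε + Complex.I * (t - t0 : ℝ))) (sh h (v t0)) x +
        Complex.I * ∫ s in t0..t, Γ s x := by
    funext x
    rw [STR_cv_sh h1 hr hK0 (b2 t).1, STR_cv_sh h1 hr (hK _) (b2 t0).1, d2, d2]
    have := intervalIntegral.integral_sub (μ := volume) (a := t0) (b := t)
      ((cG1 (x + h)).intervalIntegrable _ _) ((cG1 x).intervalIntegrable _ _)
    simp only [hΓ]
    rw [this]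
    ring
  have m0 : Mem (α + 2) (cv (GK (ε + Complex.I * (t - t0 : ℝ))) (sh h (v t0))) :=
    (((h1 N (α + 2) hr).2 _ (hK _)).2 _ (STR_mem_sh h1 hr (b2 t0).1 h)).2.2.1
  rw [e]
  refine (nr_add_le hr m0).trans (add_le_add le_rfl ?_)
  rw [nr_const_mul, Complex.norm_I, one_mul, ← intervalIntegral.integral_const_mul]
  exact hM.2

theorem STR (h1 : St_CONV) (h2 : St_GK) (h3 : St_BASIC) (h4 : St_NL) (h5 : St_TL)
    (h6 : St_DISPE) (h7 : St_DUH) (h8 : St_MINK) (h9 : St_SCHUR) (h10 : St_HOM) : St_STR := by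
  intro N α κ v dv hS hv T hT
  have hα := hS.2.1
  have hr : (1 : ℝ) ≤ α + 2 := by linarith
  obtain ⟨L, hL0, hL⟩ := STR_duh h1 h2 h3 h4 h6 h7 h8 hS hv T
  obtain ⟨-, ckin, -, b1, -, -, -⟩ := h3 N α κ v dv hS hv
  obtain ⟨mv, c1, -, c2⟩ := b1 (α + 2) (by linarith) (by have := hS.2.2; nlinarith)
  obtain ⟨K, hK0, hK⟩ := STR_bound ckin T
  set δ : ℝ := N * (1 / 2 - 1 / (α + 2)) with hδ
  have hδe : δ = N * α / (2 * (α + 2)) := by
    rw [hδ]
    field_simp
    ring
  have hδ0 : 0 ≤ δ := by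
    rw [hδe]
    positivity
  have hδ1 : δ < 1 := by
    rw [hδe, div_lt_one (by positivity)]
    have := hS.2.2
    nlinarith
  obtain ⟨H, hH0, hH⟩ := h10 N (α + 2) (by linarith) hδ1
  have hlim : Tendsto (fun n : ℕ => T / n) atTop (𝓝 0) := tendsto_const_div_atTop_nhds_zero_nat T
  have hcont : ContinuousAt (fun l : ℝ => 3 * L ^ 2 * (2 * l ^ (1 - δ) / (1 - δ)) ^ 2) 0 := by
    have : ContinuousAt (fun l : ℝ => l ^ (1 - δ)) 0 :=
      Real.continuousAt_rpow_const _ _ (Or.inr (by linarith))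
    exact continuousAt_const.mul (((continuousAt_const.mul this).div_const _).pow 2)
  have ev1 : ∀ᶠ n : ℕ in atTop,
      3 * L ^ 2 * (2 * (T / n) ^ (1 - δ) / (1 - δ)) ^ 2 < 1 / 2 := by
    have := hcont.tendsto.comp hlim
    refine this.eventually_lt_const ?_
    rw [Real.zero_rpow (by linarith)]
    norm_num
  have ev2 : ∀ᶠ n : ℕ in atTop, T / n < 1 := hlim.eventually_lt_const one_pos
  obtain ⟨n, hn1, hn2, hn3⟩ := (ev1.and (ev2.and (eventually_gt_atTop 0))).exists
  set l : ℝ := T / n with hl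
  have hn : (0 : ℝ) < n := by exact_mod_cast hn3
  have hl0 : 0 ≤ l := by positivity
  refine ⟨n * (6 * H * K), by positivity, fun h => ?_⟩
  set a : ℝ → ℝ := fun s => nr (α + 2) (sh h (v s)) with ha
  have ca : Continuous a := c2.comp (f := fun s : ℝ => (s, h)) (by fun_prop)
  have key : ∀ t0, 0 ≤ t0 → t0 + l ≤ T → ∫ t in t0..t0 + l, a t ^ 2 ≤ 6 * H * K * ‖h‖ ^ 2 := by
    intro t0 ht0 ht1
    have hms : ms (sh h (v t0)) ≤ ‖h‖ ^ 2 * K :=
      ((h5 N _ _ (hv.h1 t0)).2 h).trans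
        (mul_le_mul_of_nonneg_left (hK t0 ⟨ht0, by linarith⟩) (sq_nonneg _))
    have m2 : MemLp (sh h (v t0)) 2 volume :=
      mem_two.1 (STR_mem_sh h1 one_le_two (mem_two.2 (hv.h1 t0).mem0) h)
    refine le_of_forall_pos_le_add fun η hη => ?_
    obtain ⟨ε, hε, hε2⟩ := STR_heat (T := T) h1 h2 hr mv c1 c2 (η := √(η / 6)) (by positivity)
    obtain ⟨-, u1, u2⟩ := hH ε l _ hε hl0 hn2.le m2
    set u : ℝ → ℝ := fun τ => nr (α + 2) (cv (GK (ε + Complex.I * τ)) (sh h (v t0))) with hu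
    set J : ℝ → ℝ := fun t =>
      ∫ s in t0..t, ‖(ε : ℂ) + Complex.I * (t - s : ℝ)‖ ^ (-δ) * a s with hJ
    have cJ : Continuous J := by
      refine intervalIntegral.continuous_parametric_intervalIntegral_of_continuous
        (f := fun t s : ℝ => ‖(ε : ℂ) + Complex.I * (t - s : ℝ)‖ ^ (-δ) * a s) ?_ continuous_id
      exact ((STR_ker_cont (δ := δ) hε).comp (f := fun q : ℝ × ℝ => q.1 - q.2) (by fun_prop)).mul
        (ca.comp continuous_snd)
    have cu : Continuous fun t => u (t - t0) := u1.comp (f := fun t : ℝ => t - t0) (by fun_prop)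
    have hs := (h9 δ ε t0 l a hδ0 hδ1 hε hl0 ca fun s => nr_nonneg _ _).1
    have j1 : IntervalIntegrable (fun t => 3 * u (t - t0) ^ 2) volume t0 (t0 + l) :=
      (continuous_const.mul (cu.pow 2)).intervalIntegrable _ _
    have j2 : IntervalIntegrable (fun t => 3 * L ^ 2 * J t ^ 2) volume t0 (t0 + l) :=
      (continuous_const.mul (cJ.pow 2)).intervalIntegrable _ _
    have j3 : IntervalIntegrable (fun _ : ℝ => η / 2) volume t0 (t0 + l) :=
      continuous_const.intervalIntegrable _ _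
    have mono : ∫ t in t0..t0 + l, a t ^ 2 ≤
        ∫ t in t0..t0 + l, (3 * u (t - t0) ^ 2 + 3 * L ^ 2 * J t ^ 2 + η / 2) := by
      refine intervalIntegral.integral_mono_on (by linarith)
        ((ca.pow 2).intervalIntegrable _ _) ((j1.add j2).add j3) fun t ht => ?_
      have p1 := hε2 t ⟨ht0.trans ht.1, ht.2.trans ht1⟩ h
      have p2 := hL ε t0 t h hε ht0 ht.1 (ht.2.trans ht1)
      have p3 : a t ≤ u (t - t0) + L * J t + √(η / 6) := by
        have : a t ≤ nr (α + 2) (cv (GK ε) (sh h (v t))) + √(η / 6) := p1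
        have p2' : nr (α + 2) (cv (GK ε) (sh h (v t))) ≤ u (t - t0) + L * J t := p2
        linarith
      have p4 : a t ^ 2 ≤ (u (t - t0) + L * J t + √(η / 6)) ^ 2 :=
        pow_le_pow_left₀ (nr_nonneg _ _) p3 2
      have p5 : √(η / 6) ^ 2 = η / 6 := Real.sq_sqrt (by positivity)
      nlinarith [sq_nonneg (u (t - t0) - L * J t), sq_nonneg (u (t - t0) - √(η / 6)),
        sq_nonneg (L * J t - √(η / 6))]
    rw [intervalIntegral.integral_add (j1.add j2) j3, intervalIntegral.integral_add j1 j2,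
      intervalIntegral.integral_const_mul, intervalIntegral.integral_const_mul,
      intervalIntegral.integral_comp_sub_right (fun τ => u τ ^ 2), intervalIntegral.integral_const,
      sub_self, add_sub_cancel_left, smul_eq_mul] at mono
    have a0 : 0 ≤ ∫ t in t0..t0 + l, a t ^ 2 :=
      intervalIntegral.integral_nonneg (by linarith) fun _ _ => sq_nonneg _
    have q1 : 3 * L ^ 2 * ∫ t in t0..t0 + l, J t ^ 2 ≤ 1 / 2 * ∫ t in t0..t0 + l, a t ^ 2 := by
      refine (mul_le_mul_of_nonneg_left hs (by positivity)).trans ?_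
      rw [← mul_assoc]
      exact mul_le_mul_of_nonneg_right hn1.le a0
    have q2 : ∫ τ in (0 : ℝ)..l, u τ ^ 2 ≤ H * (‖h‖ ^ 2 * K) :=
      u2.trans (mul_le_mul_of_nonneg_left hms hH0)
    have q3 : l * (η / 2) ≤ η / 2 := by nlinarith
    nlinarith
  have hsum := intervalIntegral.sum_integral_adjacent_intervals (f := fun t => a t ^ 2)
    (μ := volume) (a := fun k : ℕ => k * l) (n := n)
    fun k _ => (ca.pow 2).intervalIntegrable _ _
  have e1 : (n : ℝ) * l = T := by
    rw [hl]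
    field_simp
  simp only [Nat.cast_zero, zero_mul, e1] at hsum
  show ∫ t in (0 : ℝ)..T, a t ^ 2 ≤ _
  rw [← hsum]
  refine (Finset.sum_le_card_nsmul _ _ (6 * H * K * ‖h‖ ^ 2) fun k hk => ?_).trans (le_of_eq ?_)
  · have e2 : ((k + 1 : ℕ) : ℝ) * l = k * l + l := by
      push_cast
      ring
    rw [e2]
    refine key _ (by positivity) ?_
    have : ((k + 1 : ℕ) : ℝ) ≤ n := by exact_mod_cast Finset.mem_range.1 hk
    rw [← e2, ← e1]
    exact mul_le_mul_of_nonneg_right this hl0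
  · rw [Finset.card_range, nsmul_eq_mul]
    ring

theorem STRC (h1 : St_CONV) (h2 : St_MOL) (h3 : St_BASIC) (h4 : St_STR) : St_STRC := by
  intro N α κ v dv hS hv T hT
  have hα := hS.2.1
  have hr : (1 : ℝ) ≤ α + 2 := by linarith
  obtain ⟨S, hS0, hSt⟩ := h4 N α κ v dv hS hv T hT
  obtain ⟨m1, ⟨M, hM0, hM⟩, m3, -⟩ := h2 N
  obtain ⟨-, -, -, b1, -, -, -⟩ := h3 N α κ v dv hS hv
  obtain ⟨mv, c1, -, c2⟩ := b1 (α + 2) (by linarith) (by have := hS.2.2; nlinarith)
  obtain ⟨B, hB0, hB⟩ := STR_bound c1 T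
  refine ⟨S * M ^ 2, by positivity, fun p om h hp hom mh ch hb r hr0 i => ?_⟩
  obtain ⟨t1, -, -, -, t2⟩ := m1 r hr0
  obtain ⟨-, t3, t4⟩ := t2 i
  have tk := t1.pd i
  have hK := (m3 _ tk).1
  set k : E N → ℝ := fun y => |pd i (mol r) y| with hk
  have nk : ∀ y, ‖cr (pd i (mol r)) y‖ = k y := fun y => by simp [cr, hk]
  have k0 : ∀ y, 0 ≤ k y := fun y => abs_nonneg _
  have ik : Integrable k := by
    have := hK.1.norm
    simpa only [nk] using this
  have ck : Continuous k := tk.1.continuous.abs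
  have hc := ((h1 N p hp).2 _ hK).2
  have cont : Continuous fun t => nr p (cv (cr (pd i (mol r))) (h t)) := by
    refine continuous_iff_continuousAt.2 fun t => ?_
    rw [ContinuousAt, tendsto_iff_norm_sub_tendsto_zero]
    have lim := (ch t).const_mul (∫ y, ‖cr (pd i (mol r)) y‖)
    rw [mul_zero] at lim
    refine squeeze_zero (fun _ => norm_nonneg _) (fun s => ?_) lim
    refine (abs_nr_sub_le hp (hc _ (mh s)).2.2.1 (hc _ (mh t)).2.2.1).trans ?_
    have e : (fun x => cv (cr (pd i (mol r))) (h s) x - cv (cr (pd i (mol r))) (h t) x) =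
        cv (cr (pd i (mol r))) fun y => h s y - h t y := by
      funext x
      rw [STR_cv_sub h1 hp hK (mh s) (mh t)]
    rw [e]
    exact (hc _ ((mh s).sub (mh t))).2.2.2.1
  refine ⟨cont, ?_⟩
  set w : ℝ → E N → ℝ := fun t y => nr (α + 2) (sh (-y) (v t)) with hw
  have cw : Continuous fun q : ℝ × E N => w q.1 q.2 :=
    c2.comp (f := fun q : ℝ × E N => (q.1, -q.2)) (by fun_prop)
  have w0 : ∀ t y, 0 ≤ w t y := fun t y => nr_nonneg _ _
  have wb : ∀ t ∈ Icc 0 T, ∀ y, w t y ≤ 2 * B := fun t ht y =>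
    (STR_nr_sh h1 hr (mv t) (-y)).trans (by have := hB t ht; linarith)
  have cw1 : ∀ t, Continuous (w t) := fun t => cw.comp (f := fun y : E N => (t, y)) (by fun_prop)
  have i1 : ∀ t ∈ Icc 0 T, Integrable fun y => k y * w t y := fun t ht =>
    ik.mul_bdd (c := 2 * B) (cw1 t).aestronglyMeasurable (Eventually.of_forall fun y => by
      rw [Real.norm_of_nonneg (w0 t y)]
      exact wb t ht y)
  have i2 : ∀ t ∈ Icc 0 T, Integrable fun y => k y * w t y ^ 2 := fun t ht =>
    ik.mul_bdd (c := (2 * B) ^ 2) ((cw1 t).pow 2).aestronglyMeasurable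
      (Eventually.of_forall fun y => by
        rw [Real.norm_of_nonneg (sq_nonneg _)]
        exact pow_le_pow_left₀ (w0 t y) (wb t ht y) 2)
  have ip : Integrable (Function.uncurry fun t y => k y * w t y ^ 2)
      ((volume.restrict (uIoc 0 T)).prod volume) := by
    have j0 : Integrable (fun _ : ℝ => (2 * B) ^ 2) (volume.restrict (uIoc 0 T)) := by
      rw [uIoc_of_le hT]
      exact integrable_const _
    refine (j0.mul_prod ik).mono' ?_ ?_
    · exact ((ck.comp continuous_snd).mul (cw.pow 2)).aestronglyMeasurable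
    · rw [uIoc_of_le hT]
      have : ∀ᵐ q : ℝ × E N ∂((volume.restrict (Ioc 0 T)).prod volume), q.1 ∈ Ioc 0 T :=
        Measure.quasiMeasurePreserving_fst.ae (ae_restrict_mem measurableSet_Ioc)
      filter_upwards [this] with q hq
      have : 0 ≤ k q.2 * w q.1 q.2 ^ 2 := mul_nonneg (k0 _) (sq_nonneg _)
      show ‖k q.2 * w q.1 q.2 ^ 2‖ ≤ (2 * B) ^ 2 * k q.2
      rw [Real.norm_of_nonneg this, mul_comm]
      exact mul_le_mul_of_nonneg_right
        (pow_le_pow_left₀ (w0 _ _) (wb _ (Ioc_subset_Icc_self hq) _) 2) (k0 _)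
  have i3 : IntervalIntegrable (fun t => ∫ y, k y * w t y ^ 2) volume 0 T := by
    rw [intervalIntegrable_iff]
    exact ip.integral_prod_left
  have hz : ∫ y, cr (pd i (mol r)) y = 0 := by
    simp only [cr]
    rw [integral_complex_ofReal, t3]
    simp
  have kM : ∫ y, k y ≤ M / r := hM r hr0 i
  have mono : ∫ t in (0 : ℝ)..T, nr p (cv (cr (pd i (mol r))) (h t)) ^ 2 ≤
      ∫ t in (0 : ℝ)..T, om ^ 2 * (M / r) * ∫ y, k y * w t y ^ 2 := by
    refine intervalIntegral.integral_mono_on hT ((cont.pow 2).intervalIntegrable _ _)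
      (i3.const_mul _) fun t ht => ?_
    have q1 := (hc _ (mh t)).2.2.2.2.1
    rw [hz] at q1
    simp only [zero_mul, sub_zero, nk] at q1
    have q2 : ∫ y, k y * nr p (sh (-y) (h t)) ≤ ∫ y, om * (k y * w t y) := by
      refine integral_mono_of_nonneg (Eventually.of_forall fun y => ?_) ((i1 t ht).const_mul _)
        (Eventually.of_forall fun y => ?_)
      · exact mul_nonneg (k0 y) (nr_nonneg _ _)
      · have := mul_le_mul_of_nonneg_left (hb t ht (-y)) (k0 y)
        refine this.trans (le_of_eq ?_)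
        simp only [hw]
        ring
    rw [integral_const_mul] at q2
    have q3 : nr p (cv (cr (pd i (mol r))) (h t)) ≤ om * ∫ y, k y * w t y := q1.trans q2
    have q4 := pow_le_pow_left₀ (nr_nonneg _ _) q3 2
    have q5 := STR_cs k0 ik (i1 t ht) (i2 t ht)
    have q6 : 0 ≤ ∫ y, k y * w t y ^ 2 :=
      integral_nonneg fun y => mul_nonneg (k0 y) (sq_nonneg _)
    have q7 := q5.trans (mul_le_mul_of_nonneg_right kM q6)
    rw [mul_pow] at q4
    refine q4.trans ?_
    rw [mul_assoc]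
    exact mul_le_mul_of_nonneg_left q7 (sq_nonneg _)
  rw [intervalIntegral.integral_const_mul, intervalIntegral_integral_swap ip] at mono
  have fin : ∫ y, ∫ t in (0 : ℝ)..T, k y * w t y ^ 2 ≤ ∫ y, S * r ^ 2 * k y := by
    refine integral_mono_of_nonneg (Eventually.of_forall fun y => ?_) (ik.const_mul _)
      (Eventually.of_forall fun y => ?_)
    · exact intervalIntegral.integral_nonneg hT fun _ _ => mul_nonneg (k0 y) (sq_nonneg _)
    · show ∫ t in (0 : ℝ)..T, k y * w t y ^ 2 ≤ S * r ^ 2 * k y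
      rw [intervalIntegral.integral_const_mul]
      by_cases hy : r ≤ ‖y‖
      · have : k y = 0 := by simp [hk, (t4 y hy).2]
        simp [this]
      · have z1 := hSt (-y)
        rw [norm_neg] at z1
        have z2 : ‖y‖ ^ 2 ≤ r ^ 2 := pow_le_pow_left₀ (norm_nonneg _) (not_le.1 hy).le 2
        have z3 := z1.trans (mul_le_mul_of_nonneg_left z2 hS0)
        rw [mul_comm]
        exact mul_le_mul_of_nonneg_right z3 (k0 y)
  rw [integral_const_mul] at fin
  have fin2 := fin.trans (mul_le_mul_of_nonneg_left kM (by positivity))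
  refine mono.trans ((mul_le_mul_of_nonneg_left fin2 (by positivity)).trans (le_of_eq ?_))
  field_simp

end Pool.Agent.Lib.MP_13801a_an.ND
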