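import Mathlib
import Pool.Agent.Lib.MP_13801a_an.ND.StsA

/-!
Telescoping estimate for the heat semigroup and the level set estimate.
-/

open MeasureTheory Set Filter
open scoped ContDiff Topology ComplexConjugate

namespace Pool.Agent.Lib.MP_13801a_an.ND

noncomputable section

variable {N : ℕ}

/-- The quadratic form of the heat semigroup. -/
def TEL_a (g : E N → ℂ) (s : ℝ) : ℝ := (∫ x, conj (g x) * cv (cr (hk s)) g x).re

theorem TEL_conj_mem {g : E N → ℂ} (hg : MemLp g 2 volume) :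
    MemLp (fun x => conj (g x)) 2 volume :=
  hg.of_le (Complex.continuous_conj.comp_aestronglyMeasurable hg.1)
    (Eventually.of_forall fun x => by simp)

theorem TEL_int {u v : E N → ℂ} (hu : MemLp u 2 volume) (hv : MemLp v 2 volume) :
    Integrable fun x => conj (u x) * v x :=
  holder_integrable Real.HolderConjugate.two_two (mem_two.2 (TEL_conj_mem hu)) (mem_two.2 hv)

theorem TEL_sq (u v : ℂ) : ‖u - v‖ ^ 2 = ‖u‖ ^ 2 - 2 * (conj u * v).re + ‖v‖ ^ 2 := by
  simp only [Complex.sq_norm, Complex.normSq_apply, Complex.sub_re, Complex.sub_im,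
    Complex.mul_re, Complex.conj_re, Complex.conj_im]
  ring

theorem TEL_ms_sub {u v : E N → ℂ} (hu : MemLp u 2 volume) (hv : MemLp v 2 volume) :
    ms (fun x => u x - v x) = ms u - 2 * (∫ x, conj (u x) * v x).re + ms v := by
  have h1 := integrable_ms hu
  have h2 := integrable_ms hv
  have h3 := TEL_int hu hv
  have h4 : Integrable fun x => (conj (u x) * v x).re := h3.re
  have h5 : (∫ x, conj (u x) * v x).re = ∫ x, (conj (u x) * v x).re := (integral_re h3).symm
  have h6 : Integrable fun x => ‖u x‖ ^ 2 - 2 * (conj (u x) * v x).re := h1.sub (h4.const_mul 2)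
  unfold ms
  simp only [TEL_sq]
  rw [integral_add h6 h2, integral_sub h1 (h4.const_mul 2), integral_const_mul, h5]

theorem TEL_ms_eq {u : E N → ℂ} : ((ms u : ℝ) : ℂ) = ∫ x, u x * conj (u x) := by
  unfold ms
  rw [← integral_complex_ofReal]
  refine integral_congr_ae (Eventually.of_forall fun x => ?_)
  simp only [Complex.mul_conj, Complex.normSq_eq_norm_sq]

theorem TEL_cr (h2 : St_GK) {s : ℝ} (hs : 0 < s) : (cr (hk s) : E N → ℂ) = GK s := by
  funext y
  exact (((h2 N).2.1 s hs).1 y).symm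

theorem TEL_ker (h2 : St_GK) {s : ℝ} (hs : 0 < s) : Ker (cr (hk s) : E N → ℂ) := by
  rw [TEL_cr h2 hs]
  exact ((h2 N).2.2 s (by simpa using hs)).1

theorem TEL_conj_cv (k : E N → ℝ) (g : E N → ℂ) (x : E N) :
    conj (cv (cr k) g x) = cv (cr k) (fun y => conj (g y)) x := by
  unfold cv
  rw [← integral_conj]
  simp [cr]

theorem TEL_mem (h1 : St_CONV) (h2 : St_GK) {s : ℝ} (hs : 0 < s) {g : E N → ℂ}
    (hg : MemLp g 2 volume) : MemLp (cv (cr (hk s)) g) 2 volume :=
  mem_two.1 (((h1 N 2 one_le_two).2 _ (TEL_ker h2 hs)).2 g (mem_two.2 hg)).2.2.1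

theorem TEL_semi (h1 : St_CONV) (h2 : St_GK) {s : ℝ} (hs : 0 < s) {g : E N → ℂ}
    (hg : MemLp g 2 volume) : ms (cv (cr (hk s)) g) = TEL_a g (2 * s) := by
  have hk1 := TEL_ker (N := N) h2 hs
  have hc := TEL_conj_mem hg
  have hsz : 0 < ((s : ℝ) : ℂ).re := by simpa using hs
  obtain ⟨-, -, -, -, -, hadj, -⟩ := ((h1 N 2 one_le_two).2 _ hk1).2 g (mem_two.2 hg)
  obtain ⟨-, -, -, -, -, -, hass⟩ := ((h1 N 2 one_le_two).2 _ hk1).2 _ (mem_two.2 hc)
  have e1 := hadj 2 _ Real.HolderConjugate.two_two (mem_two.2 (TEL_mem h1 h2 hs hc))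
  have e2 : (fun y : E N => cr (hk s) (-y)) = cr (hk s) := by
    funext y
    rw [TEL_cr h2 hs]
    exact ((h2 N).2.2 s hsz).2.2.1 y
  have e3 : cv (cr (hk s)) (cr (hk s)) = (cr (hk (2 * s)) : E N → ℂ) := by
    funext x
    rw [TEL_cr h2 hs, TEL_cr h2 (by positivity : 0 < 2 * s)]
    rw [((h2 N).2.2 s hsz).2.2.2.2.2.2.2.2 s hsz x]
    congr 1
    push_cast
    ring
  have e4 : ((ms (cv (cr (hk s)) g) : ℝ) : ℂ) =
      conj (∫ x, conj (g x) * cv (cr (hk (2 * s))) g x) := by
    rw [TEL_ms_eq, ← integral_conj]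
    simp only [TEL_conj_cv, map_mul, Complex.conj_conj]
    rw [e1, e2]
    refine integral_congr_ae (Eventually.of_forall fun x => ?_)
    simp only
    rw [(hass _ hk1).2 x, e3]
  have e5 := congrArg Complex.re e4
  simpa [TEL_a] using e5

theorem TEL_l1 (h2 : St_GK) {s : ℝ} (hs : 0 < s) : ∫ y : E N, ‖cr (hk s) y‖ = 1 := by
  obtain ⟨-, h0, hi, -⟩ := (h2 N).2.1 s hs
  rw [← hi]
  refine integral_congr_ae (Eventually.of_forall fun y => ?_)
  simp [cr, abs_of_nonneg (h0 y)]

theorem TEL_le (h1 : St_CONV) (h2 : St_GK) {s : ℝ} (hs : 0 < s) {g : E N → ℂ}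
    (hg : MemLp g 2 volume) : TEL_a g (2 * s) ≤ ms g := by
  rw [← TEL_semi h1 h2 hs hg]
  have h := (((h1 N 2 one_le_two).2 _ (TEL_ker h2 hs)).2 g (mem_two.2 hg)).2.2.2.1
  rw [TEL_l1 h2 hs, one_mul] at h
  rw [← nr_two_sq hg.1, ← nr_two_sq (TEL_mem h1 h2 hs hg).1]
  exact pow_le_pow_left₀ (nr_nonneg _ _) h 2

theorem TEL_shift (h1 : St_CONV) {g : E N → ℂ} (hg : MemLp g 2 volume) (y : E N) :
    MemLp (fun x => g (x - y)) 2 volume ∧ ms (fun x => g (x - y)) = ms g := by
  refine ⟨?_, ?_⟩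
  · have h := (((h1 N 2 one_le_two).1 g (mem_two.2 hg)).1 (-y)).1
    simpa [sub_eq_add_neg] using mem_two.1 h
  · exact integral_sub_right_eq_self (fun x => ‖g x‖ ^ 2) y

theorem TEL_low (h1 : St_CONV) (h2 : St_GK) {s K : ℝ} (hs : 0 < s) {g : E N → ℂ}
    (hg : TL g K) : ms g - TEL_a g s ≤ N * K * s := by
  obtain ⟨hg, hK⟩ := hg
  obtain ⟨-, h0, hi, hi2, hm2⟩ := (h2 N).2.1 s hs
  have hk1 := TEL_ker (N := N) h2 hs
  have hki : Integrable (hk s : E N → ℝ) := by simpa [cr] using hk1.1.re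
  have hb : ∀ y, ∫ x, ‖g x‖ * ‖g (x - y)‖ ≤ ms g := by
    intro y
    have h := (integral_norm_mul_le hg (TEL_shift h1 hg y).1).2
    rwa [(TEL_shift h1 hg y).2, Real.mul_self_sqrt (ms_nonneg g)] at h
  have hmeas : AEStronglyMeasurable
      (fun p : E N × E N => cr (hk s) p.2 * (conj (g p.1) * g (p.1 - p.2)))
      ((volume : Measure (E N)).prod volume) :=
    hk1.1.1.comp_snd.mul ((TEL_conj_mem hg).1.comp_fst.mul
      (hg.1.comp_quasiMeasurePreserving (quasiMeasurePreserving_sub_of_right_invariant _ _)))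
  have hint : Integrable
      (fun p : E N × E N => cr (hk s) p.2 * (conj (g p.1) * g (p.1 - p.2)))
      ((volume : Measure (E N)).prod volume) := by
    rw [integrable_prod_iff' hmeas]
    refine ⟨Eventually.of_forall fun y =>
      (TEL_int hg (TEL_shift h1 hg y).1).const_mul (cr (hk s) y), ?_⟩
    refine (hki.mul_const (ms g)).mono' hmeas.norm.prod_swap.integral_prod_right'
      (Eventually.of_forall fun y => ?_)
    rw [Real.norm_eq_abs, abs_of_nonneg (integral_nonneg fun _ => norm_nonneg _)]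
    simp only [norm_mul, Complex.norm_conj]
    rw [integral_const_mul]
    have : ‖cr (hk s) y‖ = hk s y := by simp [cr, abs_of_nonneg (h0 y)]
    rw [this]
    exact mul_le_mul_of_nonneg_left (hb y) (h0 y)
  have e1 : ∫ x, conj (g x) * cv (cr (hk s)) g x =
      ∫ y, cr (hk s) y * ∫ x, conj (g x) * g (x - y) := by
    have e2 : ∀ x, conj (g x) * cv (cr (hk s)) g x =
        ∫ y, cr (hk s) y * (conj (g x) * g (x - y)) := by
      intro x
      unfold cv
      rw [← integral_sub_left_eq_self (fun y => cr (hk s) (x - y) * g y) volume x,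
        ← integral_const_mul]
      refine integral_congr_ae (Eventually.of_forall fun y => ?_)
      simp only [sub_sub_cancel]
      ring
    simp only [e2]
    rw [integral_integral_swap hint]
    simp only [integral_const_mul]
  have hint2 : Integrable fun y => cr (hk s) y * ∫ x, conj (g x) * g (x - y) := by
    have h := hint.integral_prod_right
    simpa only [integral_const_mul] using h
  have e3 : TEL_a g s = ∫ y, hk s y * (∫ x, conj (g x) * g (x - y)).re := by
    rw [TEL_a, e1]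
    have h := integral_re hint2
    simp only [RCLike.re_to_complex] at h
    rw [← h]
    simp [cr]
  have hint3 : Integrable fun y => hk s y * (∫ x, conj (g x) * g (x - y)).re := by
    simpa [cr] using hint2.re
  have e4 : ∀ y, ms g - (∫ x, conj (g x) * g (x - y)).re ≤ ‖y‖ ^ 2 * K / 2 := by
    intro y
    have h := hK (-y)
    have h' := TEL_ms_sub hg (TEL_shift h1 hg y).1
    rw [(TEL_shift h1 hg y).2] at h'
    have h3 : ms (sh (-y) g) = ms fun x => g x - g (x - y) := by
      unfold ms sh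
      refine integral_congr_ae (Eventually.of_forall fun x => ?_)
      simp only
      rw [← sub_eq_add_neg, norm_sub_rev]
    rw [h3, h', norm_neg] at h
    linarith
  have e5 : ms g - TEL_a g s =
      ∫ y, (hk s y * ms g - hk s y * (∫ x, conj (g x) * g (x - y)).re) := by
    rw [integral_sub (hki.mul_const _) hint3, integral_mul_const, hi, one_mul, e3]
  rw [e5]
  calc _ ≤ ∫ y : E N, hk s y * ‖y‖ ^ 2 * (K / 2) := by
        refine integral_mono ((hki.mul_const _).sub hint3) (hi2.mul_const _) fun y => ?_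
        have := mul_le_mul_of_nonneg_left (e4 y) (h0 y)
        simp only
        linarith
    _ = N * K * s := by
        rw [integral_mul_const, hm2]
        ring

theorem TEL (h1 : St_CONV) (h2 : St_GK) : St_TEL := by
  intro N g K s0 n hg hs0
  have key : ∀ s : ℝ, 0 < s → ms (fun x => g x - cv (cr (hk s)) g x) / s =
      2 * ((ms g - TEL_a g s) / s) - 2 * ((ms g - TEL_a g (2 * s)) / (2 * s)) := by
    intro s hs
    rw [TEL_ms_sub hg.1 (TEL_mem h1 h2 hs hg.1), TEL_semi h1 h2 hs hg.1]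
    unfold TEL_a
    field_simp
    ring
  have tel : ∀ m : ℕ,
      ∑ k ∈ Finset.range m, ms (fun x => g x - cv (cr (hk (2 ^ k * s0))) g x) / (2 ^ k * s0) =
      2 * ((ms g - TEL_a g s0) / s0) - 2 * ((ms g - TEL_a g (2 ^ m * s0)) / (2 ^ m * s0)) := by
    intro m
    induction m with
    | zero => simp
    | succ m ih =>
      rw [Finset.sum_range_succ, ih, key _ (by positivity)]
      have e : (2 : ℝ) ^ (m + 1) * s0 = 2 * (2 ^ m * s0) := by ring
      rw [e]
      ring
  rw [tel n]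
  have h3 : (ms g - TEL_a g s0) / s0 ≤ N * K := by
    rw [div_le_iff₀ hs0]
    exact TEL_low h1 h2 hs0 hg
  have h4 : 0 ≤ (ms g - TEL_a g (2 ^ n * s0)) / (2 ^ n * s0) := by
    have h := TEL_le h1 h2 (s := 2 ^ n * s0 / 2) (by positivity) hg.1
    have e : 2 * (2 ^ n * s0 / 2) = 2 ^ n * s0 := by ring
    rw [e] at h
    exact div_nonneg (by linarith) (by positivity)
  linarith

theorem TEL_point {a : ℝ} (ha : 0 ≤ a) (n : ℕ) (h : ℕ → ℝ) (h0 : ∀ k, 0 ≤ h k) (z : ℂ)
    (w : ℕ → ℂ) (hw : ∀ k, ‖w k‖ ≤ h k / 2) :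
    (if ‖z‖ < h 0 then ‖z‖ ^ (a + 2) else 0) ≤
      ∑ k ∈ Finset.range n, 4 * h k ^ a * ‖z - w (k + 1)‖ ^ 2 + h n ^ a * ‖z‖ ^ 2 := by
  have hp : ∀ k, 0 ≤ h k ^ a := fun k => Real.rpow_nonneg (h0 k) a
  have e : ‖z‖ ^ (a + 2) = ‖z‖ ^ a * ‖z‖ ^ 2 := by
    rw [Real.rpow_add' (norm_nonneg z) (by linarith), Real.rpow_two]
  have hz : 0 ≤ ‖z‖ ^ a := Real.rpow_nonneg (norm_nonneg z) a
  split_ifs with hlt
  swap
  · exact add_nonneg (Finset.sum_nonneg fun k _ => by have := hp k; positivity)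
      (by have := hp n; positivity)
  have main : ∀ m : ℕ, ‖z‖ < h m ∨
      ‖z‖ ^ (a + 2) ≤ ∑ k ∈ Finset.range m, 4 * h k ^ a * ‖z - w (k + 1)‖ ^ 2 := by
    intro m
    induction m with
    | zero => exact Or.inl hlt
    | succ m ih =>
      rw [Finset.sum_range_succ]
      have hs : 0 ≤ ∑ k ∈ Finset.range m, 4 * h k ^ a * ‖z - w (k + 1)‖ ^ 2 :=
        Finset.sum_nonneg fun k _ => by have := hp k; positivity
      have ht : 0 ≤ 4 * h m ^ a * ‖z - w (m + 1)‖ ^ 2 := by have := hp m; positivity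
      rcases ih with ih | ih
      · by_cases hc : ‖z‖ < h (m + 1)
        · exact Or.inl hc
        · right
          have h1 : ‖z‖ ≤ 2 * ‖z - w (m + 1)‖ := by
            have := norm_sub_norm_le z (w (m + 1))
            have := hw (m + 1)
            linarith [not_lt.1 hc]
          have h2 : ‖z‖ ^ 2 ≤ 4 * ‖z - w (m + 1)‖ ^ 2 := by
            have := pow_le_pow_left₀ (norm_nonneg z) h1 2
            linarith
          have h3 : ‖z‖ ^ a ≤ h m ^ a := Real.rpow_le_rpow (norm_nonneg z) ih.le ha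
          have h4 := mul_le_mul h3 h2 (by positivity) (hp m)
          rw [e]
          linarith
      · right
        linarith
  have hs : 0 ≤ ∑ k ∈ Finset.range n, 4 * h k ^ a * ‖z - w (k + 1)‖ ^ 2 :=
    Finset.sum_nonneg fun k _ => by have := hp k; positivity
  rcases main n with hm | hm
  · have h3 : ‖z‖ ^ a ≤ h n ^ a := Real.rpow_le_rpow (norm_nonneg z) hm.le ha
    have h4 := mul_le_mul_of_nonneg_right h3 (sq_nonneg ‖z‖)
    rw [e]
    linarith
  · have : 0 ≤ h n ^ a * ‖z‖ ^ 2 := by have := hp n; positivity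
    linarith

theorem LEV (h1 : St_TEL) (h2 : St_CONV) (h3 : St_GK) : St_LEV := by
  intro N g K s0 a Λ n h A hg hs0 ha hΛ _hK hA h0 hH hl
  have hp : ∀ k, 0 ≤ h k ^ a := fun k => Real.rpow_nonneg (h0 k) a
  have hi : ∀ k : ℕ, Integrable fun x => ‖g x - cv (cr (hk (2 ^ k * s0))) g x‖ ^ 2 := fun k =>
    integrable_ms (hg.1.sub (TEL_mem h2 h3 (by positivity) hg.1))
  have hi1 : Integrable fun x => ∑ k ∈ Finset.range n,
      4 * h k ^ a * ‖g x - cv (cr (hk (2 ^ (k + 1) * s0))) g x‖ ^ 2 :=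
    integrable_finsetSum _ fun k _ => (hi (k + 1)).const_mul _
  have hi2 : Integrable fun x => h n ^ a * ‖g x‖ ^ 2 := (integrable_ms hg.1).const_mul _
  have hnn : ∀ x, 0 ≤ ∑ k ∈ Finset.range n,
      4 * h k ^ a * ‖g x - cv (cr (hk (2 ^ (k + 1) * s0))) g x‖ ^ 2 + h n ^ a * ‖g x‖ ^ 2 :=
    fun x => add_nonneg (Finset.sum_nonneg fun k _ => by have := hp k; positivity)
      (by have := hp n; positivity)
  calc _ ≤ ∫⁻ x in A, ENNReal.ofReal (∑ k ∈ Finset.range n,
        4 * h k ^ a * ‖g x - cv (cr (hk (2 ^ (k + 1) * s0))) g x‖ ^ 2 + h n ^ a * ‖g x‖ ^ 2) :=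
        setLIntegral_mono' hA fun x hx => ENNReal.ofReal_le_ofReal
          (TEL_point ha n h h0 (g x) (fun k => cv (cr (hk (2 ^ k * s0))) g x) fun k => hH k x hx)
    _ ≤ ∫⁻ x, ENNReal.ofReal (∑ k ∈ Finset.range n,
        4 * h k ^ a * ‖g x - cv (cr (hk (2 ^ (k + 1) * s0))) g x‖ ^ 2 + h n ^ a * ‖g x‖ ^ 2) :=
        setLIntegral_le_lintegral _ _
    _ = ENNReal.ofReal (∫ x, (∑ k ∈ Finset.range n,
        4 * h k ^ a * ‖g x - cv (cr (hk (2 ^ (k + 1) * s0))) g x‖ ^ 2 + h n ^ a * ‖g x‖ ^ 2)) :=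
        (ofReal_integral_eq_lintegral_ofReal (hi1.add hi2) (Eventually.of_forall hnn)).symm
    _ ≤ _ := by
        refine ENNReal.ofReal_le_ofReal ?_
        rw [integral_add hi1 hi2, integral_finsetSum _ fun k _ => (hi (k + 1)).const_mul _]
        simp only [integral_const_mul]
        have ht := h1 N g K (2 * s0) n hg (by positivity)
        have hs : ∑ k ∈ Finset.range n,
            4 * h k ^ a * ∫ x, ‖g x - cv (cr (hk (2 ^ (k + 1) * s0))) g x‖ ^ 2 ≤
            4 * Λ * ∑ k ∈ Finset.range n,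
              ms (fun x => g x - cv (cr (hk (2 ^ k * (2 * s0)))) g x) / (2 ^ k * (2 * s0)) := by
          rw [Finset.mul_sum]
          refine Finset.sum_le_sum fun k hk' => ?_
          have e : (2 : ℝ) ^ k * (2 * s0) = 2 ^ (k + 1) * s0 := by ring
          rw [e]
          have hl' := hl k (Finset.mem_range.1 hk')
          have hm := ms_nonneg fun x => g x - cv (cr (hk (2 ^ (k + 1) * s0))) g x
          have hpos : (0 : ℝ) < 2 ^ (k + 1) * s0 := by positivity
          have h5 : h k ^ a ≤ Λ / (2 ^ (k + 1) * s0) := (le_div_iff₀ hpos).2 hl'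
          have h6 := mul_le_mul_of_nonneg_right h5 hm
          change 4 * h k ^ a * ms (fun x => g x - cv (cr (hk (2 ^ (k + 1) * s0))) g x) ≤ _
          calc _ ≤ 4 * (Λ / (2 ^ (k + 1) * s0) *
                ms fun x => g x - cv (cr (hk (2 ^ (k + 1) * s0))) g x) := by linarith
            _ = _ := by ring
        have h7 := mul_le_mul_of_nonneg_left ht (by positivity : 0 ≤ 4 * Λ)
        change _ + h n ^ a * ms g ≤ _
        linarith

end

end Pool.Agent.Lib.MP_13801a_an.ND
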