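import Mathlib
import Pool.Agent.Lib.MP_13801a_an.ND.StsA

/-!
The translation estimate of Sobolev functions and the gradient of the density.
-/

open MeasureTheory Set Filter
open scoped ContDiff Topology ComplexConjugate Convolution

namespace Pool.Agent.Lib.MP_13801a_an.ND

variable {N : ℕ}

theorem TL_diff {k : E N → ℝ} (hk : Test k) {g : E N → ℂ} (hg : MemLp g 2 volume) :
    Differentiable ℝ (cv (cr k) g) := by
  have e : cv (cr k) g =
      g ⋆[(ContinuousLinearMap.lsmul ℝ ℝ : ℝ →L[ℝ] ℂ →L[ℝ] ℂ).flip, volume] k := by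
    funext x
    simp [cv, cr, convolution_def]
  rw [e]
  intro x
  exact (hk.2.hasFDerivAt_convolution_right _ (hg.locallyIntegrable one_le_two)
    (hk.1.of_le (by simp)) x).differentiableAt

theorem TL_sum_ee (h : E N) : h = ∑ i, h i • (ee i : E N) := by
  ext j
  simp [ee, Finset.sum_apply, Pi.single_apply]

theorem TL_line {f : E N → ℂ} {F : Fin N → E N → ℂ} (hf : Differentiable ℝ f)
    (hF : ∀ i x, HasLineDerivAt ℝ f (F i x) x (ee i)) (x h : E N) (s : ℝ) :
    HasDerivAt (fun s : ℝ => f (x + s • h)) (∑ i, (h i : ℂ) * F i (x + s • h)) s := by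
  have h1 : ∀ i y, fderiv ℝ f y (ee i) = F i y := fun i y =>
    ((hf y).hasFDerivAt.hasLineDerivAt (ee i)).unique (hF i y)
  have h2 : ∀ y, fderiv ℝ f y h = ∑ i, (h i : ℂ) * F i y := by
    intro y
    conv_lhs => rw [TL_sum_ee h]
    rw [map_sum]
    refine Finset.sum_congr rfl fun i _ => ?_
    rw [map_smul, h1, Complex.real_smul]
  have h3 : HasDerivAt (fun s : ℝ => x + s • h) h s := by
    simpa using ((hasDerivAt_id s).smul_const h).const_add x
  have h4 := (hf (x + s • h)).hasFDerivAt.comp_hasDerivAt s h3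
  rw [h2] at h4
  exact h4

theorem TL_jensen {D : ℝ → ℂ} (hD : Continuous D) :
    ‖∫ s in (0 : ℝ)..1, D s‖ ^ 2 ≤ ∫ s in (0 : ℝ)..1, ‖D s‖ ^ 2 := by
  set A := ∫ s in (0 : ℝ)..1, ‖D s‖ with hA
  have h1 : ‖∫ s in (0 : ℝ)..1, D s‖ ≤ A := intervalIntegral.norm_integral_le_integral_norm zero_le_one
  have c1 : Continuous fun s => ‖D s‖ := hD.norm
  have c2 : Continuous fun s => ‖D s‖ ^ 2 := c1.pow 2
  have h2 : ∫ s in (0 : ℝ)..1, 2 * A * ‖D s‖ ≤ ∫ s in (0 : ℝ)..1, (A ^ 2 + ‖D s‖ ^ 2) := by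
    refine intervalIntegral.integral_mono_on zero_le_one
      ((c1.const_mul _).intervalIntegrable _ _) ((c2.const_add _).intervalIntegrable _ _)
      fun s _ => ?_
    nlinarith [sq_nonneg (A - ‖D s‖)]
  rw [intervalIntegral.integral_const_mul, intervalIntegral.integral_add
    (continuous_const.intervalIntegrable _ _) (c2.intervalIntegrable _ _), ← hA] at h2
  simp only [intervalIntegral.integral_const, sub_zero, smul_eq_mul, one_mul] at h2
  have h3 : ‖∫ s in (0 : ℝ)..1, D s‖ ^ 2 ≤ A ^ 2 := pow_le_pow_left₀ (norm_nonneg _) h1 2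
  linarith

theorem TL_smooth {f D : E N → ℂ} (h : E N) (hD : Continuous D) (hm : MemLp D 2 volume)
    (hd : ∀ (x : E N) (s : ℝ), HasDerivAt (fun s : ℝ => f (x + s • h)) (D (x + s • h)) s) :
    ms (sh h f) ≤ ms D := by
  have hc : ∀ x : E N, Continuous fun s : ℝ => D (x + s • h) := fun x => by fun_prop
  have h1 : ∀ x, ‖sh h f x‖ ^ 2 ≤ ∫ s in Ioc (0 : ℝ) 1, ‖D (x + s • h)‖ ^ 2 := by
    intro x
    have e := intervalIntegral.integral_eq_sub_of_hasDerivAt (a := 0) (b := 1)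
      (fun s _ => hd x s) ((hc x).intervalIntegrable _ _)
    have e2 : sh h f x = ∫ s in (0 : ℝ)..1, D (x + s • h) := by
      rw [e]
      simp [sh]
    rw [e2, ← intervalIntegral.integral_of_le zero_le_one]
    exact TL_jensen (hc x)
  have hi := integrable_ms hm
  have h2 : ∀ s : ℝ, ∫ x, ‖D (x + s • h)‖ ^ 2 = ms D := fun s =>
    integral_add_right_eq_self (fun x => ‖D x‖ ^ 2) (s • h)
  have h3 : Integrable (Function.uncurry fun (x : E N) (s : ℝ) => ‖D (x + s • h)‖ ^ 2)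
      (volume.prod (volume.restrict (Ioc (0 : ℝ) 1))) := by
    have hc2 : Continuous (Function.uncurry fun (x : E N) (s : ℝ) => ‖D (x + s • h)‖ ^ 2) := by
      unfold Function.uncurry
      fun_prop
    rw [integrable_prod_iff' hc2.aestronglyMeasurable]
    refine ⟨Eventually.of_forall fun s => hi.comp_add_right (s • h), ?_⟩
    have e : (fun s : ℝ => ∫ x : E N,
        ‖Function.uncurry (fun (x : E N) (s : ℝ) => ‖D (x + s • h)‖ ^ 2) (x, s)‖) =
        fun _ => ms D := by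
      funext s
      rw [← h2 s]
      simp
    rw [e]
    exact integrable_const _
  calc ms (sh h f) ≤ ∫ x, ∫ s in Ioc (0 : ℝ) 1, ‖D (x + s • h)‖ ^ 2 :=
        integral_mono_of_nonneg (Eventually.of_forall fun x => by positivity)
          h3.integral_prod_left (Eventually.of_forall h1)
    _ = ∫ s in Ioc (0 : ℝ) 1, ∫ x, ‖D (x + s • h)‖ ^ 2 := integral_integral_swap h3
    _ = ms D := by simp [h2]

theorem TL_dir {F : Fin N → E N → ℂ} (hF : ∀ i, MemLp (F i) 2 volume) (h : E N) :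
    ms (fun x => ∑ i, (h i : ℂ) * F i x) ≤ ‖h‖ ^ 2 * kin F := by
  have h1 : ∀ x, ‖∑ i, (h i : ℂ) * F i x‖ ^ 2 ≤ ‖h‖ ^ 2 * ∑ i, ‖F i x‖ ^ 2 := by
    intro x
    have h2 : ‖∑ i, (h i : ℂ) * F i x‖ ≤ ∑ i, |h i| * ‖F i x‖ :=
      (norm_sum_le _ _).trans (le_of_eq (by simp))
    refine (pow_le_pow_left₀ (norm_nonneg _) h2 2).trans ?_
    have h3 := Finset.sum_mul_sq_le_sq_mul_sq Finset.univ (fun i => |h i|) fun i => ‖F i x‖
    simpa [EuclideanSpace.real_norm_sq_eq] using h3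
  have h4 : Integrable fun x => ∑ i, ‖F i x‖ ^ 2 :=
    integrable_finsetSum _ fun i _ => integrable_ms (hF i)
  calc ms (fun x => ∑ i, (h i : ℂ) * F i x) ≤ ∫ x, ‖h‖ ^ 2 * ∑ i, ‖F i x‖ ^ 2 :=
        integral_mono_of_nonneg (Eventually.of_forall fun x => by positivity)
          (h4.const_mul _) (Eventually.of_forall h1)
    _ = ‖h‖ ^ 2 * kin F := by
        rw [integral_const_mul, integral_finsetSum _ fun i _ => integrable_ms (hF i)]
        rfl

/-- Facts on the mollification of a square integrable function. -/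
theorem TL_mol (h1 : St_CONV) (h2 : St_MOL) {r : ℝ} (hr : 0 < r) {g : E N → ℂ}
    (hg : MemLp g 2 volume) :
    Continuous (cv (cr (mol r)) g) ∧ MemLp (cv (cr (mol r)) g) 2 volume ∧
      ms (cv (cr (mol r)) g) ≤ ms g := by
  obtain ⟨a1, -, a3, -⟩ := h2 N
  obtain ⟨b1, b2, b3, -⟩ := a1 r hr
  obtain ⟨-, c⟩ := (h1 N 2 one_le_two).2 _ (a3 _ b1).1
  obtain ⟨-, c2, c3, c4, -⟩ := c g (mem_two.2 hg)
  have e : ∫ y : E N, ‖cr (mol r) y‖ = 1 := by
    rw [← b3]
    refine integral_congr_ae (Eventually.of_forall fun y => ?_)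
    simp [cr, abs_of_nonneg (b2 y)]
  rw [e, one_mul] at c4
  refine ⟨c2, mem_two.1 c3, ?_⟩
  rw [← nr_two_sq c3.1, ← nr_two_sq hg.1]
  exact pow_le_pow_left₀ (nr_nonneg _ _) c4 2

theorem TL_mol_line (h2 : St_MOL) {r : ℝ} (hr : 0 < r) {g : E N → ℂ} {dg : Fin N → E N → ℂ}
    (hg : H1 g dg) (i : Fin N) (x : E N) :
    HasLineDerivAt ℝ (cv (cr (mol r)) g) (cv (cr (mol r)) (dg i) x) x (ee i) := by
  obtain ⟨a1, -, a3, -⟩ := h2 N
  obtain ⟨-, c1, c2⟩ := a3 _ (a1 r hr).1
  rw [← c2 g dg hg i x]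
  exact c1 2 g one_le_two (mem_two.2 hg.mem0) i x

theorem TL_mol_est (h1 : St_CONV) (h2 : St_MOL) {r : ℝ} (hr : 0 < r) {g : E N → ℂ}
    {dg : Fin N → E N → ℂ} (hg : H1 g dg) (h : E N) :
    ms (sh h (cv (cr (mol r)) g)) ≤ ‖h‖ ^ 2 * kin dg := by
  have a := fun i => TL_mol h1 h2 hr (hg.mem1 i)
  have hd := TL_diff ((h2 N).1 r hr).1 hg.mem0
  have b1 : ms (sh h (cv (cr (mol r)) g)) ≤
      ms fun x => ∑ i, (h i : ℂ) * cv (cr (mol r)) (dg i) x :=
    TL_smooth h (continuous_finsetSum _ fun i _ => (a i).1.const_mul _)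
      (memLp_finsetSum _ fun i _ => (a i).2.1.const_mul _)
      fun x s => TL_line hd (TL_mol_line h2 hr hg) x h s
  have b2 := TL_dir (fun i => (a i).2.1) h
  have b3 : kin (fun i => cv (cr (mol r)) (dg i)) ≤ kin dg :=
    Finset.sum_le_sum fun i _ => (a i).2.2
  exact b1.trans (b2.trans (mul_le_mul_of_nonneg_left b3 (sq_nonneg _)))

theorem TLE (h1 : St_CONV) (h2 : St_MOL) : St_TL := by
  intro N g dg hg
  refine ⟨hg.mem0, fun h => ?_⟩
  have hm := mem_two.2 hg.mem0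
  have tr := (h1 N 2 one_le_two).1
  have hsh : ∀ f : E N → ℂ, Mem 2 f → Mem 2 (sh h f) := fun f hf => ((tr f hf).1 h).1.sub hf
  have key : ∀ r : ℝ, 0 < r → nr 2 (sh h g) ≤
      √(‖h‖ ^ 2 * kin dg) + 2 * nr 2 fun x => cv (cr (mol r)) g x - g x := by
    intro r hr
    have hf := mem_two.2 (TL_mol h1 h2 hr hg.mem0).2.1
    have hd := hf.sub hm
    have e : sh h g = fun x => sh h (cv (cr (mol r)) g) x -
        sh h (fun y => cv (cr (mol r)) g y - g y) x := by
      funext x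
      simp only [sh]
      ring
    have b1 := nr_sub_le one_le_two (g' := sh h fun y => cv (cr (mol r)) g y - g y) (hsh _ hf)
    have b2 : nr 2 (sh h (cv (cr (mol r)) g)) ≤ √(‖h‖ ^ 2 * kin dg) := by
      rw [nr_two (hsh _ hf).1]
      exact Real.sqrt_le_sqrt (TL_mol_est h1 h2 hr hg h)
    have b3 : nr 2 (sh h fun y => cv (cr (mol r)) g y - g y) ≤
        2 * nr 2 fun x => cv (cr (mol r)) g x - g x := by
      have b4 := nr_sub_le one_le_two (g' := fun y => cv (cr (mol r)) g y - g y) ((tr _ hd).1 h).1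
      rw [((tr _ hd).1 h).2] at b4
      rw [two_mul]
      exact b4
    rw [← e] at b1
    linarith
  have lim := ((h2 N).2.2.2 2 g one_le_two hm).const_mul 2 |>.const_add √(‖h‖ ^ 2 * kin dg)
  have b5 : nr 2 (sh h g) ≤ √(‖h‖ ^ 2 * kin dg) + 2 * 0 :=
    ge_of_tendsto lim (eventually_mem_nhdsWithin.mono fun r hr => key r hr)
  rw [mul_zero, add_zero, nr_two (hsh g hm).1] at b5
  exact (Real.sqrt_le_sqrt_iff (mul_nonneg (sq_nonneg _) (kin_nonneg _))).1 b5

theorem TL_int {w : E N → ℝ} {B : ℝ} (hw : Measurable w) (hB : ∀ x, |w x| ≤ B) {a b : E N → ℂ}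
    (ha : MemLp a 2 volume) (hb : MemLp b 2 volume) :
    (Integrable fun x => w x * (conj (a x) * b x).re) ∧
      |∫ x, w x * (conj (a x) * b x).re| ≤ B * (nr 2 a * nr 2 b) := by
  obtain ⟨c1, c2⟩ := holder Real.HolderConjugate.two_two (mem_two.2 ha) (mem_two.2 hb)
  have hB0 : 0 ≤ B := (abs_nonneg _).trans (hB 0)
  have hp : ∀ x, ‖w x * (conj (a x) * b x).re‖ ≤ B * (‖a x‖ * ‖b x‖) := by
    intro x
    rw [Real.norm_eq_abs, abs_mul]
    refine mul_le_mul (hB x) ((Complex.abs_re_le_norm _).trans (le_of_eq ?_)) (abs_nonneg _) hB0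
    simp
  have hm : AEStronglyMeasurable (fun x => w x * (conj (a x) * b x).re) volume :=
    hw.aestronglyMeasurable.mul (Complex.continuous_re.comp_aestronglyMeasurable
      ((Complex.continuous_conj.comp_aestronglyMeasurable ha.1).mul hb.1))
  refine ⟨(c1.const_mul B).mono' hm (Eventually.of_forall hp), ?_⟩
  calc |∫ x, w x * (conj (a x) * b x).re| ≤ ∫ x, B * (‖a x‖ * ‖b x‖) :=
        norm_integral_le_of_norm_le (c1.const_mul B) (Eventually.of_forall hp)
    _ = B * ∫ x, ‖a x‖ * ‖b x‖ := integral_const_mul _ _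
    _ ≤ B * (nr 2 a * nr 2 b) := mul_le_mul_of_nonneg_left c2 hB0

theorem TL_lim (h1 : St_CONV) (h2 : St_MOL) {w : E N → ℝ} {B : ℝ} (hw : Measurable w)
    (hB : ∀ x, |w x| ≤ B) {a b : E N → ℂ} (ha : MemLp a 2 volume) (hb : MemLp b 2 volume) :
    Tendsto (fun r => ∫ x, w x * (conj (cv (cr (mol r)) a x) * cv (cr (mol r)) b x).re) (𝓝[>] 0)
      (𝓝 (∫ x, w x * (conj (a x) * b x).re)) := by
  have hB0 : 0 ≤ B := (abs_nonneg _).trans (hB 0)
  have la := (h2 N).2.2.2 2 a one_le_two (mem_two.2 ha)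
  have lb := (h2 N).2.2.2 2 b one_le_two (mem_two.2 hb)
  have l := ((la.mul_const (nr 2 b)).const_mul B).add ((lb.const_mul (nr 2 a)).const_mul B)
  simp only [zero_mul, mul_zero, add_zero] at l
  rw [tendsto_iff_norm_sub_tendsto_zero]
  refine squeeze_zero' (Eventually.of_forall fun r => norm_nonneg _)
    (eventually_mem_nhdsWithin.mono fun r hr => ?_) l
  obtain ⟨-, a2, -⟩ := TL_mol h1 h2 hr ha
  obtain ⟨-, b2, b3⟩ := TL_mol h1 h2 hr hb
  have b4 : nr 2 (cv (cr (mol r)) b) ≤ nr 2 b := by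
    rw [nr_two b2.1, nr_two hb.1]
    exact Real.sqrt_le_sqrt b3
  obtain ⟨i1, -⟩ := TL_int hw hB a2 b2
  obtain ⟨i2, -⟩ := TL_int hw hB ha hb
  obtain ⟨i3, j3⟩ := TL_int hw hB (a := fun x => cv (cr (mol r)) a x - a x) (a2.sub ha) b2
  obtain ⟨i4, j4⟩ := TL_int hw hB (b := fun x => cv (cr (mol r)) b x - b x) ha (b2.sub hb)
  have e : (∫ x, w x * (conj (cv (cr (mol r)) a x) * cv (cr (mol r)) b x).re) -
      ∫ x, w x * (conj (a x) * b x).re =
      (∫ x, w x * (conj (cv (cr (mol r)) a x - a x) * cv (cr (mol r)) b x).re) +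
        ∫ x, w x * (conj (a x) * (cv (cr (mol r)) b x - b x)).re := by
    rw [← integral_sub i1 i2, ← integral_add i3 i4]
    refine integral_congr_ae (Eventually.of_forall fun x => ?_)
    simp only [map_sub, sub_mul, mul_sub, Complex.sub_re]
    ring
  rw [e, Real.norm_eq_abs]
  refine (abs_add_le _ _).trans (add_le_add (j3.trans ?_) j4)
  exact mul_le_mul_of_nonneg_left (mul_le_mul_of_nonneg_left b4 (nr_nonneg _ _)) hB0

theorem TL_sq (z : ℂ) : (conj z * z).re = ‖z‖ ^ 2 := by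
  rw [Complex.conj_mul', ← Complex.ofReal_pow, Complex.ofReal_re]

theorem TL_ibp {f F : E N → ℂ} {Ψ : E N → ℝ} {Ψ1 : Fin N → E N → ℝ} (hΨ : BW Ψ Ψ1) (i : Fin N)
    (hf : MemLp f 2 volume) (hF : MemLp F 2 volume)
    (hd : ∀ x, HasLineDerivAt ℝ f (F x) x (ee i)) :
    ∫ x, Ψ1 i x * (conj (f x) * f x).re = -(2 * ∫ x, Ψ x * (conj (f x) * F x).re) := by
  obtain ⟨B, hB⟩ := hΨ.bd
  have i1 := (TL_int hΨ.cont.measurable (fun x => (hB x).1) hf hF).1
  have i2 := (TL_int (hΨ.meas i) (fun x => (hB x).2 i) hf hf).1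
  have i3 := (TL_int hΨ.cont.measurable (fun x => (hB x).1) hf hf).1
  have hd2 : ∀ x, HasLineDerivAt ℝ (fun y => (conj (f y) * f y).re) (2 * (conj (f x) * F x).re) x
      (ee i) := by
    intro x
    have h := (hd x : HasDerivAt (fun t : ℝ => f (x + t • ee i)) (F x) 0).norm_sq
    have e : (fun y => (conj (f y) * f y).re) = fun y => ‖f y‖ ^ 2 := funext fun y => TL_sq _
    have e2 : 2 * (conj (f x) * F x).re = 2 * inner ℝ (f (x + (0 : ℝ) • ee i)) (F x) := by
      simp [Complex.inner, mul_comm]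
    rw [e, e2]
    exact h
  have h := integral_bilinear_hasLineDerivAt_right_eq_neg_left_of_integrable (μ := volume)
    (B := ContinuousLinearMap.mul ℝ ℝ) (f := fun y => (conj (f y) * f y).re)
    (f' := fun x => 2 * (conj (f x) * F x).re) (g := Ψ) (g' := Ψ1 i) (v := ee i)
    ((i1.const_mul 2).congr (Eventually.of_forall fun x => by
      simp only [ContinuousLinearMap.mul_apply']
      ring))
    (i2.congr (Eventually.of_forall fun x => by
      simp only [ContinuousLinearMap.mul_apply']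
      ring))
    (i3.congr (Eventually.of_forall fun x => by
      simp only [ContinuousLinearMap.mul_apply']
      ring))
    (fun x _ => hd2 x) fun x _ => hΨ.der i x
  simp only [ContinuousLinearMap.mul_apply'] at h
  have e1 : ∫ x, Ψ1 i x * (conj (f x) * f x).re = ∫ x, (conj (f x) * f x).re * Ψ1 i x :=
    integral_congr_ae (Eventually.of_forall fun x => mul_comm _ _)
  have e2 : 2 * ∫ x, Ψ x * (conj (f x) * F x).re = ∫ x, 2 * (conj (f x) * F x).re * Ψ x := by
    rw [← integral_const_mul]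
    refine integral_congr_ae (Eventually.of_forall fun x => ?_)
    ring
  rw [e1, e2]
  exact h

theorem GR (h1 : St_CONV) (h2 : St_MOL) : St_GR := by
  intro N g dg hg Ψ Ψ1 hΨ i
  obtain ⟨B, hB⟩ := hΨ.bd
  have l1 := TL_lim h1 h2 (hΨ.meas i) (fun x => (hB x).2 i) hg.mem0 hg.mem0
  have l2 := ((TL_lim h1 h2 hΨ.cont.measurable (fun x => (hB x).1) hg.mem0
    (hg.mem1 i)).const_mul 2).neg
  have e := tendsto_nhds_unique_of_eventuallyEq l1 l2
    (eventually_mem_nhdsWithin.mono fun r hr => TL_ibp hΨ i (TL_mol h1 h2 hr hg.mem0).2.1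
      (TL_mol h1 h2 hr (hg.mem1 i)).2.1 (TL_mol_line h2 hr hg i))
  simp only [TL_sq] at e
  rw [e, ← integral_const_mul]
  congr 1
  refine integral_congr_ae (Eventually.of_forall fun x => ?_)
  simp only [nn]
  ring

end Pool.Agent.Lib.MP_13801a_an.ND
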