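import Mathlib
import Pool.Agent.Lib.MP_13801a_an.ND.StsA

/-!
Differentiation under the integral sign in integrated form, the local mass identity and the energy
identity for smooth approximate solutions.
-/

open MeasureTheory Set Filter
open scoped ContDiff Topology ComplexConjugate

namespace Pool.Agent.Lib.MP_13801a_an.ND

theorem FUB : St_FUB := by
  intro N a b s t C hst ha hb hd hii hi hC
  have hm : AEStronglyMeasurable (Function.uncurry b)
      ((volume.restrict (Ioc s t)).prod (volume : Measure (E N))) := hb.aestronglyMeasurable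
  have hI : Integrable (Function.uncurry b)
      ((volume.restrict (Ioc s t)).prod (volume : Measure (E N))) := by
    refine (integrable_prod_iff hm).2 ⟨?_, ?_⟩
    · filter_upwards [ae_restrict_mem measurableSet_Ioc] with σ hσ
      exact (hC σ (Ioc_subset_Icc_self hσ)).1
    · refine Integrable.of_bound hm.norm.integral_prod_right' C ?_
      filter_upwards [ae_restrict_mem measurableSet_Ioc] with σ hσ
      rw [Real.norm_of_nonneg (integral_nonneg fun x => norm_nonneg _)]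
      exact (hC σ (Ioc_subset_Icc_self hσ)).2
  refine ⟨(intervalIntegrable_iff_integrableOn_Ioc_of_le hst).2 hI.integral_prod_left, ?_⟩
  rw [← integral_sub (hi t) (hi s), intervalIntegral.integral_of_le hst,
    integral_integral_swap hI]
  refine integral_congr_ae (Eventually.of_forall fun x => ?_)
  have h1 : Continuous fun σ => a σ x := ha.comp (Continuous.prodMk_left x)
  simp only
  rw [← intervalIntegral.integral_of_le hst,
    intervalIntegral.integral_eq_sub_of_hasDerivAt_of_le hst h1.continuousOn (fun σ h => hd σ h x)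
      (hii x)]

variable {N : ℕ}

/-! ### Pairings and integration by parts -/

theorem VIR1_cint {p q : ℝ} (hpq : p.HolderConjugate q) {g g' : E N → ℂ} (hg : Mem p g)
    (hg' : Mem q g') : Integrable fun x => conj (g x) * g' x :=
  (holder hpq hg hg').1.mono'
    ((Complex.continuous_conj.comp_aestronglyMeasurable hg.1).mul hg'.1)
    (Eventually.of_forall fun x => by rw [norm_mul, Complex.norm_conj])

theorem VIR1_pair {p q : ℝ} (hpq : p.HolderConjugate q) {g g' : E N → ℂ} (hg : Mem p g)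
    (hg' : Mem q g') : (Integrable fun x => (conj (g x) * g' x).im) ∧
      ∫ x, |(conj (g x) * g' x).im| ≤ nr p g * nr q g' := by
  have hb : ∀ x, |(conj (g x) * g' x).im| ≤ ‖g x‖ * ‖g' x‖ := fun x => by
    refine (Complex.abs_im_le_norm _).trans ?_
    rw [norm_mul, Complex.norm_conj]
  have hi := holder hpq hg hg'
  have h1 : Integrable fun x => (conj (g x) * g' x).im := (VIR1_cint hpq hg hg').im
  exact ⟨h1, (integral_mono h1.abs hi.1 hb).trans hi.2⟩

theorem VIR1_wt {φ u : E N → ℝ} {B : ℝ} (hφ : Measurable φ) (hB : ∀ x, |φ x| ≤ B)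
    (hu : Integrable u) : (Integrable fun x => φ x * u x) ∧
      ∫ x, |φ x * u x| ≤ B * ∫ x, |u x| := by
  have h1 : Integrable fun x => φ x * u x :=
    hu.bdd_mul hφ.aestronglyMeasurable (Eventually.of_forall hB)
  refine ⟨h1, ?_⟩
  rw [← integral_const_mul]
  refine integral_mono h1.abs (hu.abs.const_mul B) fun x => ?_
  simp only [abs_mul]
  exact mul_le_mul_of_nonneg_right (hB x) (abs_nonneg _)

theorem VIR1_dim {p0 q0 : E N → ℂ} {p1 q1 : ℂ} {x h : E N} (hp : HasLineDerivAt ℝ p0 p1 x h)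
    (hq : HasLineDerivAt ℝ q0 q1 x h) : HasLineDerivAt ℝ (fun y => (conj (p0 y) * q0 y).im)
      ((conj p1 * q0 x).im + (conj (p0 x) * q1).im) x h := by
  unfold HasLineDerivAt at hp hq ⊢
  have h1 := Complex.imCLM.hasFDerivAt.comp_hasDerivAt 0 (hp.star.mul hq)
  refine HasDerivAt.congr_deriv h1 ?_
  simp

theorem VIR1_ibp0 {Ψ Ψ1 u u1 : E N → ℝ} {h : E N} (hΨ : ∀ x, HasLineDerivAt ℝ Ψ (Ψ1 x) x h)
    (hu : ∀ x, HasLineDerivAt ℝ u (u1 x) x h) (i1 : Integrable fun x => Ψ1 x * u x)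
    (i2 : Integrable fun x => Ψ x * u1 x) (i3 : Integrable fun x => Ψ x * u x) :
    ∫ x, Ψ x * u1 x = -∫ x, Ψ1 x * u x :=
  integral_bilinear_hasLineDerivAt_right_eq_neg_left_of_integrable
    (B := ContinuousLinearMap.mul ℝ ℝ) i1 i2 i3 (fun x _ => hΨ x) fun x _ => hu x

theorem VIR1_ibp1 {p q : ℝ} (hpq : p.HolderConjugate q) {p0 p1 q0 q1 : E N → ℂ} {h : E N}
    (hp : ∀ x, HasLineDerivAt ℝ p0 (p1 x) x h) (hq : ∀ x, HasLineDerivAt ℝ q0 (q1 x) x h)
    (mp0 : Mem p p0) (mp1 : Mem p p1) (mq0 : Mem q q0) (mq1 : Mem q q1) :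
    ∫ x, (conj (p0 x) * q1 x).im = -∫ x, (conj (p1 x) * q0 x).im := by
  have a1 := (VIR1_pair hpq mp1 mq0).1
  have a2 := (VIR1_pair hpq mp0 mq1).1
  have a3 := (VIR1_pair hpq mp0 mq0).1
  have h0 := VIR1_ibp0 (Ψ := fun _ => 1) (Ψ1 := fun _ => 0) (h := h)
    (fun x => by unfold HasLineDerivAt; exact hasDerivAt_const _ _)
    (fun x => VIR1_dim (hp x) (hq x)) (by simp) (by simp only [one_mul]; exact a1.add a2)
    (by simp only [one_mul]; exact a3)
  simp only [one_mul, zero_mul, integral_zero, neg_zero] at h0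
  rw [integral_add a1 a2] at h0
  linarith

theorem VIR1_ibp2 {Ψ : E N → ℝ} {Ψ1 : Fin N → E N → ℝ} (hΨ : BW Ψ Ψ1) (j : Fin N)
    {p0 p1 p2 : E N → ℂ} (d0 : ∀ x, HasLineDerivAt ℝ p0 (p1 x) x (ee j))
    (d1 : ∀ x, HasLineDerivAt ℝ p1 (p2 x) x (ee j)) (m0 : Mem 2 p0) (m1 : Mem 2 p1)
    (m2 : Mem 2 p2) :
    ∫ x, Ψ x * (conj (p0 x) * p2 x).im = -∫ x, Ψ1 j x * (conj (p0 x) * p1 x).im := by
  obtain ⟨B, hB⟩ := hΨ.bd
  have h22 := Real.HolderConjugate.two_two
  refine VIR1_ibp0 (hΨ.der j) (fun x => ?_)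
    (VIR1_wt (hΨ.meas j) (fun x => (hB x).2 j) (VIR1_pair h22 m0 m1).1).1
    (VIR1_wt hΨ.cont.measurable (fun x => (hB x).1) (VIR1_pair h22 m0 m2).1).1
    (VIR1_wt hΨ.cont.measurable (fun x => (hB x).1) (VIR1_pair h22 m0 m1).1).1
  have h1 := VIR1_dim (d0 x) (d1 x)
  have e : (conj (p1 x) * p1 x).im = 0 := by
    simp only [Complex.mul_im, Complex.conj_re, Complex.conj_im]
    ring
  rwa [e, zero_add] at h1

/-! ### Families that are bounded on an interval of times -/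

/-- Real families bounded in `L^1` on an interval. -/
def VIR1_G (s t : ℝ) (b : ℝ → E N → ℝ) : Prop :=
  ∃ C : ℝ, ∀ σ ∈ Icc s t, Integrable (b σ) ∧ ∫ x, |b σ x| ≤ C

/-- Complex families bounded in `L^p` on an interval. -/
def VIR1_B (p s t : ℝ) (g : ℝ → E N → ℂ) : Prop :=
  ∃ C : ℝ, ∀ σ ∈ Icc s t, Mem p (g σ) ∧ nr p (g σ) ≤ C

theorem VIR1_G_pair {p q s t : ℝ} (hpq : p.HolderConjugate q) {g g' : ℝ → E N → ℂ}
    (hg : VIR1_B p s t g) (hg' : VIR1_B q s t g') :
    VIR1_G s t fun σ x => (conj (g σ x) * g' σ x).im := by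
  obtain ⟨C, hC⟩ := hg
  obtain ⟨C', hC'⟩ := hg'
  refine ⟨C * C', fun σ hσ => ?_⟩
  have h := VIR1_pair hpq (hC σ hσ).1 (hC' σ hσ).1
  exact ⟨h.1, h.2.trans (mul_le_mul (hC σ hσ).2 (hC' σ hσ).2 (nr_nonneg _ _)
    ((nr_nonneg _ _).trans (hC σ hσ).2))⟩

theorem VIR1_G_add {s t : ℝ} {b b' : ℝ → E N → ℝ} (h : VIR1_G s t b) (h' : VIR1_G s t b') :
    VIR1_G s t fun σ x => b σ x + b' σ x := by
  obtain ⟨C, hC⟩ := h
  obtain ⟨C', hC'⟩ := h'
  refine ⟨C + C', fun σ hσ => ?_⟩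
  have h1 := hC σ hσ
  have h2 := hC' σ hσ
  refine ⟨h1.1.add h2.1, ?_⟩
  calc ∫ x, |b σ x + b' σ x| ≤ ∫ x, (|b σ x| + |b' σ x|) :=
        integral_mono (h1.1.add h2.1).abs (h1.1.abs.add h2.1.abs) fun x => abs_add_le _ _
    _ = (∫ x, |b σ x|) + ∫ x, |b' σ x| := integral_add h1.1.abs h2.1.abs
    _ ≤ _ := add_le_add h1.2 h2.2

theorem VIR1_G_sum {s t : ℝ} {ι : Type} (S : Finset ι) {b : ι → ℝ → E N → ℝ}
    (h : ∀ i, VIR1_G s t (b i)) : VIR1_G s t fun σ x => ∑ i ∈ S, b i σ x := by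
  classical
  induction S using Finset.induction_on with
  | empty => exact ⟨0, fun σ _ => by simp⟩
  | insert i S hi ih =>
    simp only [Finset.sum_insert hi]
    exact VIR1_G_add (h i) ih

theorem VIR1_G_mul {s t : ℝ} {c : ℝ → ℝ} (hc : Continuous c) {b : ℝ → E N → ℝ}
    (h : VIR1_G s t b) : VIR1_G s t fun σ x => c σ * b σ x := by
  obtain ⟨C, hC⟩ := h
  obtain ⟨K, hK⟩ := (isCompact_Icc (a := s) (b := t)).exists_bound_of_continuousOn hc.continuousOn
  refine ⟨K * C, fun σ hσ => ⟨(hC σ hσ).1.const_mul _, ?_⟩⟩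
  simp only [abs_mul]
  rw [integral_const_mul]
  have h1 : |c σ| ≤ K := hK σ hσ
  exact mul_le_mul h1 (hC σ hσ).2 (integral_nonneg fun x => abs_nonneg _)
    ((abs_nonneg _).trans h1)

theorem VIR1_G_wt {s t B : ℝ} {φ : E N → ℝ} (hφ : Measurable φ) (hB : ∀ x, |φ x| ≤ B)
    {b : ℝ → E N → ℝ} (h : VIR1_G s t b) : VIR1_G s t fun σ x => φ x * b σ x := by
  obtain ⟨C, hC⟩ := h
  refine ⟨B * C, fun σ hσ => ?_⟩
  have h1 := VIR1_wt hφ hB (hC σ hσ).1
  exact ⟨h1.1, h1.2.trans (mul_le_mul_of_nonneg_left (hC σ hσ).2 ((abs_nonneg _).trans (hB 0)))⟩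

theorem VIR1_B_apx {α κ : ℝ} {f n : List (Fin N) → ℝ → E N → ℂ} (hA : Apx α κ f n) {s t : ℝ}
    (hs : 0 ≤ s) (w : List (Fin N)) : VIR1_B 2 s t (f w) ∧ VIR1_B (α + 2) s t (f w) ∧
      VIR1_B ((α + 2) / (α + 1)) s t (n w) := by
  obtain ⟨C, hC⟩ := hA.bd w t
  have h : ∀ σ ∈ Icc s t, |σ| ≤ t := fun σ hσ => by
    rw [abs_of_nonneg (hs.trans hσ.1)]
    exact hσ.2
  refine ⟨⟨√C, fun σ hσ => ⟨mem_two.2 (hA.mf w σ).1, ?_⟩⟩,
    ⟨C, fun σ hσ => ⟨(hA.mf w σ).2, (hC σ (h σ hσ)).2.1⟩⟩,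
    ⟨C, fun σ hσ => ⟨hA.mn w σ, (hC σ (h σ hσ)).2.2⟩⟩⟩
  rw [nr_two (hA.mf w σ).1.1]
  exact Real.sqrt_le_sqrt (hC σ (h σ hσ)).1

theorem VIR1_dom {p c : ℝ} (hc : 0 ≤ c) {φ : ℂ → ℂ} (hφ : Continuous φ)
    (hb : ∀ z, ‖φ z‖ ≤ c * ‖z‖) {g : E N → ℂ} (hg : Mem p g) :
    Mem p (fun x => φ (g x)) ∧ nr p (fun x => φ (g x)) ≤ c * nr p g := by
  have h1 : Mem p fun x => (c : ℂ) * g x := MemLp.const_mul hg _
  have h2 : ∀ x, ‖φ (g x)‖ ≤ ‖(c : ℂ) * g x‖ := fun x => by
    rw [norm_mul, Complex.norm_real, Real.norm_of_nonneg hc]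
    exact hb _
  refine ⟨MemLp.of_le h1 (hφ.comp_aestronglyMeasurable hg.1) (Eventually.of_forall h2), ?_⟩
  have h3 := nr_mono h1 h2
  rwa [nr_const_mul, Complex.norm_real, Real.norm_of_nonneg hc] at h3

theorem VIR1_B_dom {p c s t : ℝ} (hc : 0 ≤ c) {φ : ℂ → ℂ} (hφ : Continuous φ)
    (hb : ∀ z, ‖φ z‖ ≤ c * ‖z‖) {g : ℝ → E N → ℂ} (hg : VIR1_B p s t g) :
    VIR1_B p s t fun σ x => φ (g σ x) := by
  obtain ⟨C, hC⟩ := hg
  refine ⟨c * C, fun σ hσ => ?_⟩
  have h := VIR1_dom hc hφ hb (hC σ hσ).1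
  exact ⟨h.1, h.2.trans (mul_le_mul_of_nonneg_left (hC σ hσ).2 hc)⟩

theorem VIR1_sq {c : ℝ} {φ : ℂ → ℝ} (hφ : Continuous φ)
    (hb : ∀ z, 0 ≤ φ z ∧ φ z ≤ c * ‖z‖ ^ 2) {g : E N → ℂ} (hg : Mem 2 g) :
    (Integrable fun x => φ (g x)) ∧ ∫ x, |φ (g x)| ≤ c * nr 2 g ^ 2 := by
  have h0 := (integrable_ms (mem_two.1 hg)).const_mul c
  have h2 : ∀ x, |φ (g x)| ≤ c * ‖g x‖ ^ 2 := fun x => by
    rw [abs_of_nonneg (hb _).1]
    exact (hb _).2
  have h1 : Integrable fun x => φ (g x) :=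
    h0.mono' (hφ.comp_aestronglyMeasurable hg.1) (Eventually.of_forall h2)
  refine ⟨h1, (integral_mono h1.abs h0 h2).trans (le_of_eq ?_)⟩
  rw [integral_const_mul, nr_two_sq hg.1, ms]

theorem VIR1_G_sq {c s t : ℝ} (hc : 0 ≤ c) {φ : ℂ → ℝ} (hφ : Continuous φ)
    (hb : ∀ z, 0 ≤ φ z ∧ φ z ≤ c * ‖z‖ ^ 2) {g : ℝ → E N → ℂ} (hg : VIR1_B 2 s t g) :
    VIR1_G s t fun σ x => φ (g σ x) := by
  obtain ⟨C, hC⟩ := hg
  refine ⟨c * C ^ 2, fun σ hσ => ?_⟩
  have h := VIR1_sq hφ hb (hC σ hσ).1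
  refine ⟨h.1, h.2.trans (mul_le_mul_of_nonneg_left ?_ hc)⟩
  exact pow_le_pow_left₀ (nr_nonneg _ _) (hC σ hσ).2 2

/-- The integrated identity for continuous families. -/
theorem VIR1_fub (h1 : St_FUB) {a b : ℝ → E N → ℝ} {s t : ℝ} (hst : s ≤ t)
    (ha : Continuous fun p : ℝ × E N => a p.1 p.2) (hb : Continuous fun p : ℝ × E N => b p.1 p.2)
    (hd : ∀ σ ∈ Ioo s t, ∀ x, HasDerivAt (fun τ => a τ x) (b σ x) σ) (hi : ∀ σ, Integrable (a σ))
    (hG : VIR1_G s t b) : IntervalIntegrable (fun σ => ∫ x, b σ x) volume s t ∧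
      (∫ x, a t x) - ∫ x, a s x = ∫ σ in s..t, ∫ x, b σ x := by
  obtain ⟨C, hC⟩ := hG
  exact h1 N a b s t C hst ha hb.measurable hd
    (fun x => (hb.comp (Continuous.prodMk_left x)).intervalIntegrable _ _) hi hC

theorem VIR1_re (z : ℂ) (S : Fin N → ℂ) (l : ℝ) (w : ℂ) :
    (conj z * (Complex.I * ((∑ j, S j) + (l : ℂ) * w))).re =
      -(∑ j, (conj z * S j).im) - l * (conj z * w).im := by
  rw [← Complex.im_sum, ← Finset.mul_sum]
  simp only [Complex.mul_re, Complex.mul_im, Complex.add_re, Complex.add_im, Complex.I_re,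
    Complex.I_im, Complex.conj_re, Complex.conj_im, Complex.ofReal_re, Complex.ofReal_im]
  ring

theorem VIR1_nsq {g : ℝ → ℂ} {g' : ℂ} {σ : ℝ} (h : HasDerivAt g g' σ) :
    HasDerivAt (fun τ => ‖g τ‖ ^ 2) (2 * (conj (g σ) * g').re) σ := by
  refine HasDerivAt.congr_deriv h.norm_sq ?_
  rw [Complex.inner]
  simp only [Complex.mul_re, Complex.conj_re, Complex.conj_im]
  ring

/-! ### The local mass identity -/

theorem VIR1 (h1 : St_FUB) (h2 : St_NL) : St_VIR1 := by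
  intro N α κ f n hα hA Ψ Ψ1 B hΨ hB s t hs hst
  obtain ⟨-, -, hre, -, hm, -⟩ := h2 α hα
  have hc : Continuous Ψ := hΨ.cont
  have hB0 : 0 ≤ B := (abs_nonneg _).trans (hB 0)
  have h22 := Real.HolderConjugate.two_two
  have hr := conj_exp hα
  have cf := hA.cf
  have cn := hA.cn []
  have c0 := hA.cf []
  have c2 : ∀ j : Fin N, Continuous fun p : ℝ × E N => f [j, j] p.1 p.2 := fun j => hA.cf _
  have hb := fun w => VIR1_B_apx (t := t) hA hs w
  have key := VIR1_fub h1 (a := fun σ x => Ψ x * ‖f [] σ x‖ ^ 2)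
    (b := fun σ x => -2 * (∑ j, Ψ x * (conj (f [] σ x) * f [j, j] σ x).im) +
      -2 * Real.exp (κ * σ) * (Ψ x * (conj (f [] σ x) * n [] σ x).im)) hst
    (by fun_prop) (by fun_prop) (fun σ hσ x => ?_) (fun σ => ?_)
    (VIR1_G_add (VIR1_G_mul (c := fun _ => -2) continuous_const (VIR1_G_sum _ fun j =>
        VIR1_G_wt hc.measurable hB (VIR1_G_pair h22 (hb []).1 (hb [j, j]).1)))
      (VIR1_G_mul (c := fun σ => -2 * Real.exp (κ * σ)) (by fun_prop)
        (VIR1_G_wt hc.measurable hB (VIR1_G_pair hr (hb []).2.1 (hb []).2.2))))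
  · refine ⟨_, key.1, key.2, fun σ _ => ?_⟩
    have m2 : ∀ w, Mem 2 (f w σ) := fun w => mem_two.2 (hA.mf w σ).1
    have mcom : Mem ((α + 2) / (α + 1)) (com α f n σ) :=
      (hA.mn [] σ).sub (hm N _ (hA.mf [] σ).2).1
    have i2 := fun j : Fin N => (VIR1_wt hc.measurable hB (VIR1_pair h22 (m2 []) (m2 [j, j])).1).1
    have p3 := VIR1_pair hr (hA.mf [] σ).2 mcom
    have i3 := VIR1_wt hc.measurable hB p3.1
    have e : ∀ x, (conj (f [] σ x) * n [] σ x).im = (conj (f [] σ x) * com α f n σ x).im := by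
      intro x
      rw [com, mul_sub, hre, Complex.sub_im, Complex.ofReal_im, sub_zero]
    simp only [e]
    rw [integral_add ((integrable_finsetSum _ fun j _ => i2 j).const_mul _) (i3.1.const_mul _),
      integral_const_mul, integral_const_mul, integral_finsetSum _ fun j _ => i2 j]
    have e2 : -2 * ∑ j, ∫ x, Ψ x * (conj (f [] σ x) * f [j, j] σ x).im =
        mom Ψ1 (f [] σ) fun i => f [i] σ := by
      rw [mom, Finset.mul_sum]
      refine Finset.sum_congr rfl fun j _ => ?_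
      rw [VIR1_ibp2 hΨ j (hA.dxf [] j σ) (hA.dxf [j] j σ) (m2 _) (m2 _) (m2 _), neg_mul_neg,
        ← integral_const_mul]
      refine integral_congr_ae (Eventually.of_forall fun x => ?_)
      simp only [jj]
      ring
    have h3 : |∫ x, Ψ x * (conj (f [] σ x) * com α f n σ x).im| ≤
        B * (nr (α + 2) (f [] σ) * nr ((α + 2) / (α + 1)) (com α f n σ)) :=
      abs_integral_le_integral_abs.trans (i3.2.trans (mul_le_mul_of_nonneg_left p3.2 hB0))
    have h4 := Real.exp_pos (κ * σ)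
    rw [e2, add_sub_cancel_left, abs_mul, abs_mul, abs_neg, abs_two, abs_of_pos h4]
    calc _ ≤ 2 * Real.exp (κ * σ) *
          (B * (nr (α + 2) (f [] σ) * nr ((α + 2) / (α + 1)) (com α f n σ))) := by gcongr
      _ = _ := by ring
  · have h3 := (VIR1_nsq (hA.dt [] σ x (hs.trans_lt hσ.1))).const_mul (Ψ x)
    refine HasDerivAt.congr_deriv h3 ?_
    rw [VIR1_re, ← Finset.mul_sum]
    ring
  · exact (VIR1_wt hc.measurable hB (integrable_ms (hA.mf [] σ).1)).1

/-! ### The energy identity -/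

theorem ENR (h1 : St_FUB) (h2 : St_NL) (h3 : St_TRU) : St_ENR := by
  intro N α κ m f n hα hm hA s t hs hst
  obtain ⟨_, -, hT⟩ := h3 α hα
  obtain ⟨cg, cF, bg, -, -, bF, -, dF, -⟩ := hT m hm
  have hma : 0 ≤ m ^ α := Real.rpow_nonneg hm.le _
  have h22 := Real.HolderConjugate.two_two
  have hr := conj_exp hα
  have c0 := hA.cf []
  have c1 : ∀ i : Fin N, Continuous fun p : ℝ × E N => f [i] p.1 p.2 := fun j => hA.cf _
  have c2 : ∀ j : Fin N, Continuous fun p : ℝ × E N => f [j, j] p.1 p.2 := fun j => hA.cf _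
  have c3 : ∀ i j : Fin N, Continuous fun p : ℝ × E N => f [j, j, i] p.1 p.2 :=
    fun i j => hA.cf _
  have cn0 := hA.cn []
  have cn1 : ∀ i : Fin N, Continuous fun p : ℝ × E N => n [i] p.1 p.2 := fun j => hA.cn _
  have hb := fun w => VIR1_B_apx (t := t) hA hs w
  have m2 : ∀ w σ, Mem 2 (f w σ) := fun w σ => mem_two.2 (hA.mf w σ).1
  have iF : ∀ σ, Integrable fun x => Fm α m (f [] σ x) := fun σ => (VIR1_sq cF bF (m2 [] σ)).1
  have iK : ∀ σ (i : Fin N), Integrable fun x => ‖f [i] σ x‖ ^ 2 :=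
    fun σ i => integrable_ms (hA.mf [i] σ).1
  have key := VIR1_fub h1
    (a := fun σ x => (∑ i, ‖f [i] σ x‖ ^ 2) / 2 - Real.exp (κ * σ) * Fm α m (f [] σ x))
    (b := fun σ x => -1 * (∑ i, ∑ j, (conj (f [i] σ x) * f [j, j, i] σ x).im) +
      -Real.exp (κ * σ) * (∑ i, (conj (f [i] σ x) * n [i] σ x).im) +
      -(κ * Real.exp (κ * σ)) * Fm α m (f [] σ x) +
      Real.exp (κ * σ) * (∑ j, (conj (gm α m (f [] σ x)) * f [j, j] σ x).im) +
      Real.exp (κ * σ) ^ 2 * (conj (gm α m (f [] σ x)) * n [] σ x).im) hst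
    (by fun_prop) (by fun_prop (disch := exact hα.le)) (fun σ hσ x => ?_) (fun σ => ?_)
    (VIR1_G_add (VIR1_G_add (VIR1_G_add (VIR1_G_add
      (VIR1_G_mul (c := fun _ => -1) continuous_const (VIR1_G_sum _ fun i => VIR1_G_sum _ fun j =>
        VIR1_G_pair h22 (hb [i]).1 (hb [j, j, i]).1))
      (VIR1_G_mul (c := fun σ => -Real.exp (κ * σ)) (by fun_prop) (VIR1_G_sum _ fun i =>
        VIR1_G_pair hr (hb [i]).2.1 (hb [i]).2.2)))
      (VIR1_G_mul (c := fun σ => -(κ * Real.exp (κ * σ))) (by fun_prop)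
        (VIR1_G_sq hma cF bF (hb []).1)))
      (VIR1_G_mul (c := fun σ => Real.exp (κ * σ)) (by fun_prop) (VIR1_G_sum _ fun j =>
        VIR1_G_pair h22 (VIR1_B_dom hma cg bg (hb []).1) (hb [j, j]).1)))
      (VIR1_G_mul (c := fun σ => Real.exp (κ * σ) ^ 2) (by fun_prop)
        (VIR1_G_pair hr (VIR1_B_dom hma cg bg (hb []).2.1) (hb []).2.2)))
  · have eA : ∀ σ, ∫ x, ((∑ i, ‖f [i] σ x‖ ^ 2) / 2 - Real.exp (κ * σ) * Fm α m (f [] σ x)) =
        kin (fun i => f [i] σ) / 2 - Real.exp (κ * σ) * ∫ x, Fm α m (f [] σ x) := fun σ => by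
      rw [integral_sub ((integrable_finsetSum _ fun i _ => iK σ i).div_const _)
        ((iF σ).const_mul _), integral_div, integral_const_mul,
        integral_finsetSum _ fun i _ => iK σ i]
      rfl
    refine ⟨_, key.1, ?_, fun σ _ => ?_⟩
    · rw [← key.2, eA, eA]
    have g2 := (VIR1_dom hma cg bg (m2 [] σ)).1
    have gr := (VIR1_dom hma cg bg (hA.mf [] σ).2).1
    have i1 := fun i j : Fin N => (VIR1_pair h22 (m2 [i] σ) (m2 [j, j, i] σ)).1
    have i2 := fun i : Fin N => (VIR1_pair hr (hA.mf [i] σ).2 (hA.mn [i] σ)).1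
    have i4 := fun j : Fin N => (VIR1_pair h22 g2 (m2 [j, j] σ)).1
    have i5 := (VIR1_pair hr gr (hA.mn [] σ)).1
    have i6 := fun j : Fin N => (VIR1_pair hr (hA.mf [j, j] σ).2 (hA.mn [] σ)).1
    have j1 := (integrable_finsetSum Finset.univ fun i _ =>
      integrable_finsetSum Finset.univ fun j _ => i1 i j).const_mul (-1)
    have j2 := (integrable_finsetSum Finset.univ fun i _ => i2 i).const_mul (-Real.exp (κ * σ))
    have j3 := (iF σ).const_mul (-(κ * Real.exp (κ * σ)))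
    have j4 := (integrable_finsetSum Finset.univ fun j _ => i4 j).const_mul (Real.exp (κ * σ))
    have j5 := i5.const_mul (Real.exp (κ * σ) ^ 2)
    have j12 := j1.fun_add j2
    have j13 := j12.fun_add j3
    have j14 := j13.fun_add j4
    beta_reduce
    rw [integral_add j14 j5, integral_add j13 j4,
      integral_add j12 j3, integral_add j1 j2, integral_const_mul, integral_const_mul,
      integral_const_mul, integral_const_mul, integral_const_mul,
      integral_finsetSum _ fun i _ => integrable_finsetSum Finset.univ fun j _ => i1 i j,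
      integral_finsetSum _ fun i _ => i2 i, integral_finsetSum _ fun j _ => i4 j]
    have b1 : ∑ i, ∫ x, ∑ j, (conj (f [i] σ x) * f [j, j, i] σ x).im = 0 := by
      refine Finset.sum_eq_zero fun i _ => ?_
      rw [integral_finsetSum _ fun j _ => i1 i j]
      refine Finset.sum_eq_zero fun j _ => ?_
      rw [VIR1_ibp1 h22 (hA.dxf [i] j σ) (hA.dxf [j, i] j σ) (m2 _ σ) (m2 _ σ) (m2 _ σ) (m2 _ σ)]
      have e : ∀ x, (conj (f [j, i] σ x) * f [j, i] σ x).im = 0 := fun x => by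
        simp only [Complex.mul_im, Complex.conj_re, Complex.conj_im]
        ring
      simp only [e, integral_zero, neg_zero]
    have b2 : ∀ i : Fin N, ∫ x, (conj (f [i] σ x) * n [i] σ x).im =
        -∫ x, (conj (f [i, i] σ x) * n [] σ x).im := fun i =>
      VIR1_ibp1 hr (hA.dxf [i] i σ) (hA.dxn [] i σ) (hA.mf _ σ).2 (hA.mf _ σ).2 (hA.mn _ σ)
        (hA.mn _ σ)
    have b3 : ∀ j : Fin N, |(∫ x, (conj (f [j, j] σ x) * n [] σ x).im) +
        ∫ x, (conj (gm α m (f [] σ x)) * f [j, j] σ x).im| ≤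
        ‖∫ x, conj (n [] σ x - gm α m (f [] σ x)) * f [j, j] σ x‖ := fun j => by
      have k1 := VIR1_cint hr.symm (hA.mn [] σ) (hA.mf [j, j] σ).2
      have k2 := VIR1_cint h22 g2 (m2 [j, j] σ)
      have k3 : Integrable fun x => conj (n [] σ x - gm α m (f [] σ x)) * f [j, j] σ x := by
        simp only [map_sub, sub_mul]
        exact k1.sub k2
      have k4 := integral_im k3
      simp only [RCLike.im_to_complex] at k4
      refine le_trans (le_of_eq ?_) (Complex.abs_im_le_norm _)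
      rw [← k4, ← integral_add (i6 j) (i4 j), ← abs_neg, ← integral_neg]
      congr 1
      refine integral_congr_ae (Eventually.of_forall fun x => ?_)
      simp only [Complex.mul_im, Complex.conj_re, Complex.conj_im, Complex.sub_im,
        Complex.sub_re]
      ring
    have b4 : ∫ x, (conj (gm α m (f [] σ x)) * (Complex.I * n [] σ x)).re =
        -∫ x, (conj (gm α m (f [] σ x)) * n [] σ x).im := by
      rw [← integral_neg]
      refine integral_congr_ae (Eventually.of_forall fun x => ?_)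
      simp only [Complex.mul_re, Complex.mul_im, Complex.conj_re, Complex.conj_im, Complex.I_re,
        Complex.I_im]
      ring
    have h4 := Real.exp_pos (κ * σ)
    rw [b4, abs_neg]
    calc _ = |Real.exp (κ * σ) * (∑ j, ((∫ x, (conj (f [j, j] σ x) * n [] σ x).im) +
            ∫ x, (conj (gm α m (f [] σ x)) * f [j, j] σ x).im)) +
          Real.exp (κ * σ) ^ 2 * ∫ x, (conj (gm α m (f [] σ x)) * n [] σ x).im| := by
          congr 1
          simp only [b1, b2, Finset.sum_add_distrib, Finset.sum_neg_distrib]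
          ring
      _ ≤ Real.exp (κ * σ) * |∑ j, ((∫ x, (conj (f [j, j] σ x) * n [] σ x).im) +
            ∫ x, (conj (gm α m (f [] σ x)) * f [j, j] σ x).im)| +
          Real.exp (κ * σ) ^ 2 * |∫ x, (conj (gm α m (f [] σ x)) * n [] σ x).im| := by
          refine (abs_add_le _ _).trans (le_of_eq ?_)
          rw [abs_mul, abs_mul, abs_of_pos h4, abs_of_pos (pow_pos h4 2)]
      _ ≤ _ := by
          gcongr
          exact (Finset.abs_sum_le_sum_abs _ _).trans (Finset.sum_le_sum fun j _ => b3 j)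
  · have h0 : 0 < σ := hs.trans_lt hσ.1
    have k3 := (HasDerivAt.fun_sum (u := Finset.univ) fun i _ =>
      VIR1_nsq (hA.dt [i] σ x h0)).div_const 2
    have k4 := dF _ _ _ (hA.dt [] σ x h0)
    have k5 : HasDerivAt (fun τ => Real.exp (κ * τ)) (Real.exp (κ * σ) * κ) σ := by
      simpa using ((hasDerivAt_id σ).const_mul κ).exp
    refine HasDerivAt.congr_deriv (k3.sub (k5.mul k4)) ?_
    simp only [VIR1_re]
    rw [← Finset.mul_sum, Finset.sum_sub_distrib, Finset.sum_neg_distrib, ← Finset.mul_sum]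
    ring
  · exact ((integrable_finsetSum _ fun i _ => iK σ i).div_const _).sub ((iF σ).const_mul _)

end Pool.Agent.Lib.MP_13801a_an.ND
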