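import Mathlib
import Pool.Agent.Lib.MP_13801a_an.ND.StsA

/-!
The second virial identity for smooth approximate solutions in all dimensions.
-/

open MeasureTheory Set Filter
open scoped ContDiff Topology ComplexConjugate

namespace Pool.Agent.Lib.MP_13801a_an.ND

variable {N : ℕ}

theorem VIR2_int {φ : E N → ℝ} {B p q : ℝ} (hpq : p.HolderConjugate q) (hφ : Measurable φ)
    (hB : ∀ x, |φ x| ≤ B) {g g' : E N → ℂ} (hg : Mem p g) (hg' : Mem q g') :
    (Integrable fun x => φ x * (conj (g x) * g' x).re) ∧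
      ∫ x, |φ x * (conj (g x) * g' x).re| ≤ B * (nr p g * nr q g') := by
  have hB0 : 0 ≤ B := (abs_nonneg _).trans (hB 0)
  have hb : ∀ x, |φ x * (conj (g x) * g' x).re| ≤ B * (‖g x‖ * ‖g' x‖) := fun x => by
    rw [abs_mul]
    refine mul_le_mul (hB x) ((Complex.abs_re_le_norm _).trans ?_) (abs_nonneg _) hB0
    rw [norm_mul, Complex.norm_conj]
  have hh := holder hpq hg hg'
  have hi := hh.1.const_mul B
  have h1 : Integrable fun x => φ x * (conj (g x) * g' x).re :=
    hi.mono' (hφ.aestronglyMeasurable.mul (Complex.continuous_re.comp_aestronglyMeasurable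
      ((Complex.continuous_conj.comp_aestronglyMeasurable hg.1).mul hg'.1)))
      (Eventually.of_forall hb)
  refine ⟨h1, (integral_mono h1.abs hi hb).trans ?_⟩
  rw [integral_const_mul]
  exact mul_le_mul_of_nonneg_left hh.2 hB0

theorem VIR2_intim {φ : E N → ℝ} {B : ℝ} (hφ : Measurable φ) (hB : ∀ x, |φ x| ≤ B)
    {g g' : E N → ℂ} (hg : MemLp g 2 volume) (hg' : MemLp g' 2 volume) :
    Integrable fun x => φ x * (2 * (conj (g x) * g' x).im) := by
  have hB0 : 0 ≤ B := (abs_nonneg _).trans (hB 0)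
  have hb : ∀ x, |φ x * (2 * (conj (g x) * g' x).im)| ≤ B * (2 * (‖g x‖ * ‖g' x‖)) := fun x => by
    rw [abs_mul, abs_mul, abs_two]
    refine mul_le_mul (hB x) (mul_le_mul_of_nonneg_left
      ((Complex.abs_im_le_norm _).trans ?_) zero_le_two) (by positivity) hB0
    rw [norm_mul, Complex.norm_conj]
  exact (((integral_norm_mul_le hg hg').1.const_mul 2).const_mul B).mono'
    (hφ.aestronglyMeasurable.mul ((Complex.continuous_im.comp_aestronglyMeasurable
      ((Complex.continuous_conj.comp_aestronglyMeasurable hg.1).mul hg'.1)).const_mul 2))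
    (Eventually.of_forall hb)

theorem VIR2_ibp0 {χ h u u' : E N → ℝ} {e : E N} (hχ : ∀ x, HasLineDerivAt ℝ χ (h x) x e)
    (hu : ∀ x, HasLineDerivAt ℝ u (u' x) x e) (i1 : Integrable fun x => h x * u x)
    (i2 : Integrable fun x => χ x * u' x) (i3 : Integrable fun x => χ x * u x) :
    ∫ x, χ x * u' x = -∫ x, h x * u x :=
  integral_bilinear_hasLineDerivAt_right_eq_neg_left_of_integrable
    (B := ContinuousLinearMap.mul ℝ ℝ) (f := χ) (f' := h) (g := u) (g' := u') i1 i2 i3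
    (fun x _ => hχ x) fun x _ => hu x

theorem VIR2_ibp {χ h : E N → ℝ} {e : E N} {B a b : ℝ} (hab : a.HolderConjugate b)
    (hχ : ∀ x, HasLineDerivAt ℝ χ (h x) x e) (hc : Measurable χ) (hh : Measurable h)
    (hB1 : ∀ x, |χ x| ≤ B) (hB2 : ∀ x, |h x| ≤ B) {p p' q q' : E N → ℂ}
    (dp : ∀ x, HasLineDerivAt ℝ p (p' x) x e) (dq : ∀ x, HasLineDerivAt ℝ q (q' x) x e)
    (mp : Mem a p) (mp' : Mem a p') (mq : Mem b q) (mq' : Mem b q') :
    (∫ x, χ x * (conj (p' x) * q x).re) + ∫ x, χ x * (conj (p x) * q' x).re =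
      -∫ x, h x * (conj (p x) * q x).re := by
  have i1 := (VIR2_int hab hc hB1 mp' mq).1
  have i2 := (VIR2_int hab hc hB1 mp mq').1
  rw [← integral_add i1 i2]
  simp only [← mul_add]
  refine VIR2_ibp0 (u := fun x => (conj (p x) * q x).re)
    (u' := fun x => (conj (p' x) * q x).re + (conj (p x) * q' x).re) hχ (fun x => ?_)
    (VIR2_int hab hh hB2 mp mq).1 ?_ (VIR2_int hab hc hB1 mp mq).1
  · have h1 := Complex.reCLM.hasFDerivAt.comp_hasDerivAt (0 : ℝ)
      ((HasDerivAt.star (dp x)).mul (dq x))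
    refine HasDerivAt.congr_deriv h1 ?_
    simp
  · refine (i1.add i2).congr (Eventually.of_forall fun x => ?_)
    simp only [Pi.add_apply, mul_add]

theorem VIR2_symm (z w : ℂ) : (conj z * w).re = (conj w * z).re := by
  simp only [Complex.mul_re, Complex.conj_re, Complex.conj_im]
  ring

/-- Integrable with a bound that is uniform in time. -/
def VIR2_UB (s t : ℝ) (b : ℝ → E N → ℝ) : Prop :=
  ∃ C : ℝ, ∀ σ ∈ Icc s t, Integrable (b σ) ∧ ∫ x, |b σ x| ≤ C

theorem VIR2_UB.add {s t : ℝ} {b b' : ℝ → E N → ℝ} (h : VIR2_UB s t b) (h' : VIR2_UB s t b') :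
    VIR2_UB s t fun σ x => b σ x + b' σ x := by
  obtain ⟨C, hC⟩ := h
  obtain ⟨C', hC'⟩ := h'
  refine ⟨C + C', fun σ hσ => ⟨(hC σ hσ).1.add (hC' σ hσ).1, ?_⟩⟩
  calc _ ≤ ∫ x, (|b σ x| + |b' σ x|) :=
        integral_mono ((hC σ hσ).1.add (hC' σ hσ).1).abs
          ((hC σ hσ).1.abs.add (hC' σ hσ).1.abs) fun x => abs_add_le _ _
    _ = (∫ x, |b σ x|) + ∫ x, |b' σ x| := integral_add (hC σ hσ).1.abs (hC' σ hσ).1.abs
    _ ≤ _ := add_le_add (hC σ hσ).2 (hC' σ hσ).2

theorem VIR2_UB.cmul {s t : ℝ} {b : ℝ → E N → ℝ} (h : VIR2_UB s t b) {c : ℝ → ℝ} {L : ℝ}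
    (hc : ∀ σ ∈ Icc s t, |c σ| ≤ L) : VIR2_UB s t fun σ x => c σ * b σ x := by
  obtain ⟨C, hC⟩ := h
  refine ⟨L * C, fun σ hσ => ⟨(hC σ hσ).1.const_mul _, ?_⟩⟩
  simp only [abs_mul]
  rw [integral_const_mul]
  exact mul_le_mul (hc σ hσ) (hC σ hσ).2 (integral_nonneg fun _ => abs_nonneg _)
    ((abs_nonneg _).trans (hc σ hσ))

theorem VIR2_UB.sub {s t : ℝ} {b b' : ℝ → E N → ℝ} (h : VIR2_UB s t b) (h' : VIR2_UB s t b') :
    VIR2_UB s t fun σ x => b σ x - b' σ x := by
  have h1 := h.add (h'.cmul (c := fun _ => -1) (L := 1) fun _ _ => by simp)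
  simpa [sub_eq_add_neg] using h1

theorem VIR2_UB.sum {s t : ℝ} {ι : Type} (S : Finset ι) {b : ι → ℝ → E N → ℝ}
    (h : ∀ j, VIR2_UB s t (b j)) : VIR2_UB s t fun σ x => ∑ j ∈ S, b j σ x := by
  classical
  induction S using Finset.induction_on with
  | empty => exact ⟨0, fun σ _ => by simp⟩
  | insert j S hj ih =>
    simp only [Finset.sum_insert hj]
    exact (h j).add ih

theorem VIR2_pair {s t B p q : ℝ} (hpq : p.HolderConjugate q) {φ : E N → ℝ} (hφ : Measurable φ)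
    (hB : ∀ x, |φ x| ≤ B) {g g' : ℝ → E N → ℂ} (hg : ∀ σ, Mem p (g σ)) (hg' : ∀ σ, Mem q (g' σ))
    {C C' : ℝ} (hC : ∀ σ ∈ Icc s t, nr p (g σ) ≤ C) (hC' : ∀ σ ∈ Icc s t, nr q (g' σ) ≤ C') :
    VIR2_UB s t fun σ x => φ x * (conj (g σ x) * g' σ x).re := by
  have hB0 : 0 ≤ B := (abs_nonneg _).trans (hB 0)
  refine ⟨B * (C * C'), fun σ hσ => ⟨(VIR2_int hpq hφ hB (hg σ) (hg' σ)).1,
    (VIR2_int hpq hφ hB (hg σ) (hg' σ)).2.trans ?_⟩⟩
  exact mul_le_mul_of_nonneg_left (mul_le_mul (hC σ hσ) (hC' σ hσ) (nr_nonneg _ _)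
    ((nr_nonneg _ _).trans (hC σ hσ))) hB0

/-- The time derivative of one component of the localised momentum density. -/
noncomputable def VIR2_b (κ : ℝ) (f n : List (Fin N) → ℝ → E N → ℂ) (X : Fin N → E N → ℝ)
    (i : Fin N) (σ : ℝ) (x : E N) : ℝ :=
  2 * ((∑ j, X i x * (conj (f [] σ x) * f [j, j, i] σ x).re) -
    (∑ j, X i x * (conj (f [j, j] σ x) * f [i] σ x).re) +
    Real.exp (κ * σ) * (X i x * (conj (f [] σ x) * n [i] σ x).re -
      X i x * (conj (f [i] σ x) * n [] σ x).re))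

theorem VIR2_time (h1 : St_FUB) {α κ : ℝ} {f n : List (Fin N) → ℝ → E N → ℂ} (hα : 0 < α)
    (hA : Apx α κ f n) {X : Fin N → E N → ℝ} {B : ℝ} (hc : ∀ i, Continuous (X i))
    (hB : ∀ i x, |X i x| ≤ B) {s t : ℝ} (hs : 0 ≤ s) (hst : s ≤ t) (i : Fin N) :
    IntervalIntegrable (fun σ => ∫ x, VIR2_b κ f n X i σ x) volume s t ∧
      (∫ x, X i x * jj (f [] t) (fun i => f [i] t) i x) -
        ∫ x, X i x * jj (f [] s) (fun i => f [i] s) i x =
        ∫ σ in s..t, ∫ x, VIR2_b κ f n X i σ x := by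
  have hσt : ∀ σ ∈ Icc s t, |σ| ≤ t := fun σ hσ => by
    rw [abs_of_nonneg (hs.trans hσ.1)]; exact hσ.2
  choose C hC using fun w => hA.bd w t
  have m2 : ∀ w σ, Mem 2 (f w σ) := fun w σ => mem_two.2 (hA.mf w σ).1
  have b2 : ∀ w, ∀ σ ∈ Icc s t, nr 2 (f w σ) ≤ √(C w) := fun w σ hσ => by
    rw [nr_two (hA.mf w σ).1.1]
    exact Real.sqrt_le_sqrt (hC w σ (hσt σ hσ)).1
  have hm := (hc i).measurable
  have u2 : ∀ w w', VIR2_UB s t fun σ x => X i x * (conj (f w σ x) * f w' σ x).re :=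
    fun w w' => VIR2_pair Real.HolderConjugate.two_two hm (hB i) (m2 w) (m2 w') (b2 w) (b2 w')
  have un : ∀ w w', VIR2_UB s t fun σ x => X i x * (conj (f w σ x) * n w' σ x).re :=
    fun w w' => VIR2_pair (conj_exp hα) hm (hB i) (fun σ => (hA.mf w σ).2) (hA.mn w')
      (fun σ hσ => (hC w σ (hσt σ hσ)).2.1) fun σ hσ => (hC w' σ (hσt σ hσ)).2.2
  have hexp : ∀ σ ∈ Icc s t, |Real.exp (κ * σ)| ≤ Real.exp (|κ| * t) := fun σ hσ => by
    rw [abs_of_pos (Real.exp_pos _)]
    have := hσt σ hσ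
    exact Real.exp_le_exp.2 ((le_abs_self _).trans (by rw [abs_mul]; gcongr))
  have hU : VIR2_UB s t (VIR2_b κ f n X i) :=
    ((((VIR2_UB.sum Finset.univ fun j => u2 [] [j, j, i]).sub
      (VIR2_UB.sum Finset.univ fun j => u2 [j, j] [i])).add
      (((un [] [i]).sub (un [i] [])).cmul hexp)).cmul (c := fun _ => 2) (L := 2)
      fun _ _ => by simp)
  obtain ⟨K, hK⟩ := hU
  have cf := hA.cf
  have cn := hA.cn
  have hci := hc i
  have cb : Continuous fun p : ℝ × E N => VIR2_b κ f n X i p.1 p.2 := by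
    have c1 : ∀ w w', Continuous fun p : ℝ × E N =>
        X i p.2 * (conj (f w p.1 p.2) * f w' p.1 p.2).re := fun w w' => by
      have := cf w
      have := cf w'
      fun_prop
    have c2 : ∀ w w', Continuous fun p : ℝ × E N =>
        X i p.2 * (conj (f w p.1 p.2) * n w' p.1 p.2).re := fun w w' => by
      have := cf w
      have := cn w'
      fun_prop
    exact continuous_const.mul (((continuous_finsetSum _ fun j _ => c1 [] [j, j, i]).sub
      (continuous_finsetSum _ fun j _ => c1 [j, j] [i])).add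
      ((by fun_prop : Continuous fun p : ℝ × E N => Real.exp (κ * p.1)).mul
        ((c2 [] [i]).sub (c2 [i] []))))
  refine h1 N (fun σ x => X i x * jj (f [] σ) (fun i => f [i] σ) i x) (VIR2_b κ f n X i) s t K hst
    ?_ cb.measurable (fun σ hσ x => ?_) (fun x => ?_) (fun σ => ?_) hK
  · have := cf []
    have := cf [i]
    simp only [jj]
    fun_prop
  · have hσ0 := hs.trans_lt hσ.1
    have h3 := ((Complex.imCLM.hasFDerivAt.comp_hasDerivAt σ
      ((hA.dt [] σ x hσ0).star.mul (hA.dt [i] σ x hσ0))).const_mul 2).const_mul (X i x)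
    refine HasDerivAt.congr_deriv h3 ?_
    simp only [VIR2_b, ← Finset.mul_sum, ← Complex.re_sum, ← Finset.sum_mul, ← map_sum]
    generalize ∑ j, f [j, j] σ x = S
    generalize ∑ j, f [j, j, i] σ x = S'
    simp only [Complex.imCLM_apply, Complex.star_def, Complex.mul_re, Complex.mul_im,
      Complex.add_re, Complex.add_im, Complex.I_re, Complex.I_im, Complex.conj_re,
      Complex.conj_im, Complex.ofReal_re, Complex.ofReal_im]
    ring
  · exact (cb.comp (by fun_prop : Continuous fun σ : ℝ => (σ, x))).intervalIntegrable s t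
  · exact VIR2_intim hm (hB i) (hA.mf [] σ).1 (hA.mf [i] σ).1

theorem VIR2_space (h2 : St_NL) {α κ : ℝ} {f n : List (Fin N) → ℝ → E N → ℂ} (hα : 0 < α)
    (hA : Apx α κ f n) {X : Fin N → E N → ℝ} {X1 X2 : Fin N → Fin N → E N → ℝ}
    (hX : VF X X1 X2) (σ : ℝ) (i : Fin N) :
    ∫ x, VIR2_b κ f n X i σ x =
      4 * (∑ j, ∫ x, X1 j i x * st (fun i => f [i] σ) j i x) -
        2 * α / (α + 2) * Real.exp (κ * σ) * (∫ x, X1 i i x * ‖f [] σ x‖ ^ (α + 2)) +
        (∑ j, ∫ x, X2 j i x * nn (f [] σ) (fun i => f [i] σ) i x) -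
        Real.exp (κ * σ) * (2 * (∫ x, X1 i i x * (conj (f [] σ x) * com α f n σ x).re) +
          4 * ∫ x, X i x * (conj (f [i] σ x) * com α f n σ x).re) := by
  obtain ⟨-, -, hre, hder, hm, -⟩ := h2 α hα
  obtain ⟨B, hB⟩ := hX.bd
  have h22 := Real.HolderConjugate.two_two
  have hr := conj_exp hα
  have m0 := (hX.cont i).measurable
  have B0 : ∀ x, |X i x| ≤ B := fun x => (hB i i x).1
  have B1 : ∀ j x, |X1 j i x| ≤ B := fun j x => (hB j i x).2.1
  have B2 : ∀ j x, |X2 j i x| ≤ B := fun j x => (hB j i x).2.2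
  have m2 : ∀ w, Mem 2 (f w σ) := fun w => mem_two.2 (hA.mf w σ).1
  have mr : ∀ w, Mem (α + 2) (f w σ) := fun w => (hA.mf w σ).2
  have mNL := (hm N _ (mr [])).1
  have mcom : Mem ((α + 2) / (α + 1)) (com α f n σ) := Mem.sub (hA.mn [] σ) mNL
  have i2 : ∀ w w', Integrable fun x => X i x * (conj (f w σ x) * f w' σ x).re :=
    fun w w' => (VIR2_int h22 m0 B0 (m2 w) (m2 w')).1
  have jn : ∀ w w', Integrable fun x => X i x * (conj (f w σ x) * n w' σ x).re :=
    fun w w' => (VIR2_int hr m0 B0 (mr w) (hA.mn w' σ)).1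
  have lin : ∀ j, (∫ x, X i x * (conj (f [] σ x) * f [j, j, i] σ x).re) -
      ∫ x, X i x * (conj (f [j, j] σ x) * f [i] σ x).re =
      2 * (∫ x, X1 j i x * st (fun i => f [i] σ) j i x) +
        (∫ x, X2 j i x * nn (f [] σ) (fun i => f [i] σ) i x) / 2 := fun j => by
    have e1 := VIR2_ibp h22 (hX.d1 j i) m0 (hX.meas1 j i) B0 (B1 j) (hA.dxf [] j σ)
      (hA.dxf [j, i] j σ) (m2 _) (m2 _) (m2 _) (m2 _)
    have e2 := VIR2_ibp h22 (hX.d1 j i) m0 (hX.meas1 j i) B0 (B1 j) (hA.dxf [j] j σ)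
      (hA.dxf [i] j σ) (m2 _) (m2 _) (m2 _) (m2 _)
    have e3 := VIR2_ibp h22 (hX.d2 j i) (hX.meas1 j i) (hX.meas2 j i) (B1 j) (B2 j)
      (hA.dxf [] j σ) (hA.dxf [i] j σ) (m2 _) (m2 _) (m2 _) (m2 _)
    have e4 : ∫ x, X2 j i x * nn (f [] σ) (fun i => f [i] σ) i x =
        2 * ∫ x, X2 j i x * (conj (f [] σ x) * f [i] σ x).re := by
      rw [← integral_const_mul]
      congr 1
      funext x
      simp only [nn]
      ring
    simp only [st]
    rw [e4]
    linear_combination e1 - e2 - e3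
  have k0 := VIR2_int hr (hX.meas1 i i) (B1 i) (mr []) mcom
  have k1 := VIR2_int hr m0 B0 (mr [i]) mcom
  have kN := (VIR2_int hr.symm m0 B0 mNL (mr [i])).1
  have hP := (mr []).integrable_rpow (by linarith)
  have iP : Integrable fun x => X1 i i x * ‖f [] σ x‖ ^ (α + 2) :=
    hP.bdd_mul (hX.meas1 i i).aestronglyMeasurable (Eventually.of_forall (B1 i))
  have iP' : Integrable fun x => X i x * ‖f [] σ x‖ ^ (α + 2) :=
    hP.bdd_mul m0.aestronglyMeasurable (Eventually.of_forall B0)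
  have e3 := VIR2_ibp hr (hX.d1 i i) m0 (hX.meas1 i i) B0 (B1 i) (hA.dxf [] i σ)
    (hA.dxn [] i σ) (mr _) (mr _) (hA.mn _ σ) (hA.mn _ σ)
  have e4 : ∫ x, X i x * ((α + 2) * (conj (NL α (f [] σ x)) * f [i] σ x).re) =
      -∫ x, X1 i i x * ‖f [] σ x‖ ^ (α + 2) := by
    refine VIR2_ibp0 (u := fun x => ‖f [] σ x‖ ^ (α + 2))
      (u' := fun x => (α + 2) * (conj (NL α (f [] σ x)) * f [i] σ x).re) (hX.d1 i i)
      (fun x => ?_) iP ?_ iP'
    · have h := hder _ _ 0 (hA.dxf [] i σ x)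
      simp only [zero_smul, add_zero] at h
      exact h
    · refine (kN.const_mul (α + 2)).congr (Eventually.of_forall fun x => ?_)
      simp only
      ring
  have e4' : (α + 2) * ∫ x, X i x * (conj (NL α (f [] σ x)) * f [i] σ x).re =
      -∫ x, X1 i i x * ‖f [] σ x‖ ^ (α + 2) := by
    rw [← e4, ← integral_const_mul]
    congr 1
    funext x
    ring
  have e5 : ∫ x, X1 i i x * (conj (f [] σ x) * n [] σ x).re =
      (∫ x, X1 i i x * ‖f [] σ x‖ ^ (α + 2)) +
        ∫ x, X1 i i x * (conj (f [] σ x) * com α f n σ x).re := by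
    rw [← integral_add iP k0.1]
    congr 1
    funext x
    rw [com, mul_sub, hre, Complex.sub_re, Complex.ofReal_re]
    ring
  have e6 : ∫ x, X i x * (conj (f [i] σ x) * n [] σ x).re =
      (∫ x, X i x * (conj (NL α (f [] σ x)) * f [i] σ x).re) +
        ∫ x, X i x * (conj (f [i] σ x) * com α f n σ x).re := by
    rw [← integral_add kN k1.1]
    congr 1
    funext x
    rw [com, mul_sub, Complex.sub_re, VIR2_symm (NL α (f [] σ x))]
    ring
  have hα2 : α + 2 ≠ 0 := by linarith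
  have e8 : ∫ x, X i x * (conj (NL α (f [] σ x)) * f [i] σ x).re =
      -(∫ x, X1 i i x * ‖f [] σ x‖ ^ (α + 2)) / (α + 2) := by
    rw [← e4']
    field_simp
  have e9 : 2 * α / (α + 2) = 2 - 4 / (α + 2) := by
    field_simp
    ring
  have s1 := integrable_finsetSum Finset.univ fun j _ => i2 [] [j, j, i]
  have s2 := integrable_finsetSum Finset.univ fun j _ => i2 [j, j] [i]
  have s3 : Integrable fun x => X i x * (conj (f [] σ x) * n [i] σ x).re -
      X i x * (conj (f [i] σ x) * n [] σ x).re := (jn [] [i]).sub (jn [i] [])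
  have s12 : Integrable fun x => (∑ j, X i x * (conj (f [] σ x) * f [j, j, i] σ x).re) -
      ∑ j, X i x * (conj (f [j, j] σ x) * f [i] σ x).re := s1.sub s2
  simp only [VIR2_b]
  rw [integral_const_mul, integral_add s12 (s3.const_mul _), integral_sub s1 s2,
    integral_const_mul, integral_sub (jn [] [i]) (jn [i] []),
    integral_finsetSum _ fun j _ => i2 [] [j, j, i],
    integral_finsetSum _ fun j _ => i2 [j, j] [i], ← Finset.sum_sub_distrib,
    Finset.sum_congr rfl fun j _ => lin j, Finset.sum_add_distrib, ← Finset.mul_sum,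
    ← Finset.sum_div, e9]
  linear_combination 2 * Real.exp (κ * σ) * e3 - 2 * Real.exp (κ * σ) * e5 -
    4 * Real.exp (κ * σ) * e6 - 4 * Real.exp (κ * σ) * e8

theorem VIR2 (h1 : St_FUB) (h2 : St_NL) : St_VIR2 := by
  intro N α κ f n hα hA X X1 X2 B hX hB s t hs hst
  have key := fun i => VIR2_time h1 hα hA hX.cont (fun i x => (hB i i x).1) hs hst i
  have hI : IntervalIntegrable (fun σ => ∑ i, ∫ x, VIR2_b κ f n X i σ x) volume s t := by
    have h := IntervalIntegrable.sum Finset.univ fun i _ => (key i).1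
    refine h.congr fun σ _ => ?_
    simp only [Finset.sum_apply]
  refine ⟨fun σ => ∑ i, ∫ x, VIR2_b κ f n X i σ x, hI, ?_, fun σ _ => ?_⟩
  · rw [intervalIntegral.integral_finsetSum fun i _ => (key i).1]
    simp only [mom]
    rw [← Finset.sum_sub_distrib]
    exact Finset.sum_congr rfl fun i _ => (key i).2
  · have hr := conj_exp hα
    obtain ⟨-, -, -, -, hm, -⟩ := h2 α hα
    have mcom : Mem ((α + 2) / (α + 1)) (com α f n σ) :=
      Mem.sub (hA.mn [] σ) (hm N _ (hA.mf [] σ).2).1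
    have h4 := Real.exp_pos (κ * σ)
    have e : (∑ i, ∫ x, VIR2_b κ f n X i σ x) -
        vir α (Real.exp (κ * σ)) X1 X2 (f [] σ) (fun i => f [i] σ) =
        -(Real.exp (κ * σ) * ∑ i, (2 * (∫ x, X1 i i x * (conj (f [] σ x) * com α f n σ x).re) +
          4 * ∫ x, X i x * (conj (f [i] σ x) * com α f n σ x).re)) := by
      rw [Finset.sum_congr rfl fun i _ => VIR2_space h2 hα hA hX σ i]
      simp only [vir]
      rw [Finset.sum_sub_distrib, Finset.sum_add_distrib, Finset.sum_sub_distrib,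
        ← Finset.mul_sum, ← Finset.mul_sum, ← Finset.mul_sum,
        Finset.sum_comm (f := fun i j => ∫ x, X1 j i x * st (fun i => f [i] σ) j i x),
        Finset.sum_comm (f := fun i j => ∫ x, X2 j i x * nn (f [] σ) (fun i => f [i] σ) i x)]
      ring
    show |(∑ i, ∫ x, VIR2_b κ f n X i σ x) -
        vir α (Real.exp (κ * σ)) X1 X2 (f [] σ) (fun i => f [i] σ)| ≤ _
    rw [e, abs_neg, abs_mul, abs_of_pos h4]
    have hb : |∑ i, (2 * (∫ x, X1 i i x * (conj (f [] σ x) * com α f n σ x).re) +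
          4 * ∫ x, X i x * (conj (f [i] σ x) * com α f n σ x).re)| ≤
        B * (∑ i, (2 * nr (α + 2) (f [] σ) + 4 * nr (α + 2) (f [i] σ))) *
          nr ((α + 2) / (α + 1)) (com α f n σ) := by
      rw [Finset.mul_sum, Finset.sum_mul]
      refine (Finset.abs_sum_le_sum_abs _ _).trans (Finset.sum_le_sum fun i _ => ?_)
      have k0 := abs_integral_le_integral_abs.trans
        (VIR2_int hr (hX.meas1 i i) (fun x => (hB i i x).2) (hA.mf [] σ).2 mcom).2
      have k1 := abs_integral_le_integral_abs.trans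
        (VIR2_int hr (hX.cont i).measurable (fun x => (hB i i x).1) (hA.mf [i] σ).2 mcom).2
      refine (abs_add_le _ _).trans ?_
      rw [abs_mul, abs_mul, abs_two, abs_of_pos (by norm_num : (0 : ℝ) < 4)]
      linarith
    calc _ ≤ Real.exp (κ * σ) * (B * (∑ i, (2 * nr (α + 2) (f [] σ) +
          4 * nr (α + 2) (f [i] σ))) * nr ((α + 2) / (α + 1)) (com α f n σ)) :=
          mul_le_mul_of_nonneg_left hb h4.le
      _ = _ := by ring

end Pool.Agent.Lib.MP_13801a_an.ND
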