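import Mathlib
import Pool.Agent.Lib.MP_13801a_an.ND.APX
import Pool.Agent.Lib.MP_13801a_an.ND.BASIC
import Pool.Agent.Lib.MP_13801a_an.ND.CONV
import Pool.Agent.Lib.MP_13801a_an.ND.DISPE
import Pool.Agent.Lib.MP_13801a_an.ND.EN1
import Pool.Agent.Lib.MP_13801a_an.ND.ENER
import Pool.Agent.Lib.MP_13801a_an.ND.EXT
import Pool.Agent.Lib.MP_13801a_an.ND.FIN
import Pool.Agent.Lib.MP_13801a_an.ND.GK
import Pool.Agent.Lib.MP_13801a_an.ND.HOM
import Pool.Agent.Lib.MP_13801a_an.ND.INIT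
import Pool.Agent.Lib.MP_13801a_an.ND.LMASS
import Pool.Agent.Lib.MP_13801a_an.ND.MAIN
import Pool.Agent.Lib.MP_13801a_an.ND.MINK
import Pool.Agent.Lib.MP_13801a_an.ND.MOL
import Pool.Agent.Lib.MP_13801a_an.ND.MWIN
import Pool.Agent.Lib.MP_13801a_an.ND.NLF
import Pool.Agent.Lib.MP_13801a_an.ND.SOB
import Pool.Agent.Lib.MP_13801a_an.ND.STR
import Pool.Agent.Lib.MP_13801a_an.ND.TEL
import Pool.Agent.Lib.MP_13801a_an.ND.TL
import Pool.Agent.Lib.MP_13801a_an.ND.TRANS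
import Pool.Agent.Lib.MP_13801a_an.ND.VIR1
import Pool.Agent.Lib.MP_13801a_an.ND.VIR2

/-!
The evolution part without hypotheses.
-/

namespace Pool.Agent.Lib.MP_13801a_an.ND

theorem a_MOL : St_MOL := MOL CONV
theorem a_TL : St_TL := TLE CONV a_MOL
theorem a_GR : St_GR := GR CONV a_MOL
theorem a_LEV : St_LEV := LEV (TEL CONV GKF) CONV GKF
theorem a_SOB : St_SOB := SOB a_LEV CONV GKF
theorem a_HED : St_HED := HED a_LEV GKF
theorem a_BASIC : St_BASIC := BASIC a_TL a_SOB NLF CONV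
theorem a_VCONT : St_VCONT := VCONT a_BASIC NLF FLU
theorem a_APX : St_APX := APX CONV a_MOL a_BASIC
theorem a_COM : St_COM := COM CONV a_MOL a_BASIC NLF
theorem a_DISPE : St_DISPE := DISPE CONV GKF
theorem a_DUH : St_DUH := DUH (EXT a_BASIC) GKF a_BASIC CONV
theorem a_STR : St_STR :=
  STR CONV GKF a_BASIC NLF a_TL a_DISPE a_DUH MINK SCHUR (HOM CONV GKF a_DISPE SCHUR)
theorem a_STRC : St_STRC := STRC CONV a_MOL a_BASIC a_STR
theorem a_LMASS : St_LMASS := LMASS a_BASIC a_APX a_COM (VIR1 FUB NLF) FLU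
theorem a_MOM : St_MOM := MOM a_BASIC a_APX a_COM (VIR2 FUB NLF) FLU a_VCONT a_STRC NLF
theorem a_ENER : St_ENER :=
  ENER a_BASIC a_APX a_COM (ENR FUB NLF TRU) a_STRC (EN1 CONV a_MOL a_TL TRU) (EN2 TRU NLF) TRU
    CONV a_MOL NLF
theorem a_INIT : St_INIT := INIT a_BASIC a_ENER NLF
theorem a_MONO : St_MONO := MONO a_BASIC a_ENER
theorem a_MWIN : St_MWIN := MWIN a_BASIC a_TL a_VCONT a_LMASS a_MOM a_LEV GKF a_GR FLU

theorem main_of_win (h : St_WIN) : St_MAIN :=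
  MAIN WU TRANS a_INIT (FIN a_BASIC a_ENER a_MONO a_LMASS h a_MWIN)

end Pool.Agent.Lib.MP_13801a_an.ND
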