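import Mathlib
import Pool.Agent.Lib.MP_13801a_an.ND.StsG

/-!
The weights of the adaptive field vary slowly, and the second derivatives are small in mean.
-/

open MeasureTheory Set Filter Matrix
open scoped Topology

namespace Pool.Agent.Lib.MP_13801a_an.ND

variable {N : ℕ}

theorem ETA_LL {f : E N → ℝ} {f1 : Fin N → E N → ℝ} {c ε r : ℝ}
    (hd : ∀ i x, HasLineDerivAt ℝ f (f1 i x) x (ee i)) (hb : ∀ i x, |f1 i x| ≤ c)
    (hc : N * c ≤ ε / r) (hf : ∀ x, f x ≤ 0) : LL ε r fun x => Real.exp (f x) := by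
  refine ⟨Real.continuous_exp.comp (continuous_of_line hd hb),
    fun x => ⟨Real.exp_pos _, Real.exp_le_one_iff.2 (hf x)⟩, fun x y => ?_⟩
  rw [← Real.exp_add, Real.exp_le_exp, mul_div_right_comm]
  have h1 := (abs_le.1 (lip_of_line hd hb x y)).2
  have h2 := mul_le_mul_of_nonneg_right hc (norm_nonneg (x - y))
  linarith

theorem ETA_single {m : ℕ} (C1 : ℝ) (w : Fin m → ℕ → ℝ) {u : Fin m → ℕ → ℝ}
    (hu : ∀ a k, 0 ≤ u a k) (a : Fin m) (k : ℕ) :
    Real.exp (-ck C1 w k / 2) * u a k ≤ tv C1 w u (k + 1) := by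
  refine le_trans ?_ (Finset.single_le_sum
    (f := fun k => Real.exp (-ck C1 w k / 2) * ∑ a, u a k) (fun k _ => mul_nonneg
      (Real.exp_pos _).le (Finset.sum_nonneg fun a _ => hu a k)) (Finset.self_mem_range_succ k))
  exact mul_le_mul_of_nonneg_left (Finset.single_le_sum (f := fun a => u a k)
    (fun a _ => hu a k) (Finset.mem_univ a)) (Real.exp_pos _).le

theorem ETA_geom (c : Cfg) {t : ℕ → ℝ} {δ : ℝ} (hδ : 0 ≤ δ) (h : ∀ k, rk c k * t k ≤ δ) (k : ℕ) :
    rk c k * ∑ k' ∈ Finset.range k, t k' ≤ δ := by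
  induction k with
  | zero => simpa using hδ
  | succ k ih =>
    have e1 : rk c (k + 1) = Real.exp (-1) * rk c k := by
      rw [rk, rk, ← Real.exp_add]
      congr 1
      push_cast
      ring
    have e2 : Real.exp (-1) ≤ 1 / 2 := by
      rw [Real.exp_neg, one_div]
      exact inv_anti₀ two_pos (by linarith [Real.add_one_le_exp 1])
    rw [Finset.sum_range_succ, e1, mul_assoc, mul_add]
    calc _ ≤ Real.exp (-1) * (δ + δ) := by gcongr; exact h k
      _ ≤ 1 / 2 * (δ + δ) := by gcongr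
      _ = δ := by ring

theorem ETA (h1 : St_SENS1) (h2 : St_MDER) (h3 : St_MBND) : St_ETA := by
  intro N Γ P K ε hΓ hP hε
  obtain ⟨C1, hC1, H1⟩ := h1 N Γ P K hP
  obtain ⟨C, hC, H3⟩ := h3 N
  set D : ℝ := Γ.m * (N ^ 2 * √(C * |K|) + C) with hD
  have hD0 : 0 ≤ D := by positivity
  set ε1 : ℝ := ε / ((N + 1) * (C1 + 1)) with hε1
  have hε0 : 0 < ε1 := by positivity
  have hε2 : (N + 1) * (C1 + 1) * ε1 = ε := by rw [hε1]; field_simp
  have hN : (0 : ℝ) ≤ N := by positivity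
  refine ⟨(ε1 / (D + 1)) ^ 2, by positivity, fun c β e ρ hβ hc hρ hA k => ?_⟩
  have hβ0 := hc.prof.β0
  have hβ1 : √β ≤ ε1 / (D + 1) := Real.sqrt_le_iff.2 ⟨by positivity, hβ⟩
  have hβ2 : β ≤ √β := Real.le_sqrt_of_sq_le (by nlinarith [hc.prof.β1])
  have B := fun a => H3 c β e (ap (Γ.L a)) ρ hc hρ
  have hW : ∀ x a k, 0 ≤ cW Γ c ρ x a k := fun x a k => (B a k x).1.1
  have hck := fun x => ck_nonneg hP.C11 (hW x)
  have hr := rk_pos c
  have hmu : ∀ i x, rk c k * mu P.C1 (cW Γ c ρ x) (cB3 Γ c ρ i x) (cW1 Γ c ρ i x) k ≤ ε1 := by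
    intro i x
    refine ETA_geom c hε0.le (fun k => ?_) k
    have e1 : ∀ a, rk c k * (Real.exp (-ck P.C1 (cW Γ c ρ x) k) * n1 (cB3 Γ c ρ i x a k) +
        |cW1 Γ c ρ i x a k|) ≤ √β * (N ^ 2 * √(C * |K|) + C) := by
      intro a
      have e2 : Real.exp (-ck P.C1 (cW Γ c ρ x) k / 2) * fS c (ap (Γ.L a)) ρ k x ≤ |K| :=
        (ETA_single P.C1 (cW Γ c ρ x) (u := fun a k => fS c (ap (Γ.L a)) ρ k x)
          (fun a k => (B a k x).1.2.2.2.1) a k).trans ((tv_mono _ _ (fun a k => by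
            have := (B a k x).1
            linarith [n1_nonneg (cB Γ c ρ x a k), this.1, this.2.1]) _).trans
          ((hA x (k + 1)).trans (le_abs_self K)))
      have e3 : n1 ((rk c k * Real.exp (-ck P.C1 (cW Γ c ρ x) k)) • cB3 Γ c ρ i x a k) ≤
          N ^ 2 * (√β * √(C * |K|)) := n1_le_of_abs fun j j' => by
        rw [← Real.sqrt_mul hβ0.le]
        refine Real.abs_le_sqrt ?_
        have e4 := ((B a k x).2.2.1 _ _ _ (norm_col_le hΓ a j) (norm_col_le hΓ a j')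
          (norm_col_le hΓ a i)).1
        have e5 : Real.exp (-ck P.C1 (cW Γ c ρ x) k) ^ 2 ≤
            Real.exp (-ck P.C1 (cW Γ c ρ x) k / 2) := by
          rw [sq, ← Real.exp_add, Real.exp_le_exp]
          linarith [hck x k]
        have e6 := (B a k x).1.2.2.2.1
        calc _ = Real.exp (-ck P.C1 (cW Γ c ρ x) k) ^ 2 * (rk c k *
              fB3 c (ap (Γ.L a)) ρ k (col Γ a j) (col Γ a j') (col Γ a i) x) ^ 2 := by
              simp only [cB3, Matrix.smul_apply, Matrix.of_apply, smul_eq_mul]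
              ring
          _ ≤ Real.exp (-ck P.C1 (cW Γ c ρ x) k / 2) * (C * β * fS c (ap (Γ.L a)) ρ k x) := by
              gcongr
          _ = β * (C * (Real.exp (-ck P.C1 (cW Γ c ρ x) k / 2) * fS c (ap (Γ.L a)) ρ k x)) := by
              ring
          _ ≤ _ := by gcongr
      rw [n1_smul, abs_of_pos (mul_pos (hr k) (Real.exp_pos _))] at e3
      have e4 : rk c k * |cW1 Γ c ρ i x a k| ≤ C * √β :=
        ((B a k x).2.1 _ (norm_col_le hΓ a i)).2.1.trans (by gcongr)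
      linarith
    rw [Finset.mul_sum]
    refine (Finset.sum_le_sum fun a _ => e1 a).trans ?_
    rw [Finset.sum_const, Finset.card_univ, Fintype.card_fin, nsmul_eq_mul]
    calc _ = √β * D := by rw [hD]; ring
      _ ≤ ε1 / (D + 1) * (D + 1) := by gcongr; linarith
      _ = ε1 := by field_simp
  have hmu' : ∀ i x, mu P.C1 (cW Γ c ρ x) (cB3 Γ c ρ i x) (cW1 Γ c ρ i x) k ≤ ε1 / rk c k :=
    fun i x => by rw [le_div_iff₀' (hr k)]; exact hmu i x
  have M := fun a k i x => (h2 N c β e (ap (Γ.L a)) ρ hc hρ k).2.2 (ee i) x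
  have hp : 0 ≤ N * C1 * ε1 := by positivity
  have hp1 : 0 ≤ N * ε1 := by positivity
  have hp2 : 0 ≤ C1 * ε1 := by positivity
  refine ⟨fun i x => (hmu i x).trans (by linarith), fun a => ?_, ?_⟩
  · have S := fun i x => H1 (fun s => cB Γ c ρ (x + s • ee i)) (fun s => cW Γ c ρ (x + s • ee i))
      (cB3 Γ c ρ i x) (cW1 Γ c ρ i x) 0 (fun a k j j' => ((M a k i x).2.1 _ _).1)
      (fun a k => (M a k i x).2.2.1) (fun a k => hW _ a k) (fun n => (tv_mono _ _ (fun a k => by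
        have := (B a k (x + (0 : ℝ) • ee i)).1
        simp only [cW]
        linarith [this.1, this.2.1, this.2.2.2.1]) _).trans (hA _ n)) a k
    refine ETA_LL (f := fun x => leta Γ P (cB Γ c ρ x) (cW Γ c ρ x) a k) (c := C1 * (ε1 / rk c k))
      (fun i x => (S i x).1.hasDerivAt) (fun i x => (S i x).2.trans ?_) ?_ fun x => ?_
    · rw [zero_smul, add_zero]
      exact mul_le_mul_of_nonneg_left (hmu' i x) hC1
    · rw [← mul_assoc, ← mul_div_assoc]
      exact div_le_div_of_nonneg_right (by linarith) (hr k).le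
    · exact Real.exp_le_one_iff.1 ((eta_le Γ hP _ (hW x) a k).trans
        (Real.exp_le_one_iff.2 (by linarith [hck x k])))
  · refine ETA_LL (c := ε1 / rk c k) (f1 := fun i x =>
      -((∑ k' ∈ Finset.range k, ∑ a, cW1 Γ c ρ i x a k') / P.C1) / 2)
      (fun i x => ?_) (fun i x => le_trans ?_ (hmu' i x)) ?_ fun x => by linarith [hck x k]
    · exact ((HasDerivAt.fun_sum fun k' _ => HasDerivAt.fun_sum fun a _ =>
        (M a k' i x).2.2.1).div_const _).neg.div_const 2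
    · have e1 : |∑ k' ∈ Finset.range k, ∑ a, cW1 Γ c ρ i x a k'| ≤
          mu P.C1 (cW Γ c ρ x) (cB3 Γ c ρ i x) (cW1 Γ c ρ i x) k :=
        (Finset.abs_sum_le_sum_abs _ _).trans (Finset.sum_le_sum fun k' _ =>
          (Finset.abs_sum_le_sum_abs _ _).trans (Finset.sum_le_sum fun a _ =>
            le_add_of_nonneg_left (mul_nonneg (Real.exp_pos _).le (n1_nonneg _))))
      have e2 := hP.C11
      rw [abs_div, abs_neg, abs_div, abs_two, abs_of_pos (by linarith : 0 < P.C1)]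
      exact (div_le_self (by positivity) one_le_two).trans
        ((div_le_self (abs_nonneg _) e2).trans e1)
    · rw [← mul_div_assoc]
      exact div_le_div_of_nonneg_right (by linarith) (hr k).le

theorem ETA_cb_const (c : ℝ) : CB fun _ : E N => c := ⟨continuous_const, |c|, fun _ => le_rfl⟩

theorem ETA_cb_add {f g : E N → ℝ} (hf : CB f) (hg : CB g) : CB fun x => f x + g x := by
  obtain ⟨B, hB⟩ := hf.2
  obtain ⟨B', hB'⟩ := hg.2
  exact ⟨hf.1.add hg.1, B + B', fun x => (abs_add_le _ _).trans (add_le_add (hB x) (hB' x))⟩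

theorem ETA_cb_mul {f g : E N → ℝ} (hf : CB f) (hg : CB g) : CB fun x => f x * g x := by
  obtain ⟨B, hB⟩ := hf.2
  obtain ⟨B', hB'⟩ := hg.2
  refine ⟨hf.1.mul hg.1, B * B', fun x => ?_⟩
  rw [abs_mul]
  exact mul_le_mul (hB x) (hB' x) (abs_nonneg _) ((abs_nonneg _).trans (hB x))

theorem ETA_cb_abs {f : E N → ℝ} (hf : CB f) : CB fun x => |f x| :=
  ⟨hf.1.abs, hf.2.imp fun _ h x => by rw [abs_abs]; exact h x⟩

theorem ETA_cb_sum {ι : Type*} (s : Finset ι) {f : ι → E N → ℝ} (hf : ∀ i, CB (f i)) :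
    CB fun x => ∑ i ∈ s, f i x := by
  classical
  induction s using Finset.induction_on with
  | empty => simpa using ETA_cb_const 0
  | insert i s hi ih =>
    simp only [Finset.sum_insert hi]
    exact ETA_cb_add (hf i) ih

theorem ETA_int {ρ f : E N → ℝ} (hρ : Integrable ρ) (hf : CB f) : Integrable fun x => ρ x * f x :=
  hf.2.elim fun _ h => hρ.mul_bdd hf.1.aestronglyMeasurable (ae_of_all _ h)

theorem SX2 (h1 : St_ETA) (h2 : St_MDER) (h3 : St_MBND) (h4 : St_MLF) (h5 : St_MFD) :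
    St_SX2 := by
  intro N Γ P K η hΓ hP hη
  have hA1 : 1 ≤ Γ.A := (hΓ.lin ⟨0, hΓ.m0⟩).A1
  obtain ⟨β1, hβ1, H1⟩ := h1 N Γ P K (1 / Γ.A) hΓ hP (by positivity)
  obtain ⟨C, hC, H3⟩ := h3 N
  obtain ⟨CL, hCL, H4⟩ := h4 N Γ.A
  obtain ⟨CD, hCD, H5⟩ := h5 N Γ.A
  set D : ℝ := 8 * C * (N + 1) ^ 6 with hD
  have hD0 : 0 ≤ D := by positivity
  set T : ℝ := |K| * D * (Γ.m * CD + CL * |K|) with hT
  have hT0 : 0 ≤ T := by positivity
  refine ⟨min β1 (η / (T + 1)), by positivity, fun c β e ρ κ j n hβ he hc hF hA => ?_⟩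
  have hρ := hF.den
  have B := fun a => H3 c β e (ap (Γ.L a)) ρ hc hρ
  have M := fun a k => (h2 N c β e (ap (Γ.L a)) ρ hc hρ k).1
  have L := fun k => (H1 c β e ρ (hβ.trans (min_le_left _ _)) hc hρ hA k).2.2
  set p : ℕ → E N → ℝ := fun k x => Real.exp (-ck P.C1 (cW Γ c ρ x) k / 2) with hp
  have hp0 : ∀ k x, 0 < p k x ∧ p k x ≤ 1 := fun k => (L k).2.1
  have hp1 : ∀ k, CB (p k) := fun k =>
    ⟨(L k).1, 1, fun x => by rw [abs_of_pos (hp0 k x).1]; exact (hp0 k x).2⟩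
  have n3 : ∀ l a k, CB fun x => n1 (cB3 Γ c ρ l x a k) := fun l a k =>
    ETA_cb_sum _ fun i => ETA_cb_sum _ fun i' =>
      ETA_cb_abs ((M a k).2.2.2.2.2.2.2 (col Γ a i) (col Γ a i') (col Γ a l)).1
  have n4 : ∀ l a k, CB fun x => n1 (cB4 Γ c ρ l x a k) := fun l a k =>
    ETA_cb_sum _ fun i => ETA_cb_sum _ fun i' =>
      ETA_cb_abs ((M a k).2.2.2.2.2.2.2 (col Γ a i) (col Γ a i') (col Γ a l)).2
  have n5 : ∀ l a k, CB fun x => |cW1 Γ c ρ l x a k| := fun l a k =>
    ETA_cb_abs ((M a k).2.2.2.2.2.1 (col Γ a l)).2.1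
  have n6 : ∀ l a k, CB fun x => |cW2 Γ c ρ l x a k| := fun l a k =>
    ETA_cb_abs ((M a k).2.2.2.2.2.1 (col Γ a l)).2.2
  have hsg : CB (sg Γ P c ρ) := ETA_cb_sum (Finset.range c.n) fun k => ETA_cb_mul (hp1 k)
    (ETA_cb_sum Finset.univ fun a => ETA_cb_sum Finset.univ fun l =>
      ETA_cb_add (ETA_cb_add (n3 l a k) (n5 l a k))
        (ETA_cb_mul (ETA_cb_const (rk c k)) (ETA_cb_add (n4 l a k) (n6 l a k))))
  refine ⟨hsg, ?_⟩
  have hwp : ∀ x, ∑ k ∈ Finset.range c.n, ∑ a, p k x * fWP c (ap (Γ.L a)) ρ k x ≤ |K| := fun x => by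
    simp only [← Finset.mul_sum]
    exact (tv_mono P.C1 (cW Γ c ρ x) (u := fun a k => fWP c (ap (Γ.L a)) ρ k x) (fun a k => by
      have := (B a k x).1
      linarith [n1_nonneg (cB Γ c ρ x a k), this.1, this.2.2.2.1]) _).trans
      ((hA x c.n).trans (le_abs_self K))
  set g : ℕ → Fin Γ.m → E N → ℝ := fun k a x =>
    fD c (ap (Γ.L a)) ρ k x + e ^ 2 * (p k x * fI c (ap (Γ.L a)) ρ k x) with hg
  have hpt : ∀ x, sg Γ P c ρ x ^ 2 ≤ |K| * D * ∑ k ∈ Finset.range c.n, ∑ a, g k a x := by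
    intro x
    have hg0 : ∀ k a, 0 ≤ g k a x := fun k a => by
      have := (B a k x).1.2.2.2.2
      exact add_nonneg this.1 (mul_nonneg (sq_nonneg _) (mul_nonneg (hp0 k x).1.le this.2))
    have e1 := Finset.sum_sq_le_sum_mul_sum_of_sq_le_mul (Finset.range c.n ×ˢ Finset.univ)
      (r := fun y : ℕ × Fin Γ.m => p y.1 x * ∑ l, (n1 (cB3 Γ c ρ l x y.2 y.1) +
        |cW1 Γ c ρ l x y.2 y.1| + rk c y.1 * (n1 (cB4 Γ c ρ l x y.2 y.1) + |cW2 Γ c ρ l x y.2 y.1|)))
      (f := fun y => p y.1 x * fWP c (ap (Γ.L y.2)) ρ y.1 x) (g := fun y => D * g y.1 y.2 x)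
      (fun y _ => mul_nonneg (hp0 _ x).1.le ((B _ _ x).1.1.trans (B _ _ x).1.2.1))
      (fun y _ => mul_nonneg hD0 (hg0 _ _)) fun ⟨k, a⟩ _ => by
        obtain ⟨⟨b1, b2, -, -, b3, b4⟩, b5, b6, -⟩ := B a k x
        have b7 := b1.trans b2
        set w := fWP c (ap (Γ.L a)) ρ k x
        set d := fD c (ap (Γ.L a)) ρ k x
        set i := fI c (ap (Γ.L a)) ρ k x
        have hr := rk_pos c k
        have hN : (0 : ℝ) ≤ N := by positivity
        have hN1 : (1 : ℝ) ≤ (N + 1) ^ 2 := one_le_pow₀ (by linarith)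
        have hN2 : (N : ℝ) ^ 2 ≤ (N + 1) ^ 2 := by gcongr; linarith
        have e2 : ∀ l, n1 (cB3 Γ c ρ l x a k) + |cW1 Γ c ρ l x a k| +
            rk c k * (n1 (cB4 Γ c ρ l x a k) + |cW2 Γ c ρ l x a k|) ≤
            2 * (N + 1) ^ 2 * (√(C * (w * d)) + √(C * e ^ 2 * (w * i))) := fun l => by
          have c1 : n1 (cB3 Γ c ρ l x a k) ≤ N ^ 2 * √(C * (w * d)) := n1_le_of_abs fun s s' =>
            Real.abs_le_sqrt (b6 _ _ _ (norm_col_le hΓ a s) (norm_col_le hΓ a s')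
              (norm_col_le hΓ a l)).2.1
          have c2 : n1 (rk c k • cB4 Γ c ρ l x a k) ≤ N ^ 2 * √(C * (w * d)) :=
            n1_le_of_abs fun s s' => Real.abs_le_sqrt (b6 _ _ _ (norm_col_le hΓ a s)
              (norm_col_le hΓ a s') (norm_col_le hΓ a l)).2.2
          have c3 : |cW1 Γ c ρ l x a k| ≤ √(C * e ^ 2 * (w * i)) :=
            Real.abs_le_sqrt (b5 _ (norm_col_le hΓ a l)).2.2.1
          have c4 : |rk c k * cW2 Γ c ρ l x a k| ≤ √(C * e ^ 2 * (w * i)) :=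
            Real.abs_le_sqrt (b5 _ (norm_col_le hΓ a l)).2.2.2
          rw [n1_smul, abs_of_pos hr] at c2
          rw [abs_mul, abs_of_pos hr] at c4
          have c5 := mul_le_mul_of_nonneg_right hN2 (Real.sqrt_nonneg (C * (w * d)))
          have c6 := mul_le_mul_of_nonneg_right hN1 (Real.sqrt_nonneg (C * e ^ 2 * (w * i)))
          linarith
        have e3 := Finset.sum_le_sum fun l (_ : l ∈ Finset.univ) => e2 l
        rw [Finset.sum_const, Finset.card_univ, Fintype.card_fin, nsmul_eq_mul] at e3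
        have e4 : (√(C * (w * d)) + √(C * e ^ 2 * (w * i))) ^ 2 ≤
            2 * (C * (w * d) + C * e ^ 2 * (w * i)) := by
          have f1 := Real.sq_sqrt (show 0 ≤ C * (w * d) by positivity)
          have f2 := Real.sq_sqrt (show 0 ≤ C * e ^ 2 * (w * i) by positivity)
          nlinarith [sq_nonneg (√(C * (w * d)) - √(C * e ^ 2 * (w * i)))]
        have e5 := pow_le_pow_left₀ (Finset.sum_nonneg fun l _ => by
          have := n1_nonneg (cB3 Γ c ρ l x a k)
          have := n1_nonneg (cB4 Γ c ρ l x a k)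
          positivity) e3 2
        obtain ⟨q0, q1⟩ := hp0 k x
        rw [mul_pow]
        calc _ ≤ p k x ^ 2 * ((N + 1) ^ 2 * (4 * (N + 1) ^ 4 *
              (2 * (C * (w * d) + C * e ^ 2 * (w * i))))) := by
              refine mul_le_mul_of_nonneg_left (e5.trans ?_) (sq_nonneg _)
              rw [mul_pow, mul_pow, show (2 * ((N : ℝ) + 1) ^ 2) ^ 2 = 4 * (N + 1) ^ 4 by ring]
              gcongr
          _ = p k x * w * (D * (p k x * d + e ^ 2 * (p k x * i))) := by rw [hD]; ring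
          _ ≤ p k x * w * (D * (1 * d + e ^ 2 * (p k x * i))) := by gcongr
          _ = _ := by rw [one_mul]
    simp only [Finset.sum_product, ← Finset.mul_sum] at e1
    refine e1.trans ?_
    rw [mul_assoc |K|]
    refine mul_le_mul_of_nonneg_right ?_ (mul_nonneg hD0
      (Finset.sum_nonneg fun k _ => Finset.sum_nonneg fun a _ => hg0 k a))
    simpa only [Finset.mul_sum] using hwp x
  have iD : ∀ k a, Integrable fun x => ρ x * fD c (ap (Γ.L a)) ρ k x := fun k a =>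
    ETA_int hρ.1 (M a k).2.2.2.1
  have iI : ∀ k a, Integrable fun x => ρ x * p k x * fI c (ap (Γ.L a)) ρ k x := fun k a => by
    simpa only [mul_assoc] using ETA_int hρ.1 (ETA_cb_mul (hp1 k) (M a k).2.2.2.2.1)
  have iW : ∀ k a, Integrable fun x => κ x * p k x * fWP c (ap (Γ.L a)) ρ k x := fun k a => by
    simpa only [mul_assoc] using ETA_int hF.kden.1 (ETA_cb_mul (hp1 k) (M a k).2.1)
  have iG : ∀ k a, Integrable fun x => ρ x * fD c (ap (Γ.L a)) ρ k x +
      e ^ 2 * (ρ x * p k x * fI c (ap (Γ.L a)) ρ k x) := fun k a =>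
    (iD k a).add ((iI k a).const_mul _)
  have hκ : 0 ≤ ∫ x, κ x := integral_nonneg hF.kden.2
  have s1 : ∑ k ∈ Finset.range c.n, ∑ a, ∫ x, ρ x * fD c (ap (Γ.L a)) ρ k x ≤
      Γ.m * (CD * β * ∫ x, κ x) := by
    rw [Finset.sum_comm]
    simpa using Finset.sum_le_sum fun a (_ : a ∈ Finset.univ) =>
      H5 c β e _ _ ρ κ j n hc (hΓ.lin a) hF c.n
  have s2 : ∑ k ∈ Finset.range c.n, ∑ a, ∫ x, ρ x * p k x * fI c (ap (Γ.L a)) ρ k x ≤
      CL * (|K| * ∫ x, κ x) := by
    refine (Finset.sum_le_sum fun k _ => Finset.sum_le_sum fun a _ =>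
      H4 c β e _ _ ρ κ j n hc (hΓ.lin a) hF k _ _ (by positivity) (le_of_eq (by field_simp))
        (L k)).trans ?_
    simp only [← Finset.mul_sum]
    refine mul_le_mul_of_nonneg_left ?_ hCL
    rw [← integral_const_mul, Finset.sum_congr rfl fun k _ =>
      (integral_finsetSum _ fun a _ => iW k a).symm,
      ← integral_finsetSum _ fun k _ => integrable_finsetSum _ fun a _ => iW k a]
    refine integral_mono (integrable_finsetSum _ fun k _ => integrable_finsetSum _ fun a _ => iW k a)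
      (hF.kden.1.const_mul _) fun x => ?_
    have := mul_le_mul_of_nonneg_left (hwp x) (hF.kden.2 x)
    simp only [Finset.mul_sum, ← mul_assoc] at this
    simpa only [mul_comm |K|] using this
  have hβ0 := hc.prof.β0
  have he0 := hc.prof.e0
  have hb : β ≤ η / (T + 1) := hβ.trans (min_le_right _ _)
  have he2 : e ^ 2 ≤ η / (T + 1) :=
    le_trans (by nlinarith [hc.prof.e1]) (he.trans (min_le_right _ _))
  calc _ ≤ ∫ x, |K| * D * ∑ k ∈ Finset.range c.n, ∑ a, (ρ x * fD c (ap (Γ.L a)) ρ k x +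
        e ^ 2 * (ρ x * p k x * fI c (ap (Γ.L a)) ρ k x)) := by
        refine integral_mono (by simpa only [sq] using ETA_int hρ.1 (ETA_cb_mul hsg hsg))
          ((integrable_finsetSum _ fun k _ => integrable_finsetSum _ fun a _ => iG k a).const_mul _)
          fun x => (mul_le_mul_of_nonneg_left (hpt x) (hρ.2 x)).trans (le_of_eq ?_)
        simp only [hg, Finset.mul_sum]
        exact Finset.sum_congr rfl fun k _ => Finset.sum_congr rfl fun a _ => by ring
    _ = |K| * D * (∑ k ∈ Finset.range c.n, ∑ a, (∫ x, ρ x * fD c (ap (Γ.L a)) ρ k x) +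
        e ^ 2 * ∑ k ∈ Finset.range c.n, ∑ a, ∫ x, ρ x * p k x * fI c (ap (Γ.L a)) ρ k x) := by
        rw [integral_const_mul,
          integral_finsetSum _ fun k _ => integrable_finsetSum _ fun a _ => iG k a]
        simp only [Finset.mul_sum, ← Finset.sum_add_distrib]
        refine Finset.sum_congr rfl fun k _ => ?_
        rw [integral_finsetSum _ fun a _ => iG k a, Finset.mul_sum]
        refine Finset.sum_congr rfl fun a _ => ?_
        rw [integral_add (iD k a) ((iI k a).const_mul _), integral_const_mul]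
    _ ≤ |K| * D * (Γ.m * (CD * β * ∫ x, κ x) + e ^ 2 * (CL * (|K| * ∫ x, κ x))) := by gcongr
    _ ≤ |K| * D * (Γ.m * (CD * (η / (T + 1)) * ∫ x, κ x) +
        η / (T + 1) * (CL * (|K| * ∫ x, κ x))) := by gcongr
    _ = η / (T + 1) * T * ∫ x, κ x := by rw [hT]; ring
    _ ≤ η / (T + 1) * (T + 1) * ∫ x, κ x := by gcongr; linarith
    _ = _ := by field_simp

end Pool.Agent.Lib.MP_13801a_an.ND
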