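import Mathlib
import Pool.Agent.Lib.MP_13801a_an.ND.StsG

/-!
Assembly of the adaptive vector field.
-/

open MeasureTheory Set Filter Matrix
open scoped Topology

namespace Pool.Agent.Lib.MP_13801a_an.ND

variable {N : ℕ}

theorem FLD_x2 {ρ κ sg : E N → ℝ} {j n : Fin N → E N → ℝ} (hF : Flu ρ κ j n) (hs : CB sg)
    {C t : ℝ} (hC : 0 ≤ C) (ht : 0 < t) (hi : ∫ x, ρ x * sg x ^ 2 ≤ t ^ 2 * ∫ x, κ x)
    {X : E N → ℝ} (hX : ∀ x, |X x| ≤ C * sg x) (i : Fin N) :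
    ∫ x, X x * n i x ≤ 2 * C * t * ∫ x, κ x := by
  obtain ⟨hc, B, hB⟩ := hs
  have i1 : Integrable fun x => ρ x * sg x ^ 2 :=
    hF.den.1.mul_bdd (c := B ^ 2) (hc.pow 2).aestronglyMeasurable (Eventually.of_forall fun x => by
      rw [Real.norm_eq_abs, abs_pow]
      exact pow_le_pow_left₀ (abs_nonneg _) (hB x) 2)
  have i2 : Integrable fun x => C * (t * κ x + ρ x * sg x ^ 2 / t) :=
    ((hF.kden.1.const_mul t).add (i1.div_const t)).const_mul C
  have h1 : ‖∫ x, X x * n i x‖ ≤ ∫ x, C * (t * κ x + ρ x * sg x ^ 2 / t) := by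
    refine norm_integral_le_of_norm_le i2 (Eventually.of_forall fun x => ?_)
    have a1 : n i x ^ 2 ≤ 4 * (ρ x * κ x) :=
      (Finset.single_le_sum (f := fun l => n l x ^ 2) (fun _ _ => sq_nonneg _)
        (Finset.mem_univ i)).trans (hF.bn x)
    have a2 := two_abs_le (x := sg x * n i x / 2) (hF.kden.2 x)
      (mul_nonneg (hF.den.2 x) (sq_nonneg (sg x)))
      (by nlinarith [mul_le_mul_of_nonneg_left a1 (sq_nonneg (sg x))]) ht
    rw [abs_div, abs_two, abs_mul] at a2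
    rw [Real.norm_eq_abs, abs_mul]
    calc |X x| * |n i x| ≤ C * |sg x| * |n i x| :=
          mul_le_mul_of_nonneg_right ((hX x).trans
            (mul_le_mul_of_nonneg_left (le_abs_self _) hC)) (abs_nonneg _)
      _ = C * (|sg x| * |n i x|) := by ring
      _ ≤ _ := mul_le_mul_of_nonneg_left (by linarith) hC
  rw [integral_const_mul, integral_add (hF.kden.1.const_mul t) (i1.div_const t),
    integral_const_mul, integral_div] at h1
  have h2 : (∫ x, ρ x * sg x ^ 2) / t ≤ t * ∫ x, κ x := by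
    rw [div_le_iff₀ ht]
    linarith
  calc _ ≤ C * (t * (∫ x, κ x) + (∫ x, ρ x * sg x ^ 2) / t) := (le_abs_self _).trans h1
    _ ≤ C * (t * (∫ x, κ x) + t * ∫ x, κ x) := mul_le_mul_of_nonneg_left (by linarith) hC
    _ = _ := by ring

theorem FLD_near {A B : Mt N} {η : ℝ} (h : n1 (A - B) ≤ η) :
    (∀ y, qf A y ≤ qf B y + η * ∑ i, y i ^ 2) ∧ B.trace - η ≤ A.trace := by
  constructor
  · intro y
    have e : qf A y = qf B y + qf (A - B) y := by
      simp only [qf, ← Finset.sum_add_distrib, Matrix.sub_apply]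
      exact Finset.sum_congr rfl fun i _ => Finset.sum_congr rfl fun j _ => by ring
    have h1 := (le_abs_self _).trans (abs_qf_le (A - B) y)
    have h2 := mul_le_mul_of_nonneg_right h
      (Finset.sum_nonneg fun i (_ : i ∈ Finset.univ) => sq_nonneg (y i))
    linarith
  · have h1 := (abs_le.1 ((abs_trace_le (A - B)).trans h)).1
    rw [Matrix.trace_sub] at h1
    linarith

theorem FLD_dense {q Θ r0 M τ0 : ℝ} {ρ : E N → ℝ} (hq : 0 < q) (hΘ : 0 < Θ) (hr0 : 0 < r0)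
    (hρ : Den ρ) (hM : ∫ x, ρ x = M) (hτ : Real.log (M / Θ) / q + 2 ≤ τ0) {x : E N}
    (hx : x ∉ Sp q Θ r0 ρ) : ∃ (r : ℝ) (k : ℕ), 0 < r ∧ Θ * r ^ q ≤ ∫ y, gs r (x - y) * ρ y ∧
      3 * r ≤ Real.exp (τ0 - k) ∧ Real.exp (τ0 - k) ≤ 9 * r ∧ k ≤ ⌈τ0 - Real.log r0⌉₊ := by
  simp only [Sp, mem_ofPred_eq, not_forall, not_le] at hx
  obtain ⟨r, hr, hlt⟩ := hx
  have hr' : 0 < r := hr0.trans_le hr
  have h1 : ∫ y, gs r (x - y) * ρ y ≤ M := by
    rw [← hM]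
    refine integral_mono_of_nonneg
      (Eventually.of_forall fun y => mul_nonneg (Real.exp_pos _).le (hρ.2 y)) hρ.1
      (Eventually.of_forall fun y => mul_le_of_le_one_left (hρ.2 y) ?_)
    exact Real.exp_le_one_iff.2 (div_nonpos_of_nonpos_of_nonneg
      (neg_nonpos.2 (sq_nonneg _)) (by positivity))
  have h2 : Real.log r ≤ Real.log (M / Θ) / q := by
    rw [le_div_iff₀ hq, mul_comm, ← Real.log_rpow hr']
    refine Real.log_le_log (Real.rpow_pos_of_pos hr' q) ?_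
    rw [le_div_iff₀ hΘ]
    linarith
  have h3 : Real.log (3 * r) ≤ τ0 := by
    rw [Real.log_mul three_ne_zero hr'.ne']
    linarith [Real.log_le_sub_one_of_pos (three_pos (α := ℝ))]
  have h4 := Nat.floor_le (sub_nonneg.2 h3)
  have h5 := Nat.lt_floor_add_one (τ0 - Real.log (3 * r))
  refine ⟨r, ⌊τ0 - Real.log (3 * r)⌋₊, hr', hlt.le, ?_, ?_, ?_⟩
  · rw [← Real.log_le_iff_le_exp (by positivity)]
    linarith
  · calc _ ≤ Real.exp (Real.log (3 * r) + 1) := Real.exp_le_exp.2 (by linarith)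
      _ = 3 * r * Real.exp 1 := by rw [Real.exp_add, Real.exp_log (by positivity)]
      _ ≤ 9 * r := by nlinarith [Real.exp_one_lt_d9]
  · have h6 : Real.log r0 ≤ Real.log (3 * r) := Real.log_le_log hr0 (by linarith)
    have h7 := Nat.le_ceil (τ0 - Real.log r0)
    exact_mod_cast (h4.trans (by linarith) : (⌊τ0 - Real.log (3 * r)⌋₊ : ℝ) ≤ ⌈τ0 - Real.log r0⌉₊)

theorem FLD (h1 : St_PROF) (h2 : St_GAME) (h3 : St_APR) (h4 : St_MBND) (h5 : St_MSTEP)
    (h6 : St_MCR) (h7 : St_SX1) (h8 : St_SX2) (h9 : St_ST) : St_FLD := by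
  intro N q q' η hN hq hq0 hqq hη
  have hN' : (1 : ℝ) ≤ N := by exact_mod_cast hN
  have hqN : q' ≤ N := hqq.le.trans (by exact_mod_cast hq)
  obtain ⟨Γ, hΓ, hG⟩ := h2 N q q' (η / 2) hN hq hq0.le hqq (half_pos hη)
  obtain ⟨d, C6, hC6, mcr⟩ := h6 N Γ.A
  obtain ⟨C4, hC4, mbnd⟩ := h4 N
  have hCx : 0 ≤ C6 + C4 := add_nonneg hC6 hC4
  obtain ⟨P, β1, Fs, hP, hβ1, hFs, game⟩ := hG (C6 + C4) d hCx
  obtain ⟨K, -, apr⟩ := h3 N Γ P.C1 (C6 + C4) d hP.C11 hCx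
  obtain ⟨C7, hC7, h7'⟩ := h7 N Γ P K hΓ hP
  obtain ⟨β2, hβ2, sx1⟩ := h7' (η / (2 * N ^ 2)) (by positivity)
  obtain ⟨t, ht, htη⟩ : ∃ t : ℝ, 0 < t ∧ (N : ℝ) ^ 2 * (2 * C7 * t) ≤ η := by
    refine ⟨η / (N ^ 2 * (2 * C7) + 1), by positivity, ?_⟩
    rw [← mul_div_assoc, ← mul_div_assoc, div_le_iff₀ (by positivity)]
    nlinarith
  obtain ⟨β3, hβ3, sx2⟩ := h8 N Γ P K (t ^ 2) hΓ hP (by positivity)
  obtain ⟨β4, hβ4, st⟩ := h9 N Γ P K η hΓ hP hη
  obtain ⟨β, hβ, b1, b2, b3, b4, b5⟩ :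
      ∃ β : ℝ, 0 < β ∧ β ≤ β1 ∧ β ≤ β2 ∧ β ≤ β3 ∧ β ≤ β4 ∧ β ≤ 1 / 2 :=
    ⟨min (min (min β1 β2) (min β3 β4)) (1 / 2), by positivity,
      (min_le_left _ _).trans ((min_le_left _ _).trans (min_le_left _ _)),
      (min_le_left _ _).trans ((min_le_left _ _).trans (min_le_right _ _)),
      (min_le_left _ _).trans ((min_le_right _ _).trans (min_le_left _ _)),
      (min_le_left _ _).trans ((min_le_right _ _).trans (min_le_right _ _)), min_le_right _ _⟩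
  obtain ⟨G, G1, G2, hpr⟩ := h1.1 β β hβ (by linarith) hβ b5
  obtain ⟨Y, hY⟩ := eventually_atBot.1 (hpr.lim.eventually (ge_mem_nhds hβ))
  obtain ⟨S0, hS0⟩ : ∃ S0 : ℝ, S0 = Fs / β + 2 * N + 3 * q' := ⟨_, rfl⟩
  have hS : 0 ≤ S0 := by rw [hS0]; positivity
  obtain ⟨T0, hT0⟩ : ∃ T0 : ℝ, T0 = (Real.log 2 + S0 + |Y|) / q' + d + 2 := ⟨_, rfl⟩
  have hT : 2 ≤ T0 := by
    have := Real.log_nonneg (one_le_two (α := ℝ))
    have : 0 ≤ (Real.log 2 + S0 + |Y|) / q' + d := by positivity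
    linarith
  refine ⟨C7 * Real.exp T0, by positivity, fun M Θ r0 hM hΘ hr0 => ?_⟩
  obtain ⟨τ0, hτ0⟩ : ∃ τ0 : ℝ, τ0 = Real.log (M / Θ) / q' + T0 := ⟨_, rfl⟩
  let c : Cfg := ⟨q', Θ * Real.exp (-S0), M * Real.exp (-(N * τ0)), τ0, G, G1, G2,
    ⌈τ0 - Real.log r0⌉₊⟩
  have hc : c.Ok N β β := ⟨hpr, hq0.le, hqN, by positivity, by positivity⟩
  have play : ∀ ρ : E N → ℝ, Den ρ → ∫ x, ρ x = M → ∀ x,
      Play Γ q' β β (C6 + C4) β d (fun a k => fBH c (ap (Γ.L a)) ρ k x) (cW Γ c ρ x)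
        (fun a k => fS c (ap (Γ.L a)) ρ k x) (fun a k => fWP c (ap (Γ.L a)) ρ k x)
        fun a k => fF c (ap (Γ.L a)) ρ k x := by
    intro ρ hρ hm x
    have m1 := fun a k => mcr c β β _ _ ρ hc (hΓ.lin a) hρ k x
    have m2 := fun a k => (mbnd c β β (ap (Γ.L a)) ρ hc hρ k x).1
    refine ⟨hq0.le, hqN, hβ, by linarith, hβ, b5, by linarith,
      fun a k => (h5 N c β β _ ρ hc hρ k x).1, fun a k => (m1 a k).1, fun a k hk => ?_,
      fun a k => (m2 a k).2.1,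
      fun a k => (m2 a k).2.2.1.trans (mul_le_mul_of_nonneg_right (by linarith) hβ.le),
      fun a a' k => ((m1 a k).2.1 _ _ (hΓ.lin a')).1.trans
        (mul_le_mul_of_nonneg_right (by linarith) (m2 a' k).1),
      fun a a' k => ((m1 a k).2.1 _ _ (hΓ.lin a')).2.trans
        (add_le_add_right (mul_le_mul_of_nonneg_right (by linarith) hβ.le) _)⟩
    refine (m1 a k).2.2.1 M Y β hm.le (le_of_eq ?_) hY ?_
    · change M * Real.exp (-(N * τ0)) * Real.exp (N * τ0) = M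
      rw [mul_assoc, ← Real.exp_add, neg_add_cancel, Real.exp_zero, mul_one]
    · change Real.log (2 * M / (Θ * Real.exp (-S0))) - q' * (τ0 - k) ≤ Y
      have e1 : Real.log (2 * M / (Θ * Real.exp (-S0))) = Real.log 2 + Real.log (M / Θ) + S0 := by
        rw [Real.log_div (by positivity) (by positivity), Real.log_mul two_ne_zero hM.ne',
          Real.log_mul hΘ.ne' (Real.exp_pos _).ne', Real.log_exp, Real.log_div hM.ne' hΘ.ne']
        ring
      have e2 : q' * τ0 = Real.log (M / Θ) + (Real.log 2 + S0 + |Y|) + q' * (d + 2) := by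
        rw [hτ0, hT0]
        field_simp
        ring
      have e3 : (k : ℝ) ≤ d := by exact_mod_cast hk
      rw [e1, mul_sub, e2]
      nlinarith [neg_abs_le Y, mul_le_mul_of_nonneg_left e3 hq0.le]
  have hcj : ∀ ρ : E N → ℝ, Den ρ → ∀ x,
      cB Γ c ρ x = cj Γ fun a k => fBH c (ap (Γ.L a)) ρ k x := by
    intro ρ hρ x
    funext a k
    ext i i'
    exact (h5 N c β β _ ρ hc hρ k x).2 (Γ.L a) i i'
  have hA : ∀ ρ : E N → ℝ, Den ρ → ∫ x, ρ x = M → Apr Γ P c ρ K := by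
    intro ρ hρ hm x n
    rw [hcj ρ hρ x]
    exact (apr _ _ _ _ _ _ _ _ _ (play ρ hρ hm x)).1 n
  refine ⟨cX Γ P c, fun ρ κ j n hF hm => ?_, fun ρ κ j n hF h s hs =>
    st c β β ρ κ j n b4 hc hF (fun s hs => ⟨(h s hs).1, hA _ (h s hs).1.den (h s hs).2⟩) s hs⟩
  obtain ⟨X1, X2, hVF, x0, x1, x2⟩ := sx1 c β β ρ b2 hc hF.den (hA ρ hF.den hm)
  obtain ⟨hsg, hI⟩ := sx2 c β β ρ κ j n b3 b3 hc hF (hA ρ hF.den hm)
  have near : ∀ x, (∀ y, qf (Matrix.of fun i i' => X1 i i' x) y ≤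
      qf (cBf Γ P c ρ x) y + η / 2 * ∑ i, y i ^ 2) ∧
      (cBf Γ P c ρ x).trace - η / 2 ≤ (Matrix.of fun i i' => X1 i i' x).trace := fun x =>
    FLD_near ((n1_le_of_abs fun i i' => x1 i i' x).trans (le_of_eq (by field_simp)))
  have gm := fun x => game β β β _ _ _ _ _ b1 b1 b1 (play ρ hF.den hm x) c.n
  have eB : ∀ x, cBf Γ P c ρ x =
      Bf Γ P (cj Γ fun a k => fBH c (ap (Γ.L a)) ρ k x) (cW Γ c ρ x) c.n := fun x => by
    rw [cBf, hcj ρ hF.den x]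
  refine ⟨X1, X2, hVF, fun i x => (x0 i x).trans (le_of_eq ?_), fun x y => ?_, fun x => ?_,
    fun x hx => ?_, ?_⟩
  · change C7 * Real.exp τ0 = _
    rw [hτ0, Real.exp_add, Real.rpow_def_of_pos (div_pos hM hΘ), mul_one_div]
    ring
  · have a1 := (near x).1 y
    have a2 := (gm x).1 y
    rw [← eB] at a2
    change qf (Matrix.of fun i i' => X1 i i' x) y ≤ _
    linarith
  · have a1 := (near x).2
    have a2 := (gm x).2.1
    rw [← eB] at a2
    change _ ≤ (Matrix.of fun i i' => X1 i i' x).trace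
    linarith
  · obtain ⟨r, k, hr, r1, r2, r3, hk⟩ := FLD_dense (τ0 := τ0) hq0 hΘ hr0 hF.den hm
      (by linarith) hx
    have a0 := (mcr c β β _ _ ρ hc (hΓ.lin ⟨0, hΓ.m0⟩) hF.den k x).2.2.2 Θ r hΘ hr r1 r2 r3
    have e1 : β * (Real.log (Θ / c.θ) - 2 * N - 3 * c.q) = Fs := by
      change β * (Real.log (Θ / (Θ * Real.exp (-S0))) - 2 * N - 3 * q') = Fs
      rw [div_mul_cancel_left₀ hΘ.ne', ← Real.exp_neg, Real.log_exp, neg_neg, hS0]
      field_simp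
      ring
    rw [e1] at a0
    have a1 := (near x).2
    have a2 := (gm x).2.2 ⟨0, hΓ.m0⟩ k hk a0
    rw [← eB] at a2
    change _ ≤ (Matrix.of fun i i' => X1 i i' x).trace
    linarith
  · have hκ : 0 ≤ ∫ x, κ x := integral_nonneg hF.kden.2
    calc _ ≤ ∑ _i : Fin N, ∑ _i' : Fin N, 2 * C7 * t * ∫ x, κ x :=
          Finset.sum_le_sum fun i _ => Finset.sum_le_sum fun i' _ =>
            FLD_x2 hF hsg hC7 ht hI (x2 i i') i'
      _ = (N : ℝ) ^ 2 * (2 * C7 * t) * ∫ x, κ x := by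
          simp only [Finset.sum_const, Finset.card_univ, Fintype.card_fin, nsmul_eq_mul]
          ring
      _ ≤ _ := mul_le_mul_of_nonneg_right htη hκ

end Pool.Agent.Lib.MP_13801a_an.ND
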