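import Mathlib
import Pool.Agent.Lib.MP_13801a_an.ND.StsG

/-!
The outcome of the game as an average of its states.
-/

open Finset Matrix

namespace Pool.Agent.Lib.MP_13801a_an.ND

noncomputable section

variable {N : ℕ}

/-- The quadratic form at a fixed vector, as a linear map of the matrix. -/
def GAME_qf (y : Fin N → ℝ) : Mt N →ₗ[ℝ] ℝ where
  toFun A := qf A y
  map_add' A B := by simp [qf, add_mul, Finset.sum_add_distrib]
  map_smul' c A := by simp [qf, Finset.mul_sum, mul_assoc]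

theorem GAME_Bf_succ (Γ : Net N) (P : GPar) (b : Fin Γ.m → ℕ → Mt N) (w : Fin Γ.m → ℕ → ℝ)
    (n : ℕ) : Bf Γ P b w (n + 1) = Bf Γ P b w n +
      Real.exp (-ak Γ P b w n) • (Bt Γ P b w (n + 1) - Bt Γ P b w n) := by
  rw [Bf, Finset.sum_range_succ, ← Bf, Bt_succ, add_sub_cancel_left, Finset.smul_sum,
    Finset.smul_sum]
  congr 1
  refine Finset.sum_congr rfl fun a _ => ?_
  rw [eta_eq, smul_smul, smul_smul, mul_assoc]

theorem GAME_val (Γ : Net N) (P : GPar) (b : Fin Γ.m → ℕ → Mt N) (w : Fin Γ.m → ℕ → ℝ)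
    (l : Mt N →ₗ[ℝ] ℝ) (n : ℕ) : l (Bf Γ P b w n) =
      Real.exp (-ak Γ P b w n) * l (Bt Γ P b w n) + ∑ k ∈ Finset.range n,
        (Real.exp (-ak Γ P b w k) - Real.exp (-ak Γ P b w (k + 1))) * l (Bt Γ P b w (k + 1)) := by
  induction n with
  | zero => simp [Bf, Bt_zero]
  | succ n ih =>
    rw [GAME_Bf_succ, map_add, map_smul, map_sub, ih, Finset.sum_range_succ, smul_eq_mul]
    ring

theorem GAME_up {a s : ℕ → ℝ} (ha : Monotone a) (h0 : a 0 = 0) {M D a1 : ℝ} (hD : 0 ≤ D)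
    (hall : ∀ k, s k ≤ M + D) (hgood : ∀ k, (∀ k' < k, a k' < a1) → s k ≤ M) (n : ℕ) :
    Real.exp (-a n) * s n + ∑ k ∈ Finset.range n,
      (Real.exp (-a k) - Real.exp (-a (k + 1))) * s (k + 1) ≤ M + D * Real.exp (-a1) := by
  have hu : ∀ k, Real.exp (-a (k + 1)) ≤ Real.exp (-a k) := fun k =>
    Real.exp_le_exp.2 (neg_le_neg (ha (Nat.le_succ k)))
  have key : ∀ n, ∑ k ∈ Finset.range n, (Real.exp (-a k) - Real.exp (-a (k + 1))) * s (k + 1) ≤
      M * (1 - Real.exp (-a n)) +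
        D * (Real.exp (-a1) - min (Real.exp (-a n)) (Real.exp (-a1))) := by
    intro n
    induction n with
    | zero =>
      have := min_le_right (Real.exp (-a 0)) (Real.exp (-a1))
      have h2 : 0 ≤ D * (Real.exp (-a1) - min (Real.exp (-a 0)) (Real.exp (-a1))) :=
        mul_nonneg hD (by linarith)
      have h3 : M * (1 - Real.exp (-a 0)) = 0 := by simp [h0]
      rw [Finset.sum_range_zero]
      linarith
    | succ n ih =>
      rw [Finset.sum_range_succ]
      have hw : 0 ≤ Real.exp (-a n) - Real.exp (-a (n + 1)) := by linarith [hu n]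
      rcases lt_or_ge (a n) a1 with h | h
      · have h1 : s (n + 1) ≤ M := hgood _ fun k' hk' =>
          (ha (Nat.lt_succ_iff.1 hk')).trans_lt h
        have h2 : min (Real.exp (-a (n + 1))) (Real.exp (-a1)) ≤
            min (Real.exp (-a n)) (Real.exp (-a1)) := min_le_min_right _ (hu n)
        have h3 := mul_le_mul_of_nonneg_left h1 hw
        have h4 := mul_le_mul_of_nonneg_left h2 hD
        nlinarith
      · have h1 : Real.exp (-a n) ≤ Real.exp (-a1) := Real.exp_le_exp.2 (neg_le_neg h)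
        rw [min_eq_left h1] at ih
        rw [min_eq_left ((hu n).trans h1)]
        have h3 := mul_le_mul_of_nonneg_left (hall (n + 1)) hw
        nlinarith
  have hn := key n
  have hp := (Real.exp_pos (-a n)).le
  rcases lt_or_ge (a n) a1 with h | h
  · have h1 : s n ≤ M := hgood _ fun k' hk' => (ha hk'.le).trans_lt h
    have h2 : 0 ≤ min (Real.exp (-a n)) (Real.exp (-a1)) := le_min hp (Real.exp_pos _).le
    have h3 := mul_le_mul_of_nonneg_left h1 hp
    have h4 := mul_nonneg hD h2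
    nlinarith
  · have h1 : Real.exp (-a n) ≤ Real.exp (-a1) := Real.exp_le_exp.2 (neg_le_neg h)
    rw [min_eq_left h1] at hn
    have h3 := mul_le_mul_of_nonneg_left (hall n) hp
    nlinarith

theorem GAME_low {a s : ℕ → ℝ} (ha : Monotone a) (h0 : a 0 = 0) {T : ℝ}
    (h : ∀ k, a (k + 1) ≠ a k → T ≤ s (k + 1)) (n : ℕ) :
    T * (1 - Real.exp (-a n)) ≤ ∑ k ∈ Finset.range n,
      (Real.exp (-a k) - Real.exp (-a (k + 1))) * s (k + 1) := by
  induction n with
  | zero => simp [h0]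
  | succ n ih =>
    rw [Finset.sum_range_succ]
    have hw : 0 ≤ Real.exp (-a n) - Real.exp (-a (n + 1)) := by
      linarith [Real.exp_le_exp.2 (neg_le_neg (ha (Nat.le_succ n)))]
    by_cases hn : a (n + 1) = a n
    · rw [hn]
      simpa using ih
    · have h3 := mul_le_mul_of_nonneg_left (h n hn) hw
      nlinarith

theorem GAME_dF {q β e : ℝ} {B : Mt N} {W S dF : ℝ} (h : Step q β e B W S dF) (hq : q ≤ N)
    (he : e ≤ 1 / 2) : dF ≤ 2 * N * W := by
  have h1 : B.trace ≤ N * W := by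
    calc B.trace = ∑ i, B i i := rfl
      _ ≤ ∑ _i : Fin N, W := Finset.sum_le_sum fun i _ => h.up i
      _ = N * W := by simp
  have h2 := h.lo
  have h3 : 0 ≤ (N - q) / 2 * W := mul_nonneg (by linarith) h.W0
  have h4 : 0 ≤ (1 - e) / 2 * S := mul_nonneg (by linarith) h.S0
  linarith

theorem GAME_F {Γ : Net N} {q β e Cx φ0 : ℝ} {d : ℕ} {B : Fin Γ.m → ℕ → Mt N}
    {w S wp F : Fin Γ.m → ℕ → ℝ} (h : Play Γ q β e Cx φ0 d B w S wp F) (a : Fin Γ.m) (k : ℕ) :
    F a k ≤ 1 + 2 * N * ∑ k' ∈ Finset.range k, ∑ a', w a' k' := by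
  induction k with
  | zero => simpa using (h.top a 0 (Nat.zero_le d)).trans h.φ1
  | succ k ih =>
    rw [Finset.sum_range_succ]
    have h1 := GAME_dF (h.step a k) h.qN h.e1
    have h2 : w a k ≤ ∑ a', w a' k :=
      Finset.single_le_sum (f := fun a' => w a' k) (fun a' _ => (h.step a' k).W0)
        (Finset.mem_univ a)
    have h3 : (0 : ℝ) ≤ 2 * N := by positivity
    have h4 := mul_le_mul_of_nonneg_left h2 h3
    nlinarith

theorem GAME (h1 : St_PHASE) (h2 : St_APR) (h3 : St_LOW) (h4 : St_SWI) (h5 : St_PROF) :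
    St_GAME := by
  intro N q q' η hN hq hq0 hq1 hη
  obtain ⟨ε, hε0, hε1, hεη⟩ : ∃ ε : ℝ, 0 < ε ∧ ε ≤ 1 ∧ ε ≤ η / 8 :=
    ⟨min 1 (η / 8), lt_min one_pos (by positivity), min_le_left _ _, min_le_right _ _⟩
  obtain ⟨Γ, hΓ, hph⟩ := h1 N q q' ε hN hq hq0 hq1 hε0 hε1
  refine ⟨Γ, hΓ, fun Cx d hCx => ?_⟩
  obtain ⟨C1, ks, hC1, hks, hph⟩ := hph Cx d hCx
  obtain ⟨K, hK, hapr⟩ := h2 N Γ C1 Cx d hC1 hCx
  have hN0 : (0 : ℝ) ≤ N := Nat.cast_nonneg N
  have hq0' : (0 : ℝ) ≤ q := Nat.cast_nonneg q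
  obtain ⟨a1, ha1, hexp⟩ : ∃ a1 : ℝ, 0 ≤ a1 ∧ Real.exp (-a1) * (K + N + 1) ≤ η / 4 := by
    refine ⟨4 * (K + N + 1) / η, by positivity, ?_⟩
    have e1 : 4 * (K + N + 1) / η ≤ Real.exp (4 * (K + N + 1) / η) := by
      linarith [Real.add_one_le_exp (4 * (K + N + 1) / η)]
    rw [div_le_iff₀ hη] at e1
    have e2 : Real.exp (-(4 * (K + N + 1) / η)) * Real.exp (4 * (K + N + 1) / η) = 1 := by
      rw [← Real.exp_add]
      simp
    have e3 := mul_le_mul_of_nonneg_left e1 (Real.exp_pos (-(4 * (K + N + 1) / η))).le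
    rw [← mul_assoc _ _ η, e2] at e3
    linarith
  obtain ⟨Lc, hLc, hph⟩ := hph a1 ha1
  obtain ⟨z, z1, z2, hcut, hz0, hz1⟩ := h5.2 (N - q + 1 - 2 * ε) (N - q + 1 - ε) (by linarith)
  obtain ⟨P, hP, hPC, hPk, hPL, hPz⟩ : ∃ P : GPar, P.Ok ∧ P.C1 = C1 ∧ P.ks = ks ∧ P.Lc = Lc ∧
      P.z = z := ⟨⟨ks, C1, Lc, z, z1, z2⟩, ⟨hks, hC1, hLc, hcut⟩, rfl, rfl, rfl, rfl⟩
  obtain ⟨β1, hβ1, hph⟩ := hph P hP hPC hPk hPL (by rw [hPz]; exact hz1)
  obtain ⟨β2, hβ2, hswi⟩ := h4 N Γ P Cx ε d hΓ.m0 hP hCx hε0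
  obtain ⟨C, -, hlow⟩ := h3 N Γ P K hP
  refine ⟨P, min β1 β2, 2 + N * C1, hP, lt_min hβ1 hβ2, by positivity, ?_⟩
  intro β e φ0 B w S wp F hβ he hφ hpl n
  have hw : ∀ a k, 0 ≤ w a k := fun a k => (hpl.step a k).W0
  replace hph := hph β e φ0 B w S wp F (hβ.trans (min_le_left _ _)) (he.trans (min_le_left _ _))
    (hφ.trans (min_le_left _ _)) hpl
  have hstep := (hswi q' β e φ0 B w S wp F (hβ.trans (min_le_right _ _))
    (hφ.trans (min_le_right _ _)) hpl).1
  have hBt : ∀ k, n1 (Bt Γ P (cj Γ B) w k) ≤ K := by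
    intro k
    refine (hlow (cj Γ B) w hw (fun n => ?_) k).1
    rw [hPC]
    refine (tv_mono C1 w (fun a k => ?_) n).trans ((hapr q' β e φ0 B w S wp F hpl).1 n)
    linarith [hw a k, (hpl.step a k).S0, hpl.wp0 a k]
  have hmono := ak_mono Γ hP (cj Γ B) hw
  have hzero := ak_zero Γ P (cj Γ B) w
  have hE := (Real.exp_pos (-a1)).le
  have hKe : K * Real.exp (-a1) ≤ η / 4 := by nlinarith
  have htr : ∀ k, |(Bt Γ P (cj Γ B) w k).trace| ≤ K := fun k => (abs_trace_le _).trans (hBt k)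
  refine ⟨fun y => ?_, ?_, fun a k hk hF => ?_⟩
  · have hy : 0 ≤ ∑ i, y i ^ 2 := Finset.sum_nonneg fun i _ => sq_nonneg _
    have e1 := GAME_val Γ P (cj Γ B) w (GAME_qf y) n
    have e2 := GAME_up (s := fun k => GAME_qf y (Bt Γ P (cj Γ B) w k)) hmono hzero
      (M := ∑ i, y i ^ 2) (D := K * ∑ i, y i ^ 2) (a1 := a1) (mul_nonneg hK hy)
      (fun k => by
        have f1 := (le_abs_self _).trans (abs_qf_le (Bt Γ P (cj Γ B) w k) y)
        have f2 := mul_le_mul_of_nonneg_right (hBt k) hy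
        change qf _ y ≤ _
        linarith)
      (fun k hk => (hph k hk).2.1 y) n
    rw [← e1] at e2
    have e3 := mul_le_mul_of_nonneg_right hKe hy
    have e4 := mul_nonneg hη.le hy
    change qf _ y ≤ _ at e2
    nlinarith
  · have e1 := GAME_val Γ P (cj Γ B) w (-Matrix.traceLinearMap (Fin N) ℝ ℝ) n
    have e2 := GAME_up
      (s := fun k => (-Matrix.traceLinearMap (Fin N) ℝ ℝ) (Bt Γ P (cj Γ B) w k)) hmono hzero
      (M := ε) (D := K) (a1 := a1) hK
      (fun k => by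
        have f1 := (abs_le.1 (htr k)).1
        change -(Bt Γ P (cj Γ B) w k).trace ≤ _
        linarith)
      (fun k hk => by
        have f1 := (hph k hk).2.2
        change -(Bt Γ P (cj Γ B) w k).trace ≤ _
        linarith) n
    rw [← e1] at e2
    change -(Bf Γ P (cj Γ B) w n).trace ≤ _ at e2
    linarith
  · have han : a1 ≤ ak Γ P (cj Γ B) w n := by
      by_contra hlt
      have f1 := (hph k fun k' hk' => (hmono (hk'.le.trans hk)).trans_lt (not_le.1 hlt)).1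
      rw [hPC, ck, div_le_iff₀ (by linarith)] at f1
      have f2 := GAME_F hpl a k
      have f3 := mul_le_mul_of_nonneg_left f1 hN0
      nlinarith
    have e1 := GAME_val Γ P (cj Γ B) w (Matrix.traceLinearMap (Fin N) ℝ ℝ) n
    have e2 := GAME_low
      (s := fun k => (Matrix.traceLinearMap (Fin N) ℝ ℝ) (Bt Γ P (cj Γ B) w k)) hmono hzero
      (T := N - q + 1 - 3 * ε) (fun k hk => by
        have f1 : N - q + 1 - 2 * ε < (Bt Γ P (cj Γ B) w k).trace := by
          by_contra hle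
          apply hk
          rw [ak_succ, hPz, hz0 _ (not_lt.1 hle)]
          simp
        have f2 := (abs_le.1 ((abs_trace_le _).trans (hstep k))).1
        rw [Matrix.trace_sub] at f2
        change _ ≤ (Bt Γ P (cj Γ B) w (k + 1)).trace
        linarith) n
    have e3 : Real.exp (-ak Γ P (cj Γ B) w n) ≤ Real.exp (-a1) :=
      Real.exp_le_exp.2 (neg_le_neg han)
    have e4 := (Real.exp_pos (-ak Γ P (cj Γ B) w n)).le
    have e5 := mul_le_mul_of_nonneg_left (abs_le.1 (htr n)).1 e4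
    have e6 : Real.exp (-ak Γ P (cj Γ B) w n) * (K + (N - q + 1 - 3 * ε)) ≤
        Real.exp (-a1) * (K + N + 1) :=
      (mul_le_mul_of_nonneg_left (by linarith) e4).trans
        (mul_le_mul_of_nonneg_right e3 (by positivity))
    change (Bf Γ P (cj Γ B) w n).trace =
      _ * (Bt Γ P (cj Γ B) w n).trace + _ at e1
    nlinarith

end

end Pool.Agent.Lib.MP_13801a_an.ND
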