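import Mathlib
import Pool.Agent.Lib.MP_13801a_an.ND.StsG

/-!
Gaussian calculus and the heat smoothing of integrable functions.
-/

open MeasureTheory Set Filter
open scoped Topology

namespace Pool.Agent.Lib.MP_13801a_an.ND

noncomputable section

variable {N : ℕ}

theorem GAU_poly (n : ℕ) (a c : ℝ) (hc : 0 < c) : ∃ C : ℝ, 0 ≤ C ∧ ∀ s : ℝ, 0 ≤ s →
    (1 + s) ^ n * Real.exp (a * s) ≤ C * Real.exp (c * s ^ 2) := by
  refine ⟨Real.exp ((n + a) ^ 2 / (4 * c)), (Real.exp_pos _).le, fun s hs => ?_⟩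
  have h1 : (1 + s) ^ n ≤ Real.exp (n * s) := by
    rw [Real.exp_nat_mul]
    exact pow_le_pow_left₀ (by linarith) (by linarith [Real.add_one_le_exp s]) n
  have h2 : (n + a) * s ≤ (n + a) ^ 2 / (4 * c) + c * s ^ 2 := by
    have e : (n + a) ^ 2 / (4 * c) + c * s ^ 2 - (n + a) * s = (2 * c * s - (n + a)) ^ 2 / (4 * c) := by
      field_simp
      ring
    have : 0 ≤ (2 * c * s - (n + a)) ^ 2 / (4 * c) := by positivity
    linarith
  calc _ ≤ Real.exp (n * s) * Real.exp (a * s) :=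
        mul_le_mul_of_nonneg_right h1 (Real.exp_pos _).le
    _ = Real.exp ((n + a) * s) := by rw [← Real.exp_add]; ring_nf
    _ ≤ Real.exp ((n + a) ^ 2 / (4 * c) + c * s ^ 2) := Real.exp_le_exp.2 h2
    _ = _ := Real.exp_add _ _

theorem GAU_mul {φ ψ : E N → ℝ} (hφ : Gau φ) (hψ : Continuous ψ) (K a : ℝ) (n : ℕ)
    (hb : ∀ ξ, |ψ ξ| ≤ K * ((1 + ‖ξ‖) ^ n * Real.exp (a * ‖ξ‖))) : Gau fun ξ => ψ ξ * φ ξ := by
  obtain ⟨C, c, hc, hC⟩ := hφ.2
  obtain ⟨D, hD0, hD⟩ := GAU_poly n a (c / 2) (by positivity)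
  refine ⟨hψ.mul hφ.1, |K| * D * |C|, c / 2, by positivity, fun ξ => ?_⟩
  have h1 : |ψ ξ| ≤ |K| * (D * Real.exp (c / 2 * ‖ξ‖ ^ 2)) :=
    (hb ξ).trans (mul_le_mul (le_abs_self _) (hD _ (norm_nonneg _)) (by positivity) (abs_nonneg _))
  have h2 : |φ ξ| ≤ |C| * Real.exp (-c * ‖ξ‖ ^ 2) :=
    (hC ξ).trans (mul_le_mul_of_nonneg_right (le_abs_self _) (Real.exp_pos _).le)
  have e : Real.exp (-(c / 2) * ‖ξ‖ ^ 2) =
      Real.exp (c / 2 * ‖ξ‖ ^ 2) * Real.exp (-c * ‖ξ‖ ^ 2) := by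
    rw [← Real.exp_add]; ring_nf
  rw [abs_mul, e]
  calc _ ≤ |K| * (D * Real.exp (c / 2 * ‖ξ‖ ^ 2)) * (|C| * Real.exp (-c * ‖ξ‖ ^ 2)) :=
        mul_le_mul h1 h2 (abs_nonneg _) (by positivity)
    _ = _ := by ring

theorem GAU_inner {φ : E N → ℝ} (hφ : Gau φ) (h : E N) : Gau fun ξ => inner ℝ ξ h * φ ξ := by
  refine GAU_mul hφ (by fun_prop) ‖h‖ 0 1 fun ξ => ?_
  have := abs_real_inner_le_norm ξ h
  simp only [pow_one, zero_mul, Real.exp_zero, mul_one]
  nlinarith [norm_nonneg ξ, norm_nonneg h]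

theorem GAU_pow {φ : E N → ℝ} (hφ : Gau φ) (n : ℕ) : Gau fun ξ => ‖ξ‖ ^ n * φ ξ := by
  refine GAU_mul hφ (by fun_prop) 1 0 n fun ξ => ?_
  simp only [zero_mul, Real.exp_zero, mul_one, one_mul, abs_pow, abs_norm]
  exact pow_le_pow_left₀ (norm_nonneg _) (by linarith) n

theorem GAU_exp {φ : E N → ℝ} (hφ : Gau φ) (a : ℝ) : Gau fun ξ => Real.exp (a * ‖ξ‖) * φ ξ := by
  refine GAU_mul hφ (by fun_prop) 1 a 0 fun ξ => ?_
  simp [abs_of_pos (Real.exp_pos _)]

theorem GAU_gam : Gau (gam : E N → ℝ) := by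
  refine ⟨by unfold gam; fun_prop, (2 * Real.pi) ^ (-(N : ℝ) / 2), 1 / 2, by norm_num, fun ξ => ?_⟩
  rw [abs_of_pos (gam_pos ξ), gam]
  exact le_of_eq (by ring_nf)

theorem GAU_gp : Gau (gp : E N → ℝ) := by
  refine ⟨by unfold gp gam; fun_prop, (2 * Real.pi) ^ (-(N : ℝ) / 2), 3 / 10, by norm_num,
    fun ξ => ?_⟩
  rw [abs_of_pos (gp_pos ξ), gp, gam, mul_left_comm, ← Real.exp_add]
  exact le_of_eq (by ring_nf)

theorem GAU_gq : Gau (gq : E N → ℝ) := by
  refine ⟨by unfold gq; fun_prop, 1, 2 / 3, by norm_num, fun ξ => ?_⟩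
  rw [abs_of_pos (gq_pos ξ), gq, one_mul]

theorem GAU_he1 (h : E N) : Gau (he1 h) := GAU_inner GAU_gam h

theorem GAU_he2 (h h' : E N) : Gau (he2 h h') := by
  have := (GAU_inner (GAU_inner (GAU_gam (N := N)) h') h).sub (GAU_gam.const_mul (inner ℝ h h'))
  refine (congrArg Gau (funext fun ξ => ?_)).mp this
  simp only [he2]
  ring

theorem GAU_curve0 {γ : ℝ → E N} {v : E N} {t : ℝ} (hγ : HasDerivAt γ v t) :
    HasDerivAt (fun s => gam (γ s)) (-he1 v (γ t)) t := by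
  have h1 := (((hγ.norm_sq.neg).div_const 2).exp).const_mul ((2 * Real.pi) ^ (-(N : ℝ) / 2))
  refine h1.congr_deriv ?_
  simp only [he1, gam, Pi.neg_apply]
  ring

theorem GAU_curve1 (h : E N) {γ : ℝ → E N} {v : E N} {t : ℝ} (hγ : HasDerivAt γ v t) :
    HasDerivAt (fun s => he1 h (γ s)) (-he2 h v (γ t)) t := by
  have h1 := (hγ.inner ℝ (hasDerivAt_const t h)).mul (GAU_curve0 hγ)
  refine h1.congr_deriv ?_
  simp only [he1, he2, inner_zero_right, zero_add, real_inner_comm h v]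
  ring

theorem GAU_line (ξ h : E N) (t : ℝ) : HasDerivAt (fun s : ℝ => ξ + s • h) h t := by
  simpa using ((hasDerivAt_id t).smul_const h).const_add ξ

theorem GAU_d0 (h ξ : E N) : HasLineDerivAt ℝ gam (-he1 h ξ) ξ h := by
  unfold HasLineDerivAt
  simpa using GAU_curve0 (GAU_line ξ h 0)

theorem GAU_d1 (h h' ξ : E N) : HasLineDerivAt ℝ (he1 h) (-he2 h h' ξ) ξ h' := by
  unfold HasLineDerivAt
  simpa using GAU_curve1 h (GAU_line ξ h' 0)

theorem GAU_int0 : ∫ ξ : E N, gam ξ = 1 := by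
  have h1 := GaussianFourier.integral_rexp_neg_mul_sq_norm (V := E N) (b := 1 / 2) (by norm_num)
  have e : ∀ ξ : E N, gam ξ =
      (2 * Real.pi) ^ (-(N : ℝ) / 2) * Real.exp (-(1 / 2) * ‖ξ‖ ^ 2) := fun ξ => by
    rw [gam]; ring_nf
  simp only [e]
  rw [integral_const_mul, h1, finrank_euclideanSpace_fin,
    show Real.pi / (1 / 2) = 2 * Real.pi by ring, ← Real.rpow_add (by positivity)]
  simp [neg_div]

theorem GAU_int_he2 (h h' : E N) : ∫ ξ, he2 h h' ξ = 0 := by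
  have h1 := integral_bilinear_hasLineDerivAt_right_eq_neg_left_of_integrable
    (μ := (volume : Measure (E N))) (f := fun _ => (1 : ℝ)) (f' := fun _ => (0 : ℝ))
    (g := he1 h) (g' := fun ξ => -he2 h h' ξ) (v := h') (B := ContinuousLinearMap.mul ℝ ℝ)
    (by simp) (by simpa using (GAU_he2 h h').integrable.neg)
    (by simpa using (GAU_he1 h).integrable)
    (fun x _ => hasDerivAt_const (0 : ℝ) (1 : ℝ)) (fun x _ => GAU_d1 h h' x)
  simpa [integral_neg] using h1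

theorem GAU_int2 (h : E N) : ∫ ξ, inner ℝ ξ h ^ 2 * gam ξ = ‖h‖ ^ 2 := by
  have e : ∀ ξ : E N, inner ℝ ξ h ^ 2 * gam ξ = he2 h h ξ + ‖h‖ ^ 2 * gam ξ := fun ξ => by
    rw [he2, real_inner_self_eq_norm_sq]; ring
  simp only [e]
  rw [integral_add (GAU_he2 h h).integrable (GAU_gam.integrable.const_mul _), GAU_int_he2,
    integral_const_mul, GAU_int0]
  simp

theorem GAU_sum_he2 (ξ : E N) : ∑ i, he2 (ee i) (ee i) ξ = ‖ξ‖ ^ 2 * gam ξ - N * gam ξ := by
  rw [EuclideanSpace.real_norm_sq_eq]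
  simp only [he2, inner_ee, ee_apply, if_true, ← Finset.sum_mul, Finset.sum_sub_distrib, sq]
  simp [sub_mul]

theorem GAU_intN : ∫ ξ : E N, ‖ξ‖ ^ 2 * gam ξ = N := by
  have e : ∀ ξ : E N, ‖ξ‖ ^ 2 * gam ξ = (∑ i, he2 (ee i) (ee i) ξ) + N * gam ξ := fun ξ => by
    rw [GAU_sum_he2]; ring
  simp only [e]
  rw [integral_add (integrable_finsetSum _ fun i _ => (GAU_he2 _ _).integrable)
    (GAU_gam.integrable.const_mul _), integral_finsetSum _ fun i _ => (GAU_he2 _ _).integrable,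
    integral_const_mul, GAU_int0]
  simp [GAU_int_he2]

theorem GAU : St_GAU := fun _ =>
  ⟨⟨GAU_gam, GAU_gp, GAU_gq, GAU_he1, GAU_he2⟩,
    fun _ hφ => ⟨GAU_inner hφ, GAU_pow hφ, GAU_exp hφ⟩, ⟨GAU_int0, GAU_int2, GAU_intN⟩,
    GAU_d0, GAU_d1, GAU_poly⟩

/-! ### Heat smoothing -/

section Heat

variable {L : E N →L[ℝ] E N} {a : E N → ℝ}

theorem GAU_intg (ha : Integrable a) {F : E N → ℝ} (hF : Continuous F) {C : ℝ}
    (hb : ∀ x, |F x| ≤ C) : Integrable fun x => a x * F x :=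
  ha.mul_bdd hF.aestronglyMeasurable (Eventually.of_forall hb)

theorem GAU_xi_cont (L : E N →L[ℝ] E N) (τ : ℝ) (z : E N) : Continuous (xi L τ z) := by
  unfold xi; fun_prop

theorem GAU_km_int (ha : Integrable a) {φ : E N → ℝ} (hφ : Gau φ) (τ : ℝ) (z : E N) :
    Integrable fun x => a x * φ (xi L τ z x) := by
  obtain ⟨C, -, hC⟩ := hφ.bdd
  exact GAU_intg ha (hφ.1.comp (GAU_xi_cont L τ z)) fun x => hC _

theorem GAU_km_bd (ha : Integrable a) {φ : E N → ℝ} {C : ℝ} (hC : ∀ ξ, |φ ξ| ≤ C) (τ : ℝ)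
    (z : E N) : |km L φ a τ z| ≤ C * ∫ x, |a x| := by
  rw [← integral_const_mul, ← Real.norm_eq_abs, km]
  refine norm_integral_le_of_norm_le (ha.abs.const_mul C) (Eventually.of_forall fun x => ?_)
  rw [Real.norm_eq_abs, abs_mul, mul_comm]
  exact mul_le_mul_of_nonneg_right (hC _) (abs_nonneg _)

theorem GAU_km_slab (ha : Integrable a) {φ : E N → ℝ} (hφ : Gau φ) : Slab (km L φ a) := by
  obtain ⟨C, -, hC⟩ := hφ.bdd
  refine ⟨?_, fun _ _ => ⟨C * ∫ x, |a x|, fun τ _ z => GAU_km_bd ha hC τ z⟩⟩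
  refine continuous_of_dominated (F := fun (p : ℝ × E N) x => a x * φ (xi L p.1 p.2 x))
    (bound := fun x => C * |a x|) (fun p => (GAU_km_int ha hφ p.1 p.2).1)
    (fun p => Eventually.of_forall fun x => ?_) (ha.abs.const_mul C)
    (Eventually.of_forall fun x => ?_)
  · rw [Real.norm_eq_abs, abs_mul, mul_comm]
    exact mul_le_mul_of_nonneg_right (hC _) (abs_nonneg _)
  · exact continuous_const.mul (hφ.1.comp (by unfold xi; fun_prop))

theorem GAU_scale (φ : E N → ℝ) (τ : ℝ) (w : E N) :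
    ∫ z, φ (Real.exp (-τ) • (z - w)) = Real.exp (N * τ) * ∫ ξ, φ ξ := by
  rw [integral_sub_right_eq_self (fun z => φ (Real.exp (-τ) • z)) w, Measure.integral_comp_smul,
    finrank_euclideanSpace_fin, ← Real.exp_nat_mul, ← Real.exp_neg, abs_of_pos (Real.exp_pos _),
    smul_eq_mul]
  congr 2
  ring

theorem GAU_km_z (ha : Integrable a) {φ : E N → ℝ} (hφ : Gau φ) (τ : ℝ) :
    Integrable (km L φ a τ) ∧
      ∫ z, km L φ a τ z = Real.exp (N * τ) * ((∫ ξ, φ ξ) * ∫ x, a x) := by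
  have hm : AEStronglyMeasurable (fun p : E N × E N => a p.1 * φ (xi L τ p.2 p.1))
      ((volume : Measure (E N)).prod volume) :=
    ha.1.comp_fst.mul (hφ.1.comp (by unfold xi; fun_prop)).aestronglyMeasurable
  have hi : Integrable (fun p : E N × E N => a p.1 * φ (xi L τ p.2 p.1))
      ((volume : Measure (E N)).prod volume) := by
    rw [integrable_prod_iff hm]
    refine ⟨Eventually.of_forall fun x => ?_, ?_⟩
    · exact ((hφ.integrable.comp_smul (Real.exp_pos (-τ)).ne').comp_sub_right (L x)).const_mul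
        (a x)
    · have e : ∀ x, ∫ z, ‖a x * φ (xi L τ z x)‖ = |a x| * (Real.exp (N * τ) * ∫ ξ, |φ ξ|) := by
        intro x
        simp only [Real.norm_eq_abs, abs_mul, xi]
        rw [integral_const_mul, GAU_scale (fun ξ => |φ ξ|)]
      simp only [e]
      exact ha.abs.mul_const _
  refine ⟨hi.integral_prod_right, ?_⟩
  have h1 := integral_integral_swap (f := fun x z => a x * φ (xi L τ z x)) hi
  simp only [km]
  rw [← h1]
  simp only [xi, integral_const_mul, GAU_scale, integral_mul_const]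
  ring

theorem GAU_der (ha : Integrable a) {F F' : ℝ → E N → ℝ} {B C : ℝ} (t : ℝ)
    (hF : ∀ s, Continuous (F s)) (hF' : Continuous (F' t)) (hB : ∀ x, |F t x| ≤ B)
    (hd : ∀ s x, HasDerivAt (fun s => F s x) (F' s x) s) (hC : ∀ s x, |F' s x| ≤ C) :
    HasDerivAt (fun s => ∫ x, a x * F s x) (∫ x, a x * F' t x) t := by
  refine (hasDerivAt_integral_of_dominated_loc_of_deriv_le (s := univ)
    (F := fun s x => a x * F s x) (F' := fun s x => a x * F' s x) (bound := fun x => C * |a x|)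
    univ_mem (Eventually.of_forall fun s => ha.1.mul (hF s).aestronglyMeasurable)
    (GAU_intg ha (hF t) hB) (ha.1.mul hF'.aestronglyMeasurable)
    (Eventually.of_forall fun x s _ => ?_) (ha.abs.const_mul C)
    (Eventually.of_forall fun x s _ => (hd s x).const_mul _)).2
  rw [Real.norm_eq_abs, abs_mul, mul_comm]
  exact mul_le_mul_of_nonneg_right (hC _ _) (abs_nonneg _)

theorem GAU_xi_line (L : E N →L[ℝ] E N) (τ : ℝ) (z h x : E N) (t : ℝ) :
    HasDerivAt (fun s : ℝ => xi L τ (z + s • h) x) (Real.exp (-τ) • h) t :=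
  ((GAU_line z h t).sub_const (L x)).const_smul (Real.exp (-τ))

theorem GAU_he1_smul (c : ℝ) (h ξ : E N) : he1 (c • h) ξ = c * he1 h ξ := by
  simp only [he1, real_inner_smul_right]; ring

theorem GAU_he2_smul (c : ℝ) (h h' ξ : E N) : he2 h (c • h') ξ = c * he2 h h' ξ := by
  simp only [he2, real_inner_smul_right]; ring

theorem GAU_km_line (ha : Integrable a) {φ φ' : E N → ℝ} (hφ : Gau φ) (hφ' : Gau φ') (τ : ℝ)
    (z h : E N) (hd : ∀ (γ : ℝ → E N) (t : ℝ), HasDerivAt γ (Real.exp (-τ) • h) t →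
      HasDerivAt (fun s => φ (γ s)) (-(Real.exp (-τ) * φ' (γ t))) t) :
    HasLineDerivAt ℝ (km L φ a τ) (-Real.exp (-τ) * km L φ' a τ z) z h := by
  obtain ⟨B, -, hB⟩ := hφ.bdd
  obtain ⟨C, -, hC⟩ := (hφ'.const_mul (Real.exp (-τ))).neg.bdd
  have h1 := GAU_der ha (F := fun s x => φ (xi L τ (z + s • h) x))
    (F' := fun s x => -(Real.exp (-τ) * φ' (xi L τ (z + s • h) x))) 0
    (fun s => hφ.1.comp (GAU_xi_cont L τ _))
    (continuous_const.mul (hφ'.1.comp (GAU_xi_cont L τ _))).neg (fun x => hB _)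
    (fun s x => hd _ s (GAU_xi_line L τ z h x s)) fun s x => hC _
  refine HasDerivAt.congr_deriv h1 ?_
  simp only [km, zero_smul, add_zero, ← integral_const_mul]
  exact integral_congr_ae (Eventually.of_forall fun x => by ring)

theorem GAU_k0_line (ha : Integrable a) (h : E N) (τ : ℝ) (z : E N) :
    HasLineDerivAt ℝ (k0 L a τ) (k1 L a h τ z) z h :=
  GAU_km_line ha GAU_gam (GAU_he1 h) τ z h fun _ _ hγ => by
    simpa only [GAU_he1_smul] using GAU_curve0 hγ

theorem GAU_k1_line (ha : Integrable a) (h h' : E N) (τ : ℝ) (z : E N) :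
    HasLineDerivAt ℝ (k1 L a h τ) (k2 L a h h' τ z) z h' := by
  have h1 := GAU_km_line (L := L) ha (GAU_he1 h) (GAU_he2 h h') τ z h' fun _ _ hγ => by
    simpa only [GAU_he2_smul] using GAU_curve1 h hγ
  have h2 := HasDerivAt.const_mul (-Real.exp (-τ)) h1
  refine HasDerivAt.congr_deriv h2 ?_
  rw [k2, show -2 * τ = -τ + -τ by ring, Real.exp_add]
  ring

theorem GAU_km_sum (ha : Integrable a) {φ : E N → ℝ} {ψ : Fin N → E N → ℝ} (c : Fin N → ℝ)
    (hψ : ∀ i, Gau (ψ i)) (e : ∀ ξ, φ ξ = ∑ i, c i * ψ i ξ) (τ : ℝ) (z : E N) :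
    km L φ a τ z = ∑ i, c i * km L (ψ i) a τ z := by
  simp only [km, e, Finset.mul_sum, ← integral_const_mul]
  rw [integral_finsetSum _ fun i _ => GAU_km_int ha ((hψ i).const_mul (c i)) τ z]
  exact Finset.sum_congr rfl fun i _ => integral_congr_ae (Eventually.of_forall fun x => by ring)

theorem GAU_inner_sum (ξ h : E N) : inner ℝ ξ h = ∑ i, h i * inner ℝ ξ (ee i) := by
  conv_lhs => rw [← sum_ee h]
  simp only [inner_sum, real_inner_smul_right]

theorem GAU_k1_sum (ha : Integrable a) (h : E N) (τ : ℝ) (z : E N) :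
    k1 L a h τ z = ∑ i, h i * k1 L a (ee i) τ z := by
  simp only [k1]
  rw [GAU_km_sum ha (fun i => h i) (fun i => GAU_he1 (ee i)) fun ξ => by
    simp only [he1, GAU_inner_sum ξ h, Finset.sum_mul, mul_assoc], Finset.mul_sum]
  exact Finset.sum_congr rfl fun i _ => by ring

theorem GAU_he2_symm (h h' : E N) : he2 h h' = he2 h' h := by
  funext ξ
  simp only [he2, real_inner_comm h h', mul_comm]

theorem GAU_k2_sum (ha : Integrable a) (h h' : E N) (τ : ℝ) (z : E N) :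
    k2 L a h h' τ z = ∑ i, h i * k2 L a (ee i) h' τ z := by
  simp only [k2]
  rw [GAU_km_sum ha (fun i => h i) (fun i => GAU_he2 (ee i) h') fun ξ => ?_, Finset.mul_sum]
  · exact Finset.sum_congr rfl fun i _ => by ring
  · simp only [he2, real_inner_comm h' h, real_inner_comm h' (ee _)]
    rw [GAU_inner_sum ξ h, GAU_inner_sum h' h, Finset.sum_mul, ← Finset.sum_sub_distrib,
      Finset.sum_mul]
    exact Finset.sum_congr rfl fun i _ => by ring

theorem GAU_xi_ray (L : E N →L[ℝ] E N) (σ : ℝ) (y ξ x : E N) :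
    xi L σ (y + Real.exp σ • ξ) x = Real.exp (-σ) • (y - L x) + ξ := by
  rw [xi, add_sub_right_comm, smul_add, smul_smul, ← Real.exp_add]
  simp

theorem GAU_ray (ha : Integrable a) (τ : ℝ) (y ξ : E N) :
    HasDerivAt (fun σ => k0 L a σ (y + Real.exp σ • ξ))
      (N * k0 L a τ (y + Real.exp τ • ξ) +
        Real.exp (2 * τ) * (∑ i, k2 L a (ee i) (ee i) τ (y + Real.exp τ • ξ)) +
        Real.exp τ * k1 L a ξ τ (y + Real.exp τ • ξ)) τ := by
  have hG := (GAU_pow (GAU_gam (N := N)) 2).sub (GAU_he1 ξ)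
  obtain ⟨B, -, hB⟩ := (GAU_gam (N := N)).bdd
  obtain ⟨C, -, hC⟩ := hG.bdd
  have hd : ∀ s x, HasDerivAt (fun s => gam (xi L s (y + Real.exp s • ξ) x))
      (‖xi L s (y + Real.exp s • ξ) x‖ ^ 2 * gam (xi L s (y + Real.exp s • ξ) x) -
        he1 ξ (xi L s (y + Real.exp s • ξ) x)) s := by
    intro s x
    simp only [GAU_xi_ray]
    have h1 := GAU_curve0 ((((hasDerivAt_neg s).exp).smul_const (y - L x)).add_const ξ)
    refine h1.congr_deriv ?_
    have e : (Real.exp (-s) * -1) • (y - L x) = ξ - (Real.exp (-s) • (y - L x) + ξ) := by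
      rw [mul_neg_one, neg_smul]; abel
    rw [e]
    simp only [he1, inner_sub_right, real_inner_self_eq_norm_sq]
    ring
  have h1 := GAU_der ha (F := fun s x => gam (xi L s (y + Real.exp s • ξ) x)) τ
    (fun s => GAU_gam.1.comp (GAU_xi_cont L s _)) (hG.1.comp (GAU_xi_cont L τ _)) (fun x => hB _)
    hd fun s x => hC _
  refine HasDerivAt.congr_deriv h1 ?_
  generalize y + Real.exp τ • ξ = z
  have e1 : Real.exp (2 * τ) * ∑ i, k2 L a (ee i) (ee i) τ z =
      km L (fun w => ‖w‖ ^ 2 * gam w - N * gam w) a τ z := by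
    rw [GAU_km_sum ha (fun _ => 1) (fun i => GAU_he2 (ee i) (ee i)) fun w => by
      simp only [one_mul, GAU_sum_he2]]
    simp only [k2, ← Finset.mul_sum, one_mul]
    rw [← mul_assoc, ← Real.exp_add]
    simp
  have e2 : Real.exp τ * k1 L a ξ τ z = -km L (he1 ξ) a τ z := by
    rw [k1, ← mul_assoc, mul_neg, ← Real.exp_add]
    simp
  have i0 := GAU_km_int (L := L) ha GAU_gam τ z
  have i1 := GAU_km_int (L := L) ha (GAU_he1 ξ) τ z
  have i2 := GAU_km_int (L := L) ha ((GAU_pow GAU_gam 2).sub (GAU_gam.const_mul N)) τ z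
  rw [e1, e2]
  simp only [k0, km]
  have i3 : Integrable fun x => N * (a x * gam (xi L τ z x)) +
      a x * (‖xi L τ z x‖ ^ 2 * gam (xi L τ z x) - N * gam (xi L τ z x)) := (i0.const_mul _).add i2
  rw [← integral_const_mul, ← integral_add (i0.const_mul _) i2, ← sub_eq_add_neg,
    ← integral_sub i3 i1]
  exact integral_congr_ae (Eventually.of_forall fun x => by ring)

theorem GAU_bw (L : E N →L[ℝ] E N) (τ : ℝ) (z : E N) :
    BW (fun x => gam (xi L τ z x)) fun i x => Real.exp (-τ) * he1 (L (ee i)) (xi L τ z x) := by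
  constructor
  · intro i x
    have h0 : HasDerivAt (fun s : ℝ => xi L τ z (x + s • ee i))
        (Real.exp (-τ) • -L (ee i)) 0 :=
      ((L.hasFDerivAt.comp_hasDerivAt 0 (GAU_line x (ee i) 0)).const_sub z).const_smul
        (Real.exp (-τ))
    have h1 := GAU_curve0 h0
    refine HasDerivAt.congr_deriv h1 ?_
    simp only [zero_smul, add_zero, he1, real_inner_smul_right, inner_neg_right]
    ring
  · obtain ⟨B, hB0, hB⟩ := (GAU_gam (N := N)).bdd
    choose C hC0 hC using fun i : Fin N => ((GAU_he1 (L (ee i))).const_mul (Real.exp (-τ))).bdd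
    have hs : 0 ≤ ∑ i, C i := Finset.sum_nonneg fun i _ => hC0 i
    refine ⟨B + ∑ i, C i, fun x => ⟨by linarith [hB (xi L τ z x)], fun i => ?_⟩⟩
    have := Finset.single_le_sum (f := C) (fun i _ => hC0 i) (Finset.mem_univ i)
    linarith [hC i (xi L τ z x)]

end Heat

theorem HEAT (_h1 : St_GAU) : St_HEAT := by
  intro N L a ha
  refine ⟨fun φ hφ => ⟨GAU_km_slab ha hφ, GAU_km_int ha hφ, fun C hC => GAU_km_bd ha hC,
      GAU_km_z ha hφ⟩,
    ⟨GAU_km_slab ha GAU_gam, fun h => ?_, fun h h' => ?_⟩, GAU_k0_line ha, GAU_k1_line ha,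
    GAU_k1_sum ha, fun h h' τ z => ⟨by rw [k2, k2, GAU_he2_symm], GAU_k2_sum ha h h' τ z⟩,
    fun τ z => ?_, GAU_ray ha, GAU_bw L⟩
  · exact (slab_fun (c := fun τ => -Real.exp (-τ)) (by fun_prop)).mul (GAU_km_slab ha (GAU_he1 h))
  · exact (slab_fun (c := fun τ => Real.exp (-2 * τ)) (by fun_prop)).mul
      (GAU_km_slab ha (GAU_he2 h h'))
  · simpa [k1, km, he1] using GAU_ray (L := L) ha τ z 0

end

end Pool.Agent.Lib.MP_13801a_an.ND
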