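import Mathlib
import Pool.Agent.Lib.MP_13801a_an.ND.StsG

/-!
Calculus for the logarithm of the smoothed density.
-/

open MeasureTheory Set Filter
open scoped Topology

namespace Pool.Agent.Lib.MP_13801a_an.ND

noncomputable section

variable {N : ℕ}

theorem LOG_slab_of_le {g g' : ℝ → E N → ℝ} (hc : Continuous fun p : ℝ × E N => g p.1 p.2)
    (h' : Slab g') (hle : ∀ τ z, |g τ z| ≤ g' τ z) : Slab g := by
  refine ⟨hc, fun τ1 τ2 => ?_⟩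
  obtain ⟨C, hC⟩ := h'.2 τ1 τ2
  exact ⟨C, fun τ hτ z => (hle τ z).trans ((le_abs_self _).trans (hC τ hτ z))⟩

theorem LOG_abs_log {u : ℝ} (hu : 0 < u) : |Real.log u| ≤ u + u⁻¹ := by
  have h1 := Real.log_le_sub_one_of_pos hu
  have h2 := Real.log_le_sub_one_of_pos (inv_pos.2 hu)
  rw [Real.log_inv] at h2
  have h3 := inv_pos.2 hu
  rw [abs_le]
  constructor <;> linarith

theorem LOG_cs (h : E N) (a : Fin N → ℝ) : (∑ i, h i * a i) ^ 2 ≤ ‖h‖ ^ 2 * ∑ i, a i ^ 2 := by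
  rw [EuclideanSpace.real_norm_sq_eq]
  exact Finset.sum_mul_sq_le_sq_mul_sq _ _ _

theorem LOG_cs2 (h h' : E N) (a : Fin N → Fin N → ℝ) :
    (∑ i, ∑ i', h i * h' i' * a i i') ^ 2 ≤ ‖h‖ ^ 2 * ‖h'‖ ^ 2 * ∑ i, ∑ i', a i i' ^ 2 := by
  have e : ∑ i, ∑ i', h i * h' i' * a i i' = ∑ i, h i * ∑ i', h' i' * a i i' := by
    simp only [Finset.mul_sum, mul_assoc]
  rw [e]
  refine (LOG_cs h _).trans ?_
  rw [mul_assoc, Finset.mul_sum Finset.univ (fun i => ∑ i', a i i' ^ 2)]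
  exact mul_le_mul_of_nonneg_left (Finset.sum_le_sum fun i _ => LOG_cs h' _) (sq_nonneg _)

theorem LOG_k0_nonneg (L : E N →L[ℝ] E N) {ρ : E N → ℝ} (hρ : Den ρ) (τ : ℝ) (z : E N) :
    0 ≤ k0 L ρ τ z :=
  integral_nonneg fun x => mul_nonneg (hρ.2 x) (gam_pos _).le

section Main

variable {c : Cfg} {β e : ℝ} {L : E N →L[ℝ] E N} {ρ : E N → ℝ}

theorem LOG_uu_ge (hρ : Den ρ) (τ : ℝ) (z : E N) : c.δ * Real.exp (N * τ) ≤ uu c L ρ τ z := by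
  have := LOG_k0_nonneg L hρ τ z
  unfold uu
  linarith

theorem LOG_uu_pos (hc : c.Ok N β e) (hρ : Den ρ) (τ : ℝ) (z : E N) : 0 < uu c L ρ τ z :=
  (mul_pos hc.δ0 (Real.exp_pos _)).trans_le (LOG_uu_ge hρ τ z)

theorem LOG_k0_le (hc : c.Ok N β e) (τ : ℝ) (z : E N) : k0 L ρ τ z ≤ uu c L ρ τ z := by
  have := mul_pos hc.δ0 (Real.exp_pos (N * τ))
  unfold uu
  linarith

theorem LOG_slab_uu (h2 : St_HEAT) (hρ : Den ρ) : Slab (uu c L ρ) :=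
  (h2 N L ρ hρ.1).2.1.1.add (slab_fun (c := fun τ => c.δ * Real.exp (N * τ)) (by fun_prop))

theorem LOG_slab_inv (h2 : St_HEAT) (hc : c.Ok N β e) (hρ : Den ρ) :
    Slab fun τ z => (uu c L ρ τ z)⁻¹ := by
  have hδ := hc.δ0
  refine LOG_slab_of_le (g' := fun τ _ => c.δ⁻¹ * Real.exp (-(N * τ)))
    ((LOG_slab_uu h2 hρ).1.inv₀ fun p => (LOG_uu_pos hc hρ _ _).ne') (slab_fun (by fun_prop))
    fun τ z => ?_
  rw [abs_of_pos (inv_pos.2 (LOG_uu_pos hc hρ τ z)), Real.exp_neg, ← mul_inv]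
  exact inv_anti₀ (by positivity) (LOG_uu_ge hρ τ z)

theorem LOG_slab_yy (h2 : St_HEAT) (hc : c.Ok N β e) (hρ : Den ρ) : Slab (yy c L ρ) := by
  have h1 : Slab fun τ z => Real.log (uu c L ρ τ z) :=
    LOG_slab_of_le ((LOG_slab_uu h2 hρ).1.log fun p => (LOG_uu_pos hc hρ _ _).ne')
      ((LOG_slab_uu h2 hρ).add (LOG_slab_inv h2 hc hρ)) fun τ z =>
        LOG_abs_log (LOG_uu_pos hc hρ τ z)
  exact (h1.sub (slab_fun (c := fun τ => c.q * τ) (by fun_prop))).sub (slab_const _)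

theorem LOG_slab_div (h2 : St_HEAT) (hc : c.Ok N β e) (hρ : Den ρ) {g : ℝ → E N → ℝ}
    (hg : Slab g) : Slab fun τ z => g τ z / uu c L ρ τ z := by
  simpa only [div_eq_mul_inv] using hg.mul (LOG_slab_inv h2 hc hρ)

theorem LOG_slab_l1 (h2 : St_HEAT) (hc : c.Ok N β e) (hρ : Den ρ) (h : E N) :
    Slab (l1 c L ρ h) :=
  LOG_slab_div h2 hc hρ ((h2 N L ρ hρ.1).2.1.2.1 h)

theorem LOG_slab_l2 (h2 : St_HEAT) (hc : c.Ok N β e) (hρ : Den ρ) (h h' : E N) :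
    Slab (l2 c L ρ h h') :=
  (LOG_slab_div h2 hc hρ ((h2 N L ρ hρ.1).2.1.2.2 h h')).sub
    ((LOG_slab_l1 h2 hc hρ h).mul (LOG_slab_l1 h2 hc hρ h'))

theorem LOG_slabs (h2 : St_HEAT) (hc : c.Ok N β e) (hρ : Den ρ) :
    Slab (uu c L ρ) ∧ (Slab fun τ z => (uu c L ρ τ z)⁻¹) ∧ Slab (yy c L ρ) ∧ Slab (f0 c L ρ) ∧
    Slab (g1 c L ρ) ∧ Slab (g2 c L ρ) ∧ Slab (s1 c L ρ) ∧ Slab (s2 c L ρ) ∧
    (∀ h, Slab (l1 c L ρ h) ∧ Slab (f1 c L ρ h)) ∧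
    ∀ h h', Slab (l2 c L ρ h h') ∧ Slab (f2 c L ρ h h') := by
  have hy := LOG_slab_yy (L := L) h2 hc hρ
  have hG : Continuous c.G := continuous_iff_continuousAt.2 fun y => (hc.prof.d1 y).continuousAt
  have hG1 : Continuous c.G1 := continuous_iff_continuousAt.2 fun y => (hc.prof.d2 y).continuousAt
  have a1 : Slab (g1 c L ρ) := hy.comp hG1
  have a2 : Slab (g2 c L ρ) := hy.comp hc.prof.c2
  have b1 := LOG_slab_l1 (L := L) h2 hc hρ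
  have b2 := LOG_slab_l2 (L := L) h2 hc hρ
  refine ⟨LOG_slab_uu h2 hρ, LOG_slab_inv h2 hc hρ, hy, hy.comp hG, a1, a2, ?_, ?_,
    fun h => ⟨b1 h, a1.mul (b1 h)⟩,
    fun h h' => ⟨b2 h h', (a1.mul (b2 h h')).add (a2.mul ((b1 h).mul (b1 h')))⟩⟩
  · exact slab_sum Finset.univ fun i _ => (b1 (ee i)).pow 2
  · exact (slab_sum Finset.univ fun i _ =>
      slab_sum Finset.univ fun i' _ => (b2 (ee i) (ee i')).pow 2).add
        (slab_sum Finset.univ fun i _ => (b1 (ee i)).pow 4)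

theorem LOG_d_uu (h2 : St_HEAT) (hρ : Den ρ) (h : E N) (τ : ℝ) (z : E N) :
    HasDerivAt (fun t : ℝ => uu c L ρ τ (z + t • h)) (k1 L ρ h τ z) 0 :=
  HasDerivAt.add_const (c.δ * Real.exp (N * τ)) ((h2 N L ρ hρ.1).2.2.1 h τ z)

theorem LOG_d_yy (h2 : St_HEAT) (hc : c.Ok N β e) (hρ : Den ρ) (h : E N) (τ : ℝ) (z : E N) :
    HasDerivAt (fun t : ℝ => yy c L ρ τ (z + t • h)) (l1 c L ρ h τ z) 0 := by
  have h1 := (LOG_d_uu (c := c) (L := L) h2 hρ h τ z).log (LOG_uu_pos hc hρ _ _).ne'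
  simp only [zero_smul, add_zero] at h1
  exact (h1.sub_const (c.q * τ)).sub_const (Real.log c.θ)

theorem LOG_d_comp (h2 : St_HEAT) (hc : c.Ok N β e) (hρ : Den ρ) {F F' : ℝ → ℝ}
    (hF : ∀ y, HasDerivAt F (F' y) y) (h : E N) (τ : ℝ) (z : E N) :
    HasDerivAt (fun t : ℝ => F (yy c L ρ τ (z + t • h)))
      (F' (yy c L ρ τ z) * l1 c L ρ h τ z) 0 := by
  have h1 := (hF _).comp (0 : ℝ) (LOG_d_yy (L := L) h2 hc hρ h τ z)
  simp only [zero_smul, add_zero] at h1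
  exact h1

theorem LOG_d_l1 (h2 : St_HEAT) (hc : c.Ok N β e) (hρ : Den ρ) (h h' : E N) (τ : ℝ) (z : E N) :
    HasDerivAt (fun t : ℝ => l1 c L ρ h τ (z + t • h')) (l2 c L ρ h h' τ z) 0 := by
  have h0 : HasDerivAt (fun t : ℝ => k1 L ρ h τ (z + t • h')) (k2 L ρ h h' τ z) 0 :=
    (h2 N L ρ hρ.1).2.2.2.1 h h' τ z
  have h1 := h0.div (LOG_d_uu (c := c) (L := L) h2 hρ h' τ z) (LOG_uu_pos hc hρ _ _).ne'
  simp only [zero_smul, add_zero] at h1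
  have hu := (LOG_uu_pos (L := L) hc hρ τ z).ne'
  refine HasDerivAt.congr_deriv h1 ?_
  unfold l2 l1
  field_simp

theorem LOG_d_f1 (h2 : St_HEAT) (hc : c.Ok N β e) (hρ : Den ρ) (h h' : E N) (τ : ℝ) (z : E N) :
    HasDerivAt (fun t : ℝ => f1 c L ρ h τ (z + t • h')) (f2 c L ρ h h' τ z) 0 := by
  have h1 := (LOG_d_comp (L := L) h2 hc hρ hc.prof.d2 h' τ z).mul (LOG_d_l1 (L := L) h2 hc hρ h h' τ z)
  simp only [zero_smul, add_zero] at h1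
  refine HasDerivAt.congr_deriv h1 ?_
  unfold f2 g1 g2
  ring

theorem LOG_l1_sum (h2 : St_HEAT) (hρ : Den ρ) (h : E N) (τ : ℝ) (z : E N) :
    l1 c L ρ h τ z = ∑ i, h i * l1 c L ρ (ee i) τ z := by
  unfold l1
  rw [(h2 N L ρ hρ.1).2.2.2.2.1 h τ z, Finset.sum_div]
  exact Finset.sum_congr rfl fun i _ => mul_div_assoc _ _ _

theorem LOG_l1_sq (h2 : St_HEAT) (hρ : Den ρ) (h : E N) (τ : ℝ) (z : E N) :
    l1 c L ρ h τ z ^ 2 ≤ ‖h‖ ^ 2 * s1 c L ρ τ z := by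
  rw [LOG_l1_sum h2 hρ h]
  exact LOG_cs h _

theorem LOG_conc (h1 : St_GAU) (h2 : St_HEAT) (hc : c.Ok N β e) (hρ : Den ρ) (h : E N) (τ : ℝ)
    (z : E N) : -(Real.exp (2 * τ) * l2 c L ρ h h τ z) ≤ ‖h‖ ^ 2 := by
  obtain ⟨⟨g0, -, -, gh1, -⟩, gm, -⟩ := h1 N
  have H := (h2 N L ρ hρ.1).1
  have gh : Gau fun ξ : E N => inner ℝ ξ h * he1 h ξ := (gm _ (gh1 h)).1 h
  have i0 := (H _ g0).2.1 τ z
  have i2 := (H _ gh).2.1 τ z
  set I2 := ∫ x, ρ x * (inner ℝ (xi L τ z x) h * he1 h (xi L τ z x)) with hI2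
  have p2 : ∀ x, 0 ≤ ρ x * (inner ℝ (xi L τ z x) h * he1 h (xi L τ z x)) := fun x => by
    unfold he1
    rw [← mul_assoc (inner ℝ (xi L τ z x) h)]
    exact mul_nonneg (hρ.2 x) (mul_nonneg (mul_self_nonneg _) (gam_pos _).le)
  have e2 : km L (he2 h h) ρ τ z = I2 - ‖h‖ ^ 2 * k0 L ρ τ z := by
    rw [hI2, k0, km, km, ← integral_const_mul, ← integral_sub i2 (i0.const_mul _)]
    refine integral_congr_ae (Eventually.of_forall fun x => ?_)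
    simp only [he2, he1, real_inner_self_eq_norm_sq]
    ring
  have e1 : km L (he1 h) ρ τ z ^ 2 ≤ k0 L ρ τ z * I2 :=
    cs_integral i0 i2 (fun x => mul_nonneg (hρ.2 x) (gam_pos _).le) p2 fun x => by
      unfold he1
      exact le_of_eq (by ring)
  have hI : 0 ≤ I2 := integral_nonneg p2
  have hu := LOG_uu_pos (L := L) hc hρ τ z
  have hk := LOG_k0_le (L := L) (ρ := ρ) hc τ z
  have hk0 := LOG_k0_nonneg L hρ τ z
  have x1 : Real.exp (2 * τ) * Real.exp (-2 * τ) = 1 := by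
    rw [← Real.exp_add]; simp
  have x2 : Real.exp (2 * τ) * (Real.exp (-τ) * Real.exp (-τ)) = 1 := by
    rw [← Real.exp_add, ← Real.exp_add]; simp [two_mul]
  have e3 : -(Real.exp (2 * τ) * l2 c L ρ h h τ z) =
      (km L (he1 h) ρ τ z ^ 2 - (I2 - ‖h‖ ^ 2 * k0 L ρ τ z) * uu c L ρ τ z) / uu c L ρ τ z ^ 2 := by
    unfold l2 l1 k1 k2
    rw [e2]
    generalize Real.exp (-2 * τ) = u at x1 ⊢
    field_simp
    linear_combination (km L (he1 h) ρ τ z ^ 2) * x2 -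
      ((I2 - ‖h‖ ^ 2 * k0 L ρ τ z) * uu c L ρ τ z) * x1
  rw [e3, div_le_iff₀ (by positivity)]
  have b1 : k0 L ρ τ z * I2 ≤ uu c L ρ τ z * I2 := mul_le_mul_of_nonneg_right hk hI
  have b2 : ‖h‖ ^ 2 * uu c L ρ τ z * k0 L ρ τ z ≤ ‖h‖ ^ 2 * uu c L ρ τ z * uu c L ρ τ z :=
    mul_le_mul_of_nonneg_left hk (by positivity)
  nlinarith

theorem LOG_l2_symm (h2 : St_HEAT) (hρ : Den ρ) (h h' : E N) (τ : ℝ) (z : E N) :
    l2 c L ρ h h' τ z = l2 c L ρ h' h τ z := by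
  unfold l2
  rw [((h2 N L ρ hρ.1).2.2.2.2.2.1 h h' τ z).1, mul_comm]

theorem LOG_k2_sum (h2 : St_HEAT) (hρ : Den ρ) (h h' : E N) (τ : ℝ) (z : E N) :
    k2 L ρ h h' τ z = ∑ i, ∑ i', h i * h' i' * k2 L ρ (ee i) (ee i') τ z := by
  have H := (h2 N L ρ hρ.1).2.2.2.2.2.1
  rw [(H h h' τ z).2]
  refine Finset.sum_congr rfl fun i _ => ?_
  rw [(H (ee i) h' τ z).1, (H h' (ee i) τ z).2, Finset.mul_sum]
  refine Finset.sum_congr rfl fun i' _ => ?_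
  rw [(H (ee i') (ee i) τ z).1, mul_assoc]

theorem LOG_ll_sum (h2 : St_HEAT) (hρ : Den ρ) (h h' : E N) (τ : ℝ) (z : E N) :
    l1 c L ρ h τ z * l1 c L ρ h' τ z =
      ∑ i, ∑ i', h i * h' i' * (l1 c L ρ (ee i) τ z * l1 c L ρ (ee i') τ z) := by
  rw [LOG_l1_sum h2 hρ h, LOG_l1_sum h2 hρ h', Finset.sum_mul_sum]
  exact Finset.sum_congr rfl fun i _ => Finset.sum_congr rfl fun i' _ => by ring

theorem LOG_l2_sum (h2 : St_HEAT) (hρ : Den ρ) (h h' : E N) (τ : ℝ) (z : E N) :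
    l2 c L ρ h h' τ z = ∑ i, ∑ i', h i * h' i' * l2 c L ρ (ee i) (ee i') τ z := by
  unfold l2
  rw [LOG_k2_sum h2 hρ h h', LOG_ll_sum h2 hρ h h', Finset.sum_div, ← Finset.sum_sub_distrib]
  refine Finset.sum_congr rfl fun i _ => ?_
  rw [Finset.sum_div, ← Finset.sum_sub_distrib]
  exact Finset.sum_congr rfl fun i' _ => by ring

theorem LOG_f2_sum (h2 : St_HEAT) (hρ : Den ρ) (h h' : E N) (τ : ℝ) (z : E N) :
    f2 c L ρ h h' τ z = ∑ i, ∑ i', h i * h' i' * f2 c L ρ (ee i) (ee i') τ z := by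
  unfold f2
  rw [LOG_l2_sum h2 hρ h h', LOG_ll_sum h2 hρ h h', Finset.mul_sum, Finset.mul_sum,
    ← Finset.sum_add_distrib]
  refine Finset.sum_congr rfl fun i _ => ?_
  rw [Finset.mul_sum, Finset.mul_sum, ← Finset.sum_add_distrib]
  exact Finset.sum_congr rfl fun i' _ => by ring

theorem LOG_f2_sq (h2 : St_HEAT) (hc : c.Ok N β e) (hρ : Den ρ) (h h' : E N) (τ : ℝ) (z : E N) :
    f2 c L ρ h h' τ z ^ 2 ≤
      2 * (N + 1) * (‖h‖ ^ 2 * ‖h'‖ ^ 2) * (g1 c L ρ τ z ^ 2 * s2 c L ρ τ z) := by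
  set A := ∑ i, ∑ i', l2 c L ρ (ee i) (ee i') τ z ^ 2 with hA
  set B := ∑ i, l1 c L ρ (ee i) τ z ^ 4 with hB
  set K := ‖h‖ ^ 2 * ‖h'‖ ^ 2 with hK
  have A0 : 0 ≤ A := by positivity
  have B0 : 0 ≤ B := by positivity
  have K0 : 0 ≤ K := by positivity
  have N0 : (0 : ℝ) ≤ N := Nat.cast_nonneg N
  have a1 : l2 c L ρ h h' τ z ^ 2 ≤ K * A := by
    rw [LOG_l2_sum h2 hρ h h']
    exact LOG_cs2 h h' _
  have s0 : 0 ≤ s1 c L ρ τ z := by unfold s1; positivity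
  have a2 : s1 c L ρ τ z ^ 2 ≤ N * B := by
    have := sq_sum_le_card_mul_sum_sq (s := Finset.univ) (f := fun i => l1 c L ρ (ee i) τ z ^ 2)
    simp only [Finset.card_univ, Fintype.card_fin, ← pow_mul] at this
    exact this
  have a3 : (l1 c L ρ h τ z * l1 c L ρ h' τ z) ^ 2 ≤ K * (N * B) := by
    rw [mul_pow]
    calc _ ≤ ‖h‖ ^ 2 * s1 c L ρ τ z * (‖h'‖ ^ 2 * s1 c L ρ τ z) :=
          mul_le_mul (LOG_l1_sq h2 hρ h τ z) (LOG_l1_sq h2 hρ h' τ z) (sq_nonneg _)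
            (by positivity)
      _ = K * s1 c L ρ τ z ^ 2 := by rw [hK]; ring
      _ ≤ _ := mul_le_mul_of_nonneg_left a2 K0
  have r1 : 0 ≤ g1 c L ρ τ z := (hc.prof.r1 _).1
  have r2 : 0 ≤ g2 c L ρ τ z := (hc.prof.r2 _).1
  have r3 : g2 c L ρ τ z ≤ g1 c L ρ τ z := by
    have t1 : g2 c L ρ τ z ≤ e * g1 c L ρ τ z := (hc.prof.r2 _).2
    have t2 := hc.prof.e1
    nlinarith
  have r4 : g2 c L ρ τ z ^ 2 ≤ g1 c L ρ τ z ^ 2 := pow_le_pow_left₀ r2 r3 2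
  have b1 : (g1 c L ρ τ z * l2 c L ρ h h' τ z) ^ 2 ≤ g1 c L ρ τ z ^ 2 * (K * A) := by
    rw [mul_pow]
    exact mul_le_mul_of_nonneg_left a1 (sq_nonneg _)
  have b2 : (g2 c L ρ τ z * (l1 c L ρ h τ z * l1 c L ρ h' τ z)) ^ 2 ≤
      g1 c L ρ τ z ^ 2 * (K * (N * B)) := by
    rw [mul_pow]
    exact mul_le_mul r4 a3 (sq_nonneg _) (sq_nonneg _)
  have b3 : 0 ≤ g1 c L ρ τ z ^ 2 * K * (N * A + B) := by positivity
  have e2 : s2 c L ρ τ z = A + B := rfl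
  unfold f2
  rw [e2]
  nlinarith [sq_nonneg (g1 c L ρ τ z * l2 c L ρ h h' τ z -
    g2 c L ρ τ z * (l1 c L ρ h τ z * l1 c L ρ h' τ z))]

theorem LOG_ray (h2 : St_HEAT) (hc : c.Ok N β e) (hρ : Den ρ) (τ : ℝ) (y ξ : E N) :
    HasDerivAt (fun σ => yy c L ρ σ (y + Real.exp σ • ξ))
    (N - c.q + Real.exp (2 * τ) * ((∑ i, l2 c L ρ (ee i) (ee i) τ (y + Real.exp τ • ξ)) +
      s1 c L ρ τ (y + Real.exp τ • ξ)) + Real.exp τ * l1 c L ρ ξ τ (y + Real.exp τ • ξ)) τ := by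
  have H := (h2 N L ρ hρ.1).2.2.2.2.2.2.2.1 τ y ξ
  have d1 : HasDerivAt (fun σ : ℝ => c.δ * Real.exp (N * σ)) (c.δ * (Real.exp (N * τ) * N)) τ := by
    simpa using ((hasDerivAt_id τ).const_mul (N : ℝ)).exp.const_mul c.δ
  have hu := (LOG_uu_pos (L := L) hc hρ τ (y + Real.exp τ • ξ)).ne'
  have d2 : HasDerivAt (fun σ => uu c L ρ σ (y + Real.exp σ • ξ)) _ τ := H.add d1
  have d3 : HasDerivAt (fun σ : ℝ => c.q * σ) c.q τ := by
    simpa using (hasDerivAt_id τ).const_mul c.q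
  have d4 := ((d2.log hu).sub d3).sub_const (Real.log c.θ)
  refine HasDerivAt.congr_deriv d4 ?_
  have e1 : (∑ i, l2 c L ρ (ee i) (ee i) τ (y + Real.exp τ • ξ)) + s1 c L ρ τ (y + Real.exp τ • ξ) =
      (∑ i, k2 L ρ (ee i) (ee i) τ (y + Real.exp τ • ξ)) / uu c L ρ τ (y + Real.exp τ • ξ) := by
    unfold s1 l2
    rw [← Finset.sum_add_distrib, Finset.sum_div]
    exact Finset.sum_congr rfl fun i _ => by ring
  have e2 : k0 L ρ τ (y + Real.exp τ • ξ) =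
      uu c L ρ τ (y + Real.exp τ • ξ) - c.δ * Real.exp (N * τ) := by
    unfold uu
    ring
  rw [e1, e2]
  unfold l1
  field_simp
  ring

theorem LOG_grad (h1 : St_GAU) (h2 : St_HEAT) {A : ℝ} {W : E N →L[ℝ] E N} {κ : E N → ℝ}
    {j n : Fin N → E N → ℝ} (hL : Lin A L W) (hF : Flu ρ κ j n) (h : E N) (τ : ℝ) (z : E N) :
    k1 L ρ h τ z = k0 L (fun x => ∑ i, W h i * n i x) τ z := by
  obtain ⟨⟨g0, -, -, gh1, -⟩, -⟩ := h1 N
  have H := h2 N L ρ hF.den.1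
  have hB := H.2.2.2.2.2.2.2.2 τ z
  have e1 : ∀ i, k1 L ρ (L (ee i)) τ z = k0 L (n i) τ z := fun i => by
    have := hF.grad _ _ hB i
    simp only [k1, k0, km]
    rw [neg_mul, ← integral_const_mul]
    simp only [mul_comm (n i _)]
    rw [← neg_neg (∫ x, gam (xi L τ z x) * n i x), ← this]
    congr 1
    exact integral_congr_ae (Eventually.of_forall fun x => by ring)
  have e2 : ∀ ξ : E N, he1 h ξ = ∑ i, W h i * he1 (L (ee i)) ξ := fun ξ => by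
    have t : h = ∑ i, W h i • L (ee i) := by
      conv_lhs => rw [← hL.LW h, ← sum_ee (W h)]
      simp only [map_sum, map_smul]
    unfold he1
    conv_lhs => rw [t]
    rw [inner_sum, Finset.sum_mul]
    exact Finset.sum_congr rfl fun i _ => by rw [real_inner_smul_right, mul_assoc]
  have e3 : k1 L ρ h τ z = ∑ i, W h i * k1 L ρ (L (ee i)) τ z := by
    have t : km L (he1 h) ρ τ z = ∑ i, W h i * km L (he1 (L (ee i))) ρ τ z := by
      simp only [km, ← integral_const_mul]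
      rw [← integral_finsetSum _ fun i _ => ((H.1 _ (gh1 (L (ee i)))).2.1 τ z).const_mul _]
      refine integral_congr_ae (Eventually.of_forall fun x => ?_)
      simp only
      rw [e2, Finset.mul_sum]
      exact Finset.sum_congr rfl fun i _ => by ring
    unfold k1
    rw [t, Finset.mul_sum]
    exact Finset.sum_congr rfl fun i _ => by ring
  rw [e3]
  simp only [e1, k0, km, ← integral_const_mul]
  rw [← integral_finsetSum _ fun i _ =>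
    (((h2 N L (n i) (hF.inn i)).1 _ g0).2.1 τ z).const_mul _]
  refine integral_congr_ae (Eventually.of_forall fun x => ?_)
  simp only
  rw [Finset.sum_mul]
  exact Finset.sum_congr rfl fun i _ => by ring

theorem LOG_fisher (h1 : St_GAU) (h2 : St_HEAT) (hc : c.Ok N β e) {A : ℝ} {W : E N →L[ℝ] E N}
    {κ : E N → ℝ} {j n : Fin N → E N → ℝ} (hL : Lin A L W) (hF : Flu ρ κ j n) (τ : ℝ) (z : E N) :
    uu c L ρ τ z * s1 c L ρ τ z ≤ 4 * N * A ^ 2 * k0 L κ τ z := by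
  have g0 := (h1 N).1.1
  have hu := LOG_uu_pos (L := L) hc hF.den τ z
  have hk := LOG_k0_le (L := L) (ρ := ρ) hc τ z
  have hκ := LOG_k0_nonneg L hF.kden τ z
  have i0 := ((h2 N L ρ hF.den.1).1 _ g0).2.1 τ z
  have i1 := (((h2 N L κ hF.kden.1).1 _ g0).2.1 τ z).const_mul (4 * A ^ 2)
  have e1 : ∀ p, k1 L ρ (ee p) τ z ^ 2 ≤ k0 L ρ τ z * (4 * A ^ 2 * k0 L κ τ z) := fun p => by
    rw [LOG_grad h1 h2 hL hF]
    simp only [k0, km]
    rw [← integral_const_mul (4 * A ^ 2)]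
    refine cs_integral i0 i1 (fun x => mul_nonneg (hF.den.2 x) (gam_pos _).le)
      (fun x => mul_nonneg (by positivity) (mul_nonneg (hF.kden.2 x) (gam_pos _).le)) fun x => ?_
    have t1 := LOG_cs (W (ee p)) fun i => n i x
    have t2 : ‖W (ee p)‖ ^ 2 ≤ A ^ 2 := by
      have := hL.bW (ee p)
      rw [norm_ee, mul_one] at this
      exact pow_le_pow_left₀ (norm_nonneg _) this 2
    have t3 : ‖W (ee p)‖ ^ 2 * ∑ i, n i x ^ 2 ≤ A ^ 2 * (4 * (ρ x * κ x)) :=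
      mul_le_mul t2 (hF.bn x) (by positivity) (sq_nonneg _)
    have t4 := mul_le_mul_of_nonneg_right (t1.trans t3) (sq_nonneg (gam (xi L τ z x)))
    rw [mul_pow]
    exact t4.trans (le_of_eq (by ring))
  have e2 : ∀ p, uu c L ρ τ z * l1 c L ρ (ee p) τ z ^ 2 ≤ 4 * A ^ 2 * k0 L κ τ z := fun p => by
    have t : uu c L ρ τ z * l1 c L ρ (ee p) τ z ^ 2 = k1 L ρ (ee p) τ z ^ 2 / uu c L ρ τ z := by
      unfold l1
      field_simp
    rw [t, div_le_iff₀ hu, mul_comm]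
    exact (e1 p).trans (mul_le_mul_of_nonneg_right hk (by positivity))
  unfold s1
  rw [Finset.mul_sum]
  calc _ ≤ ∑ _p : Fin N, 4 * A ^ 2 * k0 L κ τ z := Finset.sum_le_sum fun p _ => e2 p
    _ = _ := by simp; ring

end Main

theorem LOG (h1 : St_GAU) (h2 : St_HEAT) : St_LOG := by
  intro N c β e L ρ hc hρ
  refine ⟨fun τ z => ⟨LOG_k0_nonneg L hρ τ z, LOG_uu_ge hρ τ z, LOG_uu_pos hc hρ τ z⟩,
    LOG_slabs h2 hc hρ,
    fun h τ z => ⟨LOG_d_uu h2 hρ h τ z, LOG_d_yy h2 hc hρ h τ z,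
      LOG_d_comp h2 hc hρ hc.prof.d1 h τ z, LOG_d_comp h2 hc hρ hc.prof.d2 h τ z⟩,
    fun h h' τ z => ⟨LOG_d_l1 h2 hc hρ h h' τ z, LOG_d_f1 h2 hc hρ h h' τ z⟩,
    fun h τ z => ⟨LOG_l1_sum h2 hρ h τ z, LOG_l1_sq h2 hρ h τ z, LOG_conc h1 h2 hc hρ h τ z⟩,
    fun h h' τ z => ⟨LOG_l2_symm h2 hρ h h' τ z, ?_, LOG_f2_sum h2 hρ h h' τ z,
      LOG_f2_sq h2 hc hρ h h' τ z⟩,
    LOG_ray h2 hc hρ, fun j hj => ?_,
    fun A W κ j n hL hF => ⟨LOG_grad h1 h2 hL hF, LOG_fisher h1 h2 hc hL hF⟩⟩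
  · unfold f2
    rw [LOG_l2_symm h2 hρ h h', mul_comm (l1 c L ρ h τ z)]
  · have hs : Slab (ud L j) :=
      (slab_sum Finset.univ fun i _ => (h2 N L (j i) (hj i)).2.1.2.1 (L (ee i))).neg
    exact ⟨hs, LOG_slab_div h2 hc hρ hs⟩

end

end Pool.Agent.Lib.MP_13801a_an.ND
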