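import Mathlib
import Pool.Agent.Lib.MP_13801a_an.ND.StsG

/-!
Pointwise bounds for the fields of one mode. All of them come from one Cauchy-Schwarz inequality
for block averages and two comparisons between Gaussian kernels.
-/

open MeasureTheory Set Filter Matrix
open scoped Topology

namespace Pool.Agent.Lib.MP_13801a_an.ND

variable {N : ℕ}

theorem MBND_nonneg {φ : E N → ℝ} {g : ℝ → E N → ℝ} (hφ : ∀ ξ, 0 ≤ φ ξ) (hg : ∀ τ z, 0 ≤ g τ z)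
    (τk s : ℝ) (y : E N) : 0 ≤ av τk s φ g y := by
  rw [av_eq_bi]
  exact bi_nonneg τk fun τ _ ξ => mul_nonneg (Real.exp_pos _).le (mul_nonneg (hφ ξ) (hg _ _))

/-- Cauchy-Schwarz inequality for block averages. -/
theorem MBND_cs {φ φ1 φ2 : E N → ℝ} {g a b : ℝ → E N → ℝ} (hφ : Gau φ) (hφ1 : Gau φ1)
    (hφ2 : Gau φ2) (hg : Slab g) (ha : Slab a) (hb : Slab b)
    (p1 : ∀ ξ, 0 ≤ φ1 ξ) (p2 : ∀ ξ, 0 ≤ φ2 ξ) (pa : ∀ τ z, 0 ≤ a τ z) (pb : ∀ τ z, 0 ≤ b τ z)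
    {K M T R τk s s1 s2 : ℝ} (hK : 0 ≤ K) (hM : 0 ≤ M) (hT : 0 ≤ T)
    (hker : ∀ ξ, φ ξ ^ 2 ≤ K * (φ1 ξ * φ2 ξ)) (hfun : ∀ τ z, g τ z ^ 2 ≤ M * (a τ z * b τ z))
    (hs : ∀ τ ∈ Icc (τk - 1) τk,
      (R * Real.exp (s * τ)) ^ 2 ≤ T * (Real.exp (s1 * τ) * Real.exp (s2 * τ))) (y : E N) :
    (R * av τk s φ g y) ^ 2 ≤ T * K * M * (av τk s1 φ1 a y * av τk s2 φ2 b y) := by
  simp only [av_eq_bi]
  rw [← bi_const_mul, ← mul_assoc, ← bi_const_mul _ (T * K * M)]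
  refine bi_cs ((blk_av hφ hg s y).const_mul R) ((blk_av hφ1 ha s1 y).const_mul _)
    (blk_av hφ2 hb s2 y) τk fun τ hτ ξ => ⟨?_, ?_, ?_⟩
  · exact mul_nonneg (mul_nonneg (mul_nonneg hT hK) hM)
      (mul_nonneg (Real.exp_pos _).le (mul_nonneg (p1 ξ) (pa _ _)))
  · exact mul_nonneg (Real.exp_pos _).le (mul_nonneg (p2 ξ) (pb _ _))
  · have q1 := hs τ hτ
    have q2 := hker ξ
    have q3 := hfun τ (y + Real.exp τ • ξ)
    have r1 : 0 ≤ T * (Real.exp (s1 * τ) * Real.exp (s2 * τ)) := by positivity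
    have r2 : 0 ≤ K * (φ1 ξ * φ2 ξ) := mul_nonneg hK (mul_nonneg (p1 ξ) (p2 ξ))
    calc _ = (R * Real.exp (s * τ)) ^ 2 * φ ξ ^ 2 * g τ (y + Real.exp τ • ξ) ^ 2 := by ring
      _ ≤ T * (Real.exp (s1 * τ) * Real.exp (s2 * τ)) * (K * (φ1 ξ * φ2 ξ)) *
          (M * (a τ (y + Real.exp τ • ξ) * b τ (y + Real.exp τ • ξ))) :=
        mul_le_mul (mul_le_mul q1 q2 (sq_nonneg _) r1) q3 (sq_nonneg _) (mul_nonneg r1 r2)
      _ = _ := by ring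

theorem MBND_scale {a b c d : ℝ} (h : 2 * a + 2 * b ≤ 2 + c + d) :
    (Real.exp a * Real.exp b) ^ 2 ≤ 9 * (Real.exp c * Real.exp d) := by
  have h1 : Real.exp 1 ≤ 3 := Real.exp_one_lt_three.le
  have h2 : Real.exp 1 * Real.exp 1 ≤ 9 := by nlinarith [Real.exp_pos 1]
  calc _ = Real.exp (a + b + (a + b)) := by simp only [Real.exp_add]; ring
    _ ≤ Real.exp (1 + 1 + (c + d)) := Real.exp_le_exp.2 (by linarith)
    _ = Real.exp 1 * Real.exp 1 * (Real.exp c * Real.exp d) := by simp only [Real.exp_add]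
    _ ≤ _ := mul_le_mul_of_nonneg_right h2 (by positivity)

theorem MBND_scale' {b c d : ℝ} (h : 2 * b ≤ 2 + c + d) :
    (1 * Real.exp b) ^ 2 ≤ 9 * (Real.exp c * Real.exp d) := by
  have := MBND_scale (a := 0) (b := b) (c := c) (d := d) (by linarith)
  rwa [Real.exp_zero] at this

/-- Kernels bounded by a quadratic polynomial times the Gaussian. -/
def MBND_Ker (φ : E N → ℝ) : Prop := ∀ ξ, |φ ξ| ≤ 4 * (1 + ‖ξ‖) ^ 2 * gam ξ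

theorem MBND_ker_gam : MBND_Ker (gam : E N → ℝ) := fun ξ => by
  have h := gam_pos ξ
  rw [abs_of_pos h]
  have : 1 ≤ 4 * (1 + ‖ξ‖) ^ 2 := by nlinarith [norm_nonneg ξ]
  nlinarith

theorem MBND_inner {h : E N} (hh : ‖h‖ ≤ 2) (ξ : E N) : |inner ℝ ξ h| ≤ 2 * ‖ξ‖ :=
  (abs_real_inner_le_norm ξ h).trans (by nlinarith [norm_nonneg ξ])

theorem MBND_ker_he1 {h : E N} (hh : ‖h‖ ≤ 2) : MBND_Ker (he1 h) := fun ξ => by
  have h0 := gam_pos ξ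
  rw [he1, abs_mul, abs_of_pos h0]
  refine mul_le_mul_of_nonneg_right ((MBND_inner hh ξ).trans ?_) h0.le
  nlinarith [norm_nonneg ξ]

theorem MBND_ker_he2 {h h' : E N} (hh : ‖h‖ ≤ 2) (hh' : ‖h'‖ ≤ 2) : MBND_Ker (he2 h h') :=
  fun ξ => by
  have h0 := gam_pos ξ
  rw [he2, abs_mul, abs_of_pos h0]
  refine mul_le_mul_of_nonneg_right ((abs_sub _ _).trans ?_) h0.le
  have a1 := MBND_inner hh ξ
  have a2 := MBND_inner hh' ξ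
  have a3 := MBND_inner hh' h
  have a4 : |inner ℝ ξ h * inner ℝ ξ h'| ≤ 2 * ‖ξ‖ * (2 * ‖ξ‖) := by
    rw [abs_mul]
    exact mul_le_mul a1 a2 (abs_nonneg _) (by positivity)
  nlinarith [norm_nonneg ξ]

/-- The two kernel comparisons. -/
theorem MBND_ker (h1 : St_GAU) (N : ℕ) : ∃ K : ℝ, 0 ≤ K ∧ ∀ φ : E N → ℝ, MBND_Ker φ →
    (∀ ξ, φ ξ ^ 2 ≤ K * (gp ξ * gq ξ)) ∧ ∀ ξ, φ ξ ^ 2 ≤ K * (gp ξ * gam ξ) := by
  obtain ⟨C, hC, hb⟩ := (h1 N).2.2.2.2.2 4 0 (1 / 30) (by norm_num)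
  set c0 : ℝ := (2 * Real.pi) ^ (-(N : ℝ) / 2) with hc0
  have hc : 0 < c0 := by positivity
  refine ⟨16 * C * (1 + c0), by positivity, fun φ hφ => ?_⟩
  have key : ∀ ξ, φ ξ ^ 2 ≤ 16 * C * Real.exp (1 / 30 * ‖ξ‖ ^ 2) * gam ξ ^ 2 := fun ξ => by
    have e1 := hb ‖ξ‖ (norm_nonneg ξ)
    rw [zero_mul, Real.exp_zero, mul_one] at e1
    have e2 : φ ξ ^ 2 ≤ (4 * (1 + ‖ξ‖) ^ 2 * gam ξ) ^ 2 := by
      rw [← sq_abs]
      exact pow_le_pow_left₀ (abs_nonneg _) (hφ ξ) 2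
    calc _ ≤ _ := e2
      _ = 16 * (1 + ‖ξ‖) ^ 4 * gam ξ ^ 2 := by ring
      _ ≤ 16 * (C * Real.exp (1 / 30 * ‖ξ‖ ^ 2)) * gam ξ ^ 2 := by gcongr
      _ = _ := by ring
  refine ⟨fun ξ => (key ξ).trans ?_, fun ξ => (key ξ).trans ?_⟩
  · have e1 : Real.exp (1 / 30 * ‖ξ‖ ^ 2) * Real.exp (-‖ξ‖ ^ 2 / 2) =
        Real.exp (‖ξ‖ ^ 2 / 5) * gq ξ := by
      rw [gq, ← Real.exp_add, ← Real.exp_add]
      congr 1
      ring
    have e2 : gam ξ = c0 * Real.exp (-‖ξ‖ ^ 2 / 2) := rfl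
    have e3 : 0 ≤ gp ξ * gq ξ := (mul_pos (gp_pos ξ) (gq_pos ξ)).le
    calc _ = 16 * C * c0 * (Real.exp (1 / 30 * ‖ξ‖ ^ 2) * Real.exp (-‖ξ‖ ^ 2 / 2) * gam ξ) := by
          rw [sq (gam ξ)]
          nth_rewrite 1 [e2]
          ring
      _ = 16 * C * c0 * (gp ξ * gq ξ) := by rw [e1, gp]; ring
      _ ≤ _ := by gcongr; linarith
  · have e1 : Real.exp (1 / 30 * ‖ξ‖ ^ 2) ≤ Real.exp (‖ξ‖ ^ 2 / 5) :=
      Real.exp_le_exp.2 (by nlinarith [sq_nonneg ‖ξ‖])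
    have e3 : 0 ≤ gp ξ * gam ξ := (mul_pos (gp_pos ξ) (gam_pos ξ)).le
    calc _ ≤ 16 * C * Real.exp (‖ξ‖ ^ 2 / 5) * gam ξ ^ 2 := by gcongr
      _ = 16 * C * 1 * (gp ξ * gam ξ) := by rw [gp]; ring
      _ ≤ _ := by gcongr; linarith

theorem MBND_gam_le_gp (ξ : E N) : gam ξ ≤ gp ξ :=
  le_mul_of_one_le_left (gam_pos ξ).le (Real.one_le_exp (by positivity))

theorem MBND_abs_le {x y : ℝ} (hy : 0 ≤ y) (h : x ^ 2 ≤ y ^ 2) : |x| ≤ y := by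
  rw [← abs_of_nonneg hy]
  exact sq_le_sq.1 h

theorem MBND (h1 : St_GAU) (h2 : St_AVD) (h3 : St_LOG) : St_MBND := by
  intro N
  obtain ⟨K, hK, hker⟩ := MBND_ker h1 N
  obtain ⟨⟨Ggam, Ggp, Ggq, Ghe1, Ghe2⟩, -, -, dgam, dhe1, -⟩ := h1 N
  set I : ℝ := ∫ ξ : E N, gp ξ with hI
  have hI0 : 0 ≤ I := integral_nonneg fun ξ => (gp_pos ξ).le
  set M : ℝ := 32 * (N + 1) with hM
  have hM4 : 4 ≤ M := by
    have : (0 : ℝ) ≤ N := Nat.cast_nonneg N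
    linarith
  have hM0 : 0 ≤ M := by linarith
  set D : ℝ := 9 * K * M with hD
  have hD0 : 0 ≤ D := by positivity
  have hDC : D ≤ (1 + D) * (1 + I) := by nlinarith
  have hDI : D * I ≤ (1 + D) * (1 + I) := by nlinarith
  have h1C : 1 ≤ (1 + D) * (1 + I) := by nlinarith
  refine ⟨(1 + D) * (1 + I), by positivity, fun c β e L ρ hc hρ k x => ?_⟩
  obtain ⟨-, ⟨-, -, -, -, Sg1, Sg2, Ss1, Ss2, Sl, Sf2⟩, dL, dL2, bL, bL2, -, Sy, -⟩ :=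
    h3 N c β e L ρ hc hρ
  have hp := hc.prof
  have hβ := hp.β0
  have he := hp.e0
  have pgam : ∀ ξ : E N, 0 ≤ gam ξ := fun ξ => (gam_pos ξ).le
  have pgp : ∀ ξ : E N, 0 ≤ gp ξ := fun ξ => (gp_pos ξ).le
  have pgq : ∀ ξ : E N, 0 ≤ gq ξ := fun ξ => (gq_pos ξ).le
  have pg1 : ∀ τ z, 0 ≤ g1 c L ρ τ z := fun τ z => (hp.r1 _).1
  have bg1 : ∀ τ z, g1 c L ρ τ z ≤ β := fun τ z => (hp.r1 _).2
  have bg2 : ∀ τ z, g2 c L ρ τ z ^ 2 ≤ e ^ 2 * g1 c L ρ τ z ^ 2 := fun τ z => by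
    rw [← mul_pow]
    exact pow_le_pow_left₀ (hp.r2 _).1 (hp.r2 _).2 2
  have ps1 : ∀ τ z, 0 ≤ s1 c L ρ τ z := fun τ z => Finset.sum_nonneg fun _ _ => sq_nonneg _
  have ps2 : ∀ τ z, 0 ≤ s2 c L ρ τ z := fun τ z =>
    add_nonneg (Finset.sum_nonneg fun _ _ => Finset.sum_nonneg fun _ _ => sq_nonneg _)
      (Finset.sum_nonneg fun _ _ => by positivity)
  have pgs1 : ∀ τ z, 0 ≤ g1 c L ρ τ z * s1 c L ρ τ z := fun τ z => mul_nonneg (pg1 τ z) (ps1 τ z)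
  have pgs2 : ∀ τ z, 0 ≤ g1 c L ρ τ z * s2 c L ρ τ z := fun τ z => mul_nonneg (pg1 τ z) (ps2 τ z)
  have bl1 : ∀ h : E N, ‖h‖ ≤ 2 → ∀ τ z, l1 c L ρ h τ z ^ 2 ≤ 4 * s1 c L ρ τ z :=
    fun h hh τ z => (bL h τ z).2.1.trans
      (mul_le_mul_of_nonneg_right (by nlinarith [norm_nonneg h]) (ps1 τ z))
  have bf1 : ∀ h : E N, ‖h‖ ≤ 2 → ∀ τ z,
      f1 c L ρ h τ z ^ 2 ≤ 4 * (g1 c L ρ τ z * (g1 c L ρ τ z * s1 c L ρ τ z)) := fun h hh τ z => by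
    calc _ = g1 c L ρ τ z ^ 2 * l1 c L ρ h τ z ^ 2 := by rw [f1]; ring
      _ ≤ g1 c L ρ τ z ^ 2 * (4 * s1 c L ρ τ z) :=
        mul_le_mul_of_nonneg_left (bl1 h hh τ z) (sq_nonneg _)
      _ = _ := by ring
  have bf1' : ∀ h : E N, ‖h‖ ≤ 2 → ∀ τ z,
      f1 c L ρ h τ z ^ 2 ≤ M * (g1 c L ρ τ z * (g1 c L ρ τ z * s1 c L ρ τ z)) := fun h hh τ z =>
    (bf1 h hh τ z).trans (mul_le_mul_of_nonneg_right hM4 (mul_nonneg (pg1 τ z) (pgs1 τ z)))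
  have bw1 : ∀ h : E N, ‖h‖ ≤ 2 → ∀ τ z, (g2 c L ρ τ z * l1 c L ρ h τ z) ^ 2 ≤
      M * e ^ 2 * (g1 c L ρ τ z * (g1 c L ρ τ z * s1 c L ρ τ z)) := fun h hh τ z => by
    have a1 : l1 c L ρ h τ z ^ 2 ≤ M * s1 c L ρ τ z :=
      (bl1 h hh τ z).trans (mul_le_mul_of_nonneg_right hM4 (ps1 τ z))
    calc _ = g2 c L ρ τ z ^ 2 * l1 c L ρ h τ z ^ 2 := by ring
      _ ≤ e ^ 2 * g1 c L ρ τ z ^ 2 * (M * s1 c L ρ τ z) :=
        mul_le_mul (bg2 τ z) a1 (sq_nonneg _) (by positivity)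
      _ = _ := by ring
  have bf2 : ∀ h h' : E N, ‖h‖ ≤ 2 → ‖h'‖ ≤ 2 → ∀ τ z,
      f2 c L ρ h h' τ z ^ 2 ≤ M * (g1 c L ρ τ z * (g1 c L ρ τ z * s2 c L ρ τ z)) :=
    fun h h' hh hh' τ z => by
    have a1 : ‖h‖ ^ 2 * ‖h'‖ ^ 2 ≤ 2 ^ 2 * 2 ^ 2 := by gcongr
    have a2 : 0 ≤ g1 c L ρ τ z ^ 2 * s2 c L ρ τ z := mul_nonneg (sq_nonneg _) (ps2 τ z)
    calc _ ≤ _ := (bL2 h h' τ z).2.2.2
      _ ≤ 2 * (N + 1) * (2 ^ 2 * 2 ^ 2) * (g1 c L ρ τ z ^ 2 * s2 c L ρ τ z) := by gcongr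
      _ = _ := by rw [hM]; ring
  have pW : 0 ≤ fW c L ρ k x := MBND_nonneg pgam pg1 _ _ _
  have pS : 0 ≤ fS c L ρ k x := MBND_nonneg pgam pgs1 _ _ _
  have pD : 0 ≤ fD c L ρ k x := MBND_nonneg pgam pgs2 _ _ _
  have pI : 0 ≤ fI c L ρ k x := MBND_nonneg pgq pgs1 _ _ _
  have hWW : fW c L ρ k x ≤ fWP c L ρ k x := by
    simp only [fW, fWP, av_eq_bi]
    exact bi_mono (blk_av Ggam Sg1 _ _) (blk_av Ggp Sg1 _ _) _ fun τ _ ξ =>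
      mul_le_mul_of_nonneg_left (mul_le_mul_of_nonneg_right (MBND_gam_le_gp ξ) (pg1 _ _))
        (Real.exp_pos _).le
  have pP : 0 ≤ fWP c L ρ k x := pW.trans hWW
  have hWP : fWP c L ρ k x ≤ I * β := by
    rw [hI, ← bi_gau gp (c.τ0 - k), mul_comm, ← bi_const_mul, fWP, av_eq_bi]
    refine bi_mono (blk_av Ggp Sg1 _ _) (Ggp.blk.const_mul β) _ fun τ _ ξ => ?_
    rw [zero_mul, Real.exp_zero, one_mul, mul_comm]
    exact mul_le_mul_of_nonneg_right (bg1 _ _) (pgp ξ)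
  have hrk := rk_pos c k
  have sc0 : ∀ τ ∈ Icc (c.τ0 - k - 1) (c.τ0 - k), (rk c k * Real.exp (0 * τ)) ^ 2 ≤
      9 * (Real.exp (0 * τ) * Real.exp (2 * τ)) := fun τ hτ => MBND_scale (by linarith [hτ.1])
  have sc1 : ∀ τ ∈ Icc (c.τ0 - k - 1) (c.τ0 - k), (rk c k * Real.exp (-1 * τ)) ^ 2 ≤
      9 * (Real.exp (0 * τ) * Real.exp (0 * τ)) := fun τ hτ => MBND_scale (by linarith [hτ.1])
  have fin1 : ∀ {u v : ℝ}, 0 ≤ v → u ≤ D * (fWP c L ρ k x * v) →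
      u ≤ (1 + D) * (1 + I) * β * v := fun {u v} hv h => by
    calc u ≤ D * (I * β * v) := h.trans (by gcongr)
      _ = D * I * β * v := by ring
      _ ≤ _ := by gcongr
  have fin2 : ∀ {u v : ℝ}, 0 ≤ v → u ≤ D * v → u ≤ (1 + D) * (1 + I) * v := fun {u v} hv h =>
    h.trans (mul_le_mul_of_nonneg_right hDC hv)
  refine ⟨⟨pW, hWW, hWP.trans (mul_le_mul_of_nonneg_right (by nlinarith) hβ.le), pS, pD, pI⟩,
    fun h hh => ⟨?_, ?_, ?_, ?_⟩, fun h h' l hh hh' hl => ⟨?_, ?_, ?_⟩, fun j hj => ?_⟩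
  · have a1 := MBND_cs Ggam Ggam Ggam (Sl h).2 Sg1 (Sg1.mul Ss1) pgam pgam pg1 pgs1
      (K := 1) (T := rk c k ^ 2) (R := 1) (τk := c.τ0 - k) (s := 2) (s1 := 0) (s2 := 2)
      zero_le_one (by norm_num) (sq_nonneg _) (fun ξ => by rw [one_mul, sq]) (bf1 h hh)
      (fun τ hτ => by
        have b1 : Real.exp (2 * τ) ≤ rk c k ^ 2 := by
          rw [rk, sq, ← Real.exp_add]
          exact Real.exp_le_exp.2 (by linarith [hτ.2])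
        rw [zero_mul, Real.exp_zero, one_mul, sq]
        exact mul_le_mul_of_nonneg_right b1 (Real.exp_pos _).le) (L x)
    rw [one_mul] at a1
    have a2 : fP c L ρ k h x ^ 2 ≤ rk c k ^ 2 * 1 * 4 * (fW c L ρ k x * fS c L ρ k x) := a1
    have a3 : |fP c L ρ k h x| ≤ rk c k * (fW c L ρ k x + fS c L ρ k x) := by
      refine MBND_abs_le (by positivity) (a2.trans ?_)
      nlinarith [mul_nonneg (sq_nonneg (rk c k)) (sq_nonneg (fW c L ρ k x - fS c L ρ k x))]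
    exact a3.trans (le_mul_of_one_le_left (by positivity) h1C)
  · have st : fW1 c L ρ k h x = av (c.τ0 - k) (-1) (he1 h) (g1 c L ρ) (L x) := by
      have := (((h2 N gam Ggam).2.2.1 (he1 h) (g1 c L ρ) h (Ghe1 h) Sg1 (dgam h)).2.2 _
        (Sg2.mul (Sl h).1) fun τ z => (dL h τ z).2.2.2).2 (c.τ0 - k) 0 (L x)
      rwa [zero_sub] at this
    have a1 := MBND_cs (Ghe1 h) Ggp Ggam Sg1 Sg1 Sg1 pgp pgam pg1 pg1 hK hM0 (by norm_num)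
      (hker _ (MBND_ker_he1 hh)).2
      (fun τ z => by
        rw [← sq]
        exact le_mul_of_one_le_left (sq_nonneg _) (by linarith)) sc1 (L x)
    rw [← st] at a1
    have a2 : (rk c k * fW1 c L ρ k h x) ^ 2 ≤ D * (fWP c L ρ k x * fW c L ρ k x) := a1
    have a3 : |rk c k * fW1 c L ρ k h x| ≤ (1 + D) * (I * β) := by
      refine MBND_abs_le (by positivity) (a2.trans ?_)
      have b1 : fWP c L ρ k x * fW c L ρ k x ≤ I * β * (I * β) :=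
        mul_le_mul hWP (hWW.trans hWP) pW (by positivity)
      calc _ ≤ (1 + D) ^ 2 * (I * β * (I * β)) :=
            mul_le_mul (by nlinarith) b1 (mul_nonneg pP pW) (sq_nonneg _)
        _ = _ := by ring
    rw [abs_mul, abs_of_pos hrk] at a3
    refine a3.trans ?_
    rw [mul_assoc]
    gcongr
    linarith
  · have a1 := MBND_cs Ggam Ggp Ggq (Sg2.mul (Sl h).1) Sg1 (Sg1.mul Ss1) pgp pgq pg1 pgs1 hK
      (by positivity) (T := 9) (R := 1) (τk := c.τ0 - k) (s := 0) (s1 := 0) (s2 := 0)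
      (by norm_num) (hker _ MBND_ker_gam).1 (bw1 h hh)
      (fun τ _ => MBND_scale' (by linarith)) (L x)
    rw [one_mul] at a1
    have a2 : fW1 c L ρ k h x ^ 2 ≤ 9 * K * (M * e ^ 2) * (fWP c L ρ k x * fI c L ρ k x) := a1
    rw [mul_assoc]
    exact fin2 (by positivity) (a2.trans_eq (by rw [hD]; ring))
  · have a1 := MBND_cs (Ghe1 h) Ggp Ggq (Sg2.mul (Sl h).1) Sg1 (Sg1.mul Ss1) pgp pgq pg1 pgs1 hK
      (by positivity) (by norm_num) (hker _ (MBND_ker_he1 hh)).1 (bw1 h hh) sc1 (L x)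
    have a2 : (rk c k * fW2 c L ρ k h x) ^ 2 ≤
        9 * K * (M * e ^ 2) * (fWP c L ρ k x * fI c L ρ k x) := a1
    rw [mul_assoc]
    exact fin2 (by positivity) (a2.trans_eq (by rw [hD]; ring))
  · have st : fB3 c L ρ k h h' l x = -av (c.τ0 - k) 0 (he2 l h') (f1 c L ρ h) (L x) := by
      have := (((h2 N (he1 l) (Ghe1 l)).2.2.1 (he2 l h') (f1 c L ρ h) h' (Ghe2 l h') (Sl h).2
        (dhe1 l h')).2.2 _ (Sf2 h h').2 fun τ z => (dL2 h h' τ z).2).2 (c.τ0 - k) 1 (L x)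
      rw [fB3, this, sub_self]
    have a1 := MBND_cs (Ghe2 l h') Ggp Ggam (Sl h).2 Sg1 (Sg1.mul Ss1) pgp pgam pg1 pgs1 hK hM0
      (by norm_num) (hker _ (MBND_ker_he2 hl hh')).2 (bf1' h hh) sc0 (L x)
    refine fin1 pS ?_
    rw [st, mul_neg, neg_sq]
    exact a1
  · have a1 := MBND_cs (Ghe1 l) Ggp Ggam (Sf2 h h').2 Sg1 (Sg1.mul Ss2) pgp pgam pg1 pgs2 hK hM0
      (T := 9) (R := 1) (τk := c.τ0 - k) (s := 1) (s1 := 0) (s2 := 2) (by norm_num)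
      (hker _ (MBND_ker_he1 hl)).2 (bf2 h h' hh hh') (fun τ _ => MBND_scale' (by linarith)) (L x)
    rw [one_mul] at a1
    refine fin2 (mul_nonneg pP pD) ?_
    rw [fB3, neg_sq]
    exact a1
  · have a1 := MBND_cs (Ghe2 l l) Ggp Ggam (Sf2 h h').2 Sg1 (Sg1.mul Ss2) pgp pgam pg1 pgs2 hK hM0
      (by norm_num) (hker _ (MBND_ker_he2 hl hl)).2 (bf2 h h' hh hh') sc0 (L x)
    refine fin2 (mul_nonneg pP pD) ?_
    rw [fB4, mul_neg, neg_sq]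
    exact a1
  · have Syd := (Sy j hj).2
    have pgy : ∀ τ z, 0 ≤ g1 c L ρ τ z * yd c L ρ j τ z ^ 2 :=
      fun τ z => mul_nonneg (pg1 τ z) (sq_nonneg _)
    have pQ : 0 ≤ fQ c L ρ j k x := MBND_nonneg pgq pgy _ _ _
    have by1 : ∀ τ z, (g1 c L ρ τ z * yd c L ρ j τ z) ^ 2 ≤
        M * (g1 c L ρ τ z * (g1 c L ρ τ z * yd c L ρ j τ z ^ 2)) := fun τ z => by
      calc _ = g1 c L ρ τ z * (g1 c L ρ τ z * yd c L ρ j τ z ^ 2) := by ring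
        _ ≤ _ := le_mul_of_one_le_left (mul_nonneg (pg1 τ z) (pgy τ z)) (by linarith)
    have by2 : ∀ τ z, (g2 c L ρ τ z * yd c L ρ j τ z) ^ 2 ≤
        M * (g1 c L ρ τ z * (g1 c L ρ τ z * yd c L ρ j τ z ^ 2)) := fun τ z => by
      refine le_trans ?_ (by1 τ z)
      rw [mul_pow, mul_pow]
      refine mul_le_mul_of_nonneg_right ((bg2 τ z).trans ?_) (sq_nonneg _)
      exact mul_le_of_le_one_left (sq_nonneg _) (by nlinarith [hp.e1])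
    refine ⟨pQ, fin1 pQ ?_, fun h h' hh hh' => fin1 pQ ?_⟩
    · exact MBND_cs Ggam Ggp Ggq (Sg2.mul Syd) Sg1 (Sg1.mul (Syd.pow 2)) pgp pgq pg1 pgy hK hM0
        (by norm_num) (hker _ MBND_ker_gam).1 by2 sc0 (L x)
    · rw [fBt, mul_neg, neg_sq]
      exact MBND_cs (Ghe2 h h') Ggp Ggq (Sg1.mul Syd) Sg1 (Sg1.mul (Syd.pow 2)) pgp pgq pg1 pgy
        hK hM0 (by norm_num) (hker _ (MBND_ker_he2 hh hh')).1 by1 sc0 (L x)

end Pool.Agent.Lib.MP_13801a_an.ND
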