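import Mathlib
import Pool.Agent.Lib.MP_13801a_an.ND.StsG

/-!
Comparison of the fields of two modes at separated scales, and the bounds at the extreme scales.
-/

open MeasureTheory Set Filter Matrix
open scoped Topology

namespace Pool.Agent.Lib.MP_13801a_an.ND

noncomputable section

variable {N : ℕ}

theorem MCR_sq_add (a b : E N) : ‖a + b‖ ^ 2 ≤ 2 * ‖a‖ ^ 2 + 2 * ‖b‖ ^ 2 := by
  have h1 := norm_add_le a b
  have h2 : ‖a + b‖ ^ 2 ≤ (‖a‖ + ‖b‖) ^ 2 := pow_le_pow_left₀ (norm_nonneg _) h1 2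
  nlinarith [sq_nonneg (‖a‖ - ‖b‖)]

theorem MCR_sq_sub (a b : E N) : ‖a‖ ^ 2 ≤ 2 * ‖a + b‖ ^ 2 + 2 * ‖b‖ ^ 2 := by
  have h := MCR_sq_add (a + b) (-b)
  rwa [add_neg_cancel_right, norm_neg] at h

theorem MCR_xi (L : E N →L[ℝ] E N) (τ : ℝ) (x y ξ : E N) :
    xi L τ (L x + Real.exp τ • ξ) y = Real.exp (-τ) • L (x - y) + ξ := by
  have h : Real.exp (-τ) * Real.exp τ = 1 := by rw [← Real.exp_add]; simp
  have e : L x + Real.exp τ • ξ - L y = L (x - y) + Real.exp τ • ξ := by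
    rw [map_sub]; abel
  rw [xi, e, smul_add, smul_smul, h, one_smul]

theorem MCR_gam_le {u v : E N} {s : ℝ} (h : ‖v‖ ^ 2 / 2 ≤ ‖u‖ ^ 2 / 2 + s) :
    gam u ≤ gam v * Real.exp s := by
  unfold gam
  rw [mul_assoc, ← Real.exp_add]
  exact mul_le_mul_of_nonneg_left (Real.exp_le_exp.2 (by linarith)) (by positivity)

theorem MCR_c_le : (2 * Real.pi) ^ (-(N : ℝ) / 2) ≤ 1 := by
  refine Real.rpow_le_one_of_one_le_of_nonpos (by linarith [Real.pi_gt_three]) ?_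
  have : (0 : ℝ) ≤ N := Nat.cast_nonneg N
  linarith

theorem MCR_gam_le_one (u : E N) : gam u ≤ 1 := by
  unfold gam
  have h1 : Real.exp (-‖u‖ ^ 2 / 2) ≤ 1 := Real.exp_le_one_iff.2 (by nlinarith [sq_nonneg ‖u‖])
  calc _ ≤ 1 * 1 := mul_le_mul MCR_c_le h1 (Real.exp_pos _).le zero_le_one
    _ = 1 := mul_one _

theorem MCR_log2pi : Real.log (2 * Real.pi) ≤ 2 := by
  rw [Real.log_le_iff_le_exp (by positivity)]
  have h : Real.exp 2 = Real.exp 1 * Real.exp 1 := by rw [← Real.exp_add]; norm_num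
  have h1 := Real.exp_one_gt_d9
  have h2 := Real.pi_lt_d2
  rw [h]
  nlinarith

theorem MCR_log9 : Real.log 9 ≤ 3 := by
  rw [Real.log_le_iff_le_exp (by norm_num)]
  have h : Real.exp 3 = Real.exp 1 * Real.exp 1 * Real.exp 1 := by
    rw [← Real.exp_add, ← Real.exp_add]; norm_num
  have h1 := Real.exp_one_gt_d9
  rw [h]
  nlinarith [mul_pos (Real.exp_pos 1) (Real.exp_pos 1)]

/-- Pointwise comparison of the kernels at separated scales. -/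
theorem MCR_ker {A d : ℝ} {L W L' W' : E N →L[ℝ] E N} (hL : Lin A L W) (hL' : Lin A L' W')
    (hd : 4 * A ≤ Real.exp d) (τ : ℝ) (x y ξ ξ' : E N) :
    gam (xi L (τ - d) (L x + Real.exp (τ - d) • ξ) y) ≤
      gam (xi L' τ (L' x + Real.exp τ • ξ') y) * Real.exp (‖ξ‖ ^ 2 / 2 + ‖ξ'‖ ^ 2) := by
  rw [MCR_xi, MCR_xi]
  refine MCR_gam_le ?_
  set a := Real.exp (-(τ - d)) • L (x - y) with ha
  set a' := Real.exp (-τ) • L' (x - y) with ha'
  have e1 : ‖a‖ = Real.exp (-τ) * Real.exp d * ‖L (x - y)‖ := by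
    rw [ha, norm_smul, Real.norm_eq_abs, abs_of_pos (Real.exp_pos _), ← Real.exp_add]
    congr 2
    ring
  have e2 : ‖a'‖ = Real.exp (-τ) * ‖L' (x - y)‖ := by
    rw [ha', norm_smul, Real.norm_eq_abs, abs_of_pos (Real.exp_pos _)]
  have b1 : ‖x - y‖ ≤ A * ‖L (x - y)‖ := by
    have := hL.bW (L (x - y))
    rwa [hL.WL] at this
  have b2 := hL'.bL (x - y)
  have b3 : 2 * ‖L' (x - y)‖ ≤ Real.exp d * ‖L (x - y)‖ := by
    nlinarith [norm_nonneg (L (x - y))]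
  have b4 : 2 * ‖a'‖ ≤ ‖a‖ := by
    rw [e1, e2]
    nlinarith [Real.exp_pos (-τ)]
  have b5 : (2 * ‖a'‖) ^ 2 ≤ ‖a‖ ^ 2 := pow_le_pow_left₀ (by positivity) b4 2
  have c1 := MCR_sq_add a' ξ'
  have c2 := MCR_sq_sub a ξ
  nlinarith

theorem MCR_yy (h1 : St_GAU) (h3 : St_HEAT) (h4 : St_LOG) {c : Cfg} {β e A d : ℝ}
    {L W L' W' : E N →L[ℝ] E N} {ρ : E N → ℝ} (hc : c.Ok N β e) (hL : Lin A L W)
    (hL' : Lin A L' W') (hρ : Den ρ) (hd0 : 0 ≤ d) (hd : 4 * A ≤ Real.exp d) (τ : ℝ)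
    (x ξ ξ' : E N) :
    yy c L ρ (τ - d) (L x + Real.exp (τ - d) • ξ) ≤
      yy c L' ρ τ (L' x + Real.exp τ • ξ') + (‖ξ‖ ^ 2 / 2 + ‖ξ'‖ ^ 2 + N * d) := by
  have hg : Gau (gam : E N → ℝ) := (h1 N).1.1
  set s := ‖ξ‖ ^ 2 / 2 + ‖ξ'‖ ^ 2 with hs
  have hs0 : 0 ≤ s := by positivity
  have i1 := ((h3 N L ρ hρ.1).1 gam hg).2.1 (τ - d) (L x + Real.exp (τ - d) • ξ)
  have i2 := ((h3 N L' ρ hρ.1).1 gam hg).2.1 τ (L' x + Real.exp τ • ξ')
  have k : k0 L ρ (τ - d) (L x + Real.exp (τ - d) • ξ) ≤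
      k0 L' ρ τ (L' x + Real.exp τ • ξ') * Real.exp s := by
    unfold k0 km
    rw [← integral_mul_const]
    refine integral_mono i1 (i2.mul_const _) fun y => ?_
    have := mul_le_mul_of_nonneg_left (MCR_ker hL hL' hd τ x y ξ ξ') (hρ.2 y)
    simpa only [mul_assoc] using this
  have hN : (0 : ℝ) ≤ N := Nat.cast_nonneg N
  have k' : c.δ * Real.exp (N * (τ - d)) ≤ c.δ * Real.exp (N * τ) * Real.exp s := by
    rw [mul_assoc, ← Real.exp_add]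
    exact mul_le_mul_of_nonneg_left (Real.exp_le_exp.2 (by nlinarith)) hc.δ0.le
  have u : uu c L ρ (τ - d) (L x + Real.exp (τ - d) • ξ) ≤
      uu c L' ρ τ (L' x + Real.exp τ • ξ') * Real.exp s := by
    unfold uu
    linarith
  have p1 := ((h4 N c β e L ρ hc hρ).1 (τ - d) (L x + Real.exp (τ - d) • ξ)).2.2
  have p2 := ((h4 N c β e L' ρ hc hρ).1 τ (L' x + Real.exp τ • ξ')).2.2
  have l := Real.log_le_log p1 u
  rw [Real.log_mul p2.ne' (Real.exp_pos _).ne', Real.log_exp] at l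
  have q : c.q * d ≤ N * d := mul_le_mul_of_nonneg_right hc.qN hd0
  unfold yy
  nlinarith

theorem MCR_int {φ : E N → ℝ} {g : ℝ → E N → ℝ} (hφ : Gau φ) (hg : Slab g) (τ : ℝ) (y : E N) :
    Integrable fun ξ => φ ξ * g τ (y + Real.exp τ • ξ) :=
  ((hφ.blk.mul_slab (hg.ray y)).gau τ).integrable

/-- Integrating an affine bound in the square of the Gaussian variable. -/
theorem MCR_aff (h1 : St_GAU) (a b : ℝ) :
    (Integrable fun ξ : E N => gam ξ * (a + b * ‖ξ‖ ^ 2)) ∧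
      ∫ ξ : E N, gam ξ * (a + b * ‖ξ‖ ^ 2) = a + b * N := by
  obtain ⟨⟨hg, -⟩, hm, ⟨e1, -, e2⟩, -⟩ := h1 N
  have i1 := hg.integrable.const_mul a
  have i2 := ((hm gam hg).2.1 2).integrable.const_mul b
  have e : (fun ξ : E N => gam ξ * (a + b * ‖ξ‖ ^ 2)) =
      fun ξ : E N => a * gam ξ + b * (‖ξ‖ ^ 2 * gam ξ) := by
    ext ξ; ring
  rw [e]
  refine ⟨i1.add i2, ?_⟩
  rw [integral_add i1 i2, integral_const_mul, integral_const_mul, e1, e2, mul_one]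

theorem MCR_F (h1 : St_GAU) (h3 : St_HEAT) (h4 : St_LOG) {c : Cfg} {β e A d : ℝ}
    {L W L' W' : E N →L[ℝ] E N} {ρ : E N → ℝ} (hc : c.Ok N β e) (hL : Lin A L W)
    (hL' : Lin A L' W') (hρ : Den ρ) (hd0 : 0 ≤ d) (hd : 4 * A ≤ Real.exp d) (τ : ℝ) (x : E N) :
    ex gam (f0 c L ρ) (τ - d) (L x) ≤ ex gam (f0 c L' ρ) τ (L' x) + (N * d + 3 / 2 * N) * β := by
  have hg : Gau (gam : E N → ℝ) := (h1 N).1.1
  have s1 := (h4 N c β e L ρ hc hρ).2.1.2.2.2.1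
  have s2 := (h4 N c β e L' ρ hc hρ).2.1.2.2.2.1
  obtain ⟨i3, e3⟩ := MCR_aff (N := N) h1 (N * d * β) (3 / 2 * β)
  have i2 := MCR_int hg s2 τ (L' x)
  have hN : (0 : ℝ) ≤ N := Nat.cast_nonneg N
  have e : (N * d + 3 / 2 * N) * β = N * d * β + 3 / 2 * β * N := by ring
  rw [e, ← e3]
  unfold ex
  rw [← integral_add i2 i3]
  refine integral_mono (MCR_int hg s1 _ _) (i2.add i3) fun ξ => ?_
  have h := (hc.prof.gr _ _ _ (by positivity) (MCR_yy h1 h3 h4 hc hL hL' hρ hd0 hd τ x ξ ξ)).2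
  have := mul_le_mul_of_nonneg_left h (gam_pos ξ).le
  simp only [f0]
  nlinarith

theorem MCR_e1 (ξ : E N) : gam ξ * Real.exp (-‖ξ‖ ^ 2 / 2) =
    (2 * Real.pi) ^ (-(N : ℝ) / 2) * Real.exp (-1 * ‖ξ‖ ^ 2) := by
  unfold gam
  rw [mul_assoc, ← Real.exp_add]
  congr 2
  ring

theorem MCR_e2 (ξ : E N) : gp ξ * Real.exp (‖ξ‖ ^ 2 / 4) =
    (2 * Real.pi) ^ (-(N : ℝ) / 2) * Real.exp (-(1 / 20) * ‖ξ‖ ^ 2) := by
  unfold gp gam
  rw [mul_left_comm, mul_assoc, ← Real.exp_add, ← Real.exp_add]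
  congr 2
  ring

theorem MCR_c1 : (Integrable fun ξ : E N => gam ξ * Real.exp (-‖ξ‖ ^ 2 / 2)) ∧
    0 < ∫ ξ : E N, gam ξ * Real.exp (-‖ξ‖ ^ 2 / 2) := by
  simp only [MCR_e1]
  refine ⟨(integrable_gauss one_pos).const_mul _, ?_⟩
  rw [integral_const_mul, GaussianFourier.integral_rexp_neg_mul_sq_norm one_pos]
  positivity

theorem MCR_c2 : (Integrable fun ξ : E N => gp ξ * Real.exp (‖ξ‖ ^ 2 / 4)) ∧
    0 ≤ ∫ ξ : E N, gp ξ * Real.exp (‖ξ‖ ^ 2 / 4) := by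
  refine ⟨?_, integral_nonneg fun ξ => (mul_pos (gp_pos ξ) (Real.exp_pos _)).le⟩
  simp only [MCR_e2]
  exact (integrable_gauss (by norm_num)).const_mul _

theorem MCR_W1 (h1 : St_GAU) (h3 : St_HEAT) (h4 : St_LOG) {c : Cfg} {β e A d : ℝ}
    {L W L' W' : E N →L[ℝ] E N} {ρ : E N → ℝ} (hc : c.Ok N β e) (hL : Lin A L W)
    (hL' : Lin A L' W') (hρ : Den ρ) (hd0 : 0 ≤ d) (hd : 4 * A ≤ Real.exp d) (τ : ℝ) (x : E N) :
    ex gp (g1 c L ρ) (τ - d) (L x) ≤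
      (Real.exp (N * d / 2) * (∫ ξ : E N, gp ξ * Real.exp (‖ξ‖ ^ 2 / 4)) /
        ∫ ξ : E N, gam ξ * Real.exp (-‖ξ‖ ^ 2 / 2)) * ex gam (g1 c L' ρ) τ (L' x) := by
  have hg : Gau (gam : E N → ℝ) := (h1 N).1.1
  have hp : Gau (gp : E N → ℝ) := (h1 N).1.2.1
  have s1 := (h4 N c β e L ρ hc hρ).2.1.2.2.2.2.1
  have s2 := (h4 N c β e L' ρ hc hρ).2.1.2.2.2.2.1
  obtain ⟨j1, p1⟩ := MCR_c1 (N := N)
  obtain ⟨j2, p2⟩ := MCR_c2 (N := N)
  set c1 := ∫ ξ : E N, gam ξ * Real.exp (-‖ξ‖ ^ 2 / 2) with hc1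
  set c2 := ∫ ξ : E N, gp ξ * Real.exp (‖ξ‖ ^ 2 / 4) with hc2
  set w := ex gam (g1 c L' ρ) τ (L' x) with hw
  have hN : (0 : ℝ) ≤ N := Nat.cast_nonneg N
  have a1 : ∀ ξ : E N, g1 c L ρ (τ - d) (L x + Real.exp (τ - d) • ξ) * c1 ≤
      Real.exp (‖ξ‖ ^ 2 / 4) * Real.exp (N * d / 2) * w := by
    intro ξ
    rw [hc1, hw, ex, ← integral_const_mul, ← integral_const_mul]
    refine integral_mono (j1.const_mul _) ((MCR_int hg s2 τ (L' x)).const_mul _) fun ξ' => ?_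
    have hs : 0 ≤ ‖ξ‖ ^ 2 / 2 + ‖ξ'‖ ^ 2 + N * d := by positivity
    have h := (hc.prof.gr _ _ _ hs (MCR_yy h1 h3 h4 hc hL hL' hρ hd0 hd τ x ξ ξ')).1
    have h0 := (hc.prof.r1 (yy c L' ρ τ (L' x + Real.exp τ • ξ'))).1
    have h2 : Real.exp (e * (‖ξ‖ ^ 2 / 2 + ‖ξ'‖ ^ 2 + N * d)) * Real.exp (-‖ξ'‖ ^ 2 / 2) ≤
        Real.exp (‖ξ‖ ^ 2 / 4) * Real.exp (N * d / 2) := by
      rw [← Real.exp_add, ← Real.exp_add]
      refine Real.exp_le_exp.2 ?_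
      have := mul_le_mul_of_nonneg_right hc.prof.e1 hs
      linarith
    have h5 := gam_pos ξ'
    have h6 := Real.exp_pos (-‖ξ'‖ ^ 2 / 2)
    simp only [g1]
    calc _ ≤ c.G1 (yy c L' ρ τ (L' x + Real.exp τ • ξ')) *
          Real.exp (e * (‖ξ‖ ^ 2 / 2 + ‖ξ'‖ ^ 2 + N * d)) * (gam ξ' * Real.exp (-‖ξ'‖ ^ 2 / 2)) :=
          mul_le_mul_of_nonneg_right h (by positivity)
      _ = Real.exp (e * (‖ξ‖ ^ 2 / 2 + ‖ξ'‖ ^ 2 + N * d)) * Real.exp (-‖ξ'‖ ^ 2 / 2) *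
          (gam ξ' * c.G1 (yy c L' ρ τ (L' x + Real.exp τ • ξ'))) := by ring
      _ ≤ _ := mul_le_mul_of_nonneg_right h2 (by positivity)
  have a2 : ex gp (g1 c L ρ) (τ - d) (L x) * c1 ≤ c2 * (Real.exp (N * d / 2) * w) := by
    rw [ex, hc2, ← integral_mul_const, ← integral_mul_const]
    refine integral_mono ((MCR_int hp s1 _ _).mul_const _) (j2.mul_const _) fun ξ => ?_
    have := mul_le_mul_of_nonneg_left (a1 ξ) (gp_pos ξ).le
    simp only []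
    nlinarith
  rw [div_mul_eq_mul_div, le_div_iff₀ p1]
  linarith

theorem MCR_cont (h2 : St_AVD) {φ : E N → ℝ} {g : ℝ → E N → ℝ} (hφ : Gau φ) (hg : Slab g)
    (y : E N) : Continuous fun σ => ex φ g σ y :=
  ((h2 N φ hφ).1 g hg).1.1.comp (f := fun σ : ℝ => (σ, y)) (by fun_prop)

theorem MCR_shift {f g : ℝ → ℝ} (hf : Continuous f) (hg : Continuous g) (τ d C : ℝ)
    (h : ∀ σ, f (σ - d) ≤ C * g σ) :
    ∫ σ in (τ - d - 1)..(τ - d), f σ ≤ C * ∫ σ in (τ - 1)..τ, g σ := by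
  have e : τ - d - 1 = τ - 1 - d := by ring
  rw [e, ← intervalIntegral.integral_comp_sub_right f d, ← intervalIntegral.integral_const_mul]
  exact intervalIntegral.integral_mono_on (sub_one_lt τ).le
    ((hf.comp (continuous_sub_right d)).intervalIntegrable _ _)
    ((hg.const_mul _).intervalIntegrable _ _) fun σ _ => h σ

theorem MCR_W (h1 : St_GAU) (h2 : St_AVD) (h3 : St_HEAT) (h4 : St_LOG) {c : Cfg} {β e A d : ℝ}
    {L W L' W' : E N →L[ℝ] E N} {ρ : E N → ℝ} (hc : c.Ok N β e) (hL : Lin A L W)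
    (hL' : Lin A L' W') (hρ : Den ρ) (hd0 : 0 ≤ d) (hd : 4 * A ≤ Real.exp d) (τ : ℝ) (x : E N) :
    av (τ - d) 0 gp (g1 c L ρ) (L x) ≤
      (Real.exp (N * d / 2) * (∫ ξ : E N, gp ξ * Real.exp (‖ξ‖ ^ 2 / 4)) /
        ∫ ξ : E N, gam ξ * Real.exp (-‖ξ‖ ^ 2 / 2)) * av τ 0 gam (g1 c L' ρ) (L' x) := by
  have hg : Gau (gam : E N → ℝ) := (h1 N).1.1
  have hp : Gau (gp : E N → ℝ) := (h1 N).1.2.1
  have s1 := (h4 N c β e L ρ hc hρ).2.1.2.2.2.2.1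
  have s2 := (h4 N c β e L' ρ hc hρ).2.1.2.2.2.2.1
  simp only [av, zero_mul, Real.exp_zero, one_mul]
  exact MCR_shift (MCR_cont h2 hp s1 (L x)) (MCR_cont h2 hg s2 (L' x)) τ d _
    fun σ => MCR_W1 h1 h3 h4 hc hL hL' hρ hd0 hd σ x

theorem MCR_top (h1 : St_GAU) (h3 : St_HEAT) (h4 : St_LOG) {c : Cfg} {β e : ℝ}
    {L : E N →L[ℝ] E N} {ρ : E N → ℝ} (hc : c.Ok N β e) (hρ : Den ρ) {τ M Y φ0 : ℝ}
    (hτ : τ ≤ c.τ0) (hM : ∫ y, ρ y ≤ M) (hδ : c.δ * Real.exp (N * c.τ0) ≤ M)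
    (hY : ∀ y, y ≤ Y → c.G y ≤ φ0) (hl : Real.log (2 * M / c.θ) - c.q * τ ≤ Y) (y : E N) :
    ex gam (f0 c L ρ) τ y ≤ φ0 := by
  have hg : Gau (gam : E N → ℝ) := (h1 N).1.1
  have s1 := (h4 N c β e L ρ hc hρ).2.1.2.2.2.1
  have hN : (0 : ℝ) ≤ N := Nat.cast_nonneg N
  have hM0 : 0 < M := (mul_pos hc.δ0 (Real.exp_pos _)).trans_le hδ
  have a : ∀ z, f0 c L ρ τ z ≤ φ0 := fun z => by
    refine hY _ (le_trans ?_ hl)
    have k : k0 L ρ τ z ≤ ∫ y, ρ y := by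
      unfold k0 km
      refine integral_mono (((h3 N L ρ hρ.1).1 gam hg).2.1 τ z) hρ.1 fun y => ?_
      exact mul_le_of_le_one_right (hρ.2 y) (MCR_gam_le_one _)
    have k' : c.δ * Real.exp (N * τ) ≤ c.δ * Real.exp (N * c.τ0) :=
      mul_le_mul_of_nonneg_left (Real.exp_le_exp.2 (mul_le_mul_of_nonneg_left hτ hN)) hc.δ0.le
    have u : uu c L ρ τ z ≤ 2 * M := by
      unfold uu
      linarith
    have l := Real.log_le_log ((h4 N c β e L ρ hc hρ).1 τ z).2.2 u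
    rw [Real.log_div (by positivity) hc.θ0.ne']
    unfold yy
    linarith
  obtain ⟨i3, e3⟩ := MCR_aff (N := N) h1 φ0 0
  have e : φ0 = φ0 + 0 * N := by ring
  rw [e, ← e3]
  unfold ex
  refine integral_mono (MCR_int hg s1 _ _) i3 fun ξ => ?_
  have := mul_le_mul_of_nonneg_left (a (y + Real.exp τ • ξ)) (gam_pos ξ).le
  simpa using this

theorem MCR_dense (h1 : St_GAU) (h3 : St_HEAT) (h4 : St_LOG) {c : Cfg} {β e A : ℝ}
    {L W : E N →L[ℝ] E N} {ρ : E N → ℝ} (hc : c.Ok N β e) (hL : Lin A L W) (hρ : Den ρ)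
    {τ Θ r : ℝ} (x : E N) (hΘ : 0 < Θ) (hr : 0 < r)
    (hm : Θ * r ^ c.q ≤ ∫ y, gs r (x - y) * ρ y) (r1 : 3 * r ≤ Real.exp τ)
    (r2 : Real.exp τ ≤ 9 * r) :
    β * (Real.log (Θ / c.θ) - 2 * N - 3 * c.q) ≤ ex gam (f0 c L ρ) τ (L x) := by
  have hg : Gau (gam : E N → ℝ) := (h1 N).1.1
  have s1 := (h4 N c β e L ρ hc hρ).2.1.2.2.2.1
  have hN : (0 : ℝ) ≤ N := Nat.cast_nonneg N
  have hπ : 0 < 2 * Real.pi := by positivity
  have a : ∀ ξ : E N, Real.log (Θ / c.θ) - N - 3 * c.q - ‖ξ‖ ^ 2 ≤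
      yy c L ρ τ (L x + Real.exp τ • ξ) := fun ξ => by
    have k : (2 * Real.pi) ^ (-(N : ℝ) / 2) * Real.exp (-‖ξ‖ ^ 2) * ∫ y, gs r (x - y) * ρ y ≤
        k0 L ρ τ (L x + Real.exp τ • ξ) := by
      unfold k0 km
      rw [← integral_const_mul]
      refine integral_mono_of_nonneg (Eventually.of_forall fun y => ?_)
        (((h3 N L ρ hρ.1).1 gam hg).2.1 τ _) (Eventually.of_forall fun y => ?_)
      · have := hρ.2 y
        unfold gs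
        positivity
      · have b1 : ‖Real.exp (-τ) • L (x - y)‖ = Real.exp (-τ) * ‖L (x - y)‖ := by
          rw [norm_smul, Real.norm_eq_abs, abs_of_pos (Real.exp_pos _)]
        have b2 : Real.exp (-τ) ≤ 1 / (3 * r) := by
          rw [Real.exp_neg, ← one_div]
          exact one_div_le_one_div_of_le (by positivity) r1
        have b3 : ‖Real.exp (-τ) • L (x - y)‖ ≤ 1 / (3 * r) * (2 * ‖x - y‖) := by
          rw [b1]
          exact mul_le_mul b2 (hL.bL _) (norm_nonneg _) (by positivity)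
        have b4 := pow_le_pow_left₀ (norm_nonneg _) b3 2
        have b5 : (1 / (3 * r) * (2 * ‖x - y‖)) ^ 2 = 8 / 9 * (‖x - y‖ ^ 2 / (2 * r ^ 2)) := by
          field_simp
          ring
        have b6 : 0 ≤ ‖x - y‖ ^ 2 / (2 * r ^ 2) := by positivity
        have b7 := MCR_sq_add (Real.exp (-τ) • L (x - y)) ξ
        have b8 : Real.exp (-‖ξ‖ ^ 2) * gs r (x - y) ≤
            Real.exp (-‖Real.exp (-τ) • L (x - y) + ξ‖ ^ 2 / 2) := by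
          unfold gs
          rw [← Real.exp_add, neg_div (2 * r ^ 2)]
          exact Real.exp_le_exp.2 (by linarith)
        have b9 := mul_le_mul_of_nonneg_left b8
          (mul_nonneg (hρ.2 y) (Real.rpow_pos_of_pos hπ (-(N : ℝ) / 2)).le)
        simp only [MCR_xi, gam]
        linarith
    have p : 0 < (2 * Real.pi) ^ (-(N : ℝ) / 2) * Real.exp (-‖ξ‖ ^ 2) := by positivity
    have u : (2 * Real.pi) ^ (-(N : ℝ) / 2) * Real.exp (-‖ξ‖ ^ 2) * (Θ * r ^ c.q) ≤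
        uu c L ρ τ (L x + Real.exp τ • ξ) := by
      have := mul_le_mul_of_nonneg_left hm p.le
      have h0 : 0 < c.δ * Real.exp (N * τ) := mul_pos hc.δ0 (Real.exp_pos _)
      unfold uu
      linarith
    have l := Real.log_le_log (by positivity) u
    rw [Real.log_mul p.ne' (by positivity), Real.log_mul (by positivity) (by positivity),
      Real.log_mul hΘ.ne' (by positivity), Real.log_rpow hπ, Real.log_rpow hr, Real.log_exp] at l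
    have t : τ ≤ 3 + Real.log r := by
      have := Real.log_le_log (Real.exp_pos τ) r2
      rw [Real.log_exp, Real.log_mul (by norm_num) hr.ne'] at this
      linarith [MCR_log9]
    have t1 := mul_le_mul_of_nonneg_left t hc.q0
    have t2 := mul_le_mul_of_nonneg_left MCR_log2pi hN
    rw [Real.log_div hΘ.ne' hc.θ0.ne']
    unfold yy
    linarith
  obtain ⟨i3, e3⟩ := MCR_aff (N := N) h1 (β * (Real.log (Θ / c.θ) - N - 3 * c.q)) (-β)
  have e : β * (Real.log (Θ / c.θ) - 2 * N - 3 * c.q) =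
      β * (Real.log (Θ / c.θ) - N - 3 * c.q) + -β * N := by ring
  rw [e, ← e3]
  unfold ex
  refine integral_mono i3 (MCR_int hg s1 _ _) fun ξ => ?_
  refine mul_le_mul_of_nonneg_left ?_ (gam_pos ξ).le
  have h5 := mul_le_mul_of_nonneg_left (a ξ) hc.prof.β0.le
  have h6 := (hc.prof.r0 (yy c L ρ τ (L x + Real.exp τ • ξ))).2
  simp only [f0]
  linarith

theorem MCR (h1 : St_GAU) (h2 : St_AVD) (h3 : St_HEAT) (h4 : St_LOG) : St_MCR := by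
  intro N A
  obtain ⟨d, hd⟩ := exists_nat_ge (4 * A)
  have hd0 : (0 : ℝ) ≤ d := Nat.cast_nonneg d
  have hd' : 4 * A ≤ Real.exp d := by linarith [Real.add_one_le_exp (d : ℝ)]
  have hN : (0 : ℝ) ≤ N := Nat.cast_nonneg N
  obtain ⟨-, p1⟩ := MCR_c1 (N := N)
  obtain ⟨-, p2⟩ := MCR_c2 (N := N)
  set C1 := Real.exp (N * d / 2) * (∫ ξ : E N, gp ξ * Real.exp (‖ξ‖ ^ 2 / 4)) /
    ∫ ξ : E N, gam ξ * Real.exp (-‖ξ‖ ^ 2 / 2) with hC1
  have q1 : 0 ≤ C1 := by positivity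
  have q2 : (0 : ℝ) ≤ N * d + 3 / 2 * N := by positivity
  refine ⟨d, C1 + (N * d + 3 / 2 * N), by positivity, fun c β e L W ρ hc hL hρ k x =>
    ⟨?_, fun L' W' hL' => ⟨?_, ?_⟩, fun M Y φ0 hM hδ hY hl => ?_, fun Θ r hΘ hr hm r1 r2 => ?_⟩⟩
  · exact integral_nonneg fun ξ => mul_nonneg (gam_pos ξ).le (hc.prof.r0 _).1
  · have e1 : c.τ0 - ((k + d : ℕ) : ℝ) = c.τ0 - k - d := by push_cast; ring
    have h := MCR_W h1 h2 h3 h4 hc hL hL' hρ hd0 hd' (c.τ0 - k) x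
    have w0 : 0 ≤ av (c.τ0 - k) 0 gam (g1 c L' ρ) (L' x) := by
      rw [av_eq_bi]
      exact bi_nonneg _ fun τ _ ξ =>
        mul_nonneg (Real.exp_pos _).le (mul_nonneg (gam_pos ξ).le (hc.prof.r1 _).1)
    unfold fWP fW
    rw [e1]
    nlinarith [mul_nonneg q2 w0]
  · have e1 : c.τ0 - ((k + d : ℕ) : ℝ) = c.τ0 - k - d := by push_cast; ring
    have h := MCR_F h1 h3 h4 hc hL hL' hρ hd0 hd' (c.τ0 - k) x
    unfold fF
    rw [e1]
    nlinarith [mul_nonneg q1 hc.prof.β0.le]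
  · exact MCR_top h1 h3 h4 hc hρ (by linarith [Nat.cast_nonneg (α := ℝ) k]) hM hδ hY hl (L x)
  · exact MCR_dense h1 h3 h4 hc hL hρ x hΘ hr hm r1 r2

end

end Pool.Agent.Lib.MP_13801a_an.ND
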