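import Mathlib
import Pool.Agent.Lib.MP_13801a_an.ND.StsG

/-!
Dissipation of the Fisher information along the scales.
-/

open MeasureTheory Set Filter
open scoped Topology

namespace Pool.Agent.Lib.MP_13801a_an.ND

variable {N : ℕ}

theorem MFD_zero {F F' : E N → ℝ} {v : E N} (hF : Integrable F) (hF' : Integrable F')
    (hd : ∀ x, HasLineDerivAt ℝ F (F' x) x v) : ∫ x, F' x = 0 := by
  have h := integral_bilinear_hasLineDerivAt_right_eq_neg_left_of_integrable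
    (μ := (volume : Measure (E N))) (f := fun _ => (1 : ℝ)) (f' := fun _ => (0 : ℝ)) (g := F)
    (g' := F') (v := v) (B := ContinuousLinearMap.mul ℝ ℝ) (by simp) (by simpa using hF')
    (by simpa using hF) (fun x _ => hasDerivAt_const _ _) (fun x _ => hd x)
  simpa using h

theorem MFD_mul {f g : E N → ℝ} {f' g' : ℝ} {x v : E N} (hf : HasLineDerivAt ℝ f f' x v)
    (hg : HasLineDerivAt ℝ g g' x v) :
    HasLineDerivAt ℝ (fun y => f y * g y) (f' * g x + f x * g') x v := by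
  have h := HasDerivAt.mul hf hg
  simp only [zero_smul, add_zero] at h
  exact h

theorem MFD_sub {f g : E N → ℝ} {f' g' : ℝ} {x v : E N} (hf : HasLineDerivAt ℝ f f' x v)
    (hg : HasLineDerivAt ℝ g g' x v) :
    HasLineDerivAt ℝ (fun y => f y - g y) (f' - g') x v := HasDerivAt.sub hf hg

/-- Jointly continuous functions with an integrable majorant on slabs. -/
def MFD_Dom (Φ : ℝ → E N → ℝ) : Prop :=
  (Continuous fun p : ℝ × E N => Φ p.1 p.2) ∧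
    ∀ τ1 τ2 : ℝ, ∃ G : E N → ℝ, Integrable G ∧ ∀ τ ∈ Icc τ1 τ2, ∀ z, |Φ τ z| ≤ G z

theorem MFD_Dom.cont {Φ : ℝ → E N → ℝ} (h : MFD_Dom Φ) (τ : ℝ) : Continuous (Φ τ) :=
  h.1.comp (Continuous.prodMk_right τ)

theorem MFD_Dom.int {Φ : ℝ → E N → ℝ} (h : MFD_Dom Φ) (τ : ℝ) : Integrable (Φ τ) := by
  obtain ⟨G, hG, hb⟩ := h.2 τ τ
  exact hG.mono' (h.cont τ).aestronglyMeasurable
    (Eventually.of_forall fun z => hb τ ⟨le_rfl, le_rfl⟩ z)

theorem MFD_Dom.add {Φ Φ' : ℝ → E N → ℝ} (h : MFD_Dom Φ) (h' : MFD_Dom Φ') :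
    MFD_Dom fun τ z => Φ τ z + Φ' τ z := by
  refine ⟨h.1.add h'.1, fun τ1 τ2 => ?_⟩
  obtain ⟨G, hG, hb⟩ := h.2 τ1 τ2
  obtain ⟨G', hG', hb'⟩ := h'.2 τ1 τ2
  exact ⟨fun z => G z + G' z, hG.add hG', fun τ hτ z =>
    (abs_add_le _ _).trans (add_le_add (hb τ hτ z) (hb' τ hτ z))⟩

theorem MFD_Dom.smul {Φ g : ℝ → E N → ℝ} (h : MFD_Dom Φ) (h' : Slab g) :
    MFD_Dom fun τ z => g τ z * Φ τ z := by
  refine ⟨h'.1.mul h.1, fun τ1 τ2 => ?_⟩
  obtain ⟨G, hG, hb⟩ := h.2 τ1 τ2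
  obtain ⟨C, hC⟩ := h'.2 τ1 τ2
  refine ⟨fun z => C * G z, hG.const_mul C, fun τ hτ z => ?_⟩
  rw [abs_mul]
  exact mul_le_mul (hC τ hτ z) (hb τ hτ z) (abs_nonneg _) ((abs_nonneg _).trans (hC τ hτ z))

theorem MFD_Dom.mul {Φ g : ℝ → E N → ℝ} (h : MFD_Dom Φ) (h' : Slab g) :
    MFD_Dom fun τ z => Φ τ z * g τ z := by
  simpa only [mul_comm] using h.smul h'

theorem MFD_Dom.const_mul {Φ : ℝ → E N → ℝ} (h : MFD_Dom Φ) (a : ℝ) :
    MFD_Dom fun τ z => a * Φ τ z := h.smul (slab_const a)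

theorem MFD_Dom.sub {Φ Φ' : ℝ → E N → ℝ} (h : MFD_Dom Φ) (h' : MFD_Dom Φ') :
    MFD_Dom fun τ z => Φ τ z - Φ' τ z := by
  simpa [sub_eq_add_neg] using h.add (h'.const_mul (-1))

theorem MFD_dom_sum {ι : Type*} (s : Finset ι) {Φ : ι → ℝ → E N → ℝ}
    (h : ∀ i ∈ s, MFD_Dom (Φ i)) : MFD_Dom fun τ z => ∑ i ∈ s, Φ i τ z := by
  classical
  induction s using Finset.induction_on with
  | empty =>
    simp only [Finset.sum_empty]
    exact ⟨continuous_const, fun _ _ => ⟨fun _ => 0, integrable_zero _ _ _, by simp⟩⟩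
  | insert i s hi ih =>
    simp only [Finset.sum_insert hi]
    exact (h i (Finset.mem_insert_self _ _)).add
      (ih fun j hj => h j (Finset.mem_insert_of_mem hj))

/-- Differentiation under the integral. -/
theorem MFD_deriv {Φ Φ' : ℝ → E N → ℝ} (h : MFD_Dom Φ) (h' : MFD_Dom Φ')
    (hd : ∀ τ z, HasDerivAt (fun σ => Φ σ z) (Φ' τ z) τ) (τ : ℝ) :
    HasDerivAt (fun σ => ∫ z, Φ σ z) (∫ z, Φ' τ z) τ := by
  obtain ⟨G, hG, hb⟩ := h'.2 (τ - 1) (τ + 1)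
  exact (hasDerivAt_integral_of_dominated_loc_of_deriv_le (s := Icc (τ - 1) (τ + 1))
    (Icc_mem_nhds (by linarith) (by linarith))
    (Eventually.of_forall fun σ => (h.cont σ).aestronglyMeasurable) (h.int τ)
    (h'.cont τ).aestronglyMeasurable (Eventually.of_forall fun z σ hσ => hb σ hσ z) hG
    (Eventually.of_forall fun z σ _ => hd σ z)).2

theorem MFD_km (h4 : St_HEAT) (L : E N →L[ℝ] E N) {ψ a : E N → ℝ} (hψ : Gau ψ)
    (ha : Integrable a) : MFD_Dom (km L ψ a) := by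
  refine ⟨((h4 N L a ha).1 ψ hψ).1.1, fun τ1 τ2 => ?_⟩
  obtain ⟨C, c, hc, hC⟩ := hψ.2
  have hg : Gau fun ξ : E N => |C| * Real.exp (-c * ‖ξ‖ ^ 2) :=
    ⟨by fun_prop, |C|, c, hc, fun ξ => (abs_of_nonneg (by positivity)).le⟩
  obtain ⟨-, hi, -, hI⟩ := (h4 N L (fun x => |a x|) ha.abs).1 _ hg
  refine ⟨_, (hI τ2).1, fun τ hτ z => ?_⟩
  rw [← Real.norm_eq_abs]
  refine norm_integral_le_of_norm_le (hi τ2 z) (Eventually.of_forall fun x => ?_)
  rw [norm_mul, Real.norm_eq_abs, Real.norm_eq_abs]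
  refine mul_le_mul_of_nonneg_left ((hC _).trans ?_) (abs_nonneg _)
  refine mul_le_mul (le_abs_self C) (Real.exp_le_exp.2 ?_) (Real.exp_pos _).le (abs_nonneg C)
  have h1 : ‖xi L τ2 z x‖ ≤ ‖xi L τ z x‖ := by
    simp only [xi, norm_smul, Real.norm_eq_abs, Real.abs_exp]
    exact mul_le_mul_of_nonneg_right (Real.exp_le_exp.2 (by linarith [hτ.2])) (norm_nonneg _)
  have h2 := pow_le_pow_left₀ (norm_nonneg _) h1 2
  nlinarith

theorem MFD_k0 (h1 : St_GAU) (h4 : St_HEAT) (L : E N →L[ℝ] E N) {a : E N → ℝ}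
    (ha : Integrable a) : MFD_Dom (k0 L a) := MFD_km h4 L (h1 N).1.1 ha

theorem MFD_k1 (h1 : St_GAU) (h4 : St_HEAT) (L : E N →L[ℝ] E N) {a : E N → ℝ}
    (ha : Integrable a) (h : E N) : MFD_Dom (k1 L a h) :=
  (MFD_km h4 L ((h1 N).1.2.2.2.1 h) ha).smul
    (slab_fun (c := fun τ => -Real.exp (-τ)) (by fun_prop))

theorem MFD_k2 (h1 : St_GAU) (h4 : St_HEAT) (L : E N →L[ℝ] E N) {a : E N → ℝ}
    (ha : Integrable a) (h h' : E N) : MFD_Dom (k2 L a h h') :=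
  (MFD_km h4 L ((h1 N).1.2.2.2.2 h h') ha).smul
    (slab_fun (c := fun τ => Real.exp (-2 * τ)) (by fun_prop))

section Mode

variable {c : Cfg} {β e : ℝ} {L : E N →L[ℝ] E N} {ρ : E N → ℝ}

theorem MFD_ul1 (h5 : St_LOG) (hc : c.Ok N β e) (hρ : Den ρ) (h : E N) (τ : ℝ) (z : E N) :
    uu c L ρ τ z * l1 c L ρ h τ z = k1 L ρ h τ z := by
  have hu := ((h5 N c β e L ρ hc hρ).1 τ z).2.2.ne'
  rw [l1]
  field_simp

theorem MFD_ul2 (h5 : St_LOG) (hc : c.Ok N β e) (hρ : Den ρ) (h h' : E N) (τ : ℝ) (z : E N) :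
    uu c L ρ τ z * l2 c L ρ h h' τ z = k2 L ρ h h' τ z - l1 c L ρ h τ z * k1 L ρ h' τ z := by
  have hu := ((h5 N c β e L ρ hc hρ).1 τ z).2.2.ne'
  rw [l2, ← MFD_ul1 h5 hc hρ h' τ z]
  field_simp

theorem MFD_sl1 (h5 : St_LOG) (hc : c.Ok N β e) (hρ : Den ρ) (h : E N) : Slab (l1 c L ρ h) :=
  ((h5 N c β e L ρ hc hρ).2.1.2.2.2.2.2.2.2.2.1 h).1

theorem MFD_sl2 (h5 : St_LOG) (hc : c.Ok N β e) (hρ : Den ρ) (h h' : E N) :
    Slab (l2 c L ρ h h') :=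
  ((h5 N c β e L ρ hc hρ).2.1.2.2.2.2.2.2.2.2.2 h h').1

theorem MFD_d1 (h1 : St_GAU) (h4 : St_HEAT) (h5 : St_LOG) (hc : c.Ok N β e) (hρ : Den ρ)
    (h : E N) : MFD_Dom fun τ z => uu c L ρ τ z * l1 c L ρ h τ z := by
  simp only [MFD_ul1 h5 hc hρ]
  exact MFD_k1 h1 h4 L hρ.1 h

theorem MFD_d2 (h1 : St_GAU) (h4 : St_HEAT) (h5 : St_LOG) (hc : c.Ok N β e) (hρ : Den ρ)
    (h h' : E N) : MFD_Dom fun τ z => uu c L ρ τ z * l2 c L ρ h h' τ z := by
  simp only [MFD_ul2 h5 hc hρ]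
  exact (MFD_k2 h1 h4 L hρ.1 h h').sub ((MFD_k1 h1 h4 L hρ.1 h').smul (MFD_sl1 h5 hc hρ h))

theorem MFD_dX (h1 : St_GAU) (h4 : St_HEAT) (h5 : St_LOG) (hc : c.Ok N β e) (hρ : Den ρ)
    (h h' : E N) : MFD_Dom fun τ z => uu c L ρ τ z * l2 c L ρ h h' τ z ^ 2 := by
  simpa only [mul_assoc, ← sq] using
    (MFD_d2 (L := L) h1 h4 h5 hc hρ h h').mul (MFD_sl2 (L := L) h5 hc hρ h h')

theorem MFD_dP (h1 : St_GAU) (h4 : St_HEAT) (h5 : St_LOG) (hc : c.Ok N β e) (hρ : Den ρ)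
    (h : E N) (m : ℕ) : MFD_Dom fun τ z => uu c L ρ τ z * l1 c L ρ h τ z ^ (m + 1) := by
  simpa only [mul_assoc, ← pow_succ'] using
    (MFD_d1 (L := L) h1 h4 h5 hc hρ h).mul ((MFD_sl1 (L := L) h5 hc hρ h).pow m)

/-- Fourth powers of the gradient of the logarithm are bounded by its Hessian. -/
theorem MFD_four (h1 : St_GAU) (h4 : St_HEAT) (h5 : St_LOG) (hc : c.Ok N β e) (hρ : Den ρ)
    (h : E N) (τ : ℝ) : ∫ z, uu c L ρ τ z * l1 c L ρ h τ z ^ 4 ≤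
      9 * ∫ z, uu c L ρ τ z * l2 c L ρ h h τ z ^ 2 := by
  obtain ⟨hp, -, hd, hd2, -⟩ := h5 N c β e L ρ hc hρ
  have i4 : Integrable fun z => uu c L ρ τ z * l1 c L ρ h τ z ^ 4 :=
    (MFD_dP (L := L) h1 h4 h5 hc hρ h 3).int τ
  have i3 : Integrable fun z => uu c L ρ τ z * l1 c L ρ h τ z ^ 3 :=
    (MFD_dP (L := L) h1 h4 h5 hc hρ h 2).int τ
  have iX := (MFD_dX (L := L) h1 h4 h5 hc hρ h h).int τ
  have iM := (((MFD_d2 (L := L) h1 h4 h5 hc hρ h h).mul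
    ((MFD_sl1 (L := L) h5 hc hρ h).pow 2)).const_mul 3).int τ
  have iS : Integrable fun z => uu c L ρ τ z * l1 c L ρ h τ z ^ 4 +
      3 * (uu c L ρ τ z * l2 c L ρ h h τ z * l1 c L ρ h τ z ^ 2) := i4.add iM
  have h0 := MFD_zero (v := h) i3 iS fun z => by
    have hφ := (hd2 h h τ z).1
    have h6 := MFD_mul (hd h τ z).1 (MFD_mul hφ (MFD_mul hφ hφ))
    have e1 : (fun y => uu c L ρ τ y * l1 c L ρ h τ y ^ 3) =
        fun y => uu c L ρ τ y * (l1 c L ρ h τ y * (l1 c L ρ h τ y * l1 c L ρ h τ y)) := by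
      funext y
      ring
    rw [e1]
    convert h6 using 1
    rw [← MFD_ul1 h5 hc hρ h τ z]
    ring
  have h7 : ∫ z, uu c L ρ τ z * l1 c L ρ h τ z ^ 4 ≤
      ∫ z, (9 * (uu c L ρ τ z * l2 c L ρ h h τ z ^ 2) +
        2 * (uu c L ρ τ z * l1 c L ρ h τ z ^ 4 +
          3 * (uu c L ρ τ z * l2 c L ρ h h τ z * l1 c L ρ h τ z ^ 2))) := by
    refine integral_mono i4 ((iX.const_mul 9).add (iS.const_mul 2)) fun z => ?_
    have h8 := mul_nonneg (hp τ z).2.2.le (sq_nonneg (l1 c L ρ h τ z ^ 2 + 3 * l2 c L ρ h h τ z))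
    simp only
    nlinarith
  rw [integral_add (iX.const_mul 9) (iS.const_mul 2), integral_const_mul,
    integral_const_mul, h0] at h7
  simpa using h7

/-- The integration by parts in the derivative of the Fisher information. -/
theorem MFD_ibp (h1 : St_GAU) (h4 : St_HEAT) (h5 : St_LOG) (hc : c.Ok N β e) (hρ : Den ρ)
    {a : E N → ℝ} (ha : Integrable a) {h : E N} (hV : ∀ τ z, k1 L ρ h τ z = k0 L a τ z)
    (h' : E N) (τ : ℝ) :
    ∫ z, (2 * l1 c L ρ h τ z * k2 L a h' h' τ z - l1 c L ρ h τ z ^ 2 * k2 L ρ h' h' τ z) =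
      -2 * ∫ z, uu c L ρ τ z * l2 c L ρ h h' τ z ^ 2 := by
  obtain ⟨-, -, -, hd2, -⟩ := h5 N c β e L ρ hc hρ
  have sφ := MFD_sl1 (L := L) h5 hc hρ h
  have hq : ∀ z, k1 L a h' τ z = k2 L ρ h h' τ z := fun z => by
    have e1 : k1 L ρ h τ = k0 L a τ := funext (hV τ)
    have h6 := (h4 N L ρ hρ.1).2.2.2.1 h h' τ z
    rw [e1] at h6
    exact ((h4 N L a ha).2.2.1 h' τ z).unique h6
  have iF := (((MFD_k1 h1 h4 L ha h').smul (sφ.const_mul 2)).sub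
    ((MFD_k1 h1 h4 L hρ.1 h').smul (sφ.mul sφ))).int τ
  have iA := (((MFD_k2 h1 h4 L ha h' h').smul (sφ.const_mul 2)).sub
    ((MFD_k2 h1 h4 L hρ.1 h' h').smul (sφ.pow 2))).int τ
  have iX := ((MFD_dX (L := L) h1 h4 h5 hc hρ h h').const_mul 2).int τ
  have h0 := MFD_zero (v := h') iF (iA.add iX) fun z => by
    have hφ := (hd2 h h' τ z).1
    have h2' : HasLineDerivAt ℝ (fun y => 2 * l1 c L ρ h τ y) (2 * l2 c L ρ h h' τ z) z h' :=
      HasDerivAt.const_mul 2 hφ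
    have h6 := MFD_sub (MFD_mul h2' ((h4 N L a ha).2.2.2.1 h' h' τ z))
      (MFD_mul (MFD_mul hφ hφ) ((h4 N L ρ hρ.1).2.2.2.1 h' h' τ z))
    convert h6 using 1
    have e2 := MFD_ul2 (L := L) h5 hc hρ h h' τ z
    simp only [Pi.add_apply]
    rw [hq z]
    linear_combination (2 * l2 c L ρ h h' τ z) * e2
  simp only [Pi.add_apply] at h0
  rw [integral_add iA iX, integral_const_mul] at h0
  linarith

/-- The derivative of the Fisher information in the scale. -/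
theorem MFD_J (h1 : St_GAU) (h4 : St_HEAT) (h5 : St_LOG) (hc : c.Ok N β e) (hρ : Den ρ)
    {a : E N → ℝ} (ha : Integrable a) {h : E N} (hV : ∀ τ z, k1 L ρ h τ z = k0 L a τ z)
    (τ : ℝ) :
    HasDerivAt (fun σ => Real.exp (-(N * σ)) * ∫ z, uu c L ρ σ z * l1 c L ρ h σ z ^ 2)
      (-2 * (Real.exp (2 * τ) * Real.exp (-(N * τ)) *
        ∑ i, ∫ z, uu c L ρ τ z * l2 c L ρ h (ee i) τ z ^ 2)) τ := by
  have hp := (h5 N c β e L ρ hc hρ).1
  have sφ := MFD_sl1 (L := L) h5 hc hρ h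
  have dK : MFD_Dom fun τ z => uu c L ρ τ z * l1 c L ρ h τ z ^ 2 :=
    MFD_dP (L := L) h1 h4 h5 hc hρ h 1
  have dA : ∀ i : Fin N, MFD_Dom fun τ z => 2 * l1 c L ρ h τ z * k2 L a (ee i) (ee i) τ z -
      l1 c L ρ h τ z ^ 2 * k2 L ρ (ee i) (ee i) τ z := fun i =>
    ((MFD_k2 h1 h4 L ha _ _).smul (sφ.const_mul 2)).sub
      ((MFD_k2 h1 h4 L hρ.1 _ _).smul (sφ.pow 2))
  have dS := (MFD_dom_sum Finset.univ fun i _ => dA i).smul
    (slab_fun (c := fun τ => Real.exp (2 * τ)) (by fun_prop))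
  have hK := MFD_deriv dK ((dK.const_mul N).add dS) (fun τ z => by
    have hu := (hp τ z).2.2.ne'
    have dV := (h4 N L a ha).2.2.2.2.2.2.1 τ z
    have du : HasDerivAt (fun σ => uu c L ρ σ z) _ τ :=
      ((h4 N L ρ hρ.1).2.2.2.2.2.2.1 τ z).add
        (((hasDerivAt_id τ).const_mul (N : ℝ)).exp.const_mul c.δ)
    have e1 : (fun σ => uu c L ρ σ z * l1 c L ρ h σ z ^ 2) =
        fun σ => k0 L a σ z * (k0 L a σ z / uu c L ρ σ z) := by
      funext σ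
      have := (hp σ z).2.2.ne'
      rw [l1, hV]
      field_simp
    rw [e1]
    refine (dV.mul (dV.div du hu)).congr_deriv ?_
    rw [Finset.sum_sub_distrib, ← Finset.mul_sum, ← Finset.mul_sum, l1, hV]
    have e2 : k0 L ρ τ z = uu c L ρ τ z - c.δ * Real.exp (N * τ) := by
      rw [uu]
      ring
    simp only [id, Pi.div_apply]
    rw [e2]
    field_simp
    ring) τ
  have hE : HasDerivAt (fun σ : ℝ => Real.exp (-(N * σ))) (Real.exp (-(N * τ)) * -(N * 1)) τ :=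
    ((hasDerivAt_id τ).const_mul (N : ℝ)).neg.exp
  refine (hE.mul hK).congr_deriv ?_
  rw [integral_add ((dK.const_mul N).int τ) (dS.int τ), integral_const_mul, integral_const_mul,
    integral_finsetSum _ fun i _ => (dA i).int τ]
  simp only [MFD_ibp h1 h4 h5 hc hρ ha hV]
  rw [← Finset.mul_sum]
  ring

/-- The Hessian bound of `s2`. -/
theorem MFD_s2 (h1 : St_GAU) (h4 : St_HEAT) (h5 : St_LOG) (hc : c.Ok N β e) (hρ : Den ρ) (τ : ℝ) :
    (Integrable fun z => uu c L ρ τ z * s2 c L ρ τ z) ∧ ∫ z, uu c L ρ τ z * s2 c L ρ τ z ≤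
      10 * ∑ p, ∑ i, ∫ z, uu c L ρ τ z * l2 c L ρ (ee p) (ee i) τ z ^ 2 := by
  have hp := (h5 N c β e L ρ hc hρ).1
  have iX := fun p i : Fin N => (MFD_dX (L := L) h1 h4 h5 hc hρ (ee p) (ee i)).int τ
  have i4 : ∀ p : Fin N, Integrable fun z => uu c L ρ τ z * l1 c L ρ (ee p) τ z ^ 4 := fun p =>
    (MFD_dP (L := L) h1 h4 h5 hc hρ (ee p) 3).int τ
  have iS : ∀ p : Fin N, Integrable fun z =>
      ∑ i, uu c L ρ τ z * l2 c L ρ (ee p) (ee i) τ z ^ 2 := fun p =>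
    integrable_finsetSum _ fun i _ => iX p i
  have iSS := integrable_finsetSum Finset.univ fun p _ => iS p
  have i44 := integrable_finsetSum Finset.univ fun p _ => i4 p
  simp only [s2, mul_add, Finset.mul_sum]
  refine ⟨iSS.add i44, ?_⟩
  rw [integral_add iSS i44, integral_finsetSum _ fun p _ => iS p,
    integral_finsetSum _ fun p _ => i4 p, ← Finset.sum_add_distrib]
  refine Finset.sum_le_sum fun p _ => ?_
  rw [integral_finsetSum _ fun i _ => iX p i, ← Finset.mul_sum]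
  have h6 := MFD_four (L := L) h1 h4 h5 hc hρ (ee p) τ
  have h7 : ∫ z, uu c L ρ τ z * l2 c L ρ (ee p) (ee p) τ z ^ 2 ≤
      ∑ i, ∫ z, uu c L ρ τ z * l2 c L ρ (ee p) (ee i) τ z ^ 2 :=
    Finset.single_le_sum (f := fun i => ∫ z, uu c L ρ τ z * l2 c L ρ (ee p) (ee i) τ z ^ 2)
      (fun i _ => integral_nonneg fun z => mul_nonneg (hp τ z).2.2.le (sq_nonneg _))
      (Finset.mem_univ p)
  linarith

end Mode

theorem MFD_blocks {D : ℝ → ℝ} (hD : Continuous D) (t : ℝ) (m : ℕ) :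
    ∑ k ∈ Finset.range m, ∫ τ in (t - k - 1)..(t - k), D τ = ∫ τ in (t - m)..t, D τ := by
  induction m with
  | zero => simp
  | succ m ih =>
    rw [Finset.sum_range_succ, ih, add_comm,
      intervalIntegral.integral_add_adjacent_intervals (hD.intervalIntegrable _ _)
        (hD.intervalIntegrable _ _)]
    push_cast
    rw [sub_sub]

theorem MFD (h1 : St_GAU) (_h2 : St_AVD) (h3 : St_SWAP) (h4 : St_HEAT) (h5 : St_LOG) :
    St_MFD := by
  intro N A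
  refine ⟨20 * N * A ^ 2, by positivity, fun c β e L W ρ κ j n hc hL hF m => ?_⟩
  have hρ := hF.den
  obtain ⟨hp, hs, -, -, -, -, -, -, hl⟩ := h5 N c β e L ρ hc hρ
  obtain ⟨hV, hI⟩ := hl A W κ j n hL hF
  have hβ := hc.prof.β0
  have sg : Slab fun τ z => g1 c L ρ τ z * s2 c L ρ τ z :=
    hs.2.2.2.2.1.mul hs.2.2.2.2.2.2.2.1
  obtain ⟨w1, w2, w3⟩ := h3 N L gam ρ _ (h1 N).1.1 sg hρ.1
  set D : ℝ → ℝ := fun τ => Real.exp (2 * τ) *
    ∫ x, ρ x * ex gam (fun τ z => g1 c L ρ τ z * s2 c L ρ τ z) τ (L x) with hD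
  have hDc : Continuous D := Continuous.mul (by fun_prop) w2
  have e0 : ∑ k ∈ Finset.range m, ∫ x, ρ x * fD c L ρ k x = ∫ τ in (c.τ0 - m)..c.τ0, D τ := by
    rw [← MFD_blocks hDc]
    exact Finset.sum_congr rfl fun k _ => (w3 _ _).2
  set J : ℝ → ℝ := fun σ => ∑ p, Real.exp (-(N * σ)) *
    ∫ z, uu c L ρ σ z * l1 c L ρ (ee p) σ z ^ 2 with hJ
  have hJd : ∀ τ, HasDerivAt J (∑ p, -2 * (Real.exp (2 * τ) * Real.exp (-(N * τ)) *
      ∑ i, ∫ z, uu c L ρ τ z * l2 c L ρ (ee p) (ee i) τ z ^ 2)) τ := fun τ =>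
    HasDerivAt.fun_sum fun p _ => MFD_J h1 h4 h5 hc hρ
      (integrable_finsetSum _ fun i _ => (hF.inn i).const_mul _) (hV (ee p)) τ
  have hDle : ∀ τ, D τ ≤ β * (Real.exp (2 * τ) * Real.exp (-(N * τ)) *
      (10 * ∑ p, ∑ i, ∫ z, uu c L ρ τ z * l2 c L ρ (ee p) (ee i) τ z ^ 2)) := by
    intro τ
    obtain ⟨i1, i2⟩ := MFD_s2 (L := L) h1 h4 h5 hc hρ τ
    have h6 : ∫ z, g1 c L ρ τ z * s2 c L ρ τ z * km L gam ρ τ z ≤
        ∫ z, β * (uu c L ρ τ z * s2 c L ρ τ z) := by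
      refine integral_mono (w1 τ).2.1 (i1.const_mul β) fun z => ?_
      have k1 : 0 ≤ s2 c L ρ τ z := by
        unfold s2
        positivity
      have k2 : km L gam ρ τ z ≤ uu c L ρ τ z := by
        have : 0 < c.δ * Real.exp (N * τ) := mul_pos hc.δ0 (Real.exp_pos _)
        rw [uu, k0]
        linarith
      have k3 : 0 ≤ km L gam ρ τ z := (hp τ z).1
      have k4 := hc.prof.r1 (yy c L ρ τ z)
      calc g1 c L ρ τ z * s2 c L ρ τ z * km L gam ρ τ z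
          = g1 c L ρ τ z * (km L gam ρ τ z * s2 c L ρ τ z) := by ring
        _ ≤ _ := mul_le_mul k4.2 (mul_le_mul_of_nonneg_right k2 k1) (mul_nonneg k3 k1) hβ.le
    rw [integral_const_mul] at h6
    have h7 := h6.trans (mul_le_mul_of_nonneg_left i2 hβ.le)
    simp only [hD]
    rw [(w1 τ).2.2, ← mul_assoc, mul_left_comm β]
    exact mul_le_mul_of_nonneg_left h7 (by positivity)
  have hH : ∀ τ, HasDerivAt (fun σ => (∫ s in (c.τ0 - m)..σ, D s) + 5 * β * J σ) _ τ := fun τ =>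
    (intervalIntegral.integral_hasDerivAt_right (hDc.intervalIntegrable _ _)
      (hDc.stronglyMeasurableAtFilter _ _) hDc.continuousAt).add ((hJd τ).const_mul (5 * β))
  have hanti : Antitone fun σ => (∫ s in (c.τ0 - m)..σ, D s) + 5 * β * J σ := by
    refine antitone_of_deriv_nonpos (fun τ => (hH τ).differentiableAt) fun τ => ?_
    rw [(hH τ).deriv, ← Finset.mul_sum, ← Finset.mul_sum]
    linarith [hDle τ]
  have h8 := hanti (show c.τ0 - m ≤ c.τ0 from sub_le_self _ (Nat.cast_nonneg m))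
  simp only [intervalIntegral.integral_same, zero_add] at h8
  have h9 : 0 ≤ J c.τ0 := Finset.sum_nonneg fun p _ => mul_nonneg (Real.exp_pos _).le
    (integral_nonneg fun z => mul_nonneg (hp _ z).2.2.le (sq_nonneg _))
  have h10 : ∀ τ, J τ ≤ 4 * N * A ^ 2 * ∫ x, κ x := by
    intro τ
    have i2 : ∀ p : Fin N, Integrable fun z => uu c L ρ τ z * l1 c L ρ (ee p) τ z ^ 2 := fun p =>
      (MFD_dP (L := L) h1 h4 h5 hc hρ (ee p) 1).int τ
    obtain ⟨i3, e3⟩ := ((h4 N L κ hF.kden.1).1 gam (h1 N).1.1).2.2.2 τ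
    have k1 : ∫ z, ∑ p, uu c L ρ τ z * l1 c L ρ (ee p) τ z ^ 2 ≤
        ∫ z, 4 * N * A ^ 2 * km L gam κ τ z := by
      refine integral_mono (integrable_finsetSum _ fun p _ => i2 p) (i3.const_mul _) fun z => ?_
      have := hI τ z
      rwa [s1, Finset.mul_sum] at this
    rw [integral_const_mul, e3, (h1 N).2.2.1.1, one_mul] at k1
    simp only [hJ]
    rw [← Finset.mul_sum, ← integral_finsetSum _ fun p _ => i2 p]
    refine (mul_le_mul_of_nonneg_left k1 (Real.exp_pos _).le).trans (le_of_eq ?_)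
    rw [Real.exp_neg]
    field_simp
  rw [e0]
  have h11 := mul_le_mul_of_nonneg_left (h10 (c.τ0 - m)) (show 0 ≤ 5 * β by positivity)
  have h12 := mul_nonneg (show 0 ≤ 5 * β by positivity) h9
  linarith

end Pool.Agent.Lib.MP_13801a_an.ND
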