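import Mathlib
import Pool.Agent.Lib.MP_13801a_an.ND.StsG

/-!
One step of the game: the relations between the fields of one mode on one block of scales.
-/

open MeasureTheory Set Filter Matrix
open scoped Topology

namespace Pool.Agent.Lib.MP_13801a_an.ND

variable {N : ℕ}

/-- Fundamental theorem of calculus on a block. -/
theorem MSTEP_ftc {Φ Φ' : ℝ → E N → ℝ} (h : Blk Φ) (h' : Blk Φ')
    (hd : ∀ τ ξ, HasDerivAt (fun σ => Φ σ ξ) (Φ' τ ξ) τ) (τk : ℝ) :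
    bi τk Φ' = (∫ ξ, Φ τk ξ) - ∫ ξ, Φ (τk - 1) ξ := by
  have key : ∀ τ, HasDerivAt (fun σ => ∫ ξ, Φ σ ξ) (∫ ξ, Φ' τ ξ) τ := by
    intro τ
    obtain ⟨C, c, hc, hC⟩ := h'.2 (τ - 1) (τ + 1)
    refine (hasDerivAt_integral_of_dominated_loc_of_deriv_le (s := Icc (τ - 1) (τ + 1))
      (F := fun σ ξ => Φ σ ξ) (F' := fun σ ξ => Φ' σ ξ)
      (bound := fun ξ => C * Real.exp (-c * ‖ξ‖ ^ 2))
      (Icc_mem_nhds (sub_one_lt τ) (lt_add_one τ))
      (Eventually.of_forall fun σ => (h.gau σ).1.aestronglyMeasurable)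
      (h.gau τ).integrable (h'.gau τ).1.aestronglyMeasurable
      (Eventually.of_forall fun ξ σ hσ => hC σ hσ ξ)
      ((integrable_gauss hc).const_mul C)
      (Eventually.of_forall fun ξ σ _ => hd σ ξ)).2
  exact intervalIntegral.integral_eq_sub_of_hasDerivAt (fun τ _ => key τ)
    (h'.cont_int.intervalIntegrable _ _)

theorem MSTEP_amgm {a b g : ℝ} (hg : 0 ≤ g) : |a * b * g| ≤ 1 / 2 * (a ^ 2 * g + b ^ 2 * g) := by
  rw [abs_le]
  constructor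
  · nlinarith [mul_nonneg hg (sq_nonneg (a + b))]
  · nlinarith [mul_nonneg hg (sq_nonneg (a - b))]

theorem MSTEP_exp2 (τ : ℝ) : Real.exp (2 * τ) = Real.exp (1 * τ) ^ 2 := by
  rw [one_mul, ← Real.exp_nat_mul]
  norm_num

theorem MSTEP_conj (h3 : St_LOG) (h1 : St_GAU) (c : Cfg) (β e : ℝ) (L : E N →L[ℝ] E N)
    (ρ : E N → ℝ) (hc : c.Ok N β e) (hρ : Den ρ) (k : ℕ) (x : E N) (M : Mt N) (i i' : Fin N) :
    fB c L ρ k (ap M (ee i)) (ap M (ee i')) x = (Mᵀ * fBH c L ρ k x * M) i i' := by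
  obtain ⟨-, hS, -, -, -, hf, -⟩ := h3 N c β e L ρ hc hρ
  have hg : Gau (gam : E N → ℝ) := (h1 N).1.1
  have hs : ∀ h h', Slab (f2 c L ρ h h') := fun h h' => (hS.2.2.2.2.2.2.2.2.2 h h').2
  have e1 : fB c L ρ k (ap M (ee i)) (ap M (ee i')) x =
      -∑ p, ∑ p', M p i * M p' i' * av (c.τ0 - k) 2 gam (f2 c L ρ (ee p) (ee p')) (L x) := by
    simp only [fB, av_eq_bi, ← bi_const_mul]
    rw [neg_inj]
    have hb : ∀ p p', Blk fun τ ξ => M p i * M p' i' * (Real.exp (2 * τ) *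
        (gam ξ * f2 c L ρ (ee p) (ee p') τ (L x + Real.exp τ • ξ))) :=
      fun p p' => (blk_av hg (hs _ _) 2 (L x)).const_mul _
    simp only [← bi_sum _ fun p' _ => hb _ p']
    rw [← bi_sum _ fun p _ => blk_sum _ fun p' _ => hb p p']
    congr 1
    funext τ ξ
    rw [(hf _ _ τ _).2.2.1]
    simp only [ap_ee, Finset.mul_sum]
    refine Finset.sum_congr rfl fun p _ => Finset.sum_congr rfl fun p' _ => ?_
    ring
  rw [e1]
  simp only [Matrix.mul_apply, Matrix.transpose_apply, fBH, Matrix.of_apply, fB, Finset.sum_mul]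
  rw [Finset.sum_comm, ← Finset.sum_neg_distrib]
  refine Finset.sum_congr rfl fun p' _ => ?_
  rw [← Finset.sum_neg_distrib]
  refine Finset.sum_congr rfl fun p _ => ?_
  ring

theorem MSTEP_step (h1 : St_GAU) (h2 : St_AVD) (h3 : St_LOG) (c : Cfg) (β e : ℝ)
    (L : E N →L[ℝ] E N) (ρ : E N → ℝ) (hc : c.Ok N β e) (hρ : Den ρ) (k : ℕ) (x : E N) :
    Step c.q β e (fBH c L ρ k x) (fW c L ρ k x) (fS c L ρ k x)
      (fF c L ρ (k + 1) x - fF c L ρ k x) := by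
  obtain ⟨-, hS, hD1, hD2, hl, hf, hy, -⟩ := h3 N c β e L ρ hc hρ
  obtain ⟨⟨hg, -, -, hhe1, hhe2⟩, hGm, ⟨hI0, hI2, -⟩, hdg, hdh, -⟩ := h1 N
  obtain ⟨-, -, -, sf0, sg1, sg2, ss1, -, sl1, sl2⟩ := hS
  have hP := hc.prof
  set τk : ℝ := c.τ0 - k with hτk
  set y : E N := L x with hy0
  have g10 : ∀ τ z, 0 ≤ g1 c L ρ τ z := fun τ z => (hP.r1 _).1
  have g1β : ∀ τ z, g1 c L ρ τ z ≤ β := fun τ z => (hP.r1 _).2
  have g20 : ∀ τ z, 0 ≤ g2 c L ρ τ z := fun τ z => (hP.r2 _).1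
  have g2e : ∀ τ z, g2 c L ρ τ z ≤ e * g1 c L ρ τ z := fun τ z => (hP.r2 _).2
  have s10 : ∀ τ z, 0 ≤ s1 c L ρ τ z := fun τ z => Finset.sum_nonneg fun _ _ => sq_nonneg _
  have e0 := hP.e0
  have e1 := hP.e1
  -- the integrands
  let ΦW : ℝ → E N → ℝ := fun τ ξ =>
    Real.exp (0 * τ) * (gam ξ * g1 c L ρ τ (y + Real.exp τ • ξ))
  let ΦS : ℝ → E N → ℝ := fun τ ξ => Real.exp (2 * τ) *
    (gam ξ * (g1 c L ρ τ (y + Real.exp τ • ξ) * s1 c L ρ τ (y + Real.exp τ • ξ)))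
  let ΦT : ℝ → E N → ℝ := fun τ ξ => Real.exp (2 * τ) *
    (gam ξ * (g2 c L ρ τ (y + Real.exp τ • ξ) * s1 c L ρ τ (y + Real.exp τ • ξ)))
  let ΦSi : Fin N → ℝ → E N → ℝ := fun i τ ξ => Real.exp (2 * τ) *
    (gam ξ * (g1 c L ρ τ (y + Real.exp τ • ξ) * l1 c L ρ (ee i) τ (y + Real.exp τ • ξ) ^ 2))
  let ΦX : Fin N → ℝ → E N → ℝ := fun j τ ξ => Real.exp (0 * τ) *
    ((inner ℝ ξ (ee j) * he1 (ee j) ξ) * g1 c L ρ τ (y + Real.exp τ • ξ))
  let ΦB : Fin N → Fin N → ℝ → E N → ℝ := fun i j τ ξ => Real.exp (2 * τ) *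
    (gam ξ * f2 c L ρ (ee i) (ee j) τ (y + Real.exp τ • ξ))
  let ΦC : Fin N → Fin N → ℝ → E N → ℝ := fun i j τ ξ => Real.exp (1 * τ) *
    (he1 (ee j) ξ * f1 c L ρ (ee i) τ (y + Real.exp τ • ξ))
  let ΦH : Fin N → ℝ → E N → ℝ := fun j τ ξ => Real.exp (0 * τ) *
    (he2 (ee j) (ee j) ξ * g1 c L ρ τ (y + Real.exp τ • ξ))
  let ΦK : Fin N → ℝ → E N → ℝ := fun j τ ξ => Real.exp (1 * τ) *
    (he1 (ee j) ξ * (g2 c L ρ τ (y + Real.exp τ • ξ) * l1 c L ρ (ee j) τ (y + Real.exp τ • ξ)))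
  have bW : Blk ΦW := blk_av hg sg1 0 y
  have bS : Blk ΦS := blk_av hg (sg1.mul ss1) 2 y
  have bT : Blk ΦT := blk_av hg (sg2.mul ss1) 2 y
  have bSi : ∀ i, Blk (ΦSi i) := fun i => blk_av hg (sg1.mul ((sl1 (ee i)).1.pow 2)) 2 y
  have gX : ∀ j : Fin N, Gau fun ξ : E N => inner ℝ ξ (ee j) * he1 (ee j) ξ :=
    fun j => (hGm _ (hhe1 (ee j))).1 (ee j)
  have bX : ∀ j, Blk (ΦX j) := fun j => blk_av (gX j) sg1 0 y
  have bB : ∀ i j, Blk (ΦB i j) := fun i j => blk_av hg (sl2 (ee i) (ee j)).2 2 y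
  have bC : ∀ i j, Blk (ΦC i j) := fun i j => blk_av (hhe1 (ee j)) (sl1 (ee i)).2 1 y
  have bH : ∀ j, Blk (ΦH j) := fun j => blk_av (hhe2 (ee j) (ee j)) sg1 0 y
  have bK : ∀ j, Blk (ΦK j) := fun j => blk_av (hhe1 (ee j)) (sg2.mul (sl1 (ee j)).1) 1 y
  have eW : fW c L ρ k x = bi τk ΦW := av_eq_bi _ _ _ _ _
  have eS : fS c L ρ k x = bi τk ΦS := av_eq_bi _ _ _ _ _
  have eB : ∀ i j, fBH c L ρ k x i j = -bi τk (ΦB i j) := fun i j => by
    simp only [fBH, Matrix.of_apply, fB]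
    rw [av_eq_bi]
  -- integration by parts
  have eBC : ∀ i j, bi τk (ΦB i j) = bi τk (ΦC i j) := fun i j => by
    have := (((h2 N gam hg).2.2.1 (he1 (ee j)) (f1 c L ρ (ee i)) (ee j) (hhe1 _) (sl1 _).2
      (hdg _)).2.2 (f2 c L ρ (ee i) (ee j)) (sl2 _ _).2 fun τ z => (hD2 _ _ τ z).2).2 τk 2 y
    rw [show (2 : ℝ) - 1 = 1 by norm_num, av_eq_bi, av_eq_bi] at this
    exact this
  have eKH : ∀ j, bi τk (ΦK j) = bi τk (ΦH j) := fun j => by
    have := (((h2 N (he1 (ee j)) (hhe1 _)).2.2.1 (he2 (ee j) (ee j)) (g1 c L ρ) (ee j) (hhe2 _ _)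
      sg1 (hdh _ _)).2.2 (fun τ z => g2 c L ρ τ z * l1 c L ρ (ee j) τ z) (sg2.mul (sl1 _).1)
      fun τ z => (hD1 _ τ z).2.2.2).2 τk 1 y
    rw [show (1 : ℝ) - 1 = 0 by norm_num, av_eq_bi, av_eq_bi] at this
    exact this
  have eXH : ∀ j, bi τk (ΦX j) = bi τk ΦW + bi τk (ΦH j) := fun j => by
    rw [← bi_add bW (bH j)]
    congr 1
    funext τ ξ
    simp only [ΦX, ΦW, ΦH, he1, he2, real_inner_self_eq_norm_sq, norm_ee]
    ring
  have eSum : bi τk ΦS = ∑ i, bi τk (ΦSi i) := by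
    rw [← bi_sum _ fun i _ => bSi i]
    congr 1
    funext τ ξ
    simp only [ΦS, ΦSi, s1, Finset.mul_sum]
  have pX : ∀ j τ ξ, ΦX j τ ξ =
      inner ℝ ξ (ee j) ^ 2 * (gam ξ * g1 c L ρ τ (y + Real.exp τ • ξ)) := fun j τ ξ => by
    simp only [ΦX, he1, zero_mul, Real.exp_zero]
    ring
  have pSi : ∀ i τ ξ, ΦSi i τ ξ =
      (Real.exp (1 * τ) * l1 c L ρ (ee i) τ (y + Real.exp τ • ξ)) ^ 2 *
        (gam ξ * g1 c L ρ τ (y + Real.exp τ • ξ)) := fun i τ ξ => by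
    simp only [ΦSi, MSTEP_exp2]
    ring
  have pC : ∀ i j τ ξ, ΦC i j τ ξ = inner ℝ ξ (ee j) *
      (Real.exp (1 * τ) * l1 c L ρ (ee i) τ (y + Real.exp τ • ξ)) *
        (gam ξ * g1 c L ρ τ (y + Real.exp τ • ξ)) := fun i j τ ξ => by
    simp only [ΦC, he1, f1]
    ring
  have gg0 : ∀ τ (ξ : E N), 0 ≤ gam ξ * g1 c L ρ τ (y + Real.exp τ • ξ) := fun τ ξ =>
    mul_nonneg (gam_pos ξ).le (g10 _ _)
  have Si0 : ∀ i, 0 ≤ bi τk (ΦSi i) := fun i => bi_nonneg τk fun τ _ ξ => by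
    rw [pSi]
    exact mul_nonneg (sq_nonneg _) (gg0 τ ξ)
  have SiS : ∀ i, bi τk (ΦSi i) ≤ bi τk ΦS := fun i => by
    rw [eSum]
    exact Finset.single_le_sum (f := fun i => bi τk (ΦSi i)) (fun i _ => Si0 i) (Finset.mem_univ i)
  have W0 : 0 ≤ bi τk ΦW := bi_nonneg τk fun τ _ ξ => mul_nonneg (Real.exp_pos _).le (gg0 τ ξ)
  have S0 : 0 ≤ bi τk ΦS := by
    rw [eSum]
    exact Finset.sum_nonneg fun i _ => Si0 i
  have Wβ : bi τk ΦW ≤ β := by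
    have := bi_mono bW (hg.blk.const_mul β) τk fun τ _ ξ => by
      simp only [ΦW, zero_mul, Real.exp_zero, one_mul]
      rw [mul_comm β]
      exact mul_le_mul_of_nonneg_left (g1β _ _) (gam_pos ξ).le
    rwa [bi_const_mul, bi_gau, hI0, mul_one] at this
  have X0 : ∀ j, 0 ≤ bi τk (ΦX j) := fun j => bi_nonneg τk fun τ _ ξ => by
    rw [pX]
    exact mul_nonneg (sq_nonneg _) (gg0 τ ξ)
  have Xβ : ∀ j, bi τk (ΦX j) ≤ β := fun j => by
    have := bi_mono (bX j) ((gX j).blk.const_mul β) τk fun τ _ ξ => by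
      rw [pX]
      have h4 := mul_le_mul_of_nonneg_left (g1β τ (y + Real.exp τ • ξ))
        (mul_nonneg (sq_nonneg (inner ℝ ξ (ee j) : ℝ)) (gam_pos ξ).le)
      simp only [he1]
      nlinarith
    have h5 : ∫ ξ : E N, inner ℝ ξ (ee j) * he1 (ee j) ξ = 1 := by
      have h6 := hI2 (ee j)
      rw [norm_ee, one_pow] at h6
      rw [← h6]
      congr 1
      funext ξ
      simp only [he1]
      ring
    rwa [bi_const_mul, bi_gau, h5, mul_one] at this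
  have absC : ∀ i j, |bi τk (ΦC i j)| ≤ 1 / 2 * (bi τk (ΦX j) + bi τk (ΦSi i)) := fun i j => by
    have := abs_bi_le (bC i j) (((bX j).add (bSi i)).const_mul (1 / 2)) τk fun τ _ ξ => by
      rw [pC, pX, pSi]
      exact MSTEP_amgm (gg0 τ ξ)
    rwa [bi_const_mul, bi_add (bX j) (bSi i)] at this
  have sqC : ∀ i j, bi τk (ΦC i j) ^ 2 ≤ bi τk (ΦX j) * bi τk (ΦSi i) := fun i j =>
    bi_cs (bC i j) (bX j) (bSi i) τk fun τ _ ξ => by
      rw [pC, pX, pSi]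
      refine ⟨mul_nonneg (sq_nonneg _) (gg0 τ ξ), mul_nonneg (sq_nonneg _) (gg0 τ ξ), le_of_eq ?_⟩
      ring
  have leK : ∀ j, bi τk (ΦK j) ≤ e / 2 * (bi τk (ΦX j) + bi τk (ΦSi j)) := fun j => by
    have := bi_mono (bK j) (((bX j).add (bSi j)).const_mul (e / 2)) τk fun τ _ ξ => by
      rw [pX, pSi]
      have h4 := (abs_le.1 (MSTEP_amgm (a := inner ℝ ξ (ee j))
        (b := Real.exp (1 * τ) * l1 c L ρ (ee j) τ (y + Real.exp τ • ξ))
        (mul_nonneg (gam_pos ξ).le (g20 τ (y + Real.exp τ • ξ))))).2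
      have h5 := mul_le_mul_of_nonneg_left (g2e τ (y + Real.exp τ • ξ))
        (mul_nonneg (add_nonneg (sq_nonneg (inner ℝ ξ (ee j) : ℝ))
          (sq_nonneg (Real.exp (1 * τ) * l1 c L ρ (ee j) τ (y + Real.exp τ • ξ)))) (gam_pos ξ).le)
      simp only [ΦK, he1]
      nlinarith
    rwa [bi_const_mul, bi_add (bX j) (bSi j)] at this
  have hX : ∀ j, bi τk (ΦX j) ≤ bi τk ΦW + e / 2 * (bi τk (ΦX j) + bi τk (ΦSi j)) := fun j => by
    have := leK j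
    rw [eKH] at this
    linarith [eXH j]
  -- the scale derivative
  have T0 : 0 ≤ bi τk ΦT := bi_nonneg τk fun τ _ ξ =>
    mul_nonneg (Real.exp_pos _).le (mul_nonneg (gam_pos ξ).le (mul_nonneg (g20 _ _) (s10 _ _)))
  have Te : bi τk ΦT ≤ e * bi τk ΦS := by
    have := bi_mono bT (bS.const_mul e) τk fun τ _ ξ => by
      have h5 := mul_le_mul_of_nonneg_left (g2e τ (y + Real.exp τ • ξ))
        (mul_nonneg (mul_nonneg (Real.exp_pos (2 * τ)).le (gam_pos ξ).le)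
          (s10 τ (y + Real.exp τ • ξ)))
      simp only [ΦT, ΦS]
      nlinarith
    rwa [bi_const_mul] at this
  have ftc : fF c L ρ k x - fF c L ρ (k + 1) x = (N - c.q) * bi τk ΦW + (∑ i, bi τk (ΦB i i)) +
      (bi τk ΦS - bi τk ΦT) + ∑ i, bi τk (ΦC i i) := by
    have b1 := bW.const_mul (N - c.q)
    have b2 := blk_sum Finset.univ fun i _ => bB i i
    have b3 := bS.sub bT
    have b4 := blk_sum Finset.univ fun i _ => bC i i
    have b0 : Blk fun τ ξ => gam ξ * f0 c L ρ τ (y + Real.exp τ • ξ) :=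
      hg.blk.mul_slab (sf0.ray y)
    have := MSTEP_ftc b0 (((b1.add b2).add b3).add b4) (fun τ ξ => by
      have h4 := ((hP.d1 _).comp τ (hy τ y ξ)).const_mul (gam ξ)
      refine HasDerivAt.congr_deriv h4 ?_
      have e3 : ∑ i, ΦB i i τ ξ = Real.exp (2 * τ) * (gam ξ *
          (g1 c L ρ τ (y + Real.exp τ • ξ) *
            (∑ i, l2 c L ρ (ee i) (ee i) τ (y + Real.exp τ • ξ)) +
          g2 c L ρ τ (y + Real.exp τ • ξ) * s1 c L ρ τ (y + Real.exp τ • ξ))) := by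
        simp only [ΦB, f2, s1, Finset.mul_sum, ← Finset.sum_add_distrib, sq]
      have e4 : ∑ i, ΦC i i τ ξ = Real.exp τ * (gam ξ * (g1 c L ρ τ (y + Real.exp τ • ξ) *
          l1 c L ρ ξ τ (y + Real.exp τ • ξ))) := by
        rw [(hl ξ τ _).1]
        simp only [ΦC, f1, he1, inner_ee, one_mul, Finset.mul_sum]
        refine Finset.sum_congr rfl fun i _ => ?_
        ring
      rw [e3, e4]
      simp only [ΦW, ΦS, ΦT, zero_mul, Real.exp_zero, one_mul, g1]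
      ring) τk
    rw [bi_add ((b1.add b2).add b3) b4, bi_add (b1.add b2) b3, bi_add b1 b2, bi_const_mul,
      bi_sub bS bT, bi_sum _ fun i _ => bB i i, bi_sum _ fun i _ => bC i i] at this
    rw [this]
    have h7 : c.τ0 - ((k + 1 : ℕ) : ℝ) = τk - 1 := by
      rw [hτk]
      push_cast
      ring
    simp only [fF, ex, h7]
    rfl
  have etr : (fBH c L ρ k x).trace = -∑ i, bi τk (ΦC i i) := by
    simp only [Matrix.trace, Matrix.diag, eB, eBC, Finset.sum_neg_distrib]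
  simp only [eBC] at ftc
  have dB : ∀ i, fBH c L ρ k x i i ≤ (1 + e) / 2 * (bi τk ΦW + bi τk (ΦSi i)) := fun i => by
    rw [eB, eBC]
    have h4 := (abs_le.1 (absC i i)).1
    have h5 := hX i
    have h6 : 0 ≤ bi τk (ΦX i) + bi τk (ΦSi i) := add_nonneg (X0 i) (Si0 i)
    have h7 : (1 - e / 2) * (bi τk (ΦX i) + bi τk (ΦSi i)) ≤ bi τk ΦW + bi τk (ΦSi i) := by
      linarith
    have h8 := mul_le_mul_of_nonneg_left h7 (show 0 ≤ (1 + e) / 2 by linarith)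
    have h9 : 0 ≤ e * (1 - e) * (bi τk (ΦX i) + bi τk (ΦSi i)) :=
      mul_nonneg (mul_nonneg e0.le (by linarith)) h6
    nlinarith
  rw [eW, eS]
  refine ⟨fun i j => ?_, W0, Wβ, S0, ?_, ?_, fun i => ?_, fun h hh => ?_, fun i j => ?_,
    fun i j => ?_⟩
  · rw [eB, eB]
    simp only [ΦB, (hf (ee i) (ee j) _ _).2.1]
  · rw [etr]
    linarith
  · rw [etr]
    linarith
  · rw [eB, ← bi_neg]
    refine bi_mono (bB i i).neg bW τk fun τ _ ξ => ?_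
    have h4 := (hl (ee i) τ (y + Real.exp τ • ξ)).2.2
    rw [norm_ee, one_pow] at h4
    have h5 := mul_le_mul_of_nonneg_left h4 (gg0 τ ξ)
    have h6 := mul_nonneg (mul_nonneg (Real.exp_pos (2 * τ)).le (gam_pos ξ).le)
      (mul_nonneg (g20 τ (y + Real.exp τ • ξ))
        (mul_self_nonneg (l1 c L ρ (ee i) τ (y + Real.exp τ • ξ))))
    simp only [ΦB, ΦW, f2, zero_mul, Real.exp_zero, one_mul]
    nlinarith
  · rw [eSum, Finset.sum_mul, ← Finset.sum_add_distrib, Finset.mul_sum]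
    refine Finset.sum_le_sum fun i _ => ?_
    have h4 := mul_le_mul_of_nonneg_left (dB i) (hh i).1
    have h5 : 0 ≤ (1 + e) / 2 * ((1 - h i) * bi τk (ΦSi i)) :=
      mul_nonneg (by linarith) (mul_nonneg (by linarith [(hh i).2]) (Si0 i))
    nlinarith
  · rw [eB, eBC, abs_neg]
    have h4 := absC i j
    have h5 := hX j
    have h6 : e / 2 * (bi τk (ΦX j) + bi τk (ΦSi j)) ≤ 1 / 4 * (bi τk (ΦX j) + bi τk (ΦSi j)) :=
      mul_le_mul_of_nonneg_right (by linarith) (add_nonneg (X0 j) (Si0 j))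
    linarith [SiS i, SiS j]
  · rw [eB, eBC, neg_sq]
    exact (sqC i j).trans (mul_le_mul (Xβ j) (SiS i) (Si0 i) hP.β0.le)

theorem MSTEP (h1 : St_GAU) (h2 : St_AVD) (h3 : St_LOG) : St_MSTEP :=
  fun _ c β e L ρ hc hρ k x => ⟨MSTEP_step h1 h2 h3 c β e L ρ hc hρ k x,
    fun M i i' => MSTEP_conj h3 h1 c β e L ρ hc hρ k x M i i'⟩

end Pool.Agent.Lib.MP_13801a_an.ND
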