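import Mathlib
import Pool.Agent.Lib.MP_13801a_an.ND.StsG

/-!
Two weighted integral inequalities for the fields of one mode.
-/

open MeasureTheory Set Filter Matrix
open scoped Topology

namespace Pool.Agent.Lib.MP_13801a_an.ND

variable {N : ℕ}

/-- The contribution of one scale. -/
noncomputable def MT1_I (L : E N →L[ℝ] E N) (φ a : E N → ℝ) (g : ℝ → E N → ℝ) (s τ : ℝ) : ℝ :=
  Real.exp (s * τ) * ∫ x, a x * ex φ g τ (L x)

theorem MT1_red (h3 : St_SWAP) (L : E N →L[ℝ] E N) {φ a : E N → ℝ} {g : ℝ → E N → ℝ}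
    (hφ : Gau φ) (hg : Slab g) (ha : Integrable a) (τk s : ℝ) :
    IntervalIntegrable (MT1_I L φ a g s) volume (τk - 1) τk ∧
      ∫ x, a x * av τk s φ g (L x) = ∫ τ in (τk - 1)..τk, MT1_I L φ a g s τ ∧
      ∀ τ, (Integrable fun z => Real.exp (s * τ) * (g τ z * km L φ a τ z)) ∧
        MT1_I L φ a g s τ =
          Real.exp (-(N * τ)) * ∫ z, Real.exp (s * τ) * (g τ z * km L φ a τ z) := by
  obtain ⟨p1, p2, p3⟩ := h3 N L φ a g hφ hg ha
  refine ⟨Continuous.intervalIntegrable ?_ _ _, (p3 τk s).2, fun τ =>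
    ⟨(p1 τ).2.1.const_mul _, ?_⟩⟩
  · exact (by fun_prop : Continuous fun τ : ℝ => Real.exp (s * τ)).mul p2
  · rw [MT1_I, (p1 τ).2.2, integral_const_mul]
    ring

theorem MT1_int {ε r : ℝ} {η a : E N → ℝ} (hη : LL ε r η) (ha : Integrable a) :
    Integrable fun x => a x * η x :=
  ha.mul_bdd (c := 1) hη.1.aestronglyMeasurable (Eventually.of_forall fun x => by
    rw [Real.norm_eq_abs, abs_of_pos (hη.2.1 x).1]
    exact (hη.2.1 x).2)

/-- Comparison of the weight at `x` and at `W z`. -/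
theorem MT1_eta {A ε τ τk : ℝ} {L W : E N →L[ℝ] E N} {η : E N → ℝ} (hL : Lin A L W) (hε : 0 ≤ ε)
    (hA : ε * A ≤ 1) (hη : LL ε (Real.exp τk) η) (hτ : τ ≤ τk) (z x : E N) :
    η x ≤ η (W z) * Real.exp ‖xi L τ z x‖ ∧ η (W z) ≤ η x * Real.exp ‖xi L τ z x‖ ∧
      |η x - η (W z)| ≤ η (W z) * (ε * A * ‖xi L τ z x‖ * Real.exp ‖xi L τ z x‖) := by
  set s := ‖xi L τ z x‖ with hs
  have hs0 : 0 ≤ s := norm_nonneg _
  have hA0 : 0 ≤ ε * A := mul_nonneg hε (by linarith [hL.A1])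
  have e1 : W z - x = Real.exp τ • W (xi L τ z x) := by
    rw [xi, map_smul, smul_smul, ← Real.exp_add, add_neg_cancel, Real.exp_zero, one_smul, map_sub,
      hL.WL]
  have e2 : ‖W z - x‖ ≤ Real.exp τk * (A * s) := by
    rw [e1, norm_smul, Real.norm_eq_abs, abs_of_pos (Real.exp_pos _)]
    exact mul_le_mul (Real.exp_le_exp.2 hτ) (hL.bW _) (norm_nonneg _) (Real.exp_pos _).le
  have e3 : ε * ‖W z - x‖ / Real.exp τk ≤ ε * A * s := by
    rw [div_le_iff₀ (Real.exp_pos _)]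
    nlinarith [mul_le_mul_of_nonneg_left e2 hε]
  have e4 : ε * A * s ≤ s := by nlinarith
  set u := ε * A * s with hu
  have hu0 : 0 ≤ u := mul_nonneg hA0 hs0
  have p := (hη.2.1 x).1
  have p' := (hη.2.1 (W z)).1
  have b1 : η x ≤ η (W z) * Real.exp u := by
    refine (hη.2.2 x (W z)).trans (mul_le_mul_of_nonneg_left (Real.exp_le_exp.2 ?_) p'.le)
    rwa [norm_sub_rev]
  have b2 : η (W z) ≤ η x * Real.exp u :=
    (hη.2.2 (W z) x).trans (mul_le_mul_of_nonneg_left (Real.exp_le_exp.2 e3) p.le)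
  have b3 : Real.exp u ≤ Real.exp s := Real.exp_le_exp.2 e4
  have b4 : 1 ≤ Real.exp u := Real.one_le_exp hu0
  have b5 : Real.exp u - 1 ≤ u * Real.exp u := by
    have h1 := Real.add_one_le_exp (-u)
    have h2 : Real.exp (-u) * Real.exp u = 1 := by rw [← Real.exp_add]; simp
    nlinarith
  have b6 : u * Real.exp u ≤ u * Real.exp s := mul_le_mul_of_nonneg_left b3 hu0
  refine ⟨b1.trans (mul_le_mul_of_nonneg_left b3 p'.le),
    b2.trans (mul_le_mul_of_nonneg_left b3 p.le), abs_le.2 ⟨?_, ?_⟩⟩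
  · rcases le_total (η (W z)) (η x) with h | h
    · nlinarith [mul_nonneg p'.le (mul_nonneg hu0 (Real.exp_pos s).le)]
    · nlinarith [mul_le_mul h (b5.trans b6) (by linarith) p'.le]
  · nlinarith [mul_le_mul_of_nonneg_left (b5.trans b6) p'.le]

/-- Kernel comparisons. -/
theorem MT1_ker (h1 : St_GAU) (N : ℕ) : ∃ C : ℝ, 0 < C ∧ ∀ ξ : E N,
    Real.exp ‖ξ‖ * gq ξ ≤ C * gam ξ ∧ Real.exp ‖ξ‖ * gam ξ ≤ C * gp ξ ∧
      ‖ξ‖ ^ 4 * Real.exp (3 * ‖ξ‖) * gam ξ ≤ C * gp ξ := by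
  have hk := (h1 N).2.2.2.2.2
  obtain ⟨C1, hC1, k1⟩ := hk 0 1 (1 / 6) (by norm_num)
  obtain ⟨C2, hC2, k2⟩ := hk 4 3 (1 / 5) (by norm_num)
  set p : ℝ := (2 * Real.pi) ^ (-(N : ℝ) / 2) with hp
  have p0 : 0 < p := by positivity
  refine ⟨C1 / p + C2 + 1, by positivity, fun ξ => ?_⟩
  have s0 : 0 ≤ ‖ξ‖ := norm_nonneg _
  have g0 := gam_pos ξ
  have g1 := gp_pos ξ
  have a2 := k2 _ s0
  have a3 : C2 * Real.exp (1 / 5 * ‖ξ‖ ^ 2) * gam ξ ≤ (C1 / p + C2 + 1) * gp ξ := by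
    have : C2 * Real.exp (1 / 5 * ‖ξ‖ ^ 2) * gam ξ = C2 * gp ξ := by
      rw [gp, mul_assoc]; congr 3; ring
    rw [this]
    exact mul_le_mul_of_nonneg_right (by linarith [div_nonneg hC1 p0.le]) g1.le
  refine ⟨?_, ?_, ?_⟩
  · have a1 := k1 _ s0
    rw [pow_zero, one_mul, one_mul] at a1
    calc _ ≤ C1 * Real.exp (1 / 6 * ‖ξ‖ ^ 2) * gq ξ := mul_le_mul_of_nonneg_right a1 (gq_pos ξ).le
      _ = C1 / p * gam ξ := by
        rw [gq, gam, ← hp, mul_assoc, ← Real.exp_add]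
        field_simp
        congr 2
        ring
      _ ≤ _ := mul_le_mul_of_nonneg_right (by linarith) g0.le
  · refine le_trans (mul_le_mul_of_nonneg_right (le_trans ?_ a2) g0.le) a3
    calc _ = 1 * Real.exp ‖ξ‖ := (one_mul _).symm
      _ ≤ _ := mul_le_mul (one_le_pow₀ (by linarith)) (Real.exp_le_exp.2 (by linarith))
          (Real.exp_pos _).le (by positivity)
  · refine le_trans (mul_le_mul_of_nonneg_right (le_trans ?_ a2) g0.le) a3
    gcongr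
    linarith

section Point

variable {A ε τ τk C : ℝ} {L W : E N →L[ℝ] E N} {η : E N → ℝ}

theorem MT1_up (h1 : St_GAU) (h4 : St_HEAT) (hL : Lin A L W) (hε : 0 ≤ ε) (hA : ε * A ≤ 1)
    (hη : LL ε (Real.exp τk) η) (hτ : τ ≤ τk) {ρ : E N → ℝ} (hρ : Den ρ)
    (hC : ∀ ξ : E N, Real.exp ‖ξ‖ * gq ξ ≤ C * gam ξ) (z : E N) :
    km L gq (fun x => ρ x * η x) τ z ≤ C * η (W z) * k0 L ρ τ z := by
  have i1 := (((h4 N L _ (MT1_int hη hρ.1)).1 gq (h1 N).1.2.2.1).2.1 τ z)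
  have i2 := (((h4 N L _ hρ.1).1 gam (h1 N).1.1).2.1 τ z)
  rw [k0, km, km, ← integral_const_mul]
  refine integral_mono i1 (i2.const_mul _) fun x => ?_
  have a1 := (MT1_eta hL hε hA hη hτ z x).1
  have a2 := hC (xi L τ z x)
  have a3 := (hη.2.1 (W z)).1
  have a4 : η x * gq (xi L τ z x) ≤ η (W z) * (C * gam (xi L τ z x)) :=
    calc _ ≤ η (W z) * Real.exp ‖xi L τ z x‖ * gq (xi L τ z x) :=
          mul_le_mul_of_nonneg_right a1 (gq_pos _).le
      _ ≤ _ := by rw [mul_assoc]; exact mul_le_mul_of_nonneg_left a2 a3.le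
  have a5 := mul_le_mul_of_nonneg_left a4 (hρ.2 x)
  simp only
  linarith

theorem MT1_dn (h1 : St_GAU) (h4 : St_HEAT) (hL : Lin A L W) (hε : 0 ≤ ε) (hA : ε * A ≤ 1)
    (hη : LL ε (Real.exp τk) η) (hτ : τ ≤ τk) {κ : E N → ℝ} (hκ : Den κ)
    (hC : ∀ ξ : E N, Real.exp ‖ξ‖ * gam ξ ≤ C * gp ξ) (z : E N) :
    η (W z) * k0 L κ τ z ≤ C * km L gp (fun x => κ x * η x) τ z := by
  have i1 := (((h4 N L _ (MT1_int hη hκ.1)).1 gp (h1 N).1.2.1).2.1 τ z)
  have i2 := (((h4 N L _ hκ.1).1 gam (h1 N).1.1).2.1 τ z)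
  rw [k0, km, km, ← integral_const_mul, ← integral_const_mul]
  refine integral_mono (i2.const_mul _) (i1.const_mul _) fun x => ?_
  have a1 := (MT1_eta hL hε hA hη hτ z x).2.1
  have a2 := hC (xi L τ z x)
  have a3 := (hη.2.1 x).1
  have a4 : η (W z) * gam (xi L τ z x) ≤ η x * (C * gp (xi L τ z x)) :=
    calc _ ≤ η x * Real.exp ‖xi L τ z x‖ * gam (xi L τ z x) :=
          mul_le_mul_of_nonneg_right a1 (gam_pos _).le
      _ ≤ _ := by rw [mul_assoc]; exact mul_le_mul_of_nonneg_left a2 a3.le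
  have a5 := mul_le_mul_of_nonneg_left a4 (hκ.2 x)
  simp only
  linarith

theorem MT1_cur (hL : Lin A L W) {ρ κ : E N → ℝ} {j n : Fin N → E N → ℝ} (hF : Flu ρ κ j n)
    (x ξ : E N) : (∑ i, j i x * he1 (L (ee i)) ξ) ^ 2 ≤
      16 * N * (ρ x * κ x) * (‖ξ‖ ^ 2 * gam ξ ^ 2) := by
  have a1 := Finset.sum_mul_sq_le_sq_mul_sq Finset.univ (fun i => j i x)
    fun i => he1 (L (ee i)) ξ
  have a2 : ∑ i, he1 (L (ee i)) ξ ^ 2 ≤ N * (4 * (‖ξ‖ ^ 2 * gam ξ ^ 2)) := by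
    refine (Finset.sum_le_card_nsmul _ _ (4 * (‖ξ‖ ^ 2 * gam ξ ^ 2)) fun i _ => ?_).trans
      (by simp)
    have b1 : ‖L (ee i)‖ ≤ 2 := by simpa [norm_ee] using hL.bL (ee i)
    have b2 : |inner ℝ ξ (L (ee i))| ≤ ‖ξ‖ * 2 :=
      (abs_real_inner_le_norm _ _).trans (mul_le_mul_of_nonneg_left b1 (norm_nonneg _))
    have b3 : inner ℝ ξ (L (ee i)) ^ 2 ≤ (‖ξ‖ * 2) ^ 2 := by
      rw [← sq_abs]
      exact pow_le_pow_left₀ (abs_nonneg _) b2 2
    rw [he1, mul_pow]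
    nlinarith [mul_le_mul_of_nonneg_right b3 (sq_nonneg (gam ξ))]
  have a3 := mul_le_mul (hF.bj x) a2 (Finset.sum_nonneg fun _ _ => sq_nonneg _)
    (by have := mul_nonneg (hF.den.2 x) (hF.kden.2 x); positivity)
  linarith

/-- The commutator of the weight with the smoothing of the current. -/
theorem MT1_err (h1 : St_GAU) (h4 : St_HEAT) (hL : Lin A L W) (hε : 0 ≤ ε) (hA : ε * A ≤ 1)
    (hη : LL ε (Real.exp τk) η) (hτ : τ ≤ τk) {ρ κ : E N → ℝ} {j n : Fin N → E N → ℝ}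
    (hF : Flu ρ κ j n) (hC0 : 0 ≤ C)
    (hC : ∀ ξ : E N, ‖ξ‖ ^ 4 * Real.exp (3 * ‖ξ‖) * gam ξ ≤ C * gp ξ) (z : E N) :
    ((∑ i, km L (he1 (L (ee i))) (fun x => j i x * η x) τ z) -
      η (W z) * ∑ i, km L (he1 (L (ee i))) (j i) τ z) ^ 2 ≤
      k0 L ρ τ z * (16 * N * A ^ 2 * C * ε ^ 2 * η (W z) *
        km L gp (fun x => κ x * η x) τ z) := by
  have gh := (h1 N).1.2.2.2.1
  have i1 := fun i => ((h4 N L _ (MT1_int hη (hF.ij i))).1 _ (gh (L (ee i)))).2.1 τ z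
  have i2 := fun i => ((h4 N L _ (hF.ij i)).1 _ (gh (L (ee i)))).2.1 τ z
  have i3 := (((h4 N L _ (MT1_int hη hF.kden.1)).1 gp (h1 N).1.2.1).2.1 τ z)
  have i4 := (((h4 N L _ hF.den.1).1 gam (h1 N).1.1).2.1 τ z)
  have p' := (hη.2.1 (W z)).1
  have e1 : (∑ i, km L (he1 (L (ee i))) (fun x => j i x * η x) τ z) -
      η (W z) * ∑ i, km L (he1 (L (ee i))) (j i) τ z =
      ∫ x, (η x - η (W z)) * ∑ i, j i x * he1 (L (ee i)) (xi L τ z x) := by
    simp only [km]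
    rw [← integral_finsetSum _ fun i _ => i1 i, ← integral_finsetSum _ fun i _ => i2 i,
      ← integral_const_mul, ← integral_sub (integrable_finsetSum _ fun i _ => i1 i)
        ((integrable_finsetSum _ fun i _ => i2 i).const_mul _)]
    congr 1
    ext x
    rw [sub_mul, Finset.mul_sum (a := η x)]
    congr 1
    exact Finset.sum_congr rfl fun i _ => by ring
  rw [e1, k0, km, km, ← integral_const_mul]
  refine cs_integral i4 (i3.const_mul _) (fun x => mul_nonneg (hF.den.2 x) (gam_pos _).le)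
    (fun x => mul_nonneg (by positivity)
      (mul_nonneg (mul_nonneg (hF.kden.2 x) (hη.2.1 x).1.le) (gp_pos _).le)) fun x => ?_
  obtain ⟨-, a2, a3⟩ := MT1_eta hL hε hA hη hτ z x
  have a4 := MT1_cur hL hF x (xi L τ z x)
  have a5 := hC (xi L τ z x)
  have g0 := gam_pos (xi L τ z x)
  have p := (hη.2.1 x).1
  have r0 := hF.den.2 x
  have k0' := hF.kden.2 x
  set s := ‖xi L τ z x‖ with hs
  have s0 : 0 ≤ s := norm_nonneg _
  have a6 : (η x - η (W z)) ^ 2 ≤ (η (W z) * (ε * A * s * Real.exp s)) ^ 2 := by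
    rw [← sq_abs]
    exact pow_le_pow_left₀ (abs_nonneg _) a3 2
  have a7 : Real.exp (3 * s) = Real.exp s ^ 3 := by rw [← Real.exp_nat_mul]; norm_num
  have a8 : η (W z) * (s ^ 4 * Real.exp s ^ 2 * gam (xi L τ z x)) ≤
      η x * (C * gp (xi L τ z x)) :=
    calc _ ≤ η x * Real.exp s * (s ^ 4 * Real.exp s ^ 2 * gam (xi L τ z x)) :=
          mul_le_mul_of_nonneg_right a2 (by positivity)
      _ = η x * (s ^ 4 * Real.exp (3 * s) * gam (xi L τ z x)) := by rw [a7]; ring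
      _ ≤ _ := mul_le_mul_of_nonneg_left a5 p.le
  rw [mul_pow]
  calc _ ≤ (η (W z) * (ε * A * s * Real.exp s)) ^ 2 *
        (16 * N * (ρ x * κ x) * (s ^ 2 * gam (xi L τ z x) ^ 2)) :=
        mul_le_mul a6 a4 (sq_nonneg _) (sq_nonneg _)
    _ = ρ x * gam (xi L τ z x) * (16 * N * A ^ 2 * ε ^ 2 * η (W z) * κ x) *
        (η (W z) * (s ^ 4 * Real.exp s ^ 2 * gam (xi L τ z x))) := by ring
    _ ≤ ρ x * gam (xi L τ z x) * (16 * N * A ^ 2 * ε ^ 2 * η (W z) * κ x) *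
        (η x * (C * gp (xi L τ z x))) := mul_le_mul_of_nonneg_left a8 (by positivity)
    _ = _ := by ring

end Point

theorem MT1_cmp {X : Type*} [MeasurableSpace X] {μ : Measure X} {f g h : X → ℝ} {a b : ℝ}
    (hf : Integrable f μ) (hg : Integrable g μ) (hh : Integrable h μ)
    (hle : ∀ x, -f x ≤ -(a * g x) + b * h x) :
    -∫ x, f x ∂μ ≤ -(a * ∫ x, g x ∂μ) + b * ∫ x, h x ∂μ := by
  have h1 : ∫ x, a * g x ∂μ ≤ ∫ x, (f x + b * h x) ∂μ :=
    integral_mono (hg.const_mul a) (hf.add (hh.const_mul b)) fun x => by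
      have := hle x
      simp only
      linarith
  rw [integral_add hf (hh.const_mul b), integral_const_mul, integral_const_mul] at h1
  linarith

theorem MT1_cmp' {f g h : ℝ → ℝ} {a b u v : ℝ} (huv : u ≤ v)
    (hf : IntervalIntegrable f volume u v) (hg : IntervalIntegrable g volume u v)
    (hh : IntervalIntegrable h volume u v) (hle : ∀ x ∈ Icc u v, -f x ≤ -(a * g x) + b * h x) :
    -∫ x in u..v, f x ≤ -(a * ∫ x in u..v, g x) + b * ∫ x in u..v, h x := by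
  have h1 : ∫ x in u..v, a * g x ≤ ∫ x in u..v, (f x + b * h x) :=
    intervalIntegral.integral_mono_on huv (hg.const_mul a) (hf.add (hh.const_mul b))
      fun x hx => by linarith [hle x hx]
  rw [intervalIntegral.integral_add hf (hh.const_mul b), intervalIntegral.integral_const_mul,
    intervalIntegral.integral_const_mul] at h1
  linarith

theorem MLF (h1 : St_GAU) (_h2 : St_AVD) (h3 : St_SWAP) (h4 : St_HEAT) (h5 : St_LOG) :
    St_MLF := by
  intro N A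
  obtain ⟨C, hC0, hC⟩ := MT1_ker h1 N
  refine ⟨C * (4 * N * A ^ 2) * C, by positivity, ?_⟩
  intro c β e L W ρ κ j n hc hL hF k ε η hε hA hη
  obtain ⟨l1', l2', -, -, -, -, -, -, l9⟩ := h5 N c β e L ρ hc hF.den
  have sg1 := l2'.2.2.2.2.1
  obtain ⟨a1, a2, a3⟩ := MT1_red h3 L (h1 N).1.2.2.1 (sg1.mul l2'.2.2.2.2.2.2.1)
    (MT1_int hη hF.den.1) (c.τ0 - k) 0
  obtain ⟨b1, b2, b3⟩ := MT1_red h3 L (h1 N).1.2.1 sg1 (MT1_int hη hF.kden.1) (c.τ0 - k) 0
  simp only [fI, fWP]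
  rw [a2, b2, ← intervalIntegral.integral_const_mul]
  refine intervalIntegral.integral_mono_on (sub_one_lt _).le a1 (b1.const_mul _) fun τ hτ => ?_
  rw [(a3 τ).2, (b3 τ).2, mul_left_comm, ← integral_const_mul (C * (4 * N * A ^ 2) * C)]
  refine mul_le_mul_of_nonneg_left (integral_mono (a3 τ).1 ((b3 τ).1.const_mul _) fun z => ?_)
    (Real.exp_pos _).le
  have u1 := MT1_up h1 h4 hL hε hA hη hτ.2 hF.den (fun ξ => (hC ξ).1) z
  have u2 := MT1_dn h1 h4 hL hε hA hη hτ.2 hF.kden (fun ξ => (hC ξ).2.1) z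
  have u3 := (l9 A W κ j n hL hF).2 τ z
  have u4 : 0 ≤ g1 c L ρ τ z := (hc.prof.r1 _).1
  have u5 : 0 ≤ s1 c L ρ τ z := Finset.sum_nonneg fun _ _ => sq_nonneg _
  have u6 : k0 L ρ τ z ≤ uu c L ρ τ z :=
    le_add_of_nonneg_right (mul_pos hc.δ0 (Real.exp_pos _)).le
  have p' := (hη.2.1 (W z)).1
  simp only [zero_mul, Real.exp_zero, one_mul]
  calc _ ≤ g1 c L ρ τ z * s1 c L ρ τ z * (C * η (W z) * uu c L ρ τ z) :=
        mul_le_mul_of_nonneg_left (u1.trans (mul_le_mul_of_nonneg_left u6 (by positivity)))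
          (mul_nonneg u4 u5)
    _ = C * η (W z) * g1 c L ρ τ z * (uu c L ρ τ z * s1 c L ρ τ z) := by ring
    _ ≤ C * η (W z) * g1 c L ρ τ z * (4 * N * A ^ 2 * k0 L κ τ z) :=
        mul_le_mul_of_nonneg_left u3 (by positivity)
    _ = C * (4 * N * A ^ 2) * g1 c L ρ τ z * (η (W z) * k0 L κ τ z) := by ring
    _ ≤ C * (4 * N * A ^ 2) * g1 c L ρ τ z * (C * km L gp (fun x => κ x * η x) τ z) :=
        mul_le_mul_of_nonneg_left u2 (by positivity)
    _ = _ := by ring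

theorem MT1 (h1 : St_GAU) (_h2 : St_AVD) (h3 : St_SWAP) (h4 : St_HEAT) (h5 : St_LOG) :
    St_MT1 := by
  intro N A
  obtain ⟨C, hC0, hC⟩ := MT1_ker h1 N
  refine ⟨1 / (2 * C), 8 * N * A ^ 2 * C, by positivity, by positivity, ?_⟩
  intro c β e L W ρ κ j n hc hL hF k ε η hε hA hη
  obtain ⟨l1', l2', -, -, -, -, -, l8, -⟩ := h5 N c β e L ρ hc hF.den
  have sg1 := l2'.2.2.2.2.1
  have syd := (l8 j hF.ij).2
  have gh := (h1 N).1.2.2.2.1
  obtain ⟨a1, a2, a3⟩ := MT1_red h3 L (h1 N).1.2.2.1 (sg1.mul (syd.pow 2))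
    (MT1_int hη hF.den.1) (c.τ0 - k) 2
  obtain ⟨b1, b2, b3⟩ := MT1_red h3 L (h1 N).1.2.1 sg1 (MT1_int hη hF.kden.1) (c.τ0 - k) 0
  have d := fun i => MT1_red h3 L (gh (L (ee i))) (sg1.mul syd) (MT1_int hη (hF.ij i))
    (c.τ0 - k) 1
  simp only [fQ, fWP, fPt, mul_comm (η _) (j _ _)]
  rw [a2, b2, Finset.sum_congr rfl fun i _ => (d i).2.1,
    ← intervalIntegral.integral_finsetSum fun i _ => (d i).1]
  have d1 := IntervalIntegrable.sum Finset.univ fun i _ => (d i).1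
  refine MT1_cmp' (sub_one_lt _).le (by rwa [Finset.sum_fn] at d1) a1 b1 fun τ hτ => ?_
  rw [(a3 τ).2, (b3 τ).2, Finset.sum_congr rfl fun i _ => ((d i).2.2 τ).2, ← Finset.mul_sum,
    ← integral_finsetSum _ fun i _ => ((d i).2.2 τ).1, mul_left_comm (1 / (2 * C)),
    mul_left_comm (_ * ε ^ 2), ← mul_neg (Real.exp _), ← mul_neg (Real.exp _), ← mul_add]
  refine mul_le_mul_of_nonneg_left (MT1_cmp (integrable_finsetSum _ fun i _ => ((d i).2.2 τ).1)
    (a3 τ).1 (b3 τ).1 fun z => ?_) (Real.exp_pos _).le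
  have u1 := MT1_up h1 h4 hL hε hA hη hτ.2 hF.den (fun ξ => (hC ξ).1) z
  have u2 := MT1_err h1 h4 hL hε hA hη hτ.2 hF hC0.le (fun ξ => (hC ξ).2.2) z
  have u4 : 0 ≤ g1 c L ρ τ z := (hc.prof.r1 _).1
  have u6 : k0 L ρ τ z ≤ uu c L ρ τ z :=
    le_add_of_nonneg_right (mul_pos hc.δ0 (Real.exp_pos _)).le
  have u7 := (l1' τ z).2.2
  have p' := (hη.2.1 (W z)).1
  have k0' : 0 ≤ km L gp (fun x => κ x * η x) τ z := integral_nonneg fun x =>
    mul_nonneg (mul_nonneg (hF.kden.2 x) (hη.2.1 x).1.le) (gp_pos _).le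
  have e1 : ∑ i, km L (he1 (L (ee i))) (j i) τ z =
      Real.exp τ * (yd c L ρ j τ z * uu c L ρ τ z) := by
    rw [yd, div_mul_cancel₀ _ u7.ne', ud]
    simp only [k1, neg_mul, Finset.sum_neg_distrib, neg_neg, ← Finset.mul_sum]
    rw [← mul_assoc, ← Real.exp_add, add_neg_cancel, Real.exp_zero, one_mul]
  have e2 : Real.exp (2 * τ) = Real.exp τ ^ 2 := by rw [← Real.exp_nat_mul]; norm_num
  simp only [zero_mul, Real.exp_zero, one_mul, ← Finset.mul_sum, e2]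
  rw [e1] at u2
  set T := ∑ i, km L (he1 (L (ee i))) (fun x => j i x * η x) τ z
  set K := km L gp (fun x => κ x * η x) τ z
  set Q := km L gq (fun x => ρ x * η x) τ z
  set r := Real.exp τ
  set y := yd c L ρ j τ z
  set u := uu c L ρ τ z
  set g := g1 c L ρ τ z
  set h := η (W z)
  have v1 : (r * y * (T - h * (r * (y * u)))) ^ 2 ≤
      (r * y) ^ 2 * h * u * (16 * N * A ^ 2 * C * ε ^ 2 * K) :=
    calc _ = (r * y) ^ 2 * (T - h * (r * (y * u))) ^ 2 := by ring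
      _ ≤ (r * y) ^ 2 * (u * (16 * N * A ^ 2 * C * ε ^ 2 * h * K)) :=
          mul_le_mul_of_nonneg_left
            (u2.trans (mul_le_mul_of_nonneg_right u6 (by positivity))) (sq_nonneg _)
      _ = _ := by ring
  have v2 := two_abs_le (by positivity) (by positivity) v1 one_pos
  have v3 := neg_abs_le (r * y * (T - h * (r * (y * u))))
  have v4 : 1 / (2 * C) * Q ≤ h * u / 2 := by
    rw [one_div, inv_mul_le_iff₀ (by positivity)]
    nlinarith [mul_le_mul_of_nonneg_left u6 (mul_pos hC0 p').le]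
  have v5 := mul_le_mul_of_nonneg_left v4 (sq_nonneg (r * y))
  have v6 : -(r * y * T) ≤ -((r * y) ^ 2 * (1 / (2 * C) * Q)) + 8 * N * A ^ 2 * C * ε ^ 2 * K := by
    nlinarith
  nlinarith [mul_le_mul_of_nonneg_left v6 u4]

end Pool.Agent.Lib.MP_13801a_an.ND
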