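import Mathlib
import Pool.Agent.Lib.MP_13801a_an.ND.StsG

/-! A finite family of centres with adapted changes of variables. -/

open Matrix Finset

namespace Pool.Agent.Lib.MP_13801a_an.ND

variable {N : ℕ}

/-- A matrix with prescribed eigenvectors and eigenvalues. -/
def NET_cj (U : Mt N) (d : Fin N → ℝ) : Mt N := U * diagonal d * Uᵀ

theorem NET_spec {B : Mt N} (h : B.IsHermitian) :
    ∃ (U : Mt N) (l : Fin N → ℝ), Uᵀ * U = 1 ∧ U * Uᵀ = 1 ∧ B = NET_cj U l := by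
  refine ⟨h.eigenvectorUnitary, h.eigenvalues, ?_, ?_, ?_⟩
  · have := Unitary.coe_star_mul_self h.eigenvectorUnitary
    simpa [star_eq_conjTranspose] using this
  · have := Unitary.coe_mul_star_self h.eigenvectorUnitary
    simpa [star_eq_conjTranspose] using this
  · have := h.spectral_theorem
    rw [Unitary.conjStarAlgAut_apply] at this
    simpa [NET_cj, star_eq_conjTranspose, Function.comp_def] using this

theorem NET_mul {U : Mt N} (h : Uᵀ * U = 1) (d d' : Fin N → ℝ) :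
    NET_cj U d * NET_cj U d' = NET_cj U fun i => d i * d' i := by
  unfold NET_cj
  rw [← diagonal_mul_diagonal]
  calc U * diagonal d * Uᵀ * (U * diagonal d' * Uᵀ)
      = U * diagonal d * (Uᵀ * U) * diagonal d' * Uᵀ := by simp only [Matrix.mul_assoc]
    _ = _ := by rw [h]; simp only [Matrix.mul_assoc, Matrix.one_mul]

theorem NET_const {U : Mt N} (h : U * Uᵀ = 1) (c : ℝ) :
    NET_cj U (fun _ => c) = c • (1 : Mt N) := by
  unfold NET_cj
  rw [← smul_one_eq_diagonal, Matrix.mul_smul, Matrix.mul_one, Matrix.smul_mul, h]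

theorem NET_add (U : Mt N) (d d' : Fin N → ℝ) :
    NET_cj U d + NET_cj U d' = NET_cj U fun i => d i + d' i := by
  unfold NET_cj
  rw [← diagonal_add, Matrix.mul_add, Matrix.add_mul]

theorem NET_sub (U : Mt N) (d d' : Fin N → ℝ) :
    NET_cj U d - NET_cj U d' = NET_cj U fun i => d i - d' i := by
  unfold NET_cj
  rw [← diagonal_sub, Matrix.mul_sub, Matrix.sub_mul]

theorem NET_iv2 {U : Mt N} (h : Uᵀ * U = 1) (h' : U * Uᵀ = 1) {d : Fin N → ℝ}
    (hd : ∀ i, d i ≠ 0) : iv2 (NET_cj U d) = NET_cj U fun i => (d i)⁻¹ * (d i)⁻¹ := by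
  have e : (NET_cj U d)⁻¹ = NET_cj U fun i => (d i)⁻¹ := by
    refine inv_eq_right_inv ?_
    rw [NET_mul h]
    simp only [mul_inv_cancel₀ (hd _)]
    rw [NET_const h', one_smul]
  rw [iv2, e, NET_mul h]

theorem NET_pos {U : Mt N} (h : Uᵀ * U = 1) {d : Fin N → ℝ} (hd : (NET_cj U d).PosDef)
    (i : Fin N) : 0 < d i := by
  have hU : IsUnit U := IsUnit.of_mul_eq_one_right _ h
  have h1 := hd.conjTranspose_mul_mul_same (B := U) (mulVec_injective_of_isUnit hU)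
  have e : Uᴴ * NET_cj U d * U = diagonal d := by
    rw [conjTranspose_eq_transpose_of_trivial, NET_cj]
    calc Uᵀ * (U * diagonal d * Uᵀ) * U = (Uᵀ * U) * diagonal d * (Uᵀ * U) := by
          simp only [Matrix.mul_assoc]
      _ = _ := by rw [h, Matrix.one_mul, Matrix.mul_one]
  rw [e] at h1
  exact posDef_diagonal_iff.1 h1 i

theorem NET_trace {U : Mt N} (h : Uᵀ * U = 1) (d : Fin N → ℝ) :
    (NET_cj U d).trace = ∑ i, d i := by
  rw [NET_cj, trace_mul_comm, ← Matrix.mul_assoc, h, Matrix.one_mul, trace_diagonal]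

theorem NET_entry {U : Mt N} (h : U * Uᵀ = 1) (i k : Fin N) : |U i k| ≤ 1 := by
  have h1 : ∑ j, U i j * U i j = 1 := by
    have := congrFun (congrFun h i) i
    simpa [Matrix.mul_apply] using this
  have h2 : U i k * U i k ≤ ∑ j, U i j * U i j :=
    single_le_sum (f := fun j => U i j * U i j) (fun j _ => mul_self_nonneg _) (mem_univ k)
  rw [abs_le]
  constructor <;> nlinarith

theorem NET_ip (A B : Mt N) : ip A B = (Aᵀ * B).trace := by
  simp only [ip, trace, Matrix.diag, Matrix.mul_apply, transpose_apply]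
  exact sum_comm

theorem NET_ip_cj {U : Mt N} (h : Uᵀ * U = 1) (o s : Fin N → ℝ) (B : Mt N) :
    ip (NET_cj U o) ((diagonal s * Uᵀ)ᵀ * B * (diagonal s * Uᵀ)) =
      ∑ i, s i * o i * s i * B i i := by
  rw [NET_ip, NET_cj]
  simp only [transpose_mul, transpose_transpose, diagonal_transpose]
  have e : U * (diagonal o * Uᵀ) * (U * diagonal s * B * (diagonal s * Uᵀ)) =
      U * (diagonal o * (Uᵀ * U) * diagonal s * B * diagonal s * Uᵀ) := by
    simp only [Matrix.mul_assoc]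
  rw [e, h, Matrix.mul_one, trace_mul_comm, Matrix.mul_assoc _ Uᵀ U, h, Matrix.mul_one,
    trace_mul_comm, ← Matrix.mul_assoc, ← Matrix.mul_assoc, diagonal_mul_diagonal,
    diagonal_mul_diagonal]
  simp [trace, diagonal_mul]

theorem NET_norm {U : Mt N} (h : U * Uᵀ = 1) {s : Fin N → ℝ} (hs : ∀ i, s i ^ 2 ≤ 4) (x : E N) :
    ‖ap (diagonal s * Uᵀ) x‖ ≤ 2 * ‖x‖ := by
  have h1 : ∑ i, (Uᵀ *ᵥ x.ofLp) i ^ 2 = ∑ i, x i ^ 2 := by
    have e : (Uᵀ *ᵥ x.ofLp) ⬝ᵥ (Uᵀ *ᵥ x.ofLp) = x.ofLp ⬝ᵥ x.ofLp := by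
      rw [dotProduct_mulVec, ← mulVec_transpose, transpose_transpose, mulVec_mulVec, h,
        one_mulVec]
    simpa only [dotProduct, sq] using e
  have h2 : ∀ i, ap (diagonal s * Uᵀ) x i = s i * (Uᵀ *ᵥ x.ofLp) i := fun i => by
    rw [ap_apply]
    simp only [diagonal_mul, mulVec, dotProduct, mul_sum, mul_assoc]
  refine (pow_le_pow_iff_left₀ (norm_nonneg _) (by positivity) two_ne_zero).1 ?_
  rw [mul_pow, EuclideanSpace.real_norm_sq_eq, EuclideanSpace.real_norm_sq_eq, ← h1, mul_sum]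
  refine sum_le_sum fun i _ => ?_
  rw [h2, mul_pow]
  exact mul_le_mul_of_nonneg_right (by linarith [hs i]) (sq_nonneg _)

theorem NET_ap_mul (A B : Mt N) (x : E N) : ap A (ap B x) = ap (A * B) x := by
  simp only [ap, map_mul]
  rfl

theorem NET_ap_one (x : E N) : ap (1 : Mt N) x = x := by
  simp only [ap, map_one]
  rfl

theorem NET_herm {B : Mt N} (h : (1 - B).PosDef) : B.IsHermitian := by
  have := isHermitian_one.sub h.1
  rwa [sub_sub_cancel] at this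

theorem NET_dec {ε : ℝ} {B : Mt N} (p1 : (B + ε • (1 : Mt N)).PosDef) (p2 : (1 - B).PosDef) :
    ∃ (U : Mt N) (l : Fin N → ℝ), Uᵀ * U = 1 ∧ U * Uᵀ = 1 ∧ B = NET_cj U l ∧
      B + ε • (1 : Mt N) = NET_cj U (fun i => l i + ε) ∧ 1 - B = NET_cj U (fun i => 1 - l i) ∧
      ∀ i, 0 < l i + ε ∧ 0 < 1 - l i := by
  obtain ⟨U, l, h, h', e⟩ := NET_spec (NET_herm p2)
  have e1 : B + ε • (1 : Mt N) = NET_cj U (fun i => l i + ε) := by
    rw [← NET_add, NET_const h', ← e]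
  have e2 : 1 - B = NET_cj U (fun i => 1 - l i) := by
    rw [← NET_sub, NET_const h', ← e, one_smul]
  exact ⟨U, l, h, h', e, e1, e2, fun i => ⟨NET_pos h (e1 ▸ p1) i, NET_pos h (e2 ▸ p2) i⟩⟩

theorem NET_bdd {ε : ℝ} (hε : ε ≤ 1) {B : Mt N} (p1 : (B + ε • (1 : Mt N)).PosDef)
    (p2 : (1 - B).PosDef) (i j : Fin N) : |B i j| ≤ N := by
  obtain ⟨U, l, -, h', e, -, -, hl⟩ := NET_dec p1 p2
  rw [e, NET_cj, Matrix.mul_apply]
  refine (abs_sum_le_sum_abs _ _).trans ?_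
  calc ∑ k, |(U * diagonal l) i k * Uᵀ k j| ≤ ∑ _k : Fin N, (1 : ℝ) := by
        refine sum_le_sum fun k _ => ?_
        rw [mul_diagonal, transpose_apply, abs_mul, abs_mul]
        have h1 : |l k| ≤ 1 := abs_le.2 ⟨by linarith [(hl k).1], by linarith [(hl k).2]⟩
        exact mul_le_one₀ (mul_le_one₀ (NET_entry h' i k) (abs_nonneg _) h1) (abs_nonneg _)
          (NET_entry h' j k)
    _ = N := by simp

theorem NET_one {ε κ : ℝ} (hε0 : 0 < ε) (hε : ε ≤ 1) (hκ : 0 < κ) {Bc : Mt N}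
    (p1 : (Bc + ε • (1 : Mt N)).PosDef) (p2 : (1 - Bc).PosDef) :
    ∃ (L W : Mt N) (h : Fin N → ℝ), L * W = 1 ∧ W * L = 1 ∧ (∀ x, ‖ap L x‖ ≤ 2 * ‖x‖) ∧
      (∀ i, 0 ≤ h i ∧ h i ≤ 1) ∧
      (∃ M : ℕ, (M : ℝ) ≤ Bc.trace + N * ε ∧ ∑ i, h i ≤ M + N * (4 * κ / ε ^ 2)) ∧
      ∀ B : Mt N, κ * ip (iv2 (1 - Bc)) (Lᵀ * B * L) = ∑ i, h i * B i i ∧
        ip (iv2 (Bc + ε • (1 : Mt N))) (Lᵀ * B * L) = B.trace - ∑ i, h i * B i i := by
  classical
  obtain ⟨U, l, hU, hU', e, e1, e2, hl⟩ := NET_dec p1 p2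
  set o : Fin N → ℝ := fun i => (l i + ε)⁻¹ * (l i + ε)⁻¹ with ho
  set u : Fin N → ℝ := fun i => (1 - l i)⁻¹ * (1 - l i)⁻¹ with hu
  have o4 : ∀ i, 1 / 4 ≤ o i := fun i => by
    have h1 : (2 : ℝ)⁻¹ ≤ (l i + ε)⁻¹ := inv_anti₀ (hl i).1 (by linarith [(hl i).2])
    have := mul_le_mul h1 h1 (by norm_num) (by linarith)
    simp only [ho]
    linarith
  have u0 : ∀ i, 0 < κ * u i := fun i =>
    mul_pos hκ (mul_pos (inv_pos.2 (hl i).2) (inv_pos.2 (hl i).2))
  set σ : Fin N → ℝ := fun i => o i + κ * u i with hσ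
  have σ4 : ∀ i, 1 / 4 ≤ σ i := fun i => by
    simp only [hσ]
    linarith [o4 i, u0 i]
  have σ0 : ∀ i, 0 < σ i := fun i => by linarith [σ4 i]
  have r0 : ∀ i, 0 < √(σ i) := fun i => Real.sqrt_pos.2 (σ0 i)
  have rr : ∀ i, (√(σ i))⁻¹ * (√(σ i))⁻¹ = (σ i)⁻¹ := fun i => by
    rw [← mul_inv, Real.mul_self_sqrt (σ0 i).le]
  have hh : ∀ i, 0 ≤ κ * u i / σ i ∧ κ * u i / σ i ≤ 1 := fun i =>
    ⟨div_nonneg (u0 i).le (σ0 i).le, (div_le_one (σ0 i)).2 (by
      simp only [hσ]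
      linarith [o4 i])⟩
  refine ⟨diagonal (fun i => (√(σ i))⁻¹) * Uᵀ, U * diagonal fun i => √(σ i),
    fun i => κ * u i / σ i, ?_, ?_, NET_norm hU' fun i => ?_, hh, ?_, fun B => ⟨?_, ?_⟩⟩
  · rw [Matrix.mul_assoc, ← Matrix.mul_assoc Uᵀ, hU, Matrix.one_mul, diagonal_mul_diagonal]
    simp only [inv_mul_cancel₀ (r0 _).ne', diagonal_one]
  · rw [Matrix.mul_assoc, ← Matrix.mul_assoc (diagonal _), diagonal_mul_diagonal]
    simp only [mul_inv_cancel₀ (r0 _).ne', diagonal_one, Matrix.one_mul, hU']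
  · rw [sq, rr, inv_le_comm₀ (σ0 i) (by norm_num)]
    linarith [σ4 i]
  · refine ⟨#{i | 1 - ε < l i}, ?_, ?_⟩
    · rw [e, NET_trace hU, card_filter]
      push_cast
      calc ∑ i, (if 1 - ε < l i then (1 : ℝ) else 0) ≤ ∑ i, (l i + ε) := by
            refine sum_le_sum fun i _ => ?_
            split_ifs with h
            · linarith
            · exact (hl i).1.le
        _ = _ := by simp [sum_add_distrib]
    · rw [card_filter]
      push_cast
      have t0 : 0 ≤ 4 * κ / ε ^ 2 := by positivity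
      calc ∑ i, κ * u i / σ i ≤ ∑ i, ((if 1 - ε < l i then (1 : ℝ) else 0) + 4 * κ / ε ^ 2) := by
            refine sum_le_sum fun i _ => ?_
            split_ifs with h
            · linarith [(hh i).2]
            · have h1 : (1 - l i)⁻¹ ≤ ε⁻¹ := inv_anti₀ hε0 (by linarith [not_lt.1 h])
              have h2 : u i ≤ ε⁻¹ * ε⁻¹ :=
                mul_le_mul h1 h1 (inv_pos.2 (hl i).2).le (inv_pos.2 hε0).le
              have h3 : κ * u i / σ i ≤ κ * u i / (1 / 4) :=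
                div_le_div_of_nonneg_left (u0 i).le (by norm_num) (σ4 i)
              have h4 : 4 * κ / ε ^ 2 = 4 * (κ * (ε⁻¹ * ε⁻¹)) := by field_simp
              have h5 := mul_le_mul_of_nonneg_left h2 hκ.le
              rw [zero_add, h4]
              linarith
        _ = _ := by simp [sum_add_distrib]
  · rw [e2, NET_iv2 hU hU' fun i => (hl i).2.ne', NET_ip_cj hU, mul_sum]
    refine sum_congr rfl fun i _ => ?_
    rw [mul_right_comm (√(σ i))⁻¹, rr]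
    change κ * ((σ i)⁻¹ * u i * B i i) = κ * u i / σ i * B i i
    rw [div_eq_mul_inv]
    ring
  · rw [e1, NET_iv2 hU hU' fun i => (hl i).1.ne', NET_ip_cj hU, trace, ← sum_sub_distrib]
    refine sum_congr rfl fun i _ => ?_
    rw [mul_right_comm (√(σ i))⁻¹, rr, diag_apply]
    have h1 : (σ i)⁻¹ * o i = 1 - κ * u i / σ i := by
      have := (σ0 i).ne'
      rw [eq_sub_iff_add_eq, div_eq_inv_mul, ← mul_add]
      exact inv_mul_cancel₀ this
    change (σ i)⁻¹ * o i * B i i = _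
    rw [h1]
    ring

theorem NET_n1 {L B : Mt N} {c : ℝ} (hL : ∀ x, ‖ap L x‖ ≤ 2 * ‖x‖) (hB : ∀ i j, |B i j| ≤ c) :
    n1 (Lᵀ * B * L) ≤ 4 * N ^ 4 * c := by
  have h1 : ∀ p i, |L p i| ≤ 2 := fun p i => by
    have h2 := hL (ee i)
    rw [norm_ee, mul_one] at h2
    rw [← ap_ee L p i, ← Real.norm_eq_abs]
    exact (PiLp.norm_apply_le _ p).trans h2
  have h2 : ∀ i j, |(Lᵀ * B * L) i j| ≤ N ^ 2 * (4 * c) := fun i j => by
    rw [Matrix.mul_apply]
    refine (abs_sum_le_sum_abs _ _).trans ?_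
    calc ∑ r, |(Lᵀ * B) i r * L r j| ≤ ∑ _r : Fin N, (N : ℝ) * (4 * c) := by
          refine sum_le_sum fun r _ => ?_
          have h3 : |(Lᵀ * B) i r| ≤ N * (2 * c) := by
            rw [Matrix.mul_apply]
            refine (abs_sum_le_sum_abs _ _).trans ?_
            calc ∑ p, |Lᵀ i p * B p r| ≤ ∑ _p : Fin N, 2 * c := by
                  refine sum_le_sum fun p _ => ?_
                  rw [abs_mul, transpose_apply]
                  exact mul_le_mul (h1 p i) (hB p r) (abs_nonneg _) (by norm_num)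
              _ = _ := by simp
          rw [abs_mul]
          have h4 := mul_le_mul h3 (h1 r j) (abs_nonneg _) ((abs_nonneg _).trans h3)
          linarith
      _ = _ := by simp; ring
  have := n1_le_of_abs h2
  linarith [show (N : ℝ) ^ 2 * (N ^ 2 * (4 * c)) = 4 * N ^ 4 * c by ring]

theorem NET_zero {ε Φ Ψ : ℝ} (hε0 : 0 < ε) (h1 : N / ε ≤ Φ) (h2 : N ≤ Ψ) :
    Dom ε Φ Ψ (0 : Mt N) := by
  have e : (ε • (1 : Mt N))⁻¹ = ε⁻¹ • (1 : Mt N) := by
    refine inv_eq_right_inv ?_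
    rw [Matrix.smul_mul, Matrix.one_mul, smul_smul, mul_inv_cancel₀ hε0.ne', one_smul]
  refine ⟨?_, ?_, ?_, ?_⟩
  · rw [zero_add]
    exact PosDef.one.smul hε0
  · rw [sub_zero]
    exact PosDef.one
  · rw [zero_add, e, trace_smul, trace_one, Fintype.card_fin, smul_eq_mul, ← div_eq_inv_mul]
    exact h1
  · rw [sub_zero, inv_one, trace_one, Fintype.card_fin]
    exact h2

theorem NET_fin {ε Φ Ψ δ : ℝ} (hN : 1 ≤ N) (hε : ε ≤ 1) (hδ : 0 < δ) :
    ∃ (m : ℕ) (Bc : Fin m → Mt N), (∀ a, Dom ε Φ Ψ (Bc a)) ∧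
      ∀ B, Dom ε Φ Ψ B → ∃ a, n1 (B - Bc a) ≤ δ := by
  have hN' : (1 : ℝ) ≤ N := by exact_mod_cast hN
  have hs : TotallyBounded {f : Fin N → Fin N → ℝ | Dom ε Φ Ψ (Matrix.of f)} := by
    refine (isCompact_closedBall (0 : Fin N → Fin N → ℝ) N).totallyBounded.subset fun f hf => ?_
    rw [mem_closedBall_zero_iff, pi_norm_le_iff_of_nonneg (by linarith)]
    intro i
    rw [pi_norm_le_iff_of_nonneg (by linarith)]
    intro j
    exact NET_bdd hε hf.p1 hf.p2 i j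
  obtain ⟨t, ht1, ht2, ht3⟩ := Metric.finite_approx_of_totallyBounded hs (δ / N ^ 2)
    (by positivity)
  obtain ⟨m, f, -, hf⟩ := ht2.fin_param
  refine ⟨m, fun a => Matrix.of (f a), fun a => ht1 (hf ▸ Set.mem_range_self a), fun B hB => ?_⟩
  have h1 := ht3 (show (Matrix.of.symm B) ∈ {f : Fin N → Fin N → ℝ | Dom ε Φ Ψ (Matrix.of f)}
    from hB)
  rw [Set.mem_iUnion₂] at h1
  obtain ⟨y, hy, h2⟩ := h1
  rw [← hf] at hy
  obtain ⟨a, rfl⟩ := hy
  refine ⟨a, (n1_le_of_abs (c := δ / N ^ 2) fun i j => ?_).trans (le_of_eq (by field_simp))⟩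
  have h3 := (dist_le_pi_dist _ _ j).trans
    ((dist_le_pi_dist _ _ i).trans (Metric.mem_ball.1 h2).le)
  rwa [Real.dist_eq] at h3

theorem NET : St_NET := by
  intro N q q' ε hN hq hq0 hqq hε0 hε
  have hN' : (1 : ℝ) ≤ N := by exact_mod_cast hN
  have hq' : (q : ℝ) ≤ N := by exact_mod_cast hq
  have hκ : 0 < ε ^ 2 * (q - q') / (16 * N) := by
    have : 0 < (q : ℝ) - q' := by linarith
    positivity
  refine ⟨_, hκ, fun Φ Ψ δ h1 h2 hδ => ⟨NET_zero hε0 h1 h2, ?_⟩⟩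
  obtain ⟨m, Bc, hD, hC⟩ := NET_fin (Φ := Φ) (Ψ := Ψ) hN hε hδ
  choose L W h hLW hWL hL hh hM hip using fun a => NET_one hε0 hε hκ (hD a).p1 (hD a).p2
  have hA : 0 ≤ ∑ a, ‖ap (W a)‖ := sum_nonneg fun _ _ => norm_nonneg _
  refine ⟨⟨m, 1 + ∑ a, ‖ap (W a)‖, L, W, Bc⟩, ⟨?_, fun a => ⟨by linarith, fun x => ?_,
    fun x => ?_, hL a, fun x => ?_⟩⟩, hD, hC, ?_⟩
  · obtain ⟨a, -⟩ := hC 0 (NET_zero hε0 h1 h2)
    exact a.pos
  · rw [NET_ap_mul, hLW, NET_ap_one]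
  · rw [NET_ap_mul, hWL, NET_ap_one]
  · refine ((ap (W a)).le_opNorm x).trans (mul_le_mul_of_nonneg_right ?_ (norm_nonneg _))
    have : ‖ap (W a)‖ ≤ ∑ a, ‖ap (W a)‖ :=
      single_le_sum (f := fun a => ‖ap (W a)‖) (fun _ _ => norm_nonneg _) (mem_univ a)
    change ‖ap (W a)‖ ≤ 1 + ∑ a, ‖ap (W a)‖
    linarith
  · intro a β e w S dF B he0 he hS
    change Fin m at a
    change n1 ((L a)ᵀ * B * L a) ≤ _ ∧ _ * ip (iv2 (1 - Bc a)) ((L a)ᵀ * B * L a) ≤ _ ∧
      -ip (iv2 (Bc a + _)) ((L a)ᵀ * B * L a) ≤ _ ∧ (_ → (Bc a).trace < _ →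
        -ip (iv2 (Bc a + _)) ((L a)ᵀ * B * L a) ≤ _)
    rw [(hip a B).1, (hip a B).2]
    have hs0 : 0 ≤ ∑ i, h a i := sum_nonneg fun i _ => (hh a i).1
    have hsN : ∑ i, h a i ≤ N := by
      calc ∑ i, h a i ≤ ∑ _i : Fin N, (1 : ℝ) := sum_le_sum fun i _ => (hh a i).2
        _ = N := by simp
    have w0 := hS.W0
    have S0 := hS.S0
    have lo := hS.lo
    have sub := hS.sub (h a) (hh a)
    have p1 : (∑ i, h a i) * w ≤ N * w := mul_le_mul_of_nonneg_right hsN w0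
    have p0 : 0 ≤ (∑ i, h a i) * w := mul_nonneg hs0 w0
    refine ⟨NET_n1 (hL a) hS.ent, ?_, ?_, fun h3 h4 => ?_⟩
    · refine le_trans ?_ p1
      rw [sum_mul]
      exact sum_le_sum fun i _ => mul_le_mul_of_nonneg_left (hS.up i) (hh a i).1
    · have p2 : e * ((∑ i, h a i) * w) ≤ 1 / 2 * ((∑ i, h a i) * w) :=
        mul_le_mul_of_nonneg_right he p0
      have p3 : 0 ≤ (N - q') * w := mul_nonneg (by linarith) w0
      linarith
    · obtain ⟨M, h5, h6⟩ := hM a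
      have h7 : (M : ℝ) + q < N + 1 := by nlinarith
      have h8 : M + q ≤ N := by
        have : M + q < N + 1 := by exact_mod_cast h7
        omega
      have h9 : (M : ℝ) + q ≤ N := by exact_mod_cast h8
      have e1 : (N : ℝ) * (4 * (ε ^ 2 * (q - q') / (16 * N)) / ε ^ 2) = (q - q') / 4 := by
        field_simp
        ring
      rw [e1] at h6
      have p2 : (∑ i, h a i) * w ≤ (N - q + (q - q') / 4) * w :=
        mul_le_mul_of_nonneg_right (by linarith) w0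
      have p3 : e * ((∑ i, h a i) * w) ≤ e * (N * w) := mul_le_mul_of_nonneg_left p1 he0
      have p4 : e * N * w ≤ (q - q') / 4 * w := mul_le_mul_of_nonneg_right h3 w0
      linarith

end Pool.Agent.Lib.MP_13801a_an.ND
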