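import Mathlib
import Pool.Agent.Lib.MP_13801a_an.ND.StsG

/-!
The barrier argument: the state of the game stays between the two barriers.
-/

open Matrix Finset

namespace Pool.Agent.Lib.MP_13801a_an.ND

variable {N : ℕ}

theorem PHASE_ip_sub (A A' B : Mt N) : ip (A - A') B = ip A B - ip A' B := by
  simp only [ip, Matrix.sub_apply, sub_mul, Finset.sum_sub_distrib]

theorem PHASE_ip_neg (A B : Mt N) : ip A (-B) = -ip A B := by
  simp only [ip, Matrix.neg_apply, mul_neg, Finset.sum_neg_distrib]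

theorem PHASE_ip_add (A B B' : Mt N) : ip A (B + B') = ip A B + ip A B' := by
  simp only [ip, Matrix.add_apply, mul_add, Finset.sum_add_distrib]

theorem PHASE_ip_smul (A B : Mt N) (c : ℝ) : ip A (c • B) = c * ip A B := by
  simp only [ip, Matrix.smul_apply, smul_eq_mul, Finset.mul_sum]
  exact Finset.sum_congr rfl fun i _ => Finset.sum_congr rfl fun j _ => by ring

theorem PHASE_ip_sum {ι : Type*} (s : Finset ι) (A : Mt N) (B : ι → Mt N) :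
    ip A (∑ a ∈ s, B a) = ∑ a ∈ s, ip A (B a) := by
  classical
  induction s using Finset.induction_on with
  | empty => simp [ip]
  | insert i s hi ih => rw [Finset.sum_insert hi, Finset.sum_insert hi, PHASE_ip_add, ih]

theorem PHASE_small {A t : ℝ} (hA : 0 ≤ A) (ht : 0 < t) :
    ∃ δ0 : ℝ, 0 < δ0 ∧ ∀ δ, δ ≤ δ0 → A * δ ≤ t := by
  refine ⟨t / (A + 1), by positivity, fun δ hδ => ?_⟩
  have h1 : A * δ ≤ A * (t / (A + 1)) := mul_le_mul_of_nonneg_left hδ hA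
  have h2 : A * (t / (A + 1)) ≤ t := by
    rw [← mul_div_assoc, div_le_iff₀ (by positivity)]
    nlinarith
  linarith

theorem PHASE_facts {q β e W S dF : ℝ} {B : Mt N} (h : Step q β e B W S dF) (hq : q ≤ N)
    (he : e ≤ 1 / 2) : S ≤ 4 * N * W - 2 * dF := by
  have h1 : B.trace ≤ N * W := by
    calc B.trace = ∑ i, B i i := rfl
      _ ≤ ∑ _i : Fin N, W := Finset.sum_le_sum fun i _ => h.up i
      _ = N * W := by simp
  have h2 := h.lo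
  have h3 : 0 ≤ (N - q) / 2 * W := mul_nonneg (by linarith) h.W0
  have h4 : S / 4 ≤ (1 - e) / 2 * S := by nlinarith [h.S0]
  linarith

theorem PHASE_cj_symm (L B : Mt N) (h : ∀ i j, B i j = B j i) (i j : Fin N) :
    (Lᵀ * B * L) i j = (Lᵀ * B * L) j i := by
  have hB : Bᵀ = B := by
    ext i j
    exact h j i
  have : (Lᵀ * B * L)ᵀ = Lᵀ * B * L := by
    rw [Matrix.transpose_mul, Matrix.transpose_mul, Matrix.transpose_transpose, hB,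
      Matrix.mul_assoc]
  exact (congrFun (congrFun this j) i)

theorem PHASE_dom_mono {ε Φ Ψ Φ' Ψ' : ℝ} {B : Mt N} (h : Dom ε Φ Ψ B) (h1 : Φ ≤ Φ')
    (h2 : Ψ ≤ Ψ') : Dom ε Φ' Ψ' B :=
  ⟨h.p1, h.p2, h.t1.trans h1, h.t2.trans h2⟩

theorem PHASE_dom_qf {ε Φ Ψ : ℝ} {B : Mt N} (h : Dom ε Φ Ψ B) (y : Fin N → ℝ) :
    qf B y ≤ ∑ i, y i ^ 2 := by
  have h1 := h.p2.posSemidef.dotProduct_mulVec_nonneg y
  rw [Matrix.sub_mulVec, Matrix.one_mulVec, dotProduct_sub, star_trivial] at h1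
  have h2 : y ⬝ᵥ y = ∑ i, y i ^ 2 := by simp [dotProduct, sq]
  have h3 : y ⬝ᵥ B *ᵥ y = qf B y := by
    simp only [dotProduct, Matrix.mulVec, qf, Finset.mul_sum]
    exact Finset.sum_congr rfl fun i _ => Finset.sum_congr rfl fun j _ => by ring
  linarith

theorem PHASE_dom_tr {ε Φ Ψ : ℝ} {B : Mt N} (h : Dom ε Φ Ψ B) : -(N * ε) ≤ B.trace := by
  have h1 := h.p1.posSemidef.trace_nonneg
  rw [Matrix.trace_add, Matrix.trace_smul, Matrix.trace_one] at h1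
  simp only [Fintype.card_fin, smul_eq_mul] at h1
  linarith

/-- The estimate for one mode. -/
theorem PHASE_mode {ε ε' M CR δ δ' c0 κ e W S dF zz t s θ : ℝ} {X Bc b : Mt N}
    (R : ∀ X : Mt N, X.PosDef → X⁻¹.trace ≤ M → (∀ i j, |iv2 X i j| ≤ M ^ 2) ∧
      ∀ Y : Mt N, Y.PosDef → Y⁻¹.trace ≤ M →
        ∀ i j, |iv2 X i j - iv2 Y i j| ≤ CR * M ^ 3 * n1 (X - Y))
    (hCR : 0 ≤ CR) (hM : 0 ≤ M) (hX : Dom ε' M M X) (hc : Dom ε' M M Bc)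
    (hn : n1 b ≤ 4 * N ^ 4 * (W + S)) (hκ : 0 < κ) (hk : κ * ip (iv2 (1 - Bc)) b ≤ N * W)
    (hA : -ip (iv2 (Bc + ε' • (1 : Mt N))) b ≤ N * W + e * S - dF / 2)
    (hB : Bc.trace < t - ε / 2 →
      -ip (iv2 (Bc + ε' • (1 : Mt N))) b ≤ -(c0 * W) + e * S - dF / 2)
    (hz0 : 0 ≤ zz) (hz : t - ε ≤ X.trace → zz = 1) (hδ : 2 * N * δ ≤ ε / 2) (hδ0 : 0 ≤ δ)
    (hδ' : δ' = CR * M ^ 3 * (2 * N * δ) * (4 * N ^ 4)) (hW : 0 ≤ W) (hS : 0 ≤ S)
    (hS1 : S ≤ 4 * N * W - 2 * dF) (hc0 : 0 ≤ c0) (hc1 : c0 ≤ N)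
    (hd : δ' * (1 + 4 * N) ≤ c0 / 4) (he0 : 0 ≤ e) (he : 4 * N * e ≤ c0 / 4)
    (hs0 : 0 ≤ s) (hs1 : s ≤ 1) (hθ : 0 ≤ θ) (hs : 2 * N * δ ≤ n1 (X - Bc) → s ≤ θ) :
    s * -ip (iv2 (X + ε' • (1 : Mt N))) b ≤ -(c0 / 2 * (s * W)) - (1 / 2 + 2 * (e + δ')) * (s * dF)
      + (N + c0) * (zz * W) + θ * (4 * N ^ 4 * M ^ 2 + 2 * N) * (W + S) ∧
    s * ip (iv2 (1 - X)) b ≤ (N / κ + δ' * (1 + 4 * N)) * (s * W) - 2 * δ' * (s * dF)
      + θ * (4 * N ^ 4 * M ^ 2 + 2 * N) * (W + S) := by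
  have hN : (0 : ℝ) ≤ N := Nat.cast_nonneg N
  have hδ'0 : 0 ≤ δ' := by rw [hδ']; positivity
  set Far : ℝ := 4 * N ^ 4 * M ^ 2 + 2 * N with hFar
  have hFar0 : 0 ≤ Far := by positivity
  have hWS : 0 ≤ W + S := by linarith
  have hNκ : 0 ≤ (N : ℝ) / κ := by positivity
  have hzW : 0 ≤ zz * W := mul_nonneg hz0 hW
  -- it suffices to prove the bounds with an indicator
  suffices H : ∃ I : ℝ, 0 ≤ I ∧ s * I ≤ θ * Far ∧
      -ip (iv2 (X + ε' • (1 : Mt N))) b ≤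
        -(c0 * W) + e * S - dF / 2 + δ' * (W + S) + (N + c0) * (zz * W) + I * (W + S) ∧
      ip (iv2 (1 - X)) b ≤ N / κ * W + δ' * (W + S) + I * (W + S) by
    obtain ⟨I, hI0, hI, h1, h2⟩ := H
    have e1 : (e + δ') * S ≤ (e + δ') * (4 * N * W - 2 * dF) :=
      mul_le_mul_of_nonneg_left hS1 (by linarith)
    have e2 : δ' * S ≤ δ' * (4 * N * W - 2 * dF) := mul_le_mul_of_nonneg_left hS1 hδ'0
    have e3 : δ' * (1 + 4 * N) * W ≤ c0 / 4 * W := mul_le_mul_of_nonneg_right hd hW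
    have e4 : 4 * N * e * W ≤ c0 / 4 * W := mul_le_mul_of_nonneg_right he hW
    have h1' : -ip (iv2 (X + ε' • (1 : Mt N))) b ≤ -(c0 / 2 * W) - (1 / 2 + 2 * (e + δ')) * dF
        + (N + c0) * (zz * W) + I * (W + S) := by linarith
    have h2' : ip (iv2 (1 - X)) b ≤ (N / κ + δ' * (1 + 4 * N)) * W - 2 * δ' * dF
        + I * (W + S) := by linarith
    have f1 := mul_le_mul_of_nonneg_left h1' hs0
    have f2 := mul_le_mul_of_nonneg_left h2' hs0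
    have f3 : s * I * (W + S) ≤ θ * Far * (W + S) := mul_le_mul_of_nonneg_right hI hWS
    have f4 : s * ((N + c0) * (zz * W)) ≤ 1 * ((N + c0) * (zz * W)) :=
      mul_le_mul_of_nonneg_right hs1 (by positivity)
    constructor <;> linarith
  obtain ⟨a1, a2⟩ := R _ hX.p1 hX.t1
  obtain ⟨a3, a4⟩ := R _ hX.p2 hX.t2
  by_cases hfar : 2 * N * δ ≤ n1 (X - Bc)
  · refine ⟨Far, hFar0, mul_le_mul_of_nonneg_right (hs hfar) hFar0, ?_, ?_⟩
    · have g1 := abs_ip_le a1 b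
      have g2 : M ^ 2 * n1 b ≤ M ^ 2 * (4 * N ^ 4 * (W + S)) :=
        mul_le_mul_of_nonneg_left hn (by positivity)
      have g3 := neg_abs_le (ip (iv2 (X + ε' • (1 : Mt N))) b)
      have g4 : c0 * W ≤ N * W := mul_le_mul_of_nonneg_right hc1 hW
      have g5 : 0 ≤ e * S := mul_nonneg he0 hS
      have g6 : 0 ≤ δ' * (W + S) := mul_nonneg hδ'0 hWS
      have g7 : 0 ≤ (N + c0) * (zz * W) := by positivity
      have g8 : 0 ≤ N * S := mul_nonneg hN hS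
      have g9 : Far * (W + S) = M ^ 2 * (4 * N ^ 4 * (W + S)) + 2 * (N * W) + 2 * (N * S) := by
        rw [hFar]; ring
      linarith
    · have g1 := abs_ip_le a3 b
      have g2 : M ^ 2 * n1 b ≤ M ^ 2 * (4 * N ^ 4 * (W + S)) :=
        mul_le_mul_of_nonneg_left hn (by positivity)
      have g3 := le_abs_self (ip (iv2 (1 - X)) b)
      have g6 : 0 ≤ δ' * (W + S) := mul_nonneg hδ'0 hWS
      have g7 : 0 ≤ N / κ * W := mul_nonneg hNκ hW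
      have g8 : 0 ≤ N * (W + S) := mul_nonneg hN hWS
      have g9 : Far * (W + S) = M ^ 2 * (4 * N ^ 4 * (W + S)) + 2 * (N * (W + S)) := by
        rw [hFar]; ring
      linarith
  · have hnear : n1 (X - Bc) ≤ 2 * N * δ := (not_le.1 hfar).le
    have key : ∀ Y Y' : Mt N, (∀ i j, |iv2 Y i j - iv2 Y' i j| ≤ CR * M ^ 3 * n1 (X - Bc)) →
        |ip (iv2 Y) b - ip (iv2 Y') b| ≤ δ' * (W + S) := fun Y Y' h => by
      rw [← PHASE_ip_sub]
      have g1 := abs_ip_le (A := iv2 Y - iv2 Y') (c := CR * M ^ 3 * (2 * N * δ))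
        (fun i j => (h i j).trans (mul_le_mul_of_nonneg_left hnear (by positivity))) b
      have g2 : CR * M ^ 3 * (2 * N * δ) * n1 b ≤
          CR * M ^ 3 * (2 * N * δ) * (4 * N ^ 4 * (W + S)) :=
        mul_le_mul_of_nonneg_left hn (by positivity)
      calc _ ≤ _ := g1.trans g2
        _ = δ' * (W + S) := by rw [hδ']; ring
    have k1 := key (X + ε' • (1 : Mt N)) (Bc + ε' • (1 : Mt N)) fun i j => by
      have := a2 _ hc.p1 hc.t1 i j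
      rwa [add_sub_add_right_eq_sub] at this
    have k2 := key (1 - X) (1 - Bc) fun i j => by
      have := a4 _ hc.p2 hc.t2 i j
      rwa [sub_sub_sub_cancel_left, n1_sub_comm] at this
    refine ⟨0, le_rfl, by rw [mul_zero]; positivity, ?_, ?_⟩
    · have g1 := (abs_le.1 k1).1
      by_cases hdeep : Bc.trace < t - ε / 2
      · have g2 := hB hdeep
        have g7 : 0 ≤ (N + c0) * (zz * W) := by positivity
        linarith
      · have g2 := (abs_le.1 (abs_trace_le (X - Bc))).1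
        rw [Matrix.trace_sub] at g2
        have g3 : zz = 1 := hz (by linarith [not_lt.1 hdeep])
        rw [g3]
        linarith
    · have g1 := (abs_le.1 k2).2
      have g2 : ip (iv2 (1 - Bc)) b ≤ N / κ * W := by
        rw [div_mul_eq_mul_div, le_div_iff₀ hκ]
        linarith
      linarith

/-- The abstract barrier argument. -/
theorem PHASE_bar {f1 f2 U E1 E2 : ℕ → ℝ} {Dm : ℕ → Prop} {Φ0 Ψ0 Ψ c A C0 : ℝ} (k : ℕ)
    (hc : 0 < c) (hA : 0 ≤ A) (hU : ∀ n, 0 ≤ U n) (h0 : Dm 0) (h01 : f1 0 ≤ Φ0) (h02 : f2 0 ≤ Ψ0)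
    (hC0 : Φ0 + 1 ≤ c * C0) (hC : 0 ≤ C0) (hΨ : Ψ0 + A * C0 + 3 / 4 ≤ Ψ)
    (step : ∀ n, Dm n → f1 n ≤ Φ0 + 1 → f2 n ≤ Ψ → Dm (n + 1) ∧ 0 ≤ f1 (n + 1) ∧
      f1 (n + 1) ≤ f1 n - c * U n + E1 n ∧ f2 (n + 1) ≤ f2 n + A * U n + E2 n)
    (hE1 : ∀ n ≤ k, ∑ j ∈ range n, E1 j ≤ 1) (hE2 : ∀ n ≤ k, ∑ j ∈ range n, E2 j ≤ 3 / 4) :
    ∀ n ≤ k, Dm n ∧ f1 n ≤ Φ0 + 1 ∧ f2 n ≤ Ψ ∧ ∑ j ∈ range n, U j ≤ C0 := by
  have fin : ∀ n ≤ k, f1 n ≤ Φ0 - c * ∑ j ∈ range n, U j + ∑ j ∈ range n, E1 j →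
      f2 n ≤ Ψ0 + A * ∑ j ∈ range n, U j + ∑ j ∈ range n, E2 j → ∑ j ∈ range n, U j ≤ C0 →
      f1 n ≤ Φ0 + 1 ∧ f2 n ≤ Ψ := fun n hn h1 h2 h3 => by
    have g1 : 0 ≤ c * ∑ j ∈ range n, U j :=
      mul_nonneg hc.le (Finset.sum_nonneg fun j _ => hU j)
    have g2 : A * ∑ j ∈ range n, U j ≤ A * C0 := mul_le_mul_of_nonneg_left h3 hA
    constructor <;> linarith [hE1 n hn, hE2 n hn]
  have main : ∀ n ≤ k, Dm n ∧ f1 n ≤ Φ0 - c * ∑ j ∈ range n, U j + ∑ j ∈ range n, E1 j ∧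
      f2 n ≤ Ψ0 + A * ∑ j ∈ range n, U j + ∑ j ∈ range n, E2 j ∧ ∑ j ∈ range n, U j ≤ C0 := by
    intro n
    induction n with
    | zero => intro _; simpa using ⟨h0, h01, h02, hC⟩
    | succ n ih =>
      intro hn
      obtain ⟨i1, i2, i3, i4⟩ := ih (by omega)
      obtain ⟨j1, j2⟩ := fin n (by omega) i2 i3 i4
      obtain ⟨s1, s2, s3, s4⟩ := step n i1 j1 j2
      have g := hE1 (n + 1) hn
      simp only [Finset.sum_range_succ] at g ⊢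
      refine ⟨s1, by linarith, by linarith, ?_⟩
      have : c * (∑ j ∈ range n, U j + U n) ≤ c * C0 := by linarith
      exact le_of_mul_le_mul_left this hc
  intro n hn
  obtain ⟨i1, i2, i3, i4⟩ := main n hn
  obtain ⟨j1, j2⟩ := fin n hn i2 i3 i4
  exact ⟨i1, j1, j2, i4⟩

/-- The damping exponent stays small. -/
theorem PHASE_ck {m : ℕ} {C1 Cx C0 β : ℝ} {d : ℕ} {w sf : Fin m → ℕ → ℝ} (k : ℕ)
    (hC1 : C1 = 2 + 4 * m * Cx * C0) (hCx : 0 ≤ Cx) (hC0 : 0 ≤ C0)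
    (hw : ∀ a j, 0 ≤ w a j) (hβ : ∀ a j, w a j ≤ β) (hd : d * m * β ≤ 1)
    (hcr : ∀ a a' j, w a (j + d) ≤ Cx * w a' j) (hs : ∀ a j, 0 ≤ sf a j)
    (hs1 : ∀ j, ∑ a, sf a j = 1)
    (hU : ∀ n ≤ k, ∑ j ∈ range n, Real.exp (-ck C1 w j) * ∑ a, sf a j * w a j ≤ C0) :
    ∀ n ≤ k, ck C1 w n ≤ 1 / 2 := by
  intro n
  induction n using Nat.strong_induction_on with
  | _ n ih =>
    intro hn
    have hC : 0 < C1 := by rw [hC1]; positivity
    have h1 : ∑ j ∈ range n, ∑ a, w a j ≤ ∑ j ∈ range (d + n), ∑ a, w a j :=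
      Finset.sum_le_sum_of_subset_of_nonneg (Finset.range_mono (by omega))
        fun j _ _ => Finset.sum_nonneg fun a _ => hw a j
    rw [Finset.sum_range_add] at h1
    have h2 : ∑ j ∈ range d, ∑ a, w a j ≤ d * m * β := by
      calc _ ≤ ∑ _j ∈ range d, ∑ _a : Fin m, β :=
            Finset.sum_le_sum fun j _ => Finset.sum_le_sum fun a _ => hβ a j
        _ = _ := by simp; ring
    have h3 : ∀ j ∈ range n, ∑ a, w a (d + j) ≤
        2 * m * Cx * (Real.exp (-ck C1 w j) * ∑ a, sf a j * w a j) := fun j hj => by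
      have hj' := Finset.mem_range.1 hj
      have g1 := ih j hj' (by omega)
      have g2 : 1 / 2 ≤ Real.exp (-ck C1 w j) := by
        linarith [Real.add_one_le_exp (-ck C1 w j)]
      have g0 : 0 ≤ ∑ a, sf a j * w a j :=
        Finset.sum_nonneg fun a _ => mul_nonneg (hs a j) (hw a j)
      have g3 : ∀ a, w a (d + j) ≤ Cx * ∑ a', sf a' j * w a' j := fun a => by
        calc w a (d + j) = ∑ a', sf a' j * w a (j + d) := by
              rw [← Finset.sum_mul, hs1, one_mul, add_comm]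
          _ ≤ ∑ a', sf a' j * (Cx * w a' j) :=
              Finset.sum_le_sum fun a' _ => mul_le_mul_of_nonneg_left (hcr a a' j) (hs a' j)
          _ = _ := by
              rw [Finset.mul_sum]
              exact Finset.sum_congr rfl fun a' _ => by ring
      have g4 : ∑ a, w a (d + j) ≤ m * (Cx * ∑ a', sf a' j * w a' j) := by
        calc _ ≤ ∑ _a : Fin m, Cx * ∑ a', sf a' j * w a' j := Finset.sum_le_sum fun a _ => g3 a
          _ = _ := by simp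
      have g5 : 1 / 2 * ∑ a, sf a j * w a j ≤ Real.exp (-ck C1 w j) * ∑ a, sf a j * w a j :=
        mul_le_mul_of_nonneg_right g2 g0
      have g6 := mul_le_mul_of_nonneg_left g5 (show (0 : ℝ) ≤ 2 * m * Cx by positivity)
      linarith
    have h4 := Finset.sum_le_sum h3
    rw [← Finset.mul_sum] at h4
    have h5 := mul_le_mul_of_nonneg_left (hU n hn) (show (0 : ℝ) ≤ 2 * m * Cx by positivity)
    rw [ck, div_le_iff₀ hC, hC1]
    linarith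

/-- One step of the game for the two barriers. -/
theorem PHASE_one {m : ℕ} {ε' M CR c G1 G2 : ℝ} {X : Mt N} {s : Fin m → ℝ} {b : Fin m → Mt N}
    (R : ∀ X : Mt N, X.PosDef → X⁻¹.trace ≤ M → ∀ H : Mt N, (∀ i j, H i j = H j i) →
      2 * M * n1 H ≤ 1 → (X + H).PosDef ∧
        (X + H)⁻¹.trace ≤ X⁻¹.trace - ip (iv2 X) H + CR * M ^ 3 * n1 H ^ 2)
    (hX : Dom ε' M M X) (hb : ∀ a i j, b a i j = b a j i) (hc : 0 ≤ c)
    (hn : 2 * M * n1 (c • ∑ a, s a • b a) ≤ 1)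
    (h1 : ∑ a, s a * -ip (iv2 (X + ε' • (1 : Mt N))) (b a) ≤ G1)
    (h2 : ∑ a, s a * ip (iv2 (1 - X)) (b a) ≤ G2) :
    (X + c • ∑ a, s a • b a + ε' • (1 : Mt N)).PosDef ∧ (1 - (X + c • ∑ a, s a • b a)).PosDef ∧
    (X + c • ∑ a, s a • b a + ε' • (1 : Mt N))⁻¹.trace ≤ (X + ε' • (1 : Mt N))⁻¹.trace + c * G1
      + CR * M ^ 3 * n1 (c • ∑ a, s a • b a) ^ 2 ∧
    (1 - (X + c • ∑ a, s a • b a))⁻¹.trace ≤ (1 - X)⁻¹.trace + c * G2
      + CR * M ^ 3 * n1 (c • ∑ a, s a • b a) ^ 2 := by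
  have hip : ∀ A : Mt N, ip A (c • ∑ a, s a • b a) = c * ∑ a, s a * ip A (b a) := fun A => by
    rw [PHASE_ip_smul, PHASE_ip_sum]
    simp only [PHASE_ip_smul]
  have hsym : ∀ i j, (c • ∑ a, s a • b a) i j = (c • ∑ a, s a • b a) j i := fun i j => by
    simp only [Matrix.smul_apply, Matrix.sum_apply, hb _ i j]
  generalize c • ∑ a, s a • b a = H at hip hsym hn ⊢
  obtain ⟨p1, t1⟩ := R _ hX.p1 hX.t1 H hsym hn
  obtain ⟨p2, t2⟩ := R _ hX.p2 hX.t2 (-H) (fun i j => by simp [hsym i j]) (by rwa [n1_neg])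
  have e1 : X + H + ε' • (1 : Mt N) = X + ε' • (1 : Mt N) + H := add_right_comm _ _ _
  have e2 : 1 - (X + H) = 1 - X + -H := by abel
  rw [e1, e2]
  rw [hip] at t1
  rw [PHASE_ip_neg, hip, n1_neg] at t2
  simp only [mul_neg, Finset.sum_neg_distrib] at h1
  have g1 := mul_le_mul_of_nonneg_left h1 hc
  have g2 := mul_le_mul_of_nonneg_left h2 hc
  exact ⟨p1, p2, by linarith, by linarith⟩

theorem PHASE (h1 : St_RES) (h2 : St_NET) (h3 : St_SOFT) (h4 : St_APR) (h5 : St_SWI) :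
    St_PHASE := by
  intro N q q' ε hN hq hq0 hqq hε hε1
  have hN1 : (1 : ℝ) ≤ N := by exact_mod_cast hN
  have hqN : (q : ℝ) ≤ N := by exact_mod_cast hq
  obtain ⟨CR, hCR, RES⟩ := h1 N
  obtain ⟨ε', hε'⟩ : ∃ x : ℝ, x = ε / (4 * N) := ⟨_, rfl⟩
  have hε'0 : 0 < ε' := by rw [hε']; positivity
  have hNε : N * ε' = ε / 4 := by rw [hε']; field_simp
  have hε'1 : ε' ≤ 1 := by nlinarith
  obtain ⟨c0, hc0e⟩ : ∃ x : ℝ, x = (q - q') / 4 := ⟨_, rfl⟩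
  have hc0 : 0 < c0 := by rw [hc0e]; linarith
  have hc0N : c0 ≤ N := by rw [hc0e]; linarith
  obtain ⟨κ, hκ, NET⟩ := h2 N q q' ε' hN hq hq0 hqq hε'0 hε'1
  obtain ⟨Φ0, hΦ0e⟩ : ∃ x : ℝ, x = N / ε' := ⟨_, rfl⟩
  have hΦ0 : 0 ≤ Φ0 := by rw [hΦ0e]; positivity
  obtain ⟨C0, hC0e⟩ : ∃ x : ℝ, x = 2 * (Φ0 + 1) / c0 := ⟨_, rfl⟩
  have hC0 : 0 ≤ C0 := by rw [hC0e]; positivity
  have hC0' : Φ0 + 1 ≤ c0 / 2 * C0 := by rw [hC0e]; field_simp; exact le_rfl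
  obtain ⟨Ψ, hΨe⟩ : ∃ x : ℝ, x = N + 1 + N / κ * C0 := ⟨_, rfl⟩
  have hNκ : 0 ≤ N / κ * C0 := by positivity
  obtain ⟨M, hMe⟩ : ∃ x : ℝ, x = Φ0 + 1 + Ψ := ⟨_, rfl⟩
  have hM1 : Φ0 + 1 ≤ M := by rw [hMe, hΨe]; linarith
  have hM2 : Ψ ≤ M := by rw [hMe]; linarith
  have hM : 0 ≤ M := by linarith
  obtain ⟨Q, hQe⟩ : ∃ x : ℝ, x = CR * M ^ 3 * (2 * N) * (4 * N ^ 4) * (1 + 4 * N) := ⟨_, rfl⟩
  have hQ : 0 ≤ Q := by rw [hQe]; positivity
  obtain ⟨δ1, hδ1, k1⟩ := PHASE_small hQ (show 0 < c0 / 4 by positivity)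
  obtain ⟨δ2, hδ2, k2⟩ := PHASE_small (mul_nonneg hQ hC0) (show (0 : ℝ) < 1 / 4 by norm_num)
  obtain ⟨δ3, hδ3, k3⟩ := PHASE_small hQ (show (0 : ℝ) < 1 / 4 by norm_num)
  obtain ⟨δ4, hδ4, k4⟩ := PHASE_small (show (0 : ℝ) ≤ 2 * N by positivity)
    (show 0 < ε / 2 by positivity)
  obtain ⟨δ, hδ, l1, l2, l3, l4⟩ : ∃ δ : ℝ, 0 < δ ∧ δ ≤ δ1 ∧ δ ≤ δ2 ∧ δ ≤ δ3 ∧ δ ≤ δ4 :=
    ⟨min (min δ1 δ2) (min δ3 δ4), by positivity, (min_le_left _ _).trans (min_le_left _ _),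
      (min_le_left _ _).trans (min_le_right _ _), (min_le_right _ _).trans (min_le_left _ _),
      (min_le_right _ _).trans (min_le_right _ _)⟩
  obtain ⟨δ', hδ'⟩ : ∃ x : ℝ, x = CR * M ^ 3 * (2 * N * δ) * (4 * N ^ 4) := ⟨_, rfl⟩
  have hδ'0 : 0 ≤ δ' := by rw [hδ']; positivity
  have hQδ : δ' * (1 + 4 * N) = Q * δ := by rw [hδ', hQe]; ring
  have d1 : δ' * (1 + 4 * N) ≤ c0 / 4 := by rw [hQδ]; exact k1 δ l1
  have d2 : δ' * (1 + 4 * N) * C0 ≤ 1 / 4 := by rw [hQδ]; linarith [k2 δ l2]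
  have d3 : δ' ≤ 1 / 4 := by nlinarith [k3 δ l3]
  have d4 := k4 δ l4
  have hD0 : Dom ε' Φ0 N (0 : Mt N) := (NET Φ0 N 1 hΦ0e.ge le_rfl one_pos).1
  obtain ⟨-, Γ, hΓ, hBc, hnet, hstep⟩ := NET (Φ0 + 1) Ψ δ (by linarith [hΦ0e.ge])
    (by rw [hΨe]; linarith) hδ
  refine ⟨Γ, hΓ, fun Cx d hCx => ?_⟩
  obtain ⟨C1, hC1e⟩ : ∃ x : ℝ, x = 2 + 4 * Γ.m * Cx * C0 := ⟨_, rfl⟩
  have hC1 : 1 ≤ C1 := by
    have : 0 ≤ 4 * Γ.m * Cx * C0 := by positivity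
    linarith
  obtain ⟨K, hK, APR⟩ := h4 N Γ C1 Cx d hC1 hCx
  obtain ⟨Far, hFar⟩ : ∃ x : ℝ, x = 4 * N ^ 4 * M ^ 2 + 2 * N := ⟨_, rfl⟩
  have hFar0 : 0 ≤ Far := by rw [hFar]; positivity
  obtain ⟨ks, hks, hθ⟩ : ∃ ks : ℝ, 0 ≤ ks ∧ Real.exp (-(3 * ks * δ ^ 2)) * Far * K ≤ 1 / 8 := by
    refine ⟨8 * Far * K / (3 * δ ^ 2), by positivity, ?_⟩
    have e1 : 3 * (8 * Far * K / (3 * δ ^ 2)) * δ ^ 2 = 8 * Far * K := by field_simp
    rw [e1, Real.exp_neg, mul_assoc, inv_mul_le_iff₀ (Real.exp_pos _)]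
    linarith [Real.add_one_le_exp (8 * Far * K)]
  refine ⟨C1, ks, hC1, hks, fun a1 ha1 => ?_⟩
  obtain ⟨Lc, hLe⟩ : ∃ x : ℝ, x = 8 * (N + c0) * a1 + 1 := ⟨_, rfl⟩
  have hL8 : 0 ≤ 8 * (N + c0) * a1 := by positivity
  have hLc : 0 < Lc := by linarith
  refine ⟨Lc, hLc.le, fun P hP hPC hPk hPL hz => ?_⟩
  obtain ⟨η1, hη1, m1⟩ := PHASE_small (show 0 ≤ CR * M ^ 3 by positivity)
    (show (0 : ℝ) < 1 / 8 by norm_num)
  obtain ⟨η2, hη2, m2⟩ := PHASE_small (show 0 ≤ 2 * M by positivity) one_pos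
  obtain ⟨η, hη, n1', n2, n3⟩ : ∃ η : ℝ, 0 < η ∧ η ≤ η1 ∧ η ≤ η2 ∧ η ≤ 1 / 16 :=
    ⟨min (min η1 η2) (1 / 16), by positivity, (min_le_left _ _).trans (min_le_left _ _),
      (min_le_left _ _).trans (min_le_right _ _), min_le_right _ _⟩
  obtain ⟨βs, hβs, SWI⟩ := h5 N Γ P Cx η d hΓ.m0 hP hCx hη
  obtain ⟨β1, hβ1, o1⟩ := PHASE_small (show (0 : ℝ) ≤ 4 * N by positivity)
    (show 0 < c0 / 4 by positivity)
  obtain ⟨β2, hβ2, o2⟩ := PHASE_small (show (0 : ℝ) ≤ (N + c0) * Γ.m by positivity)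
    (show (0 : ℝ) < 1 / 8 by norm_num)
  obtain ⟨β3, hβ3, o3⟩ := PHASE_small (show (0 : ℝ) ≤ d * Γ.m by positivity) one_pos
  obtain ⟨β0, hβ0, u0, u1, u2, u3⟩ :
      ∃ β0 : ℝ, 0 < β0 ∧ β0 ≤ βs ∧ β0 ≤ β1 ∧ β0 ≤ β2 ∧ β0 ≤ β3 :=
    ⟨min (min βs β1) (min β2 β3), by positivity, (min_le_left _ _).trans (min_le_left _ _),
      (min_le_left _ _).trans (min_le_right _ _), (min_le_right _ _).trans (min_le_left _ _),
      (min_le_right _ _).trans (min_le_right _ _)⟩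
  refine ⟨β0, hβ0, fun β e φ0 B w S wp F hβ he hφ hpl k hak => ?_⟩
  obtain ⟨SOFT, -⟩ : (∀ (B : Mt N) (a0 a : Fin Γ.m), n1 (B - Γ.Bc a0) ≤ δ →
      2 * N * δ ≤ n1 (B - Γ.Bc a) → soft Γ P.ks B a ≤ Real.exp (-(3 * ks * δ ^ 2))) ∧ True := by
    rw [hPk]
    exact ⟨fun B a0 a => (h3 N Γ ks hks).2.2 δ B a0 a hN hδ.le, trivial⟩
  obtain ⟨θ, hθe⟩ : ∃ x : ℝ, x = Real.exp (-(3 * ks * δ ^ 2)) := ⟨_, rfl⟩
  have hθ0 : 0 ≤ θ := by rw [hθe]; positivity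
  rw [← hθe] at hθ SOFT
  obtain ⟨A1, -⟩ := APR q' β e φ0 B w S wp F hpl
  rw [← hPC] at A1
  obtain ⟨S1, S2, S3⟩ := SWI q' β e φ0 B w S wp F (hβ.trans u0) (hφ.trans u0) hpl
  have hw : ∀ a j, 0 ≤ w a j := fun a j => (hpl.step a j).W0
  have hS : ∀ a j, 0 ≤ S a j := fun a j => (hpl.step a j).S0
  have hwβ : ∀ a j, w a j ≤ β := fun a j => (hpl.step a j).W1
  have he4 : 4 * N * e ≤ c0 / 4 := o1 e (he.trans u1)
  have hck := ck_nonneg hP.C11 hw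
  have hak0 := ak_succ Γ P (cj Γ B) w
  have hak1 := ak_zero Γ P (cj Γ B) w
  have hBs := Bt_succ Γ P (cj Γ B) w
  have hB0 := Bt_zero Γ P (cj Γ B) w
  have hss := sum_soft Γ hΓ.m0 P.ks
  generalize ak Γ P (cj Γ B) w = aa at hak hak0 hak1
  generalize Bt Γ P (cj Γ B) w = X at S1 S2 S3 hak0 hBs hB0 ⊢
  obtain ⟨U, hU⟩ : ∃ U : ℕ → ℝ, U = fun j =>
    Real.exp (-ck P.C1 w j) * ∑ a, soft Γ P.ks (X j) a * w a j := ⟨_, rfl⟩
  obtain ⟨D, hD⟩ : ∃ D : ℕ → ℝ, D = fun j =>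
    Real.exp (-ck P.C1 w j) * ∑ a, soft Γ P.ks (X j) a * (F a (j + 1) - F a j) := ⟨_, rfl⟩
  obtain ⟨Z, hZ⟩ : ∃ Z : ℕ → ℝ, Z = fun j =>
    P.z (X j).trace * (Real.exp (-ck P.C1 w j) * ∑ a, w a j) := ⟨_, rfl⟩
  obtain ⟨T, hT⟩ : ∃ T : ℕ → ℝ, T = fun j =>
    Real.exp (-ck P.C1 w j) * ∑ a, (w a j + S a j) := ⟨_, rfl⟩
  obtain ⟨Rr, hRr⟩ : ∃ Rr : ℕ → ℝ, Rr = fun j => n1 (X (j + 1) - X j) ^ 2 := ⟨_, rfl⟩
  have sD : ∀ n, -η ≤ ∑ j ∈ range n, D j := fun n => by rw [hD]; exact S3 n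
  have sR : ∀ n, ∑ j ∈ range n, Rr j ≤ η := fun n => by rw [hRr]; exact S2 n
  have sT : ∀ n, ∑ j ∈ range n, T j ≤ K := fun n => by
    refine le_trans (Finset.sum_le_sum fun j _ => ?_) (A1 n)
    rw [hT]
    refine mul_le_mul (Real.exp_le_exp.2 (by linarith [hck j])) (Finset.sum_le_sum fun a _ => ?_)
      (Finset.sum_nonneg fun a _ => add_nonneg (hw a j) (hS a j)) (Real.exp_pos _).le
    linarith [hpl.wp0 a j, hw a j, n1_nonneg (cj Γ B a j)]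
  have sZ : ∀ n ≤ k, (N + c0) * ∑ j ∈ range n, Z j ≤ 1 / 4 := fun n hn => by
    have g1 : ∀ n, aa n = Lc * ∑ j ∈ range n, Z j := fun n => by
      induction n with
      | zero => simp [hak1]
      | succ n ih => rw [hak0, ih, Finset.sum_range_succ, hPL, hZ]; ring
    rcases n with _ | n
    · simp
    · have g2 := hak n (by omega)
      rw [g1] at g2
      have g3 : Z n ≤ Γ.m * β := by
        rw [hZ]
        have i1 : ∑ a, w a n ≤ Γ.m * β := by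
          calc _ ≤ ∑ _a : Fin Γ.m, β := Finset.sum_le_sum fun a _ => hwβ a n
            _ = _ := by simp
        have i2 : 0 ≤ ∑ a, w a n := Finset.sum_nonneg fun a _ => hw a n
        have i3 : Real.exp (-ck P.C1 w n) ≤ 1 := Real.exp_le_one_iff.2 (by linarith [hck n])
        have i4 := hP.cut.rg (X n).trace
        calc _ ≤ 1 * (1 * ∑ a, w a n) :=
              mul_le_mul i4.2 (mul_le_mul_of_nonneg_right i3 i2) (by positivity) zero_le_one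
          _ ≤ _ := by linarith
      have g4 : (N + c0) * ∑ j ∈ range n, Z j ≤ 1 / 8 := by
        refine le_of_mul_le_mul_left ?_ hLc
        have := mul_le_mul_of_nonneg_left g2.le (show (0 : ℝ) ≤ N + c0 by positivity)
        linarith
      have g5 := mul_le_mul_of_nonneg_left g3 (show (0 : ℝ) ≤ N + c0 by positivity)
      have g6 := o2 β (hβ.trans u2)
      rw [Finset.sum_range_succ]
      linarith
  have hU0 : ∀ n, 0 ≤ U n := fun n => by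
    rw [hU]
    exact mul_nonneg (Real.exp_pos _).le
      (Finset.sum_nonneg fun a _ => mul_nonneg (soft_pos _ _ _ a).le (hw a n))
  have tT : ∀ n, θ * Far * ∑ j ∈ range n, T j ≤ 1 / 8 := fun n =>
    (mul_le_mul_of_nonneg_left (sT n) (mul_nonneg hθ0 hFar0)).trans hθ
  have tR : ∀ n, CR * M ^ 3 * ∑ j ∈ range n, Rr j ≤ 1 / 8 := fun n =>
    (mul_le_mul_of_nonneg_left (sR n) (by positivity)).trans (m1 η n1')
  have he0 := hpl.e0.le
  have he1 := hpl.e1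
  have bar := PHASE_bar (f1 := fun n => (X n + ε' • (1 : Mt N))⁻¹.trace)
    (f2 := fun n => (1 - X n)⁻¹.trace) (U := U)
    (E1 := fun j => -((1 / 2 + 2 * (e + δ')) * D j) + (N + c0) * Z j + θ * Far * T j
      + CR * M ^ 3 * Rr j)
    (E2 := fun j => -(2 * δ' * D j) + θ * Far * T j + CR * M ^ 3 * Rr j)
    (Dm := fun n => (X n + ε' • (1 : Mt N)).PosDef ∧ (1 - X n).PosDef) (Φ0 := Φ0) (Ψ0 := N)
    (Ψ := Ψ) (c := c0 / 2) (A := N / κ + δ' * (1 + 4 * N)) (C0 := C0) k (by positivity)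
    (by positivity) hU0 (by rw [hB0]; exact ⟨hD0.p1, hD0.p2⟩) (by rw [hB0]; exact hD0.t1)
    (by rw [hB0]; exact hD0.t2) hC0' hC0 (by rw [hΨe]; linarith) ?_ ?_ ?_
  · obtain ⟨⟨p1, p2⟩, t1, t2, -⟩ := bar k le_rfl
    have hDk : Dom ε' (Φ0 + 1) Ψ (X k) := ⟨p1, p2, t1, t2⟩
    refine ⟨?_, PHASE_dom_qf hDk, by linarith [PHASE_dom_tr hDk]⟩
    refine PHASE_ck (sf := fun a j => soft Γ P.ks (X j) a) (d := d) (β := β) k
      (hPC.trans hC1e) hCx hC0 hw hwβ (o3 β (hβ.trans u3))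
      (fun a a' j => (hpl.wp0 a _).trans (hpl.crW a a' j)) (fun a j => (soft_pos _ _ _ a).le)
      (fun j => hss _) (fun n hn => ?_) k le_rfl
    have := (bar n hn).2.2.2
    rwa [hU] at this
  · rintro n ⟨p1, p2⟩ t1 t2
    have hDn : Dom ε' (Φ0 + 1) Ψ (X n) := ⟨p1, p2, t1, t2⟩
    obtain ⟨a0, ha0⟩ := hnet _ hDn
    have hz0 := (hP.cut.rg (X n).trace).1
    have md := fun a : Fin Γ.m => by
      obtain ⟨v1, v2, v3, v4⟩ := hstep a β e (w a n) (S a n) (F a (n + 1) - F a n) (B a n) he0 he1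
        (hpl.step a n)
      exact PHASE_mode (ε := ε) (t := N - q + 1) (s := soft Γ P.ks (X n) a) (θ := θ)
        (zz := P.z (X n).trace) (c0 := c0) (b := cj Γ B a n)
        (fun Y p t => ⟨(RES M Y p t).1, (RES M Y p t).2.1⟩) hCR hM (PHASE_dom_mono hDn hM1 hM2)
        (PHASE_dom_mono (hBc a) hM1 hM2) v1 hκ v2 v3
        (fun h => by
          rw [hc0e]
          exact v4 (by linarith) (by linarith))
        hz0 (hz _) d4 hδ.le hδ' (hw a n) (hS a n) (PHASE_facts (hpl.step a n) hpl.qN he1) hc0.le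
        hc0N d1 he0 he4 (soft_pos _ _ _ a).le (soft_le_one _ _ _ a) hθ0 (SOFT _ a0 a ha0)
    have hΔ : X (n + 1) - X n =
        Real.exp (-ck P.C1 w n) • ∑ a, soft Γ P.ks (X n) a • cj Γ B a n := by
      rw [hBs, add_sub_cancel_left]
    have hn1 : 2 * M * n1 (X (n + 1) - X n) ≤ 1 :=
      (mul_le_mul_of_nonneg_left (S1 n) (by positivity)).trans (m2 η n2)
    have one := PHASE_one (fun Y p t => (RES M Y p t).2.2) (PHASE_dom_mono hDn hM1 hM2)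
      (fun a => PHASE_cj_symm (Γ.L a) (B a n) (hpl.step a n).symm)
      (Real.exp_pos (-ck P.C1 w n)).le (hΔ ▸ hn1)
      (Finset.sum_le_sum fun a _ => (md a).1) (Finset.sum_le_sum fun a _ => (md a).2)
    change (X n + _ • ∑ a, _ • cj Γ B a n + _).PosDef ∧ (1 - (X n + _ • ∑ a, _ • cj Γ B a n)).PosDef ∧
      (X n + _ • ∑ a, _ • cj Γ B a n + _)⁻¹.trace ≤ _ + _ + _ * n1 (_ • ∑ a, _ • cj Γ B a n) ^ 2 ∧
      (1 - (X n + _ • ∑ a, _ • cj Γ B a n))⁻¹.trace ≤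
        _ + _ + _ * n1 (_ • ∑ a, _ • cj Γ B a n) ^ 2 at one
    rw [← hBs, ← hΔ] at one
    obtain ⟨r1, r2, r3, r4⟩ := one
    simp only [Finset.sum_add_distrib, Finset.sum_sub_distrib, Finset.sum_neg_distrib,
      ← Finset.mul_sum, ← hFar] at r3 r4
    refine ⟨⟨r1, r2⟩, r1.inv.posSemidef.trace_nonneg, ?_, ?_⟩
    · simp only [hU, hD, hZ, hT, hRr, Finset.sum_add_distrib]
      linarith
    · simp only [hU, hD, hT, hRr, Finset.sum_add_distrib]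
      linarith
  · intro n hn
    simp only [Finset.sum_add_distrib, Finset.sum_neg_distrib, ← Finset.mul_sum]
    have g1 := mul_le_mul_of_nonneg_left (sD n) (show 0 ≤ 1 / 2 + 2 * (e + δ') by positivity)
    have g2 : (1 / 2 + 2 * (e + δ')) * η ≤ 2 * η := mul_le_mul_of_nonneg_right (by linarith) hη.le
    linarith [sZ n hn, tT n, tR n]
  · intro n hn
    simp only [Finset.sum_add_distrib, Finset.sum_neg_distrib, ← Finset.mul_sum]
    have g1 := mul_le_mul_of_nonneg_left (sD n) (show 0 ≤ 2 * δ' by positivity)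
    have g2 : 2 * δ' * η ≤ 2 * η := mul_le_mul_of_nonneg_right (by linarith) hη.le
    linarith [tT n, tR n]

end Pool.Agent.Lib.MP_13801a_an.ND
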