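import Mathlib
import Pool.Agent.Lib.MP_13801a_an.ND.StsG

/-!
Convex profiles, cutoff functions and the soft maximum weights.
-/

open Set Filter
open scoped Topology ContDiff

namespace Pool.Agent.Lib.MP_13801a_an.ND

theorem PROF_prof {β e : ℝ} (hβ : 0 < β) (hβ1 : β ≤ 1) (he : 0 < e) (he1 : e ≤ 1 / 2) :
    Prof β e (fun y => β / e * Real.log (1 + Real.exp (e * y)))
      (fun y => β * (Real.exp (e * y) / (1 + Real.exp (e * y))))
      fun y => β * (e * Real.exp (e * y) / (1 + Real.exp (e * y)) ^ 2) := by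
  have hp : ∀ y, 0 < 1 + Real.exp (e * y) := fun y => by positivity
  have hd : ∀ y, HasDerivAt (fun y => Real.exp (e * y)) (Real.exp (e * y) * e) y := fun y => by
    simpa using ((hasDerivAt_id y).const_mul e).exp
  refine ⟨hβ, hβ1, he, he1, fun y => ?_, fun y => ?_, ?_, fun y => ⟨?_, ?_⟩, fun y => ⟨?_, ?_⟩,
    fun y => ⟨?_, ?_⟩, fun y y' s hs hy => ?_, ?_⟩
  · refine ((((hd y).const_add 1).log (hp y).ne').const_mul (β / e)).congr_deriv ?_
    have := (hp y).ne'
    field_simp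
  · refine (((hd y).div ((hd y).const_add 1) (hp y).ne').const_mul β).congr_deriv ?_
    have := (hp y).ne'
    field_simp
    ring
  · exact continuous_const.mul (Continuous.div (by fun_prop) (by fun_prop)
      fun y => (pow_pos (hp y) 2).ne')
  · exact mul_nonneg (by positivity) (Real.log_nonneg (by linarith [Real.exp_pos (e * y)]))
  · have h1 : e * y ≤ Real.log (1 + Real.exp (e * y)) := by
      rw [Real.le_log_iff_exp_le (hp y)]
      linarith
    calc β * y = β / e * (e * y) := by field_simp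
      _ ≤ _ := mul_le_mul_of_nonneg_left h1 (by positivity)
  · have := hp y
    positivity
  · refine mul_le_of_le_one_right hβ.le ((div_le_one (hp y)).2 ?_)
    linarith
  · have := hp y
    positivity
  · have h1 : e * Real.exp (e * y) / (1 + Real.exp (e * y)) ^ 2 ≤
        e * Real.exp (e * y) / (1 + Real.exp (e * y)) := by
      refine div_le_div_of_nonneg_left (by positivity) (hp y) ?_
      nlinarith [Real.exp_pos (e * y)]
    calc _ ≤ β * (e * Real.exp (e * y) / (1 + Real.exp (e * y))) :=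
          mul_le_mul_of_nonneg_left h1 hβ.le
      _ = _ := by ring
  · have h1 : Real.exp (e * y) ≤ Real.exp (e * y') * Real.exp (e * s) := by
      rw [← Real.exp_add, Real.exp_le_exp]
      nlinarith
    have h2 : 1 ≤ Real.exp (e * s) := Real.one_le_exp (by positivity)
    have h3 := Real.exp_pos (e * y)
    have h4 := Real.exp_pos (e * y')
    constructor
    · rw [mul_assoc]
      refine mul_le_mul_of_nonneg_left ?_ hβ.le
      rw [div_mul_eq_mul_div, div_le_div_iff₀ (hp y) (hp y')]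
      nlinarith [mul_le_mul_of_nonneg_left h2 (mul_pos h3 h4).le]
    · have h5 : Real.log (1 + Real.exp (e * y)) ≤ Real.log (1 + Real.exp (e * y')) + e * s := by
        rw [Real.log_le_iff_le_exp (hp y), Real.exp_add, Real.exp_log (hp y')]
        nlinarith
      calc _ ≤ β / e * (Real.log (1 + Real.exp (e * y')) + e * s) :=
            mul_le_mul_of_nonneg_left h5 (by positivity)
        _ = _ := by field_simp
  · have h1 : Tendsto (fun y => Real.exp (e * y)) atBot (𝓝 0) :=
      Real.tendsto_exp_atBot.comp (tendsto_id.const_mul_atBot he)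
    have h2 := ((h1.const_add 1).log (by norm_num)).const_mul (β / e)
    simpa using h2

theorem PROF_cut {lo hi : ℝ} (h : lo < hi) :
    ∃ z z1 z2, Cut z z1 z2 ∧ (∀ s, s ≤ lo → z s = 0) ∧ ∀ s, hi ≤ s → z s = 1 := by
  have hp : 0 < hi - lo := sub_pos.2 h
  let z : ℝ → ℝ := fun s => Real.smoothTransition ((s - lo) / (hi - lo))
  have hz : ContDiff ℝ ∞ z := Real.smoothTransition.contDiff.comp (by fun_prop)
  have hz1 : ContDiff ℝ ∞ (deriv z) := (contDiff_infty_iff_deriv.1 hz).2
  have hz2 : ContDiff ℝ ∞ (deriv (deriv z)) := (contDiff_infty_iff_deriv.1 hz1).2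
  have h0 : ∀ s, s ≤ lo → z s = 0 := fun s hs =>
    Real.smoothTransition.zero_of_nonpos (div_nonpos_of_nonpos_of_nonneg (by linarith) hp.le)
  have h1 : ∀ s, hi ≤ s → z s = 1 := fun s hs =>
    Real.smoothTransition.one_of_one_le ((one_le_div hp).2 (by linarith))
  have hc : HasCompactSupport (deriv z) := by
    refine HasCompactSupport.intro (K := Icc lo hi) isCompact_Icc fun s hs => ?_
    rcases not_and_or.1 hs with a | a
    · have e : z =ᶠ[𝓝 s] fun _ => 0 :=
        (Iio_mem_nhds (not_le.1 a)) |> fun m => mem_of_superset m fun t ht => h0 t (le_of_lt ht)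
      rw [e.deriv_eq, deriv_const]
    · have e : z =ᶠ[𝓝 s] fun _ => 1 :=
        (Ioi_mem_nhds (not_le.1 a)) |> fun m => mem_of_superset m fun t ht => h1 t (le_of_lt ht)
      rw [e.deriv_eq, deriv_const]
  obtain ⟨C1, hC1⟩ := hz1.continuous.bounded_above_of_compact_support hc
  obtain ⟨C2, hC2⟩ := hz2.continuous.bounded_above_of_compact_support hc.deriv
  exact ⟨z, deriv z, deriv (deriv z),
    ⟨fun s => ((contDiff_infty_iff_deriv.1 hz).1 s).hasDerivAt,
      fun s => ((contDiff_infty_iff_deriv.1 hz1).1 s).hasDerivAt,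
      fun s => ⟨Real.smoothTransition.nonneg _, Real.smoothTransition.le_one _⟩,
      max C1 C2, fun s => ⟨(hC1 s).trans (le_max_left _ _), (hC2 s).trans (le_max_right _ _)⟩⟩,
    h0, h1⟩

theorem PROF : St_PROF :=
  ⟨fun _ _ h1 h2 h3 h4 => ⟨_, _, _, PROF_prof h1 h2 h3 h4⟩, fun _ _ h => PROF_cut h⟩

/-! ### Soft maximum -/

variable {N : ℕ}

theorem PROF_exp {u v : ℝ} (hu : u ≤ 0) (hv : v ≤ 0) : |Real.exp u - Real.exp v| ≤ |u - v| := by
  have key : ∀ u v : ℝ, u ≤ 0 → v ≤ u → |Real.exp u - Real.exp v| ≤ |u - v| := by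
    intro u v hu h
    have h1 := Real.add_one_le_exp (v - u)
    have h2 : Real.exp v = Real.exp u * Real.exp (v - u) := by
      rw [← Real.exp_add, add_sub_cancel]
    have h3 := Real.exp_pos u
    have h4 : Real.exp u ≤ 1 := Real.exp_le_one_iff.2 hu
    rw [abs_of_nonneg (sub_nonneg.2 (Real.exp_le_exp.2 h)), abs_of_nonneg (sub_nonneg.2 h), h2]
    nlinarith
  rcases le_total v u with h | h
  · exact key u v hu h
  · rw [abs_sub_comm, abs_sub_comm u]
    exact key v u hv h

theorem PROF_sx (Γ : Net N) {ks : ℝ} (hks : 0 ≤ ks) (B B' : Mt N) (a : Fin Γ.m) :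
    |sx Γ ks B a - sx Γ ks B' a| ≤ 2 * ks * (∑ a', n1 (Γ.Bc a')) * n1 (B - B') := by
  have e : sx Γ ks B a - sx Γ ks B' a = 2 * ks * ip (Γ.Bc a) (B - B') := by
    have e1 : ip (Γ.Bc a) (B - B') = ip B (Γ.Bc a) - ip B' (Γ.Bc a) := by
      simp only [ip, ← Finset.sum_sub_distrib, Matrix.sub_apply]
      exact Finset.sum_congr rfl fun i _ => Finset.sum_congr rfl fun j _ => by ring
    rw [e1, sx, sx]
    ring
  rw [e, abs_mul, abs_of_nonneg (by positivity : 0 ≤ 2 * ks), mul_assoc (2 * ks)]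
  refine mul_le_mul_of_nonneg_left (abs_ip_le (fun i j => (abs_le_n1 _ i j).trans ?_) _)
    (by positivity)
  exact Finset.single_le_sum (f := fun a' => n1 (Γ.Bc a')) (fun _ _ => n1_nonneg _)
    (Finset.mem_univ a)

theorem PROF_lse {m : ℕ} (a : Fin m) {u v : Fin m → ℝ} {D : ℝ} (h : ∀ b, |u b - v b| ≤ D) :
    Real.log (∑ b, Real.exp (u b)) ≤ Real.log (∑ b, Real.exp (v b)) + D := by
  have hp : ∀ w : Fin m → ℝ, 0 < ∑ b, Real.exp (w b) := fun w =>
    Finset.sum_pos (fun _ _ => Real.exp_pos _) ⟨a, Finset.mem_univ a⟩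
  rw [Real.log_le_iff_le_exp (hp u), Real.exp_add, Real.exp_log (hp v), Finset.sum_mul]
  refine Finset.sum_le_sum fun b _ => ?_
  rw [← Real.exp_add, Real.exp_le_exp]
  linarith [(abs_le.1 (h b)).2]

theorem PROF_lsoft (Γ : Net N) {ks : ℝ} (hks : 0 ≤ ks) (B B' : Mt N) (a : Fin Γ.m) :
    |lsoft Γ ks B a - lsoft Γ ks B' a| ≤ 4 * ks * (∑ a', n1 (Γ.Bc a')) * n1 (B - B') := by
  have h1 := PROF_lse a (PROF_sx Γ hks B B')
  have h2 := PROF_lse a fun b => (abs_sub_comm _ _).le.trans (PROF_sx Γ hks B B' b)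
  have h3 := abs_le.1 (PROF_sx Γ hks B B' a)
  rw [lsoft, lsoft, abs_le]
  constructor <;> linarith [h3.1, h3.2]

theorem PROF_n1_sq (X : Mt N) : n1 X ^ 2 ≤ (N : ℝ) ^ 2 * ip X X := by
  have h := sq_sum_le_card_mul_sum_sq (s := (Finset.univ : Finset (Fin N × Fin N)))
    (f := fun p => |X p.1 p.2|)
  simp only [Fintype.sum_prod_type, Finset.card_univ, Fintype.card_prod, Fintype.card_fin,
    sq_abs, Nat.cast_mul] at h
  simpa only [n1, ip, sq] using h

theorem SOFT : St_SOFT := by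
  intro N Γ ks hks
  have hc : 0 ≤ 4 * ks * ∑ a', n1 (Γ.Bc a') :=
    mul_nonneg (by positivity) (Finset.sum_nonneg fun _ _ => n1_nonneg _)
  have hl : ∀ B a, lsoft Γ ks B a ≤ 0 := fun B a => Real.exp_le_one_iff.1 (soft_le_one Γ ks B a)
  refine ⟨⟨_, hc, fun B B' a => (PROF_exp (hl B a) (hl B' a)).trans (PROF_lsoft Γ hks B B' a)⟩,
    fun K => ⟨∑ a, Real.exp (4 * ks * (∑ a', n1 (Γ.Bc a')) * K - lsoft Γ ks 0 a),
      Finset.sum_nonneg fun _ _ => (Real.exp_pos _).le, fun B a hB => ?_⟩,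
    fun δ B a0 a hN hδ h0 h1 => ?_⟩
  · have h1 := (abs_le.1 (PROF_lsoft Γ hks B 0 a)).1
    rw [sub_zero] at h1
    have h2 := mul_le_mul_of_nonneg_left hB hc
    refine le_trans ?_ (mul_le_mul_of_nonneg_right (Finset.single_le_sum
      (f := fun a => Real.exp (4 * ks * (∑ a', n1 (Γ.Bc a')) * K - lsoft Γ ks 0 a))
      (fun _ _ => (Real.exp_pos _).le) (Finset.mem_univ a)) (soft_pos _ _ _ _).le)
    rw [soft, ← Real.exp_add]
    exact Real.one_le_exp (by linarith)
  · have e : ∀ C : Mt N, 2 * ip B C - ip C C = ip B B - ip (B - C) (B - C) := fun C => by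
      simp only [ip, Finset.mul_sum, ← Finset.sum_sub_distrib, Matrix.sub_apply]
      exact Finset.sum_congr rfl fun i _ => Finset.sum_congr rfl fun j _ => by ring
    have h2 : sx Γ ks B a0 ≤ Real.log (∑ a', Real.exp (sx Γ ks B a')) := by
      rw [Real.le_log_iff_exp_le
        (Finset.sum_pos (fun _ _ => Real.exp_pos _) ⟨a, Finset.mem_univ a⟩)]
      exact Finset.single_le_sum (f := fun a' => Real.exp (sx Γ ks B a'))
        (fun _ _ => (Real.exp_pos _).le) (Finset.mem_univ a0)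
    have h3 : ip (B - Γ.Bc a0) (B - Γ.Bc a0) ≤ δ ^ 2 := by
      have h4 := (le_abs_self _).trans (abs_ip_le (abs_le_n1 (B - Γ.Bc a0)) (B - Γ.Bc a0))
      nlinarith [n1_nonneg (B - Γ.Bc a0)]
    have h5 : 4 * δ ^ 2 ≤ ip (B - Γ.Bc a) (B - Γ.Bc a) := by
      have hN' : (0 : ℝ) < N := by exact_mod_cast hN
      have h6 := (pow_le_pow_left₀ (by positivity) h1 2).trans (PROF_n1_sq (B - Γ.Bc a))
      refine le_of_mul_le_mul_left (le_trans (le_of_eq ?_) h6) (pow_pos hN' 2)
      ring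
    rw [soft, Real.exp_le_exp, lsoft]
    have h7 : sx Γ ks B a - sx Γ ks B a0 ≤ -(3 * ks * δ ^ 2) := by
      rw [sx, sx, e, e]
      nlinarith [mul_le_mul_of_nonneg_left h3 hks, mul_le_mul_of_nonneg_left h5 hks]
    linarith

end Pool.Agent.Lib.MP_13801a_an.ND
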