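import Mathlib
import Pool.Agent.Lib.MP_13801a_an.ND.StsG

/-!
Resolvent estimates for positive definite matrices.
-/

open Matrix

namespace Pool.Agent.Lib.MP_13801a_an.ND

variable {N : ℕ}

theorem RES_symm {P : Mt N} (h : P.IsHermitian) (i j : Fin N) : P i j = P j i := by
  simpa using h.apply j i

theorem RES_qf (A : Mt N) (y : Fin N → ℝ) : star y ⬝ᵥ A *ᵥ y = qf A y := by
  simp only [qf, dotProduct, mulVec, star_trivial, Finset.mul_sum]
  exact Finset.sum_congr rfl fun i _ => Finset.sum_congr rfl fun j _ => by ring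

theorem RES_qf_add (A B : Mt N) (y : Fin N → ℝ) : qf (A + B) y = qf A y + qf B y := by
  simp only [qf, Matrix.add_apply, add_mul, Finset.sum_add_distrib]

theorem RES_two {P : Mt N} (hP : P.PosSemidef) (i j : Fin N) (s t : ℝ) :
    0 ≤ s ^ 2 * P i i + 2 * s * t * P i j + t ^ 2 * P j j := by
  have h := hP.dotProduct_mulVec_nonneg
    (s • (Pi.single i 1 : Fin N → ℝ) + t • (Pi.single j 1 : Fin N → ℝ))
  simp only [star_trivial, mulVec_add, mulVec_smul, add_dotProduct, dotProduct_add,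
    smul_dotProduct, dotProduct_smul, single_dotProduct, mulVec_single, smul_eq_mul, one_mul,
    MulOpposite.op_one, one_smul, col_apply] at h
  rw [RES_symm hP.isHermitian j i] at h
  nlinarith [h]

theorem RES_sq {P : Mt N} (hP : P.PosSemidef) (i j : Fin N) : P i j ^ 2 ≤ P i i * P j j := by
  have h := discrim_le_zero (a := P i i) (b := 2 * P i j) (c := P j j) fun s => by
    have := RES_two hP i j s 1
    nlinarith [this]
  unfold discrim at h
  nlinarith [h]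

theorem RES_diag_le {P : Mt N} (hP : P.PosSemidef) (i : Fin N) : P i i ≤ P.trace :=
  Finset.single_le_sum (f := fun k => P k k) (fun _ _ => hP.diag_nonneg) (Finset.mem_univ i)

theorem RES_abs_le {P : Mt N} (hP : P.PosSemidef) {c : ℝ} (hc : ∀ i, P i i ≤ c) (i j : Fin N) :
    |P i j| ≤ c := by
  have h1 := RES_two hP i j 1 1
  have h2 := RES_two hP i j 1 (-1)
  have := hc i
  have := hc j
  rw [abs_le]
  constructor <;> nlinarith

theorem RES_row {P : Mt N} (hP : P.PosSemidef) {Φ : ℝ} (hΦ : P.trace ≤ Φ) (i : Fin N) :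
    ∑ k, P i k ^ 2 ≤ Φ ^ 2 := by
  have h0 : 0 ≤ P i i := hP.diag_nonneg
  have h1 := RES_diag_le hP i
  calc ∑ k, P i k ^ 2 ≤ ∑ k, P i i * P k k := Finset.sum_le_sum fun k _ => RES_sq hP i k
    _ = P i i * P.trace := by rw [← Finset.mul_sum]; rfl
    _ ≤ Φ ^ 2 := by nlinarith

theorem RES_mul_self {P : Mt N} (hP : P.PosSemidef) {Φ : ℝ} (hΦ : P.trace ≤ Φ) (i j : Fin N) :
    |(P * P) i j| ≤ Φ ^ 2 := by
  have h1 := RES_row hP hΦ i
  have h2 := RES_row hP hΦ j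
  rw [Matrix.mul_apply]
  calc |∑ k, P i k * P k j| ≤ ∑ k, |P i k * P k j| := Finset.abs_sum_le_sum_abs _ _
    _ ≤ ∑ k, (P i k ^ 2 + P j k ^ 2) / 2 := Finset.sum_le_sum fun k _ => by
        rw [RES_symm hP.isHermitian k j, abs_le]
        constructor <;> nlinarith [sq_nonneg (P i k + P j k), sq_nonneg (P i k - P j k)]
    _ = (∑ k, P i k ^ 2 + ∑ k, P j k ^ 2) / 2 := by
        rw [← Finset.sum_div, Finset.sum_add_distrib]
    _ ≤ Φ ^ 2 := by linarith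

theorem RES_qf_le {P : Mt N} (hP : P.PosSemidef) (y : Fin N → ℝ) :
    qf P y ≤ P.trace * ∑ i, y i ^ 2 := by
  have h1 : qf P y ≤ ∑ i, ∑ j, (P i i * y j ^ 2 + P j j * y i ^ 2) / 2 :=
    Finset.sum_le_sum fun i _ => Finset.sum_le_sum fun j _ => by
      have := RES_two hP i j (y j) (-y i)
      nlinarith [this]
  have h2 : ∑ i, ∑ j, P i i * y j ^ 2 = P.trace * ∑ i, y i ^ 2 := by
    rw [← Finset.sum_mul_sum]; rfl
  have h3 : ∑ i, ∑ j, P j j * y i ^ 2 = P.trace * ∑ i, y i ^ 2 := by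
    rw [Finset.sum_comm, h2]
  simp only [← Finset.sum_div, Finset.sum_add_distrib] at h1
  rw [h2, h3] at h1
  linarith

theorem RES_sandwich {A B : Mt N} {a b : ℝ} (hA : ∀ i j, |A i j| ≤ a) (hB : ∀ i j, |B i j| ≤ b)
    (D : Mt N) (i j : Fin N) : |(A * D * B) i j| ≤ a * b * n1 D := by
  have ha : 0 ≤ a := (abs_nonneg _).trans (hA i j)
  simp only [Matrix.mul_apply, Finset.sum_mul, n1, Finset.mul_sum]
  rw [Finset.sum_comm]
  refine (Finset.abs_sum_le_sum_abs _ _).trans (Finset.sum_le_sum fun k _ => ?_)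
  refine (Finset.abs_sum_le_sum_abs _ _).trans (Finset.sum_le_sum fun l _ => ?_)
  rw [abs_mul, abs_mul]
  calc |A i k| * |D k l| * |B l j| ≤ a * |D k l| * b :=
        mul_le_mul (mul_le_mul_of_nonneg_right (hA i k) (abs_nonneg _)) (hB l j) (abs_nonneg _)
          (mul_nonneg ha (abs_nonneg _))
    _ = a * b * |D k l| := by ring

theorem RES_n1_mid {Z : Mt N} {c : ℝ} (hZ : ∀ i j, |Z i j| ≤ c) (H : Mt N) :
    n1 (H * Z * H) ≤ c * n1 H ^ 2 := by
  have h1 : ∀ i j, |(H * Z * H) i j| ≤ c * ((∑ k, |H i k|) * ∑ l, |H l j|) := by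
    intro i j
    rw [Finset.sum_mul_sum, Finset.mul_sum]
    simp only [Matrix.mul_apply, Finset.sum_mul, Finset.mul_sum]
    rw [Finset.sum_comm]
    refine (Finset.abs_sum_le_sum_abs _ _).trans (Finset.sum_le_sum fun k _ => ?_)
    refine (Finset.abs_sum_le_sum_abs _ _).trans (Finset.sum_le_sum fun l _ => ?_)
    rw [abs_mul, abs_mul]
    calc |H i k| * |Z k l| * |H l j| ≤ |H i k| * c * |H l j| :=
          mul_le_mul_of_nonneg_right (mul_le_mul_of_nonneg_left (hZ k l) (abs_nonneg _))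
            (abs_nonneg _)
      _ = c * (|H i k| * |H l j|) := by ring
  calc n1 (H * Z * H) ≤ ∑ i, ∑ j, c * ((∑ k, |H i k|) * ∑ l, |H l j|) :=
        Finset.sum_le_sum fun i _ => Finset.sum_le_sum fun j _ => h1 i j
    _ = c * ((∑ i, ∑ k, |H i k|) * ∑ j, ∑ l, |H l j|) := by
        rw [Finset.sum_mul_sum, Finset.mul_sum]
        exact Finset.sum_congr rfl fun i _ => by rw [Finset.mul_sum]
    _ = c * n1 H ^ 2 := by
        rw [Finset.sum_comm (f := fun j l => |H l j|), sq]; rfl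

theorem RES_trace_ip (A : Mt N) {H : Mt N} (hH : ∀ i j, H i j = H j i) :
    (A * H).trace = ip A H := by
  simp only [Matrix.trace, Matrix.diag, Matrix.mul_apply, ip]
  exact Finset.sum_congr rfl fun i _ => Finset.sum_congr rfl fun j _ => by rw [hH j i]

theorem RES_abs_trace {A : Mt N} {a : ℝ} (hA : ∀ i j, |A i j| ≤ a) (D : Mt N) :
    |(A * D).trace| ≤ a * n1 D := by
  have h := abs_ip_le hA Dᵀ
  have e1 : ip A Dᵀ = (A * D).trace := by
    simp only [Matrix.trace, Matrix.diag, Matrix.mul_apply, ip, Matrix.transpose_apply]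
  have e2 : n1 Dᵀ = n1 D := by
    simp only [n1, Matrix.transpose_apply]
    exact Finset.sum_comm
  rwa [e1, e2] at h

theorem RES_mul_inv {X : Mt N} (hX : X.PosDef) : X * X⁻¹ = 1 :=
  Matrix.mul_nonsing_inv _ ((Matrix.isUnit_iff_isUnit_det _).1 hX.isUnit)

theorem RES_inv_mul {X : Mt N} (hX : X.PosDef) : X⁻¹ * X = 1 :=
  Matrix.nonsing_inv_mul _ ((Matrix.isUnit_iff_isUnit_det _).1 hX.isUnit)

/-- Lower bound of the quadratic form by the trace of the inverse. -/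
theorem RES_lower {X : Mt N} (hX : X.PosDef) {Φ : ℝ} (hΦ : X⁻¹.trace ≤ Φ) (hpos : 0 < Φ)
    (y : Fin N → ℝ) : ∑ i, y i ^ 2 ≤ Φ * qf X y := by
  have hP := hX.inv.posSemidef
  have hXs : Xᵀ = X := by simpa using hX.isHermitian.eq
  set z := X⁻¹ *ᵥ y with hz
  have hXz : X *ᵥ z = y := by rw [hz, mulVec_mulVec, RES_mul_inv hX, one_mulVec]
  have h := hX.posSemidef.dotProduct_mulVec_nonneg (Φ • y - z)
  have e1 : y ⬝ᵥ X *ᵥ y = qf X y := by simpa using RES_qf X y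
  have e2 : z ⬝ᵥ X *ᵥ y = ∑ i, y i ^ 2 := by
    rw [dotProduct_mulVec, ← mulVec_transpose, hXs, hXz]
    simp [dotProduct, sq]
  have e3 : y ⬝ᵥ y = ∑ i, y i ^ 2 := by simp [dotProduct, sq]
  have e4 : z ⬝ᵥ y = qf X⁻¹ y := by
    rw [dotProduct_comm, hz]
    simpa using RES_qf X⁻¹ y
  simp only [star_trivial, mulVec_sub, mulVec_smul, sub_dotProduct, dotProduct_sub,
    smul_dotProduct, dotProduct_smul, smul_eq_mul, hXz, e1, e2, e3, e4] at h
  have h2 := RES_qf_le hP y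
  have h3 : 0 ≤ ∑ i, y i ^ 2 := Finset.sum_nonneg fun _ _ => sq_nonneg _
  have h4 : X⁻¹.trace * ∑ i, y i ^ 2 ≤ Φ * ∑ i, y i ^ 2 := mul_le_mul_of_nonneg_right hΦ h3
  have h5 : Φ * ∑ i, y i ^ 2 ≤ Φ * (Φ * qf X y) := by nlinarith
  exact le_of_mul_le_mul_left h5 hpos

theorem RES : St_RES := by
  intro N
  refine ⟨2, by norm_num, fun Φ X hX hΦ => ?_⟩
  have hP := hX.inv.posSemidef
  have hΦ0 : 0 ≤ Φ := hP.trace_nonneg.trans hΦ
  have hP1 : ∀ i j, |X⁻¹ i j| ≤ Φ := RES_abs_le hP fun i => (RES_diag_le hP i).trans hΦ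
  have hP2 : ∀ i j, |(X⁻¹ * X⁻¹) i j| ≤ Φ ^ 2 := RES_mul_self hP hΦ
  refine ⟨hP2, fun Y hY hΦY i j => ?_, fun H hH hsmall => ?_⟩
  · have hQ := hY.inv.posSemidef
    have hQ1 : ∀ i j, |Y⁻¹ i j| ≤ Φ := RES_abs_le hQ fun i => (RES_diag_le hQ i).trans hΦY
    have hQ2 : ∀ i j, |(Y⁻¹ * Y⁻¹) i j| ≤ Φ ^ 2 := RES_mul_self hQ hΦY
    have e : X⁻¹ * X⁻¹ - Y⁻¹ * Y⁻¹ =
        -(X⁻¹ * X⁻¹ * (X - Y) * Y⁻¹ + X⁻¹ * (X - Y) * (Y⁻¹ * Y⁻¹)) := by
      have a1 : X⁻¹ * X⁻¹ * (X - Y) * Y⁻¹ = X⁻¹ * Y⁻¹ - X⁻¹ * X⁻¹ := by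
        rw [mul_sub, sub_mul, mul_assoc (X⁻¹) (X⁻¹) X, RES_inv_mul hX, mul_one,
          mul_assoc (X⁻¹ * X⁻¹) Y, RES_mul_inv hY, mul_one]
      have a2 : X⁻¹ * (X - Y) * (Y⁻¹ * Y⁻¹) = Y⁻¹ * Y⁻¹ - X⁻¹ * Y⁻¹ := by
        rw [mul_sub, sub_mul, RES_inv_mul hX, one_mul, mul_assoc (X⁻¹) Y,
          ← mul_assoc Y, RES_mul_inv hY, one_mul]
      rw [a1, a2]
      abel
    have e' : iv2 X i j - iv2 Y i j = -((X⁻¹ * X⁻¹ * (X - Y) * Y⁻¹) i j +
        (X⁻¹ * (X - Y) * (Y⁻¹ * Y⁻¹)) i j) := by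
      have := congrFun (congrFun e i) j
      simpa only [iv2, Matrix.sub_apply, Matrix.neg_apply, Matrix.add_apply] using this
    rw [e', abs_neg]
    have b1 := RES_sandwich hP2 hQ1 (X - Y) i j
    have b2 := RES_sandwich hP1 hQ2 (X - Y) i j
    refine (abs_add_le _ _).trans ?_
    nlinarith [b1, b2]
  · have hherm : (X + H).IsHermitian := by
      refine hX.isHermitian.add ?_
      ext i j
      simp [hH i j]
    have hlow : 0 < Φ → ∀ y : Fin N → ℝ, ∑ i, y i ^ 2 ≤ 2 * Φ * qf (X + H) y := by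
      intro hpos y
      have h1 := RES_lower hX hΦ hpos y
      have h2 := (abs_le.1 (abs_qf_le H y)).1
      have h3 : 0 ≤ ∑ i, y i ^ 2 := Finset.sum_nonneg fun _ _ => sq_nonneg _
      have h4 : 2 * Φ * n1 H * ∑ i, y i ^ 2 ≤ 1 * ∑ i, y i ^ 2 :=
        mul_le_mul_of_nonneg_right hsmall h3
      rw [RES_qf_add]
      nlinarith
    have hpos : ∀ _ : Fin N, 0 < Φ := fun i =>
      (hX.inv.diag_pos (i := i)).trans_le ((RES_diag_le hP i).trans hΦ)
    have hXH : (X + H).PosDef := by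
      refine Matrix.PosDef.of_dotProduct_mulVec_pos hherm fun y hy => ?_
      obtain ⟨i, hi⟩ := Function.ne_iff.1 hy
      have h1 := hlow (hpos i) y
      have h2 : 0 < ∑ k, y k ^ 2 :=
        lt_of_lt_of_le (by simpa using pow_pos (abs_pos.2 hi) 2)
          (Finset.single_le_sum (f := fun k => y k ^ 2) (fun _ _ => sq_nonneg _)
            (Finset.mem_univ i))
      rw [RES_qf]
      have := hpos i
      by_contra hcon
      nlinarith
    refine ⟨hXH, ?_⟩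
    have hZ := hXH.inv
    have hZd : ∀ i, (X + H)⁻¹ i i ≤ 2 * Φ := by
      intro i
      set y : Fin N → ℝ := (X + H)⁻¹ *ᵥ Pi.single i 1 with hy
      have hyi : y i = (X + H)⁻¹ i i := by simp [hy]
      have h1 := hlow (hpos i) y
      have h2 : qf (X + H) y = (X + H)⁻¹ i i := by
        rw [← RES_qf, hy, mulVec_mulVec, RES_mul_inv hXH, one_mulVec, star_trivial,
          dotProduct_single, mul_one, ← hy, hyi]
      have h3 : y i ^ 2 ≤ ∑ k, y k ^ 2 :=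
        Finset.single_le_sum (f := fun k => y k ^ 2) (fun _ _ => sq_nonneg _) (Finset.mem_univ i)
      have h4 : 0 < (X + H)⁻¹ i i := hZ.diag_pos
      rw [h2] at h1
      rw [hyi] at h3
      nlinarith
    have hZ1 : ∀ i j, |(X + H)⁻¹ i j| ≤ 2 * Φ := RES_abs_le hZ.posSemidef hZd
    have a1 : (X + H)⁻¹ = X⁻¹ - X⁻¹ * H * (X + H)⁻¹ := by
      have : X⁻¹ * (X + H) * (X + H)⁻¹ = X⁻¹ := by rw [mul_assoc, RES_mul_inv hXH, mul_one]
      rw [mul_add, RES_inv_mul hX, add_mul, one_mul] at this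
      exact eq_sub_of_add_eq this
    have a2 : (X + H)⁻¹ = X⁻¹ - (X + H)⁻¹ * H * X⁻¹ := by
      have : (X + H)⁻¹ * (X + H) * X⁻¹ = X⁻¹ := by rw [RES_inv_mul hXH, one_mul]
      rw [mul_add, add_mul, mul_assoc _ X, RES_mul_inv hX, mul_one] at this
      exact eq_sub_of_add_eq this
    have a3 : (X + H)⁻¹ = X⁻¹ - X⁻¹ * H * X⁻¹ + X⁻¹ * (H * (X + H)⁻¹ * H) * X⁻¹ := by
      calc (X + H)⁻¹ = X⁻¹ - X⁻¹ * H * (X + H)⁻¹ := a1
        _ = X⁻¹ - X⁻¹ * H * (X⁻¹ - (X + H)⁻¹ * H * X⁻¹) := by rw [← a2]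
        _ = _ := by noncomm_ring
    have t1 : (X⁻¹ * H * X⁻¹).trace = ip (iv2 X) H := by
      rw [Matrix.trace_mul_comm, ← mul_assoc, RES_trace_ip _ hH]
      rfl
    have t2 : (X⁻¹ * (H * (X + H)⁻¹ * H) * X⁻¹).trace ≤ 2 * Φ ^ 3 * n1 H ^ 2 := by
      rw [Matrix.trace_mul_comm, ← mul_assoc]
      have b1 := (abs_le.1 (RES_abs_trace hP2 (H * (X + H)⁻¹ * H))).2
      have b2 := RES_n1_mid hZ1 H
      have b3 := mul_le_mul_of_nonneg_left b2 (sq_nonneg Φ)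
      nlinarith
    have t3 := congrArg Matrix.trace a3
    rw [Matrix.trace_add, Matrix.trace_sub, t1] at t3
    linarith

end Pool.Agent.Lib.MP_13801a_an.ND
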