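import Mathlib
import Pool.Agent.Lib.MP_13801a_an.ND.StsG

/-!
Sensitivity of the weights of the game: bounds on the first and second derivatives of the
recursion with respect to a real parameter.
-/

open MeasureTheory Set Filter Matrix
open scoped Topology

namespace Pool.Agent.Lib.MP_13801a_an.ND

noncomputable section

variable {N : ℕ}

/-- `f` has a derivative at `s0` bounded by `p1`; if `two` holds then `f` is differentiable
everywhere and has a second derivative at `s0` bounded by `p2`. -/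
def SENS_J (two : Prop) (s0 : ℝ) (f : ℝ → ℝ) (p1 p2 : ℝ) : Prop :=
  ∃ x1 : ℝ, HasDerivAt f x1 s0 ∧ |x1| ≤ p1 ∧
    (two → ∃ (f1 : ℝ → ℝ) (x2 : ℝ), (∀ s, HasDerivAt f (f1 s) s) ∧ HasDerivAt f1 x2 s0 ∧ |x2| ≤ p2)

section jets

variable {two : Prop} {s0 : ℝ}

theorem SENS_mono {f : ℝ → ℝ} {p1 p2 q1 q2 : ℝ} (h : SENS_J two s0 f p1 p2) (h1 : p1 ≤ q1)
    (h2 : p2 ≤ q2) : SENS_J two s0 f q1 q2 := by
  obtain ⟨x1, hx, hb, ht⟩ := h
  refine ⟨x1, hx, hb.trans h1, fun t => ?_⟩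
  obtain ⟨f1, x2, h3, h4, h5⟩ := ht t
  exact ⟨f1, x2, h3, h4, h5.trans h2⟩

theorem SENS_const (c : ℝ) : SENS_J two s0 (fun _ => c) 0 0 :=
  ⟨0, hasDerivAt_const _ _, by simp, fun _ =>
    ⟨fun _ => 0, 0, fun _ => hasDerivAt_const _ _, hasDerivAt_const _ _, by simp⟩⟩

theorem SENS_add {f g : ℝ → ℝ} {p1 p2 q1 q2 : ℝ} (h : SENS_J two s0 f p1 p2)
    (h' : SENS_J two s0 g q1 q2) : SENS_J two s0 (fun s => f s + g s) (p1 + q1) (p2 + q2) := by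
  obtain ⟨x1, hx, hb, ht⟩ := h
  obtain ⟨y1, hy, hb', ht'⟩ := h'
  refine ⟨x1 + y1, hx.fun_add hy, (abs_add_le _ _).trans (add_le_add hb hb'), fun t => ?_⟩
  obtain ⟨f1, x2, h3, h4, h5⟩ := ht t
  obtain ⟨g1, y2, h3', h4', h5'⟩ := ht' t
  exact ⟨fun s => f1 s + g1 s, x2 + y2, fun s => (h3 s).fun_add (h3' s), h4.fun_add h4',
    (abs_add_le _ _).trans (add_le_add h5 h5')⟩

theorem SENS_cmul (c : ℝ) {f : ℝ → ℝ} {p1 p2 : ℝ} (h : SENS_J two s0 f p1 p2) :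
    SENS_J two s0 (fun s => c * f s) (|c| * p1) (|c| * p2) := by
  obtain ⟨x1, hx, hb, ht⟩ := h
  refine ⟨c * x1, hx.const_mul c, ?_, fun t => ?_⟩
  · rw [abs_mul]
    exact mul_le_mul_of_nonneg_left hb (abs_nonneg _)
  · obtain ⟨f1, x2, h3, h4, h5⟩ := ht t
    refine ⟨fun s => c * f1 s, c * x2, fun s => (h3 s).const_mul c, h4.const_mul c, ?_⟩
    rw [abs_mul]
    exact mul_le_mul_of_nonneg_left h5 (abs_nonneg _)

theorem SENS_neg {f : ℝ → ℝ} {p1 p2 : ℝ} (h : SENS_J two s0 f p1 p2) :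
    SENS_J two s0 (fun s => -f s) p1 p2 := by
  simpa using SENS_cmul (-1) h

theorem SENS_sub {f g : ℝ → ℝ} {p1 p2 q1 q2 : ℝ} (h : SENS_J two s0 f p1 p2)
    (h' : SENS_J two s0 g q1 q2) : SENS_J two s0 (fun s => f s - g s) (p1 + q1) (p2 + q2) := by
  simpa [sub_eq_add_neg] using SENS_add h (SENS_neg h')

theorem SENS_abs_mul {x y p q : ℝ} (hx : |x| ≤ p) (hy : |y| ≤ q) : |x * y| ≤ p * q := by
  rw [abs_mul]
  exact mul_le_mul hx hy (abs_nonneg _) ((abs_nonneg _).trans hx)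

theorem SENS_mul {f g : ℝ → ℝ} {p0 p1 p2 q0 q1 q2 : ℝ} (h : SENS_J two s0 f p1 p2)
    (h' : SENS_J two s0 g q1 q2) (hf : |f s0| ≤ p0) (hg : |g s0| ≤ q0) :
    SENS_J two s0 (fun s => f s * g s) (p0 * q1 + p1 * q0)
      (p0 * q2 + 2 * (p1 * q1) + p2 * q0) := by
  obtain ⟨x1, hx, hb, ht⟩ := h
  obtain ⟨y1, hy, hb', ht'⟩ := h'
  refine ⟨x1 * g s0 + f s0 * y1, hx.fun_mul hy, ?_, fun t => ?_⟩
  · have h1 := SENS_abs_mul hb hg
    have h2 := SENS_abs_mul hf hb'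
    linarith [abs_add_le (x1 * g s0) (f s0 * y1)]
  · obtain ⟨f1, x2, h3, h4, h5⟩ := ht t
    obtain ⟨g1, y2, h3', h4', h5'⟩ := ht' t
    have e1 : f1 s0 = x1 := (h3 s0).unique hx
    have e2 : g1 s0 = y1 := (h3' s0).unique hy
    refine ⟨fun s => f1 s * g s + f s * g1 s, x2 * g s0 + f1 s0 * y1 + (x1 * g1 s0 + f s0 * y2),
      fun s => (h3 s).fun_mul (h3' s), (h4.fun_mul hy).fun_add (hx.fun_mul h4'), ?_⟩
    rw [e1, e2]
    have h1 := SENS_abs_mul h5 hg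
    have h2 := SENS_abs_mul hb hb'
    have h6 := SENS_abs_mul hf h5'
    linarith [abs_add_le (x2 * g s0 + x1 * y1) (x1 * y1 + f s0 * y2),
      abs_add_le (x2 * g s0) (x1 * y1), abs_add_le (x1 * y1) (f s0 * y2)]

theorem SENS_comp {f G G1 : ℝ → ℝ} {p1 p2 g2 γ1 γ2 : ℝ} (h : SENS_J two s0 f p1 p2)
    (hG : ∀ s, HasDerivAt G (G1 (f s)) (f s)) (hG1 : HasDerivAt G1 g2 (f s0))
    (b1 : |G1 (f s0)| ≤ γ1) (b2 : |g2| ≤ γ2) :
    SENS_J two s0 (fun s => G (f s)) (γ1 * p1) (γ2 * p1 ^ 2 + γ1 * p2) := by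
  obtain ⟨x1, hx, hb, ht⟩ := h
  refine ⟨G1 (f s0) * x1, (hG s0).comp s0 hx, SENS_abs_mul b1 hb, fun t => ?_⟩
  obtain ⟨f1, x2, h3, h4, h5⟩ := ht t
  have e1 : f1 s0 = x1 := (h3 s0).unique hx
  have h6 : HasDerivAt (fun s => G1 (f s)) (g2 * x1) s0 := hG1.comp s0 hx
  refine ⟨fun s => G1 (f s) * f1 s, g2 * x1 * f1 s0 + G1 (f s0) * x2,
    fun s => (hG s).comp s (h3 s), h6.fun_mul h4, ?_⟩
  rw [e1]
  have h1 := SENS_abs_mul (SENS_abs_mul b2 hb) hb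
  have h2 := SENS_abs_mul b1 h5
  have e2 : γ2 * p1 * p1 = γ2 * p1 ^ 2 := by ring
  linarith [abs_add_le (g2 * x1 * x1) (G1 (f s0) * x2)]

theorem SENS_sum {ι : Type*} (S : Finset ι) {f : ι → ℝ → ℝ} {p1 p2 : ι → ℝ}
    (h : ∀ i ∈ S, SENS_J two s0 (f i) (p1 i) (p2 i)) :
    SENS_J two s0 (fun s => ∑ i ∈ S, f i s) (∑ i ∈ S, p1 i) (∑ i ∈ S, p2 i) := by
  classical
  induction S using Finset.induction_on with
  | empty => simpa using SENS_const (two := two) (s0 := s0) 0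
  | insert i S hi ih =>
    simp only [Finset.sum_insert hi]
    exact SENS_add (h i (Finset.mem_insert_self _ _))
      (ih fun j hj => h j (Finset.mem_insert_of_mem hj))

theorem SENS_exp {f : ℝ → ℝ} {p1 p2 E : ℝ} (h : SENS_J two s0 f p1 p2)
    (hE : Real.exp (f s0) ≤ E) :
    SENS_J two s0 (fun s => Real.exp (f s)) (E * p1) (E * (p1 ^ 2 + p2)) := by
  have hE' : |Real.exp (f s0)| ≤ E := by rwa [abs_of_pos (Real.exp_pos _)]
  have h1 := SENS_comp (G := Real.exp) (G1 := Real.exp) h (fun s => Real.hasDerivAt_exp _)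
    (Real.hasDerivAt_exp _) hE' hE'
  exact SENS_mono h1 le_rfl (le_of_eq (by ring))

theorem SENS_lse {ι : Type*} [Fintype ι] (a0 : ι) {f : ι → ℝ → ℝ} {p1 p2 : ℝ}
    (h : ∀ a, SENS_J two s0 (f a) p1 p2) :
    SENS_J two s0 (fun s => Real.log (∑ a, Real.exp (f a s))) p1 (2 * p1 ^ 2 + p2) := by
  have hpos : ∀ s, 0 < ∑ a, Real.exp (f a s) := fun s =>
    Finset.sum_pos (fun _ _ => Real.exp_pos _) ⟨a0, Finset.mem_univ _⟩
  have h1 := SENS_sum Finset.univ (fun a _ => SENS_exp (h a) le_rfl)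
  rw [← Finset.sum_mul, ← Finset.sum_mul] at h1
  have h0 := hpos s0
  have h2 := SENS_comp (G := Real.log) (G1 := fun y => y⁻¹) (γ1 := (∑ a, Real.exp (f a s0))⁻¹)
    (γ2 := ((∑ a, Real.exp (f a s0)) ^ 2)⁻¹) h1 (fun s => Real.hasDerivAt_log (hpos s).ne')
    (hasDerivAt_inv h0.ne') (by rw [abs_of_pos (inv_pos.2 h0)])
    (by rw [abs_neg, abs_of_pos (by positivity)])
  refine SENS_mono h2 (le_of_eq ?_) (le_of_eq ?_)
  · field_simp
  · field_simp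
    ring

theorem SENS_ip {B : ℝ → Mt N} {p1 p2 : ℝ} (h : ∀ i j, SENS_J two s0 (fun s => B s i j) p1 p2)
    (A : Mt N) : SENS_J two s0 (fun s => ip (B s) A) (n1 A * p1) (n1 A * p2) := by
  have h1 := SENS_sum Finset.univ fun i _ => SENS_sum Finset.univ fun j _ =>
    SENS_cmul (A i j) (h i j)
  simp only [← Finset.sum_mul] at h1
  have e : (fun s => ip (B s) A) = fun s => ∑ i, ∑ j, A i j * B s i j := by
    funext s
    simp only [ip, mul_comm]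
  rw [e]
  exact h1

theorem SENS_trace {B : ℝ → Mt N} {p1 p2 : ℝ}
    (h : ∀ i j, SENS_J two s0 (fun s => B s i j) p1 p2) :
    SENS_J two s0 (fun s => (B s).trace) (N * p1) (N * p2) := by
  have h1 := SENS_sum Finset.univ fun i _ => h i i
  simpa [Matrix.trace] using h1

theorem SENS_lsoft (Γ : Net N) {ks D : ℝ} (hks : 0 ≤ ks) (hD : ∀ a, ks * 2 * n1 (Γ.Bc a) ≤ D)
    {B : ℝ → Mt N} {p1 p2 : ℝ} (h1 : 0 ≤ p1) (h2 : 0 ≤ p2)
    (h : ∀ i j, SENS_J two s0 (fun s => B s i j) p1 p2) (a : Fin Γ.m) :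
    SENS_J two s0 (fun s => lsoft Γ ks (B s) a) (2 * D * p1)
      (2 * D * p2 + 2 * D ^ 2 * p1 ^ 2) := by
  have hs : ∀ a, SENS_J two s0 (fun s => sx Γ ks (B s) a) (D * p1) (D * p2) := by
    intro a
    have h3 := SENS_cmul ks (SENS_sub (SENS_cmul 2 (SENS_ip h (Γ.Bc a)))
      (SENS_const (ip (Γ.Bc a) (Γ.Bc a))))
    rw [abs_of_nonneg hks, abs_two] at h3
    refine SENS_mono h3 ?_ ?_
    · nlinarith [mul_le_mul_of_nonneg_right (hD a) h1]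
    · nlinarith [mul_le_mul_of_nonneg_right (hD a) h2]
  exact SENS_mono (SENS_sub (hs a) (SENS_lse a hs)) (le_of_eq (by ring)) (le_of_eq (by ring))

end jets

/-! ### The recursion -/

theorem SENS_mu_succ {m : ℕ} (C1 : ℝ) (w : Fin m → ℕ → ℝ) (b1 : Fin m → ℕ → Mt N)
    (w1 : Fin m → ℕ → ℝ) (k : ℕ) :
    mu C1 w b1 w1 (k + 1) = mu C1 w b1 w1 k +
      (Real.exp (-ck C1 w k) * (∑ a, n1 (b1 a k)) + ∑ a, |w1 a k|) := by
  rw [mu, mu, Finset.sum_range_succ, Finset.mul_sum, ← Finset.sum_add_distrib]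

theorem SENS_tv_succ {m : ℕ} (C1 : ℝ) (w u : Fin m → ℕ → ℝ) (k : ℕ) :
    tv C1 w u (k + 1) = tv C1 w u k + Real.exp (-ck C1 w k / 2) * ∑ a, u a k := by
  simp [tv, Finset.sum_range_succ]

theorem SENS_ck {two : Prop} {s0 : ℝ} {m : ℕ} {C1 : ℝ} (hC : 1 ≤ C1) {w : ℝ → Fin m → ℕ → ℝ}
    (b1 b2 : Fin m → ℕ → Mt N) {w1 w2 : Fin m → ℕ → ℝ}
    (hw : ∀ a k, SENS_J two s0 (fun s => w s a k) |w1 a k| |w2 a k|) (k : ℕ) :
    SENS_J two s0 (fun s => ck C1 (w s) k) (mu C1 (w s0) b1 w1 k) (mu C1 (w s0) b2 w2 k) := by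
  have h1 := SENS_cmul C1⁻¹ (SENS_sum (Finset.range k) fun k' _ =>
    SENS_sum Finset.univ fun a _ => hw a k')
  have e : (fun s => ck C1 (w s) k) = fun s => C1⁻¹ * ∑ k' ∈ Finset.range k, ∑ a, w s a k' := by
    funext s
    rw [ck, div_eq_inv_mul]
  have h2 : |C1⁻¹| ≤ 1 := by
    rw [abs_of_pos (by positivity)]
    exact inv_le_one_of_one_le₀ hC
  have h3 : ∀ (b : Fin m → ℕ → Mt N) (v : Fin m → ℕ → ℝ),
      |C1⁻¹| * ∑ k' ∈ Finset.range k, ∑ a, |v a k'| ≤ mu C1 (w s0) b v k := by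
    intro b v
    have h4 : 0 ≤ ∑ k' ∈ Finset.range k, ∑ a, |v a k'| :=
      Finset.sum_nonneg fun _ _ => Finset.sum_nonneg fun _ _ => abs_nonneg _
    refine (mul_le_of_le_one_left h4 h2).trans ?_
    exact Finset.sum_le_sum fun k' _ => Finset.sum_le_sum fun a _ =>
      le_add_of_nonneg_left (mul_nonneg (Real.exp_pos _).le (n1_nonneg _))
  rw [e]
  exact SENS_mono h1 (h3 _ _) (h3 _ _)

/-- Arithmetic of one step, first order. -/
theorem SENS_ar1 {D G G' μ δ δ' t t' : ℝ} (hD : 0 ≤ D) (hG : 1 ≤ G)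
    (hG' : G * (1 + (2 + 2 * D) * t) ≤ G') (hμ : 0 ≤ μ) (hδ : 0 ≤ δ') (hδ' : δ' ≤ δ)
    (ht : 0 ≤ t') (ht' : t' ≤ t) :
    G * μ + (δ' + (μ + 2 * D * (G * μ)) * t') ≤ G' * (μ + δ) := by
  have h0 : 0 ≤ t := ht.trans ht'
  have h1 : G ≤ G' := by
    have : 0 ≤ G * ((2 + 2 * D) * t) := by positivity
    linarith
  have h2 : μ + 2 * D * (G * μ) ≤ (2 + 2 * D) * (G * μ) := by nlinarith
  have h3 : (μ + 2 * D * (G * μ)) * t' ≤ (2 + 2 * D) * (G * μ) * t :=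
    mul_le_mul h2 ht' ht (by positivity)
  have h4 : G * (1 + (2 + 2 * D) * t) * μ ≤ G' * μ := mul_le_mul_of_nonneg_right hG' hμ
  have h5 : δ ≤ G' * δ := le_mul_of_one_le_left (hδ.trans hδ') (hG.trans h1)
  nlinarith

/-- Arithmetic of one step, second order. -/
theorem SENS_ar2 {D G G' R μ ν δ δ' ε ε' t t' L : ℝ} (hD : 0 ≤ D) (hG : 1 ≤ G)
    (hG' : G * (1 + (2 + 2 * D) * t) ≤ G') (hR : (2 + 2 * D) * G ≤ R) (hμ : 0 ≤ μ) (hν : 0 ≤ ν)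
    (hδ : 0 ≤ δ') (hδ' : δ' ≤ δ) (hε : 0 ≤ ε') (hε' : ε' ≤ ε) (ht : 0 ≤ t') (ht' : t' ≤ t)
    (hL : L = μ + 2 * D * (G * μ)) :
    R ^ 2 * G * (ν + μ ^ 2) + (ε' + 2 * (L * δ') + (L ^ 2 + (ν +
      (2 * D * (R ^ 2 * G * (ν + μ ^ 2)) + 2 * D ^ 2 * (G * μ) ^ 2))) * t') ≤
      R ^ 2 * G' * (ν + ε + (μ + δ) ^ 2) := by
  have h0 : 0 ≤ t := ht.trans ht'
  have h1 : G ≤ G' := by
    have : 0 ≤ G * ((2 + 2 * D) * t) := by positivity
    linarith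
  have hR1 : 1 ≤ R := by nlinarith
  have hL0 : 0 ≤ L := by rw [hL]; positivity
  have hL1 : L ≤ R * μ := by
    have h2 : μ + 2 * D * (G * μ) ≤ (2 + 2 * D) * G * μ := by nlinarith
    have h3 := mul_le_mul_of_nonneg_right hR hμ
    linarith
  set H := R ^ 2 * G with hH
  have hR2 : R ^ 2 ≤ H := le_mul_of_one_le_right (by positivity) hG
  have hRR : R ≤ R ^ 2 := by nlinarith
  have hH1 : 1 ≤ H := by linarith
  have h2 : L ^ 2 ≤ H * μ ^ 2 := by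
    calc L ^ 2 ≤ (R * μ) ^ 2 := by gcongr
      _ = R ^ 2 * μ ^ 2 := by ring
      _ ≤ H * μ ^ 2 := by gcongr
  have h3 : 2 * D ^ 2 * (G * μ) ^ 2 ≤ H * μ ^ 2 := by
    have h4 : 2 * D * G ≤ R := by nlinarith
    have h5 : (2 * D * G) ^ 2 ≤ R ^ 2 := by gcongr
    calc 2 * D ^ 2 * (G * μ) ^ 2 ≤ (2 * D * G) ^ 2 * μ ^ 2 := by
          have : 0 ≤ D ^ 2 * (G * μ) ^ 2 := by positivity
          nlinarith
      _ ≤ H * μ ^ 2 := by gcongr; linarith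
  have h4 : ν ≤ H * ν := le_mul_of_one_le_left hν hH1
  have h5 : L ^ 2 + (ν + (2 * D * (H * (ν + μ ^ 2)) + 2 * D ^ 2 * (G * μ) ^ 2)) ≤
      (2 + 2 * D) * (H * (ν + μ ^ 2)) := by nlinarith
  have h6 := mul_le_mul h5 ht' ht (by positivity)
  have h7 : R ^ 2 * (G * (1 + (2 + 2 * D) * t)) * (ν + μ ^ 2) ≤ R ^ 2 * G' * (ν + μ ^ 2) := by
    gcongr
  have hH' : H ≤ R ^ 2 * G' := by rw [hH]; gcongr
  have h8 : ε' ≤ R ^ 2 * G' * ε :=
    hε'.trans (le_mul_of_one_le_left (hε.trans hε') (hH1.trans hH'))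
  have h9 : L * δ' ≤ R ^ 2 * G' * (μ * δ) := by
    calc L * δ' ≤ R * μ * δ := mul_le_mul hL1 hδ' hδ (by positivity)
      _ = R * (μ * δ) := by ring
      _ ≤ R ^ 2 * G' * (μ * δ) :=
        mul_le_mul_of_nonneg_right (by linarith) (mul_nonneg hμ (hδ.trans hδ'))
  have h10 : 0 ≤ R ^ 2 * G' * δ ^ 2 := by
    have : 0 ≤ G' := by linarith
    positivity
  have e1 : R ^ 2 * (G * (1 + (2 + 2 * D) * t)) * (ν + μ ^ 2) =
      H * (ν + μ ^ 2) + (2 + 2 * D) * (H * (ν + μ ^ 2)) * t := by rw [hH]; ring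
  have e2 : R ^ 2 * G' * (ν + ε + (μ + δ) ^ 2) = R ^ 2 * G' * (ν + μ ^ 2) + R ^ 2 * G' * ε +
      2 * (R ^ 2 * G' * (μ * δ)) + R ^ 2 * G' * δ ^ 2 := by ring
  linarith

/-- Arithmetic of one step of the stopping exponent. -/
theorem SENS_ar3 {Z1 Z2 T μ ν δ δ' ε ε' t t' E : ℝ} (hZ1 : 0 ≤ Z1) (hZ2 : 0 ≤ Z2) (hT : 0 ≤ T)
    (hμ : 0 ≤ μ) (hν : 0 ≤ ν) (hδ : 0 ≤ δ') (hδ' : δ' ≤ δ) (hε : 0 ≤ ε') (hε' : ε' ≤ ε)
    (hE : 0 ≤ E) (hE' : E ≤ 1) (ht : 0 ≤ t') (ht' : E * t' ≤ t) :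
    (1 + Z1) * (1 + T) * μ + (1 * (E * δ' + E * μ * t') + Z1 * μ * (E * t')) ≤
        (1 + Z1) * (1 + (T + t)) * (μ + δ) ∧
      (1 + 2 * Z1 + Z2) * (1 + T) * (ν + μ ^ 2) +
        (1 * (E * ε' + 2 * (E * μ * δ') + E * (μ ^ 2 + ν) * t') +
          2 * (Z1 * μ * (E * δ' + E * μ * t')) + Z2 * (ν + μ ^ 2) * (E * t')) ≤
        (1 + 2 * Z1 + Z2) * (1 + (T + t)) * (ν + ε + (μ + δ) ^ 2) := by
  have h0 : 0 ≤ t := (mul_nonneg hE ht).trans ht'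
  have h1 : E * δ' ≤ δ := (mul_le_of_le_one_left hδ hE').trans hδ'
  have h2 : E * ε' ≤ ε := (mul_le_of_le_one_left hε hE').trans hε'
  have hδ0 : 0 ≤ δ := hδ.trans hδ'
  have hε0 : 0 ≤ ε := hε.trans hε'
  constructor
  · have h3 : (1 + Z1) * μ * (E * t') ≤ (1 + Z1) * μ * t :=
      mul_le_mul_of_nonneg_left ht' (by positivity)
    have h4 : δ ≤ (1 + Z1) * (1 + (T + t)) * δ :=
      le_mul_of_one_le_left hδ0 (one_le_mul_of_one_le_of_one_le (by linarith) (by linarith))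
    nlinarith
  · set A := 1 + 2 * Z1 + Z2 with hA
    have hA1 : 1 ≤ A := by linarith
    have hB : A ≤ A * (1 + (T + t)) := le_mul_of_one_le_right (by linarith) (by linarith)
    have h3 : E * ε' ≤ A * (1 + (T + t)) * ε :=
      h2.trans (le_mul_of_one_le_left hε0 (hA1.trans hB))
    have h4 : (1 + Z1) * (μ * (E * δ')) ≤ A * (1 + (T + t)) * (μ * δ) :=
      mul_le_mul (by linarith) (mul_le_mul_of_nonneg_left h1 hμ) (by positivity) (by positivity)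
    have h5 : A * (ν + μ ^ 2) * (E * t') ≤ A * (ν + μ ^ 2) * t :=
      mul_le_mul_of_nonneg_left ht' (by positivity)
    have h6 : 0 ≤ Z1 * ν * (E * t') := by positivity
    have h7 : 0 ≤ A * (1 + (T + t)) * δ ^ 2 := by positivity
    have e1 : A * (1 + (T + t)) * (ν + ε + (μ + δ) ^ 2) =
        A * (1 + T) * (ν + μ ^ 2) + A * (ν + μ ^ 2) * t + A * (1 + (T + t)) * ε +
          2 * (A * (1 + (T + t)) * (μ * δ)) + A * (1 + (T + t)) * δ ^ 2 := by ring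
    have e2 : 1 * (E * ε' + 2 * (E * μ * δ') + E * (μ ^ 2 + ν) * t') +
        2 * (Z1 * μ * (E * δ' + E * μ * t')) + Z2 * (ν + μ ^ 2) * (E * t') =
        E * ε' + 2 * ((1 + Z1) * (μ * (E * δ'))) + A * (ν + μ ^ 2) * (E * t') -
          2 * (Z1 * ν * (E * t')) := by rw [hA]; ring
    linarith

section recursion

variable {Γ : Net N} {P : GPar} {two : Prop} {s0 : ℝ} {b : ℝ → Fin Γ.m → ℕ → Mt N}
  {w : ℝ → Fin Γ.m → ℕ → ℝ} {b1 b2 : Fin Γ.m → ℕ → Mt N} {w1 w2 : Fin Γ.m → ℕ → ℝ}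

theorem SENS_damp (hP : P.Ok) (hw0 : ∀ a k, 0 ≤ w s0 a k) (k : ℕ) :
    Real.exp (-ck P.C1 (w s0) k) ≤ 1 ∧
    Real.exp (-ck P.C1 (w s0) k) * (∑ a, w s0 a k) ≤
      Real.exp (-ck P.C1 (w s0) k / 2) * ∑ a, (w s0 a k + n1 (b s0 a k)) ∧
    Real.exp (-ck P.C1 (w s0) k) * (∑ a, n1 (b s0 a k)) ≤
      Real.exp (-ck P.C1 (w s0) k / 2) * ∑ a, (w s0 a k + n1 (b s0 a k)) := by
  have h0 := ck_nonneg hP.C11 hw0 k
  have h1 : Real.exp (-ck P.C1 (w s0) k) ≤ Real.exp (-ck P.C1 (w s0) k / 2) :=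
    Real.exp_le_exp.2 (by linarith)
  refine ⟨Real.exp_le_one_iff.2 (by linarith), ?_, ?_⟩
  · exact mul_le_mul h1 (Finset.sum_le_sum fun a _ => le_add_of_nonneg_right (n1_nonneg _))
      (Finset.sum_nonneg fun a _ => hw0 a k) (Real.exp_pos _).le
  · exact mul_le_mul h1 (Finset.sum_le_sum fun a _ => le_add_of_nonneg_left (hw0 a k))
      (Finset.sum_nonneg fun a _ => n1_nonneg _) (Real.exp_pos _).le

theorem SENS_tv_nonneg (hw0 : ∀ a k, 0 ≤ w s0 a k) (k : ℕ) :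
    0 ≤ tv P.C1 (w s0) (fun a k => w s0 a k + n1 (b s0 a k)) k :=
  Finset.sum_nonneg fun _ _ => mul_nonneg (Real.exp_pos _).le
    (Finset.sum_nonneg fun a _ => add_nonneg (hw0 a _) (n1_nonneg _))

theorem SENS_Bt (hP : P.Ok) {D K : ℝ} (hD0 : 0 ≤ D) (hD : ∀ a, P.ks * 2 * n1 (Γ.Bc a) ≤ D)
    (hb : ∀ a k i j, SENS_J two s0 (fun s => b s a k i j) (n1 (b1 a k)) (n1 (b2 a k)))
    (hw : ∀ a k, SENS_J two s0 (fun s => w s a k) |w1 a k| |w2 a k|) (hw0 : ∀ a k, 0 ≤ w s0 a k)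
    (hK : ∀ n, tv P.C1 (w s0) (fun a k => w s0 a k + n1 (b s0 a k)) n ≤ K) (k : ℕ) :
    ∀ i j, SENS_J two s0 (fun s => Bt Γ P (b s) (w s) k i j)
      (Real.exp ((2 + 2 * D) * tv P.C1 (w s0) (fun a k => w s0 a k + n1 (b s0 a k)) k) *
        mu P.C1 (w s0) b1 w1 k)
      (((2 + 2 * D) * Real.exp ((2 + 2 * D) * K)) ^ 2 *
        Real.exp ((2 + 2 * D) * tv P.C1 (w s0) (fun a k => w s0 a k + n1 (b s0 a k)) k) *
        (mu P.C1 (w s0) b2 w2 k + mu P.C1 (w s0) b1 w1 k ^ 2)) := by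
  induction k with
  | zero =>
    intro i j
    have h := SENS_const (two := two) (s0 := s0) 0
    simpa [Bt_zero, mu] using h
  | succ k ih =>
    intro i j
    have hμ := mu_nonneg P.C1 (w s0) b1 w1 k
    have hν := mu_nonneg P.C1 (w s0) b2 w2 k
    have hT := SENS_tv_nonneg (P := P) (b := b) hw0 k
    obtain ⟨-, -, ht⟩ := SENS_damp (b := b) hP hw0 k
    have hTK := hK k
    rw [SENS_mu_succ, SENS_mu_succ, SENS_tv_succ]
    set T := tv P.C1 (w s0) (fun a k => w s0 a k + n1 (b s0 a k)) k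
    set μ := mu P.C1 (w s0) b1 w1 k with hμd
    set ν := mu P.C1 (w s0) b2 w2 k with hνd
    set t := Real.exp (-ck P.C1 (w s0) k / 2) * ∑ a, (w s0 a k + n1 (b s0 a k))
    set E := Real.exp (-ck P.C1 (w s0) k) with hE
    set R := (2 + 2 * D) * Real.exp ((2 + 2 * D) * K) with hR
    set G := Real.exp ((2 + 2 * D) * T) with hG
    have hE0 : 0 ≤ E := (Real.exp_pos _).le
    have hG1 : 1 ≤ G := Real.one_le_exp (by positivity)
    have hG' : G * (1 + (2 + 2 * D) * t) ≤ Real.exp ((2 + 2 * D) * (T + t)) := by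
      rw [mul_add (2 + 2 * D) T t, Real.exp_add]
      exact mul_le_mul_of_nonneg_left (by linarith [Real.add_one_le_exp ((2 + 2 * D) * t)])
        (by positivity)
    have hRG : (2 + 2 * D) * G ≤ R :=
      mul_le_mul_of_nonneg_left (Real.exp_le_exp.2
        (mul_le_mul_of_nonneg_left hTK (by positivity))) (by positivity)
    have hc := SENS_neg (SENS_ck hP.C11 b1 b2 hw k)
    rw [← hμd, ← hνd] at hc
    have hterm : ∀ a, SENS_J two s0 (fun s => Real.exp (-ck P.C1 (w s) k +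
        lsoft Γ P.ks (Bt Γ P (b s) (w s) k) a) * b s a k i j) _ _ := fun a =>
      SENS_mul (SENS_exp (E := E) (SENS_add hc (SENS_lsoft Γ hP.ks0 hD (by positivity)
        (by positivity) ih a)) (by
          rw [Real.exp_add]
          exact mul_le_of_le_one_right hE0 (soft_le_one Γ P.ks _ a))) (hb a k i j)
        (p0 := E) (by
          rw [abs_of_pos (Real.exp_pos _), Real.exp_add]
          exact mul_le_of_le_one_right hE0 (soft_le_one Γ P.ks _ a)) (abs_le_n1 _ i j)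
    have hsum := SENS_add (ih i j) (SENS_sum Finset.univ fun a _ => hterm a)
    have e : (fun s => Bt Γ P (b s) (w s) (k + 1) i j) = fun s => Bt Γ P (b s) (w s) k i j +
        ∑ a, Real.exp (-ck P.C1 (w s) k + lsoft Γ P.ks (Bt Γ P (b s) (w s) k) a) *
          b s a k i j := by
      funext s
      simp only [Bt_succ, Matrix.add_apply, Matrix.smul_apply, Matrix.sum_apply, smul_eq_mul,
        Finset.mul_sum, Real.exp_add, soft, mul_assoc]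
    rw [e]
    have hδ : 0 ≤ E * ∑ a, n1 (b1 a k) := mul_nonneg hE0 (Finset.sum_nonneg fun _ _ => n1_nonneg _)
    have hε : 0 ≤ E * ∑ a, n1 (b2 a k) := mul_nonneg hE0 (Finset.sum_nonneg fun _ _ => n1_nonneg _)
    have ht0 : 0 ≤ E * ∑ a, n1 (b s0 a k) :=
      mul_nonneg hE0 (Finset.sum_nonneg fun _ _ => n1_nonneg _)
    have hω1 : 0 ≤ ∑ a, |w1 a k| := Finset.sum_nonneg fun _ _ => abs_nonneg _
    have hω2 : 0 ≤ ∑ a, |w2 a k| := Finset.sum_nonneg fun _ _ => abs_nonneg _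
    refine SENS_mono hsum ?_ ?_
    · refine le_trans (le_of_eq ?_) (SENS_ar1 hD0 hG1 hG' hμ hδ (le_add_of_nonneg_right hω1) ht0 ht)
      simp only [Finset.sum_add_distrib, ← Finset.mul_sum]
      ring
    · refine le_trans (le_of_eq ?_) (SENS_ar2 hD0 hG1 hG' hRG hμ hν hδ
        (le_add_of_nonneg_right hω1) hε (le_add_of_nonneg_right hω2) ht0 ht rfl)
      simp only [Finset.sum_add_distrib, ← Finset.mul_sum]
      ring

theorem SENS_ak (hP : P.Ok) {Cz Y1 Y2 : ℝ} (hY1 : 0 ≤ Y1) (hY2 : 0 ≤ Y2)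
    (hz : ∀ s, |P.z1 s| ≤ Cz ∧ |P.z2 s| ≤ Cz)
    (hB : ∀ k i j, SENS_J two s0 (fun s => Bt Γ P (b s) (w s) k i j)
      (Y1 * mu P.C1 (w s0) b1 w1 k)
      (Y2 * (mu P.C1 (w s0) b2 w2 k + mu P.C1 (w s0) b1 w1 k ^ 2)))
    (hw : ∀ a k, SENS_J two s0 (fun s => w s a k) |w1 a k| |w2 a k|) (hw0 : ∀ a k, 0 ≤ w s0 a k)
    (k : ℕ) :
    SENS_J two s0 (fun s => ∑ k' ∈ Finset.range k,
        P.z (Bt Γ P (b s) (w s) k').trace * (Real.exp (-ck P.C1 (w s) k') * ∑ a, w s a k'))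
      ((1 + Cz * (N * Y1)) * (1 + tv P.C1 (w s0) (fun a k => w s0 a k + n1 (b s0 a k)) k) *
        mu P.C1 (w s0) b1 w1 k)
      ((1 + 2 * (Cz * (N * Y1)) + Cz * ((N * Y1) ^ 2 + N * Y2)) *
        (1 + tv P.C1 (w s0) (fun a k => w s0 a k + n1 (b s0 a k)) k) *
        (mu P.C1 (w s0) b2 w2 k + mu P.C1 (w s0) b1 w1 k ^ 2)) := by
  have hCz : 0 ≤ Cz := (abs_nonneg _).trans (hz 0).1
  induction k with
  | zero =>
    have h := SENS_const (two := two) (s0 := s0) 0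
    simpa [mu] using h
  | succ k ih =>
    have hμ := mu_nonneg P.C1 (w s0) b1 w1 k
    have hν := mu_nonneg P.C1 (w s0) b2 w2 k
    have hT := SENS_tv_nonneg (P := P) (b := b) hw0 k
    obtain ⟨hE1, ht, -⟩ := SENS_damp (b := b) hP hw0 k
    have hc := SENS_exp (SENS_neg (SENS_ck hP.C11 b1 b2 hw k)) le_rfl
    have hBk := hB k
    rw [SENS_mu_succ, SENS_mu_succ, SENS_tv_succ]
    simp only [Finset.sum_range_succ]
    set T := tv P.C1 (w s0) (fun a k => w s0 a k + n1 (b s0 a k)) k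
    set μ := mu P.C1 (w s0) b1 w1 k with hμd
    set ν := mu P.C1 (w s0) b2 w2 k with hνd
    set t := Real.exp (-ck P.C1 (w s0) k / 2) * ∑ a, (w s0 a k + n1 (b s0 a k))
    set E := Real.exp (-ck P.C1 (w s0) k) with hE
    have hE0 : 0 ≤ E := (Real.exp_pos _).le
    have hW0 : 0 ≤ ∑ a, w s0 a k := Finset.sum_nonneg fun a _ => hw0 a k
    have hzz : SENS_J two s0 (fun s => P.z (Bt Γ P (b s) (w s) k).trace) (Cz * (N * Y1) * μ)
        (Cz * ((N * Y1) ^ 2 + N * Y2) * (ν + μ ^ 2)) := by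
      refine SENS_mono (SENS_comp (G := P.z) (G1 := P.z1) (SENS_trace hBk)
        (fun s => hP.cut.d1 _) (hP.cut.d2 _) (hz _).1 (hz _).2) (le_of_eq (by ring)) ?_
      have : 0 ≤ Cz * (N * Y1) ^ 2 * ν := by positivity
      nlinarith
    have hpr := SENS_mul hc (SENS_sum Finset.univ fun a _ => hw a k) (p0 := E)
      (q0 := ∑ a, w s0 a k) (by rw [abs_of_pos (Real.exp_pos _)]) (by rw [abs_of_nonneg hW0])
    have hall := SENS_add ih (SENS_mul hzz hpr (p0 := 1) (q0 := E * ∑ a, w s0 a k)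
      (by rw [abs_of_nonneg (hP.cut.rg _).1]; exact (hP.cut.rg _).2)
      (by rw [abs_of_nonneg (mul_nonneg hE0 hW0)]))
    have hδ : 0 ≤ E * ∑ a, n1 (b1 a k) := mul_nonneg hE0 (Finset.sum_nonneg fun _ _ => n1_nonneg _)
    have hε : 0 ≤ E * ∑ a, n1 (b2 a k) := mul_nonneg hE0 (Finset.sum_nonneg fun _ _ => n1_nonneg _)
    have hω1 : 0 ≤ ∑ a, |w1 a k| := Finset.sum_nonneg fun _ _ => abs_nonneg _
    have hω2 : 0 ≤ ∑ a, |w2 a k| := Finset.sum_nonneg fun _ _ => abs_nonneg _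
    have har := SENS_ar3 (Z1 := Cz * (N * Y1)) (Z2 := Cz * ((N * Y1) ^ 2 + N * Y2))
      (by positivity) (by positivity) hT hμ hν hω1 (le_add_of_nonneg_left hδ) hω2
      (le_add_of_nonneg_left hε) hE0 hE1 hW0 ht
    exact SENS_mono hall har.1 har.2

end recursion

theorem SENS_main (Γ : Net N) (P : GPar) (K : ℝ) (hP : P.Ok) : ∃ C : ℝ, 0 ≤ C ∧
    ∀ (two : Prop) (s0 : ℝ) (b : ℝ → Fin Γ.m → ℕ → Mt N) (w : ℝ → Fin Γ.m → ℕ → ℝ)
      (b1 b2 : Fin Γ.m → ℕ → Mt N) (w1 w2 : Fin Γ.m → ℕ → ℝ),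
      (∀ a k i j, SENS_J two s0 (fun s => b s a k i j) (n1 (b1 a k)) (n1 (b2 a k))) →
      (∀ a k, SENS_J two s0 (fun s => w s a k) |w1 a k| |w2 a k|) → (∀ a k, 0 ≤ w s0 a k) →
      (∀ n, tv P.C1 (w s0) (fun a k => w s0 a k + n1 (b s0 a k)) n ≤ K) → ∀ a k,
      SENS_J two s0 (fun s => leta Γ P (b s) (w s) a k) (C * mu P.C1 (w s0) b1 w1 k)
        (C * (mu P.C1 (w s0) b2 w2 k + mu P.C1 (w s0) b1 w1 k ^ 2)) := by
  obtain ⟨Cz, hz⟩ := hP.cut.bd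
  have hCz : 0 ≤ Cz := (abs_nonneg _).trans (hz 0).1
  have hks := hP.ks0
  have hLc := hP.Lc0
  obtain ⟨D, hD0, hD⟩ : ∃ D : ℝ, 0 ≤ D ∧ ∀ a, P.ks * 2 * n1 (Γ.Bc a) ≤ D := by
    have h0 : ∀ a, 0 ≤ P.ks * 2 * n1 (Γ.Bc a) := fun a => mul_nonneg (by positivity) (n1_nonneg _)
    exact ⟨∑ a, P.ks * 2 * n1 (Γ.Bc a), Finset.sum_nonneg fun a _ => h0 a, fun a =>
      Finset.single_le_sum (f := fun a => P.ks * 2 * n1 (Γ.Bc a)) (fun a _ => h0 a)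
        (Finset.mem_univ a)⟩
  obtain ⟨Y1, hY1d⟩ : ∃ Y1, Y1 = Real.exp ((2 + 2 * D) * K) := ⟨_, rfl⟩
  obtain ⟨Y2, hY2d⟩ : ∃ Y2, Y2 = ((2 + 2 * D) * Y1) ^ 2 * Y1 := ⟨_, rfl⟩
  have hY1 : 0 ≤ Y1 := by rw [hY1d]; positivity
  have hY2 : 0 ≤ Y2 := by rw [hY2d]; positivity
  obtain ⟨A1, hA1d⟩ : ∃ A1, A1 = P.Lc * ((1 + Cz * (N * Y1)) * (1 + |K|)) := ⟨_, rfl⟩
  obtain ⟨A2, hA2d⟩ : ∃ A2, A2 = P.Lc *
    ((1 + 2 * (Cz * (N * Y1)) + Cz * ((N * Y1) ^ 2 + N * Y2)) * (1 + |K|)) := ⟨_, rfl⟩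
  have hA1 : 0 ≤ A1 := by rw [hA1d]; positivity
  have hA2 : 0 ≤ A2 := by rw [hA2d]; positivity
  refine ⟨A1 + A2 + 1 + 2 * D * Y1 + 2 * D * Y2 + 2 * D ^ 2 * Y1 ^ 2, by positivity, ?_⟩
  intro two s0 b w b1 b2 w1 w2 hb hw hw0 hK a k
  have hB : ∀ k i j, SENS_J two s0 (fun s => Bt Γ P (b s) (w s) k i j)
      (Y1 * mu P.C1 (w s0) b1 w1 k)
      (Y2 * (mu P.C1 (w s0) b2 w2 k + mu P.C1 (w s0) b1 w1 k ^ 2)) := by
    intro k i j
    have hμ := mu_nonneg P.C1 (w s0) b1 w1 k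
    have hν := mu_nonneg P.C1 (w s0) b2 w2 k
    have h1 : Real.exp ((2 + 2 * D) * tv P.C1 (w s0) (fun a k => w s0 a k + n1 (b s0 a k)) k) ≤
        Y1 := by
      rw [hY1d]
      exact Real.exp_le_exp.2 (mul_le_mul_of_nonneg_left (hK k) (by positivity))
    refine SENS_mono (SENS_Bt hP hD0 hD hb hw hw0 hK k i j) (mul_le_mul_of_nonneg_right h1 hμ) ?_
    rw [← hY1d, hY2d]
    exact mul_le_mul_of_nonneg_right (mul_le_mul_of_nonneg_left h1 (by positivity))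
      (by positivity)
  have hμ := mu_nonneg P.C1 (w s0) b1 w1 k
  have hν := mu_nonneg P.C1 (w s0) b2 w2 k
  have hT : 1 + tv P.C1 (w s0) (fun a k => w s0 a k + n1 (b s0 a k)) k ≤ 1 + |K| := by
    linarith [hK k, le_abs_self K]
  have ha : SENS_J two s0 (fun s => ak Γ P (b s) (w s) k) (A1 * mu P.C1 (w s0) b1 w1 k)
      (A2 * (mu P.C1 (w s0) b2 w2 k + mu P.C1 (w s0) b1 w1 k ^ 2)) := by
    have h1 := SENS_cmul P.Lc (SENS_ak hP hY1 hY2 hz hB hw hw0 k)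
    have e : (fun s => ak Γ P (b s) (w s) k) = fun s => P.Lc * ∑ k' ∈ Finset.range k,
        P.z (Bt Γ P (b s) (w s) k').trace * (Real.exp (-ck P.C1 (w s) k') * ∑ a, w s a k') := by
      funext s
      rw [ak, Finset.mul_sum]
      exact Finset.sum_congr rfl fun _ _ => mul_assoc _ _ _
    rw [abs_of_nonneg hLc] at h1
    rw [e, hA1d, hA2d, mul_assoc, mul_assoc P.Lc]
    refine SENS_mono h1 ?_ ?_
    · gcongr
    · gcongr
  have h := SENS_add (SENS_sub (SENS_neg ha) (SENS_ck hP.C11 b1 b2 hw k))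
    (SENS_lsoft Γ hks hD (by positivity) (by positivity) (hB k) a)
  set μ := mu P.C1 (w s0) b1 w1 k
  set ν := mu P.C1 (w s0) b2 w2 k
  refine SENS_mono h ?_ ?_
  · have : 0 ≤ (A2 + 2 * D * Y2 + 2 * D ^ 2 * Y1 ^ 2) * μ := by positivity
    nlinarith
  · have h1 : 0 ≤ (A1 + 2 * D * Y1) * (ν + μ ^ 2) := by positivity
    have h2 : 0 ≤ 2 * D ^ 2 * Y1 ^ 2 * ν := by positivity
    have h3 : 0 ≤ μ ^ 2 := by positivity
    nlinarith

theorem SENS1 : St_SENS1 := by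
  intro N Γ P K hP
  obtain ⟨C, hC, h⟩ := SENS_main Γ P K hP
  refine ⟨C, hC, fun b w b1 w1 s0 hb hw hw0 hK a k => ?_⟩
  obtain ⟨x1, hx, hx1, -⟩ := h False s0 b w b1 b1 w1 w1
    (fun a k i j => ⟨_, hb a k i j, abs_le_n1 _ i j, fun t => t.elim⟩)
    (fun a k => ⟨_, hw a k, le_rfl, fun t => t.elim⟩) hw0 hK a k
  exact ⟨hx.differentiableAt, by rwa [hx.deriv]⟩

theorem SENS2 : St_SENS2 := by
  intro N Γ P K hP
  obtain ⟨C, hC, h⟩ := SENS_main Γ P K hP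
  refine ⟨C, hC, fun b b1 w w1 b2 w2 s0 hb hw hb2 hw2 hw0 hK a k => ?_⟩
  obtain ⟨x1, -, -, ht⟩ := h True s0 b w (b1 s0) b2 (w1 s0) w2
    (fun a k i j => ⟨_, hb s0 a k i j, abs_le_n1 _ i j, fun _ =>
      ⟨fun s => b1 s a k i j, _, fun s => hb s a k i j, hb2 a k i j, abs_le_n1 _ i j⟩⟩)
    (fun a k => ⟨_, hw s0 a k, le_rfl, fun _ =>
      ⟨fun s => w1 s a k, _, fun s => hw s a k, hw2 a k, le_rfl⟩⟩) hw0 hK a k
  obtain ⟨f1, x2, h1, h2, h3⟩ := ht trivial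
  have e : (deriv fun s => leta Γ P (b s) (w s) a k) = f1 := funext fun s => (h1 s).deriv
  rw [e]
  exact ⟨h2.differentiableAt, by rwa [h2.deriv]⟩

end

end Pool.Agent.Lib.MP_13801a_an.ND
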