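import Mathlib
import Pool.Agent.Lib.MP_13801a_an.ND.StsG

/-!
Elementary estimates for the time derivative of the adaptive field.
-/

open MeasureTheory Set Filter Matrix
open scoped Topology

namespace Pool.Agent.Lib.MP_13801a_an.ND

noncomputable section

variable {N : ℕ}

theorem ST_mul {f g : E N → ℝ} (hf : CB f) (hg : CB g) : CB fun x => f x * g x := by
  obtain ⟨B, hB⟩ := hf.2
  obtain ⟨B', hB'⟩ := hg.2
  refine ⟨hf.1.mul hg.1, B * B', fun x => ?_⟩
  rw [abs_mul]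
  exact mul_le_mul (hB x) (hB' x) (abs_nonneg _) ((abs_nonneg _).trans (hB x))

theorem ST_sum {ι : Type*} (s : Finset ι) {f : ι → E N → ℝ} (h : ∀ i ∈ s, CB (f i)) :
    CB fun x => ∑ i ∈ s, f i x := by
  classical
  induction s using Finset.induction_on with
  | empty => exact ⟨by simpa using continuous_const, 0, by simp⟩
  | insert i s hi ih =>
    simp only [Finset.sum_insert hi]
    obtain ⟨c1, B, hB⟩ := h i (Finset.mem_insert_self _ _)
    obtain ⟨c2, B', hB'⟩ := ih fun j hj => h j (Finset.mem_insert_of_mem hj)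
    exact ⟨c1.add c2, B + B', fun x => (abs_add_le _ _).trans (add_le_add (hB x) (hB' x))⟩

theorem ST_ll {ε r : ℝ} {η : E N → ℝ} (h : LL ε r η) : CB η :=
  ⟨h.1, 1, fun x => by rw [abs_of_pos (h.2.1 x).1]; exact (h.2.1 x).2⟩

theorem ST_int {f g : E N → ℝ} (hf : CB f) (hg : Integrable g) :
    Integrable fun x => f x * g x := by
  obtain ⟨B, hB⟩ := hf.2
  exact hg.bdd_mul hf.1.aestronglyMeasurable (c := B) (Eventually.of_forall fun x => hB x)

theorem ST_geo (c : Cfg) (k : ℕ) : rk c k * ∑ k' ∈ Finset.range k, (rk c k')⁻¹ ≤ 1 := by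
  induction k with
  | zero => simp
  | succ k ih =>
    have h1 : rk c (k + 1) = Real.exp (-1) * rk c k := by
      rw [rk, rk, ← Real.exp_add]
      congr 1
      push_cast
      ring
    have h2 : Real.exp (-1) * 2 ≤ 1 := by
      have h3 : (2 : ℝ) ≤ Real.exp 1 := by linarith [Real.add_one_le_exp (1 : ℝ)]
      rw [Real.exp_neg, inv_mul_le_iff₀ (Real.exp_pos _)]
      linarith
    have h4 : rk c k * (rk c k)⁻¹ = 1 := mul_inv_cancel₀ (rk_pos c k).ne'
    rw [Finset.sum_range_succ, h1, mul_assoc, mul_add, h4]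
    have h5 := Real.exp_pos (-1)
    nlinarith

theorem ST_rk_le (c : Cfg) (k : ℕ) : rk c k ≤ Real.exp c.τ0 :=
  Real.exp_le_exp.2 (by have : (0 : ℝ) ≤ k := Nat.cast_nonneg k; linarith)

theorem ST_eta (Γ : Net N) {P : GPar} (hP : P.Ok) (b : Fin Γ.m → ℕ → Mt N)
    {w : Fin Γ.m → ℕ → ℝ} (hw : ∀ a k, 0 ≤ w a k) (a : Fin Γ.m) {k k' : ℕ} (hk : k' ≤ k) :
    eta Γ P b w a k ≤ Real.exp (-ck P.C1 w k / 2) *
      Real.exp (-(ak Γ P b w k' + ck P.C1 w k') / 2) := by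
  rw [eta_eq]
  have h2 := soft_le_one Γ P.ks (Bt Γ P b w k) a
  have h3 := soft_pos Γ P.ks (Bt Γ P b w k) a
  have h4 := ak_mono Γ hP b hw hk
  have h5 := ck_mono hP.C11 hw hk
  have h6 := ak_nonneg Γ hP b hw k
  calc _ ≤ Real.exp (-ak Γ P b w k) * (Real.exp (-ck P.C1 w k) * 1) := by gcongr
    _ = Real.exp (-ak Γ P b w k + -ck P.C1 w k) := by rw [mul_one, Real.exp_add]
    _ ≤ _ := by
      rw [← Real.exp_add]
      exact Real.exp_le_exp.2 (by linarith)

theorem ST_eta' (Γ : Net N) {P : GPar} (hP : P.Ok) (b : Fin Γ.m → ℕ → Mt N)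
    {w : Fin Γ.m → ℕ → ℝ} (hw : ∀ a k, 0 ≤ w a k) (a : Fin Γ.m) (k : ℕ) :
    eta Γ P b w a k ≤ Real.exp (-ck P.C1 w k / 2) :=
  (eta_le Γ hP b hw a k).trans (Real.exp_le_exp.2 (by linarith [ck_nonneg hP.C11 hw k]))

/-- The pointwise bound for the part of the derivative that comes from the weights. -/
theorem ST_pt (Γ : Net N) {P : GPar} (hP : P.Ok) (c : Cfg) {b b1 : Fin Γ.m → ℕ → Mt N}
    {w w1 ws p ld : Fin Γ.m → ℕ → ℝ} {Cs Cb G K : ℝ} (n : ℕ) (hCs : 0 ≤ Cs) (hCb : 0 ≤ Cb)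
    (hG : 0 ≤ G) (hw : ∀ a k, 0 ≤ w a k) (hws : ∀ a k, 0 ≤ ws a k)
    (hld : ∀ a k, |ld a k| ≤ Cs * mu P.C1 w b1 w1 k)
    (hp : ∀ a k, |p a k| ≤ Cb * (rk c k * ws a k)) (hK : tv P.C1 w ws n ≤ K)
    (h1 : ∀ a k, k < n →
      Real.exp (-(ak Γ P b w k + ck P.C1 w k) / 2) * (rk c k * |w1 a k|) ≤ G)
    (h2 : ∀ a k i i', k < n →
      Real.exp (-(ak Γ P b w k + ck P.C1 w k) / 2) * (rk c k * |b1 a k i i'|) ≤ G) :
    |∑ k ∈ Finset.range n, ∑ a, eta Γ P b w a k * ld a k * p a k| ≤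
      Cs * Cb * (Γ.m * (N ^ 2 + 1)) * K * G := by
  have key : ∀ a k, k < n → eta Γ P b w a k * mu P.C1 w b1 w1 k * rk c k ≤
      Real.exp (-ck P.C1 w k / 2) * (Γ.m * (N ^ 2 + 1) * G) := by
    intro a k hk
    have e1 : ∀ k' ∈ Finset.range k, ∀ a' : Fin Γ.m, eta Γ P b w a k *
        (Real.exp (-ck P.C1 w k') * n1 (b1 a' k') + |w1 a' k'|) ≤
        Real.exp (-ck P.C1 w k / 2) * ((N ^ 2 + 1) * G) * (rk c k')⁻¹ := by
      intro k' hk' a'
      have hk'' := Finset.mem_range.1 hk'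
      have hr := rk_pos c k'
      have hE := Real.exp_pos (-(ak Γ P b w k' + ck P.C1 w k') / 2)
      have f1 := h1 a' k' (hk''.trans hk)
      have f2 : n1 (b1 a' k') ≤ (N : ℝ) ^ 2 *
          (G / (Real.exp (-(ak Γ P b w k' + ck P.C1 w k') / 2) * rk c k')) :=
        n1_le_of_abs fun i i' => by
          rw [le_div_iff₀ (by positivity)]
          have := h2 a' k' i i' (hk''.trans hk)
          linarith
      have f3 : Real.exp (-ck P.C1 w k') ≤ 1 :=
        Real.exp_le_one_iff.2 (by linarith [ck_nonneg hP.C11 hw k'])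
      have f4 : Real.exp (-ck P.C1 w k') * n1 (b1 a' k') ≤ n1 (b1 a' k') :=
        mul_le_of_le_one_left (n1_nonneg _) f3
      have f5 : |w1 a' k'| ≤ G / (Real.exp (-(ak Γ P b w k' + ck P.C1 w k') / 2) * rk c k') := by
        rw [le_div_iff₀ (by positivity)]
        linarith
      have f6 := ST_eta Γ hP b hw a hk''.le
      have f7 := n1_nonneg (b1 a' k')
      calc _ ≤ Real.exp (-ck P.C1 w k / 2) * Real.exp (-(ak Γ P b w k' + ck P.C1 w k') / 2) *
            ((N ^ 2 + 1) * (G / (Real.exp (-(ak Γ P b w k' + ck P.C1 w k') / 2) * rk c k'))) :=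
            mul_le_mul f6 (by linarith) (by positivity) (by positivity)
        _ = _ := by field_simp
    have e2 : eta Γ P b w a k * mu P.C1 w b1 w1 k ≤ Real.exp (-ck P.C1 w k / 2) *
        (Γ.m * (N ^ 2 + 1) * G) * ∑ k' ∈ Finset.range k, (rk c k')⁻¹ := by
      rw [mu, Finset.mul_sum, Finset.mul_sum]
      refine Finset.sum_le_sum fun k' hk' => ?_
      rw [Finset.mul_sum]
      refine (Finset.sum_le_sum fun a' _ => e1 k' hk' a').trans (le_of_eq ?_)
      simp only [Finset.sum_const, Finset.card_univ, Fintype.card_fin, nsmul_eq_mul]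
      ring
    have e3 := ST_geo c k
    have hr := rk_pos c k
    calc _ ≤ (Real.exp (-ck P.C1 w k / 2) * (Γ.m * (N ^ 2 + 1) * G) *
          ∑ k' ∈ Finset.range k, (rk c k')⁻¹) * rk c k := by gcongr
      _ = Real.exp (-ck P.C1 w k / 2) * (Γ.m * (N ^ 2 + 1) * G) *
          (rk c k * ∑ k' ∈ Finset.range k, (rk c k')⁻¹) := by ring
      _ ≤ Real.exp (-ck P.C1 w k / 2) * (Γ.m * (N ^ 2 + 1) * G) * 1 := by gcongr
      _ = _ := mul_one _
  have key2 : ∀ k ∈ Finset.range n, ∀ a, |eta Γ P b w a k * ld a k * p a k| ≤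
      Cs * Cb * (Γ.m * (N ^ 2 + 1) * G) * (Real.exp (-ck P.C1 w k / 2) * ws a k) := by
    intro k hk a
    have e1 := key a k (Finset.mem_range.1 hk)
    have e2 := eta_pos Γ P b w a k
    have e3 := hws a k
    have e4 := mu_nonneg P.C1 w b1 w1 k
    rw [abs_mul, abs_mul, abs_of_pos e2]
    calc _ ≤ eta Γ P b w a k * (Cs * mu P.C1 w b1 w1 k) * (Cb * (rk c k * ws a k)) :=
          mul_le_mul (mul_le_mul_of_nonneg_left (hld a k) e2.le) (hp a k) (abs_nonneg _)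
            (by positivity)
      _ = Cs * Cb * ws a k * (eta Γ P b w a k * mu P.C1 w b1 w1 k * rk c k) := by ring
      _ ≤ Cs * Cb * ws a k * (Real.exp (-ck P.C1 w k / 2) * (Γ.m * (N ^ 2 + 1) * G)) := by
          gcongr
      _ = _ := by ring
  calc _ ≤ ∑ k ∈ Finset.range n, ∑ a, |eta Γ P b w a k * ld a k * p a k| :=
        (Finset.abs_sum_le_sum_abs _ _).trans
          (Finset.sum_le_sum fun k _ => Finset.abs_sum_le_sum_abs _ _)
    _ ≤ ∑ k ∈ Finset.range n, ∑ a, Cs * Cb * (Γ.m * (N ^ 2 + 1) * G) *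
          (Real.exp (-ck P.C1 w k / 2) * ws a k) :=
        Finset.sum_le_sum fun k hk => Finset.sum_le_sum fun a _ => key2 k hk a
    _ = Cs * Cb * (Γ.m * (N ^ 2 + 1) * G) * tv P.C1 w ws n := by
        simp only [tv, Finset.mul_sum]
    _ ≤ Cs * Cb * (Γ.m * (N ^ 2 + 1) * G) * K := by gcongr
    _ = _ := by ring

/-- A derivative in the parameter of continuous functions is measurable. -/
theorem ST_meas {f : ℝ → E N → ℝ} {g : E N → ℝ} {t : ℝ} (ht : 0 < t)
    (hf : ∀ s, 0 < s → Continuous (f s)) (hd : ∀ x, HasDerivAt (fun s => f s x) (g x) t) :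
    Measurable g := by
  refine measurable_of_tendsto_metrizable
    (f := fun (n : ℕ) x => ((1 : ℝ) / (n + 1))⁻¹ • (f (t + (1 : ℝ) / (n + 1)) x - f t x))
    (fun n => ?_) ?_
  · exact (((hf _ (by positivity)).sub (hf t ht)).const_smul ((1 : ℝ) / (n + 1))⁻¹).measurable
  · rw [tendsto_pi_nhds]
    intro x
    have h1 := (hd x).tendsto_slope_zero
    refine h1.comp (f := fun n : ℕ => (1 : ℝ) / (n + 1)) ?_
    refine tendsto_nhdsWithin_iff.2 ⟨tendsto_one_div_add_atTop_nhds_zero_nat, ?_⟩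
    exact Eventually.of_forall fun n => by
      simp only [mem_compl_iff, mem_singleton_iff]
      positivity

/-- The total current is bounded near a given time. -/
theorem ST_cur {ρ : ℝ → E N → ℝ} {j : ℝ → Fin N → E N → ℝ} (h : Flow ρ j) (t : ℝ) :
    ∀ᶠ s in 𝓝 t, ∑ i, ∫ y, |j s i y| ≤ ∑ i, ((∫ y, |j t i y|) + 1) := by
  have h1 : ∀ᶠ s in 𝓝 t, ∀ i, ∫ x, |j s i x - j t i x| < 1 :=
    eventually_all.2 fun i => (h.cont t i).eventually_lt_const one_pos
  filter_upwards [h1] with s hs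
  refine Finset.sum_le_sum fun i _ => ?_
  have h2 : ∫ y, |j s i y| ≤ ∫ y, (|j t i y| + |j s i y - j t i y|) :=
    integral_mono (h.ij s i).abs ((h.ij t i).abs.add ((h.ij s i).sub (h.ij t i)).abs) fun y => by
      have := abs_add_le (j t i y) (j s i y - j t i y)
      simpa using this
  have h3 : Integrable fun y => |j s i y - j t i y| := ((h.ij s i).sub (h.ij t i)).abs
  rw [integral_add (h.ij t i).abs h3] at h2
  linarith [hs i]

/-- A uniform constant in the crude bounds for the time derivatives. -/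
theorem ST_unif (h6 : St_MDYN) (Γ : Net N) {c : Cfg} {β e : ℝ} (hc : c.Ok N β e) :
    ∃ B : ℝ, 0 ≤ B ∧ ∀ (ρ : E N → ℝ) (j : Fin N → E N → ℝ), Den ρ → (∀ i, Integrable (j i)) →
      ∀ x a k, k < c.n → |fWt c (ap (Γ.L a)) ρ j k x| ≤ B * ∑ i, ∫ y, |j i y| ∧
        ∀ i i', |fPt c (ap (Γ.L a)) ρ j k (col Γ a i) x| ≤ B * ∑ i, ∫ y, |j i y| ∧
          |fBt c (ap (Γ.L a)) ρ j k (col Γ a i) (col Γ a i') x| ≤ B * ∑ i, ∫ y, |j i y| := by
  choose Bf hB0 hB using fun (a : Fin Γ.m) (k : ℕ) => (h6 N c β e (ap (Γ.L a)) k hc).1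
  have hT : ∀ a k, 0 ≤ ∑ i, ∑ i', Bf a k (col Γ a i) (col Γ a i') := fun a k =>
    Finset.sum_nonneg fun _ _ => Finset.sum_nonneg fun _ _ => hB0 _ _ _ _
  have hU : ∀ a k, 0 ≤ Bf a k 0 0 + ∑ i, ∑ i', Bf a k (col Γ a i) (col Γ a i') := fun a k =>
    add_nonneg (hB0 _ _ _ _) (hT a k)
  refine ⟨∑ k ∈ Finset.range c.n, ∑ a, (Bf a k 0 0 + ∑ i, ∑ i', Bf a k (col Γ a i) (col Γ a i')),
    Finset.sum_nonneg fun k _ => Finset.sum_nonneg fun a _ => hU a k, ?_⟩
  intro ρ j hρ hj x a k hk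
  have hJ : 0 ≤ ∑ i, ∫ y, |j i y| :=
    Finset.sum_nonneg fun _ _ => integral_nonneg fun _ => abs_nonneg _
  have e1 : Bf a k 0 0 + ∑ i, ∑ i', Bf a k (col Γ a i) (col Γ a i') ≤
      ∑ k ∈ Finset.range c.n, ∑ a, (Bf a k 0 0 + ∑ i, ∑ i', Bf a k (col Γ a i) (col Γ a i')) :=
    (Finset.single_le_sum
      (f := fun a => Bf a k 0 0 + ∑ i, ∑ i', Bf a k (col Γ a i) (col Γ a i'))
      (fun a _ => hU a k) (Finset.mem_univ a)).trans
    (Finset.single_le_sum
      (f := fun k => ∑ a, (Bf a k 0 0 + ∑ i, ∑ i', Bf a k (col Γ a i) (col Γ a i')))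
      (fun k _ => Finset.sum_nonneg fun a _ => hU a k) (Finset.mem_range.2 hk))
  refine ⟨(hB a k 0 0 ρ j hρ hj x).2.2.trans
    (mul_le_mul_of_nonneg_right (by linarith [hT a k]) hJ), fun i i' => ?_⟩
  have e2 : Bf a k (col Γ a i) (col Γ a i') ≤ ∑ i, ∑ i', Bf a k (col Γ a i) (col Γ a i') :=
    (Finset.single_le_sum (f := fun i' => Bf a k (col Γ a i) (col Γ a i'))
      (fun _ _ => hB0 _ _ _ _) (Finset.mem_univ i')).trans
    (Finset.single_le_sum (f := fun i => ∑ i', Bf a k (col Γ a i) (col Γ a i'))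
      (fun _ _ => Finset.sum_nonneg fun _ _ => hB0 _ _ _ _) (Finset.mem_univ i))
  have e3 := hB0 a k 0 0
  obtain ⟨g1, g2, -⟩ := hB a k (col Γ a i) (col Γ a i') ρ j hρ hj x
  exact ⟨g1.trans (mul_le_mul_of_nonneg_right (by linarith) hJ),
    g2.trans (mul_le_mul_of_nonneg_right (by linarith) hJ)⟩

end

end Pool.Agent.Lib.MP_13801a_an.ND
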