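import Mathlib
import Pool.Agent.Lib.MP_13801a_an.ND.StsG
import Pool.Agent.Lib.MP_13801a_an.ND.ST1

/-!
The time derivative of the adaptive field.
-/

open MeasureTheory Set Filter Matrix
open scoped Topology

namespace Pool.Agent.Lib.MP_13801a_an.ND

noncomputable section

variable {N : ℕ}

theorem ST_split {m : ℕ} (n : ℕ) {f : Fin m → ℕ → E N → ℝ} {g : E N → ℝ} (hf : ∀ a k, CB (f a k))
    (hg : Integrable g) : ∫ x, (∑ k ∈ Finset.range n, ∑ a, f a k x) * g x =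
      ∑ k ∈ Finset.range n, ∑ a, ∫ x, f a k x * g x := by
  simp only [Finset.sum_mul]
  rw [integral_finsetSum _ fun k _ => integrable_finsetSum _ fun a _ => ST_int (hf a k) hg]
  exact Finset.sum_congr rfl fun k _ => integral_finsetSum _ fun a _ => ST_int (hf a k) hg

/-- Summation of the dissipation estimates of the modes. -/
theorem ST_T1 {m : ℕ} (n : ℕ) {η q wp : Fin m → ℕ → E N → ℝ}
    {pt : Fin m → ℕ → Fin N → E N → ℝ} {ρ κ : E N → ℝ} {j : Fin N → E N → ℝ} {c0 D K : ℝ}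
    (hD : 0 ≤ D) (hρ : Integrable ρ) (hκ : Den κ) (hj : ∀ i, Integrable (j i))
    (hη : ∀ a k, CB (η a k)) (hq : ∀ a k, CB (q a k)) (hwp : ∀ a k, CB (wp a k))
    (hpt : ∀ a k i, CB (pt a k i))
    (h : ∀ a k, -∑ i, ∫ x, η a k x * j i x * pt a k i x ≤
      -(c0 * ∫ x, ρ x * η a k x * q a k x) + D * ∫ x, κ x * η a k x * wp a k x)
    (hK : ∀ x, ∑ k ∈ Finset.range n, ∑ a, η a k x * wp a k x ≤ K) :
    -∑ i, ∫ x, (∑ k ∈ Finset.range n, ∑ a, η a k x * pt a k i x) * j i x ≤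
      -(c0 * ∫ x, (∑ k ∈ Finset.range n, ∑ a, η a k x * q a k x) * ρ x) +
        D * K * ∫ x, κ x := by
  have e1 : ∫ x, (∑ k ∈ Finset.range n, ∑ a, η a k x * wp a k x) * κ x ≤ K * ∫ x, κ x := by
    rw [← integral_const_mul]
    exact integral_mono
      (ST_int (ST_sum _ fun k _ => ST_sum _ fun a _ => ST_mul (hη a k) (hwp a k)) hκ.1)
      (hκ.1.const_mul K) fun x => mul_le_mul_of_nonneg_right (hK x) (hκ.2 x)
  rw [ST_split n (fun a k => ST_mul (hη a k) (hwp a k)) hκ.1] at e1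
  rw [ST_split n (fun a k => ST_mul (hη a k) (hq a k)) hρ]
  have e2 : ∑ i, ∫ x, (∑ k ∈ Finset.range n, ∑ a, η a k x * pt a k i x) * j i x =
      ∑ k ∈ Finset.range n, ∑ a, ∑ i, ∫ x, η a k x * j i x * pt a k i x := by
    rw [Finset.sum_congr rfl fun i _ =>
      ST_split n (fun a k => ST_mul (hη a k) (hpt a k i)) (hj i), Finset.sum_comm]
    refine Finset.sum_congr rfl fun k _ => ?_
    rw [Finset.sum_comm]
    refine Finset.sum_congr rfl fun a _ => Finset.sum_congr rfl fun i _ => ?_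
    simp only [mul_right_comm]
  have e3 : ∑ k ∈ Finset.range n, ∑ a, -∑ i, ∫ x, η a k x * j i x * pt a k i x ≤
      ∑ k ∈ Finset.range n, ∑ a, (-(c0 * ∫ x, η a k x * q a k x * ρ x) +
        D * ∫ x, η a k x * wp a k x * κ x) := by
    refine Finset.sum_le_sum fun k _ => Finset.sum_le_sum fun a _ => (h a k).trans (le_of_eq ?_)
    have f1 : ∀ x, ρ x * η a k x * q a k x = η a k x * q a k x * ρ x := fun x => by ring
    have f2 : ∀ x, κ x * η a k x * wp a k x = η a k x * wp a k x * κ x := fun x => by ring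
    simp only [f1, f2]
  simp only [Finset.sum_add_distrib, Finset.sum_neg_distrib, ← Finset.mul_sum] at e3
  rw [e2]
  have e4 := mul_le_mul_of_nonneg_left e1 hD
  rw [mul_assoc]
  linarith

/-- The error term. -/
theorem ST_T2 {X V ρ κ : E N → ℝ} {j n : Fin N → E N → ℝ} {D t : ℝ} (hf : Flu ρ κ j n)
    (hX : Measurable X) (hV : CB V) (hV0 : ∀ x, 0 ≤ V x) (hD : 0 ≤ D) (ht : 0 < t)
    (h : ∀ x, X x ^ 2 ≤ D * V x) (i : Fin N) : (Integrable fun x => X x * j i x) ∧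
      |∫ x, X x * j i x| ≤ t / 2 * (∫ x, κ x) + 2 * D / t * ∫ x, V x * ρ x := by
  have i1 := hf.kden.1.const_mul (t / 2)
  have i2 := (ST_int hV hf.den.1).const_mul (2 * D / t)
  have e1 : ∀ x, ‖X x * j i x‖ ≤ t / 2 * κ x + 2 * D / t * (V x * ρ x) := by
    intro x
    have f1 : j i x ^ 2 ≤ 4 * (ρ x * κ x) :=
      (Finset.single_le_sum (f := fun i => j i x ^ 2) (fun _ _ => sq_nonneg _)
        (Finset.mem_univ i)).trans (hf.bj x)
    have f2 := hf.den.2 x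
    have f3 := hf.kden.2 x
    have f4 := hV0 x
    have f5 : (X x * j i x) ^ 2 ≤ κ x * (4 * D * (V x * ρ x)) := by
      rw [mul_pow]
      calc _ ≤ D * V x * (4 * (ρ x * κ x)) :=
            mul_le_mul (h x) f1 (sq_nonneg _) (by positivity)
        _ = _ := by ring
    have f6 := two_abs_le f3 (by positivity) f5 ht
    have f7 : 4 * D * (V x * ρ x) / t = 2 * (2 * D / t * (V x * ρ x)) := by ring
    rw [Real.norm_eq_abs]
    linarith
  refine ⟨(i1.add i2).mono' (hX.aestronglyMeasurable.mul (hf.ij i).aestronglyMeasurable)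
    (Eventually.of_forall e1), ?_⟩
  have e2 := norm_integral_le_of_norm_le (i1.add i2) (Eventually.of_forall e1)
  rw [integral_add' i1 i2, integral_const_mul, integral_const_mul] at e2
  exact e2

/-- Time derivatives of the increments. -/
def ST_b (Γ : Net N) (c : Cfg) (ρ : E N → ℝ) (j : Fin N → E N → ℝ) (x : E N) :
    Fin Γ.m → ℕ → Mt N :=
  fun a k => Matrix.of fun i i' => fBt c (ap (Γ.L a)) ρ j k (col Γ a i) (col Γ a i') x

/-- Time derivatives of the masses. -/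
def ST_w (Γ : Net N) (c : Cfg) (ρ : E N → ℝ) (j : Fin N → E N → ℝ) (x : E N) :
    Fin Γ.m → ℕ → ℝ :=
  fun a k => fWt c (ap (Γ.L a)) ρ j k x

/-- Time derivatives of the logarithms of the weights. -/
def ST_l (Γ : Net N) (P : GPar) (c : Cfg) (ρ : ℝ → E N → ℝ) (s : ℝ) (x : E N) :
    Fin Γ.m → ℕ → ℝ :=
  fun a k => deriv (fun s => leta Γ P (cB Γ c (ρ s) x) (cW Γ c (ρ s) x) a k) s

/-- The main part of the time derivative. -/
def ST_1 (Γ : Net N) (P : GPar) (c : Cfg) (ρ : E N → ℝ) (j : Fin N → E N → ℝ) (i : Fin N)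
    (x : E N) : ℝ :=
  ∑ k ∈ Finset.range c.n, ∑ a, cE Γ P c ρ a k x * fPt c (ap (Γ.L a)) ρ j k (col Γ a i) x

/-- The part of the time derivative that comes from the weights. -/
def ST_2 (Γ : Net N) (P : GPar) (c : Cfg) (ρ : ℝ → E N → ℝ) (s : ℝ) (i : Fin N) (x : E N) : ℝ :=
  ∑ k ∈ Finset.range c.n, ∑ a, cE Γ P c (ρ s) a k x * ST_l Γ P c ρ s x a k *
    fP c (ap (Γ.L a)) (ρ s) k (col Γ a i) x

/-- The dissipation density. -/
def ST_V (Γ : Net N) (P : GPar) (c : Cfg) (ρ : E N → ℝ) (j : Fin N → E N → ℝ) (x : E N) : ℝ :=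
  ∑ k ∈ Finset.range c.n, ∑ a, cE Γ P c ρ a k x * fQ c (ap (Γ.L a)) ρ j k x

theorem ST_sq {u y r q v Cq CL V : ℝ} (hr : 0 < r) (hCq : 0 ≤ Cq) (hCL : 0 ≤ CL) (hq : 0 ≤ q)
    (h1 : Real.exp u ≤ CL * v) (h2 : (r * y) ^ 2 ≤ Cq * q) (h3 : v * q ≤ V) :
    Real.exp (u / 2) * (r * |y|) ≤ √(Cq * CL * V) := by
  refine Real.le_sqrt_of_sq_le ?_
  have e1 : Real.exp (u / 2) ^ 2 = Real.exp u := by
    rw [← Real.exp_nat_mul]
    congr 1
    push_cast
    ring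
  have e2 : (r * |y|) ^ 2 = (r * y) ^ 2 := by rw [mul_pow, mul_pow, sq_abs]
  rw [mul_pow, e1, e2]
  calc _ ≤ CL * v * (Cq * q) :=
        mul_le_mul h1 h2 (sq_nonneg _) ((Real.exp_pos _).le.trans h1)
    _ = Cq * CL * (v * q) := by ring
    _ ≤ _ := by gcongr

theorem ST (h1 : St_SENS1) (h2 : St_ETA) (h3 : St_LOW) (h4 : St_MDER) (h5 : St_MBND)
    (h6 : St_MDYN) (h7 : St_MT1) : St_ST := by
  intro N Γ P K η hΓ hP hη
  obtain ⟨Cs, hCs, hS⟩ := h1 N Γ P K hP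
  obtain ⟨CL, hCL, hL⟩ := h3 N Γ P K hP
  obtain ⟨Cb, hCb, hB⟩ := h5 N
  obtain ⟨c0, Ct, hc0, hCt, hT⟩ := h7 N Γ.A
  have hA : 1 ≤ Γ.A := (hΓ.lin ⟨0, hΓ.m0⟩).A1
  obtain ⟨ε, hε0, hεA, hεK⟩ : ∃ ε : ℝ, 0 < ε ∧ ε * Γ.A ≤ 1 ∧ Ct * ε ^ 2 * K ≤ η / 2 := by
    have e0 : 0 < Ct * |K| + 1 := by positivity
    refine ⟨min (1 / Γ.A) (η / 2 / (Ct * |K| + 1)), by positivity, ?_, ?_⟩
    · exact (le_div_iff₀ (by linarith)).1 (min_le_left _ _)
    · have e1 : min (1 / Γ.A) (η / 2 / (Ct * |K| + 1)) ≤ 1 :=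
        (min_le_left _ _).trans ((div_le_one (by linarith)).2 hA)
      have e2 := (le_div_iff₀ e0).1 (min_le_right (1 / Γ.A) (η / 2 / (Ct * |K| + 1)))
      have e3 : 0 < min (1 / Γ.A) (η / 2 / (Ct * |K| + 1)) := by positivity
      generalize min (1 / Γ.A) (η / 2 / (Ct * |K| + 1)) = ε at e1 e2 e3 ⊢
      calc Ct * ε ^ 2 * K ≤ Ct * ε ^ 2 * |K| := by gcongr; exact le_abs_self K
        _ = ε * (ε * (Ct * |K|)) := by ring
        _ ≤ 1 * (ε * (Ct * |K| + 1)) := by gcongr; linarith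
        _ ≤ _ := by linarith
  obtain ⟨β1, hβ1, hE⟩ := h2 N Γ P K ε hΓ hP hε0
  obtain ⟨D, hD⟩ : ∃ D : ℝ, D = Cs * Cb * (Γ.m * (N ^ 2 + 1)) * K := ⟨_, rfl⟩
  obtain ⟨β2, hβ2, hβD⟩ : ∃ β2 : ℝ, 0 < β2 ∧ ∀ β : ℝ, β ≤ β2 →
      N * (2 * (D ^ 2 * (Cb * β * CL)) / (η / (N + 1))) ≤ c0 := by
    have e0 : 0 ≤ N * (2 * (D ^ 2 * (Cb * CL)) / (η / (N + 1))) := by positivity
    refine ⟨c0 / (N * (2 * (D ^ 2 * (Cb * CL)) / (η / (N + 1))) + 1), by positivity,
      fun β hβ => ?_⟩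
    have e1 : N * (2 * (D ^ 2 * (Cb * β * CL)) / (η / (N + 1))) =
        N * (2 * (D ^ 2 * (Cb * CL)) / (η / (N + 1))) * β := by ring
    rw [e1]
    generalize N * (2 * (D ^ 2 * (Cb * CL)) / (η / (N + 1))) = Z at e0 hβ ⊢
    calc Z * β ≤ Z * (c0 / (Z + 1)) := by gcongr
      _ ≤ (Z + 1) * (c0 / (Z + 1)) := by gcongr; linarith
      _ = c0 := by field_simp
  refine ⟨min β1 β2, lt_min hβ1 hβ2, ?_⟩
  intro c β e ρ κ j n hβ hc hF hs t ht
  have hβ0 := hc.prof.β0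
  have hM := fun s (a : Fin Γ.m) k x => hB c β e (ap (Γ.L a)) (ρ s) hc (hF.den s) k x
  have hw : ∀ s x a k, 0 ≤ cW Γ c (ρ s) x a k := fun s x a k => (hM s a k x).1.1
  have hK0 : 0 ≤ K := by simpa [tv] using (hs t ht).2 0 0
  have hD0 : 0 ≤ D := by rw [hD]; positivity
  have hLL : ∀ s, 0 < s → ∀ a k, LL ε (rk c k) (cE Γ P c (ρ s) a k) := fun s hs0 a k =>
    (hE c β e (ρ s) (hβ.trans (min_le_left _ _)) hc (hF.den s) (hs s hs0).2 k).2.1 a
  have hsens : ∀ s, 0 < s → ∀ x a k,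
      DifferentiableAt ℝ (fun s => leta Γ P (cB Γ c (ρ s) x) (cW Γ c (ρ s) x) a k) s ∧
      |ST_l Γ P c ρ s x a k| ≤ Cs * mu P.C1 (cW Γ c (ρ s) x) (ST_b Γ c (ρ s) (j s) x)
        (ST_w Γ c (ρ s) (j s) x) k := by
    intro s hs0 x
    refine hS (fun s => cB Γ c (ρ s) x) (fun s => cW Γ c (ρ s) x) (ST_b Γ c (ρ s) (j s) x)
      (ST_w Γ c (ρ s) (j s) x) s
      (fun a k i i' => ((h6 N c β e (ap (Γ.L a)) k hc).2 ρ j hF s hs0 x).2.1 _ _)
      (fun a k => ((h6 N c β e (ap (Γ.L a)) k hc).2 ρ j hF s hs0 x).2.2) (hw s x) fun n => ?_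
    refine (tv_mono _ _ (fun a k => ?_) n).trans ((hs s hs0).2 x n)
    obtain ⟨g1, g2, -, g3, -⟩ := (hM s a k x).1
    show fW c (ap (Γ.L a)) (ρ s) k x + _ ≤ _
    linarith
  have hder : ∀ s, 0 < s → ∀ i x, HasDerivAt (fun s => cX Γ P c (ρ s) i x)
      (-(ST_2 Γ P c ρ s i x + ST_1 Γ P c (ρ s) (j s) i x)) s := by
    intro s hs0 i x
    rw [ST_2, ST_1, ← Finset.sum_add_distrib]
    refine HasDerivAt.fun_neg (HasDerivAt.fun_sum fun k _ => ?_)
    rw [← Finset.sum_add_distrib]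
    refine HasDerivAt.fun_sum fun a _ => ?_
    exact ((hsens s hs0 x a k).1.hasDerivAt.exp).fun_mul
      (((h6 N c β e (ap (Γ.L a)) k hc).2 ρ j hF s hs0 x).1 _)
  have hb2 : ∀ s, 0 < s → ∀ (x : E N) (G : ℝ), 0 ≤ G →
      (∀ a k, k < c.n → Real.exp (-(ak Γ P (cB Γ c (ρ s) x) (cW Γ c (ρ s) x) k +
        ck P.C1 (cW Γ c (ρ s) x) k) / 2) * (rk c k * |ST_w Γ c (ρ s) (j s) x a k|) ≤ G) →
      (∀ a k i i', k < c.n → Real.exp (-(ak Γ P (cB Γ c (ρ s) x) (cW Γ c (ρ s) x) k +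
        ck P.C1 (cW Γ c (ρ s) x) k) / 2) * (rk c k * |ST_b Γ c (ρ s) (j s) x a k i i'|) ≤ G) →
      ∀ i, |ST_2 Γ P c ρ s i x| ≤ D * G := by
    intro s hs0 x G hG g1 g2 i
    rw [hD]
    refine ST_pt Γ hP c (ws := fun a k => fW c (ap (Γ.L a)) (ρ s) k x + fS c (ap (Γ.L a)) (ρ s) k x)
      (p := fun a k => fP c (ap (Γ.L a)) (ρ s) k (col Γ a i) x) c.n hCs hCb hG (hw s x)
      (fun a k => add_nonneg (hM s a k x).1.1 (hM s a k x).1.2.2.2.1)
      (fun a k => (hsens s hs0 x a k).2)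
      (fun a k => ((hM s a k x).2.1 _ (norm_col_le hΓ a i)).1) ?_ g1 g2
    refine (tv_mono _ _ (fun a k => ?_) c.n).trans ((hs s hs0).2 x c.n)
    obtain ⟨g1, g2, -⟩ := (hM s a k x).1
    have := n1_nonneg (cB Γ c (ρ s) x a k)
    linarith
  obtain ⟨B0, hB0, hcr⟩ := ST_unif h6 Γ hc
  obtain ⟨J, hJ⟩ : ∃ J : ℝ, ∀ᶠ s in 𝓝 t, ∑ i, ∫ y, |j s i y| ≤ J := ⟨_, ST_cur hF t⟩
  obtain ⟨δ, hδ0, hδ⟩ := Metric.eventually_nhds_iff_ball.1 (hJ.and (lt_mem_nhds ht))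
  have hbd : ∀ s ∈ Metric.ball t δ, ∀ i x,
      |ST_2 Γ P c ρ s i x + ST_1 Γ P c (ρ s) (j s) i x| ≤
        D * (Real.exp c.τ0 * (B0 * J)) + c.n * (Γ.m * (B0 * J)) := by
    intro s hsb i x
    obtain ⟨g1, hs0⟩ := hδ s hsb
    have g0 : 0 ≤ ∑ i, ∫ y, |j s i y| :=
      Finset.sum_nonneg fun _ _ => integral_nonneg fun _ => abs_nonneg _
    have g2 : B0 * ∑ i, ∫ y, |j s i y| ≤ B0 * J := by gcongr
    have g3 : 0 ≤ B0 * J := mul_nonneg hB0 (g0.trans g1)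
    have g4 := hcr (ρ s) (j s) (hF.den s) (hF.ij s) x
    have g5 : ∀ k (y : ℝ), |y| ≤ B0 * J →
        Real.exp (-(ak Γ P (cB Γ c (ρ s) x) (cW Γ c (ρ s) x) k +
          ck P.C1 (cW Γ c (ρ s) x) k) / 2) * (rk c k * |y|) ≤ Real.exp c.τ0 * (B0 * J) := by
      intro k y hy
      have f1 : Real.exp (-(ak Γ P (cB Γ c (ρ s) x) (cW Γ c (ρ s) x) k +
          ck P.C1 (cW Γ c (ρ s) x) k) / 2) ≤ 1 := Real.exp_le_one_iff.2 (by
        linarith [ak_nonneg Γ hP (cB Γ c (ρ s) x) (hw s x) k, ck_nonneg hP.C11 (hw s x) k])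
      have f2 := rk_pos c k
      calc _ ≤ 1 * (Real.exp c.τ0 * (B0 * J)) :=
            mul_le_mul f1 (mul_le_mul (ST_rk_le c k) hy (abs_nonneg _) (Real.exp_pos _).le)
              (by positivity) zero_le_one
        _ = _ := one_mul _
    refine (abs_add_le _ _).trans (add_le_add (hb2 s hs0 x _ (by positivity)
      (fun a k hk => g5 k _ ((g4 a k hk).1.trans g2))
      (fun a k i i' hk => g5 k _ (((g4 a k hk).2 i i').2.trans g2)) i) ?_)
    calc _ ≤ ∑ k ∈ Finset.range c.n, ∑ a : Fin Γ.m, B0 * J := by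
          refine (Finset.abs_sum_le_sum_abs _ _).trans (Finset.sum_le_sum fun k hk => ?_)
          refine (Finset.abs_sum_le_sum_abs _ _).trans (Finset.sum_le_sum fun a _ => ?_)
          obtain ⟨f1, f2⟩ := (hLL s hs0 a k).2.1 x
          rw [abs_mul, abs_of_pos f1]
          calc _ ≤ 1 * (B0 * J) :=
                mul_le_mul f2 (((g4 a k (Finset.mem_range.1 hk)).2 i i).1.trans g2)
                  (abs_nonneg _) zero_le_one
            _ = _ := one_mul _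
      _ = _ := by simp
  refine ⟨fun i x => -(ST_2 Γ P c ρ t i x + ST_1 Γ P c (ρ t) (j t) i x),
    D * (Real.exp c.τ0 * (B0 * J)) + c.n * (Γ.m * (B0 * J)), hder t ht, ?_, ?_⟩
  · filter_upwards [Metric.ball_mem_nhds t hδ0] with s hsb i x
    exact Convex.norm_image_sub_le_of_norm_hasDerivWithin_le (s := Metric.ball t δ) (x := t)
      (y := s) (f := fun s => cX Γ P c (ρ s) i x)
      (f' := fun s => -(ST_2 Γ P c ρ s i x + ST_1 Γ P c (ρ s) (j s) i x))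
      (fun u hu => (hder u (hδ u hu).2 i x).hasDerivWithinAt)
      (fun u hu => by rw [norm_neg]; exact hbd u hu i x) (convex_ball t δ)
      (Metric.mem_ball_self hδ0) hsb
  · have hD4 := fun s (a : Fin Γ.m) k => h4 N c β e (ap (Γ.L a)) (ρ s) hc (hF.den s) k
    have hη' : ∀ s, 0 < s → ∀ a k, CB (cE Γ P c (ρ s) a k) := fun s hs0 a k =>
      ST_ll (hLL s hs0 a k)
    have hX : ∀ i s, 0 < s → Continuous (cX Γ P c (ρ s) i) := fun i s hs0 =>
      (ST_sum _ fun k _ => ST_sum _ fun a _ =>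
        ST_mul (hη' s hs0 a k) ((hD4 s a k).1.2.2.2.2.2.1 (col Γ a i)).1).1.neg
    have hQ := fun a k => (hD4 t a k).2.1 (j t) (hF.ij t)
    have c1 : ∀ i, CB (ST_1 Γ P c (ρ t) (j t) i) := fun i =>
      ST_sum _ fun k _ => ST_sum _ fun a _ => ST_mul (hη' t ht a k) ((hQ a k).2.2.1 _)
    have cV : CB (ST_V Γ P c (ρ t) (j t)) :=
      ST_sum _ fun k _ => ST_sum _ fun a _ => ST_mul (hη' t ht a k) (hQ a k).1
    have m2 : ∀ i, Measurable (ST_2 Γ P c ρ t i) := fun i => by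
      have f1 := ST_meas (f := fun s => cX Γ P c (ρ s) i) ht (hX i) (hder t ht i)
      have f2 := f1.neg.sub (c1 i).1.measurable
      convert f2 using 1
      ext x
      simp
    have q0 : ∀ x a k, 0 ≤ cE Γ P c (ρ t) a k x * fQ c (ap (Γ.L a)) (ρ t) (j t) k x :=
      fun x a k => mul_nonneg (eta_pos _ _ _ _ _ _).le ((hM t a k x).2.2.2 (j t) (hF.ij t)).1
    have V0 : ∀ x, 0 ≤ ST_V Γ P c (ρ t) (j t) x := fun x =>
      Finset.sum_nonneg fun k _ => Finset.sum_nonneg fun a _ => q0 x a k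
    have qV : ∀ x a k, k < c.n → cE Γ P c (ρ t) a k x * fQ c (ap (Γ.L a)) (ρ t) (j t) k x ≤
        ST_V Γ P c (ρ t) (j t) x := fun x a k hk =>
      (Finset.single_le_sum
        (f := fun a => cE Γ P c (ρ t) a k x * fQ c (ap (Γ.L a)) (ρ t) (j t) k x)
        (fun a _ => q0 x a k) (Finset.mem_univ a)).trans
      (Finset.single_le_sum
        (f := fun k => ∑ a, cE Γ P c (ρ t) a k x * fQ c (ap (Γ.L a)) (ρ t) (j t) k x)
        (fun k _ => Finset.sum_nonneg fun a _ => q0 x a k) (Finset.mem_range.2 hk))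
    have low : ∀ x a k, Real.exp (-(ak Γ P (cB Γ c (ρ t) x) (cW Γ c (ρ t) x) k +
        ck P.C1 (cW Γ c (ρ t) x) k)) ≤ CL * cE Γ P c (ρ t) a k x := by
      intro x a k
      rw [neg_add']
      refine (hL (cB Γ c (ρ t) x) (cW Γ c (ρ t) x) (hw t x) (fun n => ?_) k).2.2 a
      refine (tv_mono _ _ (fun a k => ?_) n).trans ((hs t ht).2 x n)
      obtain ⟨g1, g2, -, g3, -⟩ := (hM t a k x).1
      linarith
    have sq2 : ∀ i x, ST_2 Γ P c ρ t i x ^ 2 ≤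
        D ^ 2 * (Cb * β * CL) * ST_V Γ P c (ρ t) (j t) x := by
      intro i x
      have g0 := fun a k => (hM t a k x).2.2.2 (j t) (hF.ij t)
      have g1 := hb2 t ht x _ (Real.sqrt_nonneg (Cb * β * CL * ST_V Γ P c (ρ t) (j t) x))
        (fun a k hk => ST_sq (rk_pos c k) (by positivity) hCL (g0 a k).1 (low x a k)
          (g0 a k).2.1 (qV x a k hk))
        (fun a k i i' hk => ST_sq (rk_pos c k) (by positivity) hCL (g0 a k).1 (low x a k)
          ((g0 a k).2.2 _ _ (norm_col_le hΓ a i) (norm_col_le hΓ a i')) (qV x a k hk)) i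
      have g2 := V0 x
      have g3 := pow_le_pow_left₀ (abs_nonneg _) g1 2
      rw [sq_abs, mul_pow, Real.sq_sqrt (by positivity)] at g3
      linarith
    have T2 := fun i => ST_T2 (t := η / (N + 1)) (hs t ht).1 (m2 i) cV V0 (by positivity)
      (by positivity) (sq2 i) i
    have T1 := ST_T1 c.n (η := cE Γ P c (ρ t)) (q := fun a k => fQ c (ap (Γ.L a)) (ρ t) (j t) k)
      (wp := fun a k => fWP c (ap (Γ.L a)) (ρ t) k)
      (pt := fun a k i => fPt c (ap (Γ.L a)) (ρ t) (j t) k (col Γ a i)) (c0 := c0)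
      (D := Ct * ε ^ 2) (K := K) (by positivity) (hF.den t).1 (hs t ht).1.kden (hF.ij t)
      (hη' t ht) (fun a k => (hQ a k).1) (fun a k => (hD4 t a k).1.2.1)
      (fun a k i => (hQ a k).2.2.1 _)
      (fun a k => hT c β e _ _ (ρ t) (κ t) (j t) (n t) hc (hΓ.lin a) (hs t ht).1 k ε _ hε0.le hεA
        (hLL t ht a k)) fun x => by
        refine le_trans ?_ ((hs t ht).2 x c.n)
        refine Finset.sum_le_sum fun k _ => ?_
        rw [Finset.mul_sum]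
        refine Finset.sum_le_sum fun a _ => ?_
        obtain ⟨g1, g2, -, g3, -⟩ := (hM t a k x).1
        have g4 := n1_nonneg (cB Γ c (ρ t) x a k)
        exact mul_le_mul (ST_eta' Γ hP _ (hw t x) a k) (by linarith) (by linarith)
          (Real.exp_pos _).le
    have e1 : ∀ i, ∫ x, -(ST_2 Γ P c ρ t i x + ST_1 Γ P c (ρ t) (j t) i x) * j t i x =
        -(∫ x, ST_2 Γ P c ρ t i x * j t i x) - ∫ x, ST_1 Γ P c (ρ t) (j t) i x * j t i x := by
      intro i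
      simp only [neg_mul, add_mul]
      rw [integral_neg, integral_add (T2 i).1 (ST_int (c1 i) (hF.ij t i)), neg_add']
    have e2 : ∑ i, -∫ x, ST_2 Γ P c ρ t i x * j t i x ≤ N * (η / (N + 1) / 2 * (∫ x, κ t x) +
        2 * (D ^ 2 * (Cb * β * CL)) / (η / (N + 1)) *
          ∫ x, ST_V Γ P c (ρ t) (j t) x * ρ t x) := by
      refine (Finset.sum_le_sum fun i _ => (neg_le_abs _).trans (T2 i).2).trans (le_of_eq ?_)
      rw [Finset.sum_const, Finset.card_univ, Fintype.card_fin, nsmul_eq_mul]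
    have k0 : 0 ≤ ∫ x, κ t x := integral_nonneg (hs t ht).1.kden.2
    have v0 : 0 ≤ ∫ x, ST_V Γ P c (ρ t) (j t) x * ρ t x :=
      integral_nonneg fun x => mul_nonneg (V0 x) ((hF.den t).2 x)
    have e3 := mul_le_mul_of_nonneg_right (hβD β (hβ.trans (min_le_right _ _))) v0
    have e4 := mul_le_mul_of_nonneg_right hεK k0
    have e5 : N * (η / (N + 1) / 2) ≤ η / 2 := by
      have f1 : (N : ℝ) / (N + 1) ≤ 1 := (div_le_one (by positivity)).2 (by linarith)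
      calc _ = (N : ℝ) / (N + 1) * (η / 2) := by ring
        _ ≤ 1 * (η / 2) := by gcongr
        _ = _ := one_mul _
    have e6 := mul_le_mul_of_nonneg_right e5 k0
    simp only [e1, Finset.sum_sub_distrib]
    change -∑ i, ∫ x, ST_1 Γ P c (ρ t) (j t) i x * j t i x ≤
      -(c0 * ∫ x, ST_V Γ P c (ρ t) (j t) x * ρ t x) + _ at T1
    linarith

end

end Pool.Agent.Lib.MP_13801a_an.ND
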