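import Mathlib
import Pool.Agent.Lib.MP_13801a_an.ND.StsG

/-!
The adaptive field has two derivatives along the coordinate lines, with bounds.
-/

open MeasureTheory Set Filter Matrix
open scoped Topology

namespace Pool.Agent.Lib.MP_13801a_an.ND

noncomputable section

variable {N : ℕ}

theorem SX1_shift {f f' : E N → ℝ} {v : E N} (h : ∀ x, HasLineDerivAt ℝ f (f' x) x v) (x : E N)
    (t : ℝ) : HasDerivAt (fun s : ℝ => f (x + s • v)) (f' (x + t • v)) t := by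
  have h1 := h (x + t • v)
  unfold HasLineDerivAt at h1
  have h2 : HasDerivAt (fun u : ℝ => f (x + t • v + u • v)) (f' (x + t • v)) (t - t) := by
    simpa using h1
  refine (h2.comp_sub_const t t).congr_of_eventuallyEq (Eventually.of_forall fun u => ?_)
  simp only [sub_smul]
  congr 1
  abel

theorem SX1_sum {m : ℕ} (C1 : ℝ) (w u f : Fin m → ℕ → ℝ) (D : ℝ) (n : ℕ)
    (h : ∀ k, k < n → ∀ a, |f a k| ≤ D * (Real.exp (-ck C1 w k / 2) * u a k)) :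
    |∑ k ∈ Finset.range n, ∑ a, f a k| ≤ D * tv C1 w u n := by
  refine (Finset.abs_sum_le_sum_abs _ _).trans ?_
  rw [tv, Finset.mul_sum]
  refine Finset.sum_le_sum fun k hk => (Finset.abs_sum_le_sum_abs _ _).trans ?_
  rw [Finset.mul_sum, Finset.mul_sum]
  exact Finset.sum_le_sum fun a _ => h k (Finset.mem_range.1 hk) a

theorem SX1_tv_add {m : ℕ} (C1 : ℝ) (w u v : Fin m → ℕ → ℝ) (t : ℝ) (n : ℕ) :
    tv C1 w (fun a k => u a k + t * v a k) n = tv C1 w u n + t * tv C1 w v n := by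
  simp only [tv, Finset.sum_add_distrib, mul_add, Finset.mul_sum]
  congr 1
  refine Finset.sum_congr rfl fun k _ => Finset.sum_congr rfl fun a _ => by ring

theorem SX1_mu {m : ℕ} {C1 : ℝ} (hC : 1 ≤ C1) {w : Fin m → ℕ → ℝ} (hw : ∀ a k, 0 ≤ w a k)
    (b1 : Fin m → ℕ → Mt N) (w1 v : Fin m → ℕ → ℝ) (r : ℕ → ℝ) (hr0 : ∀ k, 0 ≤ r k)
    (hr : Antitone r) (hv : ∀ a k, r k * (n1 (b1 a k) + |w1 a k|) ≤ v a k) {k n : ℕ}
    (hk : k ≤ n) :
    Real.exp (-ck C1 w k / 2) * r k * mu C1 w b1 w1 k ≤ tv C1 w v n := by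
  have hv0 : ∀ a k, 0 ≤ v a k := fun a k =>
    (mul_nonneg (hr0 k) (add_nonneg (n1_nonneg _) (abs_nonneg _))).trans (hv a k)
  have h1 : tv C1 w v k ≤ tv C1 w v n :=
    Finset.sum_le_sum_of_subset_of_nonneg (Finset.range_mono hk) fun k' _ _ =>
      mul_nonneg (Real.exp_pos _).le (Finset.sum_nonneg fun a _ => hv0 a k')
  refine le_trans ?_ h1
  rw [mu, tv, Finset.mul_sum]
  refine Finset.sum_le_sum fun k' hk' => ?_
  rw [Finset.mul_sum, Finset.mul_sum]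
  refine Finset.sum_le_sum fun a _ => ?_
  have hk'' : k' ≤ k := (Finset.mem_range.1 hk').le
  have e1 : Real.exp (-ck C1 w k / 2) ≤ Real.exp (-ck C1 w k' / 2) :=
    Real.exp_le_exp.2 (by linarith [ck_mono hC hw hk''])
  have e2 : Real.exp (-ck C1 w k') ≤ 1 :=
    Real.exp_le_one_iff.2 (by linarith [ck_nonneg hC hw k'])
  have e3 : r k ≤ r k' := hr hk''
  have e4 := n1_nonneg (b1 a k')
  have e5 := abs_nonneg (w1 a k')
  have e6 := hr0 k
  have e7 := Real.exp_pos (-ck C1 w k')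
  calc Real.exp (-ck C1 w k / 2) * r k * (Real.exp (-ck C1 w k') * n1 (b1 a k') + |w1 a k'|)
      ≤ Real.exp (-ck C1 w k' / 2) * r k' * (1 * n1 (b1 a k') + |w1 a k'|) := by
        gcongr
        exact mul_nonneg (Real.exp_pos _).le (hr0 k')
    _ = Real.exp (-ck C1 w k' / 2) * (r k' * (n1 (b1 a k') + |w1 a k'|)) := by ring
    _ ≤ _ := mul_le_mul_of_nonneg_left (hv a k') (Real.exp_pos _).le

theorem SX1_pt1 {η Ex l p μ r U C0 C1 ε : ℝ} (h0 : 0 ≤ η) (h1 : η ≤ Ex * Ex) (hE0 : 0 ≤ Ex)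
    (hE1 : Ex ≤ 1) (hl : |l| ≤ C1 * μ) (hp : |p| ≤ C0 * (r * U)) (hrμ : r * μ ≤ ε) (hU : 0 ≤ U)
    (hC0 : 0 ≤ C0) (hC1 : 0 ≤ C1) (hμ : 0 ≤ μ) (hr : 0 ≤ r) :
    |η * (l * p)| ≤ C1 * C0 * ε * (Ex * U) := by
  have h2 : η ≤ Ex := h1.trans (mul_le_of_le_one_right hE0 hE1)
  rw [abs_mul, abs_mul, abs_of_nonneg h0]
  calc η * (|l| * |p|) ≤ Ex * (C1 * μ * (C0 * (r * U))) := by gcongr
    _ = C1 * C0 * (r * μ) * (Ex * U) := by ring
    _ ≤ _ := by gcongr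

theorem SX1_pt2 {η Ex b3 b l1 l2 p μ μ2 r U v σ C0 C1 C2 : ℝ} (h0 : 0 ≤ η) (h1 : η ≤ Ex * Ex)
    (hE0 : 0 ≤ Ex) (hE1 : Ex ≤ 1) (hb3 : |b3| ≤ v) (hb : |b| ≤ U) (hl1 : |l1| ≤ C1 * μ)
    (hl2 : |l2| ≤ C2 * (μ2 + μ ^ 2)) (hp : |p| ≤ C0 * (r * U)) (hrμ : r * μ ≤ 1)
    (hσ1 : Ex * 1 * μ ≤ σ) (hσ2 : Ex * r * μ2 ≤ σ) (hC0 : 0 ≤ C0) (hC1 : 0 ≤ C1) (hC2 : 0 ≤ C2)
    (hμ : 0 ≤ μ) (hμ2 : 0 ≤ μ2) (hr : 0 ≤ r) :
    |η * (b3 + 2 * l1 * b - (l1 ^ 2 + l2) * p)| ≤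
      1 * (Ex * (v + (2 * C1 + C0 * (C1 ^ 2 + 2 * C2)) * σ * U)) := by
  have hU : 0 ≤ U := (abs_nonneg _).trans hb
  have hv : 0 ≤ v := (abs_nonneg _).trans hb3
  have hσ : 0 ≤ σ := le_trans (by positivity) hσ1
  have a1 : |2 * l1 * b| ≤ 2 * (C1 * μ) * U := by
    rw [abs_mul, abs_mul, abs_two]
    gcongr
  have a2 : |l1 ^ 2 + l2| ≤ (C1 * μ) ^ 2 + C2 * (μ2 + μ ^ 2) := by
    refine (abs_add_le _ _).trans (add_le_add ?_ hl2)
    rw [abs_pow]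
    gcongr
  have a3 : |(l1 ^ 2 + l2) * p| ≤ ((C1 * μ) ^ 2 + C2 * (μ2 + μ ^ 2)) * (C0 * (r * U)) := by
    rw [abs_mul]
    gcongr
  have a4 : |b3 + 2 * l1 * b - (l1 ^ 2 + l2) * p| ≤
      v + 2 * (C1 * μ) * U + ((C1 * μ) ^ 2 + C2 * (μ2 + μ ^ 2)) * (C0 * (r * U)) :=
    (abs_sub _ _).trans (add_le_add ((abs_add_le _ _).trans (add_le_add hb3 a1)) a3)
  have a5 : Ex * μ * (r * μ) ≤ σ * 1 := by
    rw [mul_one] at hσ1
    gcongr
  have a6 : Ex * μ ≤ σ := by simpa using hσ1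
  rw [abs_mul, abs_of_nonneg h0]
  calc η * |b3 + 2 * l1 * b - (l1 ^ 2 + l2) * p|
      ≤ Ex * Ex * (v + 2 * (C1 * μ) * U + ((C1 * μ) ^ 2 + C2 * (μ2 + μ ^ 2)) * (C0 * (r * U))) := by
        gcongr
    _ = Ex * (Ex * v + (2 * C1 * (Ex * μ) + C0 * ((C1 ^ 2 + C2) * (Ex * μ * (r * μ)) +
          C2 * (Ex * r * μ2))) * U) := by ring
    _ ≤ Ex * (1 * v + (2 * C1 * σ + C0 * ((C1 ^ 2 + C2) * (σ * 1) + C2 * σ)) * U) := by gcongr
    _ = _ := by ring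

/-- Bounded functions. -/
def SX1_Bd (f : E N → ℝ) : Prop := ∃ B : ℝ, ∀ x, |f x| ≤ B

theorem SX1_add {f g : E N → ℝ} (hf : SX1_Bd f) (hg : SX1_Bd g) : SX1_Bd fun x => f x + g x := by
  obtain ⟨A, hA⟩ := hf
  obtain ⟨B, hB⟩ := hg
  exact ⟨A + B, fun x => (abs_add_le _ _).trans (add_le_add (hA x) (hB x))⟩

theorem SX1_mul {f g : E N → ℝ} (hf : SX1_Bd f) (hg : SX1_Bd g) : SX1_Bd fun x => f x * g x := by
  obtain ⟨A, hA⟩ := hf
  obtain ⟨B, hB⟩ := hg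
  refine ⟨A * B, fun x => ?_⟩
  rw [abs_mul]
  exact mul_le_mul (hA x) (hB x) (abs_nonneg _) ((abs_nonneg _).trans (hA x))

theorem SX1_abs {f : E N → ℝ} (hf : SX1_Bd f) : SX1_Bd fun x => |f x| := by
  obtain ⟨A, hA⟩ := hf
  exact ⟨A, fun x => by simpa using hA x⟩

theorem SX1_const (c : ℝ) : SX1_Bd fun _ : E N => c := ⟨|c|, fun _ => le_rfl⟩

theorem SX1_bsum {ι : Type*} (s : Finset ι) {f : ι → E N → ℝ} (hf : ∀ i, SX1_Bd (f i)) :
    SX1_Bd fun x => ∑ i ∈ s, f i x := by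
  choose B hB using hf
  exact ⟨∑ i ∈ s, B i, fun x =>
    (Finset.abs_sum_le_sum_abs _ _).trans (Finset.sum_le_sum fun i _ => hB i x)⟩

theorem SX1_n1 {M : E N → Mt N} (h : ∀ i j, SX1_Bd fun x => M x i j) :
    SX1_Bd fun x => n1 (M x) :=
  SX1_bsum _ fun i => SX1_bsum _ fun j => SX1_abs (h i j)

section Main

variable (Γ : Net N) (P : GPar) (c : Cfg) (ρ : E N → ℝ)

/-- The logarithm of the weights along a coordinate line. -/
def SX1_g (a : Fin Γ.m) (k : ℕ) (i : Fin N) (x : E N) (s : ℝ) : ℝ :=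
  leta Γ P (cB Γ c ρ (x + s • ee i)) (cW Γ c ρ (x + s • ee i)) a k

def SX1_l1 (a : Fin Γ.m) (k : ℕ) (i : Fin N) (x : E N) : ℝ := deriv (SX1_g Γ P c ρ a k i x) 0

def SX1_l2 (a : Fin Γ.m) (k : ℕ) (i : Fin N) (x : E N) : ℝ :=
  deriv (deriv (SX1_g Γ P c ρ a k i x)) 0

def SX1_P (a : Fin Γ.m) (k : ℕ) (j : Fin N) (x : E N) : ℝ :=
  fP c (ap (Γ.L a)) ρ k (col Γ a j) x

def SX1_X1 (i j : Fin N) (x : E N) : ℝ :=
  ∑ k ∈ Finset.range c.n, ∑ a, cE Γ P c ρ a k x *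
    (cB Γ c ρ x a k i j - SX1_l1 Γ P c ρ a k i x * SX1_P Γ c ρ a k j x)

def SX1_X2 (i j : Fin N) (x : E N) : ℝ :=
  ∑ k ∈ Finset.range c.n, ∑ a, cE Γ P c ρ a k x *
    (cB3 Γ c ρ i x a k i j + 2 * SX1_l1 Γ P c ρ a k i x * cB Γ c ρ x a k i j -
      (SX1_l1 Γ P c ρ a k i x ^ 2 + SX1_l2 Γ P c ρ a k i x) * SX1_P Γ c ρ a k j x)

theorem SX1_l1_line (a : Fin Γ.m) (k : ℕ) (i : Fin N) (x : E N) :
    (fun s : ℝ => SX1_l1 Γ P c ρ a k i (x + s • ee i)) = deriv (SX1_g Γ P c ρ a k i x) := by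
  funext s
  have e : SX1_g Γ P c ρ a k i (x + s • ee i) = fun t => SX1_g Γ P c ρ a k i x (s + t) := by
    funext t
    simp only [SX1_g, add_smul, add_assoc]
  rw [SX1_l1, e, deriv_comp_const_add, add_zero]

variable {Γ P c ρ}

theorem SX1_der
    (hg1 : ∀ a k i x, DifferentiableAt ℝ (SX1_g Γ P c ρ a k i x) 0)
    (hg2 : ∀ a k i x, DifferentiableAt ℝ (deriv (SX1_g Γ P c ρ a k i x)) 0)
    (hP : ∀ a k i j x, HasLineDerivAt ℝ (SX1_P Γ c ρ a k j) (-cB Γ c ρ x a k i j) x (ee i))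
    (hB : ∀ a k i j x,
      HasLineDerivAt ℝ (fun y => cB Γ c ρ y a k i j) (cB3 Γ c ρ i x a k i j) x (ee i))
    (i j : Fin N) (x : E N) :
    HasLineDerivAt ℝ (cX Γ P c ρ j) (SX1_X1 Γ P c ρ i j x) x (ee i) ∧
      HasLineDerivAt ℝ (SX1_X1 Γ P c ρ i j) (SX1_X2 Γ P c ρ i j x) x (ee i) := by
  have hE : ∀ a k, HasDerivAt (fun s : ℝ => cE Γ P c ρ a k (x + s • ee i))
      (cE Γ P c ρ a k x * SX1_l1 Γ P c ρ a k i x) 0 := fun a k => by
    have h := (hg1 a k i x).hasDerivAt.exp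
    have e : Real.exp (SX1_g Γ P c ρ a k i x 0) = cE Γ P c ρ a k x := by
      simp [SX1_g, cE, eta]
    rw [e] at h
    exact h
  have hL : ∀ a k, HasDerivAt (fun s : ℝ => SX1_l1 Γ P c ρ a k i (x + s • ee i))
      (SX1_l2 Γ P c ρ a k i x) 0 := fun a k => by
    rw [SX1_l1_line]
    exact (hg2 a k i x).hasDerivAt
  constructor
  · have h := (HasDerivAt.fun_sum (u := Finset.range c.n) fun k _ =>
      HasDerivAt.fun_sum (u := Finset.univ) fun a _ => (hE a k).fun_mul (hP a k i j x)).fun_neg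
    refine HasDerivAt.congr_deriv h ?_
    simp only [SX1_X1, zero_smul, add_zero, ← Finset.sum_neg_distrib]
    refine Finset.sum_congr rfl fun k _ => Finset.sum_congr rfl fun a _ => by ring
  · have h := HasDerivAt.fun_sum (u := Finset.range c.n) fun k _ =>
      HasDerivAt.fun_sum (u := Finset.univ) fun a _ =>
        (hE a k).fun_mul ((hB a k i j x).fun_sub ((hL a k).fun_mul (hP a k i j x)))
    refine HasDerivAt.congr_deriv h ?_
    simp only [SX1_X2, zero_smul, add_zero]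
    refine Finset.sum_congr rfl fun k _ => Finset.sum_congr rfl fun a _ => by ring

end Main

theorem SX1 (h1 : St_SENS1) (h2 : St_SENS2) (h3 : St_ETA) (h4 : St_MDER) (h5 : St_MBND)
    (_h6 : St_LOW) : St_SX1 := by
  intro N Γ P K hΓ hP
  obtain ⟨C1, hC1, hS1⟩ := h1 N Γ P K hP
  obtain ⟨C2, hC2, hS2⟩ := h2 N Γ P K hP
  obtain ⟨C0, hC0, hM⟩ := h5 N
  have hK0 := abs_nonneg K
  refine ⟨C0 * |K| + 1 + (2 * C1 + C0 * (C1 ^ 2 + 2 * C2)) * |K|, by positivity, fun η hη => ?_⟩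
  set ε := min 1 (η / (C1 * C0 * |K| + 1)) with hε
  have hε0 : 0 < ε := lt_min one_pos (by positivity)
  obtain ⟨β0, hβ0, hET⟩ := h3 N Γ P K ε hΓ hP hε0
  refine ⟨β0, hβ0, fun c β e ρ hβ hc hρ hA => ?_⟩
  have hD := fun a => h4 N c β e (ap (Γ.L a)) ρ hc hρ
  have hB := fun a => hM c β e (ap (Γ.L a)) ρ hc hρ
  have hw : ∀ x a k, 0 ≤ cW Γ c ρ x a k := fun x a k => (hB a k x).1.1
  -- the a priori bound
  set U : E N → Fin Γ.m → ℕ → ℝ := fun x a k => fW c (ap (Γ.L a)) ρ k x +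
    fS c (ap (Γ.L a)) ρ k x + fWP c (ap (Γ.L a)) ρ k x + n1 (cB Γ c ρ x a k) with hU
  have hUK : ∀ x n, tv P.C1 (cW Γ c ρ x) (U x) n ≤ |K| := fun x n => (hA x n).trans (le_abs_self K)
  have hU1 : ∀ x a k, fW c (ap (Γ.L a)) ρ k x + fS c (ap (Γ.L a)) ρ k x ≤ U x a k := by
    intro x a k
    obtain ⟨⟨a1, a2, -, -⟩, -⟩ := hB a k x
    have := n1_nonneg (cB Γ c ρ x a k)
    simp only [hU]
    linarith
  have hU2 : ∀ x a k, cW Γ c ρ x a k + n1 (cB Γ c ρ x a k) ≤ U x a k := by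
    intro x a k
    obtain ⟨⟨a1, a2, -, a4, -⟩, -⟩ := hB a k x
    simp only [hU, cW]
    linarith
  have hU3 : ∀ x a k i j, |cB Γ c ρ x a k i j| ≤ U x a k := fun x a k i j => by
    linarith [abs_le_n1 (cB Γ c ρ x a k) i j, hU2 x a k, hw x a k]
  have hU0 : ∀ x a k, 0 ≤ U x a k := fun x a k => by
    linarith [n1_nonneg (cB Γ c ρ x a k), hU2 x a k, hw x a k]
  have htv : ∀ x n, tv P.C1 (cW Γ c ρ x) (fun a k => cW Γ c ρ x a k + n1 (cB Γ c ρ x a k)) n ≤ K :=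
    fun x n => (tv_mono _ _ (hU2 x) n).trans (hA x n)
  have hPb : ∀ a k j x, |SX1_P Γ c ρ a k j x| ≤ C0 * (rk c k * U x a k) := fun a k j x => by
    refine ((hB a k x).2.1 _ (norm_col_le hΓ a j)).1.trans ?_
    have := (rk_pos c k).le
    gcongr
    exact hU1 x a k
  -- line derivatives of the data
  have dB : ∀ a k l i j x, HasLineDerivAt ℝ (fun y => cB Γ c ρ y a k i j)
      (cB3 Γ c ρ l x a k i j) x (ee l) := fun a k l i j x =>
    (((hD a k).2.2 (ee l) x).2.1 (col Γ a i) (col Γ a j)).1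
  have dB3 : ∀ a k l i j x, HasLineDerivAt ℝ (fun y => cB3 Γ c ρ l y a k i j)
      (cB4 Γ c ρ l x a k i j) x (ee l) := fun a k l i j x =>
    (((hD a k).2.2 (ee l) x).2.1 (col Γ a i) (col Γ a j)).2
  have dW : ∀ a k l x, HasLineDerivAt ℝ (fun y => cW Γ c ρ y a k) (cW1 Γ c ρ l x a k) x (ee l) :=
    fun a k l x => ((hD a k).2.2 (ee l) x).2.2.1
  have dW1 : ∀ a k l x,
      HasLineDerivAt ℝ (fun y => cW1 Γ c ρ l y a k) (cW2 Γ c ρ l x a k) x (ee l) :=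
    fun a k l x => ((hD a k).2.2 (ee l) x).2.2.2
  have dP : ∀ a k i j x,
      HasLineDerivAt ℝ (SX1_P Γ c ρ a k j) (-cB Γ c ρ x a k i j) x (ee i) :=
    fun a k i j x => ((hD a k).2.2 (ee i) x).1 (col Γ a j)
  have s1 : ∀ a k i x, DifferentiableAt ℝ (SX1_g Γ P c ρ a k i x) 0 ∧
      |SX1_l1 Γ P c ρ a k i x| ≤
        C1 * mu P.C1 (cW Γ c ρ x) (cB3 Γ c ρ i x) (cW1 Γ c ρ i x) k := fun a k i x => by
    have h := hS1 (fun s => cB Γ c ρ (x + s • ee i)) (fun s => cW Γ c ρ (x + s • ee i))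
      (cB3 Γ c ρ i x) (cW1 Γ c ρ i x) 0 (fun a k i' j => dB a k i i' j x)
      (fun a k => dW a k i x) (fun a k => hw _ a k) (fun n => htv _ n) a k
    simp only [zero_smul, add_zero] at h
    exact h
  have s2 : ∀ a k i x, DifferentiableAt ℝ (deriv (SX1_g Γ P c ρ a k i x)) 0 ∧
      |SX1_l2 Γ P c ρ a k i x| ≤
        C2 * (mu P.C1 (cW Γ c ρ x) (cB4 Γ c ρ i x) (cW2 Γ c ρ i x) k +
          mu P.C1 (cW Γ c ρ x) (cB3 Γ c ρ i x) (cW1 Γ c ρ i x) k ^ 2) := fun a k i x => by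
    have h := hS2 (fun s => cB Γ c ρ (x + s • ee i)) (fun s => cB3 Γ c ρ i (x + s • ee i))
      (fun s => cW Γ c ρ (x + s • ee i)) (fun s => cW1 Γ c ρ i (x + s • ee i))
      (cB4 Γ c ρ i x) (cW2 Γ c ρ i x) 0
      (fun s a k i' j => SX1_shift (fun y => dB a k i i' j y) x s)
      (fun s a k => SX1_shift (fun y => dW a k i y) x s)
      (fun a k i' j => dB3 a k i i' j x) (fun a k => dW1 a k i x)
      (fun a k => hw _ a k) (fun n => htv _ n) a k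
    simp only [zero_smul, add_zero] at h
    exact h
  have hder := SX1_der (fun a k i x => (s1 a k i x).1) (fun a k i x => (s2 a k i x).1) dP
    (fun a k i j x => dB a k i i j x)
  -- the weights
  have hE0 : ∀ a k x, 0 ≤ cE Γ P c ρ a k x := fun a k x => (eta_pos _ _ _ _ _ _).le
  have hE1 : ∀ a k x, cE Γ P c ρ a k x ≤ Real.exp (-ck P.C1 (cW Γ c ρ x) k / 2) *
      Real.exp (-ck P.C1 (cW Γ c ρ x) k / 2) := fun a k x => by
    rw [← Real.exp_add, add_halves]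
    exact eta_le Γ hP _ (hw x) a k
  have hE2 : ∀ k x, Real.exp (-ck P.C1 (cW Γ c ρ x) k / 2) ≤ 1 := fun k x =>
    Real.exp_le_one_iff.2 (by linarith [ck_nonneg hP.C11 (hw x) k])
  have hE3 : ∀ a k x, cE Γ P c ρ a k x ≤ Real.exp (-ck P.C1 (cW Γ c ρ x) k / 2) := fun a k x =>
    (hE1 a k x).trans (mul_le_of_le_one_right (Real.exp_pos _).le (hE2 k x))
  have hrk : Antitone (rk c) := fun k k' h => Real.exp_le_exp.2 (by
    have : (k : ℝ) ≤ k' := Nat.cast_le.2 h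
    linarith)
  have hrk0 : ∀ k, rk c k ≤ Real.exp c.τ0 := fun k => by
    simp [rk]
  have hmu := fun k => (hET c β e ρ hβ hc hρ hA k).1
  -- bound of the field
  have b0 : ∀ i x, |cX Γ P c ρ i x| ≤ C0 * |K| * Real.exp c.τ0 := fun i x => by
    rw [cX, abs_neg]
    refine (SX1_sum P.C1 (cW Γ c ρ x) (U x) _ (C0 * Real.exp c.τ0) c.n fun k _ a => ?_).trans ?_
    · rw [abs_mul, abs_of_nonneg (hE0 a k x)]
      have := hU0 x a k
      have := (rk_pos c k).le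
      calc _ ≤ Real.exp (-ck P.C1 (cW Γ c ρ x) k / 2) * (C0 * (Real.exp c.τ0 * U x a k)) := by
            refine mul_le_mul (hE3 a k x) ((hPb a k i x).trans ?_) (abs_nonneg _)
              (Real.exp_pos _).le
            gcongr
            exact hrk0 k
        _ = _ := by ring
    · calc _ ≤ C0 * Real.exp c.τ0 * |K| := by
            gcongr
            exact hUK x _
        _ = _ := by ring
  -- first derivatives
  have b1 : ∀ i j x, |SX1_X1 Γ P c ρ i j x - cBf Γ P c ρ x i j| ≤ η := fun i j x => by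
    have e1 : SX1_X1 Γ P c ρ i j x - cBf Γ P c ρ x i j = -∑ k ∈ Finset.range c.n, ∑ a,
        cE Γ P c ρ a k x * (SX1_l1 Γ P c ρ a k i x * SX1_P Γ c ρ a k j x) := by
      simp only [SX1_X1, cBf, Bf, Matrix.sum_apply, Matrix.smul_apply, smul_eq_mul, cE,
        ← Finset.sum_sub_distrib, ← Finset.sum_neg_distrib]
      refine Finset.sum_congr rfl fun k _ => Finset.sum_congr rfl fun a _ => by ring
    rw [e1, abs_neg]
    refine (SX1_sum P.C1 (cW Γ c ρ x) (U x) _ (C1 * C0 * ε) c.n fun k _ a =>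
      SX1_pt1 (hE0 a k x) (hE1 a k x) (Real.exp_pos _).le (hE2 k x) (s1 a k i x).2 (hPb a k j x)
        (hmu k i x) (hU0 x a k) hC0 hC1 (mu_nonneg _ _ _ _ _) (rk_pos c k).le).trans ?_
    have e2 : ε * (C1 * C0 * |K| + 1) ≤ η :=
      (le_div_iff₀ (by positivity)).1 (min_le_right _ _)
    calc _ ≤ C1 * C0 * ε * |K| := by
          gcongr
          exact hUK x _
      _ ≤ η := by nlinarith
  have b1' : ∀ i j x, |cBf Γ P c ρ x i j| ≤ |K| := fun i j x => by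
    have e1 : cBf Γ P c ρ x i j = ∑ k ∈ Finset.range c.n, ∑ a,
        cE Γ P c ρ a k x * cB Γ c ρ x a k i j := by
      simp only [cBf, Bf, Matrix.sum_apply, Matrix.smul_apply, smul_eq_mul, cE]
    rw [e1]
    refine (SX1_sum P.C1 (cW Γ c ρ x) (U x) _ 1 c.n fun k _ a => ?_).trans ?_
    · rw [abs_mul, abs_of_nonneg (hE0 a k x), one_mul]
      exact mul_le_mul (hE3 a k x) (hU3 x a k i j) (abs_nonneg _) (Real.exp_pos _).le
    · rw [one_mul]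
      exact hUK x _
  -- second derivatives
  set V : E N → Fin Γ.m → ℕ → ℝ := fun x a k => ∑ l, (n1 (cB3 Γ c ρ l x a k) +
    |cW1 Γ c ρ l x a k| + rk c k * (n1 (cB4 Γ c ρ l x a k) + |cW2 Γ c ρ l x a k|)) with hV
  have hsg : ∀ x, sg Γ P c ρ x = tv P.C1 (cW Γ c ρ x) (V x) c.n := fun x => rfl
  have hV0 : ∀ x a k i, n1 (cB3 Γ c ρ i x a k) + |cW1 Γ c ρ i x a k| +
      rk c k * (n1 (cB4 Γ c ρ i x a k) + |cW2 Γ c ρ i x a k|) ≤ V x a k := fun x a k i =>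
    Finset.single_le_sum (f := fun l => n1 (cB3 Γ c ρ l x a k) + |cW1 Γ c ρ l x a k| +
      rk c k * (n1 (cB4 Γ c ρ l x a k) + |cW2 Γ c ρ l x a k|)) (fun l _ =>
        add_nonneg (add_nonneg (n1_nonneg _) (abs_nonneg _))
          (mul_nonneg (rk_pos c k).le (add_nonneg (n1_nonneg _) (abs_nonneg _))))
      (Finset.mem_univ i)
  have hV1 : ∀ x i a k, 1 * (n1 (cB3 Γ c ρ i x a k) + |cW1 Γ c ρ i x a k|) ≤ V x a k :=
    fun x i a k => by
      have := mul_nonneg (rk_pos c k).le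
        (add_nonneg (n1_nonneg (cB4 Γ c ρ i x a k)) (abs_nonneg (cW2 Γ c ρ i x a k)))
      linarith [hV0 x a k i]
  have hV2 : ∀ x i a k, rk c k * (n1 (cB4 Γ c ρ i x a k) + |cW2 Γ c ρ i x a k|) ≤ V x a k :=
    fun x i a k => by
      linarith [hV0 x a k i, n1_nonneg (cB3 Γ c ρ i x a k), abs_nonneg (cW1 Γ c ρ i x a k)]
  have hsg0 : ∀ x, 0 ≤ sg Γ P c ρ x := fun x => by
    unfold sg tv
    exact Finset.sum_nonneg fun k _ => mul_nonneg (Real.exp_pos _).le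
      (Finset.sum_nonneg fun a _ => Finset.sum_nonneg fun l _ =>
        add_nonneg (add_nonneg (n1_nonneg _) (abs_nonneg _))
          (mul_nonneg (rk_pos c k).le (add_nonneg (n1_nonneg _) (abs_nonneg _))))
  have b2 : ∀ i j x, |SX1_X2 Γ P c ρ i j x| ≤
      (1 + (2 * C1 + C0 * (C1 ^ 2 + 2 * C2)) * |K|) * sg Γ P c ρ x := fun i j x => by
    refine (SX1_sum P.C1 (cW Γ c ρ x)
      (fun a k => V x a k + (2 * C1 + C0 * (C1 ^ 2 + 2 * C2)) * sg Γ P c ρ x * U x a k) _ 1 c.n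
      fun k hk a => SX1_pt2 (hE0 a k x) (hE1 a k x) (Real.exp_pos _).le (hE2 k x) ?_
        (hU3 x a k i j) (s1 a k i x).2 (s2 a k i x).2 (hPb a k j x)
        ((hmu k i x).trans (min_le_left _ _))
        (SX1_mu hP.C11 (hw x) _ _ (V x) (fun _ => 1) (fun _ => zero_le_one) antitone_const
          (hV1 x i) hk.le)
        (SX1_mu hP.C11 (hw x) _ _ (V x) (rk c) (fun k => (rk_pos c k).le) hrk (hV2 x i) hk.le)
        hC0 hC1 hC2 (mu_nonneg _ _ _ _ _) (mu_nonneg _ _ _ _ _) (rk_pos c k).le).trans ?_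
    · linarith [abs_le_n1 (cB3 Γ c ρ i x a k) i j, hV1 x i a k, abs_nonneg (cW1 Γ c ρ i x a k)]
    · rw [one_mul, SX1_tv_add, ← hsg]
      have := hsg0 x
      calc _ ≤ sg Γ P c ρ x + (2 * C1 + C0 * (C1 ^ 2 + 2 * C2)) * sg Γ P c ρ x * |K| := by
            gcongr
            exact hUK x _
        _ = _ := by ring
  have q1 : ∀ a k l i j, SX1_Bd fun x => cB3 Γ c ρ l x a k i j := fun a k l i j =>
    ((hD a k).1.2.2.2.2.2.2.2 (col Γ a i) (col Γ a j) (col Γ a l)).1.2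
  have q2 : ∀ a k l i j, SX1_Bd fun x => cB4 Γ c ρ l x a k i j := fun a k l i j =>
    ((hD a k).1.2.2.2.2.2.2.2 (col Γ a i) (col Γ a j) (col Γ a l)).2.2
  have q3 : ∀ a k l, SX1_Bd fun x => cW1 Γ c ρ l x a k := fun a k l =>
    ((hD a k).1.2.2.2.2.2.1 (col Γ a l)).2.1.2
  have q4 : ∀ a k l, SX1_Bd fun x => cW2 Γ c ρ l x a k := fun a k l =>
    ((hD a k).1.2.2.2.2.2.1 (col Γ a l)).2.2.2
  have q5 : ∀ k, SX1_Bd fun x => Real.exp (-ck P.C1 (cW Γ c ρ x) k / 2) := fun k =>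
    ⟨1, fun x => by
      rw [abs_of_pos (Real.exp_pos _)]
      exact hE2 k x⟩
  have bsg : SX1_Bd (sg Γ P c ρ) := by
    unfold sg tv
    exact SX1_bsum _ fun k => SX1_mul (q5 k) (SX1_bsum _ fun a => SX1_bsum _ fun l =>
      SX1_add (SX1_add (SX1_n1 (q1 a k l)) (SX1_abs (q3 a k l)))
        (SX1_mul (SX1_const _) (SX1_add (SX1_n1 (q2 a k l)) (SX1_abs (q4 a k l)))))
  obtain ⟨Bs, hBs⟩ := bsg
  have hp : 0 ≤ (2 * C1 + C0 * (C1 ^ 2 + 2 * C2)) * |K| := by positivity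
  have hq : 0 ≤ C0 * |K| := by positivity
  refine ⟨SX1_X1 Γ P c ρ, SX1_X2 Γ P c ρ, ⟨fun i j x => (hder i j x).1,
    fun i j x => (hder i j x).2, max (C0 * |K| * Real.exp c.τ0) (max (η + |K|)
      ((1 + (2 * C1 + C0 * (C1 ^ 2 + 2 * C2)) * |K|) * Bs)), fun i j x => ⟨?_, ?_, ?_⟩⟩,
    fun i x => (b0 i x).trans ?_, b1, fun i j x => (b2 i j x).trans ?_⟩
  · exact (b0 j x).trans (le_max_left _ _)
  · refine le_trans ?_ ((le_max_left _ _).trans (le_max_right _ _))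
    have := abs_add_le (SX1_X1 Γ P c ρ i j x - cBf Γ P c ρ x i j) (cBf Γ P c ρ x i j)
    rw [sub_add_cancel] at this
    linarith [b1 i j x, b1' i j x]
  · refine (b2 i j x).trans (le_trans ?_ ((le_max_right _ _).trans (le_max_right _ _)))
    exact mul_le_mul_of_nonneg_left ((le_abs_self _).trans (hBs x)) (by linarith)
  · exact mul_le_mul_of_nonneg_right (by linarith) (Real.exp_pos _).le
  · exact mul_le_mul_of_nonneg_right (by linarith) (hsg0 x)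

end

end Pool.Agent.Lib.MP_13801a_an.ND
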