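import Mathlib
import Pool.Agent.Lib.MP_13801a_an.ND.StsG

/-!
The derivative of the localised momentum along a time dependent vector field.
-/

open MeasureTheory Set Filter
open scoped Topology

namespace Pool.Agent.Lib.MP_13801a_an.ND

variable {N : ℕ}

theorem ZD_int {f g : E N → ℝ} {c : ℝ} (hf : Continuous f) (hb : ∀ x, |f x| ≤ c)
    (hg : Integrable g) : Integrable fun x => f x * g x :=
  hg.bdd_mul hf.aestronglyMeasurable (Eventually.of_forall fun x => by simpa using hb x)

theorem ZD_one {Y J : ℝ → E N → ℝ} {Yd : E N → ℝ} {t B : ℝ} (hJ : ∀ s, Integrable (J s))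
    (hJc : Tendsto (fun s => ∫ x, |J s x - J t x|) (𝓝 t) (𝓝 0))
    (hc : ∀ᶠ s in 𝓝 t, Continuous (Y s)) (hd : ∀ x, HasDerivAt (fun s => Y s x) (Yd x) t)
    (hl : ∀ᶠ s in 𝓝 t, ∀ x, |Y s x - Y t x| ≤ B * |s - t|) :
    HasDerivAt (fun s => ∫ x, (Y s x - Y t x) * J s x) (∫ x, Yd x * J t x) t := by
  have hct : Continuous (Y t) := hc.self_of_nhds
  set sl : ℝ → E N → ℝ := fun s x => (s - t)⁻¹ * (Y s x - Y t x) with hsl
  have hev : ∀ᶠ s in 𝓝[≠] t, Continuous (sl s) ∧ ∀ x, |sl s x| ≤ B := by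
    filter_upwards [nhdsWithin_le_nhds hc, nhdsWithin_le_nhds hl, self_mem_nhdsWithin]
      with s h1 h2 h3
    refine ⟨continuous_const.mul (h1.sub hct), fun x => ?_⟩
    have h4 : 0 < |s - t| := abs_pos.2 (sub_ne_zero.2 h3)
    rw [hsl]
    dsimp only
    rw [abs_mul, abs_inv, inv_mul_le_iff₀ h4, mul_comm]
    exact h2 x
  have hA : Tendsto (fun s => ∫ x, sl s x * J t x) (𝓝[≠] t) (𝓝 (∫ x, Yd x * J t x)) := by
    refine tendsto_integral_filter_of_dominated_convergence (fun x => B * |J t x|) ?_ ?_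
      ((hJ t).abs.const_mul B) (Eventually.of_forall fun x => ?_)
    · filter_upwards [hev] with s hs
      exact (ZD_int hs.1 hs.2 (hJ t)).aestronglyMeasurable
    · filter_upwards [hev] with s hs
      refine Eventually.of_forall fun x => ?_
      rw [Real.norm_eq_abs, abs_mul]
      exact mul_le_mul_of_nonneg_right (hs.2 x) (abs_nonneg _)
    · refine Tendsto.mul_const _ ?_
      have h := hasDerivAt_iff_tendsto_slope.1 (hd x)
      refine h.congr fun s => ?_
      rw [slope_def_field, hsl, div_eq_inv_mul]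
  have hB : Tendsto (fun s => ∫ x, sl s x * (J s x - J t x)) (𝓝[≠] t) (𝓝 0) := by
    have h0 : Tendsto (fun s => B * ∫ x, |J s x - J t x|) (𝓝[≠] t) (𝓝 0) := by
      simpa using (hJc.mono_left nhdsWithin_le_nhds).const_mul B
    refine squeeze_zero_norm' ?_ h0
    filter_upwards [hev] with s hs
    rw [← integral_const_mul]
    refine norm_integral_le_of_norm_le (((hJ s).sub (hJ t)).abs.const_mul B)
      (Eventually.of_forall fun x => ?_)
    rw [Real.norm_eq_abs, abs_mul]
    exact mul_le_mul_of_nonneg_right (hs.2 x) (abs_nonneg _)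
  rw [hasDerivAt_iff_tendsto_slope]
  have h := hA.add hB
  rw [add_zero] at h
  refine h.congr' ?_
  filter_upwards [hev] with s hs
  rw [slope_def_field, ← integral_add (ZD_int hs.1 hs.2 (hJ t))
    (ZD_int (g := fun x => J s x - J t x) hs.1 hs.2 ((hJ s).sub (hJ t)))]
  simp only [sub_self, zero_mul, integral_zero, sub_zero]
  rw [div_eq_inv_mul, ← integral_const_mul]
  congr 1
  funext x
  simp only [hsl]
  ring

theorem ZD (h1 : St_MOM) (h2 : St_BASIC) (h3 : St_FLU) : St_ZD := by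
  intro N α κ v dv hS hv t B X Xd X1 X2 ht hX hc hd hl
  have hJ : ∀ s i, Integrable (jj (v s) (dv s) i) := fun s i =>
    ((h3 N (v s) (dv s) (hv.h1 s).mem0 (hv.h1 s).mem1).1 i).1
  have hJc := (h2 N α κ v dv hS hv).2.2.2.2.2.2 t
  have hM := (h1 N α κ v dv hS hv (X t) X1 X2 hX).2 t ht
  have hR : HasDerivAt (fun s => ∑ i, ∫ x, (X s i x - X t i x) * jj (v s) (dv s) i x)
      (mom Xd (v t) (dv t)) t :=
    HasDerivAt.fun_sum fun i _ =>
      ZD_one (Y := fun s => X s i) (J := fun s => jj (v s) (dv s) i) (B := B) (fun s => hJ s i)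
        (hJc i) (hc.mono fun s hs => hs i) (hd i) (hl.mono fun s hs => hs i)
  refine (hM.add hR).congr_of_eventuallyEq ?_
  obtain ⟨C, hC⟩ := hX.bd
  have hct := hc.self_of_nhds
  filter_upwards [hc, hl] with s hs1 hs2
  simp only [mom, Pi.add_apply, ← Finset.sum_add_distrib]
  refine Finset.sum_congr rfl fun i _ => ?_
  rw [← integral_add (ZD_int (hct i) (fun x => (hC i i x).1) (hJ s i))
    (ZD_int (f := fun x => X s i x - X t i x) ((hs1 i).sub (hct i)) (hs2 i) (hJ s i))]
  congr 1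
  funext x
  ring

end Pool.Agent.Lib.MP_13801a_an.ND
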