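import Mathlib
import Pool.Agent.Lib.MP_13801a_an.ND.AllA
import Pool.Agent.Lib.MP_13801a_an.ND.APR
import Pool.Agent.Lib.MP_13801a_an.ND.AVD
import Pool.Agent.Lib.MP_13801a_an.ND.ETA
import Pool.Agent.Lib.MP_13801a_an.ND.FLD
import Pool.Agent.Lib.MP_13801a_an.ND.GAME
import Pool.Agent.Lib.MP_13801a_an.ND.GAU
import Pool.Agent.Lib.MP_13801a_an.ND.LOG
import Pool.Agent.Lib.MP_13801a_an.ND.MBND
import Pool.Agent.Lib.MP_13801a_an.ND.MCR
import Pool.Agent.Lib.MP_13801a_an.ND.MDER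
import Pool.Agent.Lib.MP_13801a_an.ND.MFD
import Pool.Agent.Lib.MP_13801a_an.ND.MSTEP
import Pool.Agent.Lib.MP_13801a_an.ND.MT1
import Pool.Agent.Lib.MP_13801a_an.ND.NET
import Pool.Agent.Lib.MP_13801a_an.ND.PHASE
import Pool.Agent.Lib.MP_13801a_an.ND.PROF
import Pool.Agent.Lib.MP_13801a_an.ND.RES
import Pool.Agent.Lib.MP_13801a_an.ND.SENS
import Pool.Agent.Lib.MP_13801a_an.ND.ST
import Pool.Agent.Lib.MP_13801a_an.ND.SX1
import Pool.Agent.Lib.MP_13801a_an.ND.WIN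
import Pool.Agent.Lib.MP_13801a_an.ND.ZD

/-!
The blowup theorem in all dimensions without hypotheses.
-/

namespace Pool.Agent.Lib.MP_13801a_an.ND

theorem a_HEAT : St_HEAT := HEAT GAU
theorem a_SWAP : St_SWAP := SWAP AVD
theorem a_LOG : St_LOG := LOG GAU a_HEAT
theorem a_MDER : St_MDER := MDER GAU AVD a_LOG
theorem a_MDYN : St_MDYN := MDYN GAU AVD a_HEAT a_LOG
theorem a_MBND : St_MBND := MBND GAU AVD a_LOG
theorem a_MSTEP : St_MSTEP := MSTEP GAU AVD a_LOG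
theorem a_MCR : St_MCR := MCR GAU AVD a_HEAT a_LOG
theorem a_MT1 : St_MT1 := MT1 GAU AVD a_SWAP a_HEAT a_LOG
theorem a_MLF : St_MLF := MLF GAU AVD a_SWAP a_HEAT a_LOG
theorem a_MFD : St_MFD := MFD GAU AVD a_SWAP a_HEAT a_LOG
theorem a_LOW : St_LOW := LOW SOFT
theorem a_SWI : St_SWI := SWI APR SOFT
theorem a_PHASE : St_PHASE := PHASE RES NET SOFT APR a_SWI
theorem a_GAME : St_GAME := GAME a_PHASE APR a_LOW a_SWI PROF
theorem a_ETA : St_ETA := ETA SENS1 a_MDER a_MBND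
theorem a_SX1 : St_SX1 := SX1 SENS1 SENS2 a_ETA a_MDER a_MBND a_LOW
theorem a_SX2 : St_SX2 := SX2 a_ETA a_MDER a_MBND a_MLF a_MFD
theorem a_ST : St_ST := ST SENS1 a_ETA a_LOW a_MDER a_MBND a_MDYN a_MT1
theorem a_FLD : St_FLD := FLD PROF a_GAME APR a_MBND a_MSTEP a_MCR a_SX1 a_SX2 a_ST
theorem a_WIN : St_WIN :=
  WIN a_FLD (ZD a_MOM a_BASIC FLU) a_HED a_BASIC a_LMASS a_GR FLU a_TL

theorem all : St_MAIN := main_of_win a_WIN

/-- The range of exponents in the form used by the working statements. -/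
theorem range_exp {N : ℕ} {α : ℝ} (hN : 1 ≤ N) (h1 : 4 / (N : ℝ) < α)
    (h2 : 3 ≤ N → α < 4 / ((N : ℝ) - 2)) : 4 < N * α ∧ ((N : ℝ) - 2) * α < 4 := by
  have hN' : (0 : ℝ) < N := by exact_mod_cast hN
  have h3 : 4 < N * α := by rwa [div_lt_iff₀' hN'] at h1
  refine ⟨h3, ?_⟩
  have hα : 0 < α := lt_trans (by positivity) h1
  by_cases h : 3 ≤ N
  · have h4 : (3 : ℝ) ≤ N := by exact_mod_cast h
    have h5 := h2 h
    rwa [lt_div_iff₀' (by linarith)] at h5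
  · have h4 : (N : ℝ) ≤ 2 := by exact_mod_cast (by omega : N ≤ 2)
    nlinarith

end Pool.Agent.Lib.MP_13801a_an.ND
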