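import Mathlib
import Pool.Agent.Lib.MP_13801a_an.ND.StsG

/-!
Derivatives in space and in time of the fields of one mode.
-/

open MeasureTheory Set Filter
open scoped Topology

namespace Pool.Agent.Lib.MP_13801a_an.ND

variable {N : ℕ}

theorem MDER_neg {f : E N → ℝ} (h : CB f) : CB fun x => -f x := by
  obtain ⟨hc, B, hB⟩ := h
  exact ⟨hc.neg, B, fun x => by simpa using hB x⟩

theorem MDER_cb (h2 : St_AVD) (L : E N →L[ℝ] E N) {φ : E N → ℝ} {g : ℝ → E N → ℝ} (hφ : Gau φ)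
    (hg : Slab g) (τk s : ℝ) : CB fun x => av τk s φ g (L x) := by
  obtain ⟨hc, B, hB⟩ := ((h2 N φ hφ).1 g hg).2 τk s
  exact ⟨hc.comp L.continuous, B, fun x => hB _⟩

theorem MDER_line (L : E N →L[ℝ] E N) {F : E N → ℝ} {F' : ℝ} {x v : E N}
    (h : HasLineDerivAt ℝ F F' (L x) (L v)) : HasLineDerivAt ℝ (fun y => F (L y)) F' x v := by
  unfold HasLineDerivAt at h ⊢
  simpa only [map_add, map_smul] using h

theorem MDER_line_neg {F : E N → ℝ} {F' : ℝ} {x v : E N} (h : HasLineDerivAt ℝ F F' x v) :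
    HasLineDerivAt ℝ (fun y => -F y) (-F') x v := HasDerivAt.neg h

theorem MDER (h1 : St_GAU) (h2 : St_AVD) (h3 : St_LOG) : St_MDER := by
  intro N c β e L ρ hc hρ k
  obtain ⟨⟨ggam, ggp, ggq, gh1, gh2⟩, -, -, dgam, dhe1, -⟩ := h1 N
  obtain ⟨-, ⟨-, -, -, -, sg1, sg2, ss1, ss2, sl1, sl2⟩, d1, d2, -, sym, -, sj, -⟩ :=
    h3 N c β e L ρ hc hρ
  refine ⟨⟨MDER_cb h2 L ggam sg1 _ _, MDER_cb h2 L ggp sg1 _ _,
    MDER_cb h2 L ggam (sg1.mul ss1) _ _, MDER_cb h2 L ggam (sg1.mul ss2) _ _,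
    MDER_cb h2 L ggq (sg1.mul ss1) _ _,
    fun h => ⟨MDER_cb h2 L ggam (sl1 h).2 _ _, MDER_cb h2 L ggam (sg2.mul (sl1 h).1) _ _,
      MDER_cb h2 L (gh1 h) (sg2.mul (sl1 h).1) _ _⟩,
    fun h h' => MDER_neg (MDER_cb h2 L ggam (sl2 h h').2 _ _),
    fun h h' l => ⟨MDER_neg (MDER_cb h2 L (gh1 l) (sl2 h h').2 _ _),
      MDER_neg (MDER_cb h2 L (gh2 l l) (sl2 h h').2 _ _)⟩⟩, fun j hj => ?_, fun v x => ?_⟩
  · have sy := (sj j hj).2
    exact ⟨MDER_cb h2 L ggq (sg1.mul (sy.pow 2)) _ _, MDER_cb h2 L ggam (sg2.mul sy) _ _,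
      fun h => MDER_cb h2 L (gh1 h) (sg1.mul sy) _ _,
      fun h h' => MDER_neg (MDER_cb h2 L (gh2 h h') (sg1.mul sy) _ _)⟩
  refine ⟨fun h => ?_, fun h h' => ⟨?_, ?_⟩, ?_, ?_⟩
  · have a := ((h2 N gam ggam).2.1 _ _ (L v) (sl1 h).2 (sl2 h (L v)).2
      fun τ z => (d2 h (L v) τ z).2).2 (c.τ0 - k) 2 (L x)
    have b : f2 c L ρ h (L v) = f2 c L ρ (L v) h := by
      funext τ z
      exact (sym h (L v) τ z).2.1
    rw [b] at a
    rw [fB, neg_neg]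
    exact MDER_line L a
  · have a := ((h2 N gam ggam).2.2.1 (he1 (L v)) _ (L v) (gh1 _) (sl2 h h').2
      (dgam (L v))).2.1 (c.τ0 - k) 2 (L x)
    rw [show (2 : ℝ) - 1 = 1 by norm_num] at a
    exact MDER_line_neg (MDER_line L a)
  · have a := ((h2 N _ (gh1 (L v))).2.2.1 (he2 (L v) (L v)) _ (L v) (gh2 _ _) (sl2 h h').2
      (dhe1 (L v) (L v))).2.1 (c.τ0 - k) 1 (L x)
    rw [sub_self] at a
    exact MDER_line_neg (MDER_line L a)
  · exact MDER_line L (((h2 N gam ggam).2.1 _ _ (L v) sg1 (sg2.mul (sl1 (L v)).1)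
      fun τ z => (d1 (L v) τ z).2.2.2).2 (c.τ0 - k) 0 (L x))
  · have a := ((h2 N gam ggam).2.2.1 (he1 (L v)) _ (L v) (gh1 _) (sg2.mul (sl1 (L v)).1)
      (dgam (L v))).2.1 (c.τ0 - k) 0 (L x)
    rw [zero_sub] at a
    exact MDER_line L a

/-- A bound for the time derivative of the logarithm on a block of scales. -/
theorem MDER_yd (h1 : St_GAU) (h3 : St_HEAT) (h4 : St_LOG) {c : Cfg} {β e : ℝ}
    (L : E N →L[ℝ] E N) (hc : c.Ok N β e) (τk : ℝ) : ∃ D : ℝ, 0 ≤ D ∧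
    ∀ (ρ : E N → ℝ) (j : Fin N → E N → ℝ), Den ρ → (∀ i, Integrable (j i)) →
      ∀ τ ∈ Icc (τk - 1) τk, ∀ z, |yd c L ρ j τ z| ≤ D * ∑ i, ∫ y, |j i y| := by
  have gh1 := (h1 N).1.2.2.2.1
  choose C hC0 hC using fun i : Fin N => (gh1 (L (ee i))).bdd
  have hδ := hc.δ0
  have hS : 0 ≤ ∑ i, C i := Finset.sum_nonneg fun i _ => hC0 i
  refine ⟨Real.exp (1 - τk) * (∑ i, C i) / (c.δ * Real.exp (N * (τk - 1))), by positivity,
    fun ρ j hρ hj τ hτ z => ?_⟩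
  have hu := (h4 N c β e L ρ hc hρ).1 τ z
  have hu2 : c.δ * Real.exp (N * (τk - 1)) ≤ uu c L ρ τ z := by
    refine le_trans ?_ hu.2.1
    have := hτ.1
    gcongr
  have hI : ∀ i, 0 ≤ ∫ y, |j i y| := fun i => integral_nonneg fun _ => abs_nonneg _
  have hb : |ud L j τ z| ≤ Real.exp (1 - τk) * (∑ i, C i) * ∑ i, ∫ y, |j i y| := by
    rw [ud, abs_neg, Finset.mul_sum]
    refine (Finset.abs_sum_le_sum_abs _ _).trans (Finset.sum_le_sum fun i _ => ?_)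
    have a := ((h3 N L (j i) (hj i)).1 _ (gh1 (L (ee i)))).2.2.1 (C i) (hC i) τ z
    have b : C i ≤ ∑ i, C i := Finset.single_le_sum (fun i _ => hC0 i) (Finset.mem_univ i)
    have d : Real.exp (-τ) ≤ Real.exp (1 - τk) := Real.exp_le_exp.2 (by linarith [hτ.1])
    rw [k1, abs_mul, abs_neg, abs_of_pos (Real.exp_pos _), mul_assoc]
    exact mul_le_mul d (a.trans (mul_le_mul_of_nonneg_right b (hI i))) (abs_nonneg _)
      (Real.exp_pos _).le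
  have hJ : 0 ≤ ∑ i, ∫ y, |j i y| := Finset.sum_nonneg fun i _ => hI i
  rw [yd, abs_div, abs_of_pos hu.2.2, div_mul_eq_mul_div]
  exact div_le_div₀ (by positivity) hb (by positivity) hu2

theorem MDER_av {φ : E N → ℝ} (hφ : Gau φ) (τk s : ℝ) : ∃ K : ℝ, 0 ≤ K ∧
    ∀ (g : ℝ → E N → ℝ) (M : ℝ), Slab g → (∀ τ ∈ Icc (τk - 1) τk, ∀ z, |g τ z| ≤ M) →
      ∀ y, |av τk s φ g y| ≤ K * M := by
  have hB : Blk fun τ ξ => Real.exp (s * τ) * |φ ξ| := by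
    have h := hφ.abs.blk.mul_slab (slab_fun (c := fun τ => Real.exp (s * τ)) (by fun_prop))
    simpa only [mul_comm] using h
  refine ⟨bi τk fun τ ξ => Real.exp (s * τ) * |φ ξ|, bi_nonneg τk fun τ _ ξ => by positivity,
    fun g M hg hM y => ?_⟩
  rw [av_eq_bi, mul_comm, ← bi_const_mul]
  refine abs_bi_le (blk_av hφ hg s y) (hB.const_mul M) τk fun τ hτ ξ => ?_
  rw [abs_mul, abs_mul, abs_of_pos (Real.exp_pos _), ← mul_assoc, mul_comm M]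
  exact mul_le_mul_of_nonneg_left (hM τ hτ _) (by positivity)

theorem MDER_g {c : Cfg} {β e : ℝ} (hc : c.Ok N β e) (y : ℝ) : |c.G1 y| ≤ 1 ∧ |c.G2 y| ≤ 1 := by
  have a := hc.prof.r1 y
  have b := hc.prof.r2 y
  have h1 := hc.prof.β1
  have h2 := hc.prof.e1
  have h3 := hc.prof.e0
  rw [abs_of_nonneg a.1, abs_of_nonneg b.1]
  constructor <;> nlinarith

theorem MDER_dt (h3 : St_HEAT) (h4 : St_LOG) {c : Cfg} {β e : ℝ} (L : E N →L[ℝ] E N)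
    (hc : c.Ok N β e) {ρ : ℝ → E N → ℝ} {j : ℝ → Fin N → E N → ℝ} (hF : Flow ρ j) {t : ℝ}
    (ht : 0 < t) (τ : ℝ) (z : E N) :
    HasDerivAt (fun s => yy c L (ρ s) τ z) (yd c L (ρ t) (j t) τ z) t := by
  have hb := (h3 N L (ρ t) (hF.den t).1).2.2.2.2.2.2.2.2 τ z
  have a := hF.der _ _ hb t ht
  have b : HasDerivAt (fun s => k0 L (ρ s) τ z) (ud L (j t) τ z) t := by
    have e1 : (fun s => k0 L (ρ s) τ z) = fun s => ∫ x, gam (xi L τ z x) * ρ s x := by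
      funext s
      simp only [k0, km, mul_comm]
    have e2 : ud L (j t) τ z =
        ∑ i, ∫ x, Real.exp (-τ) * he1 (L (ee i)) (xi L τ z x) * j t i x := by
      rw [ud, ← Finset.sum_neg_distrib]
      refine Finset.sum_congr rfl fun i _ => ?_
      rw [k1, km, neg_mul, neg_neg, ← integral_const_mul]
      congr 1
      funext x
      ring
    rw [e1, e2]
    exact a
  have d := (b.add_const (c.δ * Real.exp (N * τ))).log
    ((h4 N c β e L (ρ t) hc (hF.den t)).1 τ z).2.2.ne'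
  exact (d.sub_const (c.q * τ)).sub_const (Real.log c.θ)

theorem MDYN (h1 : St_GAU) (h2 : St_AVD) (h3 : St_HEAT) (h4 : St_LOG) : St_MDYN := by
  intro N c β e L k hc
  obtain ⟨D, hD0, hD⟩ := MDER_yd h1 h3 h4 L hc (c.τ0 - k)
  obtain ⟨⟨ggam, -, -, gh1, gh2⟩, -, -, dgam, dhe1, -⟩ := h1 N
  have bd : ∀ (ρ : E N → ℝ) (j : Fin N → E N → ℝ), Den ρ → (∀ i, Integrable (j i)) →
      ∀ τ ∈ Icc (c.τ0 - k - 1) (c.τ0 - k), ∀ z,
      |g1 c L ρ τ z * yd c L ρ j τ z| ≤ D * ∑ i, ∫ y, |j i y| ∧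
      |g2 c L ρ τ z * yd c L ρ j τ z| ≤ D * ∑ i, ∫ y, |j i y| := by
    intro ρ j hρ hj τ hτ z
    have a := hD ρ j hρ hj τ hτ z
    have b := MDER_g hc (yy c L ρ τ z)
    rw [abs_mul, abs_mul]
    exact ⟨(mul_le_of_le_one_left (abs_nonneg _) b.1).trans a,
      (mul_le_of_le_one_left (abs_nonneg _) b.2).trans a⟩
  have sl : ∀ (ρ : E N → ℝ) (j : Fin N → E N → ℝ), Den ρ → (∀ i, Integrable (j i)) →
      Slab (f0 c L ρ) ∧ Slab (g1 c L ρ) ∧ (Slab fun τ z => g1 c L ρ τ z * yd c L ρ j τ z) ∧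
      Slab fun τ z => g2 c L ρ τ z * yd c L ρ j τ z := by
    intro ρ j hρ hj
    obtain ⟨-, ⟨-, -, -, sf0, sg1, sg2, -⟩, -, -, -, -, -, sj, -⟩ := h4 N c β e L ρ hc hρ
    exact ⟨sf0, sg1, sg1.mul (sj j hj).2, sg2.mul (sj j hj).2⟩
  refine ⟨fun h h' => ?_, fun ρ j hF t ht x => ?_⟩
  · obtain ⟨K1, hK1, b1⟩ := MDER_av (gh1 h) (c.τ0 - k) 1
    obtain ⟨K2, hK2, b2⟩ := MDER_av (gh2 h h') (c.τ0 - k) 0
    obtain ⟨K3, hK3, b3⟩ := MDER_av ggam (c.τ0 - k) 0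
    refine ⟨(K1 + K2 + K3) * D, by positivity, fun ρ j hρ hj x => ?_⟩
    have hJ : 0 ≤ D * ∑ i, ∫ y, |j i y| :=
      mul_nonneg hD0 (Finset.sum_nonneg fun i _ => integral_nonneg fun _ => abs_nonneg _)
    have a1 := b1 _ _ (sl ρ j hρ hj).2.2.1 (fun τ hτ z => (bd ρ j hρ hj τ hτ z).1) (L x)
    have a2 := b2 _ _ (sl ρ j hρ hj).2.2.1 (fun τ hτ z => (bd ρ j hρ hj τ hτ z).1) (L x)
    have a3 := b3 _ _ (sl ρ j hρ hj).2.2.2 (fun τ hτ z => (bd ρ j hρ hj τ hτ z).2) (L x)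
    rw [fPt, fBt, fWt, abs_neg, mul_assoc]
    exact ⟨a1.trans (mul_le_mul_of_nonneg_right (by linarith) hJ),
      a2.trans (mul_le_mul_of_nonneg_right (by linarith) hJ),
      a3.trans (mul_le_mul_of_nonneg_right (by linarith) hJ)⟩
  have near : ∀ᶠ σ in 𝓝 t, 0 < σ ∧
      D * ∑ i, ∫ y, |j σ i y| ≤ D * ∑ i, ((∫ y, |j t i y|) + 1) := by
    have a : ∀ᶠ σ in 𝓝 t, ∀ i, ∫ y, |j σ i y - j t i y| < 1 :=
      eventually_all.2 fun i => (hF.cont t i).eventually (gt_mem_nhds one_pos)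
    filter_upwards [a, lt_mem_nhds ht] with σ hσ h0
    refine ⟨h0, mul_le_mul_of_nonneg_left (Finset.sum_le_sum fun i _ => ?_) hD0⟩
    have i1 := (hF.ij t i).abs
    have i2 : Integrable fun y => |j σ i y - j t i y| := ((hF.ij σ i).sub (hF.ij t i)).abs
    have b : ∫ y, |j σ i y| ≤ ∫ y, (|j t i y| + |j σ i y - j t i y|) :=
      integral_mono (hF.ij σ i).abs (i1.add i2) fun y => by
        have := abs_add_le (j t i y) (j σ i y - j t i y)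
        simpa using this
    rw [integral_add i1 i2] at b
    linarith [hσ i]
  have df : ∀ (φ : E N → ℝ) (s : ℝ), Gau φ →
      HasDerivAt (fun σ => av (c.τ0 - k) s φ (f0 c L (ρ σ)) (L x))
        (av (c.τ0 - k) s φ (fun τ z => g1 c L (ρ t) τ z * yd c L (ρ t) (j t) τ z) (L x)) t := by
    intro φ s hφ
    refine (h2 N φ hφ).2.2.2 (fun σ => f0 c L (ρ σ))
      (fun σ τ z => g1 c L (ρ σ) τ z * yd c L (ρ σ) (j σ) τ z) t _ s
      (D * ∑ i, ((∫ y, |j t i y|) + 1)) (L x) ?_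
    filter_upwards [near] with σ hσ
    have a := sl _ _ (hF.den σ) (hF.ij σ)
    exact ⟨a.1, a.2.2.1, fun τ hτ z =>
      ⟨(hc.prof.d1 _).comp σ (MDER_dt h3 h4 L hc hF hσ.1 τ z),
        (bd _ _ (hF.den σ) (hF.ij σ) τ hτ z).1.trans hσ.2⟩⟩
  refine ⟨fun h => ?_, fun h h' => ?_, ?_⟩
  · have e1 : (fun s => fP c L (ρ s) k h x) =
        fun s => av (c.τ0 - k) 1 (he1 h) (f0 c L (ρ s)) (L x) := by
      funext s
      obtain ⟨-, ⟨-, -, -, sf0, -, -, -, -, sl1, -⟩, d1, -⟩ := h4 N c β e L (ρ s) hc (hF.den s)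
      have a := (((h2 N gam ggam).2.2.1 (he1 h) _ h (gh1 h) sf0 (dgam h)).2.2 _ (sl1 h).2
        fun τ z => (d1 h τ z).2.2.1).2 (c.τ0 - k) 2 (L x)
      rw [show (2 : ℝ) - 1 = 1 by norm_num] at a
      exact a
    rw [e1]
    exact df _ 1 (gh1 h)
  · have e1 : (fun s => fB c L (ρ s) k h h' x) =
        fun s => -av (c.τ0 - k) 0 (he2 h h') (f0 c L (ρ s)) (L x) := by
      funext s
      obtain ⟨-, ⟨-, -, -, sf0, -, -, -, -, sl1, sl2⟩, d1, d2, -, sym, -⟩ :=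
        h4 N c β e L (ρ s) hc (hF.den s)
      have b : f2 c L (ρ s) h h' = f2 c L (ρ s) h' h := by
        funext τ z
        exact (sym h h' τ z).2.1
      have a := (((h2 N gam ggam).2.2.1 (he1 h) _ h (gh1 h) (sl1 h').2 (dgam h)).2.2 _
        (sl2 h' h).2 fun τ z => (d2 h' h τ z).2).2 (c.τ0 - k) 2 (L x)
      have a' := (((h2 N _ (gh1 h)).2.2.1 (he2 h h') _ h' (gh2 h h') sf0 (dhe1 h h')).2.2 _
        (sl1 h').2 fun τ z => (d1 h' τ z).2.2.1).2 (c.τ0 - k) 1 (L x)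
      rw [show (2 : ℝ) - 1 = 1 by norm_num] at a
      rw [sub_self] at a'
      rw [fB, b, a, a']
    rw [e1]
    exact (df _ 0 (gh2 h h')).neg
  · refine (h2 N gam ggam).2.2.2 (fun σ => g1 c L (ρ σ))
      (fun σ τ z => g2 c L (ρ σ) τ z * yd c L (ρ σ) (j σ) τ z) t _ 0
      (D * ∑ i, ((∫ y, |j t i y|) + 1)) (L x) ?_
    filter_upwards [near] with σ hσ
    have a := sl _ _ (hF.den σ) (hF.ij σ)
    exact ⟨a.2.1, a.2.2.2, fun τ hτ z =>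
      ⟨(hc.prof.d2 _).comp σ (MDER_dt h3 h4 L hc hF hσ.1 τ z),
        (bd _ _ (hF.den σ) (hF.ij σ) τ hτ z).2.trans hσ.2⟩⟩

end Pool.Agent.Lib.MP_13801a_an.ND
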