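import Mathlib
import Pool.Agent.Lib.MP_13801a_an.ND.StsA

/-!
Uniqueness of weak gradients, removal of the linear term, pointwise bounds for fluid quantities.
-/

open MeasureTheory Set Filter
open scoped ContDiff Topology ComplexConjugate

namespace Pool.Agent.Lib.MP_13801a_an.ND

theorem WU : St_WU := by
  intro N u du du' h h'
  funext i
  refine Lp.ext (ae_eq_of_integral_contDiff_smul_eq
    ((Lp.memLp _).locallyIntegrable one_le_two) ((Lp.memLp _).locallyIntegrable one_le_two)
    fun φ p1 p2 => ?_)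
  have e := (h φ ⟨p1, p2⟩ i).symm.trans (h' φ ⟨p1, p2⟩ i)
  simpa only [Complex.real_smul, mul_comm, neg_inj] using e

theorem TRANS_ms {N : ℕ} {a b : E N → ℂ} {A B : L2 N} (ha : a =ᵐ[volume] A)
    (hb : b =ᵐ[volume] B) : ms (fun x => a x - b x) = ‖A - B‖ ^ 2 := by
  rw [← real_inner_self_eq_norm_sq, L2.inner_def]
  refine integral_congr_ae ?_
  filter_upwards [ha, hb, Lp.coeFn_sub A B] with x h1 h2 h3
  rw [real_inner_self_eq_norm_sq, h3, h1, h2, Pi.sub_apply]

theorem TRANS_lim {N : ℕ} {W : ℝ → L2 N} {c : ℝ → ℂ} (hc : Continuous c) (hW : Continuous W)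
    (t : ℝ) : Tendsto (fun s => ms fun x => c s * W s x - c t * W t x) (𝓝 t) (𝓝 0) := by
  have e : ∀ s, (fun x => c s * W s x) =ᵐ[volume] (c s • W s : L2 N) := fun s =>
    (Lp.coeFn_smul (c s) (W s)).symm
  simp only [fun s => TRANS_ms (e s) (e t)]
  exact ((((hc.smul hW).sub continuous_const).norm.pow 2).tendsto' t 0 (by simp))

theorem TRANS_NL (α c : ℝ) (hc : 0 < c) (z : ℂ) :
    NL α ((c : ℂ) * z) = ((c ^ α * c : ℝ) : ℂ) * NL α z := by
  unfold NL
  rw [norm_mul, Complex.norm_real, Real.norm_of_nonneg hc.le,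
    Real.mul_rpow hc.le (norm_nonneg z)]
  push_cast
  ring

theorem TRANS : St_TRANS := by
  intro N α γ u du _ hs
  set c : ℝ → ℝ := fun t => Real.exp (-γ * max t 0) with hc
  have cc : Continuous fun t => (c t : ℂ) := by
    simp only [hc]
    fun_prop
  have cm : Continuous fun t : ℝ => max t 0 := by fun_prop
  refine ⟨fun t x => (c t : ℂ) * u (max t 0) x, fun t i x => (c t : ℂ) * du (max t 0) i x,
    ⟨fun t => ⟨(Lp.memLp _).const_mul _, fun i => (Lp.memLp _).const_mul _, fun φ hφ i => ?_⟩,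
      TRANS_lim cc (hs.cont.comp_continuous cm fun t => le_max_right t 0),
      fun t i => TRANS_lim cc ((hs.contD i).comp_continuous cm fun t => le_max_right t 0) t,
      fun φ hφ t ht => ?_⟩, fun x => by simp [hc], fun i x => by simp [hc]⟩
  · simp only [mul_assoc, integral_const_mul]
    rw [hs.weak _ (le_max_right t 0) φ hφ i, mul_neg]
  · have hm : max t 0 = t := max_eq_left ht.le
    have ev : (fun s => ∫ x, (c s : ℂ) * u (max s 0) x * ((φ x : ℝ) : ℂ)) =ᶠ[𝓝 t]
        fun s => ((Real.exp (-γ * s) : ℝ) : ℂ) * ∫ x, u s x * ((φ x : ℝ) : ℂ) := by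
      filter_upwards [lt_mem_nhds ht] with s hs'
      simp only [hc, max_eq_left hs'.le, mul_assoc, integral_const_mul]
    have de : HasDerivAt (fun s : ℝ => ((Real.exp (-γ * s) : ℝ) : ℂ))
        ((Real.exp (-γ * t) * -γ : ℝ) : ℂ) t := by
      have h2 : HasDerivAt (fun s : ℝ => -γ * s) (-γ) t := by
        simpa using (hasDerivAt_id t).const_mul (-γ)
      exact h2.exp.ofReal_comp
    refine ((de.mul (hs.eqn φ hφ t ht)).congr_of_eventuallyEq ev).congr_deriv ?_
    have hct : c t = Real.exp (-γ * t) := by simp only [hc, hm]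
    have i3 : Real.exp (α * γ * t) * (c t ^ α * c t) = c t := by
      rw [hct, ← Real.exp_mul, ← mul_assoc, ← Real.exp_add]
      have : α * γ * t + -γ * t * α = 0 := by ring
      rw [this, Real.exp_zero, one_mul]
    have i4 : ((Real.exp (α * γ * t) : ℝ) : ℂ) * ((c t ^ α * c t : ℝ) : ℂ) = (c t : ℂ) := by
      rw [← Complex.ofReal_mul, i3]
    simp only [hm, TRANS_NL α (c t) (Real.exp_pos _), mul_assoc _ (NL α _),
      mul_assoc _ (du t _ _), integral_const_mul]
    rw [← mul_assoc ((Real.exp (α * γ * t) : ℝ) : ℂ), i4, ← hct, Complex.ofReal_mul,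
      Complex.ofReal_neg, ← Finset.mul_sum]
    ring

theorem FLU_int {N : ℕ} {a b : E N → ℂ} (ha : MemLp a 2 volume) (hb : MemLp b 2 volume) :
    Integrable fun x => conj (a x) * b x :=
  (integral_norm_mul_le ha hb).1.mono'
    ((Complex.continuous_conj.comp_aestronglyMeasurable ha.1).mul hb.1)
    (Eventually.of_forall fun x => by simp)

theorem FLU : St_FLU := by
  intro N g dg hg hd
  have p : ∀ z w : ℂ, |(conj z * w).im| ≤ ‖z‖ * ‖w‖ ∧ |(conj z * w).re| ≤ ‖z‖ * ‖w‖ :=
    fun z w => ⟨(Complex.abs_im_le_norm _).trans (by simp),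
      (Complex.abs_re_le_norm _).trans (by simp)⟩
  have q : ∀ (a : ℝ) (z w : ℂ), |a| ≤ ‖z‖ * ‖w‖ → (2 * a) ^ 2 ≤ 4 * (‖z‖ ^ 2 * ‖w‖ ^ 2) :=
    fun a z w h => by nlinarith [sq_le_sq' (abs_le.1 h).1 (abs_le.1 h).2]
  have i1 : ∀ i, Integrable (jj g dg i) := fun i => (FLU_int hg (hd i)).im.const_mul 2
  refine ⟨fun i => ⟨i1 i, (FLU_int hg (hd i)).re.const_mul 2⟩,
    integrable_finsetSum _ fun i _ => integrable_ms (hd i),
    fun i j => (FLU_int (hd i) (hd j)).re, integral_finsetSum _ fun i _ => integrable_ms (hd i),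
    fun x => ?_, fun i => ?_, fun x B c h => ?_⟩
  · simp only [kd, Finset.mul_sum]
    exact ⟨Finset.sum_le_sum fun i _ => q _ _ _ (p _ _).1,
      Finset.sum_le_sum fun i _ => q _ _ _ (p _ _).2⟩
  · have h := integral_norm_mul_le hg (hd i)
    refine (integral_mono (i1 i).abs (h.1.const_mul 2) fun x => ?_).trans ?_
    · simp only [jj, abs_mul, abs_two]
      linarith [(p (g x) (dg i x)).1]
    · rw [integral_const_mul, Real.sqrt_mul (ms_nonneg g)]
      gcongr
      refine h.2.trans ?_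
      gcongr
      exact Finset.single_le_sum (f := fun i => ms (dg i)) (fun j _ => ms_nonneg _)
        (Finset.mem_univ i)
  · have h1 := add_le_add (h fun i => (dg i x).re) (h fun i => (dg i x).im)
    rw [← mul_add, ← Finset.sum_add_distrib, ← Finset.sum_add_distrib] at h1
    simp only [← Finset.sum_add_distrib, ← mul_add] at h1
    simp only [kd, Complex.sq_norm]
    simpa only [st, Complex.mul_re, Complex.conj_re, Complex.conj_im, neg_mul, sub_neg_eq_add,
      Complex.normSq_apply, pow_two] using h1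

end Pool.Agent.Lib.MP_13801a_an.ND
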