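import Mathlib
import Pool.Agent.Lib.MP_13801a_an.ND.StsG

/-!
The window inequality for the adaptive vector field.
-/

open MeasureTheory Set Filter
open scoped Topology

namespace Pool.Agent.Lib.MP_13801a_an.ND

variable {N : ℕ}

/-- The real variable part. -/
theorem WIN_ode (t1 T η A : ℝ) (Z φ k : ℝ → ℝ) (hT : 0 < T) (hη : 0 < η) (hφ : Continuous φ)
    (hk : ∀ s, 0 ≤ k s)
    (hZ : ∀ s ∈ Icc t1 (t1 + T), ∃ z, HasDerivAt Z z s ∧ z + η * k s ≤ -φ s)
    (hb : ∀ s ∈ Icc t1 (t1 + T), |Z s| ≤ A * √(k s)) :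
    ∫ s in t1..t1 + T, wt t1 T s * φ s ≤ A ^ 2 / η * T ^ 3 := by
  have hw : Continuous fun s => wt t1 T s * φ s := by
    unfold wt
    fun_prop
  set H : ℝ → ℝ := fun s => wt t1 T s * Z s + (∫ σ in t1..s, wt t1 T σ * φ σ) -
    A ^ 2 / η * T ^ 2 * (s - t1) with hH
  have hd : ∀ s ∈ Icc t1 (t1 + T), ∃ h, HasDerivAt H h s ∧ h ≤ 0 := by
    intro s hs
    obtain ⟨z, hz, hz'⟩ := hZ s hs
    have d1 : HasDerivAt (wt t1 T)
        (2 * ((s - t1) * (t1 + T - s)) * ((t1 + T - s) - (s - t1))) s := by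
      have e1 : HasDerivAt (fun s : ℝ => s - t1) 1 s := (hasDerivAt_id s).sub_const t1
      have e2 : HasDerivAt (fun s : ℝ => t1 + T - s) (-1) s := (hasDerivAt_id s).const_sub _
      have e3 := (e1.pow 2).mul (e2.pow 2)
      refine HasDerivAt.congr_deriv (f := wt t1 T) e3 ?_
      simp only [Pi.pow_apply]
      push_cast
      ring
    have d2 : HasDerivAt (fun s => ∫ σ in t1..s, wt t1 T σ * φ σ) (wt t1 T s * φ s) s :=
      intervalIntegral.integral_hasDerivAt_right (hw.intervalIntegrable _ _)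
        (hw.stronglyMeasurableAtFilter _ _) hw.continuousAt
    have d3 : HasDerivAt (fun s : ℝ => A ^ 2 / η * T ^ 2 * (s - t1)) (A ^ 2 / η * T ^ 2 * 1) s :=
      ((hasDerivAt_id s).sub_const t1).const_mul _
    refine ⟨_, ((d1.mul hz).add d2).sub d3, ?_⟩
    set a := (s - t1) * (t1 + T - s) with ha
    have a0 : 0 ≤ a := mul_nonneg (by linarith [hs.1]) (by linarith [hs.2])
    have w : wt t1 T s = a ^ 2 := by rw [ha]; unfold wt; ring
    have b1 : |(t1 + T - s) - (s - t1)| ≤ T := by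
      rw [abs_le]; constructor <;> linarith [hs.1, hs.2]
    have b2 : ((t1 + T - s) - (s - t1)) * Z s ≤ T * (A * √(k s)) := by
      refine (le_abs_self _).trans ?_
      rw [abs_mul]
      exact mul_le_mul b1 (hb s hs) (abs_nonneg _) hT.le
    have b3 : 2 * a * (T * (A * √(k s))) ≤ η * (a ^ 2 * k s) + A ^ 2 / η * T ^ 2 := by
      have q1 : √(k s) ^ 2 = k s := Real.sq_sqrt (hk s)
      have q2 : 0 ≤ (η * a * √(k s) - A * T) ^ 2 / η := by positivity
      have q3 : (η * a * √(k s) - A * T) ^ 2 / η =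
          η * (a ^ 2 * √(k s) ^ 2) + A ^ 2 / η * T ^ 2 - 2 * a * (T * (A * √(k s))) := by
        field_simp
        ring
      rw [q3, q1] at q2
      linarith
    have b4 := mul_le_mul_of_nonneg_left b2 (by positivity : 0 ≤ 2 * a)
    have b5 := mul_le_mul_of_nonneg_left hz' (sq_nonneg a)
    rw [w]
    nlinarith
  have hanti : AntitoneOn H (Icc t1 (t1 + T)) := by
    refine antitoneOn_of_deriv_nonpos (convex_Icc _ _) ?_ ?_ ?_
    · intro s hs
      obtain ⟨h, hh, -⟩ := hd s hs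
      exact hh.continuousAt.continuousWithinAt
    · intro s hs
      obtain ⟨h, hh, -⟩ := hd s (interior_subset hs)
      exact hh.differentiableAt.differentiableWithinAt
    · intro s hs
      obtain ⟨h, hh, h0⟩ := hd s (interior_subset hs)
      rwa [hh.deriv]
  have h1 := hanti (a := t1) (b := t1 + T) ⟨le_rfl, by linarith⟩ ⟨by linarith, le_rfl⟩
    (by linarith)
  simp only [hH, wt, sub_self, intervalIntegral.integral_same, add_sub_cancel_left] at h1
  simp only [wt]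
  nlinarith

theorem WIN_int {a f : E N → ℝ} {B : ℝ} (ha : Measurable a) (hB : ∀ x, |a x| ≤ B)
    (hf : Integrable f) : Integrable fun x => a x * f x :=
  hf.bdd_mul (c := B) ha.aestronglyMeasurable (Eventually.of_forall hB)

/-- The bound for the localised momentum. -/
theorem WIN_mom (h7 : St_FLU) {g : E N → ℂ} {dg : Fin N → E N → ℂ} (hg : H1 g dg)
    {X : Fin N → E N → ℝ} {B : ℝ} (hB0 : 0 ≤ B) (hB : ∀ i x, |X i x| ≤ B) :
    |mom X g dg| ≤ 2 * N * B * √(ms g) * √(kin dg) := by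
  obtain ⟨f1, -, -, -, -, f6, -⟩ := h7 N g dg hg.mem0 hg.mem1
  have h : ∀ i, |∫ x, X i x * jj g dg i x| ≤ B * (2 * √(ms g * kin dg)) := by
    intro i
    refine le_trans ?_ (mul_le_mul_of_nonneg_left (f6 i) hB0)
    rw [← integral_const_mul]
    refine (abs_integral_le_integral_abs).trans ?_
    refine integral_mono_of_nonneg (Eventually.of_forall fun x => abs_nonneg _)
      ((f1 i).1.abs.const_mul B) (Eventually.of_forall fun x => ?_)
    simp only [abs_mul]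
    exact mul_le_mul_of_nonneg_right (hB i x) (abs_nonneg _)
  unfold mom
  refine (Finset.abs_sum_le_sum_abs _ _).trans ((Finset.sum_le_sum fun i _ => h i).trans ?_)
  rw [Real.sqrt_mul (ms_nonneg g)]
  simp only [Finset.sum_const, Finset.card_univ, Fintype.card_fin, nsmul_eq_mul]
  apply le_of_eq
  ring

/-- The bound for the virial terms. -/
theorem WIN_vir (h7 : St_FLU) {g : E N → ℂ} {dg : Fin N → E N → ℂ} (hg : H1 g dg) {α lam t η : ℝ}
    (hα : 0 < α) (hlam : 0 ≤ lam) (hm : Mem (α + 2) g) {X : Fin N → E N → ℝ}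
    {X1 X2 : Fin N → Fin N → E N → ℝ} (hX : VF X X1 X2) {S : Set (E N)} (hS : MeasurableSet S)
    (hq : ∀ x (y : Fin N → ℝ), ∑ i, ∑ i', X1 i i' x * (y i * y i') ≤ (1 + η) * ∑ i, y i ^ 2)
    (ht1 : ∀ x, -η ≤ ∑ i, X1 i i x) (ht2 : ∀ x, x ∉ S → t - η ≤ ∑ i, X1 i i x)
    (h2 : ∑ i, ∑ i', ∫ x, X2 i i' x * nn g dg i' x ≤ η * kin dg) :
    vir α lam X1 X2 g dg ≤ (4 + 5 * η) * kin dg -
      2 * α / (α + 2) * lam * ((t - η) * pw α g - t * ∫ x in S, ‖g x‖ ^ (α + 2)) := by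
  obtain ⟨-, f2, f3, f4, -, -, f7⟩ := h7 N g dg hg.mem0 hg.mem1
  obtain ⟨B, hB⟩ := hX.bd
  have i1 : ∀ i j, Integrable fun x => X1 i j x * st dg i j x := fun i j =>
    WIN_int (hX.meas1 i j) (fun x => (hB i j x).2.1) (f3 i j)
  have ip : Integrable fun x => ‖g x‖ ^ (α + 2) := hm.integrable_rpow (by linarith)
  have i2 : ∀ i, Integrable fun x => X1 i i x * ‖g x‖ ^ (α + 2) := fun i =>
    WIN_int (hX.meas1 i i) (fun x => (hB i i x).2.1) ip
  have a1 : ∑ i, ∑ j, ∫ x, X1 i j x * st dg i j x ≤ (1 + η) * kin dg := by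
    have e : ∑ i, ∑ j, ∫ x, X1 i j x * st dg i j x = ∫ x, ∑ i, ∑ j, X1 i j x * st dg i j x := by
      rw [integral_finsetSum _ fun i _ => integrable_finsetSum _ fun j _ => i1 i j]
      exact Finset.sum_congr rfl fun i _ => (integral_finsetSum _ fun j _ => i1 i j).symm
    rw [e, ← f4, ← integral_const_mul]
    exact integral_mono (integrable_finsetSum _ fun i _ => integrable_finsetSum _ fun j _ => i1 i j)
      (f2.const_mul _) fun x => f7 x (fun i j => X1 i j x) _ (hq x)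
  have a2 : (t - η) * pw α g - t * ∫ x in S, ‖g x‖ ^ (α + 2) ≤
      ∑ i, ∫ x, X1 i i x * ‖g x‖ ^ (α + 2) := by
    rw [← integral_finsetSum _ fun i _ => i2 i, pw, ← integral_indicator hS, ← integral_const_mul,
      ← integral_const_mul, ← integral_sub (ip.const_mul _) ((ip.indicator hS).const_mul _)]
    refine integral_mono ((ip.const_mul _).sub ((ip.indicator hS).const_mul _))
      (integrable_finsetSum _ fun i _ => i2 i) fun x => ?_
    have p0 : 0 ≤ ‖g x‖ ^ (α + 2) := by positivity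
    simp only [← Finset.sum_mul]
    by_cases hx : x ∈ S
    · rw [indicator_of_mem hx]
      nlinarith [mul_le_mul_of_nonneg_right (ht1 x) p0]
    · rw [indicator_of_notMem hx]
      nlinarith [mul_le_mul_of_nonneg_right (ht2 x hx) p0]
  have a3 := mul_le_mul_of_nonneg_left a2 (by positivity : 0 ≤ 2 * α / (α + 2) * lam)
  unfold vir
  linarith

theorem WIN_exp {α : ℝ} (h : Sub N α) : ∃ p : ℝ, α + 2 < p ∧ ((N : ℝ) - 2) * p < 2 * N := by
  have hg : 0 < 2 * (N : ℝ) - (N - 2) * (α + 2) := by linarith [h.2.2]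
  have h0 : 0 < |(N : ℝ) - 2| + 1 := by positivity
  refine ⟨α + 2 + (2 * N - (N - 2) * (α + 2)) / (|(N : ℝ) - 2| + 1), by
    linarith [div_pos hg h0], ?_⟩
  have h1 := div_pos hg h0
  have h2 : (2 * (N : ℝ) - (N - 2) * (α + 2)) / (|(N : ℝ) - 2| + 1) * (|(N : ℝ) - 2| + 1) =
      2 * N - (N - 2) * (α + 2) := div_mul_cancel₀ _ h0.ne'
  nlinarith [mul_le_mul_of_nonneg_right (le_abs_self ((N : ℝ) - 2)) h1.le]

theorem WIN_flu (h6 : St_GR) (h7 : St_FLU) {g : E N → ℂ} {dg : Fin N → E N → ℂ} (hg : H1 g dg) :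
    Flu (fun x => ‖g x‖ ^ 2) (kd dg) (jj g dg) (nn g dg) := by
  obtain ⟨f1, f2, -, -, f5, -, -⟩ := h7 N g dg hg.mem0 hg.mem1
  exact ⟨⟨integrable_ms hg.mem0, fun x => by positivity⟩,
    ⟨f2, fun x => Finset.sum_nonneg fun _ _ => by positivity⟩, fun i => (f1 i).1, fun i => (f1 i).2,
    fun x => (f5 x).1, fun x => (f5 x).2, h6 N g dg hg⟩

/-- The algebra of the parameters of the Hedberg inequality. -/
theorem WIN_par {α b M F0 η l K : ℝ} (hα : 0 < α) (hM : 0 < M) (hF : 0 < F0) (hη : 0 < η)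
    (hl : 0 < l) :
    ((M ^ (1 - b) / η * (l / F0 ^ (1 - b))) ^ (-(2 / α))) ^ (α / 2) *
      (((M / F0) ^ (1 / 2 : ℝ)) ^ (2 - 2 * b) * K + ((M / F0) ^ (1 / 2 : ℝ)) ^ (-(2 * b)) * M) =
      η / l * (K + F0) := by
  have h1 : 0 < M ^ (1 - b) := Real.rpow_pos_of_pos hM _
  have h2 : 0 < F0 ^ (1 - b) := Real.rpow_pos_of_pos hF _
  have h3 : 0 < M / F0 := div_pos hM hF
  rw [← Real.rpow_mul (by positivity), ← Real.rpow_mul h3.le, ← Real.rpow_mul h3.le]
  have e1 : -(2 / α) * (α / 2) = -1 := by field_simp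
  have e2 : 1 / 2 * (2 - 2 * b) = 1 - b := by ring
  have e3 : 1 / 2 * -(2 * b) = (1 - b) - 1 := by ring
  rw [e1, e2, e3, Real.rpow_neg_one, Real.rpow_sub_one h3.ne', Real.div_rpow hM.le hF.le]
  field_simp

theorem WIN_rad {α q M c Y : ℝ} (hα : 0 < α) (hq : 0 < q) (hM : 0 < M) (hc : 0 < c) (hY : 0 < Y) :
    ((M / (c * Y) ^ (-(2 / α))) ^ (1 / q)) ^ 2 =
      M ^ (2 / q) * c ^ (4 / (α * q)) * Y ^ (4 / (α * q)) := by
  have h1 : 0 < c * Y := mul_pos hc hY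
  rw [Real.rpow_neg h1.le, div_inv_eq_mul, ← Real.rpow_natCast,
    ← Real.rpow_mul (by positivity), Real.mul_rpow hM.le (by positivity), ← Real.rpow_mul h1.le,
    mul_assoc, ← Real.mul_rpow hc.le hY.le]
  congr 2
  · push_cast; ring
  · push_cast; field_simp; ring

theorem WIN_alg {V m k P J α t e D C F η : ℝ}
    (h1 : V ≤ (4 + 5 * e) * k - (2 * α * (t - e) * P - D * J)) (h2 : m ≤ e * k)
    (h3 : D * J ≤ D * (e * (C * (k + F) + F))) (h4 : D * e * (C + 1) * F ≤ D * e * (C + 1) * P)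
    (h5 : 0 ≤ e * (2 * α + D) * k) (h6 : 0 ≤ e * 7 * P) (h7 : e * (7 + 2 * α + D * (C + 1)) = η) :
    V + m + e * k ≤ -((2 * α * t - η) * P - (4 + η) * k) := by
  subst h7
  linarith

theorem WIN (h1 : St_FLD) (h2 : St_ZD) (h3 : St_HED) (h4 : St_BASIC) (h5 : St_LMASS)
    (h6 : St_GR) (h7 : St_FLU) (h8 : St_TL) : St_WIN := by
  intro N q α q' η M hS hq hq0 hq1 hαq hη hM
  have hα : 0 < α := hS.2.1
  have hqN : (q : ℝ) ≤ N := by exact_mod_cast hq
  obtain ⟨CH, hCH, hH⟩ := h3 N α q' hα (by linarith) hαq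
  set t : ℝ := N - q + 1 with ht
  have t0 : 0 < t := by linarith
  set D : ℝ := 2 * α / (α + 2) * t with hD
  have D0 : 0 ≤ D := by positivity
  set e : ℝ := η / (7 + 2 * α + D * (CH + 1)) with he
  have e0 : 0 < e := by positivity
  have e1 : e * (7 + 2 * α + D * (CH + 1)) = η := div_mul_cancel₀ _ (by positivity)
  obtain ⟨CF, hCF, hF⟩ := h1 N q q' e hS.1 hq hq0 hq1 e0
  set b : ℝ := α * (N - q') / 4 with hb
  set c : ℝ := M ^ (1 - b) / e with hc
  have c0 : 0 < c := div_pos (Real.rpow_pos_of_pos hM _) e0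
  refine ⟨(2 * N * CF) ^ 2 * M / e * (M ^ (2 / q') * c ^ (4 / (α * q'))), by positivity, ?_⟩
  intro κ v dv hκ hv hms t1 T F0 ht1 hT hF0 hen
  set l : ℝ := Real.exp (κ * (t1 + T)) with hl
  have l0 : 0 < l := Real.exp_pos _
  set Y : ℝ := l / F0 ^ (1 - b) with hY
  have Y0 : 0 < Y := div_pos l0 (Real.rpow_pos_of_pos hF0 _)
  set Θ : ℝ := (c * Y) ^ (-(2 / α)) with hΘ
  have Θ0 : 0 < Θ := Real.rpow_pos_of_pos (mul_pos c0 Y0) _
  obtain ⟨-, bk, bp, bq, bm, -, bj⟩ := h4 N α κ v dv hS hv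
  obtain ⟨p, hp1, hp2⟩ := WIN_exp hS
  obtain ⟨mp, cp, -⟩ := bq p (by linarith) hp2
  obtain ⟨B, hB⟩ := (isCompact_Icc (a := t1) (b := t1 + T)).bddAbove_image cp.continuousOn
  obtain ⟨r0, hr0, hH⟩ := hH p Θ ((M / F0) ^ (1 / 2 : ℝ)) B (e * F0 / l) hp1 Θ0
    (Real.rpow_pos_of_pos (div_pos hM hF0) _) (by positivity)
  obtain ⟨X, hX1, hX2⟩ := hF M Θ r0 hM Θ0 hr0
  have hflu : ∀ s, 0 < s → Flu (fun x => ‖v s x‖ ^ 2) (kd (dv s)) (jj (v s) (dv s))
      (nn (v s) (dv s)) ∧ ∫ x, ‖v s x‖ ^ 2 = M := fun s hs =>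
    ⟨WIN_flu h6 h7 (hv.h1 s), hms s hs.le⟩
  have hflow : Flow (fun s x => ‖v s x‖ ^ 2) fun s => jj (v s) (dv s) :=
    ⟨fun s => (WIN_flu h6 h7 (hv.h1 s)).den, fun s => (WIN_flu h6 h7 (hv.h1 s)).ij,
      fun Ψ Ψ1 hΨ s hs => ((h5 N α κ v dv hS hv).2 Ψ Ψ1 hΨ).2 s hs, bj⟩
  have hkd : ∀ s, ∫ x, kd (dv s) x = kin (dv s) := fun s =>
    (h7 N (v s) (dv s) (hv.h1 s).mem0 (hv.h1 s).mem1).2.2.2.1
  set Rr : ℝ := (M / Θ) ^ (1 / q') with hR
  have R0 : 0 ≤ Rr := by positivity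
  have key := WIN_ode t1 T e (2 * N * (CF * Rr) * √M)
    (fun s => mom (X fun x => ‖v s x‖ ^ 2) (v s) (dv s))
    (fun s => (2 * α * t - η) * pot α κ v s - (4 + η) * kin (dv s)) (fun s => kin (dv s)) hT e0
    (by unfold pot; fun_prop) (fun s => kin_nonneg _) ?_ ?_
  · refine key.trans (le_of_eq ?_)
    have r2 : Rr ^ 2 = M ^ (2 / q') * c ^ (4 / (α * q')) * Y ^ (4 / (α * q')) :=
      WIN_rad hα hq0 hM c0 Y0
    have s2 : √M ^ 2 = M := Real.sq_sqrt hM.le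
    have : (2 * N * (CF * Rr) * √M) ^ 2 = (2 * N * CF) ^ 2 * Rr ^ 2 * √M ^ 2 := by ring
    rw [this, r2, s2]
    ring
  · intro s hs
    have s0 : 0 < s := by linarith [hs.1]
    obtain ⟨X1, X2, x1, -, x3, x4, x5, x6⟩ := hX1 _ _ _ _ (hflu s s0).1 (hflu s s0).2
    obtain ⟨Xd, B', y1, y2, y3⟩ := hX2 (fun s x => ‖v s x‖ ^ 2) (fun s => kd (dv s))
      (fun s => jj (v s) (dv s)) (fun s => nn (v s) (dv s)) hflow hflu s s0
    have hcont : ∀ᶠ σ in 𝓝 s, ∀ i, Continuous (X (fun x => ‖v σ x‖ ^ 2) i) := by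
      filter_upwards [lt_mem_nhds s0] with σ hσ i
      obtain ⟨X1, X2, x1, -⟩ := hX1 _ _ _ _ (hflu σ hσ).1 (hflu σ hσ).2
      exact x1.cont i
    have hder := h2 N α κ v dv hS hv s B' (fun σ => X fun x => ‖v σ x‖ ^ 2) Xd X1 X2 s0 x1 hcont
      y1 y2
    refine ⟨_, hder, ?_⟩
    obtain ⟨z1, z2⟩ := hH (v s) (kin (dv s)) (kin_nonneg _) (h8 N _ _ (hv.h1 s)) (bm s).1 (mp s)
      (hB ⟨s, hs, rfl⟩)
    rw [hkd s] at x6 y3
    have hvir := WIN_vir h7 (hv.h1 s) hα (Real.exp_pos (κ * s)).le (bm s).1 x1 z1 x3 x4 x5 x6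
    have z3 : ∫ x in Sp q' Θ r0 fun x => ‖v s x‖ ^ 2, ‖v s x‖ ^ (α + 2) ≤
        e / l * (CH * (kin (dv s) + F0) + F0) := by
      refine z2.trans (le_of_eq ?_)
      have w1 : 2 - α * (N - q') / 2 = 2 - 2 * b := by rw [hb]; ring
      have w2 : α * (N - q') / 2 = 2 * b := by rw [hb]; ring
      have w3 := WIN_par (b := b) (K := kin (dv s)) hα hM hF0 e0 l0
      rw [w1, w2, hms s s0.le, mul_assoc, w3]
      ring
    set I := ∫ x in Sp q' Θ r0 fun x => ‖v s x‖ ^ 2, ‖v s x‖ ^ (α + 2) with hI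
    have I0 : 0 ≤ I := integral_nonneg fun x => by positivity
    have k0 := kin_nonneg (dv s)
    have z4 : Real.exp (κ * s) * I ≤ e * (CH * (kin (dv s) + F0) + F0) := by
      have u1 : Real.exp (κ * s) ≤ l :=
        Real.exp_le_exp.2 (mul_le_mul_of_nonneg_left hs.2 hκ)
      calc Real.exp (κ * s) * I ≤ l * I := mul_le_mul_of_nonneg_right u1 I0
        _ ≤ l * (e / l * (CH * (kin (dv s) + F0) + F0)) := mul_le_mul_of_nonneg_left z3 l0.le
        _ = _ := by field_simp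
    have z5 : F0 ≤ pot α κ v s := by
      have := hen s hs
      unfold en at this
      linarith
    have z6 : 2 * α / (α + 2) * Real.exp (κ * s) * ((t - e) * pw α (v s) - t * I) =
        2 * α * (t - e) * pot α κ v s - D * (Real.exp (κ * s) * I) := by
      rw [hD]
      unfold pot
      field_simp
    rw [z6] at hvir
    have z7 := mul_le_mul_of_nonneg_left z4 D0
    have z8 : D * e * (CH + 1) * F0 ≤ D * e * (CH + 1) * pot α κ v s :=
      mul_le_mul_of_nonneg_left z5 (by positivity)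
    have z9 : 0 ≤ e * (2 * α + D) * kin (dv s) := by positivity
    have z10 : 0 ≤ e * 7 * pot α κ v s := mul_nonneg (by positivity) (hF0.le.trans z5)
    have y4 : mom Xd (v s) (dv s) ≤ e * kin (dv s) := y3
    exact WIN_alg hvir y4 z7 z8 z9 z10 e1
  · intro s hs
    have s0 : 0 < s := by linarith [hs.1]
    obtain ⟨X1, X2, -, x2, -⟩ := hX1 _ _ _ _ (hflu s s0).1 (hflu s s0).2
    have := WIN_mom h7 (hv.h1 s) (mul_nonneg hCF R0) x2
    rwa [hms s s0.le] at this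

end Pool.Agent.Lib.MP_13801a_an.ND
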